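import Mathlib

/-!
General tools on valuation rings: minimal elements, contents of vectors of polynomials,
purity, and a Gauss-type lemma.
-/

namespace Pool.Agent.Helper13.Fa

open IsLocalRing

section minimal

variable {O : Type*} [CommRing O] [IsDomain O] [ValuationRing O]

lemma exists_min_dvd {ι : Type*} (s : Finset ι) (f : ι → O) (h : ∃ i ∈ s, f i ≠ 0) :
    ∃ i ∈ s, f i ≠ 0 ∧ ∀ j ∈ s, f i ∣ f j := by
  classical
  induction s using Finset.induction_on with
  | empty => obtain ⟨i, hi, _⟩ := h; simp at hi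
  | insert a s ha ih =>
    by_cases hs : ∃ i ∈ s, f i ≠ 0
    · obtain ⟨i, hi, hi0, hid⟩ := ih hs
      rcases ValuationRing.dvd_total (f i) (f a) with h1 | h1
      · refine ⟨i, Finset.mem_insert_of_mem hi, hi0, ?_⟩
        intro j hj
        rcases Finset.mem_insert.mp hj with rfl | hj
        · exact h1
        · exact hid j hj
      · refine ⟨a, Finset.mem_insert_self _ _, ?_, ?_⟩
        · intro h0
          rw [h0, zero_dvd_iff] at h1
          exact hi0 h1
        · intro j hj
          rcases Finset.mem_insert.mp hj with rfl | hj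
          · exact dvd_rfl
          · exact h1.trans (hid j hj)
    · push Not at hs
      obtain ⟨i, hi, hi0⟩ := h
      rcases Finset.mem_insert.mp hi with rfl | hi
      · refine ⟨i, Finset.mem_insert_self _ _, hi0, ?_⟩
        intro j hj
        rcases Finset.mem_insert.mp hj with rfl | hj
        · exact dvd_rfl
        · rw [hs j hj]; exact dvd_zero _
      · exact absurd (hs i hi) hi0

/-- scaling of a finite family of scalars -/
lemma exists_scale {ι : Type*} [Finite ι] (f : ι → O) (h : f ≠ 0) :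
    ∃ t : O, t ≠ 0 ∧ ∃ g : ι → O, (∀ i, f i = t * g i) ∧ ∃ i, residue O (g i) ≠ 0 := by
  classical
  have := Fintype.ofFinite ι
  obtain ⟨i0, hi0⟩ : ∃ i, f i ≠ 0 := by
    by_contra hcon
    push Not at hcon
    exact h (funext hcon)
  obtain ⟨i, _, hi, hid⟩ := exists_min_dvd Finset.univ f ⟨i0, Finset.mem_univ _, hi0⟩
  have : ∀ j, ∃ c, f j = f i * c := fun j => hid j (Finset.mem_univ _)
  choose g hg using this
  refine ⟨f i, hi, g, hg, i, ?_⟩
  have h1 : g i = 1 := by
    have := hg i
    exact mul_left_cancel₀ hi (by rw [← this, mul_one])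
  rw [h1, map_one]
  exact one_ne_zero

lemma content_mv {σ ι : Type*} [Finite ι] (f : ι → MvPolynomial σ O) (h : f ≠ 0) :
    ∃ t : O, t ≠ 0 ∧ ∃ g : ι → MvPolynomial σ O, (∀ i, f i = MvPolynomial.C t * g i) ∧
      ∃ i, MvPolynomial.map (residue O) (g i) ≠ 0 := by
  classical
  have := Fintype.ofFinite ι
  obtain ⟨i0, hi0⟩ : ∃ i, f i ≠ 0 := by
    by_contra hcon
    push Not at hcon
    exact h (funext hcon)
  obtain ⟨μ0, hμ0⟩ : ∃ μ, (f i0).coeff μ ≠ 0 := by
    by_contra hcon
    push Not at hcon
    exact hi0 (MvPolynomial.ext _ _ (by simpa using hcon))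
  set S : Finset (ι × (σ →₀ ℕ)) :=
    Finset.univ ×ˢ (Finset.univ.biUnion fun i => (f i).support) with hS
  obtain ⟨p, _, hp, hpd⟩ := exists_min_dvd S (fun p => (f p.1).coeff p.2)
    ⟨(i0, μ0), by
      rw [hS, Finset.mem_product]
      refine ⟨Finset.mem_univ _, Finset.mem_biUnion.mpr ⟨i0, Finset.mem_univ _, ?_⟩⟩
      exact MvPolynomial.mem_support_iff.mpr hμ0, hμ0⟩
  have hall : ∀ i, MvPolynomial.C ((f p.1).coeff p.2) ∣ f i := by
    intro i
    rw [MvPolynomial.C_dvd_iff_dvd_coeff]
    intro μ
    by_cases hμ : (f i).coeff μ = 0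
    · rw [hμ]; exact dvd_zero _
    · refine hpd (i, μ) ?_
      rw [hS, Finset.mem_product]
      exact ⟨Finset.mem_univ _, Finset.mem_biUnion.mpr ⟨i, Finset.mem_univ _,
        MvPolynomial.mem_support_iff.mpr hμ⟩⟩
  choose g hg using hall
  refine ⟨_, hp, g, hg, p.1, ?_⟩
  intro h0
  have h1 : (g p.1).coeff p.2 = 1 := by
    have h2 := congrArg (MvPolynomial.coeff p.2) (hg p.1)
    rw [MvPolynomial.coeff_C_mul] at h2
    exact mul_left_cancel₀ hp (by rw [← h2, mul_one])
  have h3 := congrArg (MvPolynomial.coeff p.2) h0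
  rw [MvPolynomial.coeff_map, h1, map_one, MvPolynomial.coeff_zero] at h3
  exact one_ne_zero h3

lemma content_poly {ι : Type*} [Finite ι] (f : ι → Polynomial O) (h : f ≠ 0) :
    ∃ t : O, t ≠ 0 ∧ ∃ g : ι → Polynomial O, (∀ i, f i = Polynomial.C t * g i) ∧
      ∃ i, Polynomial.map (residue O) (g i) ≠ 0 := by
  classical
  have := Fintype.ofFinite ι
  obtain ⟨i0, hi0⟩ : ∃ i, f i ≠ 0 := by
    by_contra hcon
    push Not at hcon
    exact h (funext hcon)
  obtain ⟨μ0, hμ0⟩ : ∃ μ, (f i0).coeff μ ≠ 0 := by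
    by_contra hcon
    push Not at hcon
    exact hi0 (Polynomial.ext (by simpa using hcon))
  set S : Finset (ι × ℕ) :=
    Finset.univ ×ˢ (Finset.univ.biUnion fun i => (f i).support) with hS
  obtain ⟨p, _, hp, hpd⟩ := exists_min_dvd S (fun p => (f p.1).coeff p.2)
    ⟨(i0, μ0), by
      rw [hS, Finset.mem_product]
      refine ⟨Finset.mem_univ _, Finset.mem_biUnion.mpr ⟨i0, Finset.mem_univ _, ?_⟩⟩
      exact Polynomial.mem_support_iff.mpr hμ0, hμ0⟩
  have hall : ∀ i, Polynomial.C ((f p.1).coeff p.2) ∣ f i := by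
    intro i
    rw [Polynomial.C_dvd_iff_dvd_coeff]
    intro μ
    by_cases hμ : (f i).coeff μ = 0
    · rw [hμ]; exact dvd_zero _
    · refine hpd (i, μ) ?_
      rw [hS, Finset.mem_product]
      exact ⟨Finset.mem_univ _, Finset.mem_biUnion.mpr ⟨i, Finset.mem_univ _,
        Polynomial.mem_support_iff.mpr hμ⟩⟩
  choose g hg using hall
  refine ⟨_, hp, g, hg, p.1, ?_⟩
  intro h0
  have h1 : (g p.1).coeff p.2 = 1 := by
    have h2 := congrArg (fun q => Polynomial.coeff q p.2) (hg p.1)
    simp only [Polynomial.coeff_C_mul] at h2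
    exact mul_left_cancel₀ hp (by rw [← h2, mul_one])
  have h3 := congrArg (fun q => Polynomial.coeff q p.2) h0
  simp only [Polynomial.coeff_map, h1, map_one, Polynomial.coeff_zero] at h3
  exact one_ne_zero h3

end minimal

section pure

variable {O : Type*} [CommRing O] [IsDomain O] [ValuationRing O]

/-- generic purity: if the reduction of `T` is injective then `T f ∈ t S` implies `f ∈ t S` -/
lemma pure_of_content {S S' ι ι' : Type*} [CommRing S] [IsDomain S] [CommRing S']
    [Fintype ι] [Fintype ι'] (al : O →+* S) (hal : Function.Injective al)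
    (red : S →+* S') (hred : ∀ a ∈ maximalIdeal O, red (al a) = 0)
    (hcont : ∀ f : ι → S, f ≠ 0 → ∃ t : O, t ≠ 0 ∧ ∃ g : ι → S, (∀ i, f i = al t * g i) ∧
      ∃ i, red (g i) ≠ 0)
    (T : Matrix ι' ι S) (hinj : ∀ f : ι → S', (T.map red).mulVec f = 0 → f = 0)
    (t : O) (f : ι → S) (g : ι' → S) (h : ∀ i, T.mulVec f i = al t * g i) :
    ∃ f' : ι → S, ∀ i, f i = al t * f' i := by
  classical
  by_cases hf : f = 0
  · exact ⟨0, by intro i; simp [hf]⟩
  obtain ⟨τ, hτ, f', hf', i0, hi0⟩ := hcont f hf
  rcases ValuationRing.dvd_total t τ with h1 | h1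
  · obtain ⟨c, rfl⟩ := h1
    refine ⟨fun i => al c * f' i, fun i => ?_⟩
    rw [hf' i, map_mul]; ring
  · obtain ⟨c, rfl⟩ := h1
    by_cases hc : IsUnit c
    · obtain ⟨u, rfl⟩ := hc
      refine ⟨fun i => al (↑u⁻¹ : O) * f' i, fun i => ?_⟩
      have hcc : al (u : O) * al (↑u⁻¹ : O) = 1 := by
        rw [← map_mul, Units.mul_inv, map_one]
      rw [hf' i, map_mul]
      linear_combination (- al τ * f' i) * hcc
    · exfalso
      have h2 : ∀ i, T.mulVec f' i = al c * g i := by
        intro i
        have h3 := h i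
        have h4 : T.mulVec f i = al τ * T.mulVec f' i := by
          simp only [Matrix.mulVec, dotProduct, Finset.mul_sum]
          refine Finset.sum_congr rfl fun j _ => ?_
          rw [hf' j]; ring
        rw [h4, map_mul, mul_assoc] at h3
        exact mul_left_cancel₀ (by rwa [Ne, map_eq_zero_iff al hal]) h3
      have h5 : (T.map red).mulVec (fun i => red (f' i)) = 0 := by
        funext i
        have h6 := congrArg red (h2 i)
        rw [map_mul, hred c ((mem_maximalIdeal c).mpr hc), zero_mul] at h6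
        simp only [Matrix.mulVec, dotProduct, Matrix.map_apply, map_sum, map_mul,
          Pi.zero_apply] at h6 ⊢
        exact h6
      have h7 := hinj _ h5
      exact hi0 (congrFun h7 i0)

lemma pure_mv {σ ι ι' : Type*} [Fintype ι] [Fintype ι']
    (T : Matrix ι' ι (MvPolynomial σ O))
    (hinj : ∀ f : ι → MvPolynomial σ (ResidueField O),
      (T.map (MvPolynomial.map (residue O))).mulVec f = 0 → f = 0)
    (t : O) (f : ι → MvPolynomial σ O) (g : ι' → MvPolynomial σ O)
    (h : ∀ i, T.mulVec f i = MvPolynomial.C t * g i) :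
    ∃ f' : ι → MvPolynomial σ O, ∀ i, f i = MvPolynomial.C t * f' i :=
  pure_of_content MvPolynomial.C (MvPolynomial.C_injective _ _)
    (MvPolynomial.map (residue O)) (by
      intro a ha
      rw [MvPolynomial.map_C, (residue_eq_zero_iff a).mpr ha, MvPolynomial.C_0])
    (fun f hf => content_mv f hf) T hinj t f g h

lemma pure_poly {ι ι' : Type*} [Fintype ι] [Fintype ι']
    (T : Matrix ι' ι (Polynomial O))
    (hinj : ∀ f : ι → Polynomial (ResidueField O),
      (T.map (Polynomial.mapRingHom (residue O))).mulVec f = 0 → f = 0)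
    (t : O) (f : ι → Polynomial O) (g : ι' → Polynomial O)
    (h : ∀ i, T.mulVec f i = Polynomial.C t * g i) :
    ∃ f' : ι → Polynomial O, ∀ i, f i = Polynomial.C t * f' i :=
  pure_of_content Polynomial.C Polynomial.C_injective
    (Polynomial.mapRingHom (residue O)) (by
      intro a ha
      rw [Polynomial.coe_mapRingHom, Polynomial.map_C, (residue_eq_zero_iff a).mpr ha,
        Polynomial.C_0])
    (fun f hf => content_poly f hf) T hinj t f g h

lemma inj_mv {σ ι ι' : Type*} [Fintype ι] [Fintype ι']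
    (T : Matrix ι' ι (MvPolynomial σ O))
    (hinj : ∀ f : ι → MvPolynomial σ (ResidueField O),
      (T.map (MvPolynomial.map (residue O))).mulVec f = 0 → f = 0)
    (f : ι → MvPolynomial σ O) (h : T.mulVec f = 0) : f = 0 := by
  obtain ⟨f', hf'⟩ := pure_mv T hinj 0 f 0 (by intro i; rw [h]; simp)
  funext i
  rw [hf' i]; simp

lemma inj_poly {ι ι' : Type*} [Fintype ι] [Fintype ι']
    (T : Matrix ι' ι (Polynomial O))
    (hinj : ∀ f : ι → Polynomial (ResidueField O),
      (T.map (Polynomial.mapRingHom (residue O))).mulVec f = 0 → f = 0)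
    (f : ι → Polynomial O) (h : T.mulVec f = 0) : f = 0 := by
  obtain ⟨f', hf'⟩ := pure_poly T hinj 0 f 0 (by intro i; rw [h]; simp)
  funext i
  rw [hf' i]; simp

end pure

section fraction

attribute [local instance] MvPolynomial.algebraMvPolynomial Polynomial.algebra
  Polynomial.isLocalization

variable {O : Type*} [CommRing O] [IsDomain O] [ValuationRing O]

lemma scale_mv {σ ι : Type*} [Finite ι] (f : ι → MvPolynomial σ (FractionRing O)) (h : f ≠ 0) :
    ∃ c : FractionRing O, c ≠ 0 ∧ ∃ g : ι → MvPolynomial σ O,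
      (∀ i, MvPolynomial.map (algebraMap O (FractionRing O)) (g i) = MvPolynomial.C c * f i) ∧
      ∃ i, MvPolynomial.map (residue O) (g i) ≠ 0 := by
  classical
  obtain ⟨b, hb⟩ := IsLocalization.exist_integer_multiples_of_finite
    ((nonZeroDivisors O).map (MvPolynomial.C : O →+* MvPolynomial σ O))
    (S := MvPolynomial σ (FractionRing O)) f
  obtain ⟨b, hbm⟩ := b
  obtain ⟨b0, hb0, rfl⟩ := hbm
  have hb0' : b0 ≠ 0 := nonZeroDivisors.ne_zero hb0
  have : ∀ i, ∃ g : MvPolynomial σ O, MvPolynomial.map (algebraMap O (FractionRing O)) g =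
      MvPolynomial.C (algebraMap O (FractionRing O) b0) * f i := by
    intro i
    obtain ⟨g, hg⟩ := hb i
    refine ⟨g, ?_⟩
    have : (algebraMap (MvPolynomial σ O) (MvPolynomial σ (FractionRing O))) g =
      (MvPolynomial.map (algebraMap O (FractionRing O))) g := rfl
    rw [← this, hg]
    show (MvPolynomial.C b0 : MvPolynomial σ O) • f i = _
    rw [Algebra.smul_def]
    congr 1
    show MvPolynomial.map (algebraMap O (FractionRing O)) (MvPolynomial.C b0) = _
    rw [MvPolynomial.map_C]
  choose g hg using this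
  have hinj : Function.Injective (MvPolynomial.map (σ := σ) (algebraMap O (FractionRing O))) :=
    MvPolynomial.map_injective _ (IsFractionRing.injective O (FractionRing O))
  have hbL : algebraMap O (FractionRing O) b0 ≠ 0 := by
    rwa [Ne, map_eq_zero_iff _ (IsFractionRing.injective O (FractionRing O))]
  have hg0 : g ≠ 0 := by
    intro h0
    apply h
    funext i
    have h1 := hg i
    rw [h0, Pi.zero_apply, map_zero] at h1
    rcases mul_eq_zero.mp h1.symm with h2 | h2
    · exact absurd ((MvPolynomial.C_eq_zero).mp h2) hbL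
    · exact h2
  obtain ⟨t, ht, g', hg', i0, hi0⟩ := content_mv g hg0
  have htL : algebraMap O (FractionRing O) t ≠ 0 := by
    rwa [Ne, map_eq_zero_iff _ (IsFractionRing.injective O (FractionRing O))]
  refine ⟨algebraMap O (FractionRing O) b0 / algebraMap O (FractionRing O) t,
    div_ne_zero hbL htL, g', fun i => ?_, i0, hi0⟩
  have h1 := hg i
  rw [hg' i, map_mul, MvPolynomial.map_C] at h1
  have htC : (MvPolynomial.C (algebraMap O (FractionRing O) t) :
    MvPolynomial σ (FractionRing O)) ≠ 0 := by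
    rwa [Ne, MvPolynomial.C_eq_zero]
  apply mul_left_cancel₀ htC
  rw [h1, ← mul_assoc, ← MvPolynomial.C_mul, mul_div_cancel₀ _ htL]

lemma scale_poly {ι : Type*} [Finite ι] (f : ι → Polynomial (FractionRing O)) (h : f ≠ 0) :
    ∃ c : FractionRing O, c ≠ 0 ∧ ∃ g : ι → Polynomial O,
      (∀ i, Polynomial.map (algebraMap O (FractionRing O)) (g i) = Polynomial.C c * f i) ∧
      ∃ i, Polynomial.map (residue O) (g i) ≠ 0 := by
  classical
  obtain ⟨b, hb⟩ := IsLocalization.exist_integer_multiples_of_finite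
    ((nonZeroDivisors O).map (Polynomial.C : O →+* Polynomial O))
    (S := Polynomial (FractionRing O)) f
  obtain ⟨b, hbm⟩ := b
  obtain ⟨b0, hb0, rfl⟩ := hbm
  have hb0' : b0 ≠ 0 := nonZeroDivisors.ne_zero hb0
  have : ∀ i, ∃ g : Polynomial O, Polynomial.map (algebraMap O (FractionRing O)) g =
      Polynomial.C (algebraMap O (FractionRing O) b0) * f i := by
    intro i
    obtain ⟨g, hg⟩ := hb i
    refine ⟨g, ?_⟩
    have : (algebraMap (Polynomial O) (Polynomial (FractionRing O))) g =
      (Polynomial.map (algebraMap O (FractionRing O))) g := rfl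
    rw [← this, hg]
    show (Polynomial.C b0 : Polynomial O) • f i = _
    rw [Algebra.smul_def]
    congr 1
    show Polynomial.map (algebraMap O (FractionRing O)) (Polynomial.C b0) = _
    rw [Polynomial.map_C]
  choose g hg using this
  have hbL : algebraMap O (FractionRing O) b0 ≠ 0 := by
    rwa [Ne, map_eq_zero_iff _ (IsFractionRing.injective O (FractionRing O))]
  have hg0 : g ≠ 0 := by
    intro h0
    apply h
    funext i
    have h1 := hg i
    rw [h0, Pi.zero_apply, Polynomial.map_zero] at h1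
    rcases mul_eq_zero.mp h1.symm with h2 | h2
    · exact absurd ((Polynomial.C_eq_zero).mp h2) hbL
    · exact h2
  obtain ⟨t, ht, g', hg', i0, hi0⟩ := content_poly g hg0
  have htL : algebraMap O (FractionRing O) t ≠ 0 := by
    rwa [Ne, map_eq_zero_iff _ (IsFractionRing.injective O (FractionRing O))]
  refine ⟨algebraMap O (FractionRing O) b0 / algebraMap O (FractionRing O) t,
    div_ne_zero hbL htL, g', fun i => ?_, i0, hi0⟩
  have h1 := hg i
  rw [hg' i, Polynomial.map_mul, Polynomial.map_C] at h1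
  have htC : (Polynomial.C (algebraMap O (FractionRing O) t) :
    Polynomial (FractionRing O)) ≠ 0 := by
    rwa [Ne, Polynomial.C_eq_zero]
  apply mul_left_cancel₀ htC
  rw [h1, ← mul_assoc, ← Polynomial.C_mul, mul_div_cancel₀ _ htL]

end fraction

end Pool.Agent.Helper13.Fa
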