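import Pool.Agent.Helper13.FaA

/-!
Rank-one symmetric matrices over a UFD, degrees of determinants, and a Gauss-type lemma.
-/

namespace Pool.Agent.Helper13.Fa

open IsLocalRing

lemma ufd_factor {R ι : Type*} [CommRing R] [IsDomain R] [UniqueFactorizationMonoid R]
    [Fintype ι] (Y : ι → ι → R) (n : ι) (hn : Y n n ≠ 0)
    (h : ∀ i j, Y n n * Y i j = Y i n * Y j n) :
    ∃ (a : R) (v : ι → R), (∀ i j, Y i j = a * v i * v j) ∧ v n ≠ 0 ∧ a ≠ 0 := by
  classical
  let _ := UniqueFactorizationMonoid.strongNormalizationMonoid (α := R)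
  let _ := UniqueFactorizationMonoid.toNormalizedGCDMonoid R
  obtain ⟨v, hv, hgcd⟩ := Finset.extract_gcd (s := Finset.univ) (fun i => Y i n)
    ⟨n, Finset.mem_univ _⟩
  set g := Finset.univ.gcd (fun i => Y i n) with hg
  have h1 : ∀ i j, Y n n ∣ g ^ 2 * v j * v i := by
    intro i j
    refine ⟨Y i j, ?_⟩
    rw [h i j, hv i (Finset.mem_univ _), hv j (Finset.mem_univ _)]
    ring
  have h2 : ∀ j, Y n n ∣ g ^ 2 * v j := by
    intro j
    have h3 : Y n n ∣ Finset.univ.gcd (fun i => g ^ 2 * v j * v i) :=
      Finset.dvd_gcd fun i _ => h1 i j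
    have h5 := h3.trans (Finset.gcd_mul_left' (s := Finset.univ) (f := v) (g ^ 2 * v j)).dvd
    rwa [hgcd, mul_one] at h5
  have h4 : Y n n ∣ g ^ 2 := by
    have h3 : Y n n ∣ Finset.univ.gcd (fun j => g ^ 2 * v j) :=
      Finset.dvd_gcd fun j _ => h2 j
    have h5 := h3.trans (Finset.gcd_mul_left' (s := Finset.univ) (f := v) (g ^ 2)).dvd
    rwa [hgcd, mul_one] at h5
  obtain ⟨a, ha⟩ := h4
  have hY : ∀ i j, Y i j = a * v i * v j := by
    intro i j
    apply mul_left_cancel₀ hn
    rw [h i j, hv i (Finset.mem_univ _), hv j (Finset.mem_univ _)]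
    linear_combination (v i * v j) * ha
  refine ⟨a, v, hY, ?_, ?_⟩
  · intro h0
    apply hn
    rw [hY n n, h0]; ring
  · intro h0
    apply hn
    rw [hY n n, h0]; ring

lemma totalDegree_det_le {σ R ι : Type*} [CommRing R] [Fintype ι] [DecidableEq ι]
    (M : Matrix ι ι (MvPolynomial σ R)) (d : ι → ℕ) (h : ∀ i j, (M i j).totalDegree ≤ d i) :
    M.det.totalDegree ≤ ∑ i, d i := by
  rw [Matrix.det_apply]
  refine MvPolynomial.totalDegree_finsetSum_le fun τ _ => ?_
  have h1 : (∏ i, M (τ i) i).totalDegree ≤ ∑ i, d i := by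
    refine (MvPolynomial.totalDegree_finsetProd _ _).trans ?_
    calc ∑ i, (M (τ i) i).totalDegree ≤ ∑ i, d (τ i) := Finset.sum_le_sum fun i _ => h _ _
      _ = ∑ i, d i := Equiv.sum_comp τ d
  rcases Int.units_eq_one_or (Equiv.Perm.sign τ) with h2 | h2
  · rw [h2, one_smul]; exact h1
  · rw [h2, Units.neg_smul, one_smul, MvPolynomial.totalDegree_neg]; exact h1

/-- specialisation `x₀ ↦ X, x₁ ↦ 1, x₂ ↦ 0` -/
noncomputable def phi (R : Type*) [CommRing R] : MvPolynomial (Fin 3) R →+* Polynomial R :=
  MvPolynomial.eval₂Hom Polynomial.C ![Polynomial.X, 1, 0]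

@[simp] lemma phi_C {R : Type*} [CommRing R] (a : R) :
    phi R (MvPolynomial.C a) = Polynomial.C a := by simp [phi]

@[simp] lemma phi_X0 {R : Type*} [CommRing R] :
    phi R (MvPolynomial.X 0) = Polynomial.X := by simp [phi]

@[simp] lemma phi_X1 {R : Type*} [CommRing R] :
    phi R (MvPolynomial.X 1) = 1 := by simp [phi]

@[simp] lemma phi_X2 {R : Type*} [CommRing R] :
    phi R (MvPolynomial.X 2) = 0 := by simp [phi]

lemma natDegree_phi_le {R : Type*} [CommRing R] (p : MvPolynomial (Fin 3) R) :
    (phi R p).natDegree ≤ p.totalDegree := by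
  rw [phi, MvPolynomial.coe_eval₂Hom, MvPolynomial.eval₂_eq']
  refine Polynomial.natDegree_sum_le_of_forall_le _ _ fun d hd => ?_
  refine (Polynomial.natDegree_C_mul_le _ _).trans ?_
  have h1 : d 0 ≤ p.totalDegree := by
    refine le_trans ?_ (MvPolynomial.le_totalDegree hd)
    by_cases h0 : (0 : Fin 3) ∈ d.support
    · exact Finset.single_le_sum (f := fun i => d i) (fun _ _ => Nat.zero_le _) h0
    · rw [Finsupp.notMem_support_iff.mp h0]; exact Nat.zero_le _
  rw [Fin.prod_univ_three]
  simp only [Matrix.cons_val_zero, Matrix.cons_val_one, one_pow, mul_one, Matrix.cons_val]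
  by_cases h2 : d 2 = 0
  · rw [h2, pow_zero, mul_one]
    exact (Polynomial.natDegree_X_pow_le _).trans h1
  · rw [zero_pow h2, mul_zero, Polynomial.natDegree_zero]
    exact Nat.zero_le _

lemma phi_map {R S : Type*} [CommRing R] [CommRing S] (f : R →+* S)
    (p : MvPolynomial (Fin 3) R) :
    phi S (MvPolynomial.map f p) = (phi R p).map f := by
  induction p using MvPolynomial.induction_on with
  | C a => simp
  | add p q hp hq => simp [hp, hq]
  | mul_X p i hp =>
    rw [map_mul, map_mul, map_mul, Polynomial.map_mul, hp, MvPolynomial.map_X]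
    fin_cases i <;> simp

variable {O : Type*} [CommRing O] [IsDomain O] [ValuationRing O]

lemma gauss_degree {m : ℕ} (f : Polynomial O) (h w : Polynomial (FractionRing O))
    (hf : f.map (algebraMap O (FractionRing O)) = h * w ^ 2)
    (lam : Fin m → ResidueField O) (hlam : Function.Injective lam)
    (hroot : ∀ i, (f.map (residue O)).eval (lam i) = 0)
    (hsimple : ∀ i, (Polynomial.derivative (f.map (residue O))).eval (lam i) ≠ 0) :
    m ≤ h.natDegree := by
  classical
  rcases Nat.eq_zero_or_pos m with hm | hm
  · rw [hm]; exact Nat.zero_le _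
  have hf0 : f.map (algebraMap O (FractionRing O)) ≠ 0 := by
    intro h0
    have h1 : f = 0 := Polynomial.map_injective _ (IsFractionRing.injective O (FractionRing O))
      (by rw [h0, Polynomial.map_zero])
    apply hsimple ⟨0, hm⟩
    rw [h1]; simp
  have hh0 : h ≠ 0 := by
    intro h0; apply hf0; rw [hf, h0, zero_mul]
  have hw0 : w ≠ 0 := by
    intro h0; apply hf0; rw [hf, h0]; ring
  obtain ⟨c1, hc1, h', hh', i1, hi1⟩ := scale_poly (ι := Unit) (fun _ => h)
    (by intro h0; exact hh0 (congrFun h0 ()))
  obtain ⟨c2, hc2, w', hw', i2, hi2⟩ := scale_poly (ι := Unit) (fun _ => w)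
    (by intro h0; exact hw0 (congrFun h0 ()))
  set H := h' i1 with hH
  set W := w' i2 with hW
  have e1 : Polynomial.map (algebraMap O (FractionRing O)) H = Polynomial.C c1 * h := hh' i1
  have e2 : Polynomial.map (algebraMap O (FractionRing O)) W = Polynomial.C c2 * w := hw' i2
  set c := c1 * c2 ^ 2 with hc
  have hc0 : c ≠ 0 := mul_ne_zero hc1 (pow_ne_zero _ hc2)
  have e3 : Polynomial.C c * f.map (algebraMap O (FractionRing O)) =
      (H * W ^ 2).map (algebraMap O (FractionRing O)) := by
    rw [Polynomial.map_mul, Polynomial.map_pow, e1, e2, hf, hc, Polynomial.C_mul,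
      Polynomial.C_pow]
    ring
  have hinj : Function.Injective (Polynomial.map (algebraMap O (FractionRing O))) :=
    Polynomial.map_injective _ (IsFractionRing.injective O (FractionRing O))
  -- the reductions are proportional
  obtain ⟨a, b, ha, hab⟩ : ∃ a b : ResidueField O, a ≠ 0 ∧
      Polynomial.C a * f.map (residue O) =
      Polynomial.C b * (H.map (residue O) * W.map (residue O) ^ 2) := by
    rcases ValuationRing.isInteger_or_isInteger O c with ⟨a, ha⟩ | ⟨a, ha⟩
    · refine ⟨residue O a, 1, ?_, ?_⟩
      · intro h0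
        have h1 : Polynomial.C a * f = H * W ^ 2 := by
          apply hinj
          rw [Polynomial.map_mul, Polynomial.map_C, ha, e3]
        have h2 := congrArg (Polynomial.map (residue O)) h1
        rw [Polynomial.map_mul, Polynomial.map_C, h0, Polynomial.C_0, zero_mul,
          Polynomial.map_mul, Polynomial.map_pow] at h2
        rcases mul_eq_zero.mp h2.symm with h3 | h3
        · exact hi1 h3
        · exact hi2 (pow_eq_zero_iff (two_ne_zero) |>.mp h3)
      · have h1 : Polynomial.C a * f = H * W ^ 2 := by
          apply hinj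
          rw [Polynomial.map_mul, Polynomial.map_C, ha, e3]
        have h2 := congrArg (Polynomial.map (residue O)) h1
        rw [Polynomial.map_mul, Polynomial.map_C,
          Polynomial.map_mul, Polynomial.map_pow] at h2
        rw [h2, Polynomial.C_1, one_mul]
    · refine ⟨1, residue O a, one_ne_zero, ?_⟩
      have h1 : f = Polynomial.C a * (H * W ^ 2) := by
        apply hinj
        rw [Polynomial.map_mul, Polynomial.map_C, ha, ← e3, ← mul_assoc, ← Polynomial.C_mul,
          inv_mul_cancel₀ hc0, Polynomial.C_1, one_mul]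
      have h2 := congrArg (Polynomial.map (residue O)) h1
      rw [Polynomial.map_mul, Polynomial.map_C,
          Polynomial.map_mul, Polynomial.map_pow] at h2
      rw [h2, Polynomial.C_1, one_mul]
  have hHroot : ∀ i, (H.map (residue O)).eval (lam i) = 0 := by
    intro i
    have hb : b ≠ 0 := by
      intro hb
      rw [hb, Polynomial.C_0, zero_mul] at hab
      rcases mul_eq_zero.mp hab with h1 | h1
      · exact ha (Polynomial.C_eq_zero.mp h1)
      · apply hsimple i; rw [h1]; simp
    have h1 := congrArg (Polynomial.eval (lam i)) hab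
    simp only [Polynomial.eval_mul, Polynomial.eval_C, Polynomial.eval_pow, hroot i,
      mul_zero] at h1
    have h2 : (W.map (residue O)).eval (lam i) ≠ 0 := by
      intro h0
      have h3 := congrArg (fun p => Polynomial.eval (lam i) (Polynomial.derivative p)) hab
      simp only [Polynomial.derivative_mul, Polynomial.derivative_C, zero_mul, zero_add,
        Polynomial.derivative_pow, Polynomial.eval_mul, Polynomial.eval_C, Polynomial.eval_add,
        Polynomial.eval_pow, h0] at h3
      have h4 : a * Polynomial.eval (lam i) (Polynomial.derivative (f.map (residue O))) = 0 := by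
        rw [h3]; simp
      rcases mul_eq_zero.mp h4 with h5 | h5
      · exact ha h5
      · exact hsimple i h5
    rcases mul_eq_zero.mp h1.symm with h3 | h3
    · exact absurd h3 hb
    · rcases mul_eq_zero.mp h3 with h4 | h4
      · exact h4
      · exact absurd (pow_eq_zero_iff (two_ne_zero) |>.mp h4) h2
  have hcard : m ≤ (H.map (residue O)).natDegree := by
    have h1 := Polynomial.card_le_degree_of_subset_roots (p := H.map (residue O))
      (Z := Finset.univ.image lam) (by
        intro x hx
        rw [Finset.mem_val, Finset.mem_image] at hx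
        obtain ⟨i, _, rfl⟩ := hx
        rw [Polynomial.mem_roots hi1]
        exact hHroot i)
    rwa [Finset.card_image_of_injective _ hlam, Finset.card_univ, Fintype.card_fin] at h1
  calc m ≤ (H.map (residue O)).natDegree := hcard
    _ ≤ H.natDegree := Polynomial.natDegree_map_le
    _ = (H.map (algebraMap O (FractionRing O))).natDegree :=
        (Polynomial.natDegree_map_eq_of_injective
          (IsFractionRing.injective O (FractionRing O)) _).symm
    _ = h.natDegree := by rw [e1, Polynomial.natDegree_C_mul hc1]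

end Pool.Agent.Helper13.Fa
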