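import Pool.Agent.Helper13.FaB

/-!
The explicit net of symmetric matrices and the kernels of its members.
-/

namespace Pool.Agent.Helper13.Fa

open IsLocalRing Matrix

/-- index set of size `2 s + m + 1` : block 2, block 1, block 3 -/
abbrev HI (s m : ℕ) := Fin m ⊕ (Fin s ⊕ Fin (s + 1))

variable {S : Type*} [CommRing S] {s m : ℕ}

/-- the block `β` -/
def bet (x0 x1 x2 : S) (d : Fin s → S) (q : Fin s) (t : Fin (s + 1)) : S :=
  (if t = q.castSucc then x0 + d q * x2 else 0) - (if t = q.succ then x1 else 0)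

/-- the explicit net -/
def stdMat (x0 x1 x2 : S) (lam : Fin m → S) (d : Fin s → S) :
    Matrix (HI s m) (HI s m) S := fun i j =>
  match i, j with
  | .inl i, .inl i' => if i = i' then x0 - lam i * x1 else 0
  | .inr (.inl q), .inr (.inl q') => if q = q' then x0 else 0
  | .inr (.inl q), .inr (.inr t) => bet x0 x1 x2 d q t
  | .inr (.inr t), .inr (.inl q) => bet x0 x1 x2 d q t
  | _, _ => 0

@[simp] lemma stdMat_22 (x0 x1 x2 : S) (lam : Fin m → S) (d : Fin s → S) (i i' : Fin m) :
    stdMat x0 x1 x2 lam d (.inl i) (.inl i') = if i = i' then x0 - lam i * x1 else 0 := rfl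
@[simp] lemma stdMat_2r (x0 x1 x2 : S) (lam : Fin m → S) (d : Fin s → S) (i : Fin m)
    (j : Fin s ⊕ Fin (s + 1)) :
    stdMat x0 x1 x2 lam d (.inl i) (.inr j) = 0 := rfl
@[simp] lemma stdMat_r2 (x0 x1 x2 : S) (lam : Fin m → S) (d : Fin s → S) (i : Fin m)
    (j : Fin s ⊕ Fin (s + 1)) :
    stdMat x0 x1 x2 lam d (.inr j) (.inl i) = 0 := by
  rcases j with j | j <;> rfl
@[simp] lemma stdMat_11 (x0 x1 x2 : S) (lam : Fin m → S) (d : Fin s → S) (q q' : Fin s) :
    stdMat x0 x1 x2 lam d (.inr (.inl q)) (.inr (.inl q')) = if q = q' then x0 else 0 := rfl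
@[simp] lemma stdMat_13 (x0 x1 x2 : S) (lam : Fin m → S) (d : Fin s → S) (q : Fin s)
    (t : Fin (s + 1)) :
    stdMat x0 x1 x2 lam d (.inr (.inl q)) (.inr (.inr t)) = bet x0 x1 x2 d q t := rfl
@[simp] lemma stdMat_31 (x0 x1 x2 : S) (lam : Fin m → S) (d : Fin s → S) (q : Fin s)
    (t : Fin (s + 1)) :
    stdMat x0 x1 x2 lam d (.inr (.inr t)) (.inr (.inl q)) = bet x0 x1 x2 d q t := rfl
@[simp] lemma stdMat_33 (x0 x1 x2 : S) (lam : Fin m → S) (d : Fin s → S)
    (t t' : Fin (s + 1)) :
    stdMat x0 x1 x2 lam d (.inr (.inr t)) (.inr (.inr t')) = 0 := rfl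

lemma bet_map {S' : Type*} [CommRing S'] (f : S →+* S') (x0 x1 x2 : S) (d : Fin s → S)
    (q : Fin s) (t : Fin (s + 1)) :
    f (bet x0 x1 x2 d q t) = bet (f x0) (f x1) (f x2) (fun q => f (d q)) q t := by
  unfold bet
  rw [map_sub]
  congr 1
  · split_ifs <;> simp
  · split_ifs <;> simp

lemma stdMat_map {S' : Type*} [CommRing S'] (f : S →+* S') (x0 x1 x2 : S) (lam : Fin m → S)
    (d : Fin s → S) :
    (stdMat x0 x1 x2 lam d).map f =
      stdMat (f x0) (f x1) (f x2) (fun i => f (lam i)) (fun q => f (d q)) := by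
  ext i j
  rw [Matrix.map_apply]
  rcases i with i | i | i <;> rcases j with j | j | j <;>
    simp only [stdMat_22, stdMat_2r, stdMat_r2, stdMat_11, stdMat_13, stdMat_31, stdMat_33,
      bet_map, map_zero]
  · split_ifs <;> simp
  · split_ifs <;> simp

lemma stdMat_symm (x0 x1 x2 : S) (lam : Fin m → S) (d : Fin s → S) (i j : HI s m) :
    stdMat x0 x1 x2 lam d i j = stdMat x0 x1 x2 lam d j i := by
  rcases i with i | i | i <;> rcases j with j | j | j <;>
    simp only [stdMat_22, stdMat_2r, stdMat_r2, stdMat_11, stdMat_13, stdMat_31, stdMat_33]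
  · by_cases h : i = j
    · subst h; rfl
    · rw [if_neg h, if_neg (Ne.symm h)]
  · by_cases h : i = j
    · subst h; rfl
    · rw [if_neg h, if_neg (Ne.symm h)]

lemma sum_bet (x0 x1 x2 : S) (d : Fin s → S) (q : Fin s) (w : Fin (s + 1) → S) :
    ∑ t, bet x0 x1 x2 d q t * w t = (x0 + d q * x2) * w q.castSucc - x1 * w q.succ := by
  unfold bet
  simp only [sub_mul, Finset.sum_sub_distrib, ite_mul, zero_mul]
  rw [Finset.sum_ite_eq' Finset.univ q.castSucc, Finset.sum_ite_eq' Finset.univ q.succ]
  simp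

lemma sum_betT_castSucc (x0 x1 x2 : S) (d : Fin s → S) (q : Fin s) (a : Fin s → S) :
    ∑ q', bet x0 x1 x2 d q' q.castSucc * a q' = (x0 + d q * x2) * a q -
      ∑ q' : Fin s, (if q'.val + 1 = q.val then x1 * a q' else 0) := by
  unfold bet
  simp only [sub_mul, Finset.sum_sub_distrib, ite_mul, zero_mul]
  congr 1
  · have : ∀ q' : Fin s, (q.castSucc = q'.castSucc) ↔ q = q' := fun q' => by
      rw [Fin.castSucc_inj]
    simp only [this]
    rw [Finset.sum_ite_eq Finset.univ q]
    simp
  · refine Finset.sum_congr rfl fun q' _ => ?_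
    have : (q.castSucc = q'.succ) ↔ q'.val + 1 = q.val := by
      rw [Fin.ext_iff]; simp; omega
    simp only [this]

lemma sum_betT_succ (x0 x1 x2 : S) (d : Fin s → S) (q : Fin s) (a : Fin s → S) :
    ∑ q', bet x0 x1 x2 d q' q.succ * a q' =
      (∑ q' : Fin s, (if q'.val = q.val + 1 then (x0 + d q' * x2) * a q' else 0)) -
      x1 * a q := by
  unfold bet
  simp only [sub_mul, Finset.sum_sub_distrib, ite_mul, zero_mul]
  congr 1
  · refine Finset.sum_congr rfl fun q' _ => ?_
    have : (q.succ = q'.castSucc) ↔ q'.val = q.val + 1 := by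
      rw [Fin.ext_iff]; simp; omega
    simp only [this]
  · have : ∀ q' : Fin s, (q.succ = q'.succ) ↔ q = q' := fun q' => by
      rw [Fin.succ_inj]
    simp only [this]
    rw [Finset.sum_ite_eq Finset.univ q]
    simp

lemma betT_inj_asc [IsDomain S] (x0 x1 x2 : S) (d : Fin s → S)
    (hy : ∀ q, x0 + d q * x2 ≠ 0) (a : Fin s → S)
    (h : ∀ q : Fin s, ∑ q', bet x0 x1 x2 d q' q.castSucc * a q' = 0) : a = 0 := by
  have key : ∀ n : ℕ, ∀ q : Fin s, q.val < n → a q = 0 := by
    intro n
    induction n with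
    | zero => intro q hq; omega
    | succ n ih =>
      intro q hq
      have h1 := h q
      rw [sum_betT_castSucc] at h1
      have h2 : ∑ q' : Fin s, (if q'.val + 1 = q.val then x1 * a q' else 0) = 0 := by
        refine Finset.sum_eq_zero fun q' _ => ?_
        split_ifs with h3
        · rw [ih q' (by omega), mul_zero]
        · rfl
      rw [h2, sub_zero] at h1
      exact (mul_eq_zero.mp h1).resolve_left (hy q)
  funext q
  exact key (q.val + 1) q (Nat.lt_succ_self _)

lemma betT_inj_desc [IsDomain S] (x0 x1 x2 : S) (d : Fin s → S)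
    (hx : x1 ≠ 0) (a : Fin s → S)
    (h : ∀ q : Fin s, ∑ q', bet x0 x1 x2 d q' q.succ * a q' = 0) : a = 0 := by
  have key : ∀ n : ℕ, ∀ q : Fin s, s - q.val ≤ n → a q = 0 := by
    intro n
    induction n with
    | zero => intro q hq; omega
    | succ n ih =>
      intro q hq
      have h1 := h q
      rw [sum_betT_succ] at h1
      have h2 : ∑ q' : Fin s, (if q'.val = q.val + 1 then (x0 + d q' * x2) * a q' else 0) =
          0 := by
        refine Finset.sum_eq_zero fun q' _ => ?_
        split_ifs with h3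
        · rw [ih q' (by omega), mul_zero]
        · rfl
      rw [h2, zero_sub, neg_eq_zero] at h1
      exact (mul_eq_zero.mp h1).resolve_left hx
  funext q
  exact key (s - q.val) q le_rfl

lemma stdMat_mulVec_2 (x0 x1 x2 : S) (lam : Fin m → S) (d : Fin s → S) (z : HI s m → S)
    (i : Fin m) : (stdMat x0 x1 x2 lam d).mulVec z (.inl i) = (x0 - lam i * x1) * z (.inl i) := by
  simp only [Matrix.mulVec, dotProduct, Fintype.sum_sum_type, stdMat_22, stdMat_2r, zero_mul,
    Finset.sum_const_zero, add_zero, ite_mul]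
  rw [Finset.sum_ite_eq Finset.univ i]
  simp

lemma stdMat_mulVec_1 (x0 x1 x2 : S) (lam : Fin m → S) (d : Fin s → S) (z : HI s m → S)
    (q : Fin s) : (stdMat x0 x1 x2 lam d).mulVec z (.inr (.inl q)) =
      x0 * z (.inr (.inl q)) + ((x0 + d q * x2) * z (.inr (.inr q.castSucc)) -
      x1 * z (.inr (.inr q.succ))) := by
  simp only [Matrix.mulVec, dotProduct, Fintype.sum_sum_type, stdMat_r2, stdMat_11, stdMat_13,
    zero_mul, Finset.sum_const_zero, zero_add, ite_mul]
  rw [Finset.sum_ite_eq Finset.univ q, sum_bet x0 x1 x2 d q (fun t => z (.inr (.inr t)))]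
  simp

lemma stdMat_mulVec_3 (x0 x1 x2 : S) (lam : Fin m → S) (d : Fin s → S) (z : HI s m → S)
    (t : Fin (s + 1)) : (stdMat x0 x1 x2 lam d).mulVec z (.inr (.inr t)) =
      ∑ q, bet x0 x1 x2 d q t * z (.inr (.inl q)) := by
  simp only [Matrix.mulVec, dotProduct, Fintype.sum_sum_type, stdMat_r2, stdMat_31, stdMat_33,
    zero_mul, Finset.sum_const_zero, zero_add, add_zero]

/-- kernel of the net -/
lemma stdMat_ker [IsDomain S] (x0 x1 x2 : S) (lam : Fin m → S) (d : Fin s → S)
    (hl : ∀ i, x0 - lam i * x1 ≠ 0) (hy : ∀ q, x0 + d q * x2 ≠ 0) (z : HI s m → S)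
    (h : (stdMat x0 x1 x2 lam d).mulVec z = 0) :
    (∀ i, z (.inl i) = 0) ∧ (∀ q, z (.inr (.inl q)) = 0) ∧
    ∀ q : Fin s, (x0 + d q * x2) * z (.inr (.inr q.castSucc)) =
      x1 * z (.inr (.inr q.succ)) := by
  have h2 : ∀ i, z (.inl i) = 0 := by
    intro i
    have h1 := congrFun h (.inl i)
    rw [stdMat_mulVec_2] at h1
    exact (mul_eq_zero.mp h1).resolve_left (hl i)
  have ha : (fun q => z (.inr (.inl q)) : Fin s → S) = 0 := by
    apply betT_inj_asc x0 x1 x2 d hy
    intro q
    have h1 := congrFun h (.inr (.inr q.castSucc))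
    rw [stdMat_mulVec_3] at h1
    exact h1
  refine ⟨h2, fun q => congrFun ha q, fun q => ?_⟩
  have h1 := congrFun h (.inr (.inl q))
  rw [stdMat_mulVec_1, show z (.inr (.inl q)) = 0 from congrFun ha q, mul_zero, zero_add] at h1
  exact sub_eq_zero.mp h1

/-- the distinguished index -/
abbrev n0 (s m : ℕ) : HI s m := .inr (.inr 0)

/-- The block `(1,3)` of the matrix whose row `n0` is replaced. -/
def bMat (x0 x1 x2 : S) (d : Fin s → S) :
    Matrix (Fin s ⊕ Fin (s + 1)) (Fin s ⊕ Fin (s + 1)) S :=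
  ((stdMat (m := 0) x0 x1 x2 (fun _ => 0) d).submatrix Sum.inr Sum.inr).updateRow (.inr 0)
    (Pi.single (.inr 0) 1)

lemma bMat_map {S' : Type*} [CommRing S'] (f : S →+* S') (x0 x1 x2 : S) (d : Fin s → S) :
    (bMat x0 x1 x2 d).map f = bMat (f x0) (f x1) (f x2) (fun q => f (d q)) := by
  unfold bMat
  ext i j
  rw [Matrix.map_apply]
  by_cases hi : i = .inr 0
  · subst hi
    rw [Matrix.updateRow_self, Matrix.updateRow_self]
    by_cases hj : j = .inr 0
    · subst hj; simp
    · rw [Pi.single_eq_of_ne hj, Pi.single_eq_of_ne hj, map_zero]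
  · rw [Matrix.updateRow_ne hi, Matrix.updateRow_ne hi, Matrix.submatrix_apply,
      Matrix.submatrix_apply]
    have := congrFun (congrFun (stdMat_map f x0 x1 x2 (fun _ : Fin 0 => (0 : S)) d)
      (.inr i)) (.inr j)
    rw [Matrix.map_apply] at this
    rw [this]
    rcases i with i | i <;> rcases j with j | j <;> rfl

lemma bMat_det_ne [IsDomain S] (x0 x1 x2 : S) (d : Fin s → S) (hx : x1 ≠ 0) :
    (bMat x0 x1 x2 d).det ≠ 0 := by
  intro h0
  obtain ⟨z, hz, hz0⟩ := Matrix.exists_mulVec_eq_zero_iff.mpr h0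
  apply hz
  have hw0 : z (.inr 0) = 0 := by
    have h1 := congrFun hz0 (.inr 0)
    unfold bMat at h1
    rw [Matrix.mulVec, Matrix.updateRow_self] at h1
    simpa using h1
  have hrow : ∀ i : Fin s ⊕ Fin (s + 1), i ≠ .inr 0 →
      ∑ j, stdMat (m := 0) x0 x1 x2 (fun _ => 0) d (.inr i) (.inr j) * z j = 0 := by
    intro i hi
    have h1 := congrFun hz0 i
    unfold bMat at h1
    rw [Matrix.mulVec, Matrix.updateRow_ne hi] at h1
    exact h1
  have ha : (fun q => z (.inl q) : Fin s → S) = 0 := by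
    apply betT_inj_desc x0 x1 x2 d hx
    intro q
    have h1 := hrow (.inr q.succ) (by
      intro h; exact absurd (Sum.inr.inj h) (Fin.succ_ne_zero q))
    rw [Fintype.sum_sum_type] at h1
    simpa using h1
  have hw : ∀ n : ℕ, ∀ t : Fin (s + 1), t.val ≤ n → z (.inr t) = 0 := by
    intro n
    induction n with
    | zero =>
      intro t ht
      have : t = 0 := by rw [Fin.ext_iff]; simpa using ht
      rw [this, hw0]
    | succ n ih =>
      intro t ht
      by_cases ht0 : t = 0
      · rw [ht0, hw0]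
      obtain ⟨q, rfl⟩ := Fin.exists_succ_eq.mpr ht0
      have h1 := hrow (.inl q) (by simp)
      rw [Fintype.sum_sum_type] at h1
      simp only [stdMat_11, stdMat_13, ite_mul, zero_mul] at h1
      rw [Finset.sum_ite_eq Finset.univ q, sum_bet x0 x1 x2 d q (fun t => z (.inr t)),
        show z (.inl q) = 0 from congrFun ha q] at h1
      have h2 : z (.inr q.castSucc) = 0 := ih _ (by
        rw [Fin.val_castSucc]; rw [Fin.val_succ] at ht; omega)
      rw [h2] at h1
      simp only [Finset.mem_univ, if_true, mul_zero, zero_sub, zero_add, neg_eq_zero] at h1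
      exact (mul_eq_zero.mp h1).resolve_left hx
  funext i
  rcases i with q | t
  · exact congrFun ha q
  · exact hw t.val t le_rfl

lemma det_std_updateRow (x0 x1 x2 : S) (lam : Fin m → S) (d : Fin s → S) :
    ((stdMat x0 x1 x2 lam d).updateRow (n0 s m) (Pi.single (n0 s m) 1)).det =
      (∏ i, (x0 - lam i * x1)) * (bMat x0 x1 x2 d).det := by
  have h1 : (stdMat x0 x1 x2 lam d).updateRow (n0 s m) (Pi.single (n0 s m) 1) =
      Matrix.fromBlocks (Matrix.diagonal fun i => x0 - lam i * x1) 0 0 (bMat x0 x1 x2 d) := by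
    ext i j
    by_cases hi : i = n0 s m
    · subst hi
      rw [Matrix.updateRow_self]
      rcases j with j | j
      · rw [Pi.single_eq_of_ne (by simp)]; rfl
      · show _ = bMat x0 x1 x2 d (.inr 0) j
        unfold bMat
        rw [Matrix.updateRow_self]
        by_cases hj : j = .inr 0
        · subst hj; simp
        · rw [Pi.single_eq_of_ne hj, Pi.single_eq_of_ne (by
            intro h; exact hj (Sum.inr.inj h))]
    · rw [Matrix.updateRow_ne hi]
      rcases i with i | i
      · rcases j with j | j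
        · rw [stdMat_22, Matrix.fromBlocks_apply₁₁, Matrix.diagonal_apply]
        · rfl
      · rcases j with j | j
        · rw [stdMat_r2]; rfl
        · show _ = bMat x0 x1 x2 d i j
          unfold bMat
          rw [Matrix.updateRow_ne (by intro h; exact hi (by rw [h])), Matrix.submatrix_apply]
          rcases i with i | i <;> rcases j with j | j <;> rfl
  rw [h1, Matrix.det_fromBlocks_zero₂₁, Matrix.det_diagonal]

lemma std_poly_simple {F : Type*} [Field F] (lam : Fin m → F) (hlam : Function.Injective lam)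
    (d : Fin s → F) (i : Fin m) :
    (((stdMat (Polynomial.X : Polynomial F) 1 0 (fun i => Polynomial.C (lam i))
      (fun q => Polynomial.C (d q))).updateRow (n0 s m) (Pi.single (n0 s m) 1)).det).eval
        (lam i) = 0 ∧
    (Polynomial.derivative
      (((stdMat (Polynomial.X : Polynomial F) 1 0 (fun i => Polynomial.C (lam i))
      (fun q => Polynomial.C (d q))).updateRow (n0 s m) (Pi.single (n0 s m) 1)).det)).eval
        (lam i) ≠ 0 := by
  classical
  rw [det_std_updateRow]
  set B := (bMat (Polynomial.X : Polynomial F) 1 0 (fun q => Polynomial.C (d q))).det with hB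
  have hBne : B.eval (lam i) ≠ 0 := by
    have h1 : B.eval (lam i) = (bMat (lam i) 1 0 d).det := by
      rw [hB, ← Polynomial.coe_evalRingHom, RingHom.map_det, RingHom.mapMatrix_apply, bMat_map]
      congr 1
      rw [Polynomial.coe_evalRingHom]
      simp
    rw [h1]
    exact bMat_det_ne _ _ _ _ one_ne_zero
  rw [← Finset.mul_prod_erase Finset.univ _ (Finset.mem_univ i)]
  constructor
  · simp
  · rw [mul_assoc, Polynomial.derivative_mul]
    simp only [mul_one, Polynomial.derivative_sub, Polynomial.derivative_X,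
      Polynomial.derivative_C, sub_zero, one_mul, Polynomial.eval_add, Polynomial.eval_mul,
      Polynomial.eval_sub, Polynomial.eval_X, Polynomial.eval_C, sub_self, zero_mul, add_zero]
    refine mul_ne_zero ?_ hBne
    rw [Polynomial.eval_prod]
    refine Finset.prod_ne_zero_iff.mpr fun j hj => ?_
    simp only [Polynomial.eval_sub, Polynomial.eval_X, Polynomial.eval_C]
    intro h
    exact (Finset.ne_of_mem_erase hj) (hlam (sub_eq_zero.mp h).symm)

end Pool.Agent.Helper13.Fa
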