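import Pool.Agent.Helper13.FaC

/-!
Lemma A: the kernel vector of a net of symmetric matrices over a valuation ring whose
reduction is the explicit net.
-/

namespace Pool.Agent.Helper13.Fa

open IsLocalRing Matrix

lemma totalDegree_map_le' {σ R R' : Type*} [CommRing R] [CommRing R'] (f : R →+* R')
    (p : MvPolynomial σ R) : (MvPolynomial.map f p).totalDegree ≤ p.totalDegree := by
  unfold MvPolynomial.totalDegree
  exact Finset.sup_mono (MvPolynomial.support_map_subset f p)

lemma totalDegree_map_inj {σ R R' : Type*} [CommRing R] [CommRing R'] (f : R →+* R')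
    (hf : Function.Injective f)
    (p : MvPolynomial σ R) : (MvPolynomial.map f p).totalDegree = p.totalDegree := by
  unfold MvPolynomial.totalDegree
  rw [MvPolynomial.support_map_of_injective p hf]

/-- the kernel vector -/
def uu {S : Type*} [CommRing S] {s : ℕ} (x0 x1 x2 : S) (d : Fin s → S) (t : Fin (s + 1)) : S :=
  x1 ^ (s - t.val) * ∏ p : Fin s, if p.val < t.val then x0 + d p * x2 else 1

section uu

variable {S : Type*} [CommRing S] {s : ℕ}

lemma prod_succ_aux (f : Fin s → S) (q : Fin s) :
    (∏ p : Fin s, if p.val < q.val + 1 then f p else 1) =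
      f q * ∏ p : Fin s, if p.val < q.val then f p else 1 := by
  classical
  rw [← Finset.mul_prod_erase Finset.univ _ (Finset.mem_univ q),
    ← Finset.mul_prod_erase Finset.univ (fun p : Fin s => if p.val < q.val then f p else 1)
      (Finset.mem_univ q)]
  rw [if_pos (Nat.lt_succ_self _), if_neg (lt_irrefl _), one_mul]
  congr 1
  refine Finset.prod_congr rfl fun p hp => ?_
  have hpq : p ≠ q := Finset.ne_of_mem_erase hp
  have hpq' : p.val ≠ q.val := fun h => hpq (Fin.ext h)
  by_cases h : p.val < q.val
  · rw [if_pos h, if_pos (by omega)]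
  · rw [if_neg h, if_neg (by omega)]

lemma uu_rec (x0 x1 x2 : S) (d : Fin s → S) (q : Fin s) :
    (x0 + d q * x2) * uu x0 x1 x2 d q.castSucc = x1 * uu x0 x1 x2 d q.succ := by
  unfold uu
  rw [Fin.val_castSucc, Fin.val_succ, prod_succ_aux (fun p => x0 + d p * x2) q]
  have h1 : s - q.val = (s - (q.val + 1)) + 1 := by omega
  rw [h1, pow_succ]
  ring

lemma uu_zero (x0 x1 x2 : S) (d : Fin s → S) : uu x0 x1 x2 d 0 = x1 ^ s := by
  unfold uu
  simp

lemma uu_map {S' : Type*} [CommRing S'] (f : S →+* S') (x0 x1 x2 : S) (d : Fin s → S)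
    (t : Fin (s + 1)) :
    f (uu x0 x1 x2 d t) = uu (f x0) (f x1) (f x2) (fun q => f (d q)) t := by
  unfold uu
  rw [map_mul, map_pow, map_prod]
  congr 1
  refine Finset.prod_congr rfl fun p _ => ?_
  split_ifs <;> simp

end uu

section field

variable {F : Type*} [Field F] {s m : ℕ}

open MvPolynomial in
lemma ell_ne (a : F) (i : Fin 3) (hi : i ≠ 0) :
    (X 0 + C a * X i : MvPolynomial (Fin 3) F) ≠ 0 := by
  intro h
  have h1 := congrArg (MvPolynomial.eval ![1, 0, 0]) h
  fin_cases i
  · exact hi rfl
  · simp at h1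
  · simp at h1

open MvPolynomial in
lemma ell_ne' (a : F) :
    (X 0 - C a * X 1 : MvPolynomial (Fin 3) F) ≠ 0 := by
  intro h
  have h1 := congrArg (MvPolynomial.eval ![1, 0, 0]) h
  simp at h1

/-- the explicit net over the field `F` -/
noncomputable abbrev stdNet (lam : Fin m → F) (d : Fin s → F) :
    Matrix (HI s m) (HI s m) (MvPolynomial (Fin 3) F) :=
  stdMat (MvPolynomial.X 0) (MvPolynomial.X 1) (MvPolynomial.X 2)
    (fun i => MvPolynomial.C (lam i)) (fun q => MvPolynomial.C (d q))

open MvPolynomial in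
/-- the explicit kernel vector over the field `F` -/
noncomputable abbrev uN (d : Fin s → F) (t : Fin (s + 1)) : MvPolynomial (Fin 3) F :=
  uu (X 0) (X 1) (X 2) (fun q => C (d q)) t

open MvPolynomial in
lemma ker_eq (lam : Fin m → F) (d : Fin s → F) (z : HI s m → MvPolynomial (Fin 3) F)
    (h : (stdNet lam d).mulVec z = 0) (hz : z ≠ 0) (hdeg : ∀ i, (z i).totalDegree ≤ s) :
    ∃ c : F, c ≠ 0 ∧ (∀ i, z (.inl i) = 0) ∧ (∀ q, z (.inr (.inl q)) = 0) ∧
      ∀ t, z (.inr (.inr t)) = C c * uN d t := by
  obtain ⟨h2, h1, h3⟩ := stdMat_ker _ _ _ _ _ (fun i => ell_ne' (lam i))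
    (fun q => ell_ne (d q) 2 (by decide)) z h
  set w : Fin (s + 1) → MvPolynomial (Fin 3) F := fun t => z (.inr (.inr t)) with hw
  have key : ∀ n : ℕ, ∀ t : Fin (s + 1), t.val ≤ n →
      w t * X 1 ^ t.val = w 0 * ∏ p : Fin s, if p.val < t.val then X 0 + C (d p) * X 2 else 1 := by
    intro n
    induction n with
    | zero =>
      intro t ht
      have : t = 0 := by rw [Fin.ext_iff]; simpa using ht
      subst this
      simp
    | succ n ih =>
      intro t ht
      by_cases ht0 : t = 0
      · subst ht0; simp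
      obtain ⟨q, rfl⟩ := Fin.exists_succ_eq.mpr ht0
      have h4 := ih q.castSucc (by rw [Fin.val_castSucc]; rw [Fin.val_succ] at ht; omega)
      have h5 : (X 0 + C (d q) * X 2) * w q.castSucc = X 1 * w q.succ := h3 q
      rw [Fin.val_castSucc] at h4
      rw [Fin.val_succ, prod_succ_aux (fun p => X 0 + C (d p) * X 2) q, pow_succ]
      linear_combination (X 0 + C (d q) * X 2) * h4 - (X 1 ^ q.val) * h5
  have hX1 : (X 1 : MvPolynomial (Fin 3) F) ≠ 0 := X_ne_zero 1
  obtain ⟨c, hc⟩ : (X 1 : MvPolynomial (Fin 3) F) ^ s ∣ w 0 := by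
    refine (X_prime (i := (1 : Fin 3)) (R := F)).pow_dvd_of_dvd_mul_right s
      (b := ∏ p : Fin s, if p.val < s then X 0 + C (d p) * X 2 else 1) ?_ ?_
    · rintro ⟨g, hg⟩
      have h4 := congrArg (MvPolynomial.eval ![1, 0, 0]) hg
      rw [map_prod, map_mul] at h4
      have h5 : ∀ p : Fin s, MvPolynomial.eval ![(1 : F), 0, 0]
          (if p.val < s then X 0 + C (d p) * X 2 else 1) = 1 := by
        intro p
        split_ifs <;> simp
      simp only [h5, Finset.prod_const_one, eval_X] at h4
      simp at h4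
    · have h4 := key s (Fin.last s) (by simp)
      rw [Fin.val_last] at h4
      rw [← h4]
      exact dvd_mul_left _ _
  have hwt : ∀ t, w t = c * uN d t := by
    intro t
    have h4 := key t.val t le_rfl
    apply mul_right_cancel₀ (pow_ne_zero t.val hX1)
    rw [h4, hc]
    show _ = c * (X 1 ^ (s - t.val) * ∏ p : Fin s, if p.val < t.val then X 0 + C (d p) * X 2
      else 1) * X 1 ^ t.val
    have h5 : (X 1 : MvPolynomial (Fin 3) F) ^ s = X 1 ^ (s - t.val) * X 1 ^ t.val := by
      rw [← pow_add]; congr 1; omega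
    rw [h5]; ring
  have hc0 : c ≠ 0 := by
    intro hc0
    apply hz
    funext i
    rcases i with i | i | i
    · exact h2 i
    · exact h1 i
    · show w i = 0
      rw [hwt i, hc0, zero_mul]
  have hcdeg : c.totalDegree = 0 := by
    have h4 := hdeg (.inr (.inr 0))
    have h5 : (w 0).totalDegree ≤ s := h4
    rw [hc, totalDegree_mul_of_isDomain (pow_ne_zero _ hX1) hc0, totalDegree_X_pow] at h5
    omega
  rw [totalDegree_eq_zero_iff_eq_C] at hcdeg
  refine ⟨c.coeff 0, ?_, h2, h1, ?_⟩
  · intro h0
    apply hc0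
    rw [hcdeg, h0, C_0]
  · intro t
    rw [← hcdeg]
    exact hwt t

end field

variable {O : Type*} [CommRing O] [IsDomain O] [ValuationRing O] {s m : ℕ}

lemma map_updateRow_single {R R' ι : Type*} [CommRing R] [CommRing R'] [DecidableEq ι]
    (f : R →+* R') (M : Matrix ι ι R) (a b : ι) :
    (M.updateRow a (Pi.single b 1)).map f = (M.map f).updateRow a (Pi.single b 1) := by
  ext i j
  rw [Matrix.map_apply]
  by_cases hi : i = a
  · subst hi
    rw [Matrix.updateRow_self, Matrix.updateRow_self]
    by_cases hj : j = b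
    · subst hj; simp
    · rw [Pi.single_eq_of_ne hj, Pi.single_eq_of_ne hj, map_zero]
  · rw [Matrix.updateRow_ne hi, Matrix.updateRow_ne hi, Matrix.map_apply]

lemma det_map_ring {R R' ι : Type*} [CommRing R] [CommRing R'] [DecidableEq ι] [Fintype ι]
    (f : R →+* R') (M : Matrix ι ι R) : (M.map f).det = f M.det := by
  rw [RingHom.map_det, RingHom.mapMatrix_apply]

lemma mulVec_map_ring {R R' ι ι' : Type*} [CommRing R] [CommRing R'] [Fintype ι]
    (f : R →+* R') (M : Matrix ι' ι R) (v : ι → R) (i : ι') :
    f (M.mulVec v i) = (M.map f).mulVec (fun j => f (v j)) i := by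
  simp only [Matrix.mulVec, dotProduct, map_sum, map_mul, Matrix.map_apply]

/-- If the determinant of `M` with a row replaced is nonzero, then kernel vectors of `M` are
determined by the corresponding coordinate. -/
lemma ker_unique {R ι : Type*} [CommRing R] [IsDomain R] [DecidableEq ι] [Fintype ι]
    (M : Matrix ι ι R) (n : ι) (hD : (M.updateRow n (Pi.single n 1)).det ≠ 0)
    (z : ι → R) (hz : M.mulVec z = 0) (hn : z n = 0) : z = 0 := by
  apply Matrix.eq_zero_of_mulVec_eq_zero hD
  funext i
  by_cases hi : i = n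
  · subst hi
    rw [Matrix.mulVec, Matrix.updateRow_self]
    simpa using hn
  · rw [Matrix.mulVec, Matrix.updateRow_ne hi]
    exact congrFun hz i

lemma ker_prop {R ι : Type*} [CommRing R] [IsDomain R] [DecidableEq ι] [Fintype ι]
    (M : Matrix ι ι R) (n : ι) (hD : (M.updateRow n (Pi.single n 1)).det ≠ 0)
    (y z : ι → R) (hy : M.mulVec y = 0) (hz : M.mulVec z = 0) (i : ι) :
    y n * z i = z n * y i := by
  have h := ker_unique M n hD (fun i => y n * z i - z n * y i) (by
    funext j
    have e1 : M.mulVec (fun i => y n * z i - z n * y i) j =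
        y n * M.mulVec z j - z n * M.mulVec y j := by
      simp only [Matrix.mulVec, dotProduct, Finset.mul_sum, ← Finset.sum_sub_distrib]
      refine Finset.sum_congr rfl fun l _ => ?_
      ring
    rw [e1, hy, hz]; simp) (by ring)
  have := congrFun h i
  simpa [sub_eq_zero] using this

lemma adj_col {R ι : Type*} [CommRing R] [DecidableEq ι] [Fintype ι]
    (M : Matrix ι ι R) (hdet : M.det = 0) (j : ι) :
    M.mulVec (fun i => M.adjugate i j) = 0 := by
  funext i
  have h := congrFun (congrFun (Matrix.mul_adjugate M) i) j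
  rw [hdet, zero_smul, Matrix.mul_apply] at h
  exact h

theorem lemmaA (M : Matrix (HI s m) (HI s m) (MvPolynomial (Fin 3) O))
    (hsymm : M.IsSymm) (hdeg : ∀ i j, (M i j).totalDegree ≤ 1)
    (hdet : M.det = 0) (lam : Fin m → ResidueField O) (hlam : Function.Injective lam)
    (d : Fin s → ResidueField O)
    (hred : M.map (MvPolynomial.map (residue O)) = stdNet lam d) :
    ∃ v : HI s m → MvPolynomial (Fin 3) O, M.mulVec v = 0 ∧
      (∀ i, MvPolynomial.map (residue O) (v (.inl i)) = 0) ∧
      (∀ q, MvPolynomial.map (residue O) (v (.inr (.inl q))) = 0) ∧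
      ∀ t, MvPolynomial.map (residue O) (v (.inr (.inr t))) = uN d t := by
  classical
  set L := FractionRing O with hL
  set i0 : MvPolynomial (Fin 3) O →+* MvPolynomial (Fin 3) L :=
    MvPolynomial.map (algebraMap O L) with hi0
  have hi0inj : Function.Injective i0 :=
    MvPolynomial.map_injective _ (IsFractionRing.injective O L)
  set ML := M.map i0 with hML
  set D := (M.updateRow (n0 s m) (Pi.single (n0 s m) 1)).det with hD
  have hDbar : MvPolynomial.map (residue O) D =
      ((stdNet lam d).updateRow (n0 s m) (Pi.single (n0 s m) 1)).det := by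
    rw [hD, ← det_map_ring, map_updateRow_single, hred]
  have hDbar0 : MvPolynomial.map (residue O) D ≠ 0 := by
    rw [hDbar, det_std_updateRow]
    refine mul_ne_zero ?_ (bMat_det_ne _ _ _ _ (MvPolynomial.X_ne_zero 1))
    exact Finset.prod_ne_zero_iff.mpr fun i _ => ell_ne' (lam i)
  have hD0 : D ≠ 0 := by
    intro h0; apply hDbar0; rw [h0, map_zero]
  have hDL : (ML.updateRow (n0 s m) (Pi.single (n0 s m) 1)).det = i0 D := by
    rw [hML, ← map_updateRow_single, det_map_ring]
  have hDL0 : (ML.updateRow (n0 s m) (Pi.single (n0 s m) 1)).det ≠ 0 := by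
    rw [hDL]
    intro h0
    exact hD0 (hi0inj (by rw [h0, map_zero]))
  have hdetL : ML.det = 0 := by rw [hML, det_map_ring, hdet, map_zero]
  set Y : HI s m → HI s m → MvPolynomial (Fin 3) L := fun i j => ML.adjugate i j with hY
  have hYsymm : ∀ i j, Y i j = Y j i := by
    intro i j
    have h1 : ML.IsSymm := by
      rw [hML, Matrix.IsSymm, ← Matrix.transpose_map, hsymm.eq]
    have h2 := Matrix.adjugate_transpose ML
    rw [h1.eq] at h2
    have h3 := congrFun (congrFun h2 j) i
    rw [Matrix.transpose_apply] at h3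
    exact h3
  have hYcol : ∀ j, ML.mulVec (fun i => Y i j) = 0 := fun j => adj_col ML hdetL j
  have hYn : Y (n0 s m) (n0 s m) = i0 D := by
    rw [← hDL]
    exact Matrix.adjugate_apply ML _ _
  obtain ⟨a, v, hav, hvn, ha0⟩ := ufd_factor Y (n0 s m) (by rw [hYn, ← hDL]; exact hDL0) (by
    intro i j
    have h1 := ker_prop ML (n0 s m) hDL0 (fun i => Y i (n0 s m)) (fun i => Y i j)
      (hYcol _) (hYcol _) i
    rw [h1, hYsymm (n0 s m) j]; ring)
  have hMv : ML.mulVec v = 0 := by
    funext i
    have h1 := congrFun (hYcol (n0 s m)) i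
    simp only [hav, Matrix.mulVec, dotProduct, Pi.zero_apply] at h1 ⊢
    have h2 : a * v (n0 s m) * ∑ j, ML i j * v j = 0 := by
      rw [Finset.mul_sum, ← h1]
      refine Finset.sum_congr rfl fun j _ => ?_
      ring
    exact (mul_eq_zero.mp h2).resolve_left (mul_ne_zero ha0 hvn)
  -- degree of a
  have hadeg : m ≤ a.totalDegree := by
    have hf : (phi O D).map (algebraMap O L) = phi L a * phi L (v (n0 s m)) ^ 2 := by
      rw [← phi_map, ← hi0, ← hYn, hav]
      simp only [map_mul]; ring
    have hfres : (phi O D).map (residue O) =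
        ((stdMat (Polynomial.X : Polynomial (ResidueField O)) 1 0
          (fun i => Polynomial.C (lam i)) (fun q => Polynomial.C (d q))).updateRow (n0 s m)
          (Pi.single (n0 s m) 1)).det := by
      rw [← phi_map, hDbar, ← det_map_ring, map_updateRow_single, stdMat_map]
      simp
    refine (gauss_degree (phi O D) (phi L a) (phi L (v (n0 s m))) hf lam hlam ?_ ?_).trans
      (natDegree_phi_le a)
    · intro i
      rw [hfres]
      exact (std_poly_simple lam hlam d i).1
    · intro i
      rw [hfres]
      exact (std_poly_simple lam hlam d i).2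
  have hvdeg : ∀ i, (v i).totalDegree ≤ s := by
    intro i
    by_cases hvi : v i = 0
    · rw [hvi, MvPolynomial.totalDegree_zero]; exact Nat.zero_le _
    have h1 : (Y i i).totalDegree ≤ 2 * s + m := by
      have h2 : Y i i = (ML.updateRow i (Pi.single i 1)).det := Matrix.adjugate_apply ML _ _
      rw [h2]
      refine (totalDegree_det_le _ (fun j => if j = i then 0 else 1) ?_).trans ?_
      · intro j l
        by_cases hj : j = i
        · subst hj
          rw [Matrix.updateRow_self, if_pos rfl]
          by_cases hl : l = j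
          · subst hl; simp
          · rw [Pi.single_eq_of_ne hl]; simp
        · rw [Matrix.updateRow_ne hj, if_neg hj, hML, Matrix.map_apply]
          exact (totalDegree_map_le' _ _).trans (hdeg _ _)
      · rw [← Finset.add_sum_erase Finset.univ _ (Finset.mem_univ i), if_pos rfl, zero_add]
        rw [Finset.sum_congr rfl (fun j hj => if_neg (Finset.ne_of_mem_erase hj)),
          Finset.sum_const, Finset.card_erase_of_mem (Finset.mem_univ _), Finset.card_univ]
        simp only [Fintype.card_sum, Fintype.card_fin, smul_eq_mul, mul_one]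
        omega
    rw [hav, MvPolynomial.totalDegree_mul_of_isDomain (mul_ne_zero ha0 hvi) hvi,
      MvPolynomial.totalDegree_mul_of_isDomain ha0 hvi] at h1
    omega
  obtain ⟨c, hc, g, hg, i1, hi1⟩ := scale_mv v (by
    intro h0; exact hvn (by rw [h0]; rfl))
  have hMg : M.mulVec g = 0 := by
    funext i
    apply hi0inj
    rw [mulVec_map_ring, ← hML]
    have h1 : (fun j => i0 (g j)) = fun j => MvPolynomial.C c * v j := by
      funext j; exact hg j
    rw [h1]
    have h2 : ML.mulVec (fun j => MvPolynomial.C c * v j) i = MvPolynomial.C c * ML.mulVec v i := by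
      simp only [Matrix.mulVec, dotProduct, Finset.mul_sum]
      refine Finset.sum_congr rfl fun j _ => ?_
      ring
    rw [h2, hMv]; simp
  have hgdeg : ∀ i, (MvPolynomial.map (residue O) (g i)).totalDegree ≤ s := by
    intro i
    refine (totalDegree_map_le' _ _).trans ?_
    rw [← totalDegree_map_inj (algebraMap O L) (IsFractionRing.injective O L), hg i]
    refine (MvPolynomial.totalDegree_mul _ _).trans ?_
    rw [MvPolynomial.totalDegree_C, zero_add]
    exact hvdeg i
  obtain ⟨c0, hc0, h2, h1, h3⟩ := ker_eq lam d (fun i => MvPolynomial.map (residue O) (g i))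
    (by
      funext i
      have h4 := congrFun hMg i
      have h5 := congrArg (MvPolynomial.map (residue O)) h4
      rw [mulVec_map_ring, hred] at h5
      rw [h5]; simp) (by
      intro h0; exact hi1 (congrFun h0 i1)) hgdeg
  obtain ⟨u, hu⟩ := residue_surjective c0
  have huu : IsUnit u := by
    rw [← residue_ne_zero_iff_isUnit, hu]; exact hc0
  obtain ⟨u, rfl⟩ := huu
  have hinv : residue O (↑u⁻¹ : O) * c0 = 1 := by
    rw [← hu, ← map_mul, Units.inv_mul, map_one]
  refine ⟨fun i => MvPolynomial.C (↑u⁻¹ : O) * g i, ?_, ?_, ?_, ?_⟩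
  · funext i
    have h4 : M.mulVec (fun i => MvPolynomial.C (↑u⁻¹ : O) * g i) i =
        MvPolynomial.C (↑u⁻¹ : O) * M.mulVec g i := by
      simp only [Matrix.mulVec, dotProduct, Finset.mul_sum]
      refine Finset.sum_congr rfl fun j _ => ?_
      ring
    rw [h4, hMg]; simp
  · intro i
    rw [map_mul, h2 i, mul_zero]
  · intro q
    rw [map_mul, h1 q, mul_zero]
  · intro t
    rw [map_mul, h3 t, MvPolynomial.map_C, ← mul_assoc, ← MvPolynomial.C_mul, hinv,
      MvPolynomial.C_1, one_mul]

end Pool.Agent.Helper13.Fa
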