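import Pool.Agent.Helper13.FaD

/-!
Lemma B: a singular pencil near the explicit one can be put in compression form.
-/

namespace Pool.Agent.Helper13.Fa

open IsLocalRing Matrix

/-- the compression condition on the index set `HI` -/
def InN {R : Type*} [CommRing R] {s m : ℕ} (M : Matrix (HI s m) (HI s m) R) : Prop :=
  (∀ i t, M (.inl i) (.inr (.inr t)) = 0) ∧ ∀ t t', M (.inr (.inr t)) (.inr (.inr t')) = 0

lemma prod_const_lt {S : Type*} [CommRing S] {s : ℕ} (x : S) :
    ∀ n : ℕ, n ≤ s → (∏ p : Fin s, if p.val < n then x else 1) = x ^ n := by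
  intro n
  induction n with
  | zero => intro _; simp
  | succ n ih =>
    intro hn
    have h1 := prod_succ_aux (fun _ : Fin s => x) ⟨n, hn⟩
    simp only at h1
    rw [h1, ih (by omega), pow_succ, mul_comm]

/-- coefficient of `x₀ ^ a x₁ ^ b` -/
noncomputable def cf {R : Type*} [CommRing R] (a b : ℕ) (p : MvPolynomial (Fin 3) R) : R :=
  p.coeff (Finsupp.single 0 a + Finsupp.single 1 b)

section cf

variable {R : Type*} [CommRing R]

lemma cf_sum {ι : Type*} (a b : ℕ) (s : Finset ι) (p : ι → MvPolynomial (Fin 3) R) :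
    cf a b (∑ i ∈ s, p i) = ∑ i ∈ s, cf a b (p i) := by
  unfold cf
  rw [MvPolynomial.coeff_sum]

lemma cf_add (a b : ℕ) (p q : MvPolynomial (Fin 3) R) :
    cf a b (p + q) = cf a b p + cf a b q := by
  unfold cf
  rw [MvPolynomial.coeff_add]

lemma cf_C_mul (a b : ℕ) (r : R) (p : MvPolynomial (Fin 3) R) :
    cf a b (MvPolynomial.C r * p) = r * cf a b p := by
  unfold cf
  rw [MvPolynomial.coeff_C_mul]

lemma cf_X0_mul_succ (a b : ℕ) (p : MvPolynomial (Fin 3) R) :
    cf (a + 1) b (MvPolynomial.X 0 * p) = cf a b p := by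
  unfold cf
  rw [← MvPolynomial.coeff_X_mul (Finsupp.single 0 a + Finsupp.single 1 b) 0 p]
  congr 1
  rw [Finsupp.single_add]
  abel

lemma cf_X1_mul_succ (a b : ℕ) (p : MvPolynomial (Fin 3) R) :
    cf a (b + 1) (MvPolynomial.X 1 * p) = cf a b p := by
  unfold cf
  rw [← MvPolynomial.coeff_X_mul (Finsupp.single 0 a + Finsupp.single 1 b) 1 p]
  congr 1
  rw [Finsupp.single_add]
  abel

lemma cf_X0_mul_zero (b : ℕ) (p : MvPolynomial (Fin 3) R) :
    cf 0 b (MvPolynomial.X 0 * p) = 0 := by
  unfold cf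
  rw [MvPolynomial.coeff_X_mul', if_neg]
  rw [Finsupp.mem_support_iff]
  simp

lemma cf_X1_mul_zero (a : ℕ) (p : MvPolynomial (Fin 3) R) :
    cf a 0 (MvPolynomial.X 1 * p) = 0 := by
  unfold cf
  rw [MvPolynomial.coeff_X_mul', if_neg]
  rw [Finsupp.mem_support_iff]
  simp

lemma cf_map {R' : Type*} [CommRing R'] (f : R →+* R') (a b : ℕ)
    (p : MvPolynomial (Fin 3) R) : cf a b (MvPolynomial.map f p) = f (cf a b p) := by
  unfold cf
  rw [MvPolynomial.coeff_map]

lemma cf_monomial (a b a' b' : ℕ) :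
    cf a b ((MvPolynomial.X 0 : MvPolynomial (Fin 3) R) ^ a' * MvPolynomial.X 1 ^ b') =
      if a = a' ∧ b = b' then 1 else 0 := by
  unfold cf
  have h1 : ((MvPolynomial.X 0 : MvPolynomial (Fin 3) R) ^ a' * MvPolynomial.X 1 ^ b') =
      MvPolynomial.monomial (Finsupp.single 0 a' + Finsupp.single 1 b') 1 := by
    rw [MvPolynomial.X_pow_eq_monomial, MvPolynomial.X_pow_eq_monomial,
      MvPolynomial.monomial_mul, one_mul]
  rw [h1, MvPolynomial.coeff_monomial]
  congr 1
  apply propext
  constructor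
  · intro h
    have h2 := DFunLike.congr_fun h 0
    have h3 := DFunLike.congr_fun h 1
    simp at h2 h3
    exact ⟨h2.symm, h3.symm⟩
  · rintro ⟨rfl, rfl⟩; rfl

end cf

/-- the pencil `x₀ M₀ + x₁ M₁ + x₂ M₂` -/
noncomputable def net3 {R ι : Type*} [CommRing R] (M0 M1 M2 : Matrix ι ι R) :
    Matrix ι ι (MvPolynomial (Fin 3) R) := fun i j =>
  MvPolynomial.X 0 * MvPolynomial.C (M0 i j) + MvPolynomial.X 1 * MvPolynomial.C (M1 i j) +
    MvPolynomial.X 2 * MvPolynomial.C (M2 i j)

lemma net3_map {R R' ι : Type*} [CommRing R] [CommRing R'] (f : R →+* R')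
    (M0 M1 M2 : Matrix ι ι R) :
    (net3 M0 M1 M2).map (MvPolynomial.map f) = net3 (M0.map f) (M1.map f) (M2.map f) := by
  ext i j : 1
  simp [net3]

lemma net3_symm {R ι : Type*} [CommRing R] {M0 M1 M2 : Matrix ι ι R} (h0 : M0.IsSymm)
    (h1 : M1.IsSymm) (h2 : M2.IsSymm) : (net3 M0 M1 M2).IsSymm := by
  ext i j : 1
  rw [Matrix.transpose_apply, net3, net3, h0.apply, h1.apply, h2.apply]

lemma net3_deg {R ι : Type*} [CommRing R] (M0 M1 M2 : Matrix ι ι R) (i j : ι) :
    (net3 M0 M1 M2 i j).totalDegree ≤ 1 := by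
  have key : ∀ (c : Fin 3) (a : R),
      (MvPolynomial.X c * MvPolynomial.C a : MvPolynomial (Fin 3) R).totalDegree ≤ 1 := by
    intro c a
    rcases subsingleton_or_nontrivial R with hR | hR
    · rw [Subsingleton.elim (MvPolynomial.X c * MvPolynomial.C a : MvPolynomial (Fin 3) R) 0]
      simp
    · refine (MvPolynomial.totalDegree_mul _ _).trans ?_
      rw [MvPolynomial.totalDegree_C, MvPolynomial.totalDegree_X]
  unfold net3
  refine (MvPolynomial.totalDegree_add _ _).trans (max_le ?_ (key _ _))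
  exact (MvPolynomial.totalDegree_add _ _).trans (max_le (key _ _) (key _ _))

lemma net3_std {F : Type*} [Field F] {s m : ℕ} (lam : Fin m → F) (d : Fin s → F)
    (M2 : Matrix (HI s m) (HI s m) F) (hM2 : M2 = stdMat 0 0 1 lam d) :
    net3 (stdMat 1 0 0 lam d) (stdMat 0 1 0 lam d) M2 = stdNet lam d := by
  subst hM2
  ext i j : 1
  unfold net3
  rcases i with i | i | i <;> rcases j with j | j | j <;>
    simp only [stdMat_22, stdMat_2r, stdMat_r2, stdMat_11, stdMat_13, stdMat_31, stdMat_33,
      bet, MvPolynomial.C_0, mul_zero, add_zero]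
  · split_ifs <;> simp
    ring
  · split_ifs <;> simp
  all_goals
    split_ifs <;> simp <;> ring

variable {O : Type*} [CommRing O] [IsDomain O] [ValuationRing O] {s m : ℕ}

lemma dot_symm {R ι : Type*} [CommRing R] [Fintype ι] {M : Matrix ι ι R} (hM : M.IsSymm)
    (x y : ι → R) : x ⬝ᵥ M.mulVec y = y ⬝ᵥ M.mulVec x := by
  rw [Matrix.dotProduct_mulVec, ← Matrix.mulVec_transpose, hM.eq, dotProduct_comm]

lemma conj_apply {R ι : Type*} [CommRing R] [Fintype ι] (G M : Matrix ι ι R) (a b : ι) :
    (G * M * Gᵀ) a b = G a ⬝ᵥ M.mulVec (G b) := by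
  rw [Matrix.mul_assoc, Matrix.mul_apply, dotProduct]
  refine Finset.sum_congr rfl fun j _ => ?_
  rw [Matrix.mul_apply, Matrix.mulVec, dotProduct]
  rfl

/-- existence of the isotropic chain -/
theorem chain_exists (M0 M1 : Matrix (HI s m) (HI s m) O)
    (h0s : M0.IsSymm) (h1s : M1.IsSymm)
    (hdet : (net3 M0 M1 0).det = 0)
    (lam : Fin m → ResidueField O) (hlam : Function.Injective lam)
    (hM0 : M0.map (residue O) = stdMat 1 0 0 lam 0)
    (hM1 : M1.map (residue O) = stdMat 0 1 0 lam 0) :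
    ∃ w : Fin (s + 1) → HI s m → O,
      (∀ t j, residue O (w t j) = (Pi.single (.inr (.inr t)) 1 : HI s m → ResidueField O) j) ∧
      M1.mulVec (w 0) = 0 ∧ M0.mulVec (w (Fin.last s)) = 0 ∧
      ∀ q : Fin s, M0.mulVec (w q.castSucc) = - M1.mulVec (w q.succ) := by
  obtain ⟨v, hv, hv2, hv1, hv3⟩ := lemmaA (net3 M0 M1 0)
    (net3_symm h0s h1s (by simp [Matrix.IsSymm])) (net3_deg _ _ _) hdet lam hlam 0 (by
      rw [net3_map, hM0, hM1]
      apply net3_std
      ext i j
      rw [Matrix.map_apply, Matrix.zero_apply, map_zero]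
      rcases i with i | i | i <;> rcases j with j | j | j <;>
        simp [bet])
  have hcoef : ∀ (a b : ℕ) (i : HI s m), cf a b ((net3 M0 M1 0).mulVec v i) =
      (∑ j, M0 i j * cf a b (MvPolynomial.X 0 * v j)) +
      ∑ j, M1 i j * cf a b (MvPolynomial.X 1 * v j) := by
    intro a b i
    rw [Matrix.mulVec, dotProduct, cf_sum, ← Finset.sum_add_distrib]
    refine Finset.sum_congr rfl fun j _ => ?_
    rw [← cf_C_mul, ← cf_C_mul, ← cf_add]
    congr 1
    simp only [net3, Matrix.zero_apply, MvPolynomial.C_0, mul_zero, add_zero]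
    ring
  have hzero : ∀ (a b : ℕ) (i : HI s m), cf a b ((net3 M0 M1 0).mulVec v i) = 0 := by
    intro a b i
    rw [hv]; simp [cf]
  refine ⟨fun t j => cf t.val (s - t.val) (v j), ?_, ?_, ?_, ?_⟩
  · intro t j
    rw [← cf_map]
    rcases j with j | j | j
    · rw [hv2, Pi.single_eq_of_ne (by simp)]
      simp [cf]
    · rw [hv1, Pi.single_eq_of_ne (by simp)]
      simp [cf]
    · rw [hv3]
      have h1 : (uN (0 : Fin s → ResidueField O) j : MvPolynomial (Fin 3) (ResidueField O)) =
          MvPolynomial.X 0 ^ j.val * MvPolynomial.X 1 ^ (s - j.val) := by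
        unfold uN uu
        simp only [Pi.zero_apply, MvPolynomial.C_0, zero_mul, add_zero]
        rw [prod_const_lt _ _ (by omega), mul_comm]
      rw [h1, cf_monomial]
      by_cases htj : t = j
      · subst htj
        simp
      · rw [if_neg, Pi.single_eq_of_ne]
        · intro h
          exact htj (Sum.inr.inj (Sum.inr.inj h)).symm
        · rintro ⟨h, _⟩
          exact htj (Fin.ext h)
  · funext i
    have h1 := hcoef 0 (s + 1) i
    rw [hzero] at h1
    simp only [cf_X0_mul_zero, cf_X1_mul_succ, mul_zero, Finset.sum_const_zero, zero_add] at h1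
    simp only [Matrix.mulVec, dotProduct, Pi.zero_apply, Fin.val_zero, Nat.sub_zero]
    exact h1.symm
  · funext i
    have h1 := hcoef (s + 1) 0 i
    rw [hzero] at h1
    simp only [cf_X1_mul_zero, cf_X0_mul_succ, mul_zero, Finset.sum_const_zero, add_zero] at h1
    simp only [Matrix.mulVec, dotProduct, Pi.zero_apply, Fin.val_last, Nat.sub_self]
    exact h1.symm
  · intro q
    funext i
    have hq : s - q.val = (s - (q.val + 1)) + 1 := by omega
    have h1 := hcoef (q.val + 1) (s - q.val) i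
    rw [hzero] at h1
    have h2 : ∀ j, cf (q.val + 1) (s - q.val) (MvPolynomial.X 1 * v j) =
        cf (q.val + 1) (s - (q.val + 1)) (v j) := by
      intro j
      rw [hq, cf_X1_mul_succ]
    simp only [cf_X0_mul_succ, h2] at h1
    simp only [Matrix.mulVec, dotProduct, Pi.neg_apply, Fin.val_castSucc, Fin.val_succ]
    exact eq_neg_of_add_eq_zero_left h1.symm

theorem lemmaB (M0 M1 : Matrix (HI s m) (HI s m) O)
    (h0s : M0.IsSymm) (h1s : M1.IsSymm)
    (hdet : (net3 M0 M1 0).det = 0)
    (lam : Fin m → ResidueField O) (hlam : Function.Injective lam)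
    (hM0 : M0.map (residue O) = stdMat 1 0 0 lam 0)
    (hM1 : M1.map (residue O) = stdMat 0 1 0 lam 0) :
    ∃ G : Matrix (HI s m) (HI s m) O, G.map (residue O) = 1 ∧
      InN (G * M0 * Gᵀ) ∧ InN (G * M1 * Gᵀ) := by
  obtain ⟨w, hw, hw0, hws, hwq⟩ := chain_exists M0 M1 h0s h1s hdet lam hlam hM0 hM1
  -- isotropy
  have iso0 : ∀ n : ℕ, ∀ i : Fin (s + 1), i.val = n → ∀ j, w i ⬝ᵥ M0.mulVec (w j) = 0 := by
    intro n
    induction n with
    | zero =>
      intro i hi j
      have hi0 : i = 0 := by rw [Fin.ext_iff]; simpa using hi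
      subst hi0
      rcases Fin.eq_castSucc_or_eq_last j with ⟨q, rfl⟩ | rfl
      · rw [hwq q, dotProduct_neg, dot_symm h1s, hw0, dotProduct_zero, neg_zero]
      · rw [hws, dotProduct_zero]
    | succ n ih =>
      intro i hi j
      rcases Fin.eq_castSucc_or_eq_last j with ⟨q, rfl⟩ | rfl
      · obtain ⟨p, rfl⟩ := Fin.exists_succ_eq.mpr (show i ≠ 0 by
          intro h; rw [h] at hi; simp at hi)
        have h1 : M1.mulVec (w p.succ) = - M0.mulVec (w p.castSucc) := by
          rw [hwq p, neg_neg]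
        rw [hwq q, dotProduct_neg, dot_symm h1s, h1, dotProduct_neg, neg_neg, dot_symm h0s]
        exact ih p.castSucc (by rw [Fin.val_succ] at hi; rw [Fin.val_castSucc]; omega) _
      · rw [hws, dotProduct_zero]
  have iso0' : ∀ i j, w i ⬝ᵥ M0.mulVec (w j) = 0 := fun i j => iso0 i.val i rfl j
  have iso1 : ∀ i j, w i ⬝ᵥ M1.mulVec (w j) = 0 := by
    intro i j
    by_cases hj : j = 0
    · rw [hj, hw0, dotProduct_zero]
    · obtain ⟨q, rfl⟩ := Fin.exists_succ_eq.mpr hj
      have h1 : M1.mulVec (w q.succ) = - M0.mulVec (w q.castSucc) := by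
        rw [hwq q, neg_neg]
      rw [h1, dotProduct_neg, iso0', neg_zero]
  -- the correction
  set Z : Matrix (Fin s) (Fin s) O := fun q t => M0.mulVec (w t.castSucc) (.inr (.inl q)) with hZ
  set Rm : Matrix (Fin m) (Fin s) O := fun i t => M0.mulVec (w t.castSucc) (.inl i) with hRm
  have hres : ∀ (t : Fin (s + 1)) (a : HI s m), residue O (M0.mulVec (w t) a) =
      stdMat 1 0 0 lam 0 a (.inr (.inr t)) := by
    intro t a
    rw [mulVec_map_ring, hM0]
    have h1 : (fun j => residue O (w t j)) =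
      (Pi.single (.inr (.inr t)) 1 : HI s m → ResidueField O) := funext fun j => hw t j
    rw [h1, Matrix.mulVec_single_one]
    rfl
  have hZres : Z.map (residue O) = 1 := by
    ext q t
    rw [Matrix.map_apply, hZ]
    simp only
    rw [hres, stdMat_13]
    unfold bet
    rw [Matrix.one_apply]
    by_cases hqt : q = t
    · subst hqt; simp
    · rw [if_neg (by rw [Fin.castSucc_inj]; exact Ne.symm hqt), if_neg hqt]
      simp
  have hRres : Rm.map (residue O) = 0 := by
    ext i t
    rw [Matrix.map_apply, hRm]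
    simp only
    rw [hres, stdMat_2r]
    rfl
  have hZdet : IsUnit Z.det := by
    rw [← residue_ne_zero_iff_isUnit, ← det_map_ring, hZres, Matrix.det_one]
    exact one_ne_zero
  set c : Matrix (Fin m) (Fin s) O := Rm * Z⁻¹ with hc
  have hcZ : c * Z = Rm := by
    rw [hc, Matrix.mul_assoc, Matrix.nonsing_inv_mul _ hZdet, Matrix.mul_one]
  have hcres : ∀ i q, residue O (c i q) = 0 := by
    intro i q
    have h1 := congrFun (congrFun hRres i)
    rw [hc, Matrix.mul_apply, map_sum]
    refine Finset.sum_eq_zero fun t _ => ?_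
    have h2 := h1 t
    rw [Matrix.map_apply] at h2
    rw [map_mul, h2]
    simp
  set G : Matrix (HI s m) (HI s m) O := fun a j =>
    match a with
    | .inl i => (match j with
      | .inl i' => if i = i' then 1 else 0
      | .inr (.inl q) => - c i q
      | .inr (.inr _) => 0)
    | .inr (.inl q) => (Pi.single (.inr (.inl q)) 1 : HI s m → O) j
    | .inr (.inr t) => w t j with hG
  have hG3 : ∀ t, G (.inr (.inr t)) = w t := fun t => rfl
  have hG2 : ∀ i (x : HI s m → O), G (.inl i) ⬝ᵥ x = x (.inl i) - ∑ q, c i q * x (.inr (.inl q)) := by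
    intro i x
    rw [dotProduct, Fintype.sum_sum_type, Fintype.sum_sum_type]
    simp only [hG, ite_mul, one_mul, zero_mul, Finset.sum_const_zero, add_zero, neg_mul,
      Finset.sum_neg_distrib]
    rw [Finset.sum_ite_eq Finset.univ i]
    simp [sub_eq_add_neg]
  have hy0 : ∀ i (t : Fin (s + 1)), G (.inl i) ⬝ᵥ M0.mulVec (w t) = 0 := by
    intro i t
    rcases Fin.eq_castSucc_or_eq_last t with ⟨q, rfl⟩ | rfl
    · rw [hG2]
      have h1 := congrFun (congrFun hcZ i) q
      rw [Matrix.mul_apply] at h1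
      rw [sub_eq_zero]
      exact h1.symm
    · rw [hws, dotProduct_zero]
  have hy1 : ∀ i (t : Fin (s + 1)), G (.inl i) ⬝ᵥ M1.mulVec (w t) = 0 := by
    intro i t
    by_cases ht : t = 0
    · rw [ht, hw0, dotProduct_zero]
    · obtain ⟨q, rfl⟩ := Fin.exists_succ_eq.mpr ht
      have h1 : M1.mulVec (w q.succ) = - M0.mulVec (w q.castSucc) := by
        rw [hwq q, neg_neg]
      rw [h1, dotProduct_neg, hy0, neg_zero]
  refine ⟨G, ?_, ⟨?_, ?_⟩, ⟨?_, ?_⟩⟩
  · ext a j
    rw [Matrix.map_apply, Matrix.one_apply]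
    rcases a with i | q | t
    · rcases j with j | j | j
      · simp only [hG]
        by_cases hij : i = j
        · subst hij; simp
        · rw [if_neg hij, if_neg (by intro h; exact hij (Sum.inl.inj h)), map_zero]
      · simp only [hG]
        rw [map_neg, hcres, neg_zero, if_neg (by simp)]
      · simp only [hG]
        rw [map_zero, if_neg (by simp)]
    · simp only [hG]
      by_cases hj : j = .inr (.inl q)
      · subst hj; simp
      · rw [Pi.single_eq_of_ne hj, if_neg (Ne.symm hj), map_zero]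
    · rw [hG3, hw]
      by_cases hj : j = .inr (.inr t)
      · subst hj; simp
      · rw [Pi.single_eq_of_ne hj, if_neg (Ne.symm hj)]
  · intro i t
    rw [conj_apply, hG3]
    exact hy0 i t
  · intro t t'
    rw [conj_apply, hG3, hG3]
    exact iso0' t t'
  · intro i t
    rw [conj_apply, hG3]
    exact hy1 i t
  · intro t t'
    rw [conj_apply, hG3, hG3]
    exact iso1 t t'

end Pool.Agent.Helper13.Fa
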