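import Pool.Agent.Helper13.FaE

/-!
The infinitesimal net lemma over a field.
-/

namespace Pool.Agent.Helper13.Fa

open Polynomial

variable {F : Type*} [Field F]

lemma tri (s : ℕ) (A : Finset ℕ) (hA : ∀ l ∈ A, l ≤ s) (c : ℕ → F) (P : ℕ → F[X])
    (hP : ∀ l ∈ A, (P l).coeff 0 ≠ 0)
    (h : ∑ l ∈ A, C (c l) * X ^ (s - l) * P l = 0) : ∀ l ∈ A, c l = 0 := by
  classical
  have key : ∀ n : ℕ, ∀ l ∈ A, s - l < n → c l = 0 := by
    intro n
    induction n with
    | zero => intro l _ hl; omega
    | succ n ih =>
      intro l hl hln
      by_cases hlt : s - l < n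
      · exact ih l hl hlt
      have hn : s - l = n := by omega
      have h1 := congrArg (fun p => Polynomial.coeff p n) h
      simp only [finsetSum_coeff, coeff_zero, mul_assoc, coeff_C_mul,
        coeff_X_pow_mul'] at h1
      rw [Finset.sum_eq_single l] at h1
      · rw [hn, if_pos le_rfl, Nat.sub_self] at h1
        exact (mul_eq_zero.mp h1).resolve_right (hP l hl)
      · intro j hj hjl
        rcases Nat.lt_or_gt_of_ne hjl with h2 | h2
        · have := hA l hl
          rw [if_neg (by omega), mul_zero]
        · have := hA j hj
          rw [ih j hj (by omega), zero_mul]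
      · intro hl'; exact absurd hl hl'
  intro l hl
  exact key (s - l + 1) l hl (Nat.lt_succ_self _)

section chain

/-- closed formula for the solution of the recursion -/
noncomputable def Fm (s i : ℕ) (g δ : ℕ → F) (q : ℕ) : F[X] :=
  ∑ l ∈ Finset.Ioc q s, C (g l * ∏ p ∈ Finset.Ioo q l, δ p) * X ^ ((s - l) + (q - i))

lemma Fm_rec (s i : ℕ) (g δ : ℕ → F) (q : ℕ) (hi : i ≤ q) (hq : q < s) :
    X * Fm s i g δ q = C (δ (q + 1)) * Fm s i g δ (q + 1) + C (g (q + 1)) * X ^ (s - i) := by
  classical
  unfold Fm
  have h1 : Finset.Ioc q s = insert (q + 1) (Finset.Ioc (q + 1) s) := by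
    ext l; simp only [Finset.mem_Ioc, Finset.mem_insert]; omega
  rw [h1, Finset.sum_insert (by simp), mul_add, add_comm]
  congr 1
  · rw [Finset.mul_sum, Finset.mul_sum]
    refine Finset.sum_congr rfl fun l hl => ?_
    rw [Finset.mem_Ioc] at hl
    have h2 : Finset.Ioo q l = insert (q + 1) (Finset.Ioo (q + 1) l) := by
      ext p; simp only [Finset.mem_Ioo, Finset.mem_insert]; omega
    rw [h2, Finset.prod_insert (by simp)]
    have h3 : (s - l) + (q + 1 - i) = ((s - l) + (q - i)) + 1 := by omega
    rw [h3, pow_succ]
    simp only [C_mul]
    ring
  · have h2 : Finset.Ioo q (q + 1) = ∅ := by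
      ext p; simp only [Finset.mem_Ioo, Finset.notMem_empty, iff_false]; omega
    have h3 : s - i = ((s - (q + 1)) + (q - i)) + 1 := by omega
    rw [h2, Finset.prod_empty, mul_one, h3, pow_succ]
    ring

lemma Fm_last (s i : ℕ) (g δ : ℕ → F) : Fm s i g δ s = 0 := by
  unfold Fm; simp

end chain

/-- the linear forms -/
noncomputable def yy (d : ℕ → F) (p : ℕ) : F[X][X] := X + C (C (d p))

/-- kernel vector -/
noncomputable def UU (s : ℕ) (d : ℕ → F) (l : ℕ) : F[X][X] :=
  (C X) ^ (s - l) * ∏ p ∈ Finset.range l, yy d p

lemma yy_ne (d : ℕ → F) (p : ℕ) : yy d p ≠ 0 := (monic_X_add_C _).ne_zero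

theorem netE1 (s : ℕ) (d : ℕ → F) (hd : ∀ p < s, ∀ q < s, d p = d q → p = q)
    (a : ℕ → F[X][X]) (G : ℕ → ℕ → F) (hG : ∀ t l, G t l = G l t)
    (ha : ∀ q, s ≤ q → a q = 0)
    (h0 : yy d 0 * a 0 + ∑ l ∈ Finset.range (s + 1), C (C (G 0 l)) * UU s d l = 0)
    (h1 : ∀ q < s, yy d (q + 1) * a (q + 1) - C X * a q +
      ∑ l ∈ Finset.range (s + 1), C (C (G (q + 1) l)) * UU s d l = 0)
    (h2 : (2 : F) = 0 → ∑ q ∈ Finset.range s, a q = 0) :
    ∀ t ≤ s, ∀ l ≤ s, G t l = 0 := by
  classical
  have main : ∀ i : ℕ, i ≤ s + 1 →
      (∀ t ≤ s, ∀ l ≤ s, (t < i ∨ l < i) → G t l = 0) ∧ (∀ q < i, a q = 0) := by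
    intro i
    induction i with
    | zero =>
      intro _
      exact ⟨fun t _ l _ h => by omega, fun q hq => by omega⟩
    | succ i ih =>
      intro hi
      obtain ⟨ihG, iha⟩ := ih (by omega)
      have his : i ≤ s := by omega
      set ev : F[X][X] →+* F[X] := Polynomial.evalRingHom (- C (d i)) with hev
      have hevC : ∀ f : F[X], ev (C f) = f := by intro f; simp [hev]
      have hevy : ∀ p, ev (yy d p) = C (d p - d i) := by
        intro p
        simp only [hev, yy, coe_evalRingHom, eval_add, eval_X, eval_C, C_sub]
        ring
      have hevU : ∀ l, ev (UU s d l) = X ^ (s - l) * ∏ p ∈ Finset.range l, C (d p - d i) := by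
        intro l
        unfold UU
        rw [map_mul, map_pow, map_prod, hevC]
        congr 1
        exact Finset.prod_congr rfl fun p _ => hevy p
      set cc : F := ∏ p ∈ Finset.range i, (d p - d i) with hcc
      have hcc0 : i < s → cc ≠ 0 := by
        intro hi'
        refine Finset.prod_ne_zero_iff.mpr fun p hp h => ?_
        have hp' := Finset.mem_range.mp hp
        have := hd p (by omega) i hi' (sub_eq_zero.mp h)
        omega
      have hevU0 : ∀ l, i < l → ev (UU s d l) = 0 := by
        intro l hl
        rw [hevU]
        rw [Finset.prod_eq_zero (Finset.mem_range.mpr hl) (by rw [sub_self, C_0]), mul_zero]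
      have hevUi : ev (UU s d i) = X ^ (s - i) * C cc := by
        rw [hevU, hcc]
        rw [map_prod]
      have hsum : ∀ t ≤ s, ∑ l ∈ Finset.range (s + 1), ev (C (C (G t l)) * UU s d l) =
          C (G t i) * (X ^ (s - i) * C cc) := by
        intro t ht
        rw [Finset.sum_eq_single i]
        · rw [map_mul, hevC, hevUi]
        · intro l hl hli
          have hl' := Finset.mem_range.mp hl
          rcases Nat.lt_or_gt_of_ne hli with h3 | h3
          · rw [ihG t ht l (by omega) (Or.inr h3)]; simp
          · rw [map_mul, hevU0 l h3, mul_zero]
        · intro h; exact absurd (Finset.mem_range.mpr (by omega)) h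
      -- row i
      have rowi : yy d i * a i + ∑ l ∈ Finset.range (s + 1), C (C (G i l)) * UU s d l = 0 := by
        rcases Nat.eq_zero_or_pos i with h3 | h3
        · rw [h3]; exact h0
        · obtain ⟨j, rfl⟩ : ∃ j, i = j + 1 := ⟨i - 1, by omega⟩
          have h4 := h1 j (by omega)
          rw [iha j (by omega), mul_zero, sub_zero] at h4
          exact h4
      have hGii : G i i = 0 := by
        have h3 := congrArg ev rowi
        rw [map_add, map_mul, hevy, sub_self, C_0, zero_mul, zero_add, map_sum,
          hsum i his, map_zero] at h3
        by_cases hi' : i < s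
        · rcases mul_eq_zero.mp h3 with h4 | h4
          · exact C_eq_zero.mp h4
          · rcases mul_eq_zero.mp h4 with h5 | h5
            · exact absurd h5 (pow_ne_zero _ X_ne_zero)
            · exact absurd (C_eq_zero.mp h5) (hcc0 hi')
        · have hi'' : i = s := by omega
          -- all a vanish
          have h4 : a i = 0 := ha i (by omega)
          rw [h4, mul_zero, zero_add, Finset.sum_eq_single i] at rowi
          · rcases mul_eq_zero.mp rowi with h5 | h5
            · exact C_eq_zero.mp (C_eq_zero.mp h5)
            · exfalso
              unfold UU at h5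
              rcases mul_eq_zero.mp h5 with h6 | h6
              · exact pow_ne_zero _ (C_ne_zero.mpr X_ne_zero) h6
              · obtain ⟨p, _, hp⟩ := Finset.prod_eq_zero_iff.mp h6
                exact yy_ne d p hp
          · intro l hl hli
            have hl' := Finset.mem_range.mp hl
            rw [ihG i his l (by omega) (Or.inr (by omega))]; simp
          · intro h; exact absurd (Finset.mem_range.mpr (by omega)) h
      by_cases hi' : i < s
      swap
      · have hi'' : i = s := by omega
        subst hi''
        refine ⟨?_, ?_⟩
        · intro t ht l hl htl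
          by_cases hti : t < i
          · exact ihG t ht l hl (Or.inl hti)
          · by_cases hli : l < i
            · exact ihG t ht l hl (Or.inr hli)
            · have h3 : t = i := by omega
              have h4 : l = i := by omega
              rw [h3, h4]; exact hGii
        · intro q hq
          by_cases hqi : q < i
          · exact iha q hqi
          · exact ha q (by omega)
      have hcc1 := hcc0 hi'
      set g : ℕ → F := fun l => G l i with hg
      set δ : ℕ → F := fun p => d p - d i with hδ
      have hδ0 : ∀ p, i < p → p < s → δ p ≠ 0 := by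
        intro p hp hps h
        have := hd p hps i hi' (sub_eq_zero.mp h)
        omega
      -- chain
      have hchain : ∀ n : ℕ, ∀ q, s - q ≤ n → i ≤ q → q ≤ s → ev (a q) = C cc * Fm s i g δ q := by
        intro n
        induction n with
        | zero =>
          intro q hq _ hqs
          have : q = s := by omega
          rw [this, Fm_last, ha s le_rfl]; simp
        | succ n ihn =>
          intro q hq hiq hqs
          by_cases hqs' : q = s
          · rw [hqs', Fm_last, ha s le_rfl]; simp
          have hqlt : q < s := by omega
          have h3 := congrArg ev (h1 q hqlt)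
          rw [map_add, map_sub, map_mul, map_mul, hevy, hevC, map_sum, hsum (q + 1) (by omega),
            ihn (q + 1) (by omega) (by omega) (by omega), map_zero] at h3
          have h4 := Fm_rec s i g δ q hiq hqlt
          have h5 : X * ev (a q) = X * (C cc * Fm s i g δ q) := by
            have h6 : X * ev (a q) = C (δ (q + 1)) * (C cc * Fm s i g δ (q + 1)) +
              C (g (q + 1)) * (X ^ (s - i) * C cc) := by
              linear_combination (-1 : F[X]) * h3
            rw [h6]
            linear_combination (-C cc) * h4
          exact mul_left_cancel₀ X_ne_zero h5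
      -- division by y_i
      set V : ℕ → F[X][X] := fun l =>
        (C X) ^ (s - l) * ∏ p ∈ (Finset.range l).erase i, yy d p with hV
      have hUV : ∀ l, i < l → UU s d l = yy d i * V l := by
        intro l hl
        unfold UU
        rw [hV, ← Finset.mul_prod_erase (Finset.range l) (yy d) (Finset.mem_range.mpr hl)]
        ring
      have hai : a i = - ∑ l ∈ Finset.Ioc i s, C (C (G i l)) * V l := by
        have h3 : ∑ l ∈ Finset.range (s + 1), C (C (G i l)) * UU s d l =
            yy d i * ∑ l ∈ Finset.Ioc i s, C (C (G i l)) * V l := by
          rw [Finset.mul_sum]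
          symm
          have hsub : Finset.Ioc i s ⊆ Finset.range (s + 1) := by
            intro l hl
            rw [Finset.mem_Ioc] at hl
            rw [Finset.mem_range]; omega
          rw [← Finset.sum_subset hsub (f := fun l => C (C (G i l)) * UU s d l)]
          · refine Finset.sum_congr rfl fun l hl => ?_
            rw [Finset.mem_Ioc] at hl
            rw [hUV l hl.1]; ring
          · intro l hl hl'
            rw [Finset.mem_range] at hl
            rw [Finset.mem_Ioc] at hl'
            by_cases hli : l = i
            · rw [hli, hGii]; simp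
            · rw [ihG i his l (by omega) (Or.inr (by omega))]; simp
        rw [h3, ← mul_add] at rowi
        have h4 := (mul_eq_zero.mp rowi).resolve_left (yy_ne d i)
        exact eq_neg_of_add_eq_zero_left h4
      have hevV : ∀ l, i < l → ev (V l) = X ^ (s - l) * C (cc * ∏ p ∈ Finset.Ioo i l, δ p) := by
        intro l hl
        rw [hV]
        simp only
        rw [map_mul, map_pow, map_prod, hevC]
        congr 1
        have h3 : (Finset.range l).erase i = Finset.range i ∪ Finset.Ioo i l := by
          ext p
          simp only [Finset.mem_erase, Finset.mem_range, Finset.mem_union, Finset.mem_Ioo]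
          omega
        rw [h3, Finset.prod_union (by
          rw [Finset.disjoint_left]
          intro p hp hp'
          rw [Finset.mem_range] at hp
          rw [Finset.mem_Ioo] at hp'
          omega)]
        rw [C_mul, map_prod, map_prod]
        congr 1
        · exact Finset.prod_congr rfl fun p _ => hevy p
        · exact Finset.prod_congr rfl fun p _ => hevy p
      have hg0 : ∀ l ∈ Finset.Ioc i s, g l = 0 := by
        by_cases hchar : (2 : F) = 0
        · -- characteristic two
          have h3 := h2 hchar
          have h4 : ∑ q ∈ Finset.Ico i s, ev (a q) = 0 := by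
            rw [← map_sum]
            have h5 : ∑ q ∈ Finset.Ico i s, a q = ∑ q ∈ Finset.range s, a q := by
              refine Finset.sum_subset ?_ ?_
              · intro q hq
                rw [Finset.mem_Ico] at hq
                exact Finset.mem_range.mpr hq.2
              · intro q hq hq'
                rw [Finset.mem_range] at hq
                rw [Finset.mem_Ico] at hq'
                exact iha q (by omega)
            rw [h5, h3, map_zero]
          have h5 : C cc * ∑ l ∈ Finset.Ioc i s, C (g l) * X ^ (s - l) *
              (∑ q ∈ Finset.Ico i l, C (∏ p ∈ Finset.Ioo q l, δ p) * X ^ (q - i)) = 0 := by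
            rw [← h4]
            have h6 : ∀ q ∈ Finset.Ico i s, ev (a q) = C cc * Fm s i g δ q := by
              intro q hq
              rw [Finset.mem_Ico] at hq
              exact hchain (s - q) q le_rfl hq.1 (by omega)
            rw [Finset.sum_congr rfl h6, ← Finset.mul_sum]
            congr 1
            unfold Fm
            simp only [Finset.mul_sum]
            rw [Finset.sum_comm' (t' := Finset.Ico i s) (s' := fun q => Finset.Ioc q s)]
            · refine Finset.sum_congr rfl fun q _ => ?_
              refine Finset.sum_congr rfl fun l _ => ?_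
              rw [C_mul, pow_add]; ring
            · intro l q
              simp only [Finset.mem_Ioc, Finset.mem_Ico]
              omega
          have h6 := (mul_eq_zero.mp h5).resolve_left (C_ne_zero.mpr hcc1)
          refine tri s (Finset.Ioc i s) (fun l hl => (Finset.mem_Ioc.mp hl).2) g _ ?_ h6
          intro l hl
          rw [Finset.mem_Ioc] at hl
          rw [finsetSum_coeff, Finset.sum_eq_single i]
          · rw [Nat.sub_self, pow_zero, mul_one, coeff_C_zero]
            refine Finset.prod_ne_zero_iff.mpr fun p hp => ?_
            rw [Finset.mem_Ioo] at hp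
            exact hδ0 p hp.1 (by omega)
          · intro q hq hqi
            rw [Finset.mem_Ico] at hq
            rw [coeff_C_mul, coeff_X_pow, if_neg (by omega), mul_zero]
          · intro h
            exact absurd (Finset.mem_Ico.mpr ⟨le_rfl, hl.1⟩) h
        · -- characteristic not two
          have h3 := hchain (s - i) i le_rfl le_rfl his
          rw [hai, map_neg, map_sum] at h3
          have h4 : ∑ l ∈ Finset.Ioc i s, C (g l) * X ^ (s - l) *
              C (∏ p ∈ Finset.Ioo i l, δ p) = 0 := by
            have h5 : ∑ l ∈ Finset.Ioc i s, ev (C (C (G i l)) * V l) =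
                C cc * ∑ l ∈ Finset.Ioc i s, C (g l) * X ^ (s - l) *
                  C (∏ p ∈ Finset.Ioo i l, δ p) := by
              rw [Finset.mul_sum]
              refine Finset.sum_congr rfl fun l hl => ?_
              rw [Finset.mem_Ioc] at hl
              rw [map_mul, hevC, hevV l hl.1, hG i l, C_mul]
              ring
            have h6 : Fm s i g δ i = ∑ l ∈ Finset.Ioc i s, C (g l) * X ^ (s - l) *
                  C (∏ p ∈ Finset.Ioo i l, δ p) := by
              unfold Fm
              refine Finset.sum_congr rfl fun l _ => ?_
              rw [Nat.sub_self, add_zero, C_mul]; ring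
            rw [h5, h6] at h3
            have h7 : C ((2 : F) * cc) * ∑ l ∈ Finset.Ioc i s, C (g l) * X ^ (s - l) *
                  C (∏ p ∈ Finset.Ioo i l, δ p) = 0 := by
              rw [C_mul]
              have : (C (2 : F) : F[X]) = 2 := map_ofNat C 2
              rw [this]
              linear_combination (-1 : F[X]) * h3
            exact (mul_eq_zero.mp h7).resolve_left (C_ne_zero.mpr (mul_ne_zero hchar hcc1))
          refine tri s (Finset.Ioc i s) (fun l hl => (Finset.mem_Ioc.mp hl).2) g _ ?_ h4
          intro l hl
          rw [Finset.mem_Ioc] at hl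
          rw [coeff_C_zero]
          refine Finset.prod_ne_zero_iff.mpr fun p hp => ?_
          rw [Finset.mem_Ioo] at hp
          exact hδ0 p hp.1 (by omega)
      have hcol : ∀ l ≤ s, G l i = 0 := by
        intro l hl
        by_cases hli : l < i
        · exact ihG l hl i his (Or.inl hli)
        · by_cases hli' : l = i
          · rw [hli']; exact hGii
          · exact hg0 l (Finset.mem_Ioc.mpr ⟨by omega, hl⟩)
      refine ⟨?_, ?_⟩
      · intro t ht l hl htl
        by_cases hti : t < i
        · exact ihG t ht l hl (Or.inl hti)
        · by_cases hli : l < i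
          · exact ihG t ht l hl (Or.inr hli)
          · rcases htl with h3 | h3
            · have h4 : t = i := by omega
              rw [h4, hG]; exact hcol l hl
            · have h4 : l = i := by omega
              rw [h4]; exact hcol t ht
      · intro q hq
        by_cases hqi : q < i
        · exact iha q hqi
        · have h3 : q = i := by omega
          rw [h3, hai, neg_eq_zero]
          refine Finset.sum_eq_zero fun l hl => ?_
          rw [Finset.mem_Ioc] at hl
          rw [hG i l, hcol l hl.2]; simp
  intro t ht l hl
  exact (main (s + 1) le_rfl).1 t ht l hl (Or.inl (by omega))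

end Pool.Agent.Helper13.Fa
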