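import Pool.Agent.Helper13.FaF

/-!
Transfer of the infinitesimal net lemma to three variables.
-/

namespace Pool.Agent.Helper13.Fa

open IsLocalRing Matrix

section ext

/-- extension by zero -/
def ext0 {R : Type*} [Zero R] {s : ℕ} (a : Fin s → R) (n : ℕ) : R :=
  if h : n < s then a ⟨n, h⟩ else 0

lemma ext0_val {R : Type*} [Zero R] {s : ℕ} (a : Fin s → R) (q : Fin s) :
    ext0 a q.val = a q := by
  unfold ext0
  rw [dif_pos q.isLt]

lemma ext0_ge {R : Type*} [Zero R] {s : ℕ} (a : Fin s → R) (n : ℕ) (h : s ≤ n) :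
    ext0 a n = 0 := by
  unfold ext0
  rw [dif_neg (by omega)]

lemma sum_betT {S : Type*} [CommRing S] {s : ℕ} (x0 x1 x2 : S) (d : Fin s → S)
    (a : Fin s → S) (t : Fin (s + 1)) :
    ∑ q, bet x0 x1 x2 d q t * a q = (x0 + ext0 d t.val * x2) * ext0 a t.val -
      (if t.val = 0 then 0 else x1 * ext0 a (t.val - 1)) := by
  unfold bet
  simp only [sub_mul, Finset.sum_sub_distrib, ite_mul, zero_mul]
  congr 1
  · rcases Fin.eq_castSucc_or_eq_last t with ⟨q, rfl⟩ | rfl
    · rw [Fin.val_castSucc, ext0_val, ext0_val]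
      have : ∀ q' : Fin s, (q.castSucc = q'.castSucc) ↔ q = q' := fun q' => by
        rw [Fin.castSucc_inj]
      simp only [this]
      rw [Finset.sum_ite_eq Finset.univ q]
      simp
    · rw [Fin.val_last, ext0_ge a s le_rfl, mul_zero]
      refine Finset.sum_eq_zero fun q _ => ?_
      rw [if_neg]
      intro h
      have := congrArg Fin.val h
      rw [Fin.val_last, Fin.val_castSucc] at this
      omega
  · by_cases ht : t = 0
    · subst ht
      simp only [Fin.val_zero, if_true]
      refine Finset.sum_eq_zero fun q _ => ?_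
      rw [if_neg]
      intro h
      exact Fin.succ_ne_zero q h.symm
    · obtain ⟨q, rfl⟩ := Fin.exists_succ_eq.mpr ht
      rw [Fin.val_succ, if_neg (by omega), Nat.add_sub_cancel, ext0_val]
      have : ∀ q' : Fin s, (q.succ = q'.succ) ↔ q = q' := fun q' => by
        rw [Fin.succ_inj]
      simp only [this]
      rw [Finset.sum_ite_eq Finset.univ q]
      simp

end ext

variable {F : Type*} [Field F] {s : ℕ}

/-- `x₀ ↦ X, x₁ ↦ T, x₂ ↦ 1` -/
noncomputable def psi (F : Type*) [Field F] :
    MvPolynomial (Fin 3) F →+* Polynomial (Polynomial F) :=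
  MvPolynomial.eval₂Hom (Polynomial.C.comp Polynomial.C)
    ![Polynomial.X, Polynomial.C Polynomial.X, 1]

lemma psi_C (c : F) : psi F (MvPolynomial.C c) = Polynomial.C (Polynomial.C c) := by
  simp [psi]
lemma psi_X0 : psi F (MvPolynomial.X 0) = Polynomial.X := by simp [psi]
lemma psi_X1 : psi F (MvPolynomial.X 1) = Polynomial.C Polynomial.X := by simp [psi]
lemma psi_X2 : psi F (MvPolynomial.X 2) = 1 := by simp [psi]

lemma ext0_map {R R' : Type*} [CommRing R] [CommRing R'] (f : R →+* R') (a : Fin s → R)
    (n : ℕ) : ext0 (fun q => f (a q)) n = f (ext0 a n) := by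
  unfold ext0
  split_ifs
  · rfl
  · rw [map_zero]

lemma prod_lt_range {R : Type*} [CommRing R] (f : ℕ → R) (t : ℕ) (ht : t ≤ s) :
    (∏ p : Fin s, if p.val < t then f p.val else 1) = ∏ p ∈ Finset.range t, f p := by
  classical
  rw [Fin.prod_univ_eq_prod_range (fun p => if p < t then f p else 1) s,
    ← Finset.prod_filter]
  congr 1
  ext p
  simp only [Finset.mem_filter, Finset.mem_range]
  omega

lemma psi_uN (d : Fin s → F) (t : Fin (s + 1)) :
    psi F (uN d t) = UU s (ext0 d) t.val := by
  unfold uN
  rw [uu_map]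
  unfold uu UU
  rw [psi_X0, psi_X1, psi_X2]
  congr 1
  rw [← prod_lt_range (s := s) _ t.val (by omega)]
  refine Finset.prod_congr rfl fun p _ => ?_
  unfold yy
  simp only [ext0_val, psi_C, mul_one]

/-- (E2) implies the vanishing of `J` -/
lemma e2_zero (lam : F) (d : Fin s → F) (hd0 : ∀ p, d p ≠ 0) (b : MvPolynomial (Fin 3) F)
    (J : Fin (s + 1) → F)
    (h : (MvPolynomial.X 0 - MvPolynomial.C lam * MvPolynomial.X 1) * b +
      ∑ t, MvPolynomial.C (J t) * uN d t = 0) : (∀ t, J t = 0) ∧ b = 0 := by
  classical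
  have hJ : ∀ t, J t = 0 := by
    set θ : MvPolynomial (Fin 3) F →+* Polynomial F :=
      MvPolynomial.eval₂Hom Polynomial.C
        ![Polynomial.C lam * Polynomial.X, Polynomial.X, 1] with hθ
    have hθC : ∀ c, θ (MvPolynomial.C c) = Polynomial.C c := by intro c; simp [hθ]
    have hθ0 : θ (MvPolynomial.X 0) = Polynomial.C lam * Polynomial.X := by simp [hθ]
    have hθ1 : θ (MvPolynomial.X 1) = Polynomial.X := by simp [hθ]
    have hθ2 : θ (MvPolynomial.X 2) = 1 := by simp [hθ]
    have h1 := congrArg θ h
    rw [map_add, map_mul, map_sub, map_mul, hθC, hθ0, hθ1, sub_self, zero_mul, zero_add,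
      map_sum, map_zero] at h1
    have h2 : ∀ t : Fin (s + 1), θ (MvPolynomial.C (J t) * uN d t) =
        (fun l : ℕ => Polynomial.C (ext0 J l) * Polynomial.X ^ (s - l) *
          ∏ p : Fin s, if p.val < l then
            Polynomial.C lam * Polynomial.X + Polynomial.C (d p) else 1) t.val := by
      intro t
      simp only
      rw [map_mul, hθC]
      unfold uN
      rw [uu_map]
      unfold uu
      rw [hθ0, hθ1, hθ2, ext0_val, mul_assoc]
      congr 2
      refine Finset.prod_congr rfl fun p _ => ?_
      simp only [hθC, mul_one]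
    rw [Finset.sum_congr rfl (fun t _ => h2 t),
      Fin.sum_univ_eq_sum_range (fun l : ℕ => Polynomial.C (ext0 J l) * Polynomial.X ^ (s - l) *
          ∏ p : Fin s, if p.val < l then
            Polynomial.C lam * Polynomial.X + Polynomial.C (d p) else 1) (s + 1)] at h1
    have h3 := tri s (Finset.range (s + 1)) (fun l hl => by
      rw [Finset.mem_range] at hl; omega) (ext0 J) (fun l => ∏ p : Fin s, if p.val < l then
            Polynomial.C lam * Polynomial.X + Polynomial.C (d p) else 1) (by
        intro l _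
        rw [Polynomial.coeff_zero_eq_eval_zero, Polynomial.eval_prod]
        refine Finset.prod_ne_zero_iff.mpr fun p _ => ?_
        split_ifs
        · simpa using hd0 p
        · simp) h1
    intro t
    rw [← ext0_val J t]
    exact h3 t.val (Finset.mem_range.mpr t.isLt)
  refine ⟨hJ, ?_⟩
  rw [Finset.sum_eq_zero (fun t _ => by rw [hJ t]; simp), add_zero] at h
  exact (mul_eq_zero.mp h).resolve_left (ell_ne' lam)

/-- (E1) implies the vanishing of `G` -/
lemma e1_zero (d : Fin s → F) (hd : Function.Injective d)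
    (a : Fin s → MvPolynomial (Fin 3) F) (G : Fin (s + 1) → Fin (s + 1) → F)
    (hG : ∀ t l, G t l = G l t)
    (h : ∀ t, ∑ q, bet (MvPolynomial.X 0) (MvPolynomial.X 1) (MvPolynomial.X 2)
      (fun q => MvPolynomial.C (d q)) q t * a q + ∑ l, MvPolynomial.C (G t l) * uN d l = 0)
    (h2 : (2 : F) = 0 → ∑ q, a q = 0) : ∀ t l, G t l = 0 := by
  classical
  set a' : ℕ → Polynomial (Polynomial F) := fun n => psi F (ext0 a n) with ha'
  set G' : ℕ → ℕ → F := fun t l => ext0 (fun t => ext0 (G t) l) t with hG'
  have hGv : ∀ t l : Fin (s + 1), G' t.val l.val = G t l := by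
    intro t l
    simp only [hG', ext0_val]
  have hG's : ∀ t l, G' t l = G' l t := by
    intro t l
    simp only [hG']
    unfold ext0
    by_cases ht : t < s + 1
    · by_cases hl : l < s + 1
      · simp only [dif_pos ht, dif_pos hl]; exact hG _ _
      · simp only [dif_pos ht, dif_neg hl]
    · by_cases hl : l < s + 1
      · simp only [dif_pos hl, dif_neg ht]
      · simp only [dif_neg hl, dif_neg ht]
  have hrow : ∀ t : Fin (s + 1), yy (ext0 d) t.val * a' t.val -
      (if t.val = 0 then 0 else Polynomial.C Polynomial.X * a' (t.val - 1)) +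
      ∑ l ∈ Finset.range (s + 1), Polynomial.C (Polynomial.C (G' t.val l)) *
        UU s (ext0 d) l = 0 := by
    intro t
    have h1 := congrArg (psi F) (h t)
    rw [sum_betT, map_add, map_zero, map_sum] at h1
    refine Eq.trans ?_ h1
    congr 1
    · rw [map_sub, map_mul]
      congr 1
      · congr 1
        rw [map_add, map_mul, psi_X0, psi_X2, mul_one, ext0_map MvPolynomial.C d t.val, psi_C]
        rfl
      · split_ifs
        · rw [map_zero]
        · rw [map_mul, psi_X1]
    · rw [← Fin.sum_univ_eq_sum_range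
        (fun l => Polynomial.C (Polynomial.C (G' t.val l)) * UU s (ext0 d) l) (s + 1)]
      refine Finset.sum_congr rfl fun l _ => ?_
      rw [map_mul, psi_C, psi_uN, hGv]
  have key := netE1 s (ext0 d) (by
      intro p hp q hq hpq
      have h1 := ext0_val d ⟨p, hp⟩
      have h3 := ext0_val d ⟨q, hq⟩
      simp only at h1 h3
      rw [h1, h3] at hpq
      exact congrArg Fin.val (hd hpq)) a' G' hG's (by
      intro q hq
      simp only [ha']
      rw [ext0_ge a q hq, map_zero]) (by
      have h1 := hrow 0
      simp only [Fin.val_zero, if_true, sub_zero] at h1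
      exact h1) (by
      intro q hq
      have h1 := hrow ⟨q + 1, by omega⟩
      simp only [Nat.add_sub_cancel, if_neg (Nat.succ_ne_zero q)] at h1
      exact h1) (by
      intro hchar
      have h3 := congrArg (psi F) (h2 hchar)
      rw [map_sum, map_zero] at h3
      rw [← h3, ← Fin.sum_univ_eq_sum_range a' s]
      refine Finset.sum_congr rfl fun q _ => ?_
      simp only [ha']
      rw [ext0_val])
  intro t l
  rw [← hGv]
  exact key _ (by omega) _ (by omega)

end Pool.Agent.Helper13.Fa
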