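import Pool.Agent.Helper13.FaG

/-!
Lemma C: rigidity of nets.
-/

namespace Pool.Agent.Helper13.Fa

open IsLocalRing Matrix

/-- rows 2, 3 -/
def rowSel (s m : ℕ) : Fin m ⊕ Fin (s + 1) → HI s m
  | .inl i => .inl i
  | .inr t => .inr (.inr t)

/-- columns 2, 1 -/
def colSel (s m : ℕ) : Fin m ⊕ Fin s → HI s m
  | .inl i => .inl i
  | .inr q => .inr (.inl q)

section sub

variable {S : Type*} [CommRing S] {s m : ℕ}

lemma subInj [IsDomain S] (x0 x1 x2 : S) (lam : Fin m → S) (d : Fin s → S)
    (hl : ∀ i, x0 - lam i * x1 ≠ 0) (hy : ∀ q, x0 + d q * x2 ≠ 0)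
    (f : Fin m ⊕ Fin s → S)
    (h : ((stdMat x0 x1 x2 lam d).submatrix (rowSel s m) (colSel s m)).mulVec f = 0) :
    f = 0 := by
  have h2 : ∀ i, f (.inl i) = 0 := by
    intro i
    have h1 := congrFun h (.inl i)
    simp only [Matrix.mulVec, dotProduct, Fintype.sum_sum_type, Matrix.submatrix_apply,
      rowSel, colSel, stdMat_22, stdMat_2r, zero_mul, Finset.sum_const_zero, add_zero,
      ite_mul, Pi.zero_apply] at h1
    rw [Finset.sum_ite_eq Finset.univ i] at h1
    simp only [Finset.mem_univ, if_true] at h1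
    exact (mul_eq_zero.mp h1).resolve_left (hl i)
  have ha : (fun q => f (.inr q) : Fin s → S) = 0 := by
    apply betT_inj_asc x0 x1 x2 d hy
    intro q
    have h1 := congrFun h (.inr q.castSucc)
    simp only [Matrix.mulVec, dotProduct, Fintype.sum_sum_type, Matrix.submatrix_apply,
      rowSel, colSel, stdMat_r2, stdMat_31, zero_mul, Finset.sum_const_zero, zero_add,
      Pi.zero_apply] at h1
    exact h1
  funext i
  rcases i with i | q
  · exact h2 i
  · exact congrFun ha q

lemma sub_mulVec_inl (x0 x1 x2 : S) (lam : Fin m → S) (d : Fin s → S)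
    (f : Fin m ⊕ Fin s → S) (i : Fin m) :
    ((stdMat x0 x1 x2 lam d).submatrix (rowSel s m) (colSel s m)).mulVec f (.inl i) =
      (x0 - lam i * x1) * f (.inl i) := by
  simp only [Matrix.mulVec, dotProduct, Fintype.sum_sum_type, Matrix.submatrix_apply,
    rowSel, colSel, stdMat_22, stdMat_2r, zero_mul, Finset.sum_const_zero, add_zero,
    ite_mul]
  rw [Finset.sum_ite_eq Finset.univ i]
  simp

lemma sub_mulVec_inr (x0 x1 x2 : S) (lam : Fin m → S) (d : Fin s → S)
    (f : Fin m ⊕ Fin s → S) (t : Fin (s + 1)) :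
    ((stdMat x0 x1 x2 lam d).submatrix (rowSel s m) (colSel s m)).mulVec f (.inr t) =
      ∑ q, bet x0 x1 x2 d q t * f (.inr q) := by
  simp only [Matrix.mulVec, dotProduct, Fintype.sum_sum_type, Matrix.submatrix_apply,
    rowSel, colSel, stdMat_r2, stdMat_31, zero_mul, Finset.sum_const_zero, zero_add]

end sub

/-- sum of a symmetric function in characteristic two -/
lemma sum_symm_two {R ι : Type*} [CommRing R] (h2 : (2 : R) = 0) (A : Finset ι)
    (f : ι → ι → R) (hf : ∀ i j, f i j = f j i) :
    ∑ i ∈ A, ∑ j ∈ A, f i j = ∑ i ∈ A, f i i := by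
  classical
  induction A using Finset.induction_on with
  | empty => simp
  | insert a A ha ih =>
    have h3 : ∀ i, ∑ j ∈ insert a A, f i j = f i a + ∑ j ∈ A, f i j := by
      intro i; rw [Finset.sum_insert ha]
    have h4 : ∑ i ∈ A, f i a = ∑ j ∈ A, f a j := Finset.sum_congr rfl fun i _ => hf i a
    have h5 : ∑ i ∈ insert a A, f i i = f a a + ∑ i ∈ A, f i i := Finset.sum_insert ha
    simp only [h3]
    rw [h5, Finset.sum_insert ha, Finset.sum_add_distrib, ih, h4]
    linear_combination (∑ j ∈ A, f a j) * h2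

open MvPolynomial in
lemma X2_dvd_of_rho {R : Type*} [CommRing R] (p : MvPolynomial (Fin 3) R)
    (h : MvPolynomial.eval₂Hom (C : R →+* MvPolynomial (Fin 3) R)
      ![(X 0 : MvPolynomial (Fin 3) R), X 1, 0] p = 0) :
    ∃ p', p = X 2 * p' := by
  have key : ∀ p : MvPolynomial (Fin 3) R, (X 2 : MvPolynomial (Fin 3) R) ∣
      p - MvPolynomial.eval₂Hom (C : R →+* MvPolynomial (Fin 3) R)
      ![(X 0 : MvPolynomial (Fin 3) R), X 1, 0] p := by
    intro p
    induction p using MvPolynomial.induction_on with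
    | C a => simp
    | add p q hp hq =>
      rw [map_add]
      have := dvd_add hp hq
      convert this using 1
      ring
    | mul_X p i hp =>
      rw [map_mul]
      have h1 : (X 2 : MvPolynomial (Fin 3) R) ∣ X i -
        MvPolynomial.eval₂Hom (C : R →+* MvPolynomial (Fin 3) R)
          ![(X 0 : MvPolynomial (Fin 3) R), X 1, 0] (X i) := by
        fin_cases i <;> simp
      obtain ⟨u, hu⟩ := hp
      obtain ⟨w, hw⟩ := h1
      refine ⟨u * X i + eval₂Hom (C : R →+* MvPolynomial (Fin 3) R)
          ![(X 0 : MvPolynomial (Fin 3) R), X 1, 0] p * w, ?_⟩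
      linear_combination X i * hu + (eval₂Hom (C : R →+* MvPolynomial (Fin 3) R)
          ![(X 0 : MvPolynomial (Fin 3) R), X 1, 0] p) * hw
  have h1 := key p
  rw [h, sub_zero] at h1
  exact h1

variable {O : Type*} [CommRing O] [IsDomain O] [ValuationRing O] {s m : ℕ}

lemma mulVec_split {R : Type*} [CommRing R] (M : Matrix (HI s m) (HI s m) R)
    (v : HI s m → R) (r : Fin m ⊕ Fin (s + 1)) :
    M.mulVec v (rowSel s m r) =
      (M.submatrix (rowSel s m) (colSel s m)).mulVec (fun c => v (colSel s m c)) r +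
      ∑ t, M (rowSel s m r) (.inr (.inr t)) * v (.inr (.inr t)) := by
  simp only [Matrix.mulVec, dotProduct, Fintype.sum_sum_type, Matrix.submatrix_apply, colSel]
  ring

/-- `v ⬝ M₀ v = 0` -/
lemma quad_zero {R ι : Type*} [CommRing R] [Fintype ι]
    (M0 M1 M2 : Matrix ι ι R) (h0 : M0.IsSymm)
    (h1 : M1.IsSymm) (h2 : M2.IsSymm) (v : ι → MvPolynomial (Fin 3) R)
    (hv : (net3 M0 M1 M2).mulVec v = 0) :
    ∑ i, ∑ j, MvPolynomial.C (M0 i j) * (v i * v j) = 0 := by
  have h3 : ∀ i, ∑ j, MvPolynomial.C (M0 i j) * v j +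
      (net3 M0 M1 M2).mulVec (fun j => MvPolynomial.pderiv 0 (v j)) i = 0 := by
    intro i
    have h4 := congrArg (MvPolynomial.pderiv 0) (congrFun hv i)
    rw [Pi.zero_apply, map_zero] at h4
    rw [← h4, Matrix.mulVec, dotProduct, Matrix.mulVec, dotProduct, map_sum,
      ← Finset.sum_add_distrib]
    refine Finset.sum_congr rfl fun j _ => ?_
    rw [Derivation.leibniz]
    have h5 : MvPolynomial.pderiv 0 (net3 M0 M1 M2 i j) = MvPolynomial.C (M0 i j) := by
      unfold net3
      simp [MvPolynomial.pderiv_X]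
    rw [h5, smul_eq_mul, smul_eq_mul]
    ring
  have h6 : ∑ i, ∑ j, MvPolynomial.C (M0 i j) * (v i * v j) =
      v ⬝ᵥ (fun i => ∑ j, MvPolynomial.C (M0 i j) * v j) := by
    rw [dotProduct]
    refine Finset.sum_congr rfl fun i _ => ?_
    rw [Finset.mul_sum]
    refine Finset.sum_congr rfl fun j _ => ?_
    ring
  have h7 : (fun i => ∑ j, MvPolynomial.C (M0 i j) * v j) =
      - (net3 M0 M1 M2).mulVec (fun j => MvPolynomial.pderiv 0 (v j)) := by
    funext i
    exact eq_neg_of_add_eq_zero_left (h3 i)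
  rw [h6, h7, dotProduct_neg, dot_symm (net3_symm h0 h1 h2), hv, dotProduct_zero, neg_zero]

theorem lemmaC (M0 M1 M2 : Matrix (HI s m) (HI s m) O)
    (h0s : M0.IsSymm) (h1s : M1.IsSymm) (h2s : M2.IsSymm)
    (h0N : InN M0) (h1N : InN M1)
    (hchar : (2 : ResidueField O) = 0 → (2 : O) = 0)
    (hdet : (net3 M0 M1 M2).det = 0)
    (lam : Fin m → ResidueField O) (hlam : Function.Injective lam)
    (d : Fin s → ResidueField O) (hd : Function.Injective d) (hd0 : ∀ p, d p ≠ 0)
    (hM0 : M0.map (residue O) = stdMat 1 0 0 lam d)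
    (hM1 : M1.map (residue O) = stdMat 0 1 0 lam d)
    (hM2 : M2.map (residue O) = stdMat 0 0 1 lam d) : InN M2 := by
  classical
  have hred : (net3 M0 M1 M2).map (MvPolynomial.map (residue O)) = stdNet lam d := by
    rw [net3_map, hM0, hM1]
    exact net3_std lam d _ hM2
  obtain ⟨v, hv, hv2, hv1, hv3⟩ := lemmaA (net3 M0 M1 M2)
    (net3_symm h0s h1s h2s) (net3_deg _ _ _) hdet lam hlam d hred
  -- step 1 : divisibility by X 2
  have hdiv : ∀ c, ∃ p, v (colSel s m c) = MvPolynomial.X 2 * p := by
    set ρ := MvPolynomial.eval₂Hom (MvPolynomial.C : O →+* MvPolynomial (Fin 3) O)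
      ![(MvPolynomial.X 0 : MvPolynomial (Fin 3) O), MvPolynomial.X 1, 0] with hρ
    have hρM : (net3 M0 M1 M2).map ρ = net3 M0 M1 0 := by
      ext i j : 1
      simp [net3, hρ]
    have h1 : ((net3 M0 M1 0).submatrix (rowSel s m) (colSel s m)).mulVec
        (fun c => ρ (v (colSel s m c))) = 0 := by
      funext r
      have h2 := congrArg ρ (congrFun hv (rowSel s m r))
      rw [mulVec_map_ring, hρM, mulVec_split, Pi.zero_apply, map_zero] at h2
      have h3 : ∀ t, net3 M0 M1 0 (rowSel s m r) (.inr (.inr t)) = 0 := by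
        intro t
        rcases r with i | t'
        · unfold net3 rowSel
          simp [h0N.1 i t, h1N.1 i t]
        · unfold net3 rowSel
          simp [h0N.2 t' t, h1N.2 t' t]
      rw [Finset.sum_eq_zero (fun t _ => by rw [h3 t, zero_mul]), add_zero] at h2
      exact h2
    have h2 := inj_mv _ (by
      intro f hf
      apply subInj (MvPolynomial.X 0) (MvPolynomial.X 1) (MvPolynomial.X 2)
        (fun i => MvPolynomial.C (lam i)) (fun _ => MvPolynomial.C 0)
        (fun i => ell_ne' (lam i)) (fun q => ell_ne 0 2 (by decide)) f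
      rw [← Matrix.submatrix_map, net3_map] at hf
      rw [← hf]
      congr 2
      rw [hM0, hM1]
      refine Eq.trans (net3_std lam (fun _ => (0 : ResidueField O)) _ rfl).symm ?_
      ext i j : 1
      unfold net3
      rcases i with i | i | i <;> rcases j with j | j | j <;>
        simp [bet]) _ h1
    intro c
    exact X2_dvd_of_rho _ (congrFun h2 c)
  choose f hf using hdiv
  have hX2 : (MvPolynomial.X 2 : MvPolynomial (Fin 3) O) ≠ 0 := MvPolynomial.X_ne_zero 2
  -- step 2 : the equations divided by X 2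
  have hM3 : ∀ (r : Fin m ⊕ Fin (s + 1)) (t : Fin (s + 1)),
      net3 M0 M1 M2 (rowSel s m r) (.inr (.inr t)) =
        MvPolynomial.X 2 * MvPolynomial.C (M2 (rowSel s m r) (.inr (.inr t))) := by
    intro r t
    rcases r with i | t'
    · unfold net3 rowSel
      simp [h0N.1 i t, h1N.1 i t]
    · unfold net3 rowSel
      simp [h0N.2 t' t, h1N.2 t' t]
  have heq : ∀ r, ((net3 M0 M1 M2).submatrix (rowSel s m) (colSel s m)).mulVec f r +
      ∑ t, MvPolynomial.C (M2 (rowSel s m r) (.inr (.inr t))) * v (.inr (.inr t)) = 0 := by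
    intro r
    have h1 := congrFun hv (rowSel s m r)
    rw [mulVec_split] at h1
    have h2 : MvPolynomial.X 2 *
        (((net3 M0 M1 M2).submatrix (rowSel s m) (colSel s m)).mulVec f r +
        ∑ t, MvPolynomial.C (M2 (rowSel s m r) (.inr (.inr t))) * v (.inr (.inr t))) = 0 := by
      refine Eq.trans ?_ h1
      rw [mul_add]
      congr 1
      · simp only [Matrix.mulVec, dotProduct, Finset.mul_sum]
        refine Finset.sum_congr rfl fun c _ => ?_
        rw [hf c]; ring
      · rw [Finset.mul_sum]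
        refine Finset.sum_congr rfl fun t _ => ?_
        rw [hM3]; ring
    exact (mul_eq_zero.mp h2).resolve_left hX2
  -- step 3 : scaling of the bad blocks
  by_contra hcon
  have hbad : (fun p : (Fin m ⊕ Fin (s + 1)) × Fin (s + 1) =>
      M2 (rowSel s m p.1) (.inr (.inr p.2))) ≠ 0 := by
    intro h0
    apply hcon
    exact ⟨fun i t => congrFun h0 (.inl i, t), fun t t' => congrFun h0 (.inr t, t')⟩
  obtain ⟨τ, hτ, K, hK, ⟨p0, hp0⟩⟩ := exists_scale _ hbad
  have hτres : residue O τ = 0 := by
    have h1 : residue O (M2 (rowSel s m p0.1) (.inr (.inr p0.2))) = 0 := by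
      have h2 := congrFun (congrFun hM2 (rowSel s m p0.1)) (.inr (.inr p0.2))
      rw [Matrix.map_apply] at h2
      rw [h2]
      rcases p0.1 with i | t
      · rfl
      · rfl
    rw [hK p0, map_mul] at h1
    exact (mul_eq_zero.mp h1).resolve_right hp0
  -- step 4 : purity
  obtain ⟨f', hf'⟩ := pure_mv ((net3 M0 M1 M2).submatrix (rowSel s m) (colSel s m)) (by
      intro f hf
      rw [← Matrix.submatrix_map, hred] at hf
      exact subInj _ _ _ _ _ (fun i => ell_ne' (lam i))
        (fun q => ell_ne (d q) 2 (by decide)) f hf) τ f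
      (fun r => - ∑ t, MvPolynomial.C (K (r, t)) * v (.inr (.inr t))) (by
      intro r
      have h1 := heq r
      rw [eq_neg_of_add_eq_zero_left h1, mul_neg, Finset.mul_sum]
      congr 1
      refine Finset.sum_congr rfl fun t _ => ?_
      rw [hK (r, t), MvPolynomial.C_mul]; ring)
  have hCτ : (MvPolynomial.C τ : MvPolynomial (Fin 3) O) ≠ 0 := by
    rwa [Ne, MvPolynomial.C_eq_zero]
  have heq' : ∀ r, ((net3 M0 M1 M2).submatrix (rowSel s m) (colSel s m)).mulVec f' r +
      ∑ t, MvPolynomial.C (K (r, t)) * v (.inr (.inr t)) = 0 := by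
    intro r
    have h2 : MvPolynomial.C τ *
        (((net3 M0 M1 M2).submatrix (rowSel s m) (colSel s m)).mulVec f' r +
        ∑ t, MvPolynomial.C (K (r, t)) * v (.inr (.inr t))) = 0 := by
      refine Eq.trans ?_ (heq r)
      rw [mul_add]
      congr 1
      · simp only [Matrix.mulVec, dotProduct, Finset.mul_sum]
        refine Finset.sum_congr rfl fun c _ => ?_
        rw [hf' c]; ring
      · rw [Finset.mul_sum]
        refine Finset.sum_congr rfl fun t _ => ?_
        rw [hK (r, t), MvPolynomial.C_mul]; ring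
    exact (mul_eq_zero.mp h2).resolve_left hCτ
  -- reduction
  set fb : Fin m ⊕ Fin s → MvPolynomial (Fin 3) (ResidueField O) :=
    fun c => MvPolynomial.map (residue O) (f' c) with hfb
  have heqr : ∀ r, ((stdNet lam d).submatrix (rowSel s m) (colSel s m)).mulVec fb r +
      ∑ t, MvPolynomial.C (residue O (K (r, t))) * uN d t = 0 := by
    intro r
    have h1 := congrArg (MvPolynomial.map (residue O)) (heq' r)
    rw [map_add, mulVec_map_ring, ← Matrix.submatrix_map, hred, map_sum, map_zero] at h1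
    rw [← h1]
    congr 1
    refine Finset.sum_congr rfl fun t _ => ?_
    rw [map_mul, MvPolynomial.map_C, hv3 t]
  have hE2 : ∀ i, (∀ t, residue O (K (.inl i, t)) = 0) ∧ fb (.inl i) = 0 := by
    intro i
    have h1 := heqr (.inl i)
    rw [sub_mulVec_inl] at h1
    exact e2_zero (lam i) d hd0 _ _ h1
  have hE3 : (2 : ResidueField O) = 0 → ∑ q, fb (.inr q) = 0 := by
    intro hc
    have h2O := hchar hc
    have h2P : (2 : MvPolynomial (Fin 3) O) = 0 := by
      have : (2 : MvPolynomial (Fin 3) O) = MvPolynomial.C (2 : O) := by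
        rw [map_ofNat]
      rw [this, h2O, MvPolynomial.C_0]
    have h3 := quad_zero M0 M1 M2 h0s h1s h2s v hv
    rw [sum_symm_two h2P Finset.univ _ (by
      intro i j
      rw [h0s.apply i j]; ring)] at h3
    rw [Fintype.sum_sum_type, Fintype.sum_sum_type] at h3
    have h4 : ∀ t, (MvPolynomial.C (M0 (.inr (.inr t)) (.inr (.inr t))) *
        (v (.inr (.inr t)) * v (.inr (.inr t))) : MvPolynomial (Fin 3) O) = 0 := by
      intro t
      rw [h0N.2 t t]; simp
    rw [Finset.sum_congr rfl (fun t _ => h4 t), Finset.sum_const_zero, add_zero] at h3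
    have hvf : ∀ c, v (colSel s m c) = MvPolynomial.X 2 * (MvPolynomial.C τ * f' c) := by
      intro c
      rw [hf c, hf' c]
    have h5 : (MvPolynomial.X 2 * MvPolynomial.C τ) ^ 2 *
        (∑ i, MvPolynomial.C (M0 (.inl i) (.inl i)) * f' (.inl i) ^ 2 +
        ∑ q, MvPolynomial.C (M0 (.inr (.inl q)) (.inr (.inl q))) * f' (.inr q) ^ 2) = 0 := by
      rw [← h3, mul_add, Finset.mul_sum, Finset.mul_sum]
      congr 1
      · refine Finset.sum_congr rfl fun i _ => ?_
        have := hvf (.inl i)
        simp only [colSel] at this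
        rw [this]; ring
      · refine Finset.sum_congr rfl fun q _ => ?_
        have := hvf (.inr q)
        simp only [colSel] at this
        rw [this]; ring
    have h6 := (mul_eq_zero.mp h5).resolve_left (pow_ne_zero 2 (mul_ne_zero hX2 hCτ))
    have h7 := congrArg (MvPolynomial.map (residue O)) h6
    rw [map_add, map_sum, map_sum, map_zero] at h7
    have h8 : ∀ i, MvPolynomial.map (residue O)
        (MvPolynomial.C (M0 (.inl i) (.inl i)) * f' (.inl i) ^ 2) = 0 := by
      intro i
      have : fb (.inl i) = 0 := (hE2 i).2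
      rw [map_mul, map_pow]
      rw [show MvPolynomial.map (residue O) (f' (.inl i)) = 0 from this]
      ring
    have h9 : ∀ q, MvPolynomial.map (residue O)
        (MvPolynomial.C (M0 (.inr (.inl q)) (.inr (.inl q))) * f' (.inr q) ^ 2) =
        fb (.inr q) * fb (.inr q) := by
      intro q
      rw [map_mul, map_pow, MvPolynomial.map_C]
      have h10 := congrFun (congrFun hM0 (.inr (.inl q))) (.inr (.inl q))
      rw [Matrix.map_apply, stdMat_11, if_pos rfl] at h10
      rw [h10, MvPolynomial.C_1, one_mul, sq]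
    rw [Finset.sum_congr rfl (fun i _ => h8 i), Finset.sum_const_zero, zero_add,
      Finset.sum_congr rfl (fun q _ => h9 q)] at h7
    have h2K : (2 : MvPolynomial (Fin 3) (ResidueField O)) = 0 := by
      have : (2 : MvPolynomial (Fin 3) (ResidueField O)) =
        MvPolynomial.C (2 : ResidueField O) := by rw [map_ofNat]
      rw [this, hc, MvPolynomial.C_0]
    have h11 : (∑ q, fb (.inr q)) ^ 2 = 0 := by
      rw [sq, Finset.sum_mul_sum, sum_symm_two h2K Finset.univ
        (fun q q' => fb (.inr q) * fb (.inr q')) (fun i j => mul_comm _ _)]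
      exact h7
    exact pow_eq_zero_iff (two_ne_zero) |>.mp h11
  have hE1 := e1_zero d hd (fun q => fb (.inr q)) (fun t l => residue O (K (.inr t, l)))
    (by
      intro t l
      have h1 : τ * K (.inr t, l) = τ * K (.inr l, t) := by
        rw [← hK (.inr t, l), ← hK (.inr l, t)]
        show M2 (.inr (.inr t)) (.inr (.inr l)) = M2 (.inr (.inr l)) (.inr (.inr t))
        exact (h2s.apply _ _)
      rw [mul_left_cancel₀ hτ h1]) (by
      intro t
      have h1 := heqr (.inr t)
      rw [sub_mulVec_inr] at h1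
      exact h1) hE3
  rcases p0 with ⟨r, t⟩
  rcases r with i | t'
  · exact hp0 ((hE2 i).1 t)
  · exact hp0 (hE1 t' t)

end Pool.Agent.Helper13.Fa
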