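import Pool.Agent.Helper13.FaH

/-!
Lemma D: the extra rows and columns.
-/

namespace Pool.Agent.Helper13.Fa

open IsLocalRing Matrix

/-- compression condition on the full index set -/
def InNE {R : Type*} [CommRing R] {s m e : ℕ} (M : Matrix (HI s m ⊕ Fin e) (HI s m ⊕ Fin e) R) :
    Prop :=
  InN M.toBlocks₁₁ ∧ (∀ i l, M (.inl (.inl i)) (.inr l) = 0) ∧
    (∀ t l, M (.inl (.inr (.inr t))) (.inr l) = 0) ∧ ∀ l l', M (.inr l) (.inr l') = 0

/-- the pencil `X M₀ + M₁` -/
noncomputable def pen {R ι ι' : Type*} [CommRing R] (M0 M1 : Matrix ι ι' R) :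
    Matrix ι ι' (Polynomial R) :=
  (Polynomial.X : Polynomial R) • M0.map Polynomial.C + M1.map Polynomial.C

lemma pen_apply {R ι ι' : Type*} [CommRing R] (M0 M1 : Matrix ι ι' R) (i : ι) (j : ι') :
    pen M0 M1 i j = Polynomial.X * Polynomial.C (M0 i j) + Polynomial.C (M1 i j) := by
  unfold pen
  simp [Matrix.add_apply, Matrix.smul_apply]

lemma pen_submatrix {R ι ι' κ κ' : Type*} [CommRing R] (M0 M1 : Matrix ι ι' R) (f : κ → ι)
    (g : κ' → ι') : (pen M0 M1).submatrix f g = pen (M0.submatrix f g) (M1.submatrix f g) := by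
  ext i j : 1
  rw [Matrix.submatrix_apply, pen_apply, pen_apply]; rfl

lemma pen_map {R R' ι ι' : Type*} [CommRing R] [CommRing R'] (f : R →+* R')
    (M0 M1 : Matrix ι ι' R) : (pen M0 M1).map (Polynomial.mapRingHom f) =
      pen (M0.map f) (M1.map f) := by
  ext i j : 1
  rw [Matrix.map_apply, pen_apply, pen_apply]
  simp

lemma pen_symm {R ι : Type*} [CommRing R] {M0 M1 : Matrix ι ι R} (h0 : M0.IsSymm)
    (h1 : M1.IsSymm) : (pen M0 M1).IsSymm := by
  ext i j : 1
  rw [Matrix.transpose_apply, pen_apply, pen_apply, h0.apply, h1.apply]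

lemma pen_std {F : Type*} [Field F] {s m : ℕ} (lam : Fin m → F) (d : Fin s → F) :
    pen (stdMat 1 0 0 lam d) (stdMat 0 1 0 lam d) =
      stdMat (Polynomial.X : Polynomial F) 1 0 (fun i => Polynomial.C (lam i))
        (fun q => Polynomial.C (d q)) := by
  ext i j : 1
  rw [pen_apply]
  rcases i with i | i | i <;> rcases j with j | j | j <;>
    simp only [stdMat_22, stdMat_2r, stdMat_r2, stdMat_11, stdMat_13, stdMat_31, stdMat_33,
      bet, Polynomial.C_0, mul_zero, add_zero]
  · split_ifs <;> simp
    ring
  · split_ifs <;> simp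
  all_goals
    split_ifs <;> simp
    try ring

lemma det_adj_coeff {R : Type*} [CommRing R] {m : ℕ} (A0 A1 : Matrix (Fin m) (Fin m) R)
    (i j : Fin m) (n : ℕ) (hn : m ≤ n) : ((pen A0 A1).adjugate i j).coeff n = 0 := by
  rw [Matrix.adjugate_apply]
  have h1 : (pen A0 A1).updateRow j (Pi.single i 1) =
      pen (A0.updateRow j 0) (A1.updateRow j (Pi.single i 1)) := by
    ext a b : 1
    rw [pen_apply]
    by_cases ha : a = j
    · subst ha
      rw [Matrix.updateRow_self, Matrix.updateRow_self, Matrix.updateRow_self]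
      by_cases hb : b = i
      · subst hb; simp
      · rw [Pi.single_eq_of_ne hb, Pi.single_eq_of_ne hb]; simp
    · rw [Matrix.updateRow_ne ha, Matrix.updateRow_ne ha, Matrix.updateRow_ne ha, pen_apply]
  rw [h1]
  unfold pen
  rcases Nat.lt_or_ge m n with h2 | h2
  · apply Polynomial.coeff_eq_zero_of_natDegree_lt
    refine (Polynomial.natDegree_det_X_add_C_le _ _).trans_lt ?_
    rwa [Fintype.card_fin]
  · have h3 : n = Fintype.card (Fin m) := by rw [Fintype.card_fin]; omega
    rw [h3, Polynomial.coeff_det_X_add_C_card]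
    exact Matrix.det_eq_zero_of_row_eq_zero j (fun b => by rw [Matrix.updateRow_self]; rfl)

variable {O : Type*} [CommRing O] [IsDomain O] [ValuationRing O] {s m e : ℕ}

/-- `D` for the pencil -/
lemma pen_D_ne (N0 N1 : Matrix (HI s m) (HI s m) O)
    (lam : Fin m → ResidueField O) (d : Fin s → ResidueField O)
    (hM0 : N0.map (residue O) = stdMat 1 0 0 lam d)
    (hM1 : N1.map (residue O) = stdMat 0 1 0 lam d) :
    Polynomial.map (residue O) ((pen N0 N1).updateRow (n0 s m) (Pi.single (n0 s m) 1)).det ≠
      0 := by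
  rw [← Polynomial.coe_mapRingHom, ← det_map_ring, map_updateRow_single, pen_map, hM0, hM1,
    pen_std, det_std_updateRow]
  refine mul_ne_zero ?_ (bMat_det_ne _ _ _ _ one_ne_zero)
  refine Finset.prod_ne_zero_iff.mpr fun i _ => ?_
  rw [mul_one]
  exact Polynomial.X_sub_C_ne_zero _

/-- hypotheses of lemma D -/
structure DHyp (M0 M1 : Matrix (HI s m ⊕ Fin e) (HI s m ⊕ Fin e) O)
    (lam : Fin m → ResidueField O) (d : Fin s → ResidueField O) : Prop where
  h0s : M0.IsSymm
  h1s : M1.IsSymm
  h0N : InN M0.toBlocks₁₁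
  h1N : InN M1.toBlocks₁₁
  hmin : ∀ f g : HI s m → HI s m ⊕ Fin e, ((pen M0 M1).submatrix f g).det = 0
  hlam : Function.Injective lam
  hM0 : M0.toBlocks₁₁.map (residue O) = stdMat 1 0 0 lam d
  hM1 : M1.toBlocks₁₁.map (residue O) = stdMat 0 1 0 lam d
  hn3 : ∀ (q : Fin s) l, M0 (.inl (.inr (.inr q.castSucc))) (.inr l) = 0
  hn2 : ∀ (i : Fin m) l, M0 (.inl (.inl i)) (.inr l) = 0

theorem lemmaD1 (M0 M1 : Matrix (HI s m ⊕ Fin e) (HI s m ⊕ Fin e) O)
    (lam : Fin m → ResidueField O) (d : Fin s → ResidueField O)
    (H : DHyp M0 M1 lam d) :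
    ∀ l, (∀ t, M0 (.inl (.inr (.inr t))) (.inr l) = 0) ∧
      ∀ t, M1 (.inl (.inr (.inr t))) (.inr l) = 0 := by
  obtain ⟨h0s, h1s, h0N, h1N, hmin, hlam, hM0, hM1, hn3, hn2⟩ := H
  classical
  set N0 := M0.toBlocks₁₁ with hN0
  set N1 := M1.toBlocks₁₁ with hN1
  have hN0s : N0.IsSymm := by
    ext i j; exact h0s.apply _ _
  have hN1s : N1.IsSymm := by
    ext i j; exact h1s.apply _ _
  set P := pen N0 N1 with hP
  have hPe : ∀ i j, P i j = pen M0 M1 (.inl i) (.inl j) := by
    intro i j
    rw [hP, pen_apply, pen_apply]; rfl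
  have hPs : P.IsSymm := pen_symm hN0s hN1s
  have hPdet : P.det = 0 := by
    have h1 := hmin Sum.inl Sum.inl
    rw [← h1]; rfl
  set D := (P.updateRow (n0 s m) (Pi.single (n0 s m) 1)).det with hD
  have hDbar : Polynomial.map (residue O) D ≠ 0 := pen_D_ne N0 N1 lam d hM0 hM1
  have hD0 : D ≠ 0 := by
    intro h0; apply hDbar; rw [h0, Polynomial.map_zero]
  have hPred : P.map (Polynomial.mapRingHom (residue O)) =
      stdMat (Polynomial.X : Polynomial (ResidueField O)) 1 0 (fun i => Polynomial.C (lam i))
        (fun q => Polynomial.C (d q)) := by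
    rw [hP, pen_map, hM0, hM1, pen_std]
  have hlne : ∀ i, (Polynomial.X : Polynomial (ResidueField O)) -
      Polynomial.C (lam i) * 1 ≠ 0 := by
    intro i
    rw [mul_one]; exact Polynomial.X_sub_C_ne_zero _
  have hyne : ∀ q : Fin s, (Polynomial.X : Polynomial (ResidueField O)) +
      Polynomial.C (d q) * 0 ≠ 0 := by
    intro q
    rw [mul_zero, add_zero]; exact Polynomial.X_ne_zero
  -- the kernel vector
  set y : HI s m → Polynomial O := fun i => P.adjugate i (n0 s m) with hy
  have hPy : P.mulVec y = 0 := adj_col P hPdet _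
  have hyn : y (n0 s m) = D := Matrix.adjugate_apply P _ _
  have hP33 : ∀ (r : Fin m ⊕ Fin (s + 1)) t, P (rowSel s m r) (.inr (.inr t)) = 0 := by
    intro r t
    rw [hP, pen_apply]
    rcases r with i | t'
    · simp [rowSel, h0N.1 i t, h1N.1 i t]
    · simp [rowSel, h0N.2 t' t, h1N.2 t' t]
  have hy12 : ∀ c, y (colSel s m c) = 0 := by
    have h1 : (P.submatrix (rowSel s m) (colSel s m)).mulVec (fun c => y (colSel s m c)) = 0 := by
      funext r
      have h2 := congrFun hPy (rowSel s m r)
      rw [mulVec_split, Finset.sum_eq_zero (fun t _ => by rw [hP33 r t, zero_mul]),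
        add_zero] at h2
      exact h2
    have h2 := inj_poly _ (by
      intro f hf
      rw [← Matrix.submatrix_map, hPred] at hf
      exact subInj _ _ _ _ _ hlne hyne f hf) _ h1
    exact fun c => congrFun h2 c
  have hyred : ∀ n : ℕ, ∀ t : Fin (s + 1), t.val = n →
      Polynomial.map (residue O) (y (.inr (.inr t))) =
        Polynomial.X ^ n * Polynomial.map (residue O) D := by
    intro n
    induction n with
    | zero =>
      intro t ht
      have : t = 0 := by rw [Fin.ext_iff]; simpa using ht
      subst this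
      rw [pow_zero, one_mul, ← hyn]
    | succ n ih =>
      intro t ht
      obtain ⟨q, rfl⟩ := Fin.exists_succ_eq.mpr (show t ≠ 0 by
        intro h; rw [h] at ht; simp at ht)
      have h1 := congrArg (Polynomial.mapRingHom (residue O)) (congrFun hPy (.inr (.inl q)))
      rw [mulVec_map_ring, hPred, stdMat_mulVec_1] at h1
      have h2 : y (.inr (.inl q)) = 0 := hy12 (.inr q)
      simp only [Polynomial.coe_mapRingHom, Pi.zero_apply, Polynomial.map_zero] at h1
      rw [h2, ih q.castSucc (by rw [Fin.val_castSucc]; rw [Fin.val_succ] at ht; omega)] at h1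
      simp only [Polynomial.map_zero, mul_zero, zero_add, add_zero, one_mul] at h1
      rw [← sub_eq_zero.mp h1, pow_succ]
      ring
  -- step 1: the block (3, E)
  have hcr : ∀ l, ∑ t, y (.inr (.inr t)) * pen M0 M1 (.inl (.inr (.inr t))) (.inr l) = 0 := by
    intro l
    have h1 := hmin Sum.inl (fun h => if h = n0 s m then .inr l else .inl h)
    have h2 : (pen M0 M1).submatrix Sum.inl (fun h => if h = n0 s m then .inr l else .inl h) =
        P.updateCol (n0 s m) (fun h => pen M0 M1 (.inl h) (.inr l)) := by
      ext a b : 1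
      rw [Matrix.submatrix_apply, Matrix.updateCol_apply]
      by_cases hb : b = n0 s m
      · rw [if_pos hb, if_pos hb]
      · rw [if_neg hb, if_neg hb, hPe]
    rw [h2, ← Matrix.cramer_apply, Matrix.cramer_eq_adjugate_mulVec] at h1
    have h3 : ∀ j, P.adjugate (n0 s m) j = y j := by
      intro j
      have h4 := Matrix.adjugate_transpose P
      rw [hPs.eq] at h4
      have h5 := congrFun (congrFun h4 j) (n0 s m)
      rw [Matrix.transpose_apply] at h5
      exact h5
    rw [Matrix.mulVec, dotProduct, Fintype.sum_sum_type, Fintype.sum_sum_type] at h1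
    simp only [h3] at h1
    have h6 : ∀ i, y (.inl i) = 0 := fun i => hy12 (.inl i)
    have h7 : ∀ q, y (.inr (.inl q)) = 0 := fun q => hy12 (.inr q)
    simp only [h6, h7, zero_mul, Finset.sum_const_zero, zero_add] at h1
    exact h1
  · intro l
    set fam : Fin (s + 1) ⊕ Unit → O := fun x => match x with
      | .inl t => M1 (.inl (.inr (.inr t))) (.inr l)
      | .inr _ => M0 (.inl (.inr (.inr (Fin.last s)))) (.inr l) with hfam
    by_cases hfam0 : fam = 0
    · refine ⟨fun t => ?_, fun t => congrFun hfam0 (.inl t)⟩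
      rcases Fin.eq_castSucc_or_eq_last t with ⟨q, rfl⟩ | rfl
      · exact hn3 q l
      · exact congrFun hfam0 (.inr ())
    · exfalso
      obtain ⟨τ, hτ, K, hK, x0, hx0⟩ := exists_scale fam hfam0
      have h1 := hcr l
      have h2 : Polynomial.C τ * (∑ t, y (.inr (.inr t)) * Polynomial.C (K (.inl t)) +
          y (.inr (.inr (Fin.last s))) * (Polynomial.X * Polynomial.C (K (.inr ())))) = 0 := by
        rw [← h1]
        have h3 : ∀ t, pen M0 M1 (.inl (.inr (.inr t))) (.inr l) =
            Polynomial.C τ * Polynomial.C (K (.inl t)) +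
            (if t = Fin.last s then Polynomial.C τ * (Polynomial.X *
              Polynomial.C (K (.inr ()))) else 0) := by
          intro t
          have h4 : M1 (.inl (.inr (.inr t))) (.inr l) = τ * K (.inl t) := hK (.inl t)
          have h5 : M0 (.inl (.inr (.inr (Fin.last s)))) (.inr l) = τ * K (.inr ()) :=
            hK (.inr ())
          rw [pen_apply, h4]
          rcases Fin.eq_castSucc_or_eq_last t with ⟨q, rfl⟩ | rfl
          · rw [hn3 q l, if_neg (by
              intro h
              have := congrArg Fin.val h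
              rw [Fin.val_castSucc, Fin.val_last] at this
              omega)]
            simp
          · rw [h5, if_pos rfl, Polynomial.C_mul, Polynomial.C_mul]; ring
        simp only [h3, mul_add, Finset.sum_add_distrib, mul_ite, mul_zero]
        rw [Finset.sum_ite_eq' Finset.univ (Fin.last s)]
        simp only [Finset.mem_univ, if_true]
        rw [Finset.mul_sum]
        refine congrArg₂ (· + ·) ?_ ?_
        · refine Finset.sum_congr rfl fun t _ => ?_
          ring
        · ring
      have h3 := (mul_eq_zero.mp h2).resolve_left (Polynomial.C_ne_zero.mpr hτ)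
      have h4 := congrArg (Polynomial.mapRingHom (residue O)) h3
      simp only [map_add, map_sum, map_mul, Polynomial.coe_mapRingHom, Polynomial.map_C,
        Polynomial.map_X, map_zero] at h4
      have h5 : ∀ t : Fin (s + 1), Polynomial.map (residue O) (y (.inr (.inr t))) =
          Polynomial.X ^ t.val * Polynomial.map (residue O) D := fun t => hyred t.val t rfl
      simp only [h5, Fin.val_last] at h4
      have h6 : Polynomial.map (residue O) D * (∑ t : Fin (s + 1), Polynomial.X ^ t.val *
          Polynomial.C (residue O (K (.inl t))) +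
          Polynomial.X ^ (s + 1) * Polynomial.C (residue O (K (.inr ())))) = 0 := by
        rw [← h4, mul_add, Finset.mul_sum]
        refine congrArg₂ (· + ·) ?_ ?_
        · refine Finset.sum_congr rfl fun t _ => ?_
          ring
        · rw [pow_succ]; ring
      have h7 := (mul_eq_zero.mp h6).resolve_left hDbar
      have h8 : ∀ x, residue O (K x) = 0 := by
        intro x
        rcases x with t | u
        · have h9 := congrArg (fun p => Polynomial.coeff p t.val) h7
          simp only [Polynomial.coeff_add, Polynomial.finsetSum_coeff,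
            Polynomial.coeff_mul_C, Polynomial.coeff_X_pow, Polynomial.coeff_zero] at h9
          rw [Finset.sum_eq_single t] at h9
          · rw [if_pos rfl, if_neg (by omega)] at h9
            simpa using h9
          · intro t' _ htt'
            rw [if_neg (by intro h; exact htt' (Fin.ext h.symm)), zero_mul]
          · intro h; exact absurd (Finset.mem_univ _) h
        · have h9 := congrArg (fun p => Polynomial.coeff p (s + 1)) h7
          simp only [Polynomial.coeff_add, Polynomial.finsetSum_coeff,
            Polynomial.coeff_mul_C, Polynomial.coeff_X_pow, Polynomial.coeff_zero] at h9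
          rw [Finset.sum_eq_zero (fun t _ => by
            rw [if_neg (by omega), zero_mul]), zero_add] at h9
          simpa using h9
      exact hx0 (h8 x0)

theorem lemmaD2 (M0 M1 : Matrix (HI s m ⊕ Fin e) (HI s m ⊕ Fin e) O)
    (lam : Fin m → ResidueField O) (d : Fin s → ResidueField O)
    (H : DHyp M0 M1 lam d) :
    ∀ l l', (pen (M0.submatrix (Sum.inl ∘ Sum.inl) (Sum.inl ∘ Sum.inl))
        (M1.submatrix (Sum.inl ∘ Sum.inl) (Sum.inl ∘ Sum.inl))).det *
          pen M0 M1 (.inr l) (.inr l') =
      ∑ i, ∑ j, Polynomial.C (M1 (.inl (.inl i)) (.inr l)) *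
        (pen (M0.submatrix (Sum.inl ∘ Sum.inl) (Sum.inl ∘ Sum.inl))
        (M1.submatrix (Sum.inl ∘ Sum.inl) (Sum.inl ∘ Sum.inl))).adjugate i j *
        Polynomial.C (M1 (.inl (.inl j)) (.inr l')) := by
  obtain ⟨h0s, h1s, h0N, h1N, hmin, hlam, hM0, hM1, hn3, hn2⟩ := H
  have h3E := lemmaD1 M0 M1 lam d ⟨h0s, h1s, h0N, h1N, hmin, hlam, hM0, hM1, hn3, hn2⟩
  classical
  set N0 := M0.toBlocks₁₁ with hN0
  set N1 := M1.toBlocks₁₁ with hN1
  have hN0s : N0.IsSymm := by
    ext i j; exact h0s.apply _ _
  have hN1s : N1.IsSymm := by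
    ext i j; exact h1s.apply _ _
  set P := pen N0 N1 with hP
  have hPe : ∀ i j, P i j = pen M0 M1 (.inl i) (.inl j) := by
    intro i j
    rw [hP, pen_apply, pen_apply]; rfl
  have hPs : P.IsSymm := pen_symm hN0s hN1s
  have hPdet : P.det = 0 := by
    have h1 := hmin Sum.inl Sum.inl
    rw [← h1]; rfl
  set D := (P.updateRow (n0 s m) (Pi.single (n0 s m) 1)).det with hD
  have hDbar : Polynomial.map (residue O) D ≠ 0 := pen_D_ne N0 N1 lam d hM0 hM1
  have hD0 : D ≠ 0 := by
    intro h0; apply hDbar; rw [h0, Polynomial.map_zero]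
  have hPred : P.map (Polynomial.mapRingHom (residue O)) =
      stdMat (Polynomial.X : Polynomial (ResidueField O)) 1 0 (fun i => Polynomial.C (lam i))
        (fun q => Polynomial.C (d q)) := by
    rw [hP, pen_map, hM0, hM1, pen_std]
  have hlne : ∀ i, (Polynomial.X : Polynomial (ResidueField O)) -
      Polynomial.C (lam i) * 1 ≠ 0 := by
    intro i
    rw [mul_one]; exact Polynomial.X_sub_C_ne_zero _
  have hyne : ∀ q : Fin s, (Polynomial.X : Polynomial (ResidueField O)) +
      Polynomial.C (d q) * 0 ≠ 0 := by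
    intro q
    rw [mul_zero, add_zero]; exact Polynomial.X_ne_zero
  -- the kernel vector
  set y : HI s m → Polynomial O := fun i => P.adjugate i (n0 s m) with hy
  have hPy : P.mulVec y = 0 := adj_col P hPdet _
  have hyn : y (n0 s m) = D := Matrix.adjugate_apply P _ _
  have hP33 : ∀ (r : Fin m ⊕ Fin (s + 1)) t, P (rowSel s m r) (.inr (.inr t)) = 0 := by
    intro r t
    rw [hP, pen_apply]
    rcases r with i | t'
    · simp [rowSel, h0N.1 i t, h1N.1 i t]
    · simp [rowSel, h0N.2 t' t, h1N.2 t' t]
  have hy12 : ∀ c, y (colSel s m c) = 0 := by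
    have h1 : (P.submatrix (rowSel s m) (colSel s m)).mulVec (fun c => y (colSel s m c)) = 0 := by
      funext r
      have h2 := congrFun hPy (rowSel s m r)
      rw [mulVec_split, Finset.sum_eq_zero (fun t _ => by rw [hP33 r t, zero_mul]),
        add_zero] at h2
      exact h2
    have h2 := inj_poly _ (by
      intro f hf
      rw [← Matrix.submatrix_map, hPred] at hf
      exact subInj _ _ _ _ _ hlne hyne f hf) _ h1
    exact fun c => congrFun h2 c
  have hyred : ∀ n : ℕ, ∀ t : Fin (s + 1), t.val = n →
      Polynomial.map (residue O) (y (.inr (.inr t))) =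
        Polynomial.X ^ n * Polynomial.map (residue O) D := by
    intro n
    induction n with
    | zero =>
      intro t ht
      have : t = 0 := by rw [Fin.ext_iff]; simpa using ht
      subst this
      rw [pow_zero, one_mul, ← hyn]
    | succ n ih =>
      intro t ht
      obtain ⟨q, rfl⟩ := Fin.exists_succ_eq.mpr (show t ≠ 0 by
        intro h; rw [h] at ht; simp at ht)
      have h1 := congrArg (Polynomial.mapRingHom (residue O)) (congrFun hPy (.inr (.inl q)))
      rw [mulVec_map_ring, hPred, stdMat_mulVec_1] at h1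
      have h2 : y (.inr (.inl q)) = 0 := hy12 (.inr q)
      simp only [Polynomial.coe_mapRingHom, Pi.zero_apply, Polynomial.map_zero] at h1
      rw [h2, ih q.castSucc (by rw [Fin.val_castSucc]; rw [Fin.val_succ] at ht; omega)] at h1
      simp only [Polynomial.map_zero, mul_zero, zero_add, add_zero, one_mul] at h1
      rw [← sub_eq_zero.mp h1, pow_succ]
      ring
  -- step 2: Schur complement
  set A := pen (M0.submatrix (Sum.inl ∘ Sum.inl) (Sum.inl ∘ Sum.inl))
        (M1.submatrix (Sum.inl ∘ Sum.inl) (Sum.inl ∘ Sum.inl)) with hA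
  · intro l l'
    have h1 := hmin (fun h => if h = n0 s m then .inr l else .inl h)
      (fun h => if h = n0 s m then .inr l' else .inl h)
    obtain ⟨z, hz, hz0⟩ := Matrix.exists_mulVec_eq_zero_iff.mpr h1
    set ζ := z (n0 s m) with hζ
    have hrow : ∀ h, ∑ h', pen M0 M1 (if h = n0 s m then .inr l else .inl h)
        (if h' = n0 s m then .inr l' else .inl h') * z h' = 0 := fun h => congrFun hz0 h
    have hζ0 : ζ ≠ 0 := by
      intro h0
      apply hz
      apply Matrix.eq_zero_of_mulVec_eq_zero (M := P.updateRow (n0 s m) (Pi.single (n0 s m) 1))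
        (by rw [← hD]; exact hD0)
      funext h
      by_cases hh : h = n0 s m
      · subst hh
        rw [Matrix.mulVec, Matrix.updateRow_self]
        simpa using h0
      · rw [Matrix.mulVec, Matrix.updateRow_ne hh, dotProduct]
        have h2 := hrow h
        rw [if_neg hh] at h2
        refine Eq.trans ?_ h2
        refine Finset.sum_congr rfl fun h' _ => ?_
        by_cases hh' : h' = n0 s m
        · have : z h' = 0 := by rw [hh']; exact h0
          rw [this, mul_zero, mul_zero]
        · rw [if_neg hh', hPe]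
    -- expand rows
    have hexp : ∀ r : HI s m ⊕ Fin e, ∑ h', pen M0 M1 r
        (if h' = n0 s m then .inr l' else .inl h') * z h' =
        ∑ i, pen M0 M1 r (.inl (.inl i)) * z (.inl i) +
        (∑ q, pen M0 M1 r (.inl (.inr (.inl q))) * z (.inr (.inl q)) +
        (pen M0 M1 r (.inr l') * ζ +
          ∑ q : Fin s, pen M0 M1 r (.inl (.inr (.inr q.succ))) * z (.inr (.inr q.succ)))) := by
      intro r
      rw [Fintype.sum_sum_type, Fintype.sum_sum_type, Fin.sum_univ_succ]
      refine congrArg₂ (· + ·) ?_ (congrArg₂ (· + ·) ?_ (congrArg₂ (· + ·) ?_ ?_))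
      · refine Finset.sum_congr rfl fun i _ => ?_
        rw [if_neg (by intro h; cases h)]
      · refine Finset.sum_congr rfl fun i _ => ?_
        rw [if_neg (by intro h; cases h)]
      · rw [if_pos rfl]
      · refine Finset.sum_congr rfl fun i _ => ?_
        rw [if_neg (by
          intro h; exact Fin.succ_ne_zero i (Sum.inr.inj (Sum.inr.inj h)))]
    have hMs := pen_symm h0s h1s
    -- rows (3, succ q)
    have ha : (fun q => z (.inr (.inl q)) : Fin s → Polynomial O) = 0 := by
      apply inj_poly (P.submatrix (fun q : Fin s => .inr (.inr q.succ))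
        (fun q' : Fin s => .inr (.inl q')))
      · intro f hf
        apply betT_inj_desc (Polynomial.X : Polynomial (ResidueField O)) 1 0
          (fun q => Polynomial.C (d q)) one_ne_zero f
        intro q
        have h2 := congrFun hf q
        simp only [Matrix.mulVec, dotProduct, Matrix.map_apply, Matrix.submatrix_apply] at h2
        refine Eq.trans ?_ h2
        refine Finset.sum_congr rfl fun q' _ => ?_
        have h3 := congrFun (congrFun hPred (.inr (.inr q.succ))) (.inr (.inl q'))
        rw [Matrix.map_apply, stdMat_31] at h3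
        rw [h3]
      · funext q
        have h2 := hrow (.inr (.inr q.succ))
        rw [if_neg (by
          intro h; exact Fin.succ_ne_zero q (Sum.inr.inj (Sum.inr.inj h))), hexp] at h2
        have e1 : ∀ i : Fin m, pen M0 M1 (.inl (.inr (.inr q.succ))) (.inl (.inl i)) = 0 := by
          intro i
          rw [hMs.apply, ← hPe]
          exact hP33 (.inl i) q.succ
        have e2 : pen M0 M1 (.inl (.inr (.inr q.succ))) (.inr l') = 0 := by
          rw [pen_apply, (h3E l').1, (h3E l').2]; simp
        have e3 : ∀ q' : Fin s,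
            pen M0 M1 (.inl (.inr (.inr q.succ))) (.inl (.inr (.inr q'.succ))) = 0 := by
          intro q'
          rw [← hPe]
          exact hP33 (.inr q.succ) q'.succ
        simp only [e1, e2, e3, zero_mul, Finset.sum_const_zero, zero_add, add_zero] at h2
        simp only [Matrix.mulVec, dotProduct, Pi.zero_apply, Matrix.submatrix_apply]
        refine Eq.trans ?_ h2
        refine Finset.sum_congr rfl fun q' _ => ?_
        rw [hPe]
    have ha' : ∀ q, z (.inr (.inl q)) = 0 := fun q => congrFun ha q
    have hAb : ∀ i, ∑ j, A i j * z (.inl j) =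
        - (Polynomial.C (M1 (.inl (.inl i)) (.inr l')) * ζ) := by
      intro i
      have h2 := hrow (.inl i)
      rw [if_neg (by simp), hexp] at h2
      have e2 : pen M0 M1 (.inl (.inl i)) (.inr l') =
          Polynomial.C (M1 (.inl (.inl i)) (.inr l')) := by
        rw [pen_apply, hn2]; simp
      have e3 : ∀ q' : Fin s,
          pen M0 M1 (.inl (.inl i)) (.inl (.inr (.inr q'.succ))) = 0 := by
        intro q'
        rw [← hPe]
        exact hP33 (.inl i) q'.succ
      simp only [ha', e2, e3, zero_mul, mul_zero, Finset.sum_const_zero, zero_add,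
        add_zero] at h2
      have h3 : ∀ j, A i j = pen M0 M1 (.inl (.inl i)) (.inl (.inl j)) := by
        intro j
        rw [hA, pen_apply, pen_apply]; rfl
      simp only [h3]
      exact eq_neg_of_add_eq_zero_left h2
    have hlast : ∑ i, Polynomial.C (M1 (.inl (.inl i)) (.inr l)) * z (.inl i) =
        - (pen M0 M1 (.inr l) (.inr l') * ζ) := by
      have h2 := hrow (n0 s m)
      rw [if_pos rfl, hexp] at h2
      have e1 : ∀ i : Fin m, pen M0 M1 (.inr l) (.inl (.inl i)) =
          Polynomial.C (M1 (.inl (.inl i)) (.inr l)) := by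
        intro i
        rw [hMs.apply, pen_apply, hn2]; simp
      have e3 : ∀ q' : Fin s, pen M0 M1 (.inr l) (.inl (.inr (.inr q'.succ))) = 0 := by
        intro q'
        rw [hMs.apply, pen_apply, (h3E l).1, (h3E l).2]; simp
      simp only [ha', e1, e3, zero_mul, mul_zero, Finset.sum_const_zero, zero_add,
        add_zero] at h2
      exact eq_neg_of_add_eq_zero_left h2
    -- multiply by the adjugate
    have hdetz : ∀ i, A.det * z (.inl i) =
        - (ζ * ∑ j, A.adjugate i j * Polynomial.C (M1 (.inl (.inl j)) (.inr l'))) := by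
      intro i
      have h2 : (A.adjugate * A).mulVec (fun j => z (.inl j)) i = A.det * z (.inl i) := by
        rw [Matrix.adjugate_mul, Matrix.smul_mulVec, Matrix.one_mulVec]; rfl
      rw [← h2, ← Matrix.mulVec_mulVec]
      have h3 : A.mulVec (fun j => z (.inl j)) = fun i =>
          - (Polynomial.C (M1 (.inl (.inl i)) (.inr l')) * ζ) := by
        funext i; exact hAb i
      rw [h3, Matrix.mulVec, dotProduct, Finset.mul_sum, ← Finset.sum_neg_distrib]
      refine Finset.sum_congr rfl fun j _ => ?_
      ring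
    apply mul_left_cancel₀ hζ0
    have h4 : A.det * ∑ i, Polynomial.C (M1 (.inl (.inl i)) (.inr l)) * z (.inl i) =
        - (ζ * ∑ i, ∑ j, Polynomial.C (M1 (.inl (.inl i)) (.inr l)) * A.adjugate i j *
        Polynomial.C (M1 (.inl (.inl j)) (.inr l'))) := by
      rw [Finset.mul_sum, Finset.mul_sum, ← Finset.sum_neg_distrib]
      refine Finset.sum_congr rfl fun i _ => ?_
      have h5 : A.det * (Polynomial.C (M1 (.inl (.inl i)) (.inr l)) * z (.inl i)) =
        Polynomial.C (M1 (.inl (.inl i)) (.inr l)) * (A.det * z (.inl i)) := by ring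
      rw [h5, hdetz i, mul_neg]
      congr 1
      rw [Finset.mul_sum, Finset.mul_sum, Finset.mul_sum]
      refine Finset.sum_congr rfl fun j _ => ?_
      ring
    rw [hlast] at h4
    linear_combination (-1 : Polynomial O) * h4

theorem lemmaD (M0 M1 : Matrix (HI s m ⊕ Fin e) (HI s m ⊕ Fin e) O)
    (lam : Fin m → ResidueField O) (d : Fin s → ResidueField O)
    (H : DHyp M0 M1 lam d) :
    InNE M0 ∧ InNE M1 := by
  obtain ⟨h0s, h1s, h0N, h1N, hmin, hlam, hM0, hM1, hn3, hn2⟩ := H
  classical
  have h3E := lemmaD1 M0 M1 lam d ⟨h0s, h1s, h0N, h1N, hmin, hlam, hM0, hM1, hn3, hn2⟩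
  have hschur := lemmaD2 M0 M1 lam d ⟨h0s, h1s, h0N, h1N, hmin, hlam, hM0, hM1, hn3, hn2⟩
  set A := pen (M0.submatrix (Sum.inl ∘ Sum.inl) (Sum.inl ∘ Sum.inl))
        (M1.submatrix (Sum.inl ∘ Sum.inl) (Sum.inl ∘ Sum.inl)) with hA
  have hA0map : (M0.submatrix (Sum.inl ∘ Sum.inl) (Sum.inl ∘ Sum.inl) :
      Matrix (Fin m) (Fin m) O).map (residue O) = 1 := by
    ext i j
    rw [Matrix.map_apply, Matrix.submatrix_apply]
    have h2 := congrFun (congrFun hM0 (.inl i)) (.inl j)
    rw [Matrix.map_apply, stdMat_22, mul_zero, sub_zero] at h2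
    rw [Matrix.one_apply]
    exact h2
  have hAred0 : A.map (Polynomial.mapRingHom (residue O)) =
          Matrix.diagonal fun j : Fin m => Polynomial.X - Polynomial.C (lam j) := by
    rw [hA, pen_map, hA0map]
    ext i j : 1
    have h2 := congrFun (congrFun hM1 (.inl i)) (.inl j)
    rw [Matrix.map_apply, stdMat_22, zero_sub, mul_one] at h2
    rw [pen_apply, Matrix.diagonal_apply, Matrix.map_apply, Matrix.submatrix_apply,
      Matrix.one_apply]
    have h3 : residue O (M1 ((Sum.inl ∘ Sum.inl) i) ((Sum.inl ∘ Sum.inl) j)) =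
      if i = j then - lam i else 0 := h2
    rw [h3]
    by_cases hij : i = j
    · rw [if_pos hij, if_pos hij, if_pos hij]; simp [sub_eq_add_neg]
    · rw [if_neg hij, if_neg hij, if_neg hij]; simp
  -- the leading coefficient
  have hA0 : (M0.submatrix (Sum.inl ∘ Sum.inl) (Sum.inl ∘ Sum.inl) :
      Matrix (Fin m) (Fin m) O).det ≠ 0 := by
    intro h0
    have h3 := det_map_ring (residue O) (M0.submatrix (Sum.inl ∘ Sum.inl)
      (Sum.inl ∘ Sum.inl) : Matrix (Fin m) (Fin m) O)
    rw [hA0map, Matrix.det_one, h0, map_zero] at h3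
    exact one_ne_zero h3
  have hAdeg : ∀ n, m < n → A.det.coeff n = 0 := by
    intro n hn
    apply Polynomial.coeff_eq_zero_of_natDegree_lt
    rw [hA]
    unfold pen
    refine (Polynomial.natDegree_det_X_add_C_le _ _).trans_lt ?_
    rwa [Fintype.card_fin]
  have hAlead : A.det.coeff m = (M0.submatrix (Sum.inl ∘ Sum.inl) (Sum.inl ∘ Sum.inl) :
      Matrix (Fin m) (Fin m) O).det := by
    rw [hA]
    unfold pen
    have := Polynomial.coeff_det_X_add_C_card
      (M0.submatrix (Sum.inl ∘ Sum.inl) (Sum.inl ∘ Sum.inl) : Matrix (Fin m) (Fin m) O)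
      (M1.submatrix (Sum.inl ∘ Sum.inl) (Sum.inl ∘ Sum.inl) : Matrix (Fin m) (Fin m) O)
    rw [Fintype.card_fin] at this
    exact this
  have hT : ∀ l l', M0 (.inr l) (.inr l') = 0 ∧ M1 (.inr l) (.inr l') = 0 := by
    intro l l'
    have h1 := hschur l l'
    have hrhs : ∀ n, m ≤ n → (∑ i, ∑ j, Polynomial.C (M1 (.inl (.inl i)) (.inr l)) *
        A.adjugate i j * Polynomial.C (M1 (.inl (.inl j)) (.inr l'))).coeff n = 0 := by
      intro n hn
      rw [Polynomial.finsetSum_coeff]
      refine Finset.sum_eq_zero fun i _ => ?_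
      rw [Polynomial.finsetSum_coeff]
      refine Finset.sum_eq_zero fun j _ => ?_
      rw [Polynomial.coeff_mul_C, Polynomial.coeff_C_mul, hA, det_adj_coeff _ _ _ _ _ hn]
      ring
    have hlhs : ∀ n, (A.det * pen M0 M1 (.inr l) (.inr l')).coeff (n + 1) =
        A.det.coeff n * M0 (.inr l) (.inr l') + A.det.coeff (n + 1) * M1 (.inr l) (.inr l') := by
      intro n
      rw [pen_apply, mul_add, ← mul_assoc, Polynomial.coeff_add, Polynomial.coeff_mul_C,
        Polynomial.coeff_mul_C, Polynomial.coeff_mul_X]
    have h2 : M0 (.inr l) (.inr l') = 0 := by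
      have h3 := hlhs m
      rw [h1, hrhs (m + 1) (by omega), hAdeg (m + 1) (by omega), zero_mul, add_zero,
        hAlead] at h3
      exact (mul_eq_zero.mp h3.symm).resolve_left hA0
    refine ⟨h2, ?_⟩
    have h3 : (A.det * pen M0 M1 (.inr l) (.inr l')).coeff m =
        A.det.coeff m * M1 (.inr l) (.inr l') := by
      rw [pen_apply, h2]
      simp [Polynomial.coeff_mul_C]
    rw [h1, hrhs m le_rfl, hAlead] at h3
    exact (mul_eq_zero.mp h3.symm).resolve_left hA0
  -- vanishing of the block (2, E)
  have hδ : ∀ l i, M1 (.inl (.inl i)) (.inr l) = 0 := by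
    intro l
    by_contra hcon
    push Not at hcon
    obtain ⟨i1, hi1⟩ := hcon
    obtain ⟨τ, hτ, K, hK, i0, hi0⟩ := exists_scale
      (fun i : Fin m => M1 (.inl (.inl i)) (.inr l)) (by
        intro h0; exact hi1 (congrFun h0 i1))
    have h1 := hschur l l
    rw [pen_apply, (hT l l).1, (hT l l).2] at h1
    simp only [Polynomial.C_0, mul_zero, add_zero] at h1
    have h2 : Polynomial.C τ * (Polynomial.C τ * ∑ i, ∑ j, Polynomial.C (K i) *
        A.adjugate i j * Polynomial.C (K j)) = 0 := by
      rw [h1, Finset.mul_sum, Finset.mul_sum]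
      refine Finset.sum_congr rfl fun i _ => ?_
      rw [Finset.mul_sum, Finset.mul_sum]
      refine Finset.sum_congr rfl fun j _ => ?_
      have e1 : M1 (.inl (.inl i)) (.inr l) = τ * K i := hK i
      have e2 : M1 (.inl (.inl j)) (.inr l) = τ * K j := hK j
      rw [e1, e2, Polynomial.C_mul, Polynomial.C_mul]; ring
    have h3 := (mul_eq_zero.mp h2).resolve_left (Polynomial.C_ne_zero.mpr hτ)
    have h4 := (mul_eq_zero.mp h3).resolve_left (Polynomial.C_ne_zero.mpr hτ)
    have h5 := congrArg (Polynomial.mapRingHom (residue O)) h4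
    have hAred : (A.adjugate).map (Polynomial.mapRingHom (residue O)) =
        Matrix.diagonal fun i : Fin m => ∏ j ∈ Finset.univ.erase i,
          (Polynomial.X - Polynomial.C (lam j)) := by
      have e1 := RingHom.map_adjugate (Polynomial.mapRingHom (residue O)) A
      rw [RingHom.mapMatrix_apply, RingHom.mapMatrix_apply] at e1
      rw [e1]
      rw [hAred0, Matrix.adjugate_diagonal]
    simp only [map_sum, map_mul, map_zero, Polynomial.coe_mapRingHom, Polynomial.map_C] at h5
    have h6 : ∀ i j, Polynomial.map (residue O) (A.adjugate i j) =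
        if i = j then ∏ j ∈ Finset.univ.erase i,
          (Polynomial.X - Polynomial.C (lam j)) else 0 := by
      intro i j
      have e1 := congrFun (congrFun hAred i) j
      rw [Matrix.map_apply, Matrix.diagonal_apply] at e1
      exact e1
    simp only [h6, mul_ite, ite_mul, mul_zero, zero_mul] at h5
    have h7 : ∑ i, Polynomial.C (residue O (K i)) * (∏ j ∈ Finset.univ.erase i,
          (Polynomial.X - Polynomial.C (lam j))) * Polynomial.C (residue O (K i)) = 0 := by
      rw [← h5]
      refine Finset.sum_congr rfl fun i _ => ?_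
      rw [Finset.sum_ite_eq Finset.univ i]
      simp
    have h8 := congrArg (Polynomial.eval (lam i0)) h7
    rw [Polynomial.eval_finsetSum, Finset.sum_eq_single i0] at h8
    · simp only [Polynomial.eval_mul, Polynomial.eval_C, Polynomial.eval_prod,
        Polynomial.eval_sub, Polynomial.eval_X, Polynomial.eval_zero] at h8
      have h9 : ∏ j ∈ Finset.univ.erase i0, (lam i0 - lam j) ≠ 0 := by
        refine Finset.prod_ne_zero_iff.mpr fun j hj h => ?_
        exact (Finset.ne_of_mem_erase hj) (hlam (sub_eq_zero.mp h).symm)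
      rcases mul_eq_zero.mp h8 with h10 | h10
      · rcases mul_eq_zero.mp h10 with h11 | h11
        · exact hi0 h11
        · exact h9 h11
      · exact hi0 h10
    · intro i _ hi
      simp only [Polynomial.eval_mul, Polynomial.eval_C, Polynomial.eval_prod,
        Polynomial.eval_sub, Polynomial.eval_X]
      rw [Finset.prod_eq_zero (Finset.mem_erase.mpr ⟨Ne.symm hi, Finset.mem_univ _⟩)
        (sub_self _)]
      ring
    · intro h; exact absurd (Finset.mem_univ _) h
  refine ⟨⟨h0N, fun i l => hn2 i l, fun t l => (h3E l).1 t, fun l l' => (hT l l').1⟩,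
    ⟨h1N, fun i l => hδ l i, fun t l => (h3E l).2 t, fun l l' => (hT l l').2⟩⟩

end Pool.Agent.Helper13.Fa
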