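import Pool.Agent.Helper13.FaI

/-!
The core theorem over a valuation ring.
-/

namespace Pool.Agent.Helper13.Fa

open IsLocalRing Matrix

lemma conj_blocks {R : Type*} [CommRing R] {s m e : ℕ}
    (Kc : Matrix (Fin e) (HI s m) R) (M : Matrix (HI s m ⊕ Fin e) (HI s m ⊕ Fin e) R) :
    (Matrix.fromBlocks (1 : Matrix (HI s m) (HI s m) R) 0 Kc 1) * M *
      (Matrix.fromBlocks (1 : Matrix (HI s m) (HI s m) R) 0 Kc 1)ᵀ =
    Matrix.fromBlocks M.toBlocks₁₁ (M.toBlocks₁₁ * Kcᵀ + M.toBlocks₁₂)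
      (Kc * M.toBlocks₁₁ + M.toBlocks₂₁)
      ((Kc * M.toBlocks₁₁ + M.toBlocks₂₁) * Kcᵀ + (Kc * M.toBlocks₁₂ + M.toBlocks₂₂)) := by
  conv_lhs => rw [← Matrix.fromBlocks_toBlocks M]
  rw [Matrix.fromBlocks_transpose, Matrix.fromBlocks_multiply, Matrix.fromBlocks_multiply]
  simp

lemma conj_blocks₁ {R : Type*} [CommRing R] {s m e : ℕ}
    (G : Matrix (HI s m) (HI s m) R) (M : Matrix (HI s m ⊕ Fin e) (HI s m ⊕ Fin e) R) :
    ((Matrix.fromBlocks G 0 0 (1 : Matrix (Fin e) (Fin e) R)) * M *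
      (Matrix.fromBlocks G 0 0 (1 : Matrix (Fin e) (Fin e) R))ᵀ).toBlocks₁₁ =
    G * M.toBlocks₁₁ * Gᵀ := by
  conv_lhs => rw [← Matrix.fromBlocks_toBlocks M]
  rw [Matrix.fromBlocks_transpose, Matrix.fromBlocks_multiply, Matrix.fromBlocks_multiply,
    Matrix.toBlocks_fromBlocks₁₁]
  simp

lemma sel_mul {R ι κ : Type*} [CommRing R] [Fintype ι] [DecidableEq ι] (f g : κ → ι)
    (M : Matrix ι ι R) :
    ((1 : Matrix ι ι R).submatrix f id) * M * ((1 : Matrix ι ι R).submatrix g id)ᵀ =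
      M.submatrix f g := by
  ext i j
  rw [Matrix.mul_apply, Matrix.submatrix_apply]
  have h1 : ∀ x, (((1 : Matrix ι ι R).submatrix f id) * M) i x = M (f i) x := by
    intro x
    rw [Matrix.mul_apply]
    simp [Matrix.one_apply]
  simp only [h1]
  simp [Matrix.one_apply]

variable {O : Type*} [CommRing O] [IsDomain O] [ValuationRing O] {s m e : ℕ}

lemma lemmaD0 (M : Matrix (HI s m ⊕ Fin e) (HI s m ⊕ Fin e) O)
    (hs : M.IsSymm) (hN : InN M.toBlocks₁₁)
    (lam : Fin m → ResidueField O) (d : Fin s → ResidueField O)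
    (hM : M.toBlocks₁₁.map (residue O) = stdMat 1 0 0 lam d) :
    ∃ Kc : Matrix (Fin e) (HI s m) O,
      (∀ (q : Fin s) l, (M.toBlocks₁₁ * Kcᵀ + M.toBlocks₁₂) (.inr (.inr q.castSucc)) l = 0) ∧
      (∀ (i : Fin m) l, (M.toBlocks₁₁ * Kcᵀ + M.toBlocks₁₂) (.inl i) l = 0) := by
  classical
  set A := M.toBlocks₁₁ with hA
  set B := M.toBlocks₁₂ with hB
  have hAs : A.IsSymm := by
    ext i j; exact hs.apply _ _
  have hred : ∀ i j, residue O (A i j) = stdMat 1 0 0 lam d i j := by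
    intro i j
    have := congrFun (congrFun hM i) j
    rwa [Matrix.map_apply] at this
  set Z : Matrix (Fin s) (Fin s) O := A.submatrix (fun q => .inr (.inr q.castSucc))
    (fun q => .inr (.inl q)) with hZ
  have hZr : Z.map (residue O) = 1 := by
    ext q q'
    rw [Matrix.map_apply, hZ, Matrix.submatrix_apply, hred, stdMat_31, Matrix.one_apply]
    unfold bet
    by_cases h : q = q'
    · subst h; simp
    · rw [if_neg (by rw [Fin.castSucc_inj]; exact h), if_neg h]; simp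
  have hZu : IsUnit Z.det := by
    rw [← residue_ne_zero_iff_isUnit, ← det_map_ring, hZr, Matrix.det_one]
    exact one_ne_zero
  set C : Matrix (Fin m) (Fin m) O := A.submatrix (fun i => .inl i) (fun i => .inl i) with hC
  have hCr : C.map (residue O) = 1 := by
    ext q q'
    rw [Matrix.map_apply, hC, Matrix.submatrix_apply, hred, stdMat_22, Matrix.one_apply]
    simp
  have hCu : IsUnit C.det := by
    rw [← residue_ne_zero_iff_isUnit, ← det_map_ring, hCr, Matrix.det_one]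
    exact one_ne_zero
  set κ : Fin e → Fin s → O := fun l =>
    Z⁻¹.mulVec (fun q => - B (.inr (.inr q.castSucc)) l) with hκ
  have hκe : ∀ l (q : Fin s), ∑ q', A (.inr (.inr q.castSucc)) (.inr (.inl q')) * κ l q' =
      - B (.inr (.inr q.castSucc)) l := by
    intro l q
    have h1 : Z.mulVec (κ l) = fun q => - B (.inr (.inr q.castSucc)) l := by
      rw [hκ]
      simp only
      rw [Matrix.mulVec_mulVec, Matrix.mul_nonsing_inv _ hZu, Matrix.one_mulVec]
    exact congrFun h1 q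
  set χ : Fin e → Fin m → O := fun l =>
    C⁻¹.mulVec (fun i => - B (.inl i) l - ∑ q, A (.inl i) (.inr (.inl q)) * κ l q) with hχ
  have hχe : ∀ l i, ∑ i', A (.inl i) (.inl i') * χ l i' =
      - B (.inl i) l - ∑ q, A (.inl i) (.inr (.inl q)) * κ l q := by
    intro l i
    have h1 : C.mulVec (χ l) = fun i => - B (.inl i) l -
        ∑ q, A (.inl i) (.inr (.inl q)) * κ l q := by
      rw [hχ]
      simp only
      rw [Matrix.mulVec_mulVec, Matrix.mul_nonsing_inv _ hCu, Matrix.one_mulVec]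
    exact congrFun h1 i
  refine ⟨Matrix.of fun l j => match j with
    | .inl i => χ l i
    | .inr (.inl q) => κ l q
    | .inr (.inr _) => 0, ?_, ?_⟩
  · intro q l
    rw [Matrix.add_apply, Matrix.mul_apply, Fintype.sum_sum_type, Fintype.sum_sum_type]
    simp only [Matrix.transpose_apply, Matrix.of_apply, mul_zero, Finset.sum_const_zero,
      add_zero]
    have h1 : ∀ i, A (.inr (.inr q.castSucc)) (.inl i) = 0 := by
      intro i; rw [hAs.apply]; exact hN.1 i _
    simp only [h1, zero_mul, Finset.sum_const_zero, zero_add]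
    rw [hκe]; ring
  · intro i l
    rw [Matrix.add_apply, Matrix.mul_apply, Fintype.sum_sum_type, Fintype.sum_sum_type]
    simp only [Matrix.transpose_apply, Matrix.of_apply, mul_zero, Finset.sum_const_zero,
      add_zero]
    rw [hχe]; ring

lemma InN_add_smul {R : Type*} [CommRing R] [IsDomain R] {M N : Matrix (HI s m) (HI s m) R}
    {ε : R} (hε : ε ≠ 0) (h1 : InN M) (h2 : InN (M + ε • N)) : InN N := by
  refine ⟨fun i t => ?_, fun t t' => ?_⟩
  · have := h2.1 i t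
    rw [Matrix.add_apply, Matrix.smul_apply, h1.1, zero_add, smul_eq_mul] at this
    exact (mul_eq_zero.mp this).resolve_left hε
  · have := h2.2 t t'
    rw [Matrix.add_apply, Matrix.smul_apply, h1.2, zero_add, smul_eq_mul] at this
    exact (mul_eq_zero.mp this).resolve_left hε

lemma InNE_add_smul {R : Type*} [CommRing R] [IsDomain R]
    {M N : Matrix (HI s m ⊕ Fin e) (HI s m ⊕ Fin e) R}
    {ε : R} (hε : ε ≠ 0) (h1 : InNE M) (h2 : InNE (M + ε • N)) : InNE N := by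
  refine ⟨InN_add_smul hε h1.1 (by
    have := h2.1
    exact this), fun i t => ?_, fun t t' => ?_, fun t t' => ?_⟩
  · have := h2.2.1 i t
    rw [Matrix.add_apply, Matrix.smul_apply, h1.2.1, zero_add, smul_eq_mul] at this
    exact (mul_eq_zero.mp this).resolve_left hε
  · have := h2.2.2.1 t t'
    rw [Matrix.add_apply, Matrix.smul_apply, h1.2.2.1, zero_add, smul_eq_mul] at this
    exact (mul_eq_zero.mp this).resolve_left hε
  · have := h2.2.2.2 t t'
    rw [Matrix.add_apply, Matrix.smul_apply, h1.2.2.2, zero_add, smul_eq_mul] at this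
    exact (mul_eq_zero.mp this).resolve_left hε

omit [ValuationRing O] in
lemma net3_det_zero [Infinite O] {ι : Type*} [Fintype ι] [DecidableEq ι]
    (M0 M1 M2 : Matrix ι ι O)
    (h : ∀ x0 x1 x2 : O, (x0 • M0 + x1 • M1 + x2 • M2).det = 0) : (net3 M0 M1 M2).det = 0 := by
  apply MvPolynomial.funext
  intro x
  rw [map_zero, ← det_map_ring]
  rw [← h (x 0) (x 1) (x 2)]
  congr 1
  ext i j
  simp [net3]

omit [ValuationRing O] in
lemma pen_det_zero [Infinite O] {ι : Type*} [Fintype ι] [DecidableEq ι]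
    (M0 M1 : Matrix ι ι O)
    (h : ∀ x : O, (x • M0 + M1).det = 0) : (pen M0 M1).det = 0 := by
  apply Polynomial.funext
  intro x
  rw [Polynomial.eval_zero, ← Polynomial.coe_evalRingHom, ← det_map_ring]
  rw [← h x]
  congr 1
  ext i j
  simp [pen_apply]
  exact mul_comm _ _

theorem core [Infinite O]
    (hchar : (2 : ResidueField O) = 0 → (2 : O) = 0)
    (Ms : Submodule O (Matrix (HI s m ⊕ Fin e) (HI s m ⊕ Fin e) O))
    (hs : ∀ M ∈ Ms, M.IsSymm)
    (hr : ∀ M ∈ Ms, ∀ P Q : Matrix (HI s m) (HI s m ⊕ Fin e) O, (P * M * Qᵀ).det = 0)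
    (lam : Fin m → ResidueField O) (hlam : Function.Injective lam)
    (d : Fin s → ResidueField O) (hd : Function.Injective d) (hd0 : ∀ p, d p ≠ 0)
    (ε : O) (hε : ε ≠ 0) (hεr : residue O ε = 0)
    (M0 M1 : Matrix (HI s m ⊕ Fin e) (HI s m ⊕ Fin e) O)
    (hm0 : M0 ∈ Ms) (hm1 : M1 ∈ Ms)
    (hM0 : M0.toBlocks₁₁.map (residue O) = stdMat 1 0 0 lam d)
    (hM1 : M1.toBlocks₁₁.map (residue O) = stdMat 0 1 0 lam d)
    (hM2 : (∃ M2 ∈ Ms, M2.toBlocks₁₁.map (residue O) = stdMat 0 0 1 lam d) ∨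
      ∀ M ∈ Ms, ∃ a b : O, M = a • M0 + b • M1) :
    ∃ g : Matrix (HI s m ⊕ Fin e) (HI s m ⊕ Fin e) O, IsUnit g.det ∧
      ∀ M ∈ Ms, InNE (g * M * gᵀ) := by
  classical
  have hstd0 : (stdMat 1 0 0 lam d : Matrix (HI s m) (HI s m) (ResidueField O)) =
      stdMat 1 0 0 lam 0 := by
    ext i j
    rcases i with i | i | i <;> rcases j with j | j | j <;> simp [bet]
  have hstd1 : (stdMat 0 1 0 lam d : Matrix (HI s m) (HI s m) (ResidueField O)) =
      stdMat 0 1 0 lam 0 := by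
    ext i j
    rcases i with i | i | i <;> rcases j with j | j | j <;> simp [bet]
  have hblk : ∀ M ∈ Ms, M.toBlocks₁₁.det = 0 := by
    intro M hM
    have h1 := hr M hM ((1 : Matrix (HI s m ⊕ Fin e) (HI s m ⊕ Fin e) O).submatrix Sum.inl id)
      ((1 : Matrix (HI s m ⊕ Fin e) (HI s m ⊕ Fin e) O).submatrix Sum.inl id)
    rw [sel_mul] at h1
    exact h1
  have hblks : ∀ M ∈ Ms, M.toBlocks₁₁.IsSymm := by
    intro M hM
    ext i j
    exact (hs M hM).apply _ _
  obtain ⟨G, hG, hG0, hG1⟩ := lemmaB M0.toBlocks₁₁ M1.toBlocks₁₁ (hblks _ hm0) (hblks _ hm1)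
    (net3_det_zero _ _ _ (by
      intro x0 x1 x2
      rw [smul_zero, add_zero]
      exact hblk _ (Ms.add_mem (Ms.smul_mem _ hm0) (Ms.smul_mem _ hm1))))
    lam hlam (by rw [hM0, hstd0]) (by rw [hM1, hstd1])
  -- all members are compressed on the first block
  set cG : Matrix (HI s m ⊕ Fin e) (HI s m ⊕ Fin e) O → Matrix (HI s m) (HI s m) O :=
    fun M => G * M.toBlocks₁₁ * Gᵀ with hcG
  have hcGadd : ∀ M N, cG (M + N) = cG M + cG N := by
    intro M N
    simp only [hcG]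
    have : (M + N).toBlocks₁₁ = M.toBlocks₁₁ + N.toBlocks₁₁ := rfl
    rw [this, Matrix.mul_add, Matrix.add_mul]
  have hcGsmul : ∀ (a : O) M, cG (a • M) = a • cG M := by
    intro a M
    simp only [hcG]
    have : (a • M).toBlocks₁₁ = a • M.toBlocks₁₁ := rfl
    rw [this, Matrix.mul_smul, Matrix.smul_mul]
  have hcGred : ∀ M, (cG M).map (residue O) = M.toBlocks₁₁.map (residue O) := by
    intro M
    simp only [hcG]
    rw [Matrix.map_mul, Matrix.map_mul, hG, Matrix.transpose_map, hG]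
    simp
  have hcGdet : ∀ M ∈ Ms, (cG M).det = 0 := by
    intro M hM
    simp only [hcG]
    rw [Matrix.det_mul, Matrix.det_mul, hblk M hM]
    ring
  have hcGs : ∀ M ∈ Ms, (cG M).IsSymm := by
    intro M hM
    simp only [hcG]
    rw [Matrix.IsSymm, Matrix.transpose_mul, Matrix.transpose_mul, Matrix.transpose_transpose,
      (hblks M hM).eq, Matrix.mul_assoc]
  have hnet : ∀ M ∈ Ms, (net3 (cG M0) (cG M1) (cG M)).det = 0 := by
    intro M hM
    apply net3_det_zero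
    intro x0 x1 x2
    rw [← hcGsmul, ← hcGsmul, ← hcGsmul, ← hcGadd, ← hcGadd]
    exact hcGdet _ (Ms.add_mem (Ms.add_mem (Ms.smul_mem _ hm0) (Ms.smul_mem _ hm1))
      (Ms.smul_mem _ hM))
  have hInN : ∀ M ∈ Ms, InN (cG M) := by
    rcases hM2 with ⟨M2, hm2, hM2⟩ | hspan
    · have hC2 : InN (cG M2) := lemmaC (cG M0) (cG M1) (cG M2) (hcGs _ hm0) (hcGs _ hm1)
        (hcGs _ hm2) hG0 hG1 hchar (hnet _ hm2) lam hlam d hd hd0
        (by rw [hcGred, hM0]) (by rw [hcGred, hM1]) (by rw [hcGred, hM2])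
      intro M hM
      have hm3 : M2 + ε • M ∈ Ms := Ms.add_mem hm2 (Ms.smul_mem _ hM)
      have hC3 : InN (cG (M2 + ε • M)) := lemmaC (cG M0) (cG M1) (cG (M2 + ε • M))
        (hcGs _ hm0) (hcGs _ hm1)
        (hcGs _ hm3) hG0 hG1 hchar (hnet _ hm3) lam hlam d hd hd0
        (by rw [hcGred, hM0]) (by rw [hcGred, hM1]) (by
          rw [hcGred, ← hM2]
          ext i j
          rw [Matrix.map_apply, Matrix.map_apply]
          show residue O (M2 _ _ + ε * M _ _) = residue O (M2 _ _)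
          rw [map_add, map_mul, hεr, zero_mul, add_zero])
      rw [hcGadd, hcGsmul] at hC3
      exact InN_add_smul hε hC2 hC3
    · intro M hM
      obtain ⟨a, b, rfl⟩ := hspan M hM
      rw [hcGadd, hcGsmul, hcGsmul]
      refine ⟨fun i t => ?_, fun t t' => ?_⟩
      · have e0 : cG M0 (.inl i) (.inr (.inr t)) = 0 := hG0.1 i t
        have e1 : cG M1 (.inl i) (.inr (.inr t)) = 0 := hG1.1 i t
        rw [Matrix.add_apply, Matrix.smul_apply, Matrix.smul_apply, e0, e1]; simp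
      · have e0 : cG M0 (.inr (.inr t)) (.inr (.inr t')) = 0 := hG0.2 t t'
        have e1 : cG M1 (.inr (.inr t)) (.inr (.inr t')) = 0 := hG1.2 t t'
        rw [Matrix.add_apply, Matrix.smul_apply, Matrix.smul_apply, e0, e1]; simp
  -- the extra rows
  set g1 : Matrix (HI s m ⊕ Fin e) (HI s m ⊕ Fin e) O := Matrix.fromBlocks G 0 0 1 with hg1
  have hg1b : ∀ M, (g1 * M * g1ᵀ).toBlocks₁₁ = cG M := fun M => conj_blocks₁ G M
  have hsymc : ∀ (g : Matrix (HI s m ⊕ Fin e) (HI s m ⊕ Fin e) O), ∀ M ∈ Ms,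
      (g * M * gᵀ).IsSymm := by
    intro g M hM
    rw [Matrix.IsSymm, Matrix.transpose_mul, Matrix.transpose_mul, Matrix.transpose_transpose,
      (hs M hM).eq, Matrix.mul_assoc]
  obtain ⟨Kc, hK3, hK2⟩ := lemmaD0 (g1 * M0 * g1ᵀ) (hsymc g1 M0 hm0)
    (by rw [hg1b]; exact hInN M0 hm0) lam d (by rw [hg1b, hcGred, hM0])
  set g2 : Matrix (HI s m ⊕ Fin e) (HI s m ⊕ Fin e) O := Matrix.fromBlocks 1 0 Kc 1 with hg2
  have hcomp : ∀ M, (g2 * g1) * M * (g2 * g1)ᵀ = g2 * (g1 * M * g1ᵀ) * g2ᵀ := by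
    intro M
    rw [Matrix.transpose_mul]
    simp only [Matrix.mul_assoc]
  have hblk2 : ∀ M, ((g2 * g1) * M * (g2 * g1)ᵀ).toBlocks₁₁ = cG M := by
    intro M
    rw [hcomp, hg2, conj_blocks, Matrix.toBlocks_fromBlocks₁₁, hg1b]
  have hpen : ∀ M N, M ∈ Ms → N ∈ Ms → ∀ f g : HI s m → HI s m ⊕ Fin e,
      ((pen ((g2 * g1) * M * (g2 * g1)ᵀ) ((g2 * g1) * N * (g2 * g1)ᵀ)).submatrix f g).det =
        0 := by
    intro M N hM hN f g
    rw [pen_submatrix]
    apply pen_det_zero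
    intro x
    have h1 := hr (x • M + N) (Ms.add_mem (Ms.smul_mem _ hM) hN)
      (((1 : Matrix (HI s m ⊕ Fin e) (HI s m ⊕ Fin e) O).submatrix f id) * (g2 * g1))
      (((1 : Matrix (HI s m ⊕ Fin e) (HI s m ⊕ Fin e) O).submatrix g id) * (g2 * g1))
    rw [← h1]
    congr 1
    have h2 : ((1 : Matrix (HI s m ⊕ Fin e) (HI s m ⊕ Fin e) O).submatrix f id) * (g2 * g1) * (x • M + N) *
        (((1 : Matrix (HI s m ⊕ Fin e) (HI s m ⊕ Fin e) O).submatrix g id) * (g2 * g1))ᵀ =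
        ((1 : Matrix (HI s m ⊕ Fin e) (HI s m ⊕ Fin e) O).submatrix f id) * ((g2 * g1) * (x • M + N) * (g2 * g1)ᵀ) *
        ((1 : Matrix (HI s m ⊕ Fin e) (HI s m ⊕ Fin e) O).submatrix g id)ᵀ := by
      rw [Matrix.transpose_mul]
      simp only [Matrix.mul_assoc]
    rw [h2, sel_mul]
    have h3 : (g2 * g1) * (x • M + N) * (g2 * g1)ᵀ = x • ((g2 * g1) * M * (g2 * g1)ᵀ) +
        (g2 * g1) * N * (g2 * g1)ᵀ := by
      rw [Matrix.mul_add, Matrix.add_mul, Matrix.mul_smul, Matrix.smul_mul]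
    rw [h3]
    rfl
  have hD : ∀ N ∈ Ms, N.toBlocks₁₁.map (residue O) = stdMat 0 1 0 lam d →
      InNE ((g2 * g1) * N * (g2 * g1)ᵀ) := by
    intro N hN hNr
    refine (lemmaD ((g2 * g1) * M0 * (g2 * g1)ᵀ) ((g2 * g1) * N * (g2 * g1)ᵀ) lam d
      ⟨hsymc _ _ hm0, hsymc _ _ hN, ?_, ?_, hpen _ _ hm0 hN, hlam, ?_, ?_, ?_, ?_⟩).2
    · rw [hblk2]; exact hInN _ hm0
    · rw [hblk2]; exact hInN _ hN
    · rw [hblk2, hcGred, hM0]
    · rw [hblk2, hcGred, hNr]
    · intro q l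
      rw [hcomp, hg2, conj_blocks, Matrix.fromBlocks_apply₁₂]
      exact hK3 q l
    · intro i l
      rw [hcomp, hg2, conj_blocks, Matrix.fromBlocks_apply₁₂]
      exact hK2 i l
  refine ⟨g2 * g1, ?_, ?_⟩
  · have hGu : IsUnit G.det := by
      rw [← residue_ne_zero_iff_isUnit, ← det_map_ring, hG, Matrix.det_one]
      exact one_ne_zero
    rw [Matrix.det_mul, hg2, hg1, Matrix.det_fromBlocks_zero₁₂, Matrix.det_fromBlocks_zero₁₂]
    simpa using hGu
  · intro M hM
    have h1 := hD M1 hm1 hM1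
    have h2 := hD (M1 + ε • M) (Ms.add_mem hm1 (Ms.smul_mem _ hM)) (by
      rw [← hM1]
      ext i j
      rw [Matrix.map_apply, Matrix.map_apply]
      show residue O (M1 _ _ + ε * M _ _) = residue O (M1 _ _)
      rw [map_add, map_mul, hεr, zero_mul, add_zero])
    have h3 : (g2 * g1) * (M1 + ε • M) * (g2 * g1)ᵀ = (g2 * g1) * M1 * (g2 * g1)ᵀ +
        ε • ((g2 * g1) * M * (g2 * g1)ᵀ) := by
      rw [Matrix.mul_add, Matrix.add_mul, Matrix.mul_smul, Matrix.smul_mul]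
    rw [h3] at h2
    exact InNE_add_smul hε h1 h2

end Pool.Agent.Helper13.Fa
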