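import Pool.Agent.Helper13.FanoTop

/-!
The set of nested compression spaces is irreducible.
-/

namespace Pool.Agent.Helper13.Fano

open Topology

variable {K : Type*} [Field K] {n r k : ℕ}

lemma rank_add_le' (A B : Matrix (Fin n) (Fin n) K) : (A + B).rank ≤ A.rank + B.rank := by
  unfold Matrix.rank
  have h1 : LinearMap.range (A + B).mulVecLin ≤
      LinearMap.range A.mulVecLin ⊔ LinearMap.range B.mulVecLin := by
    rintro _ ⟨x, rfl⟩
    rw [Matrix.mulVecLin_apply, Matrix.add_mulVec]
    exact Submodule.add_mem_sup ⟨x, rfl⟩ ⟨x, rfl⟩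
  exact (Submodule.finrank_mono h1).trans (Submodule.finrank_add_le_finrank_add_finrank _ _)

lemma card_lt_le [DecidableEq K] (a : ℕ) : Fintype.card {i : Fin n // (if i.val < a then (1 : K) else 0) ≠ 0} ≤
    a := by
  classical
  rw [Fintype.card_subtype]
  have h1 : ((Finset.univ.filter fun i : Fin n =>
      (if i.val < a then (1 : K) else 0) ≠ 0).image Fin.val) ⊆ Finset.range a := by
    intro x hx
    rw [Finset.mem_image] at hx
    obtain ⟨i, hi, rfl⟩ := hx
    rw [Finset.mem_filter] at hi
    rw [Finset.mem_range]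
    by_contra h
    exact hi.2 (if_neg h)
  calc (Finset.univ.filter fun i : Fin n => (if i.val < a then (1 : K) else 0) ≠ 0).card
      = ((Finset.univ.filter fun i : Fin n =>
      (if i.val < a then (1 : K) else 0) ≠ 0).image Fin.val).card :=
        (Finset.card_image_of_injective _ Fin.val_injective).symm
    _ ≤ (Finset.range a).card := Finset.card_le_card h1
    _ = a := Finset.card_range a

lemma std_rank {s : ℕ} (hs : 2 * s + 1 ≤ r) (M : Matrix (Fin n) (Fin n) K)
    (hM : IsStdNested r s M) : M.rank < r := by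
  classical
  set P0 : Matrix (Fin n) (Fin n) K := Matrix.diagonal fun i => if i.val < s then 1 else 0
    with hP0
  set P1 : Matrix (Fin n) (Fin n) K := Matrix.diagonal fun i =>
    if i.val < r - s - 1 then 1 else 0 with hP1
  have h1 : M = M * P1 + P0 * (M * (1 - P1)) := by
    ext i j
    rw [Matrix.add_apply, hP0, Matrix.diagonal_mul, Matrix.mul_sub, Matrix.mul_one,
      Matrix.sub_apply, hP1, Matrix.mul_diagonal]
    by_cases hj : j.val < r - s - 1
    · rw [if_pos hj]; simp
    · rw [if_neg hj]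
      by_cases hi : i.val < s
      · rw [if_pos hi]; simp
      · have h2 := hM.2 i j (Or.inr ⟨by omega, by omega⟩)
        rw [h2]; simp
  have h2 : (M * P1).rank ≤ r - s - 1 := by
    refine (Matrix.rank_mul_le_right _ _).trans ?_
    rw [hP1, Matrix.rank_diagonal]
    exact card_lt_le _
  have h3 : (P0 * (M * (1 - P1))).rank ≤ s := by
    refine (Matrix.rank_mul_le_left _ _).trans ?_
    rw [hP0, Matrix.rank_diagonal]
    exact card_lt_le _
  have h4 : M.rank ≤ (M * P1).rank + (P0 * (M * (1 - P1))).rank := by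
    conv_lhs => rw [h1]
    exact rank_add_le' _ _
  omega

lemma std_add {s : ℕ} {M N : Matrix (Fin n) (Fin n) K} (hM : IsStdNested r s M)
    (hN : IsStdNested r s N) : IsStdNested r s (M + N) := by
  refine ⟨?_, fun i j h => ?_⟩
  · rw [Matrix.IsSymm, Matrix.transpose_add, hM.1.eq, hN.1.eq]
  · rw [Matrix.add_apply, hM.2 i j h, hN.2 i j h, add_zero]

lemma std_smul {s : ℕ} (c : K) {M : Matrix (Fin n) (Fin n) K} (hM : IsStdNested r s M) :
    IsStdNested r s (c • M) := by
  refine ⟨?_, fun i j h => ?_⟩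
  · rw [Matrix.IsSymm, Matrix.transpose_smul, hM.1.eq]
  · rw [Matrix.smul_apply, hM.2 i j h, smul_zero]

lemma std_zero {s : ℕ} : IsStdNested r s (0 : Matrix (Fin n) (Fin n) K) := by
  refine ⟨?_, fun i j _ => rfl⟩
  rw [Matrix.IsSymm, Matrix.transpose_zero]

/-- the standard nested compression space as a submodule -/
def stdSub (K : Type*) [Field K] (n r s : ℕ) : Submodule K (Matrix (Fin n) (Fin n) K) where
  carrier := {M | IsStdNested r s M}
  add_mem' := fun h1 h2 => std_add h1 h2
  zero_mem' := std_zero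
  smul_mem' := fun c _ h => std_smul c h

/-- conjugation as a linear map -/
def conjL (A : Matrix (Fin n) (Fin n) K) :
    Matrix (Fin n) (Fin n) K →ₗ[K] Matrix (Fin n) (Fin n) K where
  toFun M := A * M * A.transpose
  map_add' M N := by rw [Matrix.mul_add, Matrix.add_mul]
  map_smul' c M := by rw [Matrix.mul_smul, Matrix.smul_mul]; rfl

lemma conj_inv (A : Matrix (Fin n) (Fin n) K) (hA : IsUnit A.det)
    (M : Matrix (Fin n) (Fin n) K) :
    A⁻¹ * (A * M * A.transpose) * (A⁻¹).transpose = M := by
  have h1 : A⁻¹ * A = 1 := Matrix.nonsing_inv_mul A hA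
  have h2 : A.transpose * (A⁻¹).transpose = 1 := by
    rw [← Matrix.transpose_mul, h1, Matrix.transpose_one]
  calc A⁻¹ * (A * M * A.transpose) * (A⁻¹).transpose
      = (A⁻¹ * A) * M * (A.transpose * (A⁻¹).transpose) := by simp only [Matrix.mul_assoc]
    _ = M := by rw [h1, h2, Matrix.one_mul, Matrix.mul_one]

lemma conj_inv' (A : Matrix (Fin n) (Fin n) K) (hA : IsUnit A.det)
    (M : Matrix (Fin n) (Fin n) K) :
    A * (A⁻¹ * M * (A⁻¹).transpose) * A.transpose = M := by
  have h1 : A * A⁻¹ = 1 := Matrix.mul_nonsing_inv A hA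
  have h2 : (A⁻¹).transpose * A.transpose = 1 := by
    rw [← Matrix.transpose_mul, h1, Matrix.transpose_one]
  calc A * (A⁻¹ * M * (A⁻¹).transpose) * A.transpose
      = (A * A⁻¹) * M * ((A⁻¹).transpose * A.transpose) := by simp only [Matrix.mul_assoc]
    _ = M := by rw [h1, h2, Matrix.one_mul, Matrix.mul_one]

lemma conjL_inj (A : Matrix (Fin n) (Fin n) K) (hA : IsUnit A.det) :
    Function.Injective (conjL A) := by
  intro M N h
  have h1 : A * M * A.transpose = A * N * A.transpose := h
  rw [← conj_inv A hA M, h1, conj_inv A hA N]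

/-- building a frame in `C` from parameters -/
lemma exists_frame_param {s : ℕ} (hs : 2 * s + 1 ≤ r) (A : Matrix (Fin n) (Fin n) K)
    (hA : IsUnit A.det)
    (N : Fin (k + 1) → Matrix (Fin n) (Fin n) K) (hN : ∀ i, IsStdNested r s (N i))
    (hind : LinearIndependent K N) :
    ∃ f : Frame K n r k, (∀ i, f.mat i = A * N i * A.transpose) ∧
      f.pt ∈ nestedCompression K n r k s := by
  have hspan : ∀ M ∈ Submodule.span K (Set.range fun i => A * N i * A.transpose),
      ∃ N', IsStdNested r s N' ∧ M = A * N' * A.transpose := by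
    intro M hM
    have h1 : Submodule.span K (Set.range fun i => A * N i * A.transpose) ≤
        (stdSub K n r s).map (conjL A) := by
      rw [Submodule.span_le]
      rintro _ ⟨i, rfl⟩
      exact ⟨N i, hN i, rfl⟩
    obtain ⟨N', hN', rfl⟩ := h1 hM
    exact ⟨N', hN', rfl⟩
  have hind' : LinearIndependent K (fun i => A * N i * A.transpose) :=
    hind.map' (conjL A) (LinearMap.ker_eq_bot.mpr (conjL_inj A hA))
  refine ⟨⟨fun i => A * N i * A.transpose, hind', ?_⟩, fun i => rfl, ?_⟩
  · intro M hM
    obtain ⟨N', hN', rfl⟩ := hspan M hM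
    refine ⟨?_, ?_⟩
    · rw [Matrix.IsSymm, Matrix.transpose_mul, Matrix.transpose_mul,
        Matrix.transpose_transpose, hN'.1.eq, Matrix.mul_assoc]
    · refine lt_of_le_of_lt ?_ (std_rank hs N' hN')
      exact (Matrix.rank_mul_le_left _ _).trans (Matrix.rank_mul_le_right _ _)
  · refine ⟨A⁻¹, ?_, ?_⟩
    · rw [Matrix.det_nonsing_inv]
      exact hA.ringInverse
    · intro M hM
      obtain ⟨N', hN', rfl⟩ := hspan M hM
      rw [conj_inv A hA]
      exact hN'

/-- parameters of a point of `C` -/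
lemma exists_param {s : ℕ} (Q : FanoPt K n r k) (hQ : Q ∈ nestedCompression K n r k s) :
    ∃ (f : Frame K n r k) (A : Matrix (Fin n) (Fin n) K)
      (N : Fin (k + 1) → Matrix (Fin n) (Fin n) K), f.pt = Q ∧ IsUnit A.det ∧
      (∀ i, IsStdNested r s (N i)) ∧ LinearIndependent K N ∧
      ∀ i, f.mat i = A * N i * A.transpose := by
  obtain ⟨B, hB, hBQ⟩ := hQ
  have hfin : Module.finrank K Q.1 = k + 1 := Q.2.1
  set b := Module.finBasisOfFinrankEq K Q.1 hfin with hb
  have hind : LinearIndependent K (fun i => (b i : Matrix (Fin n) (Fin n) K)) :=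
    b.linearIndependent.map' Q.1.subtype (Submodule.ker_subtype _)
  have hspan : Submodule.span K (Set.range fun i => (b i : Matrix (Fin n) (Fin n) K)) = Q.1 := by
    have h1 : (Set.range fun i => (b i : Matrix (Fin n) (Fin n) K)) =
        Q.1.subtype '' Set.range b := by
      rw [← Set.range_comp]; rfl
    rw [h1, Submodule.span_image, b.span_eq, Submodule.map_top, Submodule.range_subtype]
  refine ⟨⟨fun i => (b i : Matrix (Fin n) (Fin n) K), hind, ?_⟩, B⁻¹,
    fun i => B * (b i : Matrix (Fin n) (Fin n) K) * B.transpose, ?_, ?_, ?_, ?_, ?_⟩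
  · intro M hM
    rw [hspan] at hM
    exact Q.2.2 M hM
  · exact Subtype.ext hspan
  · rw [Matrix.det_nonsing_inv]
    exact hB.ringInverse
  · intro i
    exact hBQ _ (b i).2
  · exact hind.map' (conjL B) (LinearMap.ker_eq_bot.mpr (conjL_inj B hB))
  · intro i
    exact (conj_inv B hB _).symm

open Polynomial in
theorem nested_preirreducible [Infinite K] {s : ℕ} (hs : 2 * s + 1 ≤ r) :
    IsPreirreducible (nestedCompression K n r k s) := by
  classical
  intro U V hU hV ⟨Qu, hQu, hQuU⟩ ⟨Qv, hQv, hQvV⟩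
  obtain ⟨f, A, N, hf, hA, hN, hNi, hfm⟩ := exists_param Qu hQu
  obtain ⟨g, B, M, hg, hB, hM, hMi, hgm⟩ := exists_param Qv hQv
  obtain ⟨SU, hSU⟩ := fano_open hU
  obtain ⟨SV, hSV⟩ := fano_open hV
  obtain ⟨F, hFS, hF⟩ := (hSU f).mp (by rw [hf]; exact hQuU)
  obtain ⟨G, hGS, hG⟩ := (hSV g).mp (by rw [hg]; exact hQvV)
  obtain ⟨p, hp0, hp⟩ := exists_indep_poly N M hNi
  -- the path
  set AX : Matrix (Fin n) (Fin n) K[X] := Matrix.of fun i j =>
    (1 - X) * C (A i j) + X * C (B i j) with hAX
  set NX : Fin (k + 1) → Matrix (Fin n) (Fin n) K[X] := fun l => Matrix.of fun i j =>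
    (1 - X) * C (N l i j) + X * C (M l i j) with hNX
  set q : Fin (k + 1) × Fin n × Fin n → K[X] := fun x =>
    (AX * NX x.1 * AX.transpose) x.2.1 x.2.2 with hq
  have hAXe : ∀ t : K, AX.map (eval t) = (1 - t) • A + t • B := by
    intro t
    ext i j
    simp [hAX]
    exact mul_comm _ _
  have hNXe : ∀ (t : K) l, (NX l).map (eval t) = (1 - t) • N l + t • M l := by
    intro t l
    ext i j
    simp [hNX]
    exact mul_comm _ _
  have hqe : ∀ (t : K) x, (q x).eval t =
      (((1 - t) • A + t • B) * ((1 - t) • N x.1 + t • M x.1) *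
        ((1 - t) • A + t • B).transpose) x.2.1 x.2.2 := by
    intro t x
    rw [← hAXe, ← hNXe, ← Matrix.transpose_map]
    have h1 : (AX.map (eval t)) * ((NX x.1).map (eval t)) * (AX.transpose.map (eval t)) =
        (AX * NX x.1 * AX.transpose).map (eval t) := by
      rw [← coe_evalRingHom, Matrix.map_mul, Matrix.map_mul]
    rw [h1]; rfl
  have hdet : ∀ t : K, (AX.det).eval t = ((1 - t) • A + t • B).det := by
    intro t
    rw [← hAXe, ← coe_evalRingHom, RingHom.map_det]; rfl
  have hne : AX.det * p * MvPolynomial.aeval q F * MvPolynomial.aeval q G ≠ 0 := by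
    refine mul_ne_zero (mul_ne_zero (mul_ne_zero ?_ ?_) ?_) ?_
    · intro h0
      have h1 := hdet 0
      rw [h0, eval_zero] at h1
      simp only [sub_zero, one_smul, zero_smul, add_zero] at h1
      exact hA.ne_zero h1.symm
    · intro h0; apply hp0; rw [h0, eval_zero]
    · intro h0
      apply hF
      have h1 := congrArg (eval 0) h0
      rw [eval_path, eval_zero] at h1
      rw [← h1]
      congr 1
      congr 1
      funext x
      rw [hqe]
      simp only [sub_zero, one_smul, zero_smul, add_zero, Frame.coord]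
      rw [hfm]
    · intro h0
      apply hG
      have h1 := congrArg (eval 1) h0
      rw [eval_path, eval_zero] at h1
      rw [← h1]
      congr 1
      congr 1
      funext x
      rw [hqe]
      simp only [sub_self, one_smul, zero_smul, zero_add, Frame.coord]
      rw [hgm]
  obtain ⟨t, ht⟩ := exists_eval_ne _ hne
  rw [eval_mul, eval_mul, eval_mul] at ht
  have ht4 := right_ne_zero_of_mul ht
  have ht3 := right_ne_zero_of_mul (left_ne_zero_of_mul ht)
  have ht2 := right_ne_zero_of_mul (left_ne_zero_of_mul (left_ne_zero_of_mul ht))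
  have ht1 := left_ne_zero_of_mul (left_ne_zero_of_mul (left_ne_zero_of_mul ht))
  obtain ⟨e, hem, heC⟩ := exists_frame_param (k := k) hs ((1 - t) • A + t • B)
    (isUnit_iff_ne_zero.mpr (by rw [← hdet]; exact ht1))
    (fun i => (1 - t) • N i + t • M i)
    (fun i => std_add (std_smul _ (hN i)) (std_smul _ (hM i))) (hp t ht2)
  have hec : e.coord = fun x => (q x).eval t := by
    funext x
    rw [hqe]
    show e.mat x.1 x.2.1 x.2.2 = _
    rw [hem]
  refine ⟨e.pt, heC, ?_, ?_⟩
  · rw [hSU]
    refine ⟨F, hFS, ?_⟩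
    rw [hec, ← eval_path]; exact ht3
  · rw [hSV]
    refine ⟨G, hGS, ?_⟩
    rw [hec, ← eval_path]; exact ht4

end Pool.Agent.Helper13.Fano
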