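import Mathlib

/-!
# Fano schemes of symmetric determinantal varieties: the space of points

* `zariski` : the Zariski topology on affine space `K ^ σ`.
* `IsFano K n r k Q` : `Q` is a linear space of dimension `k + 1` of symmetric `n × n` matrices
  all of whose elements have rank `< r`.
* `FanoPt K n r k` : the set of all such spaces, that is, the set of `K`-points of the Fano scheme
  of `k`-dimensional projective linear subspaces of the variety of symmetric `n × n` matrices of
  rank `< r`.
* `Frame K n r k` : bases of such spaces.  It carries the Zariski topology induced by the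
  coordinates, and `FanoPt K n r k` carries the quotient topology, which is the Zariski topology
  (induced by the Grassmannian).
* `IsStdNested r s M` : `M` lies in the standard nested `s`-compression space.
* `nestedCompression K n r k s` : the set of nested `s`-compression spaces.
* `kappa n r s` : the projective dimension of the standard nested `s`-compression space.
-/

namespace Pool.Agent.Helper13.Fano

/-- The zero loci in `K ^ σ` of sets of polynomials. -/
def zeroLoci (σ K : Type*) [Field K] : Set (Set (σ → K)) :=
  {Z | ∃ S : Set (MvPolynomial σ K), Z = {p | ∀ F ∈ S, MvPolynomial.eval p F = 0}}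

/-- The Zariski topology on the affine space `K ^ σ`: the closed sets are the zero loci of
sets of polynomials. -/
abbrev zariski (σ K : Type*) [Field K] : TopologicalSpace (σ → K) :=
  TopologicalSpace.ofClosed (zeroLoci σ K)
    ⟨{1}, by
      ext p
      simp⟩
    (by
      intro A hA
      refine ⟨{F | ∃ Z ∈ A, ∀ p ∈ Z, MvPolynomial.eval p F = 0}, ?_⟩
      ext p
      constructor
      · rintro hp F ⟨Z, hZ, hF⟩
        exact hF p (hp Z hZ)
      · intro hp Z hZ
        obtain ⟨S, hS⟩ := hA hZ
        rw [hS]
        intro F hF
        refine hp F ⟨Z, hZ, ?_⟩
        intro q hq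
        rw [hS] at hq
        exact hq F hF)
    (by
      rintro A ⟨S, rfl⟩ B ⟨T, rfl⟩
      refine ⟨{H | ∃ F ∈ S, ∃ G ∈ T, H = F * G}, ?_⟩
      ext p
      constructor
      · rintro (hp | hp) H ⟨F, hF, G, hG, rfl⟩
        · rw [map_mul, hp F hF, zero_mul]
        · rw [map_mul, hp G hG, mul_zero]
      · intro hp
        by_cases h : ∀ F ∈ S, MvPolynomial.eval p F = 0
        · exact Or.inl h
        · right
          push Not at h
          obtain ⟨F, hF, hF0⟩ := h
          intro G hG
          have h1 := hp (F * G) ⟨F, hF, G, hG, rfl⟩
          rw [map_mul] at h1
          exact (mul_eq_zero.mp h1).resolve_left hF0)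

variable (K : Type*) [Field K] (n r k : ℕ)

/-- `Q` is a `(k + 1)`-dimensional linear space of symmetric `n × n` matrices, all of whose
elements have rank `< r`. -/
def IsFano (Q : Submodule K (Matrix (Fin n) (Fin n) K)) : Prop :=
  Module.finrank K Q = k + 1 ∧ ∀ M ∈ Q, M.IsSymm ∧ M.rank < r

/-- The points of the Fano scheme of projective `k`-planes in the projective variety of symmetric
`n × n` matrices of rank `< r`. -/
def FanoPt : Type _ :=
  {Q : Submodule K (Matrix (Fin n) (Fin n) K) // IsFano K n r k Q}

/-- A basis of a point of the Fano scheme. -/
structure Frame where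
  /-- the `k + 1` basis matrices -/
  mat : Fin (k + 1) → Matrix (Fin n) (Fin n) K
  /-- they are linearly independent -/
  indep : LinearIndependent K mat
  /-- their span consists of symmetric matrices of rank `< r` -/
  fano : ∀ M ∈ Submodule.span K (Set.range mat), M.IsSymm ∧ M.rank < r

variable {K n r k}

/-- The point of the Fano scheme spanned by a frame. -/
def Frame.pt (f : Frame K n r k) : FanoPt K n r k :=
  ⟨Submodule.span K (Set.range f.mat), by
    rw [finrank_span_eq_card f.indep, Fintype.card_fin], f.fano⟩

/-- The coordinates of a frame: all the entries of all its matrices. -/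
def Frame.coord (f : Frame K n r k) : Fin (k + 1) × Fin n × Fin n → K :=
  fun x => f.mat x.1 x.2.1 x.2.2

variable (K n r k)

/-- The Zariski topology on the set of frames, as a subset of affine space. -/
abbrev frameTopology : TopologicalSpace (Frame K n r k) :=
  (zariski (Fin (k + 1) × Fin n × Fin n) K).induced Frame.coord

/-- The Zariski topology on the set of points of the Fano scheme: a set of subspaces is closed
iff the set of all its bases is the set of common zeros, among all frames, of a set of
polynomials in the entries of the frames. -/
instance fanoTopology : TopologicalSpace (FanoPt K n r k) :=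
  (frameTopology K n r k).coinduced Frame.pt

variable {K n}

/-- `M` lies in the standard nested `s`-compression space. The indices `i.val + 1` and
`j.val + 1` are the usual row and column indices `1, …, n`. -/
def IsStdNested (r s : ℕ) (M : Matrix (Fin n) (Fin n) K) : Prop :=
  M.IsSymm ∧ ∀ i j : Fin n,
    ((r - s ≤ i.val + 1 ∧ s + 1 ≤ j.val + 1) ∨ (s + 1 ≤ i.val + 1 ∧ r - s ≤ j.val + 1)) →
      M i j = 0

variable (K n)

/-- The set `C_k(s)` of nested `s`-compression spaces of projective dimension `k`: the
`GL_n`-translates of subspaces of the standard one. -/
def nestedCompression (s : ℕ) : Set (FanoPt K n r k) :=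
  {Q | ∃ B : Matrix (Fin n) (Fin n) K, IsUnit B.det ∧
    ∀ M ∈ Q.1, IsStdNested r s (B * M * B.transpose)}

/-- The projective dimension of the standard nested `s`-compression space. -/
def kappa (n r s : ℕ) : ℕ :=
  s * (s + 1) / 2 + s * (n - s) + (r - 2 * s - 1) * (r - 2 * s) / 2 - 1

end Pool.Agent.Helper13.Fano
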