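import Pool.Agent.Helper13.FanoC
import Pool.Agent.Helper13.FaJ

/-!
Dimension of the standard nested compression space, and the special point.
-/

namespace Pool.Agent.Helper13.Fano

open Pool.Agent.Helper13.Fa

variable {K : Type*} [Field K]

lemma sum_tri1 (n s : ℕ) (h : s ≤ n) :
    2 * (∑ i ∈ Finset.range s, (n - i)) + s * s = s * (2 * n + 1) := by
  induction s with
  | zero => simp
  | succ s ih =>
    have h1 := ih (by omega)
    rw [Finset.sum_range_succ]
    obtain ⟨t, rfl⟩ : ∃ t, n = s + t := ⟨n - s, by omega⟩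
    rw [Nat.add_sub_cancel_left]
    nlinarith

lemma sum_tri2 (m N : ℕ) (h : m ≤ N) :
    2 * (∑ i ∈ Finset.range N, (m - i)) = m * (m + 1) := by
  induction N with
  | zero =>
    have : m = 0 := by omega
    subst this; simp
  | succ N ih =>
    by_cases hm : m ≤ N
    · rw [Finset.sum_range_succ, ← ih hm]
      have : m - N = 0 := by omega
      rw [this, add_zero]
    · have hmN : m = N + 1 := by omega
      subst hmN
      have h1 := sum_tri1 (N + 1) (N + 1) le_rfl
      nlinarith

/-- index set of a basis -/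
abbrev PIdx (n r s : ℕ) :=
  {p : Fin n × Fin n // p.1 ≤ p.2 ∧ (p.1.val < s ∨ p.2.val < r - s - 1)}

lemma card_PIdx (n r s : ℕ) (hr : r ≤ n) (hs : 2 * s + 1 ≤ r) :
    s * (s + 1) / 2 + s * (n - s) + (r - 2 * s - 1) * (r - 2 * s) / 2 =
      Fintype.card (PIdx n r s) := by
  classical
  have h1 : Fintype.card (PIdx n r s) =
      ∑ i : Fin n, (Finset.univ.filter fun j : Fin n =>
        i ≤ j ∧ (i.val < s ∨ j.val < r - s - 1)).card := by
    rw [Fintype.card_subtype]
    have h2 : (Finset.univ.filter fun p : Fin n × Fin n =>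
        p.1 ≤ p.2 ∧ (p.1.val < s ∨ p.2.val < r - s - 1)) =
        Finset.univ.biUnion fun i : Fin n => (Finset.univ.filter fun j : Fin n =>
          i ≤ j ∧ (i.val < s ∨ j.val < r - s - 1)).map
            ⟨fun j => (i, j), fun a b h => (Prod.mk.inj h).2⟩ := by
      ext ⟨i, j⟩
      simp only [Finset.mem_filter, Finset.mem_univ, true_and, Finset.mem_biUnion,
        Finset.mem_map]
      constructor
      · intro h
        exact ⟨i, j, h, rfl⟩
      · rintro ⟨a, b, h, heq⟩
        cases heq
        exact h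
    rw [h2, Finset.card_biUnion]
    · simp only [Finset.card_map]
    · intro i _ j _ hij
      rw [Function.onFun, Finset.disjoint_left]
      intro p hp hp'
      rw [Finset.mem_map] at hp hp'
      obtain ⟨a, _, rfl⟩ := hp
      obtain ⟨b, _, hb⟩ := hp'
      exact hij (Prod.mk.inj hb).1.symm
  have h2 : ∀ i : Fin n, (Finset.univ.filter fun j : Fin n =>
        i ≤ j ∧ (i.val < s ∨ j.val < r - s - 1)).card =
        (if i.val < s then n else r - s - 1) - i.val := by
    intro i
    rw [← Finset.card_image_of_injective _ (Fin.val_injective (n := n))]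
    have h3 : (Finset.univ.filter fun j : Fin n =>
        i ≤ j ∧ (i.val < s ∨ j.val < r - s - 1)).image Fin.val =
        Finset.Ico i.val (if i.val < s then n else r - s - 1) := by
      ext x
      simp only [Finset.mem_image, Finset.mem_filter, Finset.mem_univ, true_and,
        Finset.mem_Ico]
      constructor
      · rintro ⟨j, ⟨hij, hj⟩, rfl⟩
        refine ⟨hij, ?_⟩
        split_ifs with h4
        · exact j.isLt
        · exact hj.resolve_left h4
      · rintro ⟨hx1, hx2⟩
        split_ifs at hx2 with h4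
        · exact ⟨⟨x, hx2⟩, ⟨hx1, Or.inl h4⟩, rfl⟩
        · exact ⟨⟨x, by omega⟩, ⟨hx1, Or.inr hx2⟩, rfl⟩
    rw [h3, Nat.card_Ico]
  rw [h1]
  simp only [h2]
  rw [Fin.sum_univ_eq_sum_range (fun i => (if i < s then n else r - s - 1) - i) n]
  obtain ⟨m, rfl⟩ : ∃ m, r = 2 * s + 1 + m := ⟨r - (2 * s + 1), by omega⟩
  obtain ⟨e, rfl⟩ : ∃ e, n = s + (s + 1 + m + e) := ⟨n - (2 * s + 1 + m), by omega⟩
  rw [Finset.sum_range_add]
  have h3 : ∑ i ∈ Finset.range s, ((if i < s then s + (s + 1 + m + e) else
      2 * s + 1 + m - s - 1) - i) = ∑ i ∈ Finset.range s, (s + (s + 1 + m + e) - i) := by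
    refine Finset.sum_congr rfl fun i hi => ?_
    rw [Finset.mem_range] at hi
    rw [if_pos hi]
  have h4 : ∑ i ∈ Finset.range (s + 1 + m + e), ((if s + i < s then s + (s + 1 + m + e) else
      2 * s + 1 + m - s - 1) - (s + i)) = ∑ i ∈ Finset.range (s + 1 + m + e), (m - i) := by
    refine Finset.sum_congr rfl fun i hi => ?_
    rw [if_neg (by omega)]
    omega
  rw [h3, h4]
  have h5 := sum_tri1 (s + (s + 1 + m + e)) s (by omega)
  have h6 := sum_tri2 m (s + 1 + m + e) (by omega)
  have e1 : s + (s + 1 + m + e) - s = s + 1 + m + e := by omega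
  have e2 : 2 * s + 1 + m - 2 * s - 1 = m := by omega
  have e3 : 2 * s + 1 + m - 2 * s = m + 1 := by omega
  rw [e1, e2, e3]
  obtain ⟨u, hu⟩ : ∃ u, s * (s + 1) = 2 * u := by
    obtain ⟨u, hu⟩ := (Nat.even_mul_succ_self s).two_dvd
    exact ⟨u, hu⟩
  rw [← h6, hu, Nat.mul_div_cancel_left _ (by norm_num), Nat.mul_div_cancel_left _ (by norm_num)]
  have h7 : 2 * (∑ i ∈ Finset.range s, (s + (s + 1 + m + e) - i)) =
      2 * (u + s * (s + 1 + m + e)) := by
    nlinarith
  omega

lemma finrank_stdSub (n r s : ℕ) (hr : r ≤ n) (hs : 2 * s + 1 ≤ r) :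
    s * (s + 1) / 2 + s * (n - s) + (r - 2 * s - 1) * (r - 2 * s) / 2 ≤
      Module.finrank K (stdSub K n r s) := by
  classical
  rw [card_PIdx n r s hr hs]
  set E : PIdx n r s → Matrix (Fin n) (Fin n) K := fun p i j =>
    if (i = p.1.1 ∧ j = p.1.2) ∨ (i = p.1.2 ∧ j = p.1.1) then 1 else 0 with hE
  have hEstd : ∀ p, E p ∈ stdSub K n r s := by
    intro p
    refine ⟨?_, ?_⟩
    · ext i j
      rw [Matrix.transpose_apply]
      simp only [hE]
      congr 1
      apply propext
      constructor
      · rintro (⟨h1, h2⟩ | ⟨h1, h2⟩)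
        · exact Or.inr ⟨h2, h1⟩
        · exact Or.inl ⟨h2, h1⟩
      · rintro (⟨h1, h2⟩ | ⟨h1, h2⟩)
        · exact Or.inr ⟨h2, h1⟩
        · exact Or.inl ⟨h2, h1⟩
    · intro i j hij
      simp only [hE]
      rw [if_neg]
      have h3 : p.1.1.val ≤ p.1.2.val := p.2.1
      have h4 := p.2.2
      rintro (⟨h1, h2⟩ | ⟨h1, h2⟩)
      · have h5 := congrArg Fin.val h1
        have h6 := congrArg Fin.val h2
        omega
      · have h5 := congrArg Fin.val h1
        have h6 := congrArg Fin.val h2
        omega
  have hind : LinearIndependent K (fun p => (⟨E p, hEstd p⟩ : stdSub K n r s)) := by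
    rw [Fintype.linearIndependent_iff]
    intro c hc p
    have h1 : ∑ p, c p • E p = 0 := by
      have h2 := congrArg (stdSub K n r s).subtype hc
      rw [map_sum, map_zero] at h2
      rw [← h2]
      rfl
    have h2 := congrFun (congrFun h1 p.1.1) p.1.2
    rw [Matrix.sum_apply, Finset.sum_eq_single p] at h2
    · rw [Matrix.smul_apply] at h2
      simpa [hE] using h2
    · intro p' _ hp'
      rw [Matrix.smul_apply]
      simp only [hE]
      rw [if_neg, smul_zero]
      rintro (⟨h3, h4⟩ | ⟨h3, h4⟩)
      · exact hp' (Subtype.ext (Prod.ext h3.symm h4.symm))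
      · have h5 : p.1.1.val ≤ p.1.2.val := p.2.1
        have h6 : p'.1.1.val ≤ p'.1.2.val := p'.2.1
        have h7 := congrArg Fin.val h3
        have h8 := congrArg Fin.val h4
        apply hp'
        apply Subtype.ext
        apply Prod.ext
        · apply Fin.ext; omega
        · apply Fin.ext; omega
    · intro h; exact absurd (Finset.mem_univ _) h
  exact hind.fintype_card_le_finrank

/-- interpolation of dimensions -/
lemma exists_between {V : Type*} [AddCommGroup V] [Module K V] [FiniteDimensional K V]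
    (A S : Submodule K V) (hAS : A ≤ S) (d : ℕ) (h1 : Module.finrank K A ≤ d)
    (h2 : d ≤ Module.finrank K S) :
    ∃ Q : Submodule K V, A ≤ Q ∧ Q ≤ S ∧ Module.finrank K Q = d := by
  induction hj : d - Module.finrank K A generalizing A with
  | zero => exact ⟨A, le_rfl, hAS, by omega⟩
  | succ j ih =>
    have hlt : A < S := by
      refine lt_of_le_of_ne hAS ?_
      rintro rfl
      omega
    obtain ⟨x, hxS, hxA⟩ := SetLike.exists_of_lt hlt
    have hx0 : x ≠ 0 := by
      rintro rfl; exact hxA A.zero_mem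
    have hdim : Module.finrank K ↥(A ⊔ Submodule.span K {x}) = Module.finrank K A + 1 := by
      have h3 := Submodule.finrank_sup_add_finrank_inf_eq A (Submodule.span K {x})
      rw [finrank_span_singleton hx0] at h3
      have h4 : A ⊓ Submodule.span K {x} = ⊥ := by
        rw [eq_bot_iff]
        rintro y ⟨hyA, hyx⟩
        obtain ⟨c, rfl⟩ := Submodule.mem_span_singleton.mp hyx
        by_cases hc : c = 0
        · rw [hc, zero_smul]; exact Submodule.zero_mem _
        · exfalso
          apply hxA
          have := A.smul_mem c⁻¹ hyA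
          rwa [smul_smul, inv_mul_cancel₀ hc, one_smul] at this
      rw [h4, finrank_bot] at h3
      omega
    obtain ⟨Q, hQ1, hQ2, hQ3⟩ := ih (A ⊔ Submodule.span K {x})
      (sup_le hAS (by rw [Submodule.span_singleton_le_iff_mem]; exact hxS))
      (by rw [hdim]; omega) (by rw [hdim]; omega)
    exact ⟨Q, le_sup_left.trans hQ1, hQ2, hQ3⟩

/-- the bijection between block indices and the usual indices -/
def rhoFun (s m e : ℕ) : HI s m ⊕ Fin e → Fin (2 * s + 1 + m + e)
  | .inl (.inl i) => ⟨s + i.val, by omega⟩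
  | .inl (.inr (.inl q)) => ⟨q.val, by omega⟩
  | .inl (.inr (.inr t)) => ⟨s + m + t.val, by omega⟩
  | .inr l => ⟨2 * s + 1 + m + l.val, by omega⟩

lemma rhoFun_inj (s m e : ℕ) : Function.Injective (rhoFun s m e) := by
  intro a b h
  have h1 := congrArg Fin.val h
  rcases a with (a | a | a) | a <;> rcases b with (b | b | b) | b <;>
    simp only [rhoFun] at h1
  all_goals first
    | (have : a = b := Fin.ext (by omega)
       rw [this])
    | (exfalso; omega)

/-- the bijection between block indices and the usual indices -/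
noncomputable def rho (s m e : ℕ) : HI s m ⊕ Fin e ≃ Fin (2 * s + 1 + m + e) :=
  Equiv.ofBijective (rhoFun s m e) ((Fintype.bijective_iff_injective_and_card _).mpr
    ⟨rhoFun_inj s m e, by
      simp only [Fintype.card_sum, Fintype.card_fin]
      omega⟩)

@[simp] lemma rho_apply (s m e : ℕ) (x : HI s m ⊕ Fin e) : rho s m e x = rhoFun s m e x := rfl

/-- matrices on the usual index set from matrices on blocks -/
noncomputable def bigMat {R : Type*} [CommRing R] {s m : ℕ} (e : ℕ)
    (M : Matrix (HI s m) (HI s m) R) :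
    Matrix (Fin (2 * s + 1 + m + e)) (Fin (2 * s + 1 + m + e)) R :=
  (Matrix.fromBlocks M 0 0 0 : Matrix (HI s m ⊕ Fin e) (HI s m ⊕ Fin e) R).submatrix
    (rho s m e).symm (rho s m e).symm

lemma bigMat_sub {R : Type*} [CommRing R] {s m : ℕ} (e : ℕ)
    (M : Matrix (HI s m) (HI s m) R) :
    (bigMat e M).submatrix (rho s m e) (rho s m e) = Matrix.fromBlocks M 0 0 0 := by
  unfold bigMat
  rw [Matrix.submatrix_submatrix]
  simp

lemma bigMat_std {s m : ℕ} (e : ℕ) (x0 x1 x2 : K) (lam : Fin m → K) (d : Fin s → K) :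
    IsStdNested (2 * s + 1 + m) s (bigMat e (stdMat x0 x1 x2 lam d)) := by
  refine ⟨?_, ?_⟩
  · unfold bigMat
    rw [Matrix.IsSymm, Matrix.transpose_submatrix, Matrix.fromBlocks_transpose]
    congr 1
    have h1 : (stdMat x0 x1 x2 lam d).transpose = stdMat x0 x1 x2 lam d := by
      ext i j
      rw [Matrix.transpose_apply]
      exact stdMat_symm _ _ _ _ _ _ _
    rw [h1]; simp
  · intro i j hij
    obtain ⟨a, rfl⟩ := (rho s m e).surjective i
    obtain ⟨b, rfl⟩ := (rho s m e).surjective j
    unfold bigMat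
    rw [Matrix.submatrix_apply, Equiv.symm_apply_apply, Equiv.symm_apply_apply]
    rw [rho_apply, rho_apply] at hij
    rcases a with (a | a | a) | a <;> rcases b with (b | b | b) | b
    all_goals first
      | rfl
      | (exfalso
         simp only [rhoFun] at hij
         omega)

theorem exists_special [Infinite K] (s m e k : ℕ) (lam : Fin m → K)
    (hlam : Function.Injective lam) (d : Fin s → K) (hk : 1 ≤ k)
    (hk' : k + 1 ≤ Module.finrank K (stdSub K (2 * s + 1 + m + e) (2 * s + 1 + m) s))
    (hk1 : s = 0 → 2 ≤ m) :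
    ∃ N : Fin (k + 1) → Matrix (Fin (2 * s + 1 + m + e)) (Fin (2 * s + 1 + m + e)) K,
      LinearIndependent K N ∧ (∀ i, IsStdNested (2 * s + 1 + m) s (N i)) ∧
      (∃ c : Fin (k + 1) → K, ∑ j, c j • N j = bigMat e (stdMat 1 0 0 lam d)) ∧
      (∃ c : Fin (k + 1) → K, ∑ j, c j • N j = bigMat e (stdMat 0 1 0 lam d)) ∧
      ((∃ c : Fin (k + 1) → K, ∑ j, c j • N j = bigMat e (stdMat 0 0 1 lam d)) ∨
        ∀ j, ∃ a b : K, N j = a • bigMat e (stdMat 1 0 0 lam d) +
          b • bigMat e (stdMat 0 1 0 lam d)) := by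
  classical
  set M0 := bigMat e (stdMat 1 0 0 lam d) with hM0
  set M1 := bigMat e (stdMat 0 1 0 lam d) with hM1
  set M2 := bigMat e (stdMat 0 0 1 lam d) with hM2
  rcases Nat.lt_or_ge 1 k with h2 | h2
  · -- k ≥ 2
    have hle : Submodule.span K {M0, M1, M2} ≤
        stdSub K (2 * s + 1 + m + e) (2 * s + 1 + m) s := by
      rw [Submodule.span_le]
      intro M hM
      simp only [Set.mem_insert_iff, Set.mem_singleton_iff] at hM
      rcases hM with rfl | rfl | rfl
      · exact bigMat_std e _ _ _ _ _
      · exact bigMat_std e _ _ _ _ _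
      · exact bigMat_std e _ _ _ _ _
    have hfin : Module.finrank K (Submodule.span K {M0, M1, M2}) ≤ k + 1 := by
      have h3 := finrank_span_finset_le_card (R := K) ({M0, M1, M2} : Finset (Matrix
        (Fin (2 * s + 1 + m + e)) (Fin (2 * s + 1 + m + e)) K))
      have h4 : (({M0, M1, M2} : Finset (Matrix
        (Fin (2 * s + 1 + m + e)) (Fin (2 * s + 1 + m + e)) K)) : Set _) = {M0, M1, M2} := by
        simp
      rw [h4] at h3
      refine h3.trans (le_trans Finset.card_le_three (by omega))
    obtain ⟨Q, hQ1, hQ2, hQ3⟩ := exists_between _ _ hle (k + 1) hfin hk'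
    set b := Module.finBasisOfFinrankEq K Q hQ3 with hb
    have hind : LinearIndependent K (fun i => (b i : Matrix (Fin (2 * s + 1 + m + e))
        (Fin (2 * s + 1 + m + e)) K)) :=
      b.linearIndependent.map' Q.subtype (Submodule.ker_subtype _)
    have hspan : Submodule.span K (Set.range fun i => (b i : Matrix (Fin (2 * s + 1 + m + e))
        (Fin (2 * s + 1 + m + e)) K)) = Q := by
      have h1 : (Set.range fun i => (b i : Matrix (Fin (2 * s + 1 + m + e))
        (Fin (2 * s + 1 + m + e)) K)) =
          Q.subtype '' Set.range b := by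
        rw [← Set.range_comp]; rfl
      rw [h1, Submodule.span_image, b.span_eq, Submodule.map_top, Submodule.range_subtype]
    have hmem : ∀ M ∈ ({M0, M1, M2} : Set _), ∃ c : Fin (k + 1) → K,
        ∑ j, c j • (b j : Matrix (Fin (2 * s + 1 + m + e))
        (Fin (2 * s + 1 + m + e)) K) = M := by
      intro M hM
      apply (Submodule.mem_span_range_iff_exists_fun K).mp
      rw [hspan]
      exact hQ1 (Submodule.subset_span hM)
    exact ⟨fun i => b i, hind, fun i => hQ2 (b i).2, hmem M0 (by simp), hmem M1 (by simp),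
      Or.inl (hmem M2 (by simp))⟩
  · -- k = 1
    have hk2 : k = 1 := by omega
    subst hk2
    have hind : LinearIndependent K ![M0, M1] := by
      rw [LinearIndependent.pair_iff]
      intro a b hab
      have hent : ∀ x y : HI s m, a * stdMat 1 0 0 lam d x y + b * stdMat 0 1 0 lam d x y =
          0 := by
        intro x y
        have h3 := congrFun (congrFun hab (rho s m e (.inl x))) (rho s m e (.inl y))
        rw [Matrix.add_apply, Matrix.smul_apply, Matrix.smul_apply, hM0, hM1] at h3
        unfold bigMat at h3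
        rw [Matrix.submatrix_apply, Matrix.submatrix_apply, Equiv.symm_apply_apply,
          Equiv.symm_apply_apply, Matrix.fromBlocks_apply₁₁, Matrix.fromBlocks_apply₁₁] at h3
        exact h3
      by_cases hs0 : s = 0
      · have hm2 := hk1 hs0
        have h3 := hent (.inl ⟨0, by omega⟩) (.inl ⟨0, by omega⟩)
        have h4 := hent (.inl ⟨1, by omega⟩) (.inl ⟨1, by omega⟩)
        rw [stdMat_22, stdMat_22, if_pos rfl, if_pos rfl] at h3 h4
        have h5 : b * (lam ⟨0, by omega⟩ - lam ⟨1, by omega⟩) = 0 := by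
          linear_combination h4 - h3
        have h6 : lam ⟨0, by omega⟩ - lam ⟨1, by omega⟩ ≠ 0 := by
          intro h
          have := hlam (sub_eq_zero.mp h)
          have := congrArg Fin.val this
          simp at this
        have h7 := (mul_eq_zero.mp h5).resolve_right h6
        refine ⟨?_, h7⟩
        rw [h7] at h3
        linear_combination h3
      · have h3 := hent (.inr (.inl ⟨0, by omega⟩)) (.inr (.inr (Fin.castSucc ⟨0, by omega⟩)))
        have h4 := hent (.inr (.inl ⟨0, by omega⟩)) (.inr (.inr (Fin.succ ⟨0, by omega⟩)))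
        rw [stdMat_13, stdMat_13] at h3 h4
        unfold bet at h3 h4
        have hne : (Fin.castSucc ⟨0, by omega⟩ : Fin (s + 1)) ≠ Fin.succ ⟨0, by omega⟩ := by
          intro h
          have := congrArg Fin.val h
          simp at this
        rw [if_pos rfl, if_neg hne, if_pos rfl, if_neg hne] at h3
        rw [if_neg (Ne.symm hne), if_pos rfl, if_neg (Ne.symm hne), if_pos rfl] at h4
        exact ⟨by linear_combination h3, by linear_combination (-1 : K) * h4⟩
    refine ⟨![M0, M1], hind, ?_, ⟨![1, 0], ?_⟩, ⟨![0, 1], ?_⟩, Or.inr ?_⟩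
    · intro i
      fin_cases i
      · exact bigMat_std e _ _ _ _ _
      · exact bigMat_std e _ _ _ _ _
    · rw [Fin.sum_univ_two]; simp
    · rw [Fin.sum_univ_two]; simp
    · intro j
      fin_cases j
      · exact ⟨1, 0, by simp⟩
      · exact ⟨0, 1, by simp⟩

end Pool.Agent.Helper13.Fano
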