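import Pool.Agent.Helper13.FanoVal

/-!
The generic frame of an irreducible set of points of the Fano scheme.
-/

namespace Pool.Agent.Helper13.Fano

open IsLocalRing Matrix Pool.Agent.Helper13.Fa

/-- coordinates -/
abbrev Coord (n k : ℕ) := Fin (k + 1) × Fin n × Fin n

variable {K : Type*} [Field K] {n r k : ℕ}

/-- the ideal of a set -/
def vIdeal (Z : Set (FanoPt K n r k)) : Ideal (MvPolynomial (Coord n k) K) where
  carrier := {F | ∀ f : Frame K n r k, f.pt ∈ Z → MvPolynomial.eval f.coord F = 0}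
  add_mem' := by
    intro F G hF hG f hf
    rw [map_add, hF f hf, hG f hf, add_zero]
  zero_mem' := by
    intro f _
    rw [map_zero]
  smul_mem' := by
    intro c F hF f hf
    rw [smul_eq_mul, map_mul, hF f hf, mul_zero]

lemma det_zero_of_rank {R : Type*} [Fintype R] [DecidableEq R] (hR : Fintype.card R = r)
    (M : Matrix (Fin n) (Fin n) K) (hM : M.rank < r) (P Q : Matrix R (Fin n) K) :
    (P * M * Qᵀ).det = 0 := by
  by_contra h
  have h1 : IsUnit (P * M * Qᵀ) :=
    (Matrix.isUnit_iff_isUnit_det _).mpr (isUnit_iff_ne_zero.mpr h)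
  have h2 := Matrix.rank_of_isUnit _ h1
  rw [hR] at h2
  have h3 : (P * M * Qᵀ).rank ≤ M.rank :=
    (Matrix.rank_mul_le_left _ _).trans (Matrix.rank_mul_le_right _ _)
  omega

/-- the coordinate ring -/
abbrev CR (Z : Set (FanoPt K n r k)) : Type _ := MvPolynomial (Coord n k) K ⧸ vIdeal Z

/-- evaluation at a frame -/
noncomputable def evZ (Z : Set (FanoPt K n r k)) (f : Frame K n r k) (hf : f.pt ∈ Z) :
    CR Z →+* K :=
  Ideal.Quotient.lift (vIdeal Z) (MvPolynomial.eval f.coord) (fun _ hF => hF f hf)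

/-- the generic frame -/
noncomputable def gen (Z : Set (FanoPt K n r k)) (j : Fin (k + 1)) :
    Matrix (Fin n) (Fin n) (CR Z) :=
  Matrix.of fun a b => Ideal.Quotient.mk (vIdeal Z) (MvPolynomial.X (j, a, b))

/-- constants -/
noncomputable def cst (Z : Set (FanoPt K n r k)) : K →+* CR Z :=
  (Ideal.Quotient.mk (vIdeal Z)).comp MvPolynomial.C

lemma evZ_gen (Z : Set (FanoPt K n r k)) (f : Frame K n r k) (hf : f.pt ∈ Z)
    (j : Fin (k + 1)) (a b : Fin n) : evZ Z f hf (gen Z j a b) = f.mat j a b := by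
  unfold evZ gen
  rw [Matrix.of_apply, Ideal.Quotient.lift_mk, MvPolynomial.eval_X]
  rfl

lemma evZ_cst (Z : Set (FanoPt K n r k)) (f : Frame K n r k) (hf : f.pt ∈ Z)
    (c : K) : evZ Z f hf (cst Z c) = c := by
  unfold evZ cst
  rw [RingHom.comp_apply, Ideal.Quotient.lift_mk, MvPolynomial.eval_C]

lemma evZ_ext (Z : Set (FanoPt K n r k)) (p : CR Z)
    (h : ∀ f hf, evZ Z f hf p = 0) : p = 0 := by
  obtain ⟨F, rfl⟩ := Ideal.Quotient.mk_surjective p
  rw [Ideal.Quotient.eq_zero_iff_mem]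
  intro f hf
  have h1 := h f hf
  unfold evZ at h1
  rwa [Ideal.Quotient.lift_mk] at h1

lemma gen_symm (Z : Set (FanoPt K n r k)) (j : Fin (k + 1)) (a b : Fin n) :
    gen Z j a b = gen Z j b a := by
  rw [← sub_eq_zero]
  apply evZ_ext
  intro f hf
  rw [map_sub, evZ_gen, evZ_gen, sub_eq_zero]
  exact ((f.fano (f.mat j) (Submodule.subset_span ⟨j, rfl⟩)).1.apply _ _)

lemma gen_det (Z : Set (FanoPt K n r k)) {R : Type*} [Fintype R] [DecidableEq R]
    (hR : Fintype.card R = r) (P Q : Matrix R (Fin n) (CR Z)) (c : Fin (k + 1) → CR Z) :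
    (P * (∑ j, c j • gen Z j) * Qᵀ).det = 0 := by
  apply evZ_ext
  intro f hf
  rw [← det_map_ring]
  have h1 : (P * (∑ j, c j • gen Z j) * Qᵀ).map (evZ Z f hf) =
      P.map (evZ Z f hf) * (∑ j, evZ Z f hf (c j) • f.mat j) * (Q.map (evZ Z f hf))ᵀ := by
    rw [Matrix.map_mul, Matrix.map_mul, Matrix.transpose_map]
    congr 2
    ext a b
    rw [Matrix.map_apply, Matrix.sum_apply, Matrix.sum_apply, map_sum]
    refine Finset.sum_congr rfl fun j _ => ?_
    rw [Matrix.smul_apply, Matrix.smul_apply, smul_eq_mul, smul_eq_mul, map_mul, evZ_gen]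
  rw [h1]
  refine det_zero_of_rank hR _ (f.fano _ ?_).2 _ _
  exact Submodule.sum_mem _ fun j _ => Submodule.smul_mem _ _ (Submodule.subset_span ⟨j, rfl⟩)

lemma gen_detL (Z : Set (FanoPt K n r k)) [(vIdeal Z).IsPrime]
    {R : Type*} [Fintype R] [DecidableEq R]
    (hR : Fintype.card R = r) (P Q : Matrix R (Fin n) (FractionRing (CR Z)))
    (c : Fin (k + 1) → FractionRing (CR Z)) :
    (P * (∑ j, c j • (gen Z j).map (algebraMap (CR Z) (FractionRing (CR Z)))) * Qᵀ).det =
      0 := by
  classical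
  set fam : (R × Fin n) ⊕ ((R × Fin n) ⊕ Fin (k + 1)) → FractionRing (CR Z) := fun x =>
    match x with
    | .inl p => P p.1 p.2
    | .inr (.inl p) => Q p.1 p.2
    | .inr (.inr j) => c j with hfam
  obtain ⟨b, hb⟩ := IsLocalization.exist_integer_multiples_of_finite
    (nonZeroDivisors (CR Z)) fam
  have hb' : ∀ x, ∃ y, algebraMap (CR Z) (FractionRing (CR Z)) y =
      algebraMap (CR Z) (FractionRing (CR Z)) b * fam x := by
    intro x
    obtain ⟨y, hy⟩ := hb x
    refine ⟨y, ?_⟩
    rw [hy]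
    exact Algebra.smul_def _ _
  choose y hy using hb'
  set φ := algebraMap (CR Z) (FractionRing (CR Z)) with hφ
  have hbne : φ b ≠ 0 := by
    rw [hφ, Ne, map_eq_zero_iff _ (IsFractionRing.injective _ _)]
    exact nonZeroDivisors.ne_zero b.2
  have h1 := gen_det Z hR (Matrix.of fun i j => y (.inl (i, j)))
    (Matrix.of fun i j => y (.inr (.inl (i, j)))) (fun j => y (.inr (.inr j)))
  have h2 := congrArg φ h1
  rw [← det_map_ring, map_zero] at h2
  have h3 : ((Matrix.of fun i j => y (.inl (i, j)) : Matrix R (Fin n) (CR Z)) *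
      (∑ j, y (.inr (.inr j)) • gen Z j) *
      (Matrix.of fun i j => y (.inr (.inl (i, j))) : Matrix R (Fin n) (CR Z))ᵀ).map φ =
      (φ b ^ 3) • (P * (∑ j, c j • (gen Z j).map φ) * Qᵀ) := by
    rw [Matrix.map_mul, Matrix.map_mul, Matrix.transpose_map]
    have e1 : (Matrix.of fun i j => y (.inl (i, j)) : Matrix R (Fin n) (CR Z)).map φ =
        φ b • P := by
      ext i j
      rw [Matrix.map_apply, Matrix.of_apply, hy, Matrix.smul_apply, smul_eq_mul]
    have e2 : (Matrix.of fun i j => y (.inr (.inl (i, j))) : Matrix R (Fin n) (CR Z)).map φ =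
        φ b • Q := by
      ext i j
      rw [Matrix.map_apply, Matrix.of_apply, hy, Matrix.smul_apply, smul_eq_mul]
    have e3 : (∑ j, y (.inr (.inr j)) • gen Z j).map φ =
        φ b • ∑ j, c j • (gen Z j).map φ := by
      ext i l
      rw [Matrix.map_apply, Matrix.sum_apply, map_sum, Matrix.smul_apply, Matrix.sum_apply,
        smul_eq_mul, Finset.mul_sum]
      refine Finset.sum_congr rfl fun j _ => ?_
      rw [Matrix.smul_apply, Matrix.smul_apply, smul_eq_mul, smul_eq_mul, map_mul, hy,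
        Matrix.map_apply]
      ring
    rw [e1, e2, e3, Matrix.transpose_smul, Matrix.smul_mul, Matrix.mul_smul, Matrix.smul_mul,
      Matrix.mul_smul, smul_smul, Matrix.smul_mul, smul_smul]
    congr 1
    ring
  rw [h3, Matrix.det_smul] at h2
  exact (mul_eq_zero.mp h2).resolve_left (pow_ne_zero _ (pow_ne_zero _ hbne))

/-- compatible valuation rings -/
lemma gen_detV (Z : Set (FanoPt K n r k)) [(vIdeal Z).IsPrime]
    (V : ValuationSubring (FractionRing (CR Z))) (ι : CR Z →+* V)
    (hι : ∀ a, ((ι a : V) : FractionRing (CR Z)) = algebraMap (CR Z) (FractionRing (CR Z)) a)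
    {R : Type*} [Fintype R] [DecidableEq R]
    (hR : Fintype.card R = r) (P Q : Matrix R (Fin n) V)
    (c : Fin (k + 1) → V) :
    (P * (∑ j, c j • (gen Z j).map ι) * Qᵀ).det = 0 := by
  have h1 := gen_detL Z hR (P.map V.subtype) (Q.map V.subtype) (fun j => (c j : _))
  have h2 : (P * (∑ j, c j • (gen Z j).map ι) * Qᵀ).map V.subtype =
      P.map V.subtype * (∑ j, (c j : FractionRing (CR Z)) •
        (gen Z j).map (algebraMap (CR Z) (FractionRing (CR Z)))) * (Q.map V.subtype)ᵀ := by
    rw [Matrix.map_mul, Matrix.map_mul, Matrix.transpose_map]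
    congr 2
    ext a b
    rw [Matrix.map_apply, Matrix.sum_apply, Matrix.sum_apply, map_sum]
    refine Finset.sum_congr rfl fun j _ => ?_
    rw [Matrix.smul_apply, Matrix.smul_apply, smul_eq_mul, smul_eq_mul, map_mul,
      Matrix.map_apply, Matrix.map_apply]
    congr 1
    exact hι _
  rw [← h2, det_map_ring] at h1
  exact (map_eq_zero_iff _ V.subtype_injective).mp h1

end Pool.Agent.Helper13.Fano
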