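import Pool.Agent.Helper13.FanoGen

/-!
Maximality of the set of nested compression spaces.
-/

namespace Pool.Agent.Helper13.Fano

open IsLocalRing Matrix Pool.Agent.Helper13.Fa

variable {K : Type*} [Field K] {n r k : ℕ}

/-- A global compression over the function field implies that all points are compression
spaces. -/
theorem special_of_generic [IsAlgClosed K] {s : ℕ} (hs : 2 * s + 1 ≤ r)
    (Z : Set (FanoPt K n r k)) [(vIdeal Z).IsPrime]
    (g : Matrix (Fin n) (Fin n) (FractionRing (CR Z))) (hg : g.det ≠ 0)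
    (hgen : ∀ j, ZC s (r - s - 1)
      (g * (gen Z j).map (algebraMap (CR Z) (FractionRing (CR Z))) * gᵀ))
    (f : Frame K n r k) (hf : f.pt ∈ Z) : f.pt ∈ nestedCompression K n r k s := by
  classical
  have hker : RingHom.ker (evZ Z f hf) ≠ ⊤ := RingHom.ker_ne_top _
  obtain ⟨V, ι, hι, hιr⟩ := exists_val (RingHom.ker (evZ Z f hf)) hker
  obtain ⟨h, hh, hh0⟩ := iwasawa V n g
  set T := g * h.map V.subtype with hT
  have hdetT : T.det ≠ 0 := by
    rw [hT, Matrix.det_mul]
    refine mul_ne_zero hg ?_
    rw [det_map_ring]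
    exact (hh.map V.subtype).ne_zero
  have : Invertible T := Matrix.invertibleOfIsUnitDet T (isUnit_iff_ne_zero.mpr hdetT)
  have hTb : Matrix.BlockTriangular T id := fun i j hij => hh0 i j hij
  have hTi : Matrix.BlockTriangular T⁻¹ id :=
    Matrix.blockTriangular_inv_of_blockTriangular hTb
  have hTi' : ∀ i j, j < i → T⁻¹ i j = 0 := fun i j hij => hTi hij
  set h' : Matrix (Fin n) (Fin n) V := h⁻¹ with hh'
  have hhh' : h * h' = 1 := Matrix.mul_nonsing_inv h hh
  have hh'L : h'.map V.subtype = T⁻¹ * g := by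
    have e1 : T⁻¹ * g * h.map V.subtype = 1 := by
      rw [Matrix.mul_assoc, ← hT]
      exact Matrix.nonsing_inv_mul T (isUnit_iff_ne_zero.mpr hdetT)
    have e2 : h.map V.subtype * h'.map V.subtype = 1 := by
      rw [← Matrix.map_mul, hhh']
      simp
    calc h'.map V.subtype = (T⁻¹ * g * h.map V.subtype) * h'.map V.subtype := by
          rw [e1, Matrix.one_mul]
      _ = T⁻¹ * g * (h.map V.subtype * h'.map V.subtype) := by
          simp only [Matrix.mul_assoc]
      _ = T⁻¹ * g := by rw [e2, Matrix.mul_one]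
  have hZV : ∀ j, ZC s (r - s - 1) (h' * (gen Z j).map ι * h'ᵀ) := by
    intro j a b ha hb
    have e1 : (h' * (gen Z j).map ι * h'ᵀ).map V.subtype =
        T⁻¹ * (g * (gen Z j).map (algebraMap (CR Z) (FractionRing (CR Z))) * gᵀ) *
          (T⁻¹)ᵀ := by
      rw [Matrix.map_mul, Matrix.map_mul, Matrix.transpose_map, hh'L, Matrix.transpose_mul]
      have e2 : ((gen Z j).map ι).map V.subtype =
          (gen Z j).map (algebraMap (CR Z) (FractionRing (CR Z))) := by
        ext x y
        rw [Matrix.map_apply, Matrix.map_apply, Matrix.map_apply]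
        exact hι _
      rw [e2]
      simp only [Matrix.mul_assoc]
    have e3 := ZC_conj T⁻¹ _ hTi' (hgen j) a b ha hb
    rw [← e1, Matrix.map_apply] at e3
    exact (map_eq_zero_iff _ V.subtype_injective).mp e3
  -- the residue field as an algebra
  set rk : K →+* ResidueField V := (residue V).comp (ι.comp (cst Z)) with hrk
  let _ : Algebra K (ResidueField V) := rk.toAlgebra
  have hgr : ∀ j a b, residue V (ι (gen Z j a b)) = algebraMap K (ResidueField V) (f.mat j a b) := by
    intro j a b
    have e1 : gen Z j a b - cst Z (f.mat j a b) ∈ RingHom.ker (evZ Z f hf) := by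
      rw [RingHom.mem_ker, map_sub, evZ_gen, evZ_cst, sub_self]
    have e2 := hιr _ e1
    rw [map_sub, map_sub, sub_eq_zero] at e2
    exact e2
  obtain ⟨h0, hh0d, hh0z⟩ := descent (K := K) (F := ResidueField V) (s := s) (u := r - s - 1)
    f.mat (h'.map (residue V)) (by
      have e1 : h'.det * h.det = 1 := by
        rw [← Matrix.det_mul, Matrix.nonsing_inv_mul h hh, Matrix.det_one]
      rw [det_map_ring]
      intro h0
      have e2 := congrArg (residue V) e1
      rw [map_mul, h0, zero_mul, map_one] at e2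
      exact zero_ne_one e2) (by
      intro j a b ha hb
      have e1 : (h' * (gen Z j).map ι * h'ᵀ).map (residue V) =
          h'.map (residue V) * (f.mat j).map (algebraMap K (ResidueField V)) *
            (h'.map (residue V))ᵀ := by
        rw [Matrix.map_mul, Matrix.map_mul, Matrix.transpose_map]
        congr 2
        ext x y
        rw [Matrix.map_apply, Matrix.map_apply, Matrix.map_apply]
        exact hgr j x y
      rw [← e1, Matrix.map_apply, hZV j a b ha hb, map_zero])
  refine ⟨h0, isUnit_iff_ne_zero.mpr hh0d, ?_⟩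
  intro M hM
  have hMs : M ∈ Submodule.span K (Set.range f.mat) := hM
  have hsym : (h0 * M * h0ᵀ).IsSymm := by
    rw [Matrix.IsSymm, Matrix.transpose_mul, Matrix.transpose_mul,
      Matrix.transpose_transpose, (f.fano M hMs).1.eq, Matrix.mul_assoc]
  have hle : Submodule.span K (Set.range f.mat) ≤ (stdSub K n r s).comap (conjL h0) := by
    rw [Submodule.span_le]
    rintro _ ⟨j, rfl⟩
    show IsStdNested r s (h0 * f.mat j * h0ᵀ)
    rw [isStdNested_iff hs]
    · exact hh0z j
    · rw [Matrix.IsSymm, Matrix.transpose_mul, Matrix.transpose_mul,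
        Matrix.transpose_transpose,
        (f.fano (f.mat j) (Submodule.subset_span ⟨j, rfl⟩)).1.eq, Matrix.mul_assoc]
  exact hle hMs

/-- existence of a frame -/
lemma exists_frame (Q : FanoPt K n r k) : ∃ f : Frame K n r k, f.pt = Q := by
  have hfin : Module.finrank K Q.1 = k + 1 := Q.2.1
  set b := Module.finBasisOfFinrankEq K Q.1 hfin with hb
  have hind : LinearIndependent K (fun i => (b i : Matrix (Fin n) (Fin n) K)) :=
    b.linearIndependent.map' Q.1.subtype (Submodule.ker_subtype _)
  have hspan : Submodule.span K (Set.range fun i => (b i : Matrix (Fin n) (Fin n) K)) = Q.1 := by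
    have h1 : (Set.range fun i => (b i : Matrix (Fin n) (Fin n) K)) =
        Q.1.subtype '' Set.range b := by
      rw [← Set.range_comp]; rfl
    rw [h1, Submodule.span_image, b.span_eq, Submodule.map_top, Submodule.range_subtype]
  refine ⟨⟨fun i => (b i : Matrix (Fin n) (Fin n) K), hind, ?_⟩, Subtype.ext hspan⟩
  intro M hM
  rw [hspan] at hM
  exact Q.2.2 M hM

lemma exists_lam_d (K : Type*) [Field K] [Infinite K] (m s : ℕ) :
    (∃ lam : Fin m → K, Function.Injective lam) ∧
    ∃ d : Fin s → K, Function.Injective d ∧ ∀ q, d q ≠ 0 := by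
  refine ⟨⟨fun i => Infinite.natEmbedding K i.val, fun i j h => ?_⟩, ?_⟩
  · exact Fin.ext ((Infinite.natEmbedding K).injective h)
  · have hinf : Set.Infinite ({0}ᶜ : Set K) := (Set.finite_singleton 0).infinite_compl
    have : Infinite ({0}ᶜ : Set K) := hinf.to_subtype
    refine ⟨fun i => (Infinite.natEmbedding ({0}ᶜ : Set K) i.val : K), fun i j h => ?_, ?_⟩
    · exact Fin.ext ((Infinite.natEmbedding ({0}ᶜ : Set K)).injective (Subtype.ext h))
    · intro q
      exact (Infinite.natEmbedding ({0}ᶜ : Set K) q.val).2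

/-- The core application. -/
theorem generic_compression [IsAlgClosed K] {s m e : ℕ}
    (Z : Set (FanoPt K (2 * s + 1 + m + e) (2 * s + 1 + m) k)) [(vIdeal Z).IsPrime]
    (lam : Fin m → K) (hlam : Function.Injective lam) (d : Fin s → K)
    (hd : Function.Injective d) (hd0 : ∀ q, d q ≠ 0)
    (f : Frame K (2 * s + 1 + m + e) (2 * s + 1 + m) k) (hf : f.pt ∈ Z)
    (hc0 : ∃ c : Fin (k + 1) → K, ∑ j, c j • f.mat j = bigMat e (stdMat 1 0 0 lam d))
    (hc1 : ∃ c : Fin (k + 1) → K, ∑ j, c j • f.mat j = bigMat e (stdMat 0 1 0 lam d))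
    (hc2 : (∃ c : Fin (k + 1) → K, ∑ j, c j • f.mat j = bigMat e (stdMat 0 0 1 lam d)) ∨
        ∀ j, ∃ a b : K, f.mat j = a • bigMat e (stdMat 1 0 0 lam d) +
          b • bigMat e (stdMat 0 1 0 lam d)) :
    ∃ g : Matrix (Fin (2 * s + 1 + m + e)) (Fin (2 * s + 1 + m + e)) (FractionRing (CR Z)),
      g.det ≠ 0 ∧ ∀ j, ZC s (2 * s + 1 + m - s - 1)
        (g * (gen Z j).map (algebraMap (CR Z) (FractionRing (CR Z))) * gᵀ) := by
  classical
  have hker : RingHom.ker (evZ Z f hf) ≠ ⊤ := RingHom.ker_ne_top _
  obtain ⟨V, ι, hι, hιr⟩ := exists_val (RingHom.ker (evZ Z f hf)) hker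
  have hιinj : Function.Injective ι := by
    intro a b hab
    have h1 := hι a
    rw [hab, hι b] at h1
    exact (IsFractionRing.injective (CR Z) (FractionRing (CR Z)) h1).symm
  set kV : K →+* V := ι.comp (cst Z) with hkV
  have hkVinj : Function.Injective kV := kV.injective
  set rk : K →+* ResidueField V := (residue V).comp kV with hrk
  have hrkinj : Function.Injective rk := rk.injective
  have : Infinite V := Infinite.of_injective kV hkVinj
  set ρ := rho s m e with hρ
  have hgr : ∀ j a b, residue V (ι (gen Z j a b)) = rk (f.mat j a b) := by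
    intro j a b
    have e1 : gen Z j a b - cst Z (f.mat j a b) ∈ RingHom.ker (evZ Z f hf) := by
      rw [RingHom.mem_ker, map_sub, evZ_gen, evZ_cst, sub_self]
    have e2 := hιr _ e1
    rw [map_sub, map_sub, sub_eq_zero] at e2
    exact e2
  set gV : Fin (k + 1) → Matrix (HI s m ⊕ Fin e) (HI s m ⊕ Fin e) V := fun j =>
    ((gen Z j).map ι).submatrix ρ ρ with hgV
  set Ms : Submodule V (Matrix (HI s m ⊕ Fin e) (HI s m ⊕ Fin e) V) :=
    Submodule.span V (Set.range gV) with hMs
  have hMsc : ∀ M ∈ Ms, ∃ c : Fin (k + 1) → V, ∑ j, c j • gV j = M := fun M hM =>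
    (Submodule.mem_span_range_iff_exists_fun V).mp hM
  have hcM : ∀ c : Fin (k + 1) → V, ∑ j, c j • gV j ∈ Ms := fun c =>
    Submodule.sum_mem _ fun j _ => Submodule.smul_mem _ _ (Submodule.subset_span ⟨j, rfl⟩)
  have hred : ∀ (c : Fin (k + 1) → K) (A : Matrix (HI s m) (HI s m) K),
      ∑ j, c j • f.mat j = bigMat e A →
      (∑ j, kV (c j) • gV j).toBlocks₁₁.map (residue V) = A.map rk := by
    intro c A hcA
    ext x y
    have h1 := congrFun (congrFun hcA (ρ (.inl x))) (ρ (.inl y))
    unfold bigMat at h1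
    rw [Matrix.submatrix_apply, ← hρ, Equiv.symm_apply_apply,
      Equiv.symm_apply_apply, Matrix.fromBlocks_apply₁₁] at h1
    rw [Matrix.map_apply, Matrix.map_apply, ← h1]
    show residue V ((∑ j, kV (c j) • gV j) (.inl x) (.inl y)) = _
    rw [Matrix.sum_apply, Matrix.sum_apply, map_sum, map_sum]
    refine Finset.sum_congr rfl fun j _ => ?_
    rw [Matrix.smul_apply, Matrix.smul_apply, smul_eq_mul, smul_eq_mul, map_mul, map_mul]
    congr 1
    rw [hgV]
    simp only [Matrix.submatrix_apply, Matrix.map_apply]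
    exact hgr _ _ _
  have hstd : ∀ x0 x1 x2 : K, (stdMat x0 x1 x2 lam d).map rk =
      stdMat (rk x0) (rk x1) (rk x2) (fun i => rk (lam i)) (fun q => rk (d q)) := fun x0 x1 x2 =>
    stdMat_map rk x0 x1 x2 lam d
  obtain ⟨c0, hc0⟩ := hc0
  obtain ⟨c1, hc1⟩ := hc1
  -- a nonzero element of the maximal ideal
  obtain ⟨ε, hε, hεr⟩ : ∃ ε : V, ε ≠ 0 ∧ residue V ε = 0 := by
    have hm0 : f.mat 0 ≠ 0 := f.indep.ne_zero 0
    obtain ⟨a, b, hab⟩ : ∃ a b, f.mat 0 a b ≠ 0 := by
      by_contra hcon
      push Not at hcon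
      apply hm0
      ext a b
      exact hcon a b
    refine ⟨ι (gen Z 0 a b - cst Z (f.mat 0 a b)), ?_, ?_⟩
    · intro h0
      have h1 : gen Z 0 a b - cst Z (f.mat 0 a b) = 0 := by
        apply hιinj
        rw [h0, map_zero]
      -- choose a scalar different from 0 and 1
      obtain ⟨t, ht⟩ := Infinite.exists_notMem_finset ({0, 1} : Finset K)
      have ht0 : t ≠ 0 := by
        rintro rfl; simp at ht
      have ht1 : t ≠ 1 := by
        rintro rfl; simp at ht
      obtain ⟨f', hf', hf'm⟩ := exists_frame_gl f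
        (t • (1 : Matrix (Fin (k + 1)) (Fin (k + 1)) K)) (by
          rw [Matrix.det_smul, Matrix.det_one, mul_one]
          exact pow_ne_zero _ ht0)
      have h2 := congrArg (evZ Z f' (by rw [hf']; exact hf)) h1
      rw [map_sub, evZ_gen, evZ_cst, map_zero, hf'm] at h2
      have h3 : (∑ j, (t • (1 : Matrix (Fin (k + 1)) (Fin (k + 1)) K)) 0 j • f.mat j) =
          t • f.mat 0 := by
        rw [Finset.sum_eq_single 0]
        · simp
        · intro j _ hj
          rw [Matrix.smul_apply, Matrix.one_apply_ne (Ne.symm hj), smul_zero, zero_smul]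
        · intro h; exact absurd (Finset.mem_univ _) h
      rw [h3, Matrix.smul_apply, smul_eq_mul] at h2
      have h4 : (t - 1) * f.mat 0 a b = 0 := by linear_combination h2
      rcases mul_eq_zero.mp h4 with h5 | h5
      · exact ht1 (sub_eq_zero.mp h5)
      · exact hab h5
    · apply hιr
      rw [RingHom.mem_ker, map_sub, evZ_gen, evZ_cst, sub_self]
  have hgVs : ∀ j, (gV j).IsSymm := by
    intro j
    ext x y
    rw [Matrix.transpose_apply, hgV]
    simp only [Matrix.submatrix_apply, Matrix.map_apply]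
    rw [gen_symm]
  obtain ⟨g, hg, hgM⟩ := core (O := V) (s := s) (m := m) (e := e)
    (by
      intro h2
      have h3 : (2 : K) = 0 := by
        apply hrkinj
        rw [map_zero, map_ofNat, h2]
      have h4 := congrArg kV h3
      rwa [map_ofNat, map_zero] at h4)
    Ms
    (by
      intro M hM
      obtain ⟨c, rfl⟩ := hMsc M hM
      rw [Matrix.IsSymm, Matrix.transpose_sum]
      refine Finset.sum_congr rfl fun j _ => ?_
      rw [Matrix.transpose_smul, (hgVs j).eq])
    (by
      intro M hM P Q
      obtain ⟨c, rfl⟩ := hMsc M hM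
      have h1 := gen_detV Z V ι hι (R := HI s m) (by
        simp only [Fintype.card_sum, Fintype.card_fin]
        omega) (P.submatrix id ρ.symm) (Q.submatrix id ρ.symm) c
      rw [← h1]
      congr 1
      set S : Matrix (Fin (2 * s + 1 + m + e)) (Fin (2 * s + 1 + m + e)) V :=
        ∑ j, c j • (gen Z j).map ι with hS
      have h2 : (∑ j, c j • gV j) = S.submatrix ρ ρ := by
        ext x y
        rw [hS, Matrix.submatrix_apply, Matrix.sum_apply, Matrix.sum_apply]
        rfl
      rw [h2]
      refine Matrix.ext fun x y => ?_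
      rw [Matrix.mul_apply, Matrix.mul_apply]
      apply Fintype.sum_equiv ρ
      intro j
      have h4 : (P * S.submatrix ρ ρ) x j = (P.submatrix id ρ.symm * S) x (ρ j) := by
        rw [Matrix.mul_apply, Matrix.mul_apply]
        apply Fintype.sum_equiv ρ
        intro l
        rw [Matrix.submatrix_apply, Matrix.submatrix_apply, Equiv.symm_apply_apply]
        rfl
      rw [h4, Matrix.transpose_apply, Matrix.transpose_apply, Matrix.submatrix_apply,
        Equiv.symm_apply_apply]
      rfl)
    (fun i => rk (lam i)) (fun i j h => hlam (hrkinj h))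
    (fun q => rk (d q)) (fun i j h => hd (hrkinj h)) (by
      intro q h
      exact hd0 q (hrkinj (by rw [h, map_zero])))
    ε hε hεr (∑ j, kV (c0 j) • gV j) (∑ j, kV (c1 j) • gV j) (hcM _) (hcM _)
    (by rw [hred c0 _ hc0, hstd, map_one, map_zero])
    (by rw [hred c1 _ hc1, hstd, map_one, map_zero])
    (by
      rcases hc2 with ⟨c2, hc2⟩ | hc2
      · left
        exact ⟨∑ j, kV (c2 j) • gV j, hcM _, by rw [hred c2 _ hc2, hstd, map_one, map_zero]⟩
      · right
        intro M hM
        obtain ⟨t, rfl⟩ := hMsc M hM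
        choose a b hab using hc2
        have hcoef : ∀ j l, a j * c0 l + b j * c1 l = if j = l then 1 else 0 := by
          intro j l
          have h1 : ∑ l, (a j * c0 l + b j * c1 l - if j = l then 1 else 0) • f.mat l = 0 := by
            simp only [sub_smul, add_smul, Finset.sum_sub_distrib, Finset.sum_add_distrib,
              ite_smul, one_smul, zero_smul, mul_smul, ← Finset.smul_sum]
            rw [Finset.sum_ite_eq Finset.univ j, hc0, hc1, ← hab j]
            simp
          have h2 := Fintype.linearIndependent_iff.mp f.indep _ h1 l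
          exact sub_eq_zero.mp h2
        have hgj : ∀ j, gV j = kV (a j) • (∑ l, kV (c0 l) • gV l) +
            kV (b j) • (∑ l, kV (c1 l) • gV l) := by
          intro j
          rw [Finset.smul_sum, Finset.smul_sum, ← Finset.sum_add_distrib]
          have h1 : ∀ l, kV (a j) • kV (c0 l) • gV l + kV (b j) • kV (c1 l) • gV l =
              (if j = l then (1 : V) else 0) • gV l := by
            intro l
            rw [smul_smul, smul_smul, ← add_smul, ← map_mul, ← map_mul, ← map_add, hcoef]
            congr 1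
            split_ifs
            · rw [map_one]
            · rw [map_zero]
          rw [Finset.sum_congr rfl (fun l _ => h1 l)]
          simp only [ite_smul, one_smul, zero_smul]
          rw [Finset.sum_ite_eq Finset.univ j]
          simp
        refine ⟨∑ j, t j * kV (a j), ∑ j, t j * kV (b j), ?_⟩
        conv_lhs => rw [Finset.sum_congr rfl (fun j _ => by rw [hgj j])]
        simp only [smul_add, Finset.sum_add_distrib, Finset.sum_smul, smul_smul])
  -- transfer
  refine ⟨(g.map V.subtype).submatrix ρ.symm ρ.symm, ?_, ?_⟩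
  · rw [Matrix.det_submatrix_equiv_self, det_map_ring]
    exact (hg.map V.subtype).ne_zero
  · intro j
    have h1 := hgM (gV j) (Submodule.subset_span ⟨j, rfl⟩)
    have h2 : (g.map V.subtype).submatrix ρ.symm ρ.symm *
        (gen Z j).map (algebraMap (CR Z) (FractionRing (CR Z))) *
        ((g.map V.subtype).submatrix ρ.symm ρ.symm)ᵀ =
        ((g * gV j * gᵀ).map V.subtype).submatrix ρ.symm ρ.symm := by
      rw [Matrix.map_mul, Matrix.map_mul, Matrix.transpose_map]
      have h3 : (gen Z j).map (algebraMap (CR Z) (FractionRing (CR Z))) =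
          ((gV j).map V.subtype).submatrix ρ.symm ρ.symm := by
        ext x y
        rw [Matrix.submatrix_apply, Matrix.map_apply, Matrix.map_apply, hgV]
        simp only [Matrix.submatrix_apply, Matrix.map_apply, Equiv.apply_symm_apply]
        exact (hι _).symm
      rw [h3, Matrix.transpose_submatrix, Matrix.submatrix_mul_equiv,
        Matrix.submatrix_mul_equiv]
    rw [h2]
    intro x y hx hy
    obtain ⟨a, rfl⟩ := ρ.surjective x
    obtain ⟨b, rfl⟩ := ρ.surjective y
    rw [Matrix.submatrix_apply, Equiv.symm_apply_apply, Equiv.symm_apply_apply,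
      Matrix.map_apply]
    have hsymg : (g * gV j * gᵀ).IsSymm := by
      rw [Matrix.IsSymm, Matrix.transpose_mul, Matrix.transpose_mul,
        Matrix.transpose_transpose, (hgVs j).eq, Matrix.mul_assoc]
    have hent : (g * gV j * gᵀ) a b = 0 := by
      rw [hρ, rho_apply] at hx hy
      obtain ⟨⟨i1, i2⟩, i3, i4, i5⟩ := h1
      rcases b with (b | b | b) | b
      · exfalso
        simp only [rhoFun] at hy
        omega
      · exfalso
        simp only [rhoFun] at hy
        omega
      · rcases a with (a | a | a) | a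
        · exact i1 a b
        · exfalso
          simp only [rhoFun] at hx
          omega
        · exact i2 a b
        · rw [hsymg.apply]; exact i4 b a
      · rcases a with (a | a | a) | a
        · exact i3 a b
        · exfalso
          simp only [rhoFun] at hx
          omega
        · exact i4 a b
        · exact i5 a b
    rw [hent, map_zero]

/-- The main theorem. -/
theorem main_theorem (K : Type*) [Field K] [IsAlgClosed K] (n r k s : ℕ) (hr : 1 ≤ r)
    (hrn : r ≤ n) (hs : s ≤ (r - 1) / 2) (hk : 1 ≤ k) (hk' : k ≤ kappa n r s) :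
    nestedCompression K n r k s ∈ irreducibleComponents (FanoPt K n r k) := by
  classical
  have hs' : 2 * s + 1 ≤ r := by omega
  obtain ⟨m, rfl⟩ : ∃ m, r = 2 * s + 1 + m := ⟨r - (2 * s + 1), by omega⟩
  obtain ⟨e, rfl⟩ : ∃ e, n = 2 * s + 1 + m + e := ⟨n - (2 * s + 1 + m), by omega⟩
  obtain ⟨⟨lam, hlam⟩, d, hd, hd0⟩ := exists_lam_d K m s
  have hfin := finrank_stdSub (K := K) (2 * s + 1 + m + e) (2 * s + 1 + m) s (by omega) hs'
  have hk2 : k + 1 ≤ s * (s + 1) / 2 + s * (2 * s + 1 + m + e - s) +
      (2 * s + 1 + m - 2 * s - 1) * (2 * s + 1 + m - 2 * s) / 2 := by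
    unfold kappa at hk'
    omega
  have hk3 : k + 1 ≤ Module.finrank K (stdSub K (2 * s + 1 + m + e) (2 * s + 1 + m) s) :=
    hk2.trans hfin
  obtain ⟨N, hN, hNs, hc0, hc1, hc2⟩ := exists_special (K := K) s m e k lam hlam d hk hk3 (by
    intro hs0
    subst hs0
    by_contra hm
    have hm' : m = 0 ∨ m = 1 := by omega
    rcases hm' with rfl | rfl
    · simp at hk2
    · simp at hk2
      omega)
  obtain ⟨f, hfm, hfC⟩ := exists_frame_param (k := k) hs' (1 : Matrix (Fin (2 * s + 1 + m + e))
    (Fin (2 * s + 1 + m + e)) K) (by simp) N hNs hN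
  have hfm' : ∀ i, f.mat i = N i := by
    intro i; rw [hfm]; simp
  refine ⟨⟨⟨f.pt, hfC⟩, nested_preirreducible hs'⟩, ?_⟩
  intro Z hZ hCZ Q hQ
  have hfZ : f.pt ∈ Z := hCZ hfC
  have : (vIdeal Z).IsPrime := prime_of_irred Z hZ.2 f hfZ (vIdeal Z) (fun F => Iff.rfl)
  obtain ⟨g, hg, hgen⟩ := generic_compression Z lam hlam d hd hd0 f hfZ
    (by simpa only [hfm'] using hc0) (by simpa only [hfm'] using hc1)
    (by simpa only [hfm'] using hc2)
  obtain ⟨f', rfl⟩ := exists_frame Q
  exact special_of_generic hs' Z g hg hgen f' hQ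

end Pool.Agent.Helper13.Fano
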