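import Pool.Agent.Helper13.FanoDefs

/-!
Topological lemmas for the space of points of the Fano scheme.
-/

namespace Pool.Agent.Helper13.Fano

open Topology

open Polynomial in
/-- evaluation of a multivariate polynomial along a polynomial path -/
lemma eval_path {K σ : Type*} [Field K] (p : σ → K[X]) (F : MvPolynomial σ K) (t : K) :
    (MvPolynomial.aeval p F).eval t = MvPolynomial.eval (fun i => (p i).eval t) F := by
  induction F using MvPolynomial.induction_on with
  | C a => simp
  | add p q hp hq => simp [hp, hq]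
  | mul_X p i hp => simp [hp]

open Polynomial in
lemma exists_eval_ne {K : Type*} [Field K] [Infinite K] (p : K[X]) (hp : p ≠ 0) :
    ∃ t, p.eval t ≠ 0 := by
  by_contra h
  push Not at h
  apply hp
  apply Polynomial.funext
  intro t
  rw [h t, eval_zero]

variable {K : Type*} [Field K] {n r k : ℕ}

lemma zariski_open {σ : Type*} {U : Set (σ → K)} (hU : IsOpen[zariski σ K] U) :
    ∃ S : Set (MvPolynomial σ K), ∀ p, p ∈ U ↔ ∃ F ∈ S, MvPolynomial.eval p F ≠ 0 := by
  have h1 : Uᶜ ∈ zeroLoci σ K := hU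
  obtain ⟨S, hS⟩ := h1
  refine ⟨S, fun p => ?_⟩
  rw [← not_iff_not, ← Set.mem_compl_iff, hS]
  push Not
  rfl

lemma zariski_open_of {σ : Type*} (S : Set (MvPolynomial σ K)) :
    IsOpen[zariski σ K] {p | ∃ F ∈ S, MvPolynomial.eval p F ≠ 0} := by
  show _ ∈ zeroLoci σ K
  refine ⟨S, ?_⟩
  ext p
  simp only [Set.mem_compl_iff, Set.mem_ofPred_eq]
  push Not
  rfl

lemma fano_open {U : Set (FanoPt K n r k)} (hU : IsOpen U) :
    ∃ S : Set (MvPolynomial (Fin (k + 1) × Fin n × Fin n) K),
      ∀ f : Frame K n r k, f.pt ∈ U ↔ ∃ F ∈ S, MvPolynomial.eval f.coord F ≠ 0 := by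
  have h1 : IsOpen[frameTopology K n r k] (Frame.pt ⁻¹' U) := hU
  obtain ⟨V, hV, hVU⟩ := h1
  obtain ⟨S, hS⟩ := zariski_open hV
  refine ⟨S, fun f => ?_⟩
  rw [← hS]
  show f ∈ Frame.pt ⁻¹' U ↔ f ∈ Frame.coord ⁻¹' V
  rw [hVU]

/-- two frames of the same point differ by an invertible matrix -/
lemma exists_gl (f g : Frame K n r k) (h : f.pt = g.pt) :
    ∃ γ : Matrix (Fin (k + 1)) (Fin (k + 1)) K, γ.det ≠ 0 ∧
      ∀ i, g.mat i = ∑ j, γ i j • f.mat j := by
  have hspan : Submodule.span K (Set.range f.mat) = Submodule.span K (Set.range g.mat) :=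
    congrArg Subtype.val h
  have h1 : ∀ i, ∃ c : Fin (k + 1) → K, ∑ j, c j • f.mat j = g.mat i := by
    intro i
    have h2 : g.mat i ∈ Submodule.span K (Set.range f.mat) := by
      rw [hspan]
      exact Submodule.subset_span ⟨i, rfl⟩
    exact (Submodule.mem_span_range_iff_exists_fun K).mp h2
  choose γ hγ using h1
  refine ⟨γ, ?_, fun i => (hγ i).symm⟩
  intro hdet
  obtain ⟨c, hc, hc0⟩ := Matrix.exists_vecMul_eq_zero_iff.mpr hdet
  apply hc
  have h2 := Fintype.linearIndependent_iff.mp g.indep c (by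
    have : ∑ i, c i • g.mat i = ∑ j, (∑ i, c i * γ i j) • f.mat j := by
      simp only [← hγ, Finset.smul_sum, Finset.sum_smul, smul_smul]
      rw [Finset.sum_comm]
    rw [this]
    refine Finset.sum_eq_zero fun j _ => ?_
    have h3 : ∑ i, c i * γ i j = 0 := congrFun hc0 j
    rw [h3]; simp)
  exact funext h2

/-- changing a frame by an invertible matrix -/
lemma exists_frame_gl (f : Frame K n r k) (γ : Matrix (Fin (k + 1)) (Fin (k + 1)) K)
    (hγ : γ.det ≠ 0) :
    ∃ g : Frame K n r k, g.pt = f.pt ∧ ∀ i, g.mat i = ∑ j, γ i j • f.mat j := by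
  have hind : LinearIndependent K (fun i => ∑ j, γ i j • f.mat j) := by
    rw [Fintype.linearIndependent_iff]
    intro c hc
    have h1 : ∑ j, (∑ i, c i * γ i j) • f.mat j = 0 := by
      rw [← hc]
      simp only [Finset.smul_sum, Finset.sum_smul, smul_smul]
      rw [Finset.sum_comm]
    have h2 := Fintype.linearIndependent_iff.mp f.indep _ h1
    have h3 : Matrix.vecMul c γ = 0 := funext h2
    have h4 := Matrix.eq_zero_of_vecMul_eq_zero hγ h3
    exact fun i => congrFun h4 i
  have hle : Submodule.span K (Set.range (fun i => ∑ j, γ i j • f.mat j)) ≤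
      Submodule.span K (Set.range f.mat) := by
    rw [Submodule.span_le]
    rintro _ ⟨i, rfl⟩
    exact Submodule.sum_mem _ fun j _ => Submodule.smul_mem _ _
      (Submodule.subset_span ⟨j, rfl⟩)
  refine ⟨⟨fun i => ∑ j, γ i j • f.mat j, hind, fun M hM => f.fano M (hle hM)⟩, ?_,
    fun i => rfl⟩
  apply Subtype.ext
  show Submodule.span K (Set.range (fun i => ∑ j, γ i j • f.mat j)) =
    Submodule.span K (Set.range f.mat)
  apply Submodule.eq_of_le_of_finrank_eq hle
  rw [finrank_span_eq_card hind, finrank_span_eq_card f.indep]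

/-- the set of points having a frame at which a given polynomial does not vanish -/
def dset (F : MvPolynomial (Fin (k + 1) × Fin n × Fin n) K) : Set (FanoPt K n r k) :=
  {Q | ∃ f : Frame K n r k, f.pt = Q ∧ MvPolynomial.eval f.coord F ≠ 0}

lemma dset_open (F : MvPolynomial (Fin (k + 1) × Fin n × Fin n) K) :
    IsOpen (dset F : Set (FanoPt K n r k)) := by
  show IsOpen[frameTopology K n r k] (Frame.pt ⁻¹' (dset F))
  set S : Set (MvPolynomial (Fin (k + 1) × Fin n × Fin n) K) :=
    {G | ∃ γ : Matrix (Fin (k + 1)) (Fin (k + 1)) K, γ.det ≠ 0 ∧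
      G = MvPolynomial.bind₁ (fun x : Fin (k + 1) × Fin n × Fin n =>
        ∑ j, MvPolynomial.C (γ x.1 j) * MvPolynomial.X (j, x.2)) F} with hS
  refine ⟨{p | ∃ G ∈ S, MvPolynomial.eval p G ≠ 0}, zariski_open_of S, ?_⟩
  have hev : ∀ (γ : Matrix (Fin (k + 1)) (Fin (k + 1)) K) (f g : Frame K n r k),
      (∀ i, g.mat i = ∑ j, γ i j • f.mat j) →
      MvPolynomial.eval f.coord (MvPolynomial.bind₁ (fun x : Fin (k + 1) × Fin n × Fin n =>
        ∑ j, MvPolynomial.C (γ x.1 j) * MvPolynomial.X (j, x.2)) F) =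
      MvPolynomial.eval g.coord F := by
    intro γ f g hg
    rw [← MvPolynomial.coe_aeval_eq_eval, RingHom.coe_coe, MvPolynomial.aeval_bind₁,
      ← MvPolynomial.coe_aeval_eq_eval, RingHom.coe_coe]
    congr 1
    congr 1
    funext x
    simp only [map_sum, map_mul, MvPolynomial.aeval_C, MvPolynomial.aeval_X,
      Frame.coord, hg, Matrix.sum_apply, Matrix.smul_apply, smul_eq_mul]
    rfl
  ext f
  constructor
  · rintro ⟨G, ⟨γ, hγ, rfl⟩, hG⟩
    obtain ⟨g, hg, hgm⟩ := exists_frame_gl f γ hγ
    refine ⟨g, hg, ?_⟩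
    rw [← hev γ f g hgm]
    exact hG
  · rintro ⟨g, hg, hgF⟩
    obtain ⟨γ, hγ, hgm⟩ := exists_gl f g hg.symm
    refine ⟨_, ⟨γ, hγ, rfl⟩, ?_⟩
    rw [hev γ f g hgm]
    exact hgF

open Polynomial in
/-- near a linearly independent family, families on a polynomial path are linearly
independent -/
lemma exists_indep_poly {V : Type*} [AddCommGroup V] [Module K V]
    (u v : Fin (k + 1) → V) (hu : LinearIndependent K u) :
    ∃ p : K[X], p.eval 0 ≠ 0 ∧ ∀ t : K, p.eval t ≠ 0 →
      LinearIndependent K (fun i => (1 - t) • u i + t • v i) := by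
  have hinj : LinearMap.ker (Fintype.linearCombination K u) = ⊥ := by
    rw [LinearMap.ker_eq_bot']
    intro c hc
    rw [Fintype.linearCombination_apply] at hc
    exact funext (Fintype.linearIndependent_iff.mp hu c hc)
  obtain ⟨g, hg⟩ := LinearMap.exists_leftInverse_of_injective _ hinj
  have hgu : ∀ i j, g (u i) j = (1 : Matrix (Fin (k + 1)) (Fin (k + 1)) K) i j := by
    intro i j
    have h1 := LinearMap.congr_fun hg (Pi.single i 1)
    rw [LinearMap.comp_apply, Fintype.linearCombination_apply_single, one_smul,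
      LinearMap.id_apply] at h1
    rw [h1, Matrix.one_apply, Pi.single_apply]
    simp only [eq_comm]
  set Γ : Matrix (Fin (k + 1)) (Fin (k + 1)) K[X] := Matrix.of fun i j =>
    (1 - X) * C (g (u i) j) + X * C (g (v i) j) with hΓ
  have hΓe : ∀ t, (Γ.det).eval t = Matrix.det (Matrix.of fun i j =>
      (1 - t) * g (u i) j + t * g (v i) j) := by
    intro t
    rw [← coe_evalRingHom, RingHom.map_det, RingHom.mapMatrix_apply]
    congr 1
    ext i j
    simp [hΓ]
    exact mul_comm _ _
  refine ⟨Γ.det, ?_, ?_⟩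
  · rw [hΓe]
    have : (Matrix.of fun i j => (1 - (0 : K)) * g (u i) j + 0 * g (v i) j) =
        (1 : Matrix (Fin (k + 1)) (Fin (k + 1)) K) := by
      ext i j
      simp [hgu]
    rw [this, Matrix.det_one]
    exact one_ne_zero
  · intro t ht
    rw [hΓe] at ht
    rw [Fintype.linearIndependent_iff]
    intro c hc
    have h1 : Matrix.vecMul c (Matrix.of fun i j =>
      (1 - t) * g (u i) j + t * g (v i) j) = 0 := by
      funext j
      have h2 := congrFun (congrArg g hc) j
      simp only [map_sum, map_smul, map_add, map_zero, Finset.sum_apply, Pi.smul_apply,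
        Pi.add_apply, Pi.zero_apply, smul_eq_mul] at h2
      simp only [Matrix.vecMul, dotProduct, Matrix.of_apply, Pi.zero_apply]
      exact h2
    have h3 := Matrix.eq_zero_of_vecMul_eq_zero ht h1
    exact fun i => congrFun h3 i

/-- two frames over the same point: a polynomial product that is nonzero somewhere on each -/
lemma frame_line [Infinite K] (F G : MvPolynomial (Fin (k + 1) × Fin n × Fin n) K)
    (f g : Frame K n r k) (h : f.pt = g.pt) (hF : MvPolynomial.eval f.coord F ≠ 0)
    (hG : MvPolynomial.eval g.coord G ≠ 0) :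
    ∃ e : Frame K n r k, e.pt = f.pt ∧ MvPolynomial.eval e.coord F ≠ 0 ∧
      MvPolynomial.eval e.coord G ≠ 0 := by
  obtain ⟨p, hp0, hp⟩ := exists_indep_poly f.mat g.mat f.indep
  set q : Fin (k + 1) × Fin n × Fin n → Polynomial K := fun x =>
    (1 - Polynomial.X) * Polynomial.C (f.coord x) + Polynomial.X * Polynomial.C (g.coord x)
    with hq
  have hqe : ∀ t x, (q x).eval t = (1 - t) * f.coord x + t * g.coord x := by
    intro t x
    simp [hq]
    exact mul_comm _ _
  have hne : p * MvPolynomial.aeval q F * MvPolynomial.aeval q G ≠ 0 := by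
    refine mul_ne_zero (mul_ne_zero ?_ ?_) ?_
    · intro h0; apply hp0; rw [h0, Polynomial.eval_zero]
    · intro h0
      apply hF
      have h1 := congrArg (Polynomial.eval 0) h0
      rw [eval_path, Polynomial.eval_zero] at h1
      rw [← h1]
      congr 1
      congr 1
      funext x
      rw [hqe]; simp
    · intro h0
      apply hG
      have h1 := congrArg (Polynomial.eval 1) h0
      rw [eval_path, Polynomial.eval_zero] at h1
      rw [← h1]
      congr 1
      congr 1
      funext x
      rw [hqe]; simp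
  obtain ⟨t, ht⟩ := exists_eval_ne _ hne
  rw [Polynomial.eval_mul, Polynomial.eval_mul] at ht
  have ht1 := left_ne_zero_of_mul (left_ne_zero_of_mul ht)
  have ht2 := right_ne_zero_of_mul (left_ne_zero_of_mul ht)
  have ht3 := right_ne_zero_of_mul ht
  have hind := hp t ht1
  have hspan : Submodule.span K (Set.range f.mat) = Submodule.span K (Set.range g.mat) :=
    congrArg Subtype.val h
  have hle : Submodule.span K (Set.range (fun i => (1 - t) • f.mat i + t • g.mat i)) ≤
      Submodule.span K (Set.range f.mat) := by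
    rw [Submodule.span_le]
    rintro _ ⟨i, rfl⟩
    refine Submodule.add_mem _ (Submodule.smul_mem _ _ (Submodule.subset_span ⟨i, rfl⟩))
      (Submodule.smul_mem _ _ ?_)
    rw [hspan]
    exact Submodule.subset_span ⟨i, rfl⟩
  set e : Frame K n r k :=
    ⟨fun i => (1 - t) • f.mat i + t • g.mat i, hind, fun M hM => f.fano M (hle hM)⟩ with he
  have hec : e.coord = fun x => (q x).eval t := by
    funext x
    rw [hqe]
    simp [he, Frame.coord]
  refine ⟨e, ?_, ?_, ?_⟩
  · apply Subtype.ext
    show Submodule.span K (Set.range (fun i => (1 - t) • f.mat i + t • g.mat i)) =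
      Submodule.span K (Set.range f.mat)
    apply Submodule.eq_of_le_of_finrank_eq hle
    rw [finrank_span_eq_card hind, finrank_span_eq_card f.indep]
  · rw [hec, ← eval_path]; exact ht2
  · rw [hec, ← eval_path]; exact ht3

/-- The ideal of polynomials vanishing on all the frames of the points of an irreducible set
is prime. -/
theorem prime_of_irred [Infinite K] (Z : Set (FanoPt K n r k)) (hZ : IsPreirreducible Z)
    (f0 : Frame K n r k) (hf0 : f0.pt ∈ Z)
    (I : Ideal (MvPolynomial (Fin (k + 1) × Fin n × Fin n) K))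
    (hI : ∀ F, F ∈ I ↔ ∀ f : Frame K n r k, f.pt ∈ Z → MvPolynomial.eval f.coord F = 0) :
    I.IsPrime := by
  constructor
  · intro htop
    have h1 : (1 : MvPolynomial (Fin (k + 1) × Fin n × Fin n) K) ∈ I := by
      rw [htop]; exact Submodule.mem_top
    have h2 := (hI 1).mp h1 f0 hf0
    rw [map_one] at h2
    exact one_ne_zero h2
  · intro F G hFG
    by_contra hcon
    push Not at hcon
    obtain ⟨hF, hG⟩ := hcon
    rw [hI] at hF hG
    push Not at hF hG
    obtain ⟨f, hf, hfF⟩ := hF
    obtain ⟨g, hg, hgG⟩ := hG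
    obtain ⟨Q, hQ, ⟨f1, hf1, hf1F⟩, ⟨g1, hg1, hg1G⟩⟩ := hZ (dset F) (dset G) (dset_open F)
      (dset_open G) ⟨f.pt, hf, f, rfl, hfF⟩ ⟨g.pt, hg, g, rfl, hgG⟩
    obtain ⟨e, he, heF, heG⟩ := frame_line F G f1 g1 (hf1.trans hg1.symm) hf1F hg1G
    have h1 := (hI (F * G)).mp hFG e (by rw [he, hf1]; exact hQ)
    rw [map_mul] at h1
    rcases mul_eq_zero.mp h1 with h2 | h2
    · exact heF h2
    · exact heG h2

end Pool.Agent.Helper13.Fano
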