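import Pool.Agent.Helper13.FanoDim

/-!
Iwasawa decomposition over a valuation ring and descent to the ground field.
-/

namespace Pool.Agent.Helper13.Fano

open IsLocalRing Matrix

section iwasawa

variable {L : Type*} [Field L] (V : ValuationSubring L)

lemma exists_max_val {n : ℕ} (w : Fin (n + 1) → L) (hw : w ≠ 0) :
    ∃ p, w p ≠ 0 ∧ ∃ o : Fin (n + 1) → V, ∀ j, w j = (o j : L) * w p := by
  obtain ⟨p, _, hp⟩ := Finset.exists_max_image Finset.univ (fun j => V.valuation (w j))
    ⟨0, Finset.mem_univ _⟩
  have hp0 : w p ≠ 0 := by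
    intro h0
    apply hw
    funext j
    have h1 := hp j (Finset.mem_univ _)
    rw [h0, map_zero] at h1
    exact (map_eq_zero _).mp (le_antisymm h1 zero_le)
  refine ⟨p, hp0, fun j => ⟨w j / w p, ?_⟩, fun j => ?_⟩
  · rw [← V.valuation_le_one_iff, map_div₀]
    have h1 := hp j (Finset.mem_univ _)
    exact div_le_one_of_le₀ h1 zero_le
  · simp only
    rw [div_mul_cancel₀ _ hp0]

lemma row_reduce {n : ℕ} (w : Fin (n + 1) → L) :
    ∃ u : Matrix (Fin (n + 1)) (Fin (n + 1)) V, IsUnit u.det ∧
      ∀ j, j ≠ Fin.last n → ∑ i, w i * (u i j : L) = 0 := by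
  classical
  by_cases hw : w = 0
  · refine ⟨1, by simp, fun j _ => ?_⟩
    rw [hw]; simp
  obtain ⟨p, hp, o, ho⟩ := exists_max_val V w hw
  set E : Matrix (Fin (n + 1)) (Fin (n + 1)) V := Matrix.of fun i j =>
    if i = p ∧ j ≠ p then o j else 0 with hE
  have hEE : E * E = 0 := by
    ext i j
    rw [Matrix.mul_apply, Matrix.zero_apply]
    congr 1
    refine Finset.sum_eq_zero fun l _ => ?_
    simp only [hE, Matrix.of_apply]
    by_cases h : l = p
    · subst h; simp
    · rw [if_neg (c := l = p ∧ j ≠ p) (by tauto), mul_zero]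
  set τ := Equiv.swap p (Fin.last n) with hτ
  refine ⟨(1 - E).submatrix id τ, ?_, ?_⟩
  · rw [Matrix.det_permute']
    refine IsUnit.mul ?_ ?_
    · exact (Units.isUnit _).map (Int.castRingHom V)
    · have h1 : (1 - E) * (1 + E) = 1 := by
        rw [sub_mul, one_mul, mul_add, mul_one, hEE, add_zero, add_sub_cancel_right]
      have h2 := congrArg Matrix.det h1
      rw [Matrix.det_mul, Matrix.det_one] at h2
      exact IsUnit.of_mul_eq_one _ h2
  · intro j hj
    have hτj : τ j ≠ p := by
      intro h
      apply hj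
      have := congrArg τ h
      rw [hτ, Equiv.swap_apply_left, Equiv.swap_apply_self] at this
      exact this
    have h1 : ∀ i, (((1 - E).submatrix id τ i j : V) : L) =
        (if i = τ j then 1 else 0) - (if i = p then (o (τ j) : L) else 0) := by
      intro i
      rw [Matrix.submatrix_apply, Matrix.sub_apply, Matrix.one_apply]
      simp only [hE, Matrix.of_apply, id]
      have h2 : (i = p ∧ τ j ≠ p) ↔ i = p := ⟨fun h => h.1, fun h => ⟨h, hτj⟩⟩
      simp only [h2]
      by_cases h3 : i = τ j
      · by_cases h4 : i = p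
        · rw [if_pos h3, if_pos h4, if_pos h3, if_pos h4]; simp
        · rw [if_pos h3, if_neg h4, if_pos h3, if_neg h4]; simp
      · by_cases h4 : i = p
        · rw [if_neg h3, if_pos h4, if_neg h3, if_pos h4]; simp
        · rw [if_neg h3, if_neg h4, if_neg h3, if_neg h4]; simp
    simp only [h1, mul_sub, Finset.sum_sub_distrib, mul_ite, mul_one, mul_zero]
    rw [Finset.sum_ite_eq' Finset.univ (τ j), Finset.sum_ite_eq' Finset.univ p]
    simp only [Finset.mem_univ, if_true]
    rw [ho (τ j)]; ring

/-- Iwasawa decomposition -/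
theorem iwasawa : ∀ (n : ℕ) (g : Matrix (Fin n) (Fin n) L),
    ∃ h : Matrix (Fin n) (Fin n) V, IsUnit h.det ∧
      ∀ i j, j < i → (g * h.map V.subtype) i j = 0 := by
  classical
  intro n
  induction n with
  | zero => intro g; exact ⟨1, by simp, fun i => i.elim0⟩
  | succ n ih =>
    intro g
    obtain ⟨u, hu, hu0⟩ := row_reduce V (g (Fin.last n))
    set g1 := g * u.map V.subtype with hg1
    have hg1l : ∀ j, j ≠ Fin.last n → g1 (Fin.last n) j = 0 := by
      intro j hj
      rw [hg1, Matrix.mul_apply]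
      exact hu0 j hj
    obtain ⟨h, hh, hh0⟩ := ih (g1.submatrix Fin.castSucc Fin.castSucc)
    set e : Fin (n + 1) ≃ Fin n ⊕ Fin 1 := finSumFinEquiv.symm with he
    have hec : ∀ a : Fin n, e a.castSucc = .inl a := fun a =>
      finSumFinEquiv_symm_apply_castAdd a
    have hel : e (Fin.last n) = .inr 0 := finSumFinEquiv_symm_last
    set H : Matrix (Fin (n + 1)) (Fin (n + 1)) V :=
      (Matrix.fromBlocks h 0 0 (1 : Matrix (Fin 1) (Fin 1) V)).submatrix e e with hH
    have hHcc : ∀ a b : Fin n, H a.castSucc b.castSucc = h a b := by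
      intro a b
      rw [hH, Matrix.submatrix_apply, hec, hec, Matrix.fromBlocks_apply₁₁]
    have hHlc : ∀ b : Fin n, H (Fin.last n) b.castSucc = 0 := by
      intro b
      rw [hH, Matrix.submatrix_apply, hec, hel, Matrix.fromBlocks_apply₂₁]; rfl
    refine ⟨u * H, ?_, ?_⟩
    · rw [Matrix.det_mul]
      refine hu.mul ?_
      rw [hH, Matrix.det_submatrix_equiv_self, Matrix.det_fromBlocks_zero₂₁, Matrix.det_one,
        mul_one]
      exact hh
    · intro i j hij
      have h1 : g * (u * H).map V.subtype = g1 * H.map V.subtype := by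
        rw [Matrix.map_mul, ← Matrix.mul_assoc]
      rw [h1]
      have hj : j ≠ Fin.last n := by
        rintro rfl
        exact absurd hij (not_lt.mpr (Fin.le_last i))
      obtain ⟨b, rfl⟩ := Fin.exists_castSucc_eq.mpr hj
      rw [Matrix.mul_apply, Fin.sum_univ_castSucc]
      simp only [Matrix.map_apply]
      rw [hHlc, map_zero, mul_zero, add_zero]
      rcases Fin.eq_castSucc_or_eq_last i with ⟨a, rfl⟩ | rfl
      · have h2 := hh0 a b (by
          rw [Fin.lt_def] at hij ⊢
          simpa using hij)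
        rw [Matrix.mul_apply] at h2
        rw [← h2]
        refine Finset.sum_congr rfl fun l _ => ?_
        rw [hHcc]; rfl
      · refine Finset.sum_eq_zero fun l _ => ?_
        rw [hg1l _ (by
          intro h
          have := congrArg Fin.val h
          rw [Fin.val_castSucc, Fin.val_last] at this
          omega), zero_mul]

end iwasawa

/-- zero condition -/
def ZC {R : Type*} [CommRing R] {n : ℕ} (s u : ℕ) (M : Matrix (Fin n) (Fin n) R) : Prop :=
  ∀ i j : Fin n, s ≤ i.val → u ≤ j.val → M i j = 0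

lemma ZC_conj {R : Type*} [CommRing R] {n s u : ℕ} (T M : Matrix (Fin n) (Fin n) R)
    (hT : ∀ i j, j < i → T i j = 0) (hM : ZC s u M) : ZC s u (T * M * Tᵀ) := by
  intro i j hi hj
  rw [Matrix.mul_apply]
  refine Finset.sum_eq_zero fun b _ => ?_
  rw [Matrix.transpose_apply]
  by_cases hb : b < j
  · rw [hT j b hb, mul_zero]
  · rw [Matrix.mul_apply, Finset.sum_eq_zero, zero_mul]
    intro a _
    by_cases ha : a < i
    · rw [hT i a ha, zero_mul]
    · rw [hM a b, mul_zero]
      · rw [Fin.lt_def] at ha; omega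
      · rw [Fin.lt_def] at hb; omega

lemma isStdNested_iff {K : Type*} [Field K] {n r s : ℕ} (hs : 2 * s + 1 ≤ r)
    (M : Matrix (Fin n) (Fin n) K) (hM : M.IsSymm) :
    IsStdNested r s M ↔ ZC s (r - s - 1) M := by
  constructor
  · intro h i j hi hj
    exact h.2 i j (Or.inr ⟨by omega, by omega⟩)
  · intro h
    refine ⟨hM, fun i j hij => ?_⟩
    rcases hij with ⟨h1, h2⟩ | ⟨h1, h2⟩
    · rw [← hM.apply]
      exact h j i (by omega) (by omega)
    · exact h i j (by omega) (by omega)

/-- descent to an algebraically closed field -/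
theorem descent {K F : Type*} [Field K] [IsAlgClosed K] [Field F] [Algebra K F]
    {n s u : ℕ} {ι : Type*} (z : ι → Matrix (Fin n) (Fin n) K)
    (h : Matrix (Fin n) (Fin n) F) (hh : h.det ≠ 0)
    (hz : ∀ l, ZC s u (h * (z l).map (algebraMap K F) * hᵀ)) :
    ∃ h0 : Matrix (Fin n) (Fin n) K, h0.det ≠ 0 ∧ ∀ l, ZC s u (h0 * z l * h0ᵀ) := by
  classical
  set x : Option (Fin n × Fin n) → F := fun o => match o with
    | none => (h.det)⁻¹
    | some p => h p.1 p.2 with hx
  set J : Ideal (MvPolynomial (Option (Fin n × Fin n)) K) :=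
    RingHom.ker (MvPolynomial.aeval x : MvPolynomial (Option (Fin n × Fin n)) K →ₐ[K] F)
    with hJ
  have hJp : J.IsPrime := RingHom.ker_isPrime _
  have hne : (MvPolynomial.zeroLocus K J).Nonempty := by
    by_contra hcon
    rw [Set.not_nonempty_iff_eq_empty] at hcon
    have h1 := MvPolynomial.IsPrime.vanishingIdeal_zeroLocus (K := K) J
    rw [hcon, MvPolynomial.vanishingIdeal_empty] at h1
    exact hJp.ne_top h1.symm
  obtain ⟨y, hy⟩ := hne
  set HX : Matrix (Fin n) (Fin n) (MvPolynomial (Option (Fin n × Fin n)) K) :=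
    Matrix.of fun i j => MvPolynomial.X (some (i, j)) with hHX
  have hmapx : HX.map (MvPolynomial.aeval x : MvPolynomial (Option (Fin n × Fin n)) K →ₐ[K] F) =
      h := by
    ext i j
    simp [hHX, hx]
  set h0 : Matrix (Fin n) (Fin n) K := Matrix.of fun i j => y (some (i, j)) with hh0
  have hmapy : HX.map (MvPolynomial.aeval y : MvPolynomial (Option (Fin n × Fin n)) K →ₐ[K] K) =
      h0 := by
    ext i j
    simp [hHX, hh0]
  refine ⟨h0, ?_, ?_⟩
  · have h1 : HX.det * MvPolynomial.X none - 1 ∈ J := by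
      rw [hJ, RingHom.mem_ker]
      rw [map_sub, map_mul, map_one, AlgHom.map_det, AlgHom.mapMatrix_apply, hmapx,
        MvPolynomial.aeval_X]
      show h.det * (h.det)⁻¹ - 1 = 0
      rw [mul_inv_cancel₀ hh, sub_self]
    have h2 := hy _ h1
    rw [map_sub, map_mul, map_one, AlgHom.map_det, AlgHom.mapMatrix_apply, hmapy,
        MvPolynomial.aeval_X] at h2
    intro h3
    rw [h3, zero_mul, zero_sub, neg_eq_zero] at h2
    exact one_ne_zero h2
  · intro l i j hi hj
    set W : Matrix (Fin n) (Fin n) (MvPolynomial (Option (Fin n × Fin n)) K) :=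
      HX * (z l).map (MvPolynomial.C : K →+* MvPolynomial (Option (Fin n × Fin n)) K) * HXᵀ
      with hW
    have h1 : W i j ∈ J := by
      rw [hJ, RingHom.mem_ker]
      have h2 : W.map
          (MvPolynomial.aeval x : MvPolynomial (Option (Fin n × Fin n)) K →ₐ[K] F) =
          h * (z l).map (algebraMap K F) * hᵀ := by
        rw [hW, Matrix.map_mul, Matrix.map_mul, Matrix.transpose_map, hmapx]
        congr 2
        ext a b
        simp
      have h3 := congrFun (congrFun h2 i) j
      rw [Matrix.map_apply] at h3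
      refine Eq.trans h3 ?_
      exact hz l i j hi hj
    have h2 := hy _ h1
    have h3 : W.map
          (MvPolynomial.aeval y : MvPolynomial (Option (Fin n × Fin n)) K →ₐ[K] K) =
          h0 * z l * h0ᵀ := by
      rw [hW, Matrix.map_mul, Matrix.map_mul, Matrix.transpose_map, hmapy]
      congr 2
      ext a b
      simp
    have h4 := congrFun (congrFun h3 i) j
    rw [Matrix.map_apply] at h4
    rw [← h4]
    exact h2

/-- valuation rings dominating a given ideal -/
lemma exists_val {A : Type*} [CommRing A] [IsDomain A] (𝔪 : Ideal A) (h : 𝔪 ≠ ⊤) :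
    ∃ (V : ValuationSubring (FractionRing A)) (ι : A →+* V),
      (∀ a, ((ι a : V) : FractionRing A) = algebraMap A (FractionRing A) a) ∧
      ∀ a ∈ 𝔪, residue V (ι a) = 0 := by
  classical
  set φ := algebraMap A (FractionRing A) with hφ
  have hφi : Function.Injective φ := IsFractionRing.injective A (FractionRing A)
  set I' : Ideal φ.range := 𝔪.map φ.rangeRestrict with hI'
  have hI'ne : I' ≠ ⊤ := by
    intro htop
    have h1 : (1 : φ.range) ∈ I' := by rw [htop]; exact Submodule.mem_top
    rw [hI', Ideal.mem_map_iff_of_surjective _ φ.rangeRestrict_surjective] at h1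
    obtain ⟨a, ha, ha1⟩ := h1
    have h2 : a = 1 := by
      apply hφi
      have := congrArg Subtype.val ha1
      simpa using this
    rw [h2] at ha
    exact h ((Ideal.eq_top_iff_one _).mpr ha)
  obtain ⟨V, hV1, hV2⟩ := Ideal.image_subset_nonunits_valuationSubring I' hI'ne
  have hmem : ∀ a, φ a ∈ V := fun a => hV1 ⟨a, rfl⟩
  set ι : A →+* V := φ.codRestrict V.toSubring hmem with hι
  refine ⟨V, ι, fun a => rfl, ?_⟩
  intro a ha
  rw [residue_eq_zero_iff]
  rw [← ValuationSubring.coe_mem_nonunits_iff]
  apply hV2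
  refine ⟨φ.rangeRestrict a, Ideal.mem_map_of_mem _ ha, rfl⟩

end Pool.Agent.Helper13.Fano
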