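import Mathlib

namespace Pool.Agent.Helper13.Mob

open Finset MeasureTheory Set Filter Topology

/-- summation by parts -/
theorem parts (c : ℕ → ℂ) (f : ℕ → ℂ) (N : ℕ) :
    ∑ n ∈ Finset.Icc 1 N, c n * f n = (∑ n ∈ Finset.Icc 1 N, c n) * f N
      - ∑ n ∈ Finset.Ico 1 N, (∑ k ∈ Finset.Icc 1 n, c k) * (f (n + 1) - f n) := by
  induction N with
  | zero => simp
  | succ N ih =>
    rcases Nat.eq_zero_or_pos N with h0 | h0
    · subst h0
      simp
    · rw [Finset.sum_Icc_succ_top (by omega), Finset.sum_Icc_succ_top (by omega),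
        Finset.sum_Ico_succ_top (by omega), ih]
      ring

/-- Abel summation bound with a general majorant of the partial sums. -/
theorem abel_gen (c : ℕ → ℂ) (Φ : ℝ → ℝ) (f f' : ℝ → ℂ) {x : ℝ} (hx : 0 < x)
    (hf : ∀ y, 0 < y → HasDerivAt f (f' y) y) (hf'c : ContinuousOn f' (Set.Ioi 0))
    (hΦ0 : ∀ y, 0 ≤ Φ y)
    (hΦ : ∀ n : ℕ, 1 ≤ n → ∀ y ∈ Set.Icc ((n : ℝ) * x) ((n + 1 : ℝ) * x),
      ‖∑ k ∈ Finset.Icc 1 n, c k‖ ≤ Φ y)
    (hint : IntegrableOn (fun y => Φ y * ‖f' y‖) (Set.Ioi 0)) (N : ℕ) :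
    ‖∑ n ∈ Finset.Icc 1 N, c n * f (n * x)‖ ≤ ‖∑ k ∈ Finset.Icc 1 N, c k‖ * ‖f (N * x)‖
      + ∫ y in Set.Ioi 0, Φ y * ‖f' y‖ := by
  have h0 : ∀ y, 0 ≤ Φ y * ‖f' y‖ := fun y => mul_nonneg (hΦ0 y) (norm_nonneg _)
  have hterm : ∀ n : ℕ, 1 ≤ n → ‖(∑ k ∈ Finset.Icc 1 n, c k) * (f ((n + 1 : ℕ) * x) - f (n * x))‖
      ≤ ∫ y in ((n : ℝ) * x)..(((n + 1 : ℕ) : ℝ) * x), Φ y * ‖f' y‖ := by
    intro n hn
    have hnx : 0 < (n : ℝ) * x := by positivity
    have hle : (n : ℝ) * x ≤ ((n + 1 : ℕ) : ℝ) * x := by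
      push_cast; nlinarith
    have hsub : Set.uIcc ((n : ℝ) * x) (((n + 1 : ℕ) : ℝ) * x) ⊆ Set.Ioi 0 := by
      rw [Set.uIcc_of_le hle]
      intro y hy
      exact lt_of_lt_of_le hnx hy.1
    have hFTC : ∫ y in ((n : ℝ) * x)..(((n + 1 : ℕ) : ℝ) * x), f' y
        = f ((n + 1 : ℕ) * x) - f (n * x) := by
      apply intervalIntegral.integral_eq_sub_of_hasDerivAt
      · intro y hy
        exact hf y (hsub hy)
      · exact (hf'c.mono hsub).intervalIntegrable
    rw [← hFTC, norm_mul]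
    calc ‖∑ k ∈ Finset.Icc 1 n, c k‖ * ‖∫ y in ((n : ℝ) * x)..(((n + 1 : ℕ) : ℝ) * x), f' y‖
        ≤ ‖∑ k ∈ Finset.Icc 1 n, c k‖ * ∫ y in ((n : ℝ) * x)..(((n + 1 : ℕ) : ℝ) * x), ‖f' y‖ := by
          apply mul_le_mul_of_nonneg_left _ (norm_nonneg _)
          exact intervalIntegral.norm_integral_le_integral_norm hle
      _ = ∫ y in ((n : ℝ) * x)..(((n + 1 : ℕ) : ℝ) * x), ‖∑ k ∈ Finset.Icc 1 n, c k‖ * ‖f' y‖ := by
          rw [intervalIntegral.integral_const_mul]
      _ ≤ _ := by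
          apply intervalIntegral.integral_mono_on hle
          · exact ((hf'c.mono hsub).norm.intervalIntegrable).const_mul _
          · rw [intervalIntegrable_iff_integrableOn_Ioc_of_le hle]
            refine hint.mono_set ?_
            intro y hy
            exact lt_trans hnx hy.1
          · intro y hy
            apply mul_le_mul_of_nonneg_right _ (norm_nonneg _)
            apply hΦ n hn y
            have := hy.2
            push_cast at this
            exact ⟨hy.1, this⟩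
  have hsum : ∀ N : ℕ, 1 ≤ N → ∑ n ∈ Finset.Ico 1 N,
      ∫ y in ((n : ℝ) * x)..(((n + 1 : ℕ) : ℝ) * x), Φ y * ‖f' y‖
      = ∫ y in ((1 : ℕ) * x)..((N : ℝ) * x), Φ y * ‖f' y‖ := by
    intro N hN
    apply intervalIntegral.sum_integral_adjacent_intervals_Ico hN
      (a := fun n : ℕ => (n : ℝ) * x)
    intro k hk
    have hk1 : 1 ≤ k := hk.1
    have hle : (k : ℝ) * x ≤ ((k + 1 : ℕ) : ℝ) * x := by
      push_cast; nlinarith
    rw [intervalIntegrable_iff_integrableOn_Ioc_of_le hle]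
    refine hint.mono_set ?_
    intro y hy
    have : 0 < (k : ℝ) * x := by positivity
    exact lt_trans this hy.1
  rw [parts c (fun n => f (n * x)) N]
  refine (norm_sub_le _ _).trans ?_
  apply add_le_add
  · rw [norm_mul]
  · rcases Nat.lt_or_ge N 1 with h1 | h1
    · have : N = 0 := by omega
      subst this
      simp only [Finset.Ico_eq_empty_of_le (show (0:ℕ) ≤ 1 by norm_num), Finset.sum_empty, norm_zero]
      exact integral_nonneg (fun y => h0 y)
    · refine (norm_sum_le _ _).trans ?_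
      refine (Finset.sum_le_sum (fun n hn => hterm n (Finset.mem_Ico.1 hn).1)).trans ?_
      rw [hsum N h1]
      have hle : ((1 : ℕ) : ℝ) * x ≤ (N : ℝ) * x := by
        apply mul_le_mul_of_nonneg_right _ hx.le
        exact_mod_cast h1
      rw [intervalIntegral.integral_of_le hle]
      apply setIntegral_mono_set hint
      · exact Filter.Eventually.of_forall (fun y => h0 y)
      · apply Filter.Eventually.of_forall
        intro y hy
        have : 0 < ((1 : ℕ) : ℝ) * x := by simpa using hx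
        exact lt_trans this hy.1

/-- The square-root Abel bound. -/
theorem abel_sqrt (c : ℕ → ℂ) (B : ℝ) (hB0 : 0 ≤ B)
    (hB : ∀ N : ℕ, ‖∑ n ∈ Finset.Icc 1 N, c n‖ ≤ B * √N)
    (f f' : ℝ → ℂ) {x : ℝ} (hx : 0 < x)
    (hf : ∀ y, 0 < y → HasDerivAt f (f' y) y) (hf'c : ContinuousOn f' (Set.Ioi 0))
    (hint : IntegrableOn (fun y => √y * ‖f' y‖) (Set.Ioi 0)) (N : ℕ) :
    ‖∑ n ∈ Finset.Icc 1 N, c n * f (n * x)‖ ≤
      B / √x * (√(N * x) * ‖f (N * x)‖ + ∫ y in Set.Ioi 0, √y * ‖f' y‖) := by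
  have hsx : 0 < √x := Real.sqrt_pos.2 hx
  have key := abel_gen c (fun y => B / √x * √y) f f' hx hf hf'c (fun y => by positivity) ?_ ?_ N
  · refine key.trans ?_
    rw [mul_add]
    apply add_le_add
    · have h1 := hB N
      have h2 : B * √N = B / √x * √(N * x) := by
        rw [Real.sqrt_mul (by positivity)]
        field_simp
      rw [h2] at h1
      calc _ ≤ B / √x * √(N * x) * ‖f (N * x)‖ := by
            apply mul_le_mul_of_nonneg_right h1 (norm_nonneg _)
        _ = _ := by ring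
    · apply le_of_eq
      rw [← integral_const_mul]
      congr 1
      ext y
      ring
  · intro n hn y hy
    refine (hB n).trans ?_
    have h1 : √n * √x ≤ √y := by
      rw [← Real.sqrt_mul (by positivity)]
      exact Real.sqrt_le_sqrt hy.1
    have h2 : √(n : ℝ) ≤ √y / √x := by
      rw [le_div_iff₀ hsx]
      exact h1
    calc B * √n ≤ B * (√y / √x) := mul_le_mul_of_nonneg_left h2 hB0
      _ = _ := by ring
  · have := hint.const_mul (B / √x)
    refine this.congr ?_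
    apply Filter.Eventually.of_forall
    intro y
    simp only
    ring

end Pool.Agent.Helper13.Mob
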