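import Mathlib

namespace Pool.Agent.Helper13.Mob

open Finset MeasureTheory Set Filter Topology

/-- real integrability -/
theorem int_rpow_exp {s ε : ℝ} (hs : -1 < s) (hε : 0 < ε) :
    IntegrableOn (fun t : ℝ => t ^ s * Real.exp (-ε * t)) (Set.Ioi 0) := by
  have := integrableOn_rpow_mul_exp_neg_mul_rpow (p := 1) (s := s) (b := ε) hs one_pos hε
  simpa using this

theorem norm_cpow_exp {a r : ℂ} {t : ℝ} (ht : 0 < t) :
    ‖(t : ℂ) ^ (a - 1) * Complex.exp (-(r * t))‖ = t ^ (a.re - 1) * Real.exp (-r.re * t) := by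
  rw [norm_mul, Complex.norm_cpow_eq_rpow_re_of_pos ht, Complex.norm_exp]
  simp

theorem cpow_exp_continuousOn (a r : ℂ) :
    ContinuousOn (fun t : ℝ => (t : ℂ) ^ (a - 1) * Complex.exp (-(r * t))) (Set.Ioi 0) := by
  apply ContinuousOn.mul
  · intro t ht
    apply ContinuousAt.continuousWithinAt
    apply ContinuousAt.comp (f := fun t : ℝ => (t : ℂ)) (g := fun z : ℂ => z ^ (a - 1))
    · apply continuousAt_cpow_const
      left
      simpa using ht
    · exact Complex.continuous_ofReal.continuousAt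
  · fun_prop

theorem int_cpow_exp {a r : ℂ} (ha : 0 < a.re) (hr : 0 < r.re) :
    IntegrableOn (fun t : ℝ => (t : ℂ) ^ (a - 1) * Complex.exp (-(r * t))) (Set.Ioi 0) := by
  have h1 := int_rpow_exp (s := a.re - 1) (ε := r.re) (by linarith) hr
  refine Integrable.mono' h1 ?_ ?_
  · exact (cpow_exp_continuousOn a r).aestronglyMeasurable measurableSet_Ioi
  · rw [ae_restrict_iff' measurableSet_Ioi]
    apply Filter.Eventually.of_forall
    intro t ht
    rw [norm_cpow_exp ht]

theorem cgamma_diff {a r : ℂ} (ha : 0 < a.re) (hr : 0 < r.re) :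
    DifferentiableAt ℂ (fun r : ℂ => ∫ t in Set.Ioi (0:ℝ), (t : ℂ) ^ (a - 1) * Complex.exp (-(r * t))) r := by
  have key := hasDerivAt_integral_of_dominated_loc_of_deriv_le
    (μ := volume.restrict (Set.Ioi (0:ℝ)))
    (F := fun (r : ℂ) (t : ℝ) => (t : ℂ) ^ (a - 1) * Complex.exp (-(r * t)))
    (F' := fun (r : ℂ) (t : ℝ) => (t : ℂ) ^ (a - 1) * (Complex.exp (-(r * t)) * (-t)))
    (bound := fun t => t ^ a.re * Real.exp (-(r.re / 2) * t))
    (x₀ := r) (s := Metric.ball r (r.re / 2)) (Metric.ball_mem_nhds _ (by positivity))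
    ?_ (int_cpow_exp ha hr) ?_ ?_ (int_rpow_exp (by linarith) (by positivity)) ?_
  · exact key.2.differentiableAt
  · apply Filter.Eventually.of_forall
    intro r'
    exact (cpow_exp_continuousOn a r').aestronglyMeasurable measurableSet_Ioi
  · apply ContinuousOn.aestronglyMeasurable _ measurableSet_Ioi
    have h0 : ContinuousOn (fun t : ℝ => (-t : ℂ)) (Set.Ioi 0) := by fun_prop
    have := (cpow_exp_continuousOn a r).mul h0
    refine this.congr ?_
    intro t ht
    simp only [Pi.mul_apply]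
    ring
  · rw [ae_restrict_iff' measurableSet_Ioi]
    apply Filter.Eventually.of_forall
    intro t ht r' hr'
    have ht' : (0:ℝ) < t := ht
    have h1 : (t : ℂ) ^ (a - 1) * (Complex.exp (-(r' * t)) * (-t)) =
      ((t : ℂ) ^ (a - 1) * Complex.exp (-(r' * t))) * (-t) := by ring
    rw [h1, norm_mul, norm_cpow_exp ht', norm_neg, Complex.norm_real, Real.norm_of_nonneg ht'.le]
    have h2 : t ^ (a.re - 1) * Real.exp (-r'.re * t) * t = t ^ a.re * Real.exp (-r'.re * t) := by
      rw [show a.re = (a.re - 1) + 1 by ring, Real.rpow_add ht', Real.rpow_one]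
      ring_nf
    rw [h2]
    apply mul_le_mul_of_nonneg_left _ (by positivity)
    apply Real.exp_le_exp.2
    have h3 : |(r' - r).re| ≤ ‖r' - r‖ := Complex.abs_re_le_norm _
    have h4 : ‖r' - r‖ < r.re / 2 := by simpa [dist_eq_norm] using hr'
    have h5 : |r'.re - r.re| < r.re / 2 := by
      rw [← Complex.sub_re]; linarith
    have h6 := (abs_lt.1 h5).1
    nlinarith
  · apply Filter.Eventually.of_forall
    intro t r' _
    have : HasDerivAt (fun r : ℂ => -(r * t)) (-(t:ℂ)) r' := by
      have h := ((hasDerivAt_id r').mul_const (t:ℂ)).neg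
      rw [one_mul] at h
      exact h
    exact (this.cexp).const_mul _

/-- Gamma integral with complex rate. -/
theorem cgamma {a r : ℂ} (ha : 0 < a.re) (hr : 0 < r.re) :
    ∫ t in Set.Ioi (0:ℝ), (t : ℂ) ^ (a - 1) * Complex.exp (-(r * t)) =
      r ^ (-a) * Complex.Gamma a := by
  set U : Set ℂ := {z | 0 < z.re} with hU
  have hUo : IsOpen U := isOpen_lt continuous_const Complex.continuous_re
  have hUc : IsPreconnected U := (convex_halfSpace_re_gt 0).isPreconnected
  have hf : AnalyticOnNhd ℂ (fun r : ℂ => ∫ t in Set.Ioi (0:ℝ),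
      (t : ℂ) ^ (a - 1) * Complex.exp (-(r * t))) U := by
    apply DifferentiableOn.analyticOnNhd _ hUo
    intro z hz
    exact (cgamma_diff ha hz).differentiableWithinAt
  have hg : AnalyticOnNhd ℂ (fun r : ℂ => r ^ (-a) * Complex.Gamma a) U := by
    apply DifferentiableOn.analyticOnNhd _ hUo
    intro z hz
    apply DifferentiableAt.differentiableWithinAt
    apply DifferentiableAt.mul_const
    apply DifferentiableAt.cpow_const differentiableAt_id
    left
    exact hz
  have h1 : (1:ℂ) ∈ U := by simp [hU]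
  have hfreq : ∃ᶠ z in 𝓝[≠] (1:ℂ), (fun r : ℂ => ∫ t in Set.Ioi (0:ℝ),
      (t : ℂ) ^ (a - 1) * Complex.exp (-(r * t))) z = (fun r : ℂ => r ^ (-a) * Complex.Gamma a) z := by
    have hreal : ∀ ρ : ℝ, 0 < ρ → (∫ t in Set.Ioi (0:ℝ),
      (t : ℂ) ^ (a - 1) * Complex.exp (-((ρ:ℂ) * t))) = (ρ : ℂ) ^ (-a) * Complex.Gamma a := by
      intro ρ hρ
      have := Complex.integral_cpow_mul_exp_neg_mul_Ioi ha hρ
      rw [this]
      congr 1
      rw [one_div, Complex.inv_cpow, Complex.cpow_neg]
      rw [Complex.arg_ofReal_of_nonneg hρ.le]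
      exact Real.pi_pos.ne
    have ht : Tendsto (fun n : ℕ => ((1 + 1 / ((n:ℝ) + 1) : ℝ) : ℂ)) atTop (𝓝[≠] (1:ℂ)) := by
      rw [tendsto_nhdsWithin_iff]
      constructor
      · have : Tendsto (fun n : ℕ => (1 + 1 / ((n:ℝ) + 1) : ℝ)) atTop (𝓝 (1 + 0)) :=
          tendsto_const_nhds.add tendsto_one_div_add_atTop_nhds_zero_nat
        rw [add_zero] at this
        have h2 := (Complex.continuous_ofReal.tendsto (1:ℝ)).comp this
        rw [Complex.ofReal_one] at h2
        exact h2
      · apply Filter.Eventually.of_forall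
        intro n
        have : (0:ℝ) < 1 / ((n:ℝ) + 1) := by positivity
        simp only [Set.mem_compl_iff, Set.mem_singleton_iff]
        intro h
        have h3 : ((1 + 1 / ((n:ℝ) + 1) : ℝ) : ℂ) = ((1:ℝ):ℂ) := by rw [h]; simp
        rw [Complex.ofReal_inj] at h3
        linarith
    apply ht.frequently
    apply Filter.Frequently.of_forall
    intro n
    exact hreal _ (by positivity)
  exact hf.eqOn_of_preconnected_of_frequently_eq hg hUc h1 hfreq hr

end Pool.Agent.Helper13.Mob
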