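import Pool.Agent.Helper13.MobB

namespace Pool.Agent.Helper13.Mob

open Finset MeasureTheory Set Filter Topology

/-- the kernel √t e^{-αt} -/
noncomputable def kk (α : ℂ) (t : ℝ) : ℂ := (√t : ℂ) * Complex.exp (-(α * t))

theorem kk_mellin_aux {α w : ℂ} {t : ℝ} (ht : 0 < t) :
    (t : ℂ) ^ (w - 1) • kk α t = (t : ℂ) ^ ((w + 1/2) - 1) * Complex.exp (-(α * t)) := by
  have h1 : (t : ℂ) ^ ((w + 1/2) - 1) = (t : ℂ) ^ (w - 1) * (√t : ℂ) := by
    rw [show (w + 1/2) - 1 = (w - 1) + (1/2 : ℂ) by ring, Complex.cpow_add _ _ (by exact_mod_cast ht.ne')]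
    congr 1
    rw [Real.sqrt_eq_rpow, Complex.ofReal_cpow ht.le]
    norm_num
  rw [h1, kk, smul_eq_mul]
  ring

theorem kk_mellin {α w : ℂ} (hα : 0 < α.re) (hw : -(1/2) < w.re) :
    MellinConvergent (kk α) w ∧
      mellin (kk α) w = α ^ (-(w + 1/2)) * Complex.Gamma (w + 1/2) := by
  have ha : 0 < (w + 1/2).re := by
    simp only [Complex.add_re, Complex.div_ofNat_re, Complex.one_re]
    linarith
  have hint := int_cpow_exp ha hα
  constructor
  · unfold MellinConvergent
    refine hint.congr_fun ?_ measurableSet_Ioi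
    intro t ht
    exact (kk_mellin_aux ht).symm
  · unfold mellin
    rw [← cgamma ha hα]
    apply setIntegral_congr_fun measurableSet_Ioi
    intro t ht
    exact kk_mellin_aux ht

theorem norm_exp_neg_sub_one_le {z : ℂ} (hz : 0 ≤ z.re) : ‖Complex.exp (-z) - 1‖ ≤ 2 * ‖z‖ := by
  rcases le_or_gt ‖z‖ 1 with h | h
  · have := Complex.norm_exp_sub_one_le (x := -z) (by simpa using h)
    simpa using this
  · have h1 : ‖Complex.exp (-z)‖ ≤ 1 := by
      rw [Complex.norm_exp]
      apply Real.exp_le_one_iff.2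
      simpa using hz
    calc ‖Complex.exp (-z) - 1‖ ≤ ‖Complex.exp (-z)‖ + ‖(1:ℂ)‖ := norm_sub_le _ _
      _ ≤ 1 + 1 := by simpa using h1
      _ ≤ 2 * ‖z‖ := by linarith

theorem norm_exp_neg_sub_one_le_two {z : ℂ} (hz : 0 ≤ z.re) : ‖Complex.exp (-z) - 1‖ ≤ 2 := by
  have h1 : ‖Complex.exp (-z)‖ ≤ 1 := by
    rw [Complex.norm_exp]
    apply Real.exp_le_one_iff.2
    simpa using hz
  calc ‖Complex.exp (-z) - 1‖ ≤ ‖Complex.exp (-z)‖ + ‖(1:ℂ)‖ := norm_sub_le _ _
    _ ≤ 1 + 1 := by simpa using h1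
    _ = 2 := by norm_num

theorem em_conv {l s : ℂ} (hl : 0 < l.re) (hs : -1 < s.re) (hs' : s.re < 0) :
    MellinConvergent (fun y : ℝ => Complex.exp (-(l * y)) - 1) s := by
  apply mellinConvergent_of_isBigO_rpow (a := 0) (b := -1)
  · apply ContinuousOn.locallyIntegrableOn _ measurableSet_Ioi
    fun_prop
  · apply Asymptotics.IsBigO.of_bound 2
    filter_upwards [eventually_gt_atTop (0:ℝ)] with y hy
    have := norm_exp_neg_sub_one_le_two (z := l * y) (by
      simp only [Complex.mul_re, Complex.ofReal_re, Complex.ofReal_im, mul_zero, sub_zero]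
      positivity)
    simpa using this
  · exact hs'
  · apply Asymptotics.IsBigO.of_bound (2 * ‖l‖)
    filter_upwards [self_mem_nhdsWithin] with y hy
    have hy' : (0:ℝ) < y := hy
    have := norm_exp_neg_sub_one_le (z := l * y) (by
      simp only [Complex.mul_re, Complex.ofReal_re, Complex.ofReal_im, mul_zero, sub_zero]
      positivity)
    simp only [neg_neg, Real.rpow_one]
    rw [norm_mul, Complex.norm_real] at this
    linarith
  · exact hs

theorem em_mellin {l s : ℂ} (hl : 0 < l.re) (hs : -1 < s.re) (hs' : s.re < 0) :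
    mellin (fun y : ℝ => Complex.exp (-(l * y)) - 1) s = l ^ (-s) * Complex.Gamma s := by
  have hs0 : s ≠ 0 := by
    intro h
    rw [h] at hs'
    simp at hs'
  have hs1 : 0 < (s + 1).re := by
    simp only [Complex.add_re, Complex.one_re]; linarith
  have hl0 : l ≠ 0 := by
    intro h
    rw [h] at hl
    simp at hl
  have hconv := em_conv hl hs hs'
  have hz : ∀ y : ℝ, 0 < y → 0 ≤ (l * y).re := by
    intro y hy
    simp only [Complex.mul_re, Complex.ofReal_re, Complex.ofReal_im, mul_zero, sub_zero]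
    positivity
  have key := integral_Ioi_mul_deriv_eq_deriv_mul (a := 0)
    (u := fun y : ℝ => Complex.exp (-(l * y)) - 1)
    (u' := fun y : ℝ => -l * Complex.exp (-(l * y)))
    (v := fun y : ℝ => (y : ℂ) ^ s / s) (v' := fun y : ℝ => (y : ℂ) ^ (s - 1))
    (a' := (0:ℂ)) (b' := (0:ℂ)) ?_ ?_ ?_ ?_ ?_ ?_
  · unfold mellin
    have e1 : ∫ t in Set.Ioi (0:ℝ), (t : ℂ) ^ (s - 1) • (Complex.exp (-(l * t)) - 1) =
        ∫ t in Set.Ioi (0:ℝ), (Complex.exp (-(l * t)) - 1) * (t : ℂ) ^ (s - 1) := by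
      congr 1
      ext t
      rw [smul_eq_mul, mul_comm]
    rw [e1, key]
    have e2 : ∫ t in Set.Ioi (0:ℝ), -l * Complex.exp (-(l * t)) * ((t : ℂ) ^ s / s) =
        (-(l / s)) * ∫ t in Set.Ioi (0:ℝ), (t : ℂ) ^ ((s + 1) - 1) * Complex.exp (-(l * t)) := by
      rw [← integral_const_mul]
      congr 1
      ext t
      rw [add_sub_cancel_right]
      ring
    rw [e2, cgamma hs1 hl, Complex.Gamma_add_one s hs0]
    rw [show -(s + 1) = -s - 1 by ring, Complex.cpow_sub _ _ hl0, Complex.cpow_one]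
    field_simp
    ring
  · intro y _
    have h1 : HasDerivAt (fun y : ℝ => -(l * (y:ℂ))) (-(l * 1)) y :=
      ((Complex.ofRealCLM.hasDerivAt (x := y)).const_mul l).neg
    have h2 := h1.cexp.sub_const 1
    have e : -l * Complex.exp (-(l * y)) = Complex.exp (-(l * (y:ℂ))) * (-(l * 1)) := by ring
    rw [e]
    exact h2
  · intro y hy
    have hy' : (0:ℝ) < y := hy
    have h := hasDerivAt_ofReal_cpow_const' (x := y) hy'.ne' (r := s - 1) (by
      intro h
      apply hs0
      have : s = (s - 1) + 1 := by ring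
      rw [this, h]
      ring)
    rw [sub_add_cancel] at h
    exact h
  · have : IntegrableOn (fun t : ℝ => (t : ℂ) ^ (s - 1) • (Complex.exp (-(l * t)) - 1)) (Set.Ioi 0) :=
      hconv
    refine this.congr_fun ?_ measurableSet_Ioi
    intro t _
    simp only [Pi.mul_apply, smul_eq_mul]
    ring
  · have : IntegrableOn (fun t : ℝ => (-(l / s)) * ((t : ℂ) ^ ((s + 1) - 1) * Complex.exp (-(l * t))))
        (Set.Ioi 0) := (int_cpow_exp hs1 hl).const_mul (-(l / s))
    refine this.congr_fun ?_ measurableSet_Ioi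
    intro t _
    simp only [Pi.mul_apply, add_sub_cancel_right]
    ring
  · -- limit at zero
    rw [tendsto_zero_iff_norm_tendsto_zero]
    have hlim : Tendsto (fun y : ℝ => 2 * ‖l‖ / ‖s‖ * y ^ (s.re + 1)) (𝓝[>] 0) (𝓝 0) := by
      have h1 : Tendsto (fun y : ℝ => y ^ (s.re + 1)) (𝓝[>] 0) (𝓝 0) := by
        have := (Real.continuousAt_rpow_const 0 (s.re + 1) (Or.inr (by linarith))).tendsto
        rw [Real.zero_rpow (by linarith)] at this
        exact this.mono_left nhdsWithin_le_nhds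
      simpa using h1.const_mul (2 * ‖l‖ / ‖s‖)
    apply squeeze_zero' (Filter.Eventually.of_forall (fun _ => norm_nonneg _)) _ hlim
    filter_upwards [self_mem_nhdsWithin] with y hy
    have hy' : (0:ℝ) < y := hy
    have h1 := norm_exp_neg_sub_one_le (hz y hy')
    simp only [Pi.mul_apply, norm_mul, norm_div, Complex.norm_cpow_eq_rpow_re_of_pos hy'] at h1 ⊢
    rw [Complex.norm_real, Real.norm_of_nonneg hy'.le] at h1
    rw [Real.rpow_add hy', Real.rpow_one]
    calc _ ≤ (2 * (‖l‖ * y)) * (y ^ s.re / ‖s‖) := by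
          apply mul_le_mul_of_nonneg_right h1 (by positivity)
      _ = _ := by ring
  · rw [tendsto_zero_iff_norm_tendsto_zero]
    have hlim : Tendsto (fun y : ℝ => 2 / ‖s‖ * y ^ (s.re)) atTop (𝓝 0) := by
      have h1 : Tendsto (fun y : ℝ => y ^ (-(-s.re))) atTop (𝓝 0) :=
        tendsto_rpow_neg_atTop (by linarith)
      rw [neg_neg] at h1
      simpa using h1.const_mul (2 / ‖s‖)
    apply squeeze_zero' (Filter.Eventually.of_forall (fun _ => norm_nonneg _)) _ hlim
    filter_upwards [eventually_gt_atTop (0:ℝ)] with y hy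
    have hy' : (0:ℝ) < y := hy
    have h1 := norm_exp_neg_sub_one_le_two (hz y hy')
    simp only [Pi.mul_apply, norm_mul, norm_div, Complex.norm_cpow_eq_rpow_re_of_pos hy'] at h1 ⊢
    calc _ ≤ 2 * (y ^ s.re / ‖s‖) := by
          apply mul_le_mul_of_nonneg_right h1 (by positivity)
      _ = _ := by ring

/-- with a square root argument -/
theorem es_mellin {l w : ℂ} (hl : 0 < l.re) (hs : -(1/2) < w.re) (hs' : w.re < 0) :
    MellinConvergent (fun x : ℝ => Complex.exp (-(l * √x)) - 1) w ∧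
    mellin (fun x : ℝ => Complex.exp (-(l * √x)) - 1) w = 2 * l ^ (-(2 * w)) * Complex.Gamma (2 * w) := by
  have h2 : (w / ((1/2 : ℝ) : ℂ)) = 2 * w := by
    push_cast; ring
  have hre : (2 * w).re = 2 * w.re := by simp
  have hA : -1 < (2 * w).re := by rw [hre]; linarith
  have hB : (2 * w).re < 0 := by rw [hre]; linarith
  have e : (fun x : ℝ => Complex.exp (-(l * √x)) - 1) =
      (fun x : ℝ => (fun y : ℝ => Complex.exp (-(l * y)) - 1) (x ^ (1/2 : ℝ))) := by
    ext x
    simp only [Real.sqrt_eq_rpow]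
  rw [e]
  constructor
  · rw [MellinConvergent.comp_rpow (f := fun y : ℝ => Complex.exp (-(l * y)) - 1)
      (a := (1/2 : ℝ)) (by norm_num), h2]
    exact em_conv hl hA hB
  · rw [mellin_comp_rpow (fun y : ℝ => Complex.exp (-(l * y)) - 1) w (1/2 : ℝ), h2,
      em_mellin hl hA hB]
    norm_num
    ring

end Pool.Agent.Helper13.Mob
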