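import Pool.Agent.Helper13.MobC

namespace Pool.Agent.Helper13.Mob

open Finset MeasureTheory Set Filter Topology

/-- admissible parameters -/
structure Adm (l : ℂ) (σ : ℝ) : Prop where
  sg : σ = 1 ∨ σ = -1
  lo : -(Real.pi / 2) < σ * l.im
  hi : σ * l.im < 0

noncomputable def nu (l : ℂ) : ℂ := Complex.exp l
noncomputable def nu' (l : ℂ) (σ : ℝ) : ℂ := Complex.exp (l + σ * Real.pi / 2 * Complex.I)
noncomputable def logal (l : ℂ) (σ : ℝ) : ℂ :=
  2 * l + σ * Real.pi / 2 * Complex.I - (Real.log (2 * Real.pi) : ℝ)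
noncomputable def al (l : ℂ) (σ : ℝ) : ℂ := Complex.exp (logal l σ)
noncomputable def ss (l : ℂ) (σ : ℝ) : ℂ := Complex.exp (logal l σ / 2)

theorem re_exp_pos {z : ℂ} (h1 : -(Real.pi / 2) < z.im) (h2 : z.im < Real.pi / 2) :
    0 < (Complex.exp z).re := by
  rw [Complex.exp_re]
  apply mul_pos (Real.exp_pos _)
  exact Real.cos_pos_of_mem_Ioo ⟨h1, h2⟩

theorem logal_im (l : ℂ) (σ : ℝ) : (logal l σ).im = 2 * l.im + σ * Real.pi / 2 := by
  simp [logal]

theorem logal_re (l : ℂ) (σ : ℝ) : (logal l σ).re = 2 * l.re - Real.log (2 * Real.pi) := by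
  simp [logal]

theorem Adm.nu_pos {l : ℂ} {σ : ℝ} (h : Adm l σ) : 0 < (nu l).re := by
  apply re_exp_pos
  · rcases h.sg with h1 | h1 <;> · have := h.lo; have := h.hi; rw [h1] at *; linarith [Real.pi_pos]
  · rcases h.sg with h1 | h1 <;> · have := h.lo; have := h.hi; rw [h1] at *; linarith [Real.pi_pos]

theorem Adm.nu'_pos {l : ℂ} {σ : ℝ} (h : Adm l σ) : 0 < (nu' l σ).re := by
  apply re_exp_pos
  · simp only [Complex.add_im, Complex.mul_im, Complex.div_ofNat_re, Complex.mul_re,
      Complex.ofReal_re, Complex.ofReal_im, mul_zero, sub_zero, Complex.I_im, mul_one,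
      Complex.div_ofNat_im, zero_mul, add_zero, zero_div, Complex.I_re]
    rcases h.sg with h1 | h1 <;> · have := h.lo; have := h.hi; rw [h1] at *; linarith [Real.pi_pos]
  · simp only [Complex.add_im, Complex.mul_im, Complex.div_ofNat_re, Complex.mul_re,
      Complex.ofReal_re, Complex.ofReal_im, mul_zero, sub_zero, Complex.I_im, mul_one,
      Complex.div_ofNat_im, zero_mul, add_zero, zero_div, Complex.I_re]
    rcases h.sg with h1 | h1 <;> · have := h.lo; have := h.hi; rw [h1] at *; linarith [Real.pi_pos]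

theorem Adm.logal_im_mem {l : ℂ} {σ : ℝ} (h : Adm l σ) :
    -(Real.pi / 2) < (logal l σ).im ∧ (logal l σ).im < Real.pi / 2 := by
  rw [logal_im]
  rcases h.sg with h1 | h1 <;> · have := h.lo; have := h.hi; rw [h1] at *; constructor <;> linarith [Real.pi_pos]

theorem Adm.al_pos {l : ℂ} {σ : ℝ} (h : Adm l σ) : 0 < (al l σ).re :=
  re_exp_pos h.logal_im_mem.1 h.logal_im_mem.2

theorem Adm.log_al {l : ℂ} {σ : ℝ} (h : Adm l σ) : Complex.log (al l σ) = logal l σ := by
  unfold al
  apply Complex.log_exp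
  · linarith [h.logal_im_mem.1, Real.pi_pos]
  · linarith [h.logal_im_mem.2, Real.pi_pos]

theorem al_ne {l : ℂ} {σ : ℝ} : al l σ ≠ 0 := Complex.exp_ne_zero _

theorem Adm.al_cpow {l : ℂ} {σ : ℝ} (h : Adm l σ) (w : ℂ) :
    (al l σ) ^ w = Complex.exp (logal l σ * w) := by
  rw [Complex.cpow_def_of_ne_zero al_ne, h.log_al]

/-- the dual kernel minus its value at zero -/
noncomputable def hh (l : ℂ) (σ : ℝ) (x : ℝ) : ℂ :=
  (Complex.exp (-(2 * nu l * √x)) - 1) + (Complex.exp (-(2 * nu' l σ * √x)) - 1)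

theorem two_exp (z : ℂ) : 2 * Complex.exp z = Complex.exp ((Real.log 2 : ℝ) + z) := by
  rw [Complex.exp_add, ← Complex.ofReal_exp, Real.exp_log (by norm_num)]
  norm_num

theorem two_exp_cpow {z w : ℂ} (h1 : -Real.pi < z.im) (h2 : z.im ≤ Real.pi) :
    (2 * Complex.exp z) ^ w = Complex.exp (((Real.log 2 : ℝ) + z) * w) := by
  rw [two_exp, Complex.cpow_def_of_ne_zero (Complex.exp_ne_zero _), Complex.log_exp]
  · rw [Complex.add_im, Complex.ofReal_im, zero_add]; exact h1
  · rw [Complex.add_im, Complex.ofReal_im, zero_add]; exact h2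

theorem Adm.hh_mellin {l : ℂ} {σ : ℝ} (h : Adm l σ) {w : ℂ} (hs : -(1/2) < w.re) (hs' : w.re < 0) :
    MellinConvergent (hh l σ) w ∧
    mellin (hh l σ) w = 4 * Complex.Gamma (2 * w) * Complex.cos (Real.pi * w / 2) *
      Complex.exp (-w * (logal l σ + (Real.log (8 * Real.pi) : ℝ))) := by
  have h2nu : 0 < (2 * nu l).re := by
    have := h.nu_pos
    simpa using this
  have h2nu' : 0 < (2 * nu' l σ).re := by
    have := h.nu'_pos
    simpa using this
  obtain ⟨c1, m1⟩ := es_mellin h2nu hs hs'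
  obtain ⟨c2, m2⟩ := es_mellin h2nu' hs hs'
  obtain ⟨c3, m3⟩ := hasMellin_add c1 c2
  refine ⟨c3, ?_⟩
  have e0 : mellin (hh l σ) w = mellin (fun t : ℝ => (Complex.exp (-(2 * nu l * √t)) - 1) +
    (Complex.exp (-(2 * nu' l σ * √t)) - 1)) w := rfl
  rw [e0, m3, m1, m2]
  have hlog : Real.log (8 * Real.pi) = 2 * Real.log 2 + Real.log (2 * Real.pi) := by
    rw [Real.log_mul (by norm_num) Real.pi_pos.ne', Real.log_mul (by norm_num) Real.pi_pos.ne',
      show (8:ℝ) = 2 ^ 3 by norm_num, Real.log_pow]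
    push_cast
    ring
  have him : (l + σ * Real.pi / 2 * Complex.I).im = l.im + σ * Real.pi / 2 := by simp
  have e1 : (2 * nu l) ^ (-(2 * w)) = Complex.exp (-w * (logal l σ + (Real.log (8 * Real.pi) : ℝ))) *
      Complex.exp (σ * (Real.pi * w / 2) * Complex.I) := by
    unfold nu
    rw [two_exp_cpow, ← Complex.exp_add, hlog]
    · congr 1
      unfold logal
      push_cast
      ring
    · rcases h.sg with h1 | h1 <;> · have := h.lo; have := h.hi; rw [h1] at *; linarith [Real.pi_pos]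
    · rcases h.sg with h1 | h1 <;> · have := h.lo; have := h.hi; rw [h1] at *; linarith [Real.pi_pos]
  have e2 : (2 * nu' l σ) ^ (-(2 * w)) = Complex.exp (-w * (logal l σ + (Real.log (8 * Real.pi) : ℝ))) *
      Complex.exp (-(σ * (Real.pi * w / 2)) * Complex.I) := by
    unfold nu'
    rw [two_exp_cpow, ← Complex.exp_add, hlog]
    · congr 1
      unfold logal
      push_cast
      ring
    · rw [him]
      rcases h.sg with h1 | h1 <;> · have := h.lo; have := h.hi; rw [h1] at *; linarith [Real.pi_pos]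
    · rw [him]
      rcases h.sg with h1 | h1 <;> · have := h.lo; have := h.hi; rw [h1] at *; linarith [Real.pi_pos]
  have e3 : Complex.exp (σ * (Real.pi * w / 2) * Complex.I) + Complex.exp (-(σ * (Real.pi * w / 2)) * Complex.I)
      = 2 * Complex.cos (Real.pi * w / 2) := by
    have : Complex.cos (σ * (Real.pi * w / 2)) = Complex.cos (Real.pi * w / 2) := by
      rcases h.sg with h1 | h1
      · rw [h1]; simp
      · rw [h1]
        rw [show ((-1 : ℝ) : ℂ) * (Real.pi * w / 2) = -(Real.pi * w / 2) by push_cast; ring,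
          Complex.cos_neg]
    rw [← this, Complex.two_cos]
  rw [e1, e2]
  calc _ = 2 * Complex.Gamma (2 * w) * Complex.exp (-w * (logal l σ + (Real.log (8 * Real.pi) : ℝ))) *
        (Complex.exp (σ * (Real.pi * w / 2) * Complex.I) +
          Complex.exp (-(σ * (Real.pi * w / 2)) * Complex.I)) := by ring
    _ = _ := by rw [e3]; ring

/-- the functional equation of the kernels -/
theorem Adm.fe {l : ℂ} {σ : ℝ} (h : Adm l σ) {w : ℂ} (hs : -(1/2) < w.re) (hs' : w.re < 0) :
    (√Real.pi : ℂ) * mellin (hh l σ) w = (ss l σ * mellin (kk (al l σ)) w) *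
      (2 * (2 * Real.pi : ℂ) ^ (-w) * Complex.Gamma w * Complex.cos (Real.pi * w / 2)) := by
  rw [(h.hh_mellin hs hs').2, (kk_mellin h.al_pos hs).2, h.al_cpow]
  have dup := Complex.Gamma_mul_Gamma_add_half w
  have e1 : ss l σ * Complex.exp (logal l σ * -(w + 1/2)) = Complex.exp (-w * logal l σ) := by
    unfold ss
    rw [← Complex.exp_add]
    congr 1
    ring
  have e2 : Complex.exp (-w * (logal l σ + (Real.log (8 * Real.pi) : ℝ))) =
      Complex.exp (-w * logal l σ) * Complex.exp (-w * (Real.log (8 * Real.pi) : ℝ)) := by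
    rw [← Complex.exp_add]
    congr 1
    ring
  have e3 : (2 * Real.pi : ℂ) ^ (-w) = Complex.exp (-w * (Real.log (2 * Real.pi) : ℝ)) := by
    rw [Complex.cpow_def_of_ne_zero]
    · congr 1
      rw [show (2 * Real.pi : ℂ) = ((2 * Real.pi : ℝ) : ℂ) by push_cast; ring,
        ← Complex.ofReal_log (by positivity)]
      ring
    · norm_cast
      positivity
  have e4 : (2 : ℂ) ^ (1 - 2 * w) = 2 * Complex.exp (-w * ((2 * Real.log 2 : ℝ) : ℂ)) := by
    rw [Complex.cpow_sub _ _ (by norm_num), Complex.cpow_one, Complex.cpow_def_of_ne_zero (by norm_num),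
      show (2 : ℂ) = ((2:ℝ) : ℂ) by norm_num, ← Complex.ofReal_log (by norm_num), div_eq_mul_inv,
      ← Complex.exp_neg]
    congr 2
    push_cast
    ring
  have hlog : Real.log (8 * Real.pi) = 2 * Real.log 2 + Real.log (2 * Real.pi) := by
    rw [Real.log_mul (by norm_num) Real.pi_pos.ne', Real.log_mul (by norm_num) Real.pi_pos.ne',
      show (8:ℝ) = 2 ^ 3 by norm_num, Real.log_pow]
    push_cast
    ring
  have e5 : Complex.exp (-w * (Real.log (8 * Real.pi) : ℝ)) =
      Complex.exp (-w * ((2 * Real.log 2 : ℝ) : ℂ)) * Complex.exp (-w * (Real.log (2 * Real.pi) : ℝ)) := by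
    rw [← Complex.exp_add, hlog]
    congr 1
    push_cast
    ring
  rw [e4] at dup
  rw [e2, e3, e5]
  calc _ = 2 * Complex.cos (Real.pi * w / 2) * Complex.exp (-w * logal l σ) *
        Complex.exp (-w * (Real.log (2 * Real.pi) : ℝ)) *
        (Complex.Gamma (2 * w) * (2 * Complex.exp (-w * ((2 * Real.log 2 : ℝ) : ℂ))) * (√Real.pi : ℂ)) := by
        ring
    _ = 2 * Complex.cos (Real.pi * w / 2) * Complex.exp (-w * logal l σ) *
        Complex.exp (-w * (Real.log (2 * Real.pi) : ℝ)) *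
        (Complex.Gamma w * Complex.Gamma (w + 1 / 2)) := by rw [dup]
    _ = (ss l σ * Complex.exp (logal l σ * -(w + 1/2))) * Complex.Gamma (w + 1/2) *
        (2 * Complex.exp (-w * (Real.log (2 * Real.pi) : ℝ)) * Complex.Gamma w *
          Complex.cos (Real.pi * w / 2)) := by rw [e1]; ring
    _ = _ := by ring

end Pool.Agent.Helper13.Mob
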