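import Pool.Agent.Helper13.MobD

namespace Pool.Agent.Helper13.Mob

open Finset MeasureTheory Set Filter Topology

/-- the Möbius function, complex valued -/
noncomputable def mu (n : ℕ) : ℂ := ((ArithmeticFunction.moebius n : ℤ) : ℂ)

theorem norm_mu_le (n : ℕ) : ‖mu n‖ ≤ 1 := by
  unfold mu
  rw [Complex.norm_intCast]
  exact_mod_cast ArithmeticFunction.abs_moebius_le_one

@[simp] theorem mu_zero : mu 0 = 0 := by simp [mu]

/-- Mellin transform of a sum of dilates -/
theorem mellin_tsum (c : ℕ → ℂ) (p : ℕ → ℝ) (hp : ∀ n, c n = 0 ∨ 0 < p n) (k : ℝ → ℂ) (w : ℂ)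
    (hk : MellinConvergent k w) (hs : Summable fun n => ‖c n‖ * (p n) ^ (-w.re)) :
    mellin (fun x => ∑' n, c n * k (p n * x)) w = (∑' n, c n * (p n : ℂ) ^ (-w)) * mellin k w := by
  have hterm : ∀ n, MellinConvergent (fun x => c n * k (p n * x)) w ∧
      mellin (fun x => c n * k (p n * x)) w = c n * (p n : ℂ) ^ (-w) * mellin k w ∧
      ∫ x in Set.Ioi (0:ℝ), ‖(x : ℂ) ^ (w - 1) • (c n * k (p n * x))‖ =
        (‖c n‖ * (p n) ^ (-w.re)) * ∫ x in Set.Ioi (0:ℝ), ‖(x : ℂ) ^ (w - 1) • (k x)‖ := by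
    intro n
    rcases hp n with h0 | h0
    · refine ⟨?_, ?_, ?_⟩
      · simp only [h0, zero_mul]
        unfold MellinConvergent
        simp only [smul_zero]
        exact integrableOn_zero
      · simp [h0, mellin]
      · simp [h0]
    · refine ⟨?_, ?_, ?_⟩
      · have := (MellinConvergent.comp_mul_left (f := k) (s := w) h0).2 hk
        exact this.const_smul (c n)
      · have h1 := mellin_const_smul (fun x => k (p n * x)) w (c n)
        have h2 := mellin_comp_mul_left k w h0
        simp only [smul_eq_mul] at h1 h2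
        rw [h1, h2]
        ring
      · have h3 := integral_comp_mul_left_Ioi
          (fun x : ℝ => ‖(x : ℂ) ^ (w - 1) • (k x)‖) 0 h0
        rw [mul_zero] at h3
        have h4 : ∫ x in Set.Ioi (0:ℝ), ‖(x : ℂ) ^ (w - 1) • (c n * k (p n * x))‖ =
            ∫ x in Set.Ioi (0:ℝ), (‖c n‖ * (p n) ^ (-(w.re - 1))) *
              ‖((p n * x : ℝ) : ℂ) ^ (w - 1) • (k (p n * x))‖ := by
          apply setIntegral_congr_fun measurableSet_Ioi
          intro x hx
          have hx' : (0:ℝ) < x := hx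
          simp only [norm_smul, norm_mul]
          rw [Complex.norm_cpow_eq_rpow_re_of_pos hx',
            Complex.norm_cpow_eq_rpow_re_of_pos (by positivity)]
          simp only [Complex.sub_re, Complex.one_re]
          rw [Real.mul_rpow h0.le hx'.le, Real.rpow_neg h0.le]
          have := (Real.rpow_pos_of_pos h0 (w.re - 1)).ne'
          field_simp
        rw [h4, integral_const_mul, h3, smul_eq_mul]
        have h5 : p n ^ (-(w.re - 1)) * (p n)⁻¹ = p n ^ (-w.re) := by
          rw [← Real.rpow_neg_one, ← Real.rpow_add h0]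
          congr 1
          ring
        calc _ = ‖c n‖ * (p n ^ (-(w.re - 1)) * (p n)⁻¹) *
              ∫ (x : ℝ) in Set.Ioi 0, ‖(x : ℂ) ^ (w - 1) • k x‖ := by ring
          _ = _ := by rw [h5]
  have hsum : Summable fun n => ∫ x in Set.Ioi (0:ℝ), ‖(x : ℂ) ^ (w - 1) • (c n * k (p n * x))‖ := by
    have : (fun n => ∫ x in Set.Ioi (0:ℝ), ‖(x : ℂ) ^ (w - 1) • (c n * k (p n * x))‖) =
        fun n => (‖c n‖ * (p n) ^ (-w.re)) * ∫ x in Set.Ioi (0:ℝ), ‖(x : ℂ) ^ (w - 1) • (k x)‖ := by
      ext n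
      exact (hterm n).2.2
    rw [this]
    exact hs.mul_right _
  have key := hasSum_integral_of_summable_integral_norm (μ := volume.restrict (Set.Ioi (0:ℝ)))
    (F := fun n (x : ℝ) => (x : ℂ) ^ (w - 1) • (c n * k (p n * x))) (fun n => (hterm n).1) hsum
  have e1 : mellin (fun x => ∑' n, c n * k (p n * x)) w =
      ∫ x in Set.Ioi (0:ℝ), ∑' n, (x : ℂ) ^ (w - 1) • (c n * k (p n * x)) := by
    unfold mellin
    congr 1
    ext x
    simp only [smul_eq_mul]
    rw [tsum_mul_left]
  rw [e1, ← key.tsum_eq, ← tsum_mul_right]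
  congr 1
  ext n
  exact (hterm n).2.1

theorem tsum_mu {w : ℂ} (hw : 1 < w.re) :
    riemannZeta w * ∑' n : ℕ, mu n * (n : ℂ) ^ (-w) = 1 := by
  have h1 := LSeries_one_mul_Lseries_moebius hw
  rw [LSeries_one_eq_riemannZeta hw] at h1
  rw [← h1]
  congr 1
  unfold LSeries
  congr 1
  ext n
  rcases Nat.eq_zero_or_pos n with h0 | h0
  · subst h0; simp [LSeries.term]
  · rw [LSeries.term_of_ne_zero h0.ne', Complex.cpow_neg, div_eq_mul_inv]
    rfl

theorem summable_mu_rpow {s : ℝ} (hs : 1 < s) : Summable fun n : ℕ => ‖mu n‖ * (n : ℝ) ^ (-s) := by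
  have h1 : Summable fun n : ℕ => (n : ℝ) ^ (-s) := Real.summable_nat_rpow.2 (by linarith)
  apply Summable.of_nonneg_of_le (fun n => by positivity) _ h1
  intro n
  have := norm_mu_le n
  have h2 : 0 ≤ (n : ℝ) ^ (-s) := by positivity
  nlinarith

/-- kernels with exponential decay -/
structure KDec (k : ℝ → ℂ) (C δ : ℝ) : Prop where
  cont : ContinuousOn k (Set.Ioi 0)
  hδ : 0 < δ
  hC : 0 ≤ C
  bd : ∀ t, 0 < t → ‖k t‖ ≤ C * Real.exp (-δ * t)

noncomputable def asum (k : ℝ → ℂ) (x : ℝ) : ℂ := ∑' n : ℕ, mu n * k (n * x)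

theorem KDec.term_bd {k : ℝ → ℂ} {C δ : ℝ} (h : KDec k C δ) {x y : ℝ} (hx : 0 < x) (hxy : x ≤ y) (n : ℕ) :
    ‖mu n * k (n * y)‖ ≤ C * (Real.exp (-δ * x)) ^ n := by
  rcases Nat.eq_zero_or_pos n with h0 | h0
  · subst h0
    simpa using h.hC
  · have hn : (0:ℝ) < n := by exact_mod_cast h0
    rw [norm_mul]
    have hy : 0 < y := by linarith
    have h1 := h.bd (n * y) (by positivity)
    have h2 : Real.exp (-δ * (n * y)) ≤ Real.exp (-δ * x) ^ n := by
      rw [← Real.exp_nat_mul]
      apply Real.exp_le_exp.2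
      have : n * x ≤ n * y := by nlinarith
      nlinarith [h.hδ]
    calc ‖mu n‖ * ‖k (n * y)‖ ≤ 1 * (C * Real.exp (-δ * (n * y))) :=
          mul_le_mul (norm_mu_le n) h1 (norm_nonneg _) zero_le_one
      _ ≤ _ := by
          rw [one_mul]
          exact mul_le_mul_of_nonneg_left h2 h.hC

theorem KDec.geo {k : ℝ → ℂ} {C δ : ℝ} (h : KDec k C δ) {x : ℝ} (hx : 0 < x) :
    Summable fun n : ℕ => C * (Real.exp (-δ * x)) ^ n := by
  apply Summable.mul_left
  apply summable_geometric_of_lt_one (Real.exp_pos _).le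
  apply Real.exp_lt_one_iff.2
  nlinarith [h.hδ]

theorem KDec.summable {k : ℝ → ℂ} {C δ : ℝ} (h : KDec k C δ) {x : ℝ} (hx : 0 < x) :
    Summable fun n : ℕ => mu n * k (n * x) :=
  Summable.of_norm_bounded (h.geo hx) (fun n => h.term_bd hx le_rfl n)

theorem KDec.continuousOn {k : ℝ → ℂ} {C δ : ℝ} (h : KDec k C δ) :
    ContinuousOn (asum k) (Set.Ioi 0) := by
  intro x hx
  have hx' : (0:ℝ) < x := hx
  apply ContinuousAt.continuousWithinAt
  have h1 : ContinuousOn (asum k) (Set.Ioi (x / 2)) := by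
    unfold asum
    apply continuousOn_tsum (u := fun n : ℕ => C * (Real.exp (-δ * (x/2))) ^ n)
    · intro n
      rcases Nat.eq_zero_or_pos n with h0 | h0
      · subst h0
        simp only [mu_zero, zero_mul]
        exact continuousOn_const
      · apply continuousOn_const.mul
        apply h.cont.comp (by fun_prop)
        intro y hy
        have hy' : x / 2 < y := hy
        have hn : (0:ℝ) < n := by exact_mod_cast h0
        have : (0:ℝ) < y := by linarith
        show (0:ℝ) < n * y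
        positivity
    · exact h.geo (by positivity)
    · intro n y hy
      exact h.term_bd (by positivity) (le_of_lt hy) n
  exact h1.continuousAt (Ioi_mem_nhds (by linarith))

theorem KDec.bound_top {k : ℝ → ℂ} {C δ : ℝ} (h : KDec k C δ) {x : ℝ} (hx : 1 ≤ x) :
    ‖asum k x‖ ≤ (C / (1 - Real.exp (-δ))) * Real.exp (-δ * x) := by
  have hx0 : 0 < x := by linarith
  have hq : Real.exp (-δ * x) < 1 := by
    apply Real.exp_lt_one_iff.2
    nlinarith [h.hδ]
  have hq1 : Real.exp (-δ * x) ≤ Real.exp (-δ) := by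
    apply Real.exp_le_exp.2
    nlinarith [h.hδ]
  have hq2 : Real.exp (-δ) < 1 := by
    apply Real.exp_lt_one_iff.2
    linarith [h.hδ]
  have h1 : ∀ n : ℕ, ‖mu n * k (n * x)‖ ≤ C * Real.exp (-δ * x) * (Real.exp (-δ)) ^ (n - 1) := by
    intro n
    rcases Nat.eq_zero_or_pos n with h0 | h0
    · subst h0
      simp only [mu_zero, zero_mul, norm_zero]
      have := h.hC
      positivity
    · refine (h.term_bd hx0 le_rfl n).trans ?_
      have : Real.exp (-δ * x) ^ n = Real.exp (-δ * x) * Real.exp (-δ * x) ^ (n - 1) := by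
        rw [← pow_succ', Nat.sub_add_cancel h0]
      rw [this, mul_assoc]
      apply mul_le_mul_of_nonneg_left _ h.hC
      apply mul_le_mul_of_nonneg_left _ (Real.exp_pos _).le
      exact pow_le_pow_left₀ (Real.exp_pos _).le hq1 _
  have hz : mu 0 * k ((0:ℕ) * x) = 0 := by simp
  have h2 : asum k x = ∑' n : ℕ, mu (n + 1) * k ((n + 1 : ℕ) * x) := by
    unfold asum
    rw [(h.summable hx0).tsum_eq_zero_add, hz, zero_add]
  rw [h2]
  have hs : Summable fun n : ℕ => C * Real.exp (-δ * x) * (Real.exp (-δ)) ^ n :=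
    (summable_geometric_of_lt_one (Real.exp_pos _).le hq2).mul_left _
  have h3 := tsum_of_norm_bounded (f := fun n : ℕ => mu (n + 1) * k ((n + 1 : ℕ) * x)) hs.hasSum
    (fun n => by simpa using h1 (n + 1))
  refine h3.trans (le_of_eq ?_)
  rw [tsum_mul_left, tsum_geometric_of_lt_one (Real.exp_pos _).le hq2]
  ring

theorem KDec.isBigO_top {k : ℝ → ℂ} {C δ : ℝ} (h : KDec k C δ) :
    asum k =O[atTop] fun t => Real.exp (-δ * t) := by
  apply Asymptotics.IsBigO.of_bound (C / (1 - Real.exp (-δ)))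
  filter_upwards [eventually_ge_atTop (1:ℝ)] with x hx
  rw [Real.norm_of_nonneg (Real.exp_pos _).le]
  exact h.bound_top hx

theorem KDec.mellin_gt {k : ℝ → ℂ} {C δ : ℝ} (_h : KDec k C δ) {w : ℂ} (hw : 1 < w.re)
    (hk : MellinConvergent k w) :
    riemannZeta w * mellin (asum k) w = mellin k w := by
  have h1 := mellin_tsum mu (fun n => (n : ℝ)) (fun n => by
    rcases Nat.eq_zero_or_pos n with h0 | h0
    · left; subst h0; simp
    · right; exact_mod_cast h0) k w hk (summable_mu_rpow hw)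
  have h2 : mellin (asum k) w = (∑' n : ℕ, mu n * (n : ℂ) ^ (-w)) * mellin k w := by
    exact h1
  rw [h2, ← mul_assoc, tsum_mu hw, one_mul]

end Pool.Agent.Helper13.Mob
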