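import Pool.Agent.Helper13.MobE
import Pool.Agent.Helper13.MobA

namespace Pool.Agent.Helper13.Mob

open Finset MeasureTheory Set Filter Topology

noncomputable def kk' (α : ℂ) (y : ℝ) : ℂ :=
  ((1 / (2 * √y) : ℝ) - α * (√y : ℝ)) * Complex.exp (-(α * y))

theorem kk_hasDeriv (α : ℂ) {y : ℝ} (hy : 0 < y) : HasDerivAt (kk α) (kk' α y) y := by
  have h1 : HasDerivAt (fun y : ℝ => ((√y : ℝ) : ℂ)) ((1 / (2 * √y) : ℝ) : ℂ) y :=
    (Real.hasDerivAt_sqrt hy.ne').ofReal_comp
  have h2 : HasDerivAt (fun y : ℝ => -(α * (y:ℂ))) (-(α * 1)) y :=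
    ((Complex.ofRealCLM.hasDerivAt (x := y)).const_mul α).neg
  have h3 := h1.mul h2.cexp
  have e : kk' α y = ((1 / (2 * √y) : ℝ) : ℂ) * Complex.exp (-(α * y)) +
    (√y : ℝ) * (Complex.exp (-(α * y)) * -(α * 1)) := by
    unfold kk'
    ring
  rw [e]
  exact h3

theorem kk'_continuousOn (α : ℂ) : ContinuousOn (kk' α) (Set.Ioi 0) := by
  unfold kk'
  apply ContinuousOn.mul _ (by fun_prop)
  apply ContinuousOn.sub
  · apply Complex.continuous_ofReal.comp_continuousOn
    apply ContinuousOn.div continuousOn_const (by fun_prop)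
    intro y hy
    have : (0:ℝ) < √y := Real.sqrt_pos.2 hy
    positivity
  · fun_prop

theorem kk'_bound (α : ℂ) {y : ℝ} (hy : 0 < y) :
    √y * ‖kk' α y‖ ≤ (1/2) * Real.exp (-α.re * y) + ‖α‖ * (y * Real.exp (-α.re * y)) := by
  have hs : 0 < √y := Real.sqrt_pos.2 hy
  have hss : √y * √y = y := Real.mul_self_sqrt hy.le
  unfold kk'
  rw [norm_mul, Complex.norm_exp]
  have h1 : (-(α * y)).re = -α.re * y := by simp
  rw [h1]
  have h2 : ‖(((1 / (2 * √y) : ℝ) : ℂ) - α * (√y : ℝ))‖ ≤ 1 / (2 * √y) + ‖α‖ * √y := by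
    refine (norm_sub_le _ _).trans ?_
    rw [norm_mul, Complex.norm_real, Complex.norm_real, Real.norm_of_nonneg (by positivity),
      Real.norm_of_nonneg hs.le]
  calc √y * (‖(((1 / (2 * √y) : ℝ) : ℂ) - α * (√y : ℝ))‖ * Real.exp (-α.re * y))
      ≤ √y * ((1 / (2 * √y) + ‖α‖ * √y) * Real.exp (-α.re * y)) := by
        apply mul_le_mul_of_nonneg_left _ hs.le
        exact mul_le_mul_of_nonneg_right h2 (Real.exp_pos _).le
    _ = (1/2) * Real.exp (-α.re * y) + ‖α‖ * ((√y * √y) * Real.exp (-α.re * y)) := by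
        field_simp
    _ = _ := by rw [hss]

theorem int_exp {ε : ℝ} (hε : 0 < ε) : IntegrableOn (fun y : ℝ => Real.exp (-ε * y)) (Set.Ioi 0) ∧
    ∫ y in Set.Ioi (0:ℝ), Real.exp (-ε * y) = 1 / ε := by
  constructor
  · have := int_rpow_exp (s := 0) (ε := ε) (by norm_num) hε
    simpa using this
  · have := integral_exp_neg_mul_rpow (p := 1) (b := ε) one_pos hε
    simp only [Real.rpow_one] at this
    rw [this]
    rw [show (1:ℝ) / 1 + 1 = 2 by norm_num, Real.Gamma_two, show (-1:ℝ)/1 = -1 by norm_num,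
      Real.rpow_neg_one]
    simp

theorem int_y_exp {ε : ℝ} (hε : 0 < ε) :
    IntegrableOn (fun y : ℝ => y * Real.exp (-ε * y)) (Set.Ioi 0) ∧
    ∫ y in Set.Ioi (0:ℝ), y * Real.exp (-ε * y) = 1 / ε ^ 2 := by
  constructor
  · have := int_rpow_exp (s := 1) (ε := ε) (by norm_num) hε
    simpa using this
  · have := integral_rpow_mul_exp_neg_mul_rpow (p := 1) (q := 1) (b := ε) one_pos (by norm_num) hε
    simp only [Real.rpow_one] at this
    rw [this]
    have h2 : Real.Gamma ((1 + 1) / 1) = 1 := by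
      norm_num [Real.Gamma_two]
    rw [h2]
    norm_num

theorem kk'_int {α : ℂ} (hα : 0 < α.re) :
    IntegrableOn (fun y => √y * ‖kk' α y‖) (Set.Ioi 0) ∧
    ∫ y in Set.Ioi 0, √y * ‖kk' α y‖ ≤ 1 / (2 * α.re) + ‖α‖ / α.re ^ 2 := by
  have hmaj : IntegrableOn (fun y : ℝ => (1/2) * Real.exp (-α.re * y) +
      ‖α‖ * (y * Real.exp (-α.re * y))) (Set.Ioi 0) :=
    ((int_exp hα).1.const_mul _).add ((int_y_exp hα).1.const_mul _)
  have hint : IntegrableOn (fun y => √y * ‖kk' α y‖) (Set.Ioi 0) := by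
    refine Integrable.mono' hmaj ?_ ?_
    · apply ContinuousOn.aestronglyMeasurable _ measurableSet_Ioi
      exact (Real.continuous_sqrt.continuousOn).mul (kk'_continuousOn α).norm
    · rw [ae_restrict_iff' measurableSet_Ioi]
      apply Filter.Eventually.of_forall
      intro y hy
      rw [Real.norm_of_nonneg (by positivity)]
      exact kk'_bound α hy
  refine ⟨hint, ?_⟩
  calc ∫ y in Set.Ioi 0, √y * ‖kk' α y‖ ≤ ∫ y in Set.Ioi (0:ℝ), ((1/2) * Real.exp (-α.re * y) +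
      ‖α‖ * (y * Real.exp (-α.re * y))) := by
        apply setIntegral_mono_on hint hmaj measurableSet_Ioi
        intro y hy
        exact kk'_bound α hy
    _ = 1 / (2 * α.re) + ‖α‖ / α.re ^ 2 := by
        rw [integral_add ((int_exp hα).1.const_mul _) ((int_y_exp hα).1.const_mul _),
          integral_const_mul, integral_const_mul, (int_exp hα).2, (int_y_exp hα).2]
        ring

theorem one_add_le_exp {δ t : ℝ} (hδ : 0 < δ) (ht : 0 ≤ t) : 1 + t ≤ (1 + 1/δ) * Real.exp (δ * t) := by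
  have h1 : δ * t + 1 ≤ Real.exp (δ * t) := Real.add_one_le_exp _
  have h2 : 0 ≤ 1 + 1/δ := by positivity
  calc 1 + t ≤ (1 + 1/δ) * (δ * t + 1) := by
        have : (1 + 1/δ) * (δ * t + 1) = 1 + t + δ * t + 1/δ := by field_simp; ring
        rw [this]
        have : 0 ≤ δ * t := by positivity
        have : 0 < 1/δ := by positivity
        linarith
    _ ≤ _ := mul_le_mul_of_nonneg_left h1 h2

theorem sqrt_le_one_add {t : ℝ} (ht : 0 ≤ t) : √t ≤ 1 + t := by
  have h := Real.sq_sqrt ht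
  nlinarith [Real.sqrt_nonneg t, sq_nonneg (√t - 1)]

theorem kk_norm (α : ℂ) {t : ℝ} (ht : 0 ≤ t) : ‖kk α t‖ = √t * Real.exp (-α.re * t) := by
  unfold kk
  rw [norm_mul, Complex.norm_exp, Complex.norm_real, Real.norm_of_nonneg (Real.sqrt_nonneg t)]
  simp

theorem kk_dec {α : ℂ} (hα : 0 < α.re) {δ : ℝ} (hδ : 0 < δ) (hδα : δ ≤ α.re / 2) :
    KDec (kk α) (1 + 2 / α.re) δ where
  cont := by unfold kk; fun_prop
  hδ := hδ
  hC := by positivity
  bd := by
    intro t ht
    rw [kk_norm α ht.le]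
    have h1 := sqrt_le_one_add ht.le
    have h2 := one_add_le_exp (δ := α.re / 2) (by positivity) ht.le
    have e : 1 + 1 / (α.re / 2) = 1 + 2 / α.re := by field_simp
    rw [e] at h2
    calc √t * Real.exp (-α.re * t) ≤ ((1 + 2 / α.re) * Real.exp (α.re / 2 * t)) * Real.exp (-α.re * t) :=
          mul_le_mul_of_nonneg_right (h1.trans h2) (Real.exp_pos _).le
      _ = (1 + 2 / α.re) * Real.exp (-(α.re/2) * t) := by
          rw [mul_assoc, ← Real.exp_add]
          congr 2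
          ring
      _ ≤ _ := by
          apply mul_le_mul_of_nonneg_left _ (by positivity)
          apply Real.exp_le_exp.2
          nlinarith

theorem kk_tail {α : ℂ} (hα : 0 < α.re) : Tendsto (fun t : ℝ => √t * ‖kk α t‖) atTop (𝓝 0) := by
  have h1 : Tendsto (fun t : ℝ => t ^ (1:ℝ) * Real.exp (-α.re * t)) atTop (𝓝 0) :=
    tendsto_rpow_mul_exp_neg_mul_atTop_nhds_zero 1 α.re hα
  apply h1.congr'
  filter_upwards [eventually_ge_atTop (0:ℝ)] with t ht
  rw [kk_norm α ht, ← mul_assoc, Real.mul_self_sqrt ht, Real.rpow_one]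

/-- general bound for twisted sums -/
theorem tsum_kk_bound (c : ℕ → ℂ) (hc0 : c 0 = 0) (B : ℝ) (hB0 : 0 ≤ B)
    (hB : ∀ N : ℕ, ‖∑ n ∈ Finset.Icc 1 N, c n‖ ≤ B * √N) {α : ℂ} (hα : 0 < α.re)
    {x : ℝ} (hx : 0 < x) (hs : Summable fun n : ℕ => c n * kk α (n * x)) :
    ‖∑' n : ℕ, c n * kk α (n * x)‖ ≤ B / √x * (1 / (2 * α.re) + ‖α‖ / α.re ^ 2) := by
  have h1 : Tendsto (fun N : ℕ => ∑ n ∈ Finset.Icc 1 N, c n * kk α (n * x)) atTop
      (𝓝 (∑' n : ℕ, c n * kk α (n * x))) := by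
    have h2 := hs.hasSum.tendsto_sum_nat
    have h3 := h2.comp (tendsto_add_atTop_nat 1)
    refine h3.congr ?_
    intro N
    simp only [Function.comp_apply]
    rw [Finset.range_eq_Ico, Finset.sum_eq_sum_Ico_succ_bot (by omega)]
    rw [hc0, zero_mul, zero_add]
    rfl
  have h2 : Tendsto (fun N : ℕ => B / √x * (√(N * x) * ‖kk α (N * x)‖ +
      ∫ y in Set.Ioi 0, √y * ‖kk' α y‖)) atTop
      (𝓝 (B / √x * (0 + ∫ y in Set.Ioi 0, √y * ‖kk' α y‖))) := by
    apply Tendsto.const_mul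
    apply Tendsto.add_const
    apply (kk_tail hα).comp
    exact Tendsto.atTop_mul_const hx tendsto_natCast_atTop_atTop
  have h3 := le_of_tendsto_of_tendsto' h1.norm h2 (fun N => abel_sqrt c B hB0 hB (kk α) (kk' α) hx
    (fun y hy => kk_hasDeriv α hy) (kk'_continuousOn α) (kk'_int hα).1 N)
  rw [zero_add] at h3
  refine h3.trans ?_
  apply mul_le_mul_of_nonneg_left (kk'_int hα).2 (by positivity)

end Pool.Agent.Helper13.Mob
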