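import Pool.Agent.Helper13.MobF

namespace Pool.Agent.Helper13.Mob

open Finset MeasureTheory Set Filter Topology

/-- (s-1) ζ(s), entire -/
noncomputable def Z1 : ℂ → ℂ := DirichletCharacter.LFunctionTrivChar₁ 1

theorem Z1_diff : Differentiable ℂ Z1 := DirichletCharacter.differentiable_LFunctionTrivChar₁ 1

theorem Z1_eq {s : ℂ} (hs : s ≠ 1) : Z1 s = (s - 1) * riemannZeta s := by
  unfold Z1 DirichletCharacter.LFunctionTrivChar₁
  rw [Function.update_of_ne hs]
  rw [DirichletCharacter.LFunctionTrivChar, DirichletCharacter.LFunction_modOne_eq]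

theorem sqrt_bigO {f : ℝ → ℂ} {C : ℝ} (hb : ∀ x, 0 < x → ‖f x‖ ≤ C / √x) :
    f =O[𝓝[>] 0] (· ^ (-(1/2 : ℝ))) := by
  apply Asymptotics.IsBigO.of_bound C
  filter_upwards [self_mem_nhdsWithin] with x hx
  have hx' : (0:ℝ) < x := hx
  rw [Real.norm_of_nonneg (by positivity), Real.rpow_neg hx'.le, ← Real.sqrt_eq_rpow]
  exact hb x hx'

theorem sqrt_bigO_top {f : ℝ → ℂ} {C : ℝ} (hb : ∀ x, 0 < x → ‖f x‖ ≤ C / √x) :
    f =O[atTop] (· ^ (-(1/2 : ℝ))) := by
  apply Asymptotics.IsBigO.of_bound C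
  filter_upwards [eventually_gt_atTop (0:ℝ)] with x hx
  have hx' : (0:ℝ) < x := hx
  rw [Real.norm_of_nonneg (by positivity), Real.rpow_neg hx'.le, ← Real.sqrt_eq_rpow]
  exact hb x hx'

theorem KDec.conv {k : ℝ → ℂ} {C δ : ℝ} (h : KDec k C δ) {C' : ℝ}
    (hb : ∀ x, 0 < x → ‖asum k x‖ ≤ C' / √x) {w : ℂ} (hw : 1/2 < w.re) :
    MellinConvergent (asum k) w :=
  mellinConvergent_of_isBigO_rpow_exp h.hδ (h.continuousOn.locallyIntegrableOn measurableSet_Ioi)
    h.isBigO_top (sqrt_bigO hb) hw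

theorem KDec.diff {k : ℝ → ℂ} {C δ : ℝ} (h : KDec k C δ) {C' : ℝ}
    (hb : ∀ x, 0 < x → ‖asum k x‖ ≤ C' / √x) {w : ℂ} (hw : 1/2 < w.re) :
    DifferentiableAt ℂ (mellin (asum k)) w :=
  mellin_differentiableAt_of_isBigO_rpow_exp h.hδ
    (h.continuousOn.locallyIntegrableOn measurableSet_Ioi) h.isBigO_top (sqrt_bigO hb) hw

theorem KDec.mellin_half {k : ℝ → ℂ} {C δ : ℝ} (h : KDec k C δ) {C' : ℝ}
    (hb : ∀ x, 0 < x → ‖asum k x‖ ≤ C' / √x)
    (hk : ∀ w : ℂ, 1/2 < w.re → DifferentiableAt ℂ (mellin k) w)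
    (hkc : ∀ w : ℂ, 1/2 < w.re → MellinConvergent k w)
    {w : ℂ} (hw : 1/2 < w.re) (hw1 : w ≠ 1) :
    riemannZeta w * mellin (asum k) w = mellin k w := by
  set U : Set ℂ := {z | 1/2 < z.re} with hU
  have hUo : IsOpen U := isOpen_lt continuous_const Complex.continuous_re
  have hUc : IsPreconnected U := (convex_halfSpace_re_gt (1/2)).isPreconnected
  have hf : AnalyticOnNhd ℂ (fun z => Z1 z * mellin (asum k) z) U := by
    apply DifferentiableOn.analyticOnNhd _ hUo
    intro z hz
    exact ((Z1_diff z).mul (h.diff hb hz)).differentiableWithinAt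
  have hg : AnalyticOnNhd ℂ (fun z => (z - 1) * mellin k z) U := by
    apply DifferentiableOn.analyticOnNhd _ hUo
    intro z hz
    exact (((differentiableAt_id).sub_const 1).mul (hk z hz)).differentiableWithinAt
  have h2 : (2:ℂ) ∈ U := by
    show (1/2:ℝ) < (2:ℂ).re
    norm_num
  have hev : (fun z => Z1 z * mellin (asum k) z) =ᶠ[𝓝 2] (fun z => (z - 1) * mellin k z) := by
    have : {z : ℂ | 1 < z.re} ∈ 𝓝 (2:ℂ) := by
      apply (isOpen_lt continuous_const Complex.continuous_re).mem_nhds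
      show (1:ℝ) < (2:ℂ).re
      norm_num
    filter_upwards [this] with z hz
    have hz' : 1 < z.re := hz
    have hz1 : z ≠ 1 := by
      intro h
      rw [h] at hz'
      simp at hz'
    rw [Z1_eq hz1, mul_assoc, h.mellin_gt hz' (hkc z (by linarith))]
  have := hf.eqOn_of_preconnected_of_eventuallyEq hg hUc h2 hev hw
  simp only at this
  rw [Z1_eq hw1, mul_assoc] at this
  exact mul_left_cancel₀ (sub_ne_zero.2 hw1) this

/-- bound of the partial sums assumed throughout -/
def MertensBd (B : ℝ) : Prop := ∀ N : ℕ, ‖∑ n ∈ Finset.Icc 1 N, mu n‖ ≤ B * √N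

theorem MertensBd.nonneg {B : ℝ} (h : MertensBd B) : 0 ≤ B := by
  have := h 1
  simp only [Nat.cast_one, Real.sqrt_one, mul_one] at this
  exact (norm_nonneg _).trans this

noncomputable def Cα (α : ℂ) : ℝ := 1 / (2 * α.re) + ‖α‖ / α.re ^ 2

theorem kk_dec' {α : ℂ} (hα : 0 < α.re) : KDec (kk α) (1 + 2 / α.re) (α.re / 2) :=
  kk_dec hα (by positivity) le_rfl

theorem MertensBd.asum_kk {B : ℝ} (h : MertensBd B) {α : ℂ} (hα : 0 < α.re) {x : ℝ} (hx : 0 < x) :
    ‖asum (kk α) x‖ ≤ (B * Cα α) / √x := by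
  have := tsum_kk_bound mu mu_zero B h.nonneg h hα hx ((kk_dec' hα).summable hx)
  refine this.trans (le_of_eq ?_)
  unfold Cα
  ring

theorem kk_mellin_diff {α : ℂ} (hα : 0 < α.re) {w : ℂ} (hw : -(1/2) < w.re) :
    DifferentiableAt ℂ (mellin (kk α)) w := by
  have hα0 : α ≠ 0 := by
    intro h; rw [h] at hα; simp at hα
  have h1 : (mellin (kk α)) =ᶠ[𝓝 w] fun w => α ^ (-(w + 1/2)) * Complex.Gamma (w + 1/2) := by
    have : {z : ℂ | -(1/2) < z.re} ∈ 𝓝 w :=
      (isOpen_lt continuous_const Complex.continuous_re).mem_nhds hw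
    filter_upwards [this] with z hz
    exact (kk_mellin hα hz).2
  apply DifferentiableAt.congr_of_eventuallyEq _ h1
  apply DifferentiableAt.mul
  · apply DifferentiableAt.const_cpow
    · fun_prop
    · left; exact hα0
  · apply (Complex.differentiableAt_Gamma _ ?_).comp
    · fun_prop
    · intro m hm
      have : (w + 1/2).re = (-(m:ℂ)).re := by rw [hm]
      simp only [Complex.add_re, Complex.div_ofNat_re, Complex.one_re, Complex.neg_re,
        Complex.natCast_re] at this
      have hm0 : (0:ℝ) ≤ m := Nat.cast_nonneg m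
      linarith

theorem MertensBd.kk_half {B : ℝ} (h : MertensBd B) {α : ℂ} (hα : 0 < α.re) {w : ℂ}
    (hw : 1/2 < w.re) (hw1 : w ≠ 1) :
    riemannZeta w * mellin (asum (kk α)) w = mellin (kk α) w :=
  (kk_dec' hα).mellin_half (fun _ hx => h.asum_kk hα hx)
    (fun z hz => kk_mellin_diff hα (by linarith)) (fun z hz => (kk_mellin hα (by linarith)).1) hw hw1

/-- size of the Mellin transform to the right of the critical line -/
theorem mellin_norm_bound {k : ℝ → ℂ} {C δ : ℝ} (h : KDec k C δ) {C' : ℝ}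
    (hb : ∀ x, 0 < x → ‖asum k x‖ ≤ C' / √x) : ∃ D : ℝ, ∀ w : ℂ, 1/2 < w.re → w.re < 1 →
    ‖mellin (asum k) w‖ ≤ C' / (w.re - 1/2) + D := by
  have hconv : MellinConvergent (asum k) 1 := h.conv hb (by norm_num)
  have hC' : 0 ≤ C' := by
    have := hb 1 one_pos
    simp only [Real.sqrt_one, div_one] at this
    exact (norm_nonneg _).trans this
  refine ⟨∫ x in Set.Ioi (1:ℝ), ‖asum k x‖, ?_⟩
  intro w hw hw1
  have hc := h.conv hb hw
  have hsplit : Set.Ioi (0:ℝ) = Set.Ioc 0 1 ∪ Set.Ioi 1 := by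
    rw [Set.Ioc_union_Ioi_eq_Ioi zero_le_one]
  unfold mellin
  unfold MellinConvergent at hc hconv
  rw [hsplit] at hc hconv ⊢
  rw [setIntegral_union (Set.Ioc_disjoint_Ioi le_rfl) measurableSet_Ioi hc.left_of_union
    hc.right_of_union]
  refine (norm_add_le _ _).trans ?_
  apply add_le_add
  · have hI : IntegrableOn (fun x : ℝ => C' * x ^ (w.re - 1 - 1/2)) (Set.Ioc 0 1) := by
      apply Integrable.const_mul
      have := intervalIntegral.intervalIntegrable_rpow' (a := 0) (b := 1) (r := w.re - 1 - 1/2) (by linarith)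
      rwa [intervalIntegrable_iff_integrableOn_Ioc_of_le zero_le_one] at this
    calc ‖∫ x in Set.Ioc (0:ℝ) 1, (x : ℂ) ^ (w - 1) • asum k x‖
        ≤ ∫ x in Set.Ioc (0:ℝ) 1, C' * x ^ (w.re - 1 - 1/2) := by
          apply norm_integral_le_of_norm_le hI
          rw [ae_restrict_iff' measurableSet_Ioc]
          apply Filter.Eventually.of_forall
          intro x hx
          have hx' : 0 < x := hx.1
          rw [norm_smul, Complex.norm_cpow_eq_rpow_re_of_pos hx', Complex.sub_re, Complex.one_re]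
          have h1 := hb x hx'
          calc x ^ (w.re - 1) * ‖asum k x‖ ≤ x ^ (w.re - 1) * (C' / √x) :=
                mul_le_mul_of_nonneg_left h1 (by positivity)
            _ = C' * x ^ (w.re - 1 - 1/2) := by
                rw [Real.rpow_sub hx' (w.re - 1), ← Real.sqrt_eq_rpow]
                ring
      _ = C' / (w.re - 1/2) := by
          rw [integral_const_mul, ← intervalIntegral.integral_of_le zero_le_one,
            integral_rpow (Or.inl (by linarith))]
          rw [Real.one_rpow, Real.zero_rpow (by linarith)]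
          rw [show w.re - 1 - 1/2 + 1 = w.re - 1/2 by ring]
          ring
  · have hn : IntegrableOn (fun x => ‖asum k x‖) (Set.Ioi 1) := by
      have h1 := hconv.right_of_union.norm
      refine Integrable.congr h1 ?_
      apply Filter.Eventually.of_forall
      intro x
      simp
    apply norm_integral_le_of_norm_le hn
    rw [ae_restrict_iff' measurableSet_Ioi]
    apply Filter.Eventually.of_forall
    intro x hx
    have hx1 : (1:ℝ) < x := hx
    rw [norm_smul, Complex.norm_cpow_eq_rpow_re_of_pos (by linarith), Complex.sub_re, Complex.one_re]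
    have : x ^ (w.re - 1) ≤ 1 := Real.rpow_le_one_of_one_le_of_nonpos hx1.le (by linarith)
    nlinarith [norm_nonneg (asum k x)]

end Pool.Agent.Helper13.Mob
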