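import Pool.Agent.Helper13.MobG

namespace Pool.Agent.Helper13.Mob

open Finset MeasureTheory Set Filter Topology

theorem MertensBd.simple {B : ℝ} (h : MertensBd B) {w₀ : ℂ} (hw : w₀.re = 1/2)
    (hz : riemannZeta w₀ = 0) : deriv riemannZeta w₀ ≠ 0 := by
  intro hd
  have hw1 : w₀ ≠ 1 := by
    intro h1; rw [h1] at hw; norm_num at hw
  have hα : (0:ℝ) < (1:ℂ).re := by simp
  have hb := fun (x : ℝ) (hx : 0 < x) => h.asum_kk hα hx
  obtain ⟨D, hD⟩ := mellin_norm_bound (kk_dec' hα) hb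
  set C' := B * Cα 1 with hC'
  have hder : HasDerivAt riemannZeta 0 w₀ := by
    have := (differentiableAt_riemannZeta hw1).hasDerivAt
    rwa [hd] at this
  have hslope := hder.tendsto_slope
  -- along σ → 0+
  have hpath : Tendsto (fun σ : ℝ => w₀ + σ) (𝓝[>] 0) (𝓝[≠] w₀) := by
    rw [tendsto_nhdsWithin_iff]
    constructor
    · have : Tendsto (fun σ : ℝ => w₀ + (σ : ℂ)) (𝓝 0) (𝓝 (w₀ + ((0:ℝ):ℂ))) := by
        apply Continuous.tendsto
        fun_prop
      rw [Complex.ofReal_zero, add_zero] at this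
      exact this.mono_left nhdsWithin_le_nhds
    · filter_upwards [self_mem_nhdsWithin] with σ hσ
      have hσ' : (0:ℝ) < σ := hσ
      simp only [Set.mem_compl_iff, Set.mem_singleton_iff]
      intro h1
      have : (σ : ℂ) = 0 := by
        have := congrArg (fun z => z - w₀) h1
        simpa using this
      rw [Complex.ofReal_eq_zero] at this
      linarith
  have h1 := hslope.comp hpath
  -- the product
  have hGam : Tendsto (fun σ : ℝ => Complex.Gamma (w₀ + σ + 1/2)) (𝓝[>] 0)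
      (𝓝 (Complex.Gamma (w₀ + 1/2))) := by
    have hc : ContinuousAt Complex.Gamma (w₀ + 1/2) := by
      apply (Complex.differentiableAt_Gamma _ ?_).continuousAt
      intro m hm
      have : (w₀ + 1/2).re = (-(m:ℂ)).re := by rw [hm]
      simp only [Complex.add_re, Complex.div_ofNat_re, Complex.one_re, Complex.neg_re,
        Complex.natCast_re, hw] at this
      have hm0 : (0:ℝ) ≤ m := Nat.cast_nonneg m
      linarith
    have h2 : Tendsto (fun σ : ℝ => w₀ + (σ : ℂ) + 1/2) (𝓝[>] 0) (𝓝 (w₀ + 1/2)) := by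
      have : Tendsto (fun σ : ℝ => w₀ + (σ : ℂ) + 1/2) (𝓝 0) (𝓝 (w₀ + ((0:ℝ):ℂ) + 1/2)) := by
        apply Continuous.tendsto
        fun_prop
      rw [Complex.ofReal_zero, add_zero] at this
      exact this.mono_left nhdsWithin_le_nhds
    exact hc.tendsto.comp h2
  have hzero : Tendsto (fun σ : ℝ => ‖Complex.Gamma (w₀ + σ + 1/2)‖) (𝓝[>] 0) (𝓝 0) := by
    have hub : Tendsto (fun σ : ℝ => ‖slope riemannZeta w₀ (w₀ + σ)‖ * (C' + D * σ)) (𝓝[>] 0)
        (𝓝 (‖(0:ℂ)‖ * (C' + D * 0))) := by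
      apply Tendsto.mul
      · exact h1.norm
      · have : Tendsto (fun σ : ℝ => C' + D * σ) (𝓝 0) (𝓝 (C' + D * 0)) := by
          apply Continuous.tendsto
          fun_prop
        exact this.mono_left nhdsWithin_le_nhds
    rw [norm_zero, zero_mul] at hub
    apply squeeze_zero' (Filter.Eventually.of_forall (fun _ => norm_nonneg _)) _ hub
    filter_upwards [Ioo_mem_nhdsGT (show (0:ℝ) < 1/2 by norm_num)] with σ hσ
    have hσ0 : 0 < σ := hσ.1
    have hre : (w₀ + σ).re = 1/2 + σ := by simp [hw]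
    have hgt : 1/2 < (w₀ + σ).re := by rw [hre]; linarith
    have hlt : (w₀ + σ).re < 1 := by rw [hre]; linarith [hσ.2]
    have hne1 : w₀ + σ ≠ 1 := by
      intro h2
      rw [h2] at hlt
      simp at hlt
    have h3 := h.kk_half hα hgt hne1
    rw [(kk_mellin hα (by linarith)).2, Complex.one_cpow, one_mul] at h3
    rw [← h3, norm_mul]
    have h4 := hD _ hgt hlt
    rw [hre, show (1/2 + σ - 1/2 : ℝ) = σ by ring] at h4
    have h5 : slope riemannZeta w₀ (w₀ + σ) = riemannZeta (w₀ + σ) / σ := by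
      rw [slope_def_field, hz, sub_zero, add_sub_cancel_left]
    rw [h5, norm_div, Complex.norm_real, Real.norm_of_nonneg hσ0.le]
    calc ‖riemannZeta (w₀ + σ)‖ * ‖mellin (asum (kk 1)) (w₀ + σ)‖
        ≤ ‖riemannZeta (w₀ + σ)‖ * (C' / σ + D) := mul_le_mul_of_nonneg_left h4 (norm_nonneg _)
      _ = _ := by field_simp
  have hne : Complex.Gamma (w₀ + 1/2) ≠ 0 := by
    apply Complex.Gamma_ne_zero
    intro m hm
    have : (w₀ + 1/2).re = (-(m:ℂ)).re := by rw [hm]
    simp only [Complex.add_re, Complex.div_ofNat_re, Complex.one_re, Complex.neg_re,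
      Complex.natCast_re, hw] at this
    have hm0 : (0:ℝ) ≤ m := Nat.cast_nonneg m
    linarith
  have := tendsto_nhds_unique hGam.norm hzero
  exact hne (norm_eq_zero.1 this)

/-- removal of a simple pole -/
theorem simple_pole {f k : ℂ → ℂ} {w₀ : ℂ} (hf : AnalyticAt ℂ f w₀) (hk : AnalyticAt ℂ k w₀)
    (hz : f w₀ = 0) (hd : deriv f w₀ ≠ 0) :
    ∃ ℓ : ℂ, Tendsto (fun w => k w / f w - (k w₀ / deriv f w₀) / (w - w₀)) (𝓝[≠] w₀) (𝓝 ℓ) := by
  set F := dslope f w₀ with hF
  have hFd : ∀ᶠ w in 𝓝 w₀, DifferentiableAt ℂ F w := by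
    have h1 : ∀ᶠ w in 𝓝 w₀, AnalyticAt ℂ f w := hf.eventually_analyticAt
    obtain ⟨ε, hε, hball⟩ := Metric.eventually_nhds_iff_ball.1 h1
    have h2 : DifferentiableOn ℂ f (Metric.ball w₀ ε) := fun z hz =>
      (hball z hz).differentiableAt.differentiableWithinAt
    have h3 : DifferentiableOn ℂ F (Metric.ball w₀ ε) :=
      (Complex.differentiableOn_dslope (Metric.ball_mem_nhds _ hε)).2 h2
    filter_upwards [Metric.ball_mem_nhds w₀ hε] with z hz
    exact h3.differentiableAt (Metric.isOpen_ball.mem_nhds hz)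
  have hFat : DifferentiableAt ℂ F w₀ := hFd.self_of_nhds
  have hF0 : F w₀ = deriv f w₀ := dslope_same f w₀
  have hF0' : F w₀ ≠ 0 := by rw [hF0]; exact hd
  have hquot : DifferentiableAt ℂ (fun w => k w / F w) w₀ := hk.differentiableAt.div hFat hF0'
  refine ⟨deriv (fun w => k w / F w) w₀, ?_⟩
  have hs := hquot.hasDerivAt.tendsto_slope
  apply hs.congr'
  have hne : ∀ᶠ w in 𝓝 w₀, F w ≠ 0 := hFat.continuousAt.eventually_ne hF0'
  filter_upwards [self_mem_nhdsWithin, hne.filter_mono nhdsWithin_le_nhds] with w hw hFw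
  have hw' : w - w₀ ≠ 0 := sub_ne_zero.2 hw
  have hfw : f w = (w - w₀) * F w := by
    rw [hF, dslope_of_ne f hw, slope_def_field, hz, sub_zero]
    field_simp
  rw [slope_def_field, hfw, hF0]
  field_simp

end Pool.Agent.Helper13.Mob
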