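import Pool.Agent.Helper13.MobH

namespace Pool.Agent.Helper13.Mob

open Finset MeasureTheory Set Filter Topology

noncomputable def EE (l : ℂ) (x : ℝ) : ℂ := Complex.exp (-(l * √x))
noncomputable def EE' (l : ℂ) (x : ℝ) : ℂ := -(l / 2) * ((1 / √x : ℝ) : ℂ) * Complex.exp (-(l * √x))
noncomputable def ME (l : ℂ) : ℝ := 2 * ‖l‖ + 720 / l.re ^ 6 + ‖l‖ * (720 / l.re ^ 6)

theorem EE_deriv (l : ℂ) {x : ℝ} (hx : 0 < x) : HasDerivAt (EE l) (EE' l x) x := by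
  have h1 : HasDerivAt (fun y : ℝ => ((√y : ℝ) : ℂ)) ((1 / (2 * √x) : ℝ) : ℂ) x :=
    (Real.hasDerivAt_sqrt hx.ne').ofReal_comp
  have h2 : HasDerivAt (fun y : ℝ => -(l * ((√y : ℝ) : ℂ))) (-(l * ((1 / (2 * √x) : ℝ) : ℂ))) x :=
    (h1.const_mul l).neg
  have h3 := h2.cexp
  have e : EE' l x = Complex.exp (-(l * √x)) * (-(l * ((1 / (2 * √x) : ℝ) : ℂ))) := by
    unfold EE'
    push_cast
    have : (√x : ℂ) ≠ 0 := by
      have := Real.sqrt_pos.2 hx
      exact_mod_cast this.ne'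
    field_simp
  rw [e]
  exact h3

theorem EE'_cont (l : ℂ) : ContinuousOn (EE' l) (Set.Ioi 0) := by
  unfold EE'
  apply ContinuousOn.mul _ (by fun_prop)
  apply continuousOn_const.mul
  apply Complex.continuous_ofReal.comp_continuousOn
  apply ContinuousOn.div continuousOn_const (by fun_prop)
  intro y hy
  have : (0:ℝ) < √y := Real.sqrt_pos.2 hy
  positivity

theorem EE_norm (l : ℂ) (x : ℝ) : ‖EE l x‖ = Real.exp (-(l.re * √x)) := by
  unfold EE
  rw [Complex.norm_exp]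
  simp

theorem EE'_norm (l : ℂ) {x : ℝ} (hx : 0 < x) :
    ‖EE' l x‖ = ‖l‖ / 2 * (1 / √x) * Real.exp (-(l.re * √x)) := by
  unfold EE'
  rw [norm_mul, norm_mul, norm_neg, norm_div, Complex.norm_exp, Complex.norm_real,
    Real.norm_of_nonneg (by positivity)]
  simp

theorem exp_sqrt_bd {c x : ℝ} (hc : 0 < c) (hx : 0 < x) :
    Real.exp (-(c * √x)) ≤ 720 / c ^ 6 / x ^ 3 := by
  have h1 := Real.pow_div_factorial_le_exp (c * √x) (by positivity) 6
  have h2 : (c * √x) ^ 6 = c ^ 6 * x ^ 3 := by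
    rw [mul_pow, show √x ^ 6 = (√x ^ 2) ^ 3 by ring, Real.sq_sqrt hx.le]
  rw [h2] at h1
  have h3 : ((Nat.factorial 6 : ℕ) : ℝ) = 720 := by norm_num [Nat.factorial]
  rw [h3] at h1
  rw [Real.exp_neg, ← one_div, div_le_iff₀ (Real.exp_pos _)]
  calc (1:ℝ) = 720 / c ^ 6 / x ^ 3 * (c ^ 6 * x ^ 3 / 720) := by field_simp
    _ ≤ _ := mul_le_mul_of_nonneg_left h1 (by positivity)

theorem ME_nonneg {l : ℂ} (_hl : 0 < l.re) : 0 ≤ ME l := by unfold ME; positivity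

theorem EE_b1 {l : ℂ} (hl : 0 < l.re) {x : ℝ} (_hx : 0 < x) : ‖EE l x - 1‖ ≤ ME l * √x := by
  have h := norm_exp_neg_sub_one_le (z := l * √x) (by
    simp only [Complex.mul_re, Complex.ofReal_re, Complex.ofReal_im, mul_zero, sub_zero]
    positivity)
  rw [norm_mul, Complex.norm_real, Real.norm_of_nonneg (Real.sqrt_nonneg x)] at h
  unfold EE
  refine h.trans ?_
  have : 2 * ‖l‖ ≤ ME l := by
    unfold ME
    have : 0 ≤ 720 / l.re ^ 6 := by positivity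
    have : 0 ≤ ‖l‖ * (720 / l.re ^ 6) := by positivity
    linarith
  nlinarith [Real.sqrt_nonneg x]

theorem EE_b2 {l : ℂ} (hl : 0 < l.re) {x : ℝ} (hx : 0 < x) : ‖EE' l x‖ ≤ ME l / √x := by
  rw [EE'_norm l hx]
  have h1 : Real.exp (-(l.re * √x)) ≤ 1 := by
    apply Real.exp_le_one_iff.2
    have := Real.sqrt_nonneg x
    nlinarith
  have h2 : ‖l‖ / 2 ≤ ME l := by
    unfold ME
    have : 0 ≤ 720 / l.re ^ 6 := by positivity
    have : 0 ≤ ‖l‖ * (720 / l.re ^ 6) := by positivity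
    linarith [norm_nonneg l]
  have h3 : 0 < √x := Real.sqrt_pos.2 hx
  calc ‖l‖ / 2 * (1 / √x) * Real.exp (-(l.re * √x)) ≤ ‖l‖ / 2 * (1 / √x) * 1 := by
        apply mul_le_mul_of_nonneg_left h1 (by positivity)
    _ ≤ ME l * (1 / √x) * 1 := by
        apply mul_le_mul_of_nonneg_right _ zero_le_one
        apply mul_le_mul_of_nonneg_right h2 (by positivity)
    _ = _ := by ring

theorem EE_b3 {l : ℂ} (hl : 0 < l.re) {x : ℝ} (hx : 0 < x) : ‖EE l x‖ ≤ ME l / x ^ 3 := by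
  rw [EE_norm]
  refine (exp_sqrt_bd hl hx).trans ?_
  apply div_le_div_of_nonneg_right _ (by positivity)
  unfold ME
  have : 0 ≤ ‖l‖ * (720 / l.re ^ 6) := by positivity
  linarith [norm_nonneg l]

theorem EE_b4 {l : ℂ} (hl : 0 < l.re) {x : ℝ} (hx : 1 ≤ x) : ‖EE' l x‖ ≤ ME l / x ^ 3 := by
  have hx0 : 0 < x := by linarith
  rw [EE'_norm l hx0]
  have h1 := exp_sqrt_bd hl hx0
  have h2 : 1 / √x ≤ 1 := by
    rw [div_le_one (Real.sqrt_pos.2 hx0)]
    exact Real.one_le_sqrt.2 hx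
  have h3 : 0 < √x := Real.sqrt_pos.2 hx0
  calc ‖l‖ / 2 * (1 / √x) * Real.exp (-(l.re * √x)) ≤ ‖l‖ / 2 * 1 * (720 / l.re ^ 6 / x ^ 3) := by
        apply mul_le_mul _ h1 (Real.exp_pos _).le (by positivity)
        apply mul_le_mul_of_nonneg_left h2 (by positivity)
    _ ≤ (‖l‖ * (720 / l.re ^ 6)) / x ^ 3 := by
        have : 0 ≤ ‖l‖ * (720 / l.re ^ 6) / x ^ 3 := by positivity
        calc _ = (1/2) * (‖l‖ * (720 / l.re ^ 6) / x ^ 3) := by ring
          _ ≤ 1 * (‖l‖ * (720 / l.re ^ 6) / x ^ 3) := by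
              apply mul_le_mul_of_nonneg_right _ this
              norm_num
          _ = _ := by ring
    _ ≤ _ := by
        apply div_le_div_of_nonneg_right _ (by positivity)
        unfold ME
        have : 0 ≤ 720 / l.re ^ 6 := by positivity
        linarith [norm_nonneg l]

/-- dual kernels with good decay -/
structure HDec (h h' : ℝ → ℂ) (C : ℝ) : Prop where
  der : ∀ x, 0 < x → HasDerivAt h (h' x) x
  cont' : ContinuousOn h' (Set.Ioi 0)
  hC : 0 ≤ C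
  b1 : ∀ x, 0 < x → ‖h x‖ ≤ C * √x
  b2 : ∀ x, 0 < x → ‖h' x‖ ≤ C / √x
  b3 : ∀ x, 0 < x → ‖h x‖ ≤ C / x ^ 3
  b4 : ∀ x, 1 ≤ x → ‖h' x‖ ≤ C / x ^ 3

theorem HDec.cont {h h' : ℝ → ℂ} {C : ℝ} (H : HDec h h' C) : ContinuousOn h (Set.Ioi 0) :=
  fun x hx => (H.der x hx).continuousAt.continuousWithinAt

variable (l₁ l₂ : ℂ)

noncomputable def hf (x : ℝ) : ℂ := (√Real.pi : ℂ) * (hh l₁ 1 x - hh l₂ (-1) x)
noncomputable def hf' (x : ℝ) : ℂ := (√Real.pi : ℂ) *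
  (EE' (2 * nu l₁) x + EE' (2 * nu' l₁ 1) x - EE' (2 * nu l₂) x - EE' (2 * nu' l₂ (-1)) x)
noncomputable def MF : ℝ := √Real.pi *
  (ME (2 * nu l₁) + ME (2 * nu' l₁ 1) + ME (2 * nu l₂) + ME (2 * nu' l₂ (-1)))

theorem hf_eq (x : ℝ) : hf l₁ l₂ x = (√Real.pi : ℂ) *
    (EE (2 * nu l₁) x + EE (2 * nu' l₁ 1) x - EE (2 * nu l₂) x - EE (2 * nu' l₂ (-1)) x) := by
  unfold hf hh EE
  ring

variable {l₁ l₂}

theorem two_re_pos {z : ℂ} (h : 0 < z.re) : 0 < (2 * z).re := by simpa using h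

theorem norm4 (a b c d : ℂ) : ‖a + b - c - d‖ ≤ ‖a‖ + ‖b‖ + ‖c‖ + ‖d‖ := by
  calc ‖a + b - c - d‖ ≤ ‖a + b - c‖ + ‖d‖ := norm_sub_le _ _
    _ ≤ ‖a + b‖ + ‖c‖ + ‖d‖ := by linarith [norm_sub_le (a + b) c]
    _ ≤ _ := by linarith [norm_add_le a b]

theorem norm_sqrt_pi : ‖(√Real.pi : ℂ)‖ = √Real.pi := by
  rw [Complex.norm_real, Real.norm_of_nonneg (Real.sqrt_nonneg _)]

theorem hf_dec (h1 : Adm l₁ 1) (h2 : Adm l₂ (-1)) : HDec (hf l₁ l₂) (hf' l₁ l₂) (MF l₁ l₂) := by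
  have p1 := two_re_pos h1.nu_pos
  have p2 := two_re_pos h1.nu'_pos
  have p3 := two_re_pos h2.nu_pos
  have p4 := two_re_pos h2.nu'_pos
  have q1 := ME_nonneg p1
  have q2 := ME_nonneg p2
  have q3 := ME_nonneg p3
  have q4 := ME_nonneg p4
  have hpi := Real.sqrt_nonneg Real.pi
  constructor
  · intro x hx
    have e : hf l₁ l₂ = fun x => (√Real.pi : ℂ) *
      (EE (2 * nu l₁) x + EE (2 * nu' l₁ 1) x - EE (2 * nu l₂) x - EE (2 * nu' l₂ (-1)) x) := by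
      ext x; exact hf_eq l₁ l₂ x
    rw [e]
    exact ((((EE_deriv _ hx).add (EE_deriv _ hx)).sub (EE_deriv _ hx)).sub (EE_deriv _ hx)).const_mul _
  · unfold hf'
    exact continuousOn_const.mul ((((EE'_cont _).add (EE'_cont _)).sub (EE'_cont _)).sub (EE'_cont _))
  · unfold MF
    positivity
  · intro x hx
    have e : hf l₁ l₂ x = (√Real.pi : ℂ) * ((EE (2 * nu l₁) x - 1) + (EE (2 * nu' l₁ 1) x - 1)
        - (EE (2 * nu l₂) x - 1) - (EE (2 * nu' l₂ (-1)) x - 1)) := by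
      rw [hf_eq]; ring
    rw [e, norm_mul, norm_sqrt_pi]
    unfold MF
    rw [mul_assoc]
    apply mul_le_mul_of_nonneg_left _ hpi
    refine (norm4 _ _ _ _).trans ?_
    have := EE_b1 p1 hx
    have := EE_b1 p2 hx
    have := EE_b1 p3 hx
    have := EE_b1 p4 hx
    linarith
  · intro x hx
    unfold hf'
    rw [norm_mul, norm_sqrt_pi]
    unfold MF
    rw [mul_div_assoc]
    apply mul_le_mul_of_nonneg_left _ hpi
    refine (norm4 _ _ _ _).trans ?_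
    have := EE_b2 p1 hx
    have := EE_b2 p2 hx
    have := EE_b2 p3 hx
    have := EE_b2 p4 hx
    simp only [add_div]
    linarith
  · intro x hx
    rw [hf_eq, norm_mul, norm_sqrt_pi]
    unfold MF
    rw [mul_div_assoc]
    apply mul_le_mul_of_nonneg_left _ hpi
    refine (norm4 _ _ _ _).trans ?_
    have := EE_b3 p1 hx
    have := EE_b3 p2 hx
    have := EE_b3 p3 hx
    have := EE_b3 p4 hx
    simp only [add_div]
    linarith
  · intro x hx
    unfold hf'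
    rw [norm_mul, norm_sqrt_pi]
    unfold MF
    rw [mul_div_assoc]
    apply mul_le_mul_of_nonneg_left _ hpi
    refine (norm4 _ _ _ _).trans ?_
    have := EE_b4 p1 hx
    have := EE_b4 p2 hx
    have := EE_b4 p3 hx
    have := EE_b4 p4 hx
    simp only [add_div]
    linarith

end Pool.Agent.Helper13.Mob
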