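import Pool.Agent.Helper13.MobI

namespace Pool.Agent.Helper13.Mob

open Finset MeasureTheory Set Filter Topology

theorem tsum_bound (c : ℕ → ℂ) (hc0 : c 0 = 0) (B : ℝ) (hB0 : 0 ≤ B)
    (hB : ∀ N : ℕ, ‖∑ n ∈ Finset.Icc 1 N, c n‖ ≤ B * √N) (f f' : ℝ → ℂ)
    (hf : ∀ y, 0 < y → HasDerivAt f (f' y) y) (hf'c : ContinuousOn f' (Set.Ioi 0))
    (hint : IntegrableOn (fun y => √y * ‖f' y‖) (Set.Ioi 0))
    (htail : Tendsto (fun t : ℝ => √t * ‖f t‖) atTop (𝓝 0))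
    {x : ℝ} (hx : 0 < x) (hs : Summable fun n : ℕ => c n * f (n * x)) :
    ‖∑' n : ℕ, c n * f (n * x)‖ ≤ B / √x * ∫ y in Set.Ioi 0, √y * ‖f' y‖ := by
  have h1 : Tendsto (fun N : ℕ => ∑ n ∈ Finset.Icc 1 N, c n * f (n * x)) atTop
      (𝓝 (∑' n : ℕ, c n * f (n * x))) := by
    have h2 := hs.hasSum.tendsto_sum_nat
    have h3 := h2.comp (tendsto_add_atTop_nat 1)
    refine h3.congr ?_
    intro N
    simp only [Function.comp_apply]
    rw [Finset.range_eq_Ico, Finset.sum_eq_sum_Ico_succ_bot (by omega)]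
    rw [hc0, zero_mul, zero_add]
    rfl
  have h2 : Tendsto (fun N : ℕ => B / √x * (√(N * x) * ‖f (N * x)‖ +
      ∫ y in Set.Ioi 0, √y * ‖f' y‖)) atTop
      (𝓝 (B / √x * (0 + ∫ y in Set.Ioi 0, √y * ‖f' y‖))) := by
    apply Tendsto.const_mul
    apply Tendsto.add_const
    apply htail.comp
    exact Tendsto.atTop_mul_const hx tendsto_natCast_atTop_atTop
  have h3 := le_of_tendsto_of_tendsto' h1.norm h2 (fun N => abel_sqrt c B hB0 hB f f' hx hf hf'c hint N)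
  rwa [zero_add] at h3

noncomputable def QQ (h : ℝ → ℂ) (z : ℝ) : ℂ := ((z⁻¹ : ℝ) : ℂ) * h z⁻¹
noncomputable def QQ' (h h' : ℝ → ℂ) (z : ℝ) : ℂ :=
  -(((z⁻¹ ^ 2 : ℝ) : ℂ) * h z⁻¹) - ((z⁻¹ ^ 3 : ℝ) : ℂ) * h' z⁻¹

theorem HDec.QQ_deriv {h h' : ℝ → ℂ} {C : ℝ} (H : HDec h h' C) {z : ℝ} (hz : 0 < z) :
    HasDerivAt (QQ h) (QQ' h h' z) z := by
  have hz' : 0 < z⁻¹ := inv_pos.2 hz
  have h0 : HasDerivAt (fun z : ℝ => z⁻¹) (-(z ^ 2)⁻¹) z := hasDerivAt_inv hz.ne'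
  have h1 : HasDerivAt (fun z : ℝ => ((z⁻¹ : ℝ) : ℂ)) ((-(z ^ 2)⁻¹ : ℝ) : ℂ) z := h0.ofReal_comp
  have h2 : HasDerivAt (fun z : ℝ => h z⁻¹) ((-(z ^ 2)⁻¹ : ℝ) • h' z⁻¹) z :=
    (H.der z⁻¹ hz').scomp z h0
  have h3 := h1.mul h2
  have e : QQ' h h' z = ((-(z ^ 2)⁻¹ : ℝ) : ℂ) * h z⁻¹ + ((z⁻¹ : ℝ) : ℂ) * ((-(z ^ 2)⁻¹ : ℝ) • h' z⁻¹) := by
    unfold QQ'
    rw [Complex.real_smul]
    push_cast
    ring
  rw [e]
  exact h3

theorem inv_cont : ContinuousOn (fun z : ℝ => z⁻¹) (Set.Ioi 0) :=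
  continuousOn_inv₀.mono (fun z hz => by
    have : (0:ℝ) < z := hz
    exact this.ne')

theorem inv_maps : Set.MapsTo (fun z : ℝ => z⁻¹) (Set.Ioi 0) (Set.Ioi 0) := by
  intro z hz
  have hz' : (0:ℝ) < z := hz
  exact inv_pos.2 hz'

theorem HDec.QQ'_cont {h h' : ℝ → ℂ} {C : ℝ} (H : HDec h h' C) :
    ContinuousOn (QQ' h h') (Set.Ioi 0) := by
  unfold QQ'
  apply ContinuousOn.sub
  · apply ContinuousOn.neg
    apply ContinuousOn.mul
    · exact Complex.continuous_ofReal.comp_continuousOn (inv_cont.pow 2)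
    · exact H.cont.comp inv_cont inv_maps
  · apply ContinuousOn.mul
    · exact Complex.continuous_ofReal.comp_continuousOn (inv_cont.pow 3)
    · exact H.cont'.comp inv_cont inv_maps

theorem HDec.QQ'_int {h h' : ℝ → ℂ} {C : ℝ} (H : HDec h h' C) :
    IntegrableOn (fun y => √y * ‖QQ' h h' y‖) (Set.Ioi 0) := by
  have hcont : ContinuousOn (fun y => √y * ‖QQ' h h' y‖) (Set.Ioi 0) :=
    (Real.continuous_sqrt.continuousOn).mul H.QQ'_cont.norm
  have hnorm : ∀ z : ℝ, 0 < z → ‖QQ' h h' z‖ ≤ z⁻¹ ^ 2 * ‖h z⁻¹‖ + z⁻¹ ^ 3 * ‖h' z⁻¹‖ := by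
    intro z hz
    unfold QQ'
    refine (norm_sub_le _ _).trans ?_
    rw [norm_neg, norm_mul, norm_mul, Complex.norm_real, Complex.norm_real,
      Real.norm_of_nonneg (by positivity), Real.norm_of_nonneg (by positivity)]
  rw [← Set.Ioc_union_Ioi_eq_Ioi (zero_le_one (α := ℝ))]
  apply IntegrableOn.union
  · have hc1 : ContinuousOn (fun y => √y * ‖QQ' h h' y‖) (Set.Ioc 0 1) := hcont.mono (fun x hx => hx.1)
    refine IntegrableOn.of_bound (by simp) (hc1.aestronglyMeasurable measurableSet_Ioc) (2 * C) ?_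
    · rw [ae_restrict_iff' measurableSet_Ioc]
      apply Filter.Eventually.of_forall
      intro z hz
      have hz0 : 0 < z := hz.1
      have hz1 : z ≤ 1 := hz.2
      have hi : 1 ≤ z⁻¹ := (one_le_inv₀ hz0).2 hz1
      have hi0 : 0 < z⁻¹ := inv_pos.2 hz0
      rw [Real.norm_of_nonneg (by positivity)]
      have h1 := H.b3 z⁻¹ hi0
      have h2 := H.b4 z⁻¹ hi
      have h3 := hnorm z hz0
      have h4 : z⁻¹ ^ 2 * ‖h z⁻¹‖ ≤ C * z := by
        calc z⁻¹ ^ 2 * ‖h z⁻¹‖ ≤ z⁻¹ ^ 2 * (C / z⁻¹ ^ 3) := mul_le_mul_of_nonneg_left h1 (by positivity)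
          _ = C * z := by field_simp
      have h5 : z⁻¹ ^ 3 * ‖h' z⁻¹‖ ≤ C := by
        calc z⁻¹ ^ 3 * ‖h' z⁻¹‖ ≤ z⁻¹ ^ 3 * (C / z⁻¹ ^ 3) := mul_le_mul_of_nonneg_left h2 (by positivity)
          _ = C := by field_simp
      have h6 : C * z ≤ C := by nlinarith [H.hC]
      have h7 : √z ≤ 1 := Real.sqrt_le_one.2 hz1
      have h8 : ‖QQ' h h' z‖ ≤ 2 * C := by linarith
      calc √z * ‖QQ' h h' z‖ ≤ 1 * (2 * C) := mul_le_mul h7 h8 (norm_nonneg _) zero_le_one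
        _ = _ := one_mul _
  · have hmaj : IntegrableOn (fun z : ℝ => 2 * C * z ^ (-2 : ℝ)) (Set.Ioi 1) :=
      (integrableOn_Ioi_rpow_of_lt (by norm_num) one_pos).const_mul _
    refine Integrable.mono' hmaj ?_ ?_
    · have hc2 : ContinuousOn (fun y => √y * ‖QQ' h h' y‖) (Set.Ioi 1) := hcont.mono (fun x hx => by
        have : (1:ℝ) < x := hx
        show (0:ℝ) < x
        linarith)
      exact hc2.aestronglyMeasurable measurableSet_Ioi
    · rw [ae_restrict_iff' measurableSet_Ioi]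
      apply Filter.Eventually.of_forall
      intro z hz
      have hz1 : (1:ℝ) < z := hz
      have hz0 : 0 < z := by linarith
      have hi0 : 0 < z⁻¹ := inv_pos.2 hz0
      have hs : 0 < √z := Real.sqrt_pos.2 hz0
      rw [Real.norm_of_nonneg (by positivity)]
      have h1 := H.b1 z⁻¹ hi0
      have h2 := H.b2 z⁻¹ hi0
      have h3 := hnorm z hz0
      rw [Real.sqrt_inv] at h1 h2
      have e : z ^ (-2 : ℝ) = (z ^ 2)⁻¹ := by
        rw [Real.rpow_neg hz0.le]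
        norm_cast
      rw [e]
      have hzz : √z * √z = z := Real.mul_self_sqrt hz0.le
      calc √z * ‖QQ' h h' z‖ ≤ √z * (z⁻¹ ^ 2 * (C * (√z)⁻¹) + z⁻¹ ^ 3 * (C / (√z)⁻¹)) := by
            apply mul_le_mul_of_nonneg_left _ hs.le
            refine h3.trans ?_
            apply add_le_add
            · exact mul_le_mul_of_nonneg_left h1 (by positivity)
            · exact mul_le_mul_of_nonneg_left h2 (by positivity)
        _ = C * (z ^ 2)⁻¹ * (√z * (√z)⁻¹) + C * (z ^ 3)⁻¹ * (√z * √z) := by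
            simp only [div_eq_mul_inv, inv_inv, inv_pow]
            ring
        _ = 2 * C * (z ^ 2)⁻¹ := by
            rw [hzz, mul_inv_cancel₀ hs.ne']
            field_simp
            ring

theorem HDec.QQ_tail {h h' : ℝ → ℂ} {C : ℝ} (H : HDec h h' C) :
    Tendsto (fun t : ℝ => √t * ‖QQ h t‖) atTop (𝓝 0) := by
  have h1 : Tendsto (fun t : ℝ => C * t⁻¹) atTop (𝓝 (C * 0)) := tendsto_inv_atTop_zero.const_mul C
  rw [mul_zero] at h1
  apply squeeze_zero' _ _ h1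
  · filter_upwards with t
    positivity
  · filter_upwards [eventually_gt_atTop (0:ℝ)] with t ht
    have hs : 0 < √t := Real.sqrt_pos.2 ht
    have h2 := H.b1 t⁻¹ (inv_pos.2 ht)
    rw [Real.sqrt_inv] at h2
    unfold QQ
    rw [norm_mul, Complex.norm_real, Real.norm_of_nonneg (inv_pos.2 ht).le]
    calc √t * (t⁻¹ * ‖h t⁻¹‖) ≤ √t * (t⁻¹ * (C * (√t)⁻¹)) := by
          apply mul_le_mul_of_nonneg_left _ hs.le
          exact mul_le_mul_of_nonneg_left h2 (inv_pos.2 ht).le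
      _ = C * t⁻¹ * (√t * (√t)⁻¹) := by ring
      _ = _ := by rw [mul_inv_cancel₀ hs.ne', mul_one]

noncomputable def dsum (h : ℝ → ℂ) (x : ℝ) : ℂ := ∑' m : ℕ, (mu m * ((m : ℝ)⁻¹ : ℝ)) * h ((m : ℝ)⁻¹ * x)

theorem HDec.term_bd {h h' : ℝ → ℂ} {C : ℝ} (H : HDec h h' C) {x : ℝ} (hx : 0 < x) (m : ℕ) :
    ‖(mu m * ((m : ℝ)⁻¹ : ℝ)) * h ((m : ℝ)⁻¹ * x)‖ ≤ C * √x * (m : ℝ) ^ (-(3/2) : ℝ) := by
  rcases Nat.eq_zero_or_pos m with h0 | h0
  · subst h0
    simp only [mu_zero, zero_mul, norm_zero]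
    have := H.hC
    positivity
  · have hm : (0:ℝ) < m := by exact_mod_cast h0
    have h1 := H.b1 ((m : ℝ)⁻¹ * x) (by positivity)
    rw [norm_mul, norm_mul, Complex.norm_real, Real.norm_of_nonneg (by positivity)]
    have h2 : (m : ℝ)⁻¹ * √((m : ℝ)⁻¹) = (m : ℝ) ^ (-(3/2) : ℝ) := by
      rw [Real.sqrt_eq_rpow, ← Real.rpow_neg_one, ← Real.rpow_mul hm.le, ← Real.rpow_add hm]
      norm_num
    rw [Real.sqrt_mul (by positivity)] at h1
    calc ‖mu m‖ * (m : ℝ)⁻¹ * ‖h ((m : ℝ)⁻¹ * x)‖ ≤ 1 * (m : ℝ)⁻¹ * (C * (√((m : ℝ)⁻¹) * √x)) := by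
          apply mul_le_mul _ h1 (norm_nonneg _) (by positivity)
          exact mul_le_mul_of_nonneg_right (norm_mu_le m) (by positivity)
      _ = C * √x * ((m : ℝ)⁻¹ * √((m : ℝ)⁻¹)) := by ring
      _ = _ := by rw [h2]

theorem summable_32 : Summable fun m : ℕ => (m : ℝ) ^ (-(3/2) : ℝ) :=
  Real.summable_nat_rpow.2 (by norm_num)

theorem HDec.summable {h h' : ℝ → ℂ} {C : ℝ} (H : HDec h h' C) {x : ℝ} (hx : 0 < x) :
    Summable fun m : ℕ => (mu m * ((m : ℝ)⁻¹ : ℝ)) * h ((m : ℝ)⁻¹ * x) :=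
  Summable.of_norm_bounded (summable_32.mul_left _) (fun m => H.term_bd hx m)

theorem HDec.dsum_bd {h h' : ℝ → ℂ} {C : ℝ} (H : HDec h h' C) {x : ℝ} (hx : 0 < x) :
    ‖dsum h x‖ ≤ (C * ∑' m : ℕ, (m : ℝ) ^ (-(3/2) : ℝ)) * √x := by
  have h1 := tsum_of_norm_bounded (summable_32.mul_left (C * √x)).hasSum (fun m => H.term_bd hx m)
  refine h1.trans (le_of_eq ?_)
  rw [tsum_mul_left]
  ring

theorem HDec.dsum_cont {h h' : ℝ → ℂ} {C : ℝ} (H : HDec h h' C) :
    ContinuousOn (dsum h) (Set.Ioi 0) := by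
  intro x hx
  have hx' : (0:ℝ) < x := hx
  apply ContinuousAt.continuousWithinAt
  have h1 : ContinuousOn (dsum h) (Set.Ioo 0 (x + 1)) := by
    unfold dsum
    apply continuousOn_tsum (u := fun m : ℕ => C * √(x + 1) * (m : ℝ) ^ (-(3/2) : ℝ))
    · intro m
      rcases Nat.eq_zero_or_pos m with h0 | h0
      · subst h0
        simp only [mu_zero, zero_mul]
        exact continuousOn_const
      · apply continuousOn_const.mul
        apply H.cont.comp (by fun_prop)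
        intro y hy
        have hy' : 0 < y := hy.1
        have hm : (0:ℝ) < m := by exact_mod_cast h0
        show (0:ℝ) < (m:ℝ)⁻¹ * y
        positivity
    · exact summable_32.mul_left _
    · intro m y hy
      refine (H.term_bd hy.1 m).trans ?_
      apply mul_le_mul_of_nonneg_right _ (by positivity)
      apply mul_le_mul_of_nonneg_left _ H.hC
      exact Real.sqrt_le_sqrt hy.2.le
  exact h1.continuousAt (Ioo_mem_nhds hx' (by linarith))

theorem HDec.dsum_bd2 {h h' : ℝ → ℂ} {C : ℝ} (H : HDec h h' C) {B : ℝ} (hM : MertensBd B)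
    {x : ℝ} (hx : 0 < x) :
    ‖dsum h x‖ ≤ (B * ∫ y in Set.Ioi 0, √y * ‖QQ' h h' y‖) / √x := by
  have hxi : 0 < x⁻¹ := inv_pos.2 hx
  have hterm : ∀ m : ℕ, (mu m * ((m : ℝ)⁻¹ : ℝ)) * h ((m : ℝ)⁻¹ * x) =
      ((x⁻¹ : ℝ) : ℂ) * (mu m * QQ h (m * x⁻¹)) := by
    intro m
    rcases Nat.eq_zero_or_pos m with h0 | h0
    · subst h0; simp
    · have hm : (0:ℝ) < m := by exact_mod_cast h0
      unfold QQ
      have e : ((m : ℝ) * x⁻¹)⁻¹ = (m : ℝ)⁻¹ * x := by field_simp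
      rw [e]
      push_cast
      have hx0 : (x : ℂ) ≠ 0 := by exact_mod_cast hx.ne'
      field_simp
  have e1 : dsum h x = ((x⁻¹ : ℝ) : ℂ) * ∑' m : ℕ, mu m * QQ h (m * x⁻¹) := by
    unfold dsum
    rw [← tsum_mul_left]
    congr 1
    ext m
    exact hterm m
  have hsum : Summable fun m : ℕ => mu m * QQ h (m * x⁻¹) := by
    have := (H.summable hx).mul_left ((x : ℝ) : ℂ)
    refine this.congr ?_
    intro m
    rw [hterm m, ← mul_assoc, ← Complex.ofReal_mul, mul_inv_cancel₀ hx.ne', Complex.ofReal_one, one_mul]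
  have key := tsum_bound mu mu_zero B hM.nonneg hM (QQ h) (QQ' h h') (fun y hy => H.QQ_deriv hy)
    H.QQ'_cont H.QQ'_int H.QQ_tail hxi hsum
  rw [e1, norm_mul, Complex.norm_real, Real.norm_of_nonneg hxi.le]
  have hs : 0 < √x := Real.sqrt_pos.2 hx
  have hss : √x * √x = x := Real.mul_self_sqrt hx.le
  calc x⁻¹ * ‖∑' m : ℕ, mu m * QQ h (m * x⁻¹)‖
      ≤ x⁻¹ * (B / √(x⁻¹) * ∫ y in Set.Ioi 0, √y * ‖QQ' h h' y‖) :=
        mul_le_mul_of_nonneg_left key hxi.le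
    _ = (B * ∫ y in Set.Ioi 0, √y * ‖QQ' h h' y‖) * (x⁻¹ * √x) := by
        rw [Real.sqrt_inv, div_inv_eq_mul]
        ring
    _ = _ := by
        have : x⁻¹ * √x = (√x)⁻¹ := by
          nth_rewrite 1 [← hss]
          field_simp
        rw [this, div_eq_mul_inv]

theorem HDec.hconv {h h' : ℝ → ℂ} {C : ℝ} (H : HDec h h' C) {w : ℂ} (hw : -(1/2) < w.re)
    (hw' : w.re < 3) : MellinConvergent h w := by
  apply mellinConvergent_of_isBigO_rpow (a := 3) (b := -(1/2))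
    (H.cont.locallyIntegrableOn measurableSet_Ioi)
  · apply Asymptotics.IsBigO.of_bound C
    filter_upwards [eventually_gt_atTop (0:ℝ)] with x hx
    have := H.b3 x hx
    rw [Real.norm_of_nonneg (by positivity), Real.rpow_neg hx.le]
    norm_cast
  · exact hw'
  · apply Asymptotics.IsBigO.of_bound C
    filter_upwards [self_mem_nhdsWithin] with x hx
    have hx' : (0:ℝ) < x := hx
    have := H.b1 x hx'
    rw [Real.norm_of_nonneg (by positivity), neg_neg, ← Real.sqrt_eq_rpow]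
    exact this
  · exact hw

theorem HDec.dmellin {h h' : ℝ → ℂ} {C : ℝ} (H : HDec h h' C) {w : ℂ} (hw : -(1/2) < w.re)
    (hw' : w.re < 0) : riemannZeta (1 - w) * mellin (dsum h) w = mellin h w := by
  have hsum : Summable fun m : ℕ => ‖mu m * (((m : ℝ)⁻¹ : ℝ) : ℂ)‖ * ((m : ℝ)⁻¹) ^ (-w.re) := by
    have h1 : Summable fun m : ℕ => (m : ℝ) ^ (-(1 - w.re)) := Real.summable_nat_rpow.2 (by linarith)
    apply Summable.of_nonneg_of_le (fun m => by positivity) _ h1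
    intro m
    rcases Nat.eq_zero_or_pos m with h0 | h0
    · subst h0
      simp only [mu_zero, zero_mul, norm_zero]
      positivity
    · have hm : (0:ℝ) < m := by exact_mod_cast h0
      rw [norm_mul, Complex.norm_real, Real.norm_of_nonneg (by positivity)]
      have e : (m : ℝ)⁻¹ * ((m : ℝ)⁻¹) ^ (-w.re) = (m : ℝ) ^ (-(1 - w.re)) := by
        rw [← Real.rpow_neg_one, ← Real.rpow_mul hm.le, ← Real.rpow_add hm]
        congr 1
        ring
      rw [mul_assoc, e]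
      have := norm_mu_le m
      have h2 : 0 ≤ (m : ℝ) ^ (-(1 - w.re)) := by positivity
      nlinarith
  have h1 := mellin_tsum (fun m => mu m * (((m : ℝ)⁻¹ : ℝ) : ℂ)) (fun m => (m : ℝ)⁻¹) (fun m => by
    rcases Nat.eq_zero_or_pos m with h0 | h0
    · left; subst h0; simp
    · right
      have hm : (0:ℝ) < m := by exact_mod_cast h0
      positivity) h w (H.hconv hw (by linarith)) hsum
  have h2 : mellin (dsum h) w = (∑' m : ℕ, mu m * (m : ℂ) ^ (-(1 - w))) * mellin h w := by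
    have e0 : mellin (dsum h) w = mellin (fun x => ∑' m : ℕ, mu m * (((m : ℝ)⁻¹ : ℝ) : ℂ) *
      h ((m : ℝ)⁻¹ * x)) w := rfl
    rw [e0, h1]
    congr 1
    congr 1
    ext m
    rcases Nat.eq_zero_or_pos m with h0 | h0
    · subst h0; simp
    · have hm : (0:ℝ) < m := by exact_mod_cast h0
      have hmc : (m : ℂ) ≠ 0 := by exact_mod_cast h0.ne'
      have e1 : (((m : ℝ)⁻¹ : ℝ) : ℂ) ^ (-w) = (m : ℂ) ^ w := by
        rw [Complex.ofReal_inv, Complex.inv_cpow, Complex.cpow_neg, inv_inv, Complex.ofReal_natCast]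
        rw [Complex.arg_ofReal_of_nonneg hm.le]
        exact Real.pi_pos.ne
      rw [e1, show -(1 - w) = w - 1 by ring, Complex.cpow_sub _ _ hmc, Complex.cpow_one]
      push_cast
      rw [mul_assoc]
      congr 1
      field_simp
  have hre : 1 < (1 - w).re := by simp; linarith
  rw [h2, ← mul_assoc, tsum_mu hre, one_mul]

theorem HDec.ddiff {h h' : ℝ → ℂ} {C : ℝ} (H : HDec h h' C) {B : ℝ} (hM : MertensBd B) {w : ℂ}
    (hw : -(1/2) < w.re) (hw' : w.re < 1/2) : DifferentiableAt ℂ (mellin (dsum h)) w := by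
  apply mellin_differentiableAt_of_isBigO_rpow (a := 1/2) (b := -(1/2))
    (H.dsum_cont.locallyIntegrableOn measurableSet_Ioi)
  · exact sqrt_bigO_top (fun x hx => H.dsum_bd2 hM hx)
  · exact hw'
  · apply Asymptotics.IsBigO.of_bound (C * ∑' m : ℕ, (m : ℝ) ^ (-(3/2) : ℝ))
    filter_upwards [self_mem_nhdsWithin] with x hx
    have hx' : (0:ℝ) < x := hx
    rw [Real.norm_of_nonneg (by positivity), neg_neg, ← Real.sqrt_eq_rpow]
    exact H.dsum_bd hx'
  · exact hw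

theorem HDec.dconv {h h' : ℝ → ℂ} {C : ℝ} (H : HDec h h' C) {B : ℝ} (hM : MertensBd B) {w : ℂ}
    (hw : -(1/2) < w.re) (hw' : w.re < 1/2) : MellinConvergent (dsum h) w := by
  apply mellinConvergent_of_isBigO_rpow (a := 1/2) (b := -(1/2))
    (H.dsum_cont.locallyIntegrableOn measurableSet_Ioi)
  · exact sqrt_bigO_top (fun x hx => H.dsum_bd2 hM hx)
  · exact hw'
  · apply Asymptotics.IsBigO.of_bound (C * ∑' m : ℕ, (m : ℝ) ^ (-(3/2) : ℝ))
    filter_upwards [self_mem_nhdsWithin] with x hx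
    have hx' : (0:ℝ) < x := hx
    rw [Real.norm_of_nonneg (by positivity), neg_neg, ← Real.sqrt_eq_rpow]
    exact H.dsum_bd hx'
  · exact hw

end Pool.Agent.Helper13.Mob
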