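import Pool.Agent.Helper13.MobJ

namespace Pool.Agent.Helper13.Mob

open Finset MeasureTheory Set Filter Topology

variable (l₁ l₂ : ℂ)

noncomputable def kf (t : ℝ) : ℂ := ss l₁ 1 * kk (al l₁ 1) t - ss l₂ (-1) * kk (al l₂ (-1)) t

variable {l₁ l₂}

theorem kf_dec (h1 : Adm l₁ 1) (h2 : Adm l₂ (-1)) :
    KDec (kf l₁ l₂) (‖ss l₁ 1‖ * (1 + 2 / (al l₁ 1).re) + ‖ss l₂ (-1)‖ * (1 + 2 / (al l₂ (-1)).re))
      (min (al l₁ 1).re (al l₂ (-1)).re / 2) := by
  have p1 := h1.al_pos
  have p2 := h2.al_pos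
  have hmin : 0 < min (al l₁ 1).re (al l₂ (-1)).re := lt_min p1 p2
  have k1 := kk_dec p1 (δ := min (al l₁ 1).re (al l₂ (-1)).re / 2) (by positivity)
    (by have := min_le_left (al l₁ 1).re (al l₂ (-1)).re; linarith)
  have k2 := kk_dec p2 (δ := min (al l₁ 1).re (al l₂ (-1)).re / 2) (by positivity)
    (by have := min_le_right (al l₁ 1).re (al l₂ (-1)).re; linarith)
  constructor
  · exact (continuousOn_const.mul k1.cont).sub (continuousOn_const.mul k2.cont)
  · positivity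
  · positivity
  · intro t ht
    unfold kf
    refine (norm_sub_le _ _).trans ?_
    rw [norm_mul, norm_mul, add_mul, mul_assoc, mul_assoc]
    apply add_le_add
    · exact mul_le_mul_of_nonneg_left (k1.bd t ht) (norm_nonneg _)
    · exact mul_le_mul_of_nonneg_left (k2.bd t ht) (norm_nonneg _)

theorem kf_mellin (h1 : Adm l₁ 1) (h2 : Adm l₂ (-1)) {w : ℂ} (hw : -(1/2) < w.re) :
    MellinConvergent (kf l₁ l₂) w ∧ mellin (kf l₁ l₂) w =
      ss l₁ 1 * mellin (kk (al l₁ 1)) w - ss l₂ (-1) * mellin (kk (al l₂ (-1))) w := by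
  have c1 := (kk_mellin h1.al_pos hw).1
  have c2 := (kk_mellin h2.al_pos hw).1
  have s1 := hasMellin_const_smul c1 (ss l₁ 1)
  have s2 := hasMellin_const_smul c2 (ss l₂ (-1))
  have s3 := hasMellin_sub s1.1 s2.1
  refine ⟨s3.1, ?_⟩
  have := s3.2
  rw [s1.2, s2.2] at this
  exact this

theorem kf_mellin_diff (h1 : Adm l₁ 1) (h2 : Adm l₂ (-1)) {w : ℂ} (hw : -(1/2) < w.re) :
    DifferentiableAt ℂ (mellin (kf l₁ l₂)) w := by
  have e : (mellin (kf l₁ l₂)) =ᶠ[𝓝 w] fun w => ss l₁ 1 * mellin (kk (al l₁ 1)) w -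
      ss l₂ (-1) * mellin (kk (al l₂ (-1))) w := by
    have : {z : ℂ | -(1/2) < z.re} ∈ 𝓝 w :=
      (isOpen_lt continuous_const Complex.continuous_re).mem_nhds hw
    filter_upwards [this] with z hz
    exact (kf_mellin h1 h2 hz).2
  apply DifferentiableAt.congr_of_eventuallyEq _ e
  exact ((kk_mellin_diff h1.al_pos hw).const_mul _).sub ((kk_mellin_diff h2.al_pos hw).const_mul _)

theorem asum_kf (h1 : Adm l₁ 1) (h2 : Adm l₂ (-1)) {x : ℝ} (hx : 0 < x) :
    asum (kf l₁ l₂) x = ss l₁ 1 * asum (kk (al l₁ 1)) x - ss l₂ (-1) * asum (kk (al l₂ (-1))) x := by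
  have q1 := ((kk_dec' h1.al_pos).summable hx).mul_left (ss l₁ 1)
  have q2 := ((kk_dec' h2.al_pos).summable hx).mul_left (ss l₂ (-1))
  unfold asum
  rw [← tsum_mul_left, ← tsum_mul_left, ← q1.tsum_sub q2]
  congr 1
  ext n
  unfold kf
  ring

noncomputable def CF (l₁ l₂ : ℂ) (B : ℝ) : ℝ :=
  ‖ss l₁ 1‖ * (B * Cα (al l₁ 1)) + ‖ss l₂ (-1)‖ * (B * Cα (al l₂ (-1)))

theorem asum_kf_bd (h1 : Adm l₁ 1) (h2 : Adm l₂ (-1)) {B : ℝ} (hM : MertensBd B) {x : ℝ} (hx : 0 < x) :
    ‖asum (kf l₁ l₂) x‖ ≤ CF l₁ l₂ B / √x := by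
  rw [asum_kf h1 h2 hx]
  refine (norm_sub_le _ _).trans ?_
  rw [norm_mul, norm_mul]
  have e : CF l₁ l₂ B / √x = ‖ss l₁ 1‖ * ((B * Cα (al l₁ 1)) / √x) +
      ‖ss l₂ (-1)‖ * ((B * Cα (al l₂ (-1))) / √x) := by
    unfold CF
    ring
  rw [e]
  apply add_le_add
  · exact mul_le_mul_of_nonneg_left (hM.asum_kk h1.al_pos hx) (norm_nonneg _)
  · exact mul_le_mul_of_nonneg_left (hM.asum_kk h2.al_pos hx) (norm_nonneg _)

theorem kf_half (h1 : Adm l₁ 1) (h2 : Adm l₂ (-1)) {B : ℝ} (hM : MertensBd B) {w : ℂ}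
    (hw : 1/2 < w.re) (hw1 : w ≠ 1) :
    riemannZeta w * mellin (asum (kf l₁ l₂)) w = mellin (kf l₁ l₂) w :=
  (kf_dec h1 h2).mellin_half (fun _ hx => asum_kf_bd h1 h2 hM hx)
    (fun z hz => kf_mellin_diff h1 h2 (by linarith))
    (fun z hz => (kf_mellin h1 h2 (by linarith)).1) hw hw1

noncomputable def chi (w : ℂ) : ℂ :=
  2 * (2 * Real.pi : ℂ) ^ (-w) * Complex.Gamma w * Complex.cos (Real.pi * w / 2)

theorem hf_mellin (h1 : Adm l₁ 1) (h2 : Adm l₂ (-1)) {w : ℂ} (hw : -(1/2) < w.re)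
    (hw' : w.re < 0) : mellin (hf l₁ l₂) w = mellin (kf l₁ l₂) w * chi w := by
  have c1 := (h1.hh_mellin hw hw').1
  have c2 := (h2.hh_mellin hw hw').1
  have s3 := hasMellin_sub c1 c2
  have s4 := hasMellin_const_smul s3.1 (√Real.pi : ℂ)
  have e : mellin (hf l₁ l₂) w = (√Real.pi : ℂ) * (mellin (hh l₁ 1) w - mellin (hh l₂ (-1)) w) := by
    have := s4.2
    rw [s3.2] at this
    exact this
  rw [e, (kf_mellin h1 h2 hw).2, mul_sub, h1.fe hw hw', h2.fe hw hw']
  unfold chi
  ring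

theorem chi_ne {w : ℂ} (hw : -(1/2) < w.re) (hw' : w.re < 0) : chi w ≠ 0 := by
  unfold chi
  apply mul_ne_zero (mul_ne_zero (mul_ne_zero (by norm_num) _) _)
  · intro hc
    rw [Complex.cos_eq_zero_iff] at hc
    obtain ⟨k, hk⟩ := hc
    have hpi : (Real.pi : ℂ) ≠ 0 := by exact_mod_cast Real.pi_pos.ne'
    have h3 : w = 2 * k + 1 := by
      have h4 : (Real.pi : ℂ) * w = (Real.pi : ℂ) * (2 * k + 1) := by
        have : (Real.pi : ℂ) * w / 2 * 2 = (2 * k + 1) * Real.pi / 2 * 2 := by rw [hk]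
        calc (Real.pi : ℂ) * w = (Real.pi : ℂ) * w / 2 * 2 := by ring
          _ = (2 * k + 1) * Real.pi / 2 * 2 := this
          _ = _ := by ring
      exact mul_left_cancel₀ hpi h4
    have h5 : w.re = 2 * k + 1 := by
      rw [h3]
      simp
    rw [h5] at hw hw'
    have h6 : (-1 : ℝ) < k := by linarith
    have h7 : (k : ℝ) < 0 := by linarith
    have h8 : -1 < k := by exact_mod_cast h6
    have h9 : k < 0 := by exact_mod_cast h7
    omega
  · rw [Complex.cpow_def_of_ne_zero]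
    · exact Complex.exp_ne_zero _
    · norm_cast
      positivity
  · apply Complex.Gamma_ne_zero
    intro m hm
    rw [hm] at hw hw'
    simp only [Complex.neg_re, Complex.natCast_re] at hw hw'
    have h6 : (m : ℝ) < 1 := by linarith
    have h7 : (0 : ℝ) < m := by linarith
    have h8 : m < 1 := by exact_mod_cast h6
    have h9 : 0 < m := by exact_mod_cast h7
    omega

theorem kd_strip (h1 : Adm l₁ 1) (h2 : Adm l₂ (-1)) {B : ℝ} (hM : MertensBd B) {w : ℂ}
    (hw : -(1/2) < w.re) (hw' : w.re < 1/2) :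
    riemannZeta w * mellin (dsum (hf l₁ l₂)) w = mellin (kf l₁ l₂) w := by
  have H := hf_dec h1 h2
  set U : Set ℂ := {z | -(1/2) < z.re} ∩ {z | z.re < 1/2} with hU
  have hUo : IsOpen U := (isOpen_lt continuous_const Complex.continuous_re).inter
    (isOpen_lt Complex.continuous_re continuous_const)
  have hUc : IsPreconnected U :=
    ((convex_halfSpace_re_gt _).inter (convex_halfSpace_re_lt _)).isPreconnected
  have hf : AnalyticOnNhd ℂ (fun z => riemannZeta z * mellin (dsum (hf l₁ l₂)) z) U := by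
    apply DifferentiableOn.analyticOnNhd _ hUo
    intro z hz
    have hz1 : z ≠ 1 := by
      intro h
      have := hz.2
      rw [h] at this
      simp only [Set.mem_ofPred_eq, Complex.one_re] at this
      norm_num at this
    exact ((differentiableAt_riemannZeta hz1).mul (H.ddiff hM hz.1 hz.2)).differentiableWithinAt
  have hg : AnalyticOnNhd ℂ (mellin (kf l₁ l₂)) U := by
    apply DifferentiableOn.analyticOnNhd _ hUo
    intro z hz
    exact (kf_mellin_diff h1 h2 hz.1).differentiableWithinAt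
  have h4 : (-(1/4) : ℂ) ∈ U := by
    constructor
    · show -(1/2) < (-(1/4) : ℂ).re
      norm_num
    · show (-(1/4) : ℂ).re < 1/2
      norm_num
  have hev : (fun z => riemannZeta z * mellin (dsum (Mob.hf l₁ l₂)) z) =ᶠ[𝓝 (-(1/4) : ℂ)]
      (mellin (kf l₁ l₂)) := by
    have : {z : ℂ | -(1/2) < z.re} ∩ {z | z.re < 0} ∈ 𝓝 (-(1/4) : ℂ) := by
      apply ((isOpen_lt continuous_const Complex.continuous_re).inter
        (isOpen_lt Complex.continuous_re continuous_const)).mem_nhds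
      constructor
      · show -(1/2) < (-(1/4) : ℂ).re
        norm_num
      · show (-(1/4) : ℂ).re < 0
        norm_num
    filter_upwards [this] with z hz
    have e1 := H.dmellin hz.1 hz.2
    rw [hf_mellin h1 h2 hz.1 hz.2] at e1
    have hz1 : z ≠ 1 := by
      intro h
      have := hz.2
      rw [h] at this
      simp only [Set.mem_ofPred_eq, Complex.one_re] at this
      norm_num at this
    have hzn : ∀ n : ℕ, z ≠ -n := by
      intro n hn
      have a1 := hz.1
      have a2 := hz.2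
      rw [hn] at a1 a2
      simp only [Set.mem_ofPred_eq, Complex.neg_re, Complex.natCast_re] at a1 a2
      have h6 : (n : ℝ) < 1 := by linarith
      have h7 : (0 : ℝ) < n := by linarith
      have h8 : n < 1 := by exact_mod_cast h6
      have h9 : 0 < n := by exact_mod_cast h7
      omega
    have e2 : riemannZeta (1 - z) = chi z * riemannZeta z := riemannZeta_one_sub hzn hz1
    rw [e2] at e1
    have hc := chi_ne hz.1 hz.2
    apply mul_left_cancel₀ hc
    calc chi z * (riemannZeta z * mellin (dsum (Mob.hf l₁ l₂)) z)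
        = chi z * riemannZeta z * mellin (dsum (Mob.hf l₁ l₂)) z := by ring
      _ = _ := by rw [e1]; ring
  exact hf.eqOn_of_preconnected_of_eventuallyEq hg hUc h4 hev ⟨hw, hw'⟩

end Pool.Agent.Helper13.Mob
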