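import Mathlib

namespace Pool.Agent.Helper13.Mob

open Finset MeasureTheory Set Filter Topology FourierTransform

/-- triangle function -/
noncomputable def tri (t : ℝ) : ℝ := max 0 (1 - |t|)

/-- Fejér kernel -/
noncomputable def fej (v : ℝ) : ℝ := if v = 0 then 1 else 2 * (1 - Real.cos v) / v ^ 2

theorem tri_cont : Continuous tri := by unfold tri; fun_prop

theorem tri_nonneg (t : ℝ) : 0 ≤ tri t := le_max_left _ _

theorem tri_zero : tri 0 = 1 := by simp [tri]

theorem tri_eq_zero {t : ℝ} (h : 1 ≤ |t|) : tri t = 0 := by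
  unfold tri
  rw [max_eq_left]
  linarith

theorem tri_le_one (t : ℝ) : tri t ≤ 1 := by
  unfold tri
  apply max_le (by norm_num)
  linarith [abs_nonneg t]

theorem tri_supp : HasCompactSupport tri := by
  apply HasCompactSupport.intro (isCompact_Icc (a := (-1:ℝ)) (b := 1))
  intro t ht
  apply tri_eq_zero
  by_contra h
  push Not at h
  exact ht ⟨(abs_lt.1 h).1.le, (abs_lt.1 h).2.le⟩

theorem tri_int : Integrable tri := tri_cont.integrable_of_hasCompactSupport tri_supp

theorem fej_nonneg (v : ℝ) : 0 ≤ fej v := by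
  unfold fej
  split_ifs
  · norm_num
  · have := Real.cos_le_one v
    apply div_nonneg _ (by positivity)
    linarith

theorem fej_le (v : ℝ) : fej v ≤ 8 * (1 + v ^ 2)⁻¹ := by
  rw [← div_eq_mul_inv, le_div_iff₀ (by positivity)]
  unfold fej
  split_ifs with h
  · rw [h]; norm_num
  · have hv : 0 < v ^ 2 := by positivity
    have h1 := Real.cos_le_one v
    have h2 := Real.neg_one_le_cos v
    have h3 := Real.one_sub_sq_div_two_le_cos (x := v)
    rcases le_or_gt (v ^ 2) 1 with h4 | h4
    · have h5 : 2 * (1 - Real.cos v) / v ^ 2 ≤ 1 := by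
        rw [div_le_one hv]
        linarith
      have h6 : 0 ≤ 2 * (1 - Real.cos v) / v ^ 2 := div_nonneg (by linarith) hv.le
      nlinarith
    · have h5 : 2 * (1 - Real.cos v) / v ^ 2 ≤ 4 / v ^ 2 :=
        div_le_div_of_nonneg_right (by linarith) hv.le
      calc 2 * (1 - Real.cos v) / v ^ 2 * (1 + v ^ 2) ≤ 4 / v ^ 2 * (1 + v ^ 2) :=
            mul_le_mul_of_nonneg_right h5 (by positivity)
        _ = 4 / v ^ 2 + 4 := by field_simp
        _ ≤ 4 + 4 := by
            have : 4 / v ^ 2 ≤ 4 := by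
              rw [div_le_iff₀ hv]
              nlinarith
            linarith
        _ = 8 := by norm_num

theorem fej_meas : Measurable fej := by
  unfold fej
  apply Measurable.ite (measurableSet_singleton 0) measurable_const
  fun_prop

theorem fej_int : Integrable fej := by
  refine Integrable.mono' (integrable_inv_one_add_sq.const_mul 8) fej_meas.aestronglyMeasurable ?_
  apply Filter.Eventually.of_forall
  intro v
  rw [Real.norm_of_nonneg (fej_nonneg v)]
  exact fej_le v

/-- antiderivatives -/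
theorem int_right {a : ℂ} (ha : a ≠ 0) :
    ∫ t in (0:ℝ)..1, ((1 - t : ℝ) : ℂ) * Complex.exp (a * t) = (Complex.exp a - 1) / a ^ 2 - 1 / a := by
  have hd : ∀ t ∈ Set.uIcc (0:ℝ) 1, HasDerivAt (fun t : ℝ => ((1 - t : ℝ) : ℂ) * Complex.exp (a * t) / a +
      Complex.exp (a * t) / a ^ 2) (((1 - t : ℝ) : ℂ) * Complex.exp (a * t)) t := by
    intro t _
    have h1 : HasDerivAt (fun t : ℝ => ((1 - t : ℝ) : ℂ)) ((-1 : ℝ) : ℂ) t := by
      have : HasDerivAt (fun t : ℝ => (1 - t : ℝ)) (-1) t := by
        simpa using (hasDerivAt_id t).const_sub 1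
      exact this.ofReal_comp
    have h2 : HasDerivAt (fun t : ℝ => Complex.exp (a * t)) (Complex.exp (a * t) * (a * 1)) t :=
      ((Complex.ofRealCLM.hasDerivAt (x := t)).const_mul a).cexp
    have h3 := ((h1.mul h2).div_const a).add (h2.div_const (a ^ 2))
    have e : ((1 - t : ℝ) : ℂ) * Complex.exp (a * t) =
      (((-1 : ℝ) : ℂ) * Complex.exp (a * t) + ((1 - t : ℝ) : ℂ) * (Complex.exp (a * t) * (a * 1))) / a +
        Complex.exp (a * t) * (a * 1) / a ^ 2 := by
      push_cast
      field_simp
      ring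
    rw [e]
    exact h3
  rw [intervalIntegral.integral_eq_sub_of_hasDerivAt hd]
  · simp
    field_simp
    ring
  · apply Continuous.intervalIntegrable
    fun_prop

theorem int_left {a : ℂ} (ha : a ≠ 0) :
    ∫ t in (-1:ℝ)..0, ((1 + t : ℝ) : ℂ) * Complex.exp (a * t) = 1 / a + (Complex.exp (-a) - 1) / a ^ 2 := by
  have hd : ∀ t ∈ Set.uIcc (-1:ℝ) 0, HasDerivAt (fun t : ℝ => ((1 + t : ℝ) : ℂ) * Complex.exp (a * t) / a -
      Complex.exp (a * t) / a ^ 2) (((1 + t : ℝ) : ℂ) * Complex.exp (a * t)) t := by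
    intro t _
    have h1 : HasDerivAt (fun t : ℝ => ((1 + t : ℝ) : ℂ)) ((1 : ℝ) : ℂ) t := by
      have : HasDerivAt (fun t : ℝ => (1 + t : ℝ)) 1 t := by
        simpa using (hasDerivAt_id t).const_add 1
      exact this.ofReal_comp
    have h2 : HasDerivAt (fun t : ℝ => Complex.exp (a * t)) (Complex.exp (a * t) * (a * 1)) t :=
      ((Complex.ofRealCLM.hasDerivAt (x := t)).const_mul a).cexp
    have h3 := ((h1.mul h2).div_const a).sub (h2.div_const (a ^ 2))
    have e : ((1 + t : ℝ) : ℂ) * Complex.exp (a * t) =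
      (((1 : ℝ) : ℂ) * Complex.exp (a * t) + ((1 + t : ℝ) : ℂ) * (Complex.exp (a * t) * (a * 1))) / a -
        Complex.exp (a * t) * (a * 1) / a ^ 2 := by
      push_cast
      field_simp
      ring
    rw [e]
    exact h3
  rw [intervalIntegral.integral_eq_sub_of_hasDerivAt hd]
  · simp
    field_simp
    ring
  · apply Continuous.intervalIntegrable
    fun_prop

theorem int_tri (f : ℝ → ℂ) (hf : Continuous f) : ∫ t : ℝ, (tri t : ℂ) * f t =
    (∫ t in (-1:ℝ)..0, ((1 + t : ℝ) : ℂ) * f t) + ∫ t in (0:ℝ)..1, ((1 - t : ℝ) : ℂ) * f t := by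
  have hc : Continuous (fun t : ℝ => (tri t : ℂ) * f t) :=
    (Complex.continuous_ofReal.comp tri_cont).mul hf
  have h0 : ∫ t : ℝ, (tri t : ℂ) * f t = ∫ t in (-1:ℝ)..1, (tri t : ℂ) * f t := by
    symm
    apply intervalIntegral.integral_eq_integral_of_support_subset
    intro t ht
    rw [Function.mem_support] at ht
    by_contra h
    apply ht
    have : tri t = 0 ∨ t = -1 := by
      by_cases h1 : t = -1
      · right; exact h1
      · left
        apply tri_eq_zero
        by_contra h2
        push Not at h2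
        exact h ⟨(abs_lt.1 h2).1, (abs_lt.1 h2).2.le⟩
    rcases this with h1 | h1
    · rw [h1]; simp
    · rw [h1, tri_eq_zero (by norm_num)]; simp
  rw [h0, ← intervalIntegral.integral_add_adjacent_intervals (b := 0)
    (hc.intervalIntegrable _ _) (hc.intervalIntegrable _ _)]
  congr 1
  · apply intervalIntegral.integral_congr
    intro t ht
    rw [Set.uIcc_of_le (by norm_num)] at ht
    simp only
    congr 2
    unfold tri
    rw [abs_of_nonpos ht.2, max_eq_right (by linarith [ht.1])]
    ring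
  · apply intervalIntegral.integral_congr
    intro t ht
    rw [Set.uIcc_of_le (by norm_num)] at ht
    simp only
    congr 2
    unfold tri
    rw [abs_of_nonneg ht.1, max_eq_right (by linarith [ht.2])]

theorem fej_eq (v : ℝ) : (fej v : ℂ) = ∫ t : ℝ, (tri t : ℂ) * Complex.exp (-(t * v * Complex.I)) := by
  rcases eq_or_ne v 0 with h | h
  · subst h
    simp only [Complex.ofReal_zero, mul_zero, zero_mul, neg_zero, Complex.exp_zero]
    rw [int_tri (fun _ => 1) continuous_const]
    simp only [mul_one]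
    unfold fej
    simp only [if_true]
    have e1 : ∫ t in (-1:ℝ)..0, ((1 + t : ℝ) : ℂ) = ((1/2 : ℝ) : ℂ) := by
      rw [intervalIntegral.integral_ofReal]
      congr 1
      have : ∫ t in (-1:ℝ)..0, (1 + t) = 1/2 := by
        rw [intervalIntegral.integral_add (by simp) (by simp)]
        simp
        norm_num
      exact this
    have e2 : ∫ t in (0:ℝ)..1, ((1 - t : ℝ) : ℂ) = ((1/2 : ℝ) : ℂ) := by
      rw [intervalIntegral.integral_ofReal]
      congr 1
      have : ∫ t in (0:ℝ)..1, (1 - t) = 1/2 := by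
        rw [intervalIntegral.integral_sub (by simp) (by simp)]
        simp
        norm_num
      exact this
    rw [e1, e2]
    norm_num
  · rw [int_tri (fun t : ℝ => Complex.exp (-(t * v * Complex.I))) (by fun_prop)]
    set a : ℂ := -(v * Complex.I) with ha
    have hv : (v : ℂ) ≠ 0 := by exact_mod_cast h
    have ha0 : a ≠ 0 := by
      rw [ha, neg_ne_zero]
      exact mul_ne_zero hv Complex.I_ne_zero
    have e : ∀ t : ℝ, Complex.exp (-(t * v * Complex.I)) = Complex.exp (a * t) := by
      intro t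
      congr 1
      rw [ha]
      ring
    simp only [e]
    rw [int_left ha0, int_right ha0]
    have h2 : a ^ 2 = -(v : ℂ) ^ 2 := by
      rw [ha, neg_sq, mul_pow, Complex.I_sq]
      ring
    have hcos : Complex.exp a + Complex.exp (-a) = 2 * (Real.cos v : ℂ) := by
      rw [ha, neg_neg, Complex.ofReal_cos, Complex.two_cos]
      rw [add_comm]
      congr 2
      ring
    have : 1 / a + (Complex.exp (-a) - 1) / a ^ 2 + ((Complex.exp a - 1) / a ^ 2 - 1 / a) =
        ((Complex.exp a + Complex.exp (-a)) - 2) / a ^ 2 := by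
      ring
    rw [this, hcos, h2]
    unfold fej
    rw [if_neg h]
    push_cast
    field_simp
    ring

/-- Fourier inversion for the Fejér kernel -/
theorem fej_inv (ω : ℝ) : ∫ v : ℝ, (fej v : ℂ) * Complex.exp (ω * v * Complex.I) =
    2 * Real.pi * (tri ω : ℂ) := by
  have hF : ∀ ξ : ℝ, 𝓕 (fun t : ℝ => (tri t : ℂ)) ξ = (fej (2 * Real.pi * ξ) : ℂ) := by
    intro ξ
    rw [Real.fourier_eq', fej_eq]
    congr 1
    ext t
    rw [smul_eq_mul, mul_comm]
    congr 2
    simp
    ring
  have hc : Continuous (fun t : ℝ => (tri t : ℂ)) := Complex.continuous_ofReal.comp tri_cont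
  have hi : Integrable (fun t : ℝ => (tri t : ℂ)) := tri_int.ofReal
  have h2pi : (0:ℝ) < 2 * Real.pi := by positivity
  have hFi : Integrable (𝓕 (fun t : ℝ => (tri t : ℂ))) := by
    have : (𝓕 (fun t : ℝ => (tri t : ℂ))) = fun ξ => (fej (2 * Real.pi * ξ) : ℂ) := by
      ext ξ; exact hF ξ
    rw [this]
    exact (fej_int.comp_mul_left' h2pi.ne').ofReal
  have hinv := congrFun (hc.fourierInv_fourier_eq hi hFi) ω
  rw [Real.fourierInv_eq'] at hinv
  simp only [hF] at hinv
  have e1 : ∫ v : ℝ, Complex.exp (↑(2 * Real.pi * inner ℝ v ω) * Complex.I) •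
      ((fej (2 * Real.pi * v) : ℝ) : ℂ) = ∫ v : ℝ, (fun y : ℝ => (fej y : ℂ) *
        Complex.exp (ω * y * Complex.I)) ((2 * Real.pi) * v) := by
    congr 1
    ext v
    simp only [smul_eq_mul]
    rw [mul_comm]
    congr 2
    simp
    ring
  rw [e1, Measure.integral_comp_mul_left (fun y : ℝ => (fej y : ℂ) *
        Complex.exp (ω * y * Complex.I)) (2 * Real.pi)] at hinv
  rw [abs_of_pos (by positivity), Complex.real_smul] at hinv
  rw [← hinv]
  push_cast
  have : (Real.pi : ℂ) ≠ 0 := by exact_mod_cast Real.pi_pos.ne'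
  rw [← mul_assoc, mul_inv_cancel₀ (by simpa using this), one_mul]

theorem fej_integral : ∫ v : ℝ, fej v = 2 * Real.pi := by
  have h := fej_inv 0
  simp only [Complex.ofReal_zero, zero_mul, Complex.exp_zero, mul_one, tri_zero,
    Complex.ofReal_one] at h
  rw [integral_complex_ofReal] at h
  exact_mod_cast h

end Pool.Agent.Helper13.Mob
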