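import Pool.Agent.Helper13.MobL
import Pool.Agent.Helper13.MobM

namespace Pool.Agent.Helper13.Mob

open Finset MeasureTheory Set Filter Topology

/-- simultaneous recurrence -/
theorem recurrence (Γ : Finset ℝ) {ε : ℝ} (hε : 0 < ε) (V : ℝ) :
    ∃ τ : ℝ, V ≤ τ ∧ ∀ γ ∈ Γ, ‖Complex.exp (γ * τ * Complex.I) - 1‖ < ε := by
  set W : ℝ := max V 1 with hW
  have hW1 : 1 ≤ W := le_max_right _ _
  let x : ℕ → (Γ → ℂ) := fun n γ => Complex.exp ((γ : ℝ) * (W * n) * Complex.I)
  have hbd : ∀ n, x n ∈ Metric.closedBall (0 : Γ → ℂ) 1 := by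
    intro n
    rw [mem_closedBall_zero_iff, pi_norm_le_iff_of_nonneg zero_le_one]
    intro γ
    simp only [x]
    rw [Complex.norm_exp]
    simp
  obtain ⟨a, -, φ, hφ, hlim⟩ := tendsto_subseq_of_bounded Metric.isBounded_closedBall hbd
  have hcau := hlim.cauchySeq
  rw [Metric.cauchySeq_iff] at hcau
  obtain ⟨N, hN⟩ := hcau ε hε
  have h1 := hN (N + 1) (by omega) N le_rfl
  have hlt : φ N < φ (N + 1) := hφ (by omega)
  refine ⟨W * (φ (N + 1) - φ N : ℕ), ?_, ?_⟩
  · have h2 : (1:ℝ) ≤ ((φ (N + 1) - φ N : ℕ) : ℝ) := by
      have : 1 ≤ φ (N + 1) - φ N := by omega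
      exact_mod_cast this
    calc V ≤ W := le_max_left _ _
      _ ≤ W * (φ (N + 1) - φ N : ℕ) := by nlinarith
  · intro γ hγ
    have h3 : dist ((x ∘ φ) (N + 1) ⟨γ, hγ⟩) ((x ∘ φ) N ⟨γ, hγ⟩) < ε :=
      lt_of_le_of_lt (dist_le_pi_dist _ _ _) h1
    simp only [Function.comp_apply, x] at h3
    rw [dist_eq_norm] at h3
    have e : Complex.exp (γ * (W * (φ (N + 1)) : ℂ) * Complex.I) -
        Complex.exp (γ * (W * (φ N) : ℂ) * Complex.I) =
        Complex.exp (γ * (W * (φ N) : ℂ) * Complex.I) *
        (Complex.exp (γ * ((W * (φ (N + 1) - φ N : ℕ) : ℝ) : ℂ) * Complex.I) - 1) := by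
      rw [mul_sub, mul_one, ← Complex.exp_add]
      congr 2
      push_cast [Nat.cast_sub hlt.le]
      ring
    rw [e, norm_mul, Complex.norm_exp] at h3
    simpa using h3

/-- Spectral sup bound -/
theorem sup_bound {g : ℝ → ℂ} (hg : Continuous g) {C : ℝ} (hC : ∀ v, ‖g v‖ ≤ C) {G : ℂ → ℂ}
    {r : ℝ} (hr : 0 < r)
    (hp : ∀ s : ℂ, 0 < s.re → s.re < r →
      ∫ v in Set.Ioi (0:ℝ), g v * Complex.exp (-(s * v)) = G s)
    (hm : ∀ s : ℂ, -r < s.re → s.re < 0 →
      ∫ v in Set.Iic (0:ℝ), g v * Complex.exp (-(s * v)) = -G s)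
    (hspec : ∀ T : ℝ, 0 < T → ∃ (Γ : Finset ℝ) (c : ℝ → ℂ), ∀ t ∈ Set.Icc (-T) T,
      ∃ ℓ, Tendsto (fun s => G s - ∑ γ ∈ Γ, c γ / (s - γ * Complex.I))
        (𝓝[{s : ℂ | s.re ≠ 0}] (t * Complex.I)) (𝓝 ℓ))
    {C₀ : ℝ} (hC₀ : 0 ≤ C₀) (hlimsup : ∀ ε > 0, ∀ᶠ v in atTop, ‖g v‖ ≤ C₀ + ε) (u : ℝ) :
    ‖g u‖ ≤ C₀ := by
  have hCnn : 0 ≤ C := (norm_nonneg _).trans (hC 0)
  -- kernel at scale L
  let K : ℝ → ℝ → ℝ := fun L v => L * fej (L * v)
  have hKnn : ∀ L, 0 < L → ∀ v, 0 ≤ K L v := fun L hL v => mul_nonneg hL.le (fej_nonneg _)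
  have hKint : ∀ L, 0 < L → Integrable (K L) := fun L hL =>
    (fej_int.comp_mul_left' hL.ne').const_mul L
  have hKtot : ∀ L, 0 < L → ∫ v, K L v = 2 * Real.pi := by
    intro L hL
    simp only [K]
    rw [integral_const_mul, Measure.integral_comp_mul_left, fej_integral, abs_of_pos (by positivity),
      smul_eq_mul]
    field_simp
  -- the smoothed function
  let q : ℝ → ℝ → ℂ := fun L u => ∫ v, g (v + u) * (K L v : ℂ)
  have hgK : ∀ L, 0 < L → ∀ u, Integrable (fun v => g (v + u) * (K L v : ℂ)) := by
    intro L hL u
    apply Integrable.bdd_mul (c := C) (hKint L hL).ofReal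
    · exact (hg.comp (continuous_add_const u)).aestronglyMeasurable
    · exact Filter.Eventually.of_forall (fun v => hC _)
  -- trig polynomial
  have htrig : ∀ L, 0 < L → ∃ (Γ : Finset ℝ) (b : ℝ → ℂ), ∀ u, q L u =
      ∑ γ ∈ Γ, b γ * Complex.exp (γ * u * Complex.I) := by
    intro L hL
    obtain ⟨Γ, c, hΓ⟩ := hspec L hL
    refine ⟨Γ, fun γ => c γ * ∫ v : ℝ, Complex.exp (γ * v * Complex.I) * (K L v : ℂ), ?_⟩
    intro u
    -- g₁
    set g₁ : ℝ → ℂ := fun v => g v - ∑ γ ∈ Γ, c γ * Complex.exp (γ * v * Complex.I) with hg₁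
    have hg₁c : Continuous g₁ := by
      apply hg.sub
      apply continuous_finsetSum
      intro γ _
      fun_prop
    have hn1 : ∀ (γ v : ℝ), ‖Complex.exp (γ * v * Complex.I)‖ = 1 := by
      intro γ v
      rw [Complex.norm_exp]
      simp
    have hg₁b : ∀ v, ‖g₁ v‖ ≤ C + ∑ γ ∈ Γ, ‖c γ‖ := by
      intro v
      refine (norm_sub_le _ _).trans ?_
      apply add_le_add (hC v)
      refine (norm_sum_le _ _).trans ?_
      apply Finset.sum_le_sum
      intro γ _
      rw [norm_mul, hn1, mul_one]
    have hexp_p : ∀ (γ : ℝ) (s : ℂ), 0 < s.re → IntegrableOn (fun v : ℝ => Complex.exp (γ * v * Complex.I) *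
        Complex.exp (-(s * v))) (Set.Ioi 0) ∧ ∫ v in Set.Ioi (0:ℝ), Complex.exp (γ * v * Complex.I) *
        Complex.exp (-(s * v)) = 1 / (s - γ * Complex.I) := by
      intro γ s hs
      have e : (fun v : ℝ => Complex.exp (γ * v * Complex.I) * Complex.exp (-(s * v))) =
          fun v : ℝ => Complex.exp ((γ * Complex.I - s) * v) := by
        ext v
        rw [← Complex.exp_add]
        congr 1
        ring
      have hre : (γ * Complex.I - s).re < 0 := by simpa using hs
      rw [e]
      refine ⟨integrableOn_exp_mul_complex_Ioi hre 0, ?_⟩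
      rw [integral_exp_mul_complex_Ioi hre]
      simp only [Complex.ofReal_zero, mul_zero, Complex.exp_zero]
      rw [← neg_sub s (γ * Complex.I), neg_div_neg_eq]
    have hexp_m : ∀ (γ : ℝ) (s : ℂ), s.re < 0 → IntegrableOn (fun v : ℝ => Complex.exp (γ * v * Complex.I) *
        Complex.exp (-(s * v))) (Set.Iic 0) ∧ ∫ v in Set.Iic (0:ℝ), Complex.exp (γ * v * Complex.I) *
        Complex.exp (-(s * v)) = -(1 / (s - γ * Complex.I)) := by
      intro γ s hs
      have e : (fun v : ℝ => Complex.exp (γ * v * Complex.I) * Complex.exp (-(s * v))) =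
          fun v : ℝ => Complex.exp ((γ * Complex.I - s) * v) := by
        ext v
        rw [← Complex.exp_add]
        congr 1
        ring
      have hre : 0 < (γ * Complex.I - s).re := by simpa using hs
      rw [e]
      refine ⟨integrableOn_exp_mul_complex_Iic hre 0, ?_⟩
      rw [integral_exp_mul_complex_Iic hre]
      simp only [Complex.ofReal_zero, mul_zero, Complex.exp_zero]
      rw [← neg_sub s (γ * Complex.I), div_neg]
    have hgi_p : ∀ s : ℂ, 0 < s.re → IntegrableOn (fun v : ℝ => g v * Complex.exp (-(s * v))) (Set.Ioi 0) := by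
      intro s hs
      apply Integrable.bdd_mul (c := C)
      · have := integrableOn_exp_mul_complex_Ioi (a := -s) (by simpa using hs) 0
        refine this.congr_fun ?_ measurableSet_Ioi
        intro v _
        simp only [neg_mul]
      · exact hg.aestronglyMeasurable
      · exact Filter.Eventually.of_forall hC
    have hgi_m : ∀ s : ℂ, s.re < 0 → IntegrableOn (fun v : ℝ => g v * Complex.exp (-(s * v))) (Set.Iic 0) := by
      intro s hs
      apply Integrable.bdd_mul (c := C)
      · have := integrableOn_exp_mul_complex_Iic (a := -s) (by simpa using hs) 0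
        refine this.congr_fun ?_ measurableSet_Iic
        intro v _
        simp only [neg_mul]
      · exact hg.aestronglyMeasurable
      · exact Filter.Eventually.of_forall hC
    have hexpand : ∀ (s : ℂ) (v : ℝ), g₁ v * Complex.exp (-(s * v)) = g v * Complex.exp (-(s * v)) -
        ∑ γ ∈ Γ, c γ * (Complex.exp (γ * v * Complex.I) * Complex.exp (-(s * v))) := by
      intro s v
      rw [hg₁]
      simp only
      rw [sub_mul, Finset.sum_mul]
      congr 1
      apply Finset.sum_congr rfl
      intro γ _
      ring
    have hp1 : ∀ s : ℂ, 0 < s.re → s.re < r →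
        ∫ v in Set.Ioi (0:ℝ), g₁ v * Complex.exp (-(s * v)) = G s - ∑ γ ∈ Γ, c γ / (s - γ * Complex.I) := by
      intro s hs hs'
      simp only [hexpand]
      rw [integral_sub (hgi_p s hs), hp s hs hs', integral_finsetSum]
      · congr 1
        apply Finset.sum_congr rfl
        intro γ _
        rw [integral_const_mul, (hexp_p γ s hs).2]
        ring
      · intro γ _
        exact (hexp_p γ s hs).1.const_mul _
      · apply integrable_finsetSum
        intro γ _
        exact (hexp_p γ s hs).1.const_mul _
    have hm1 : ∀ s : ℂ, -r < s.re → s.re < 0 →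
        ∫ v in Set.Iic (0:ℝ), g₁ v * Complex.exp (-(s * v)) =
          -(G s - ∑ γ ∈ Γ, c γ / (s - γ * Complex.I)) := by
      intro s hs hs'
      simp only [hexpand]
      rw [integral_sub (hgi_m s hs'), hm s hs hs', integral_finsetSum]
      · have : ∑ γ ∈ Γ, ∫ v in Set.Iic (0:ℝ), c γ * (Complex.exp (γ * v * Complex.I) * Complex.exp (-(s * v)))
            = -∑ γ ∈ Γ, c γ / (s - γ * Complex.I) := by
          rw [← Finset.sum_neg_distrib]
          apply Finset.sum_congr rfl
          intro γ _
          rw [integral_const_mul, (hexp_m γ s hs').2]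
          ring
        rw [this]
        ring
      · intro γ _
        exact (hexp_m γ s hs').1.const_mul _
      · apply integrable_finsetSum
        intro γ _
        exact (hexp_m γ s hs').1.const_mul _
    -- apply Carleman to the translated kernel
    have hcar := carleman hg₁c hg₁b hr hp1 hm1 hΓ
      (κ := fun t => (tri (t / L) : ℂ) * Complex.exp (t * u * Complex.I))
      (K := fun v => (K L (v - u) : ℂ)) ?_ ?_ ?_ ?_
    · -- conclude
      have hshift : ∀ F : ℝ → ℂ, ∫ v, F v * (K L (v - u) : ℂ) = ∫ v, F (v + u) * (K L v : ℂ) := by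
        intro F
        rw [← integral_add_right_eq_self (fun v => F v * (K L (v - u) : ℂ)) u]
        congr 1
        ext v
        rw [add_sub_cancel_right]
      rw [hshift] at hcar
      have hpt : ∀ v : ℝ, g₁ (v + u) * (K L v : ℂ) = g (v + u) * (K L v : ℂ) -
          ∑ γ ∈ Γ, (c γ * Complex.exp (γ * u * Complex.I)) * (Complex.exp (γ * v * Complex.I) * (K L v : ℂ)) := by
        intro v
        rw [hg₁]
        simp only
        rw [sub_mul, Finset.sum_mul]
        congr 1
        apply Finset.sum_congr rfl
        intro γ _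
        have : Complex.exp (γ * ((v + u : ℝ) : ℂ) * Complex.I) =
            Complex.exp (γ * u * Complex.I) * Complex.exp (γ * v * Complex.I) := by
          rw [← Complex.exp_add]
          congr 1
          push_cast
          ring
        rw [this]
        ring
      have hEK : ∀ γ : ℝ, Integrable (fun v : ℝ => Complex.exp (γ * v * Complex.I) * (K L v : ℂ)) := by
        intro γ
        apply Integrable.bdd_mul (c := 1) (hKint L hL).ofReal
        · apply Continuous.aestronglyMeasurable
          fun_prop
        · exact Filter.Eventually.of_forall (fun v => (hn1 γ v).le)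
      simp only [hpt] at hcar
      rw [integral_sub (hgK L hL u), integral_finsetSum] at hcar
      · rw [sub_eq_zero] at hcar
        show q L u = _
        simp only [q]
        rw [hcar]
        apply Finset.sum_congr rfl
        intro γ _
        rw [integral_const_mul]
        ring
      · intro γ _
        exact (hEK γ).const_mul _
      · apply integrable_finsetSum
        intro γ _
        exact (hEK γ).const_mul _
    · -- integrability of κ
      apply Integrable.mul_bdd (c := 1)
      · exact (tri_int.comp_div hL.ne').ofReal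
      · apply Continuous.aestronglyMeasurable
        fun_prop
      · exact Filter.Eventually.of_forall (fun t => (hn1 t u).le)
    · -- support
      intro t ht
      have : tri (t / L) = 0 := by
        apply tri_eq_zero
        rw [abs_div, abs_of_pos hL, le_div_iff₀ hL, one_mul]
        by_contra h
        push Not at h
        exact ht ⟨(abs_lt.1 h).1.le, (abs_lt.1 h).2.le⟩
      simp only [this]
      simp
    · -- representation
      intro v
      have e1 : (K L (v - u) : ℂ) = (L : ℂ) * (fej (L * (v - u)) : ℂ) := by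
        simp only [K]
        push_cast
        ring
      rw [e1, fej_eq]
      have e2 : ∫ t : ℝ, (tri (t / L) : ℂ) * Complex.exp (t * u * Complex.I) *
          Complex.exp (-(t * v * Complex.I)) =
          ∫ t : ℝ, (fun y : ℝ => (tri y : ℂ) * Complex.exp (-(y * ((L * (v - u) : ℝ) : ℂ) * Complex.I))) (t / L) := by
        congr 1
        ext t
        simp only
        rw [mul_assoc, ← Complex.exp_add]
        congr 2
        push_cast
        have : (L : ℂ) ≠ 0 := by exact_mod_cast hL.ne'
        field_simp
        ring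
      rw [e2, Measure.integral_comp_div (fun y : ℝ => (tri y : ℂ) *
        Complex.exp (-(y * ((L * (v - u) : ℝ) : ℂ) * Complex.I))) L, abs_of_pos hL, Complex.real_smul]
    · exact ((hKint L hL).comp_sub_right u).ofReal
  -- limsup bound of q
  have hqlim : ∀ L, 0 < L → ∀ ε > 0, ∀ᶠ u in atTop, ‖q L u‖ ≤ C₀ * (2 * Real.pi) + ε := by
    intro L hL ε hε
    have hD : Tendsto (fun u : ℝ => ∫ v, max (‖g (v + u)‖ - C₀) 0 * K L v) atTop (𝓝 (∫ _v : ℝ, (0:ℝ))) := by
      apply tendsto_integral_filter_of_dominated_convergence (bound := fun v => C * K L v)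
      · apply Filter.Eventually.of_forall
        intro u
        apply AEStronglyMeasurable.mul _ (hKint L hL).aestronglyMeasurable
        apply Continuous.aestronglyMeasurable
        have : Continuous (fun v => g (v + u)) := hg.comp (continuous_add_const u)
        fun_prop
      · apply Filter.Eventually.of_forall
        intro u
        apply Filter.Eventually.of_forall
        intro v
        rw [norm_mul, Real.norm_of_nonneg (hKnn L hL v), Real.norm_of_nonneg (le_max_right _ _)]
        apply mul_le_mul_of_nonneg_right _ (hKnn L hL v)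
        apply max_le _ hCnn
        linarith [hC (v + u)]
      · exact (hKint L hL).const_mul C
      · apply Filter.Eventually.of_forall
        intro v
        rw [Metric.tendsto_nhds]
        intro δ hδ
        set k := K L v with hk
        have hk0 : 0 ≤ k := hKnn L hL v
        have hη : 0 < δ / (2 * (k + 1)) := by positivity
        have h1 := (tendsto_atTop_add_const_left atTop v tendsto_id).eventually (hlimsup _ hη)
        filter_upwards [h1] with u hu
        rw [dist_zero_right, norm_mul, Real.norm_of_nonneg hk0, Real.norm_of_nonneg (le_max_right _ _)]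
        have h2 : max (‖g (v + u)‖ - C₀) 0 ≤ δ / (2 * (k + 1)) := by
          apply max_le _ hη.le
          have : ‖g (v + id u)‖ ≤ C₀ + δ / (2 * (k + 1)) := hu
          simp only [id] at this
          linarith
        calc max (‖g (v + u)‖ - C₀) 0 * k ≤ δ / (2 * (k + 1)) * k := mul_le_mul_of_nonneg_right h2 hk0
          _ = δ * (k / (2 * (k + 1))) := by ring
          _ < δ * 1 := by
              apply mul_lt_mul_of_pos_left _ hδ
              rw [div_lt_one (by positivity)]
              linarith
          _ = δ := mul_one δ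
    rw [integral_zero] at hD
    have h2 := (Metric.tendsto_nhds.1 hD ε hε)
    filter_upwards [h2] with u hu
    rw [dist_zero_right] at hu
    have hu2 := (abs_lt.1 (by simpa using hu : |∫ v, max (‖g (v + u)‖ - C₀) 0 * K L v| < ε)).2
    have hmi : Integrable (fun v => max (‖g (v + u)‖ - C₀) 0 * K L v) := by
      apply Integrable.bdd_mul (c := C) (hKint L hL)
      · apply Continuous.aestronglyMeasurable
        have : Continuous (fun v => g (v + u)) := hg.comp (continuous_add_const u)
        fun_prop
      · apply Filter.Eventually.of_forall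
        intro v
        rw [Real.norm_of_nonneg (le_max_right _ _)]
        apply max_le _ hCnn
        linarith [hC (v + u)]
    calc ‖q L u‖ ≤ ∫ v, (C₀ * K L v + max (‖g (v + u)‖ - C₀) 0 * K L v) := by
          apply norm_integral_le_of_norm_le (((hKint L hL).const_mul C₀).add hmi)
          apply Filter.Eventually.of_forall
          intro v
          rw [norm_mul, Complex.norm_real, Real.norm_of_nonneg (hKnn L hL v)]
          show ‖g (v + u)‖ * K L v ≤ C₀ * K L v + max (‖g (v + u)‖ - C₀) 0 * K L v
          rw [← add_mul]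
          apply mul_le_mul_of_nonneg_right _ (hKnn L hL v)
          linarith [le_max_left (‖g (v + u)‖ - C₀) 0]
      _ = C₀ * (2 * Real.pi) + ∫ v, max (‖g (v + u)‖ - C₀) 0 * K L v := by
          rw [integral_add ((hKint L hL).const_mul C₀) hmi, integral_const_mul, hKtot L hL]
      _ ≤ _ := by linarith
  -- bound of q everywhere
  have hqall : ∀ L, 0 < L → ∀ u, ‖q L u‖ ≤ C₀ * (2 * Real.pi) := by
    intro L hL u
    obtain ⟨Γ, b, hb⟩ := htrig L hL
    apply le_of_forall_pos_le_add
    intro ε hε
    obtain ⟨V, hV⟩ := (eventually_atTop.1 (hqlim L hL (ε/2) (by positivity)))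
    set S := ∑ γ ∈ Γ, ‖b γ‖ with hS
    have hS0 : 0 ≤ S := Finset.sum_nonneg (fun _ _ => norm_nonneg _)
    obtain ⟨τ, hτ, hτ2⟩ := recurrence Γ (ε := ε / (2 * (S + 1))) (by positivity) (V - u)
    have h1 := hV (u + τ) (by linarith)
    have h2 : ‖q L (u + τ) - q L u‖ ≤ ε / 2 := by
      rw [hb, hb, ← Finset.sum_sub_distrib]
      calc ‖∑ γ ∈ Γ, (b γ * Complex.exp (γ * ((u + τ : ℝ) : ℂ) * Complex.I) -
            b γ * Complex.exp (γ * u * Complex.I))‖
          ≤ ∑ γ ∈ Γ, ‖b γ‖ * (ε / (2 * (S + 1))) := by
            apply norm_sum_le_of_le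
            intro γ hγ
            have e : b γ * Complex.exp (γ * ((u + τ : ℝ) : ℂ) * Complex.I) -
                b γ * Complex.exp (γ * u * Complex.I) = b γ * (Complex.exp (γ * u * Complex.I) *
                (Complex.exp (γ * τ * Complex.I) - 1)) := by
              have : Complex.exp (γ * ((u + τ : ℝ) : ℂ) * Complex.I) =
                  Complex.exp (γ * u * Complex.I) * Complex.exp (γ * τ * Complex.I) := by
                rw [← Complex.exp_add]
                congr 1
                push_cast
                ring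
              rw [this]
              ring
            rw [e, norm_mul, norm_mul]
            have hn : ‖Complex.exp (γ * u * Complex.I)‖ = 1 := by
              rw [Complex.norm_exp]
              simp
            rw [hn, one_mul]
            exact mul_le_mul_of_nonneg_left (hτ2 γ hγ).le (norm_nonneg _)
        _ = S * (ε / (2 * (S + 1))) := by rw [← Finset.sum_mul]
        _ = ε / 2 * (S / (S + 1)) := by field_simp
        _ ≤ ε / 2 * 1 := by
            apply mul_le_mul_of_nonneg_left _ (by positivity)
            rw [div_le_one (by positivity)]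
            linarith
        _ = ε / 2 := mul_one _
    calc ‖q L u‖ = ‖q L (u + τ) - (q L (u + τ) - q L u)‖ := by congr 1; ring
      _ ≤ ‖q L (u + τ)‖ + ‖q L (u + τ) - q L u‖ := norm_sub_le _ _
      _ ≤ (C₀ * (2 * Real.pi) + ε / 2) + ε / 2 := add_le_add h1 h2
      _ = _ := by ring
  -- approximate identity
  have happ : Tendsto (fun L : ℝ => q L u) atTop (𝓝 (g u * (2 * Real.pi : ℝ))) := by
    have h1 : ∀ L : ℝ, 0 < L → q L u = ∫ y : ℝ, g (y / L + u) * (fej y : ℂ) := by
      intro L hL
      simp only [q, K]
      have e : ∫ v : ℝ, g (v + u) * ((L * fej (L * v) : ℝ) : ℂ) =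
          (L : ℂ) * ∫ v : ℝ, (fun y : ℝ => g (y / L + u) * (fej y : ℂ)) (L * v) := by
        rw [← integral_const_mul]
        congr 1
        ext v
        simp only
        rw [mul_div_cancel_left₀ _ hL.ne']
        push_cast
        ring
      rw [e, Measure.integral_comp_mul_left (fun y : ℝ => g (y / L + u) * (fej y : ℂ)) L,
        abs_of_pos (by positivity), Complex.real_smul, ← mul_assoc]
      push_cast
      rw [mul_inv_cancel₀ (by exact_mod_cast hL.ne'), one_mul]
    have h2 : Tendsto (fun L : ℝ => ∫ y : ℝ, g (y / L + u) * (fej y : ℂ)) atTop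
        (𝓝 (∫ y : ℝ, g u * (fej y : ℂ))) := by
      apply tendsto_integral_filter_of_dominated_convergence (bound := fun v => C * fej v)
      · apply Filter.Eventually.of_forall
        intro L
        apply AEStronglyMeasurable.mul _ fej_int.ofReal.aestronglyMeasurable
        apply Continuous.aestronglyMeasurable
        exact hg.comp (by fun_prop)
      · apply Filter.Eventually.of_forall
        intro L
        apply Filter.Eventually.of_forall
        intro v
        rw [norm_mul, Complex.norm_real, Real.norm_of_nonneg (fej_nonneg v)]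
        exact mul_le_mul_of_nonneg_right (hC _) (fej_nonneg v)
      · exact fej_int.const_mul C
      · apply Filter.Eventually.of_forall
        intro y
        apply Tendsto.mul_const
        have : Tendsto (fun L : ℝ => y / L + u) atTop (𝓝 (0 + u)) :=
          (tendsto_const_nhds.div_atTop tendsto_id).add_const u
        rw [zero_add] at this
        exact (hg.tendsto u).comp this
    rw [integral_const_mul, integral_complex_ofReal, fej_integral] at h2
    apply h2.congr'
    filter_upwards [eventually_gt_atTop (0:ℝ)] with L hL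
    exact (h1 L hL).symm
  have hfin : ‖g u * (2 * Real.pi : ℝ)‖ ≤ C₀ * (2 * Real.pi) := by
    apply le_of_tendsto happ.norm
    filter_upwards [eventually_gt_atTop (0:ℝ)] with L hL
    exact hqall L hL u
  rw [norm_mul, Complex.norm_real, Real.norm_of_nonneg (by positivity)] at hfin
  exact le_of_mul_le_mul_right hfin (by positivity)

end Pool.Agent.Helper13.Mob
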