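import Pool.Agent.Helper13.MobK
import Pool.Agent.Helper13.MobN

namespace Pool.Agent.Helper13.Mob

open Finset MeasureTheory Set Filter Topology

theorem mellin_eq_laplace (F : ℝ → ℂ) (w : ℂ) :
    mellin F w = ∫ u : ℝ, Complex.exp (-(w * u)) * F (Real.exp (-u)) := by
  rw [mellin_eq_fourier, Real.fourier_eq']
  congr 1
  ext u
  simp only [smul_eq_mul, Complex.real_smul]
  rw [← mul_assoc]
  congr 1
  rw [Complex.ofReal_exp, ← Complex.exp_add]
  congr 1
  have hpi : (Real.pi : ℂ) ≠ 0 := by exact_mod_cast Real.pi_pos.ne'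
  simp
  field_simp
  have e : (u : ℂ) * w = u * (w.re + w.im * Complex.I) := by rw [Complex.re_add_im]
  rw [e]
  ring

theorem laplace_pos (f : ℝ → ℂ) (w : ℂ) :
    ∫ v in Set.Ioi (0:ℝ), Complex.exp (-(w * v)) * f (Real.exp (-v)) =
      mellin ((Set.Ioo (0:ℝ) 1).indicator f) w := by
  rw [mellin_eq_laplace, ← integral_indicator measurableSet_Ioi]
  congr 1
  ext u
  by_cases hu : 0 < u
  · rw [Set.indicator_of_mem (show u ∈ Set.Ioi (0:ℝ) from hu), Set.indicator_of_mem]
    exact ⟨Real.exp_pos _, Real.exp_lt_one_iff.2 (by linarith)⟩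
  · rw [Set.indicator_of_notMem (show u ∉ Set.Ioi (0:ℝ) from hu), Set.indicator_of_notMem, mul_zero]
    rintro ⟨_, h⟩
    rw [Real.exp_lt_one_iff] at h
    apply hu
    linarith

theorem laplace_neg (f : ℝ → ℂ) (w : ℂ) :
    ∫ v in Set.Iic (0:ℝ), Complex.exp (-(w * v)) * f (Real.exp (-v)) =
      mellin ((Set.Ici (1:ℝ)).indicator f) w := by
  rw [mellin_eq_laplace, ← integral_indicator measurableSet_Iic]
  congr 1
  ext u
  by_cases hu : u ≤ 0
  · rw [Set.indicator_of_mem (show u ∈ Set.Iic (0:ℝ) from hu), Set.indicator_of_mem]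
    show (1:ℝ) ≤ Real.exp (-u)
    exact Real.one_le_exp (by linarith)
  · rw [Set.indicator_of_notMem (show u ∉ Set.Iic (0:ℝ) from hu), Set.indicator_of_notMem, mul_zero]
    intro h
    have h' : (1:ℝ) ≤ Real.exp (-u) := h
    rw [Real.one_le_exp_iff] at h'
    apply hu
    linarith

theorem conv_ind {f : ℝ → ℂ} {w : ℂ} (hf : MellinConvergent f w) {S : Set ℝ} (hS : MeasurableSet S) :
    MellinConvergent (S.indicator f) w := by
  unfold MellinConvergent at hf ⊢
  have h := hf.indicator hS
  refine h.congr_fun ?_ measurableSet_Ioi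
  intro x _
  by_cases hx : x ∈ S
  · simp [hx]
  · simp [hx]

theorem mellin_split {f : ℝ → ℂ} {w : ℂ} (hf : MellinConvergent f w) :
    mellin f w = mellin ((Set.Ioo (0:ℝ) 1).indicator f) w + mellin ((Set.Ici (1:ℝ)).indicator f) w := by
  have h1 := conv_ind hf (measurableSet_Ioo (a := (0:ℝ)) (b := 1))
  have h2 := conv_ind hf (measurableSet_Ici (a := (1:ℝ)))
  rw [← (hasMellin_add h1 h2).2]
  unfold mellin
  apply setIntegral_congr_fun measurableSet_Ioi
  intro x hx
  have hx' : (0:ℝ) < x := hx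
  simp only
  congr 1
  by_cases h : x < 1
  · rw [Set.indicator_of_mem (show x ∈ Set.Ioo (0:ℝ) 1 from ⟨hx', h⟩),
      Set.indicator_of_notMem (show x ∉ Set.Ici (1:ℝ) from not_le.2 h), add_zero]
  · rw [Set.indicator_of_notMem (show x ∉ Set.Ioo (0:ℝ) 1 from fun hh => h hh.2),
      Set.indicator_of_mem (show x ∈ Set.Ici (1:ℝ) from not_lt.1 h), zero_add]

theorem ind_sub (S : Set ℝ) (f g : ℝ → ℂ) : S.indicator (fun x => f x - g x) =
    fun x => S.indicator f x - S.indicator g x := by
  ext x
  by_cases hx : x ∈ S <;> simp [hx]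

/-- zeta does not vanish off the critical line -/
theorem MertensBd.ne_right {B : ℝ} (h : MertensBd B) {w : ℂ} (hw : 1/2 < w.re) (hw1 : w ≠ 1) :
    riemannZeta w ≠ 0 := by
  intro hz
  have hα : (0:ℝ) < (1:ℂ).re := by simp
  have h3 := h.kk_half hα hw hw1
  rw [hz, zero_mul, (kk_mellin hα (by linarith)).2, Complex.one_cpow, one_mul] at h3
  have : Complex.Gamma (w + 1/2) ≠ 0 := by
    apply Complex.Gamma_ne_zero
    intro m hm
    have : (w + 1/2).re = (-(m:ℂ)).re := by rw [hm]
    simp only [Complex.add_re, Complex.div_ofNat_re, Complex.one_re, Complex.neg_re,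
      Complex.natCast_re] at this
    have hm0 : (0:ℝ) ≤ m := Nat.cast_nonneg m
    linarith
  exact this h3.symm

theorem MertensBd.ne_left {B : ℝ} (h : MertensBd B) {w : ℂ} (hw : w.re < 1/2) (hw0 : 0 < w.re) :
    riemannZeta w ≠ 0 := by
  intro hz
  have hw1 : w ≠ 1 := by
    intro h; rw [h] at hw; norm_num at hw
  have hwn : ∀ n : ℕ, w ≠ -n := by
    intro n hn
    rw [hn] at hw0
    simp only [Complex.neg_re, Complex.natCast_re] at hw0
    have hm0 : (0:ℝ) ≤ n := Nat.cast_nonneg n
    linarith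
  have e := riemannZeta_one_sub hwn hw1
  rw [hz, mul_zero] at e
  refine h.ne_right (w := 1 - w) ?_ ?_ e
  · simp only [Complex.sub_re, Complex.one_re]
    linarith
  · intro h1
    have : w = 0 := by
      have := congrArg (fun z => 1 - z) h1
      simpa using this
    rw [this] at hw0
    simp at hw0

theorem zeta_ana {w : ℂ} (hw : w ≠ 1) : AnalyticAt ℂ riemannZeta w := by
  apply DifferentiableOn.analyticAt (s := {1}ᶜ) _ (isOpen_compl_singleton.mem_nhds hw)
  intro z hz
  exact (differentiableAt_riemannZeta hz).differentiableWithinAt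

variable {l₁ l₂ : ℂ}

theorem kf_ana (h1 : Adm l₁ 1) (h2 : Adm l₂ (-1)) {w : ℂ} (hw : -(1/2) < w.re) :
    AnalyticAt ℂ (mellin (kf l₁ l₂)) w := by
  apply DifferentiableOn.analyticAt (s := {z : ℂ | -(1/2) < z.re}) _
    ((isOpen_lt continuous_const Complex.continuous_re).mem_nhds hw)
  intro z hz
  exact (kf_mellin_diff h1 h2 hz).differentiableWithinAt

/-- The core duality inequality. -/
theorem core (h1 : Adm l₁ 1) (h2 : Adm l₂ (-1)) {B : ℝ} (hM : MertensBd B) {C₀ : ℝ} (hC₀ : 0 ≤ C₀)
    (hlim : ∀ ε > 0, ∀ᶠ x in 𝓝[>] (0:ℝ), √x * ‖asum (kf l₁ l₂) x‖ ≤ C₀ + ε) {x : ℝ} (hx : 0 < x) :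
    √x * ‖asum (kf l₁ l₂) x - dsum (hf l₁ l₂) x‖ ≤ C₀ := by
  have HD := hf_dec h1 h2
  have KD := kf_dec h1 h2
  set a := asum (kf l₁ l₂) with ha
  set d := dsum (hf l₁ l₂) with hd
  have hab : ∀ x, 0 < x → ‖a x‖ ≤ CF l₁ l₂ B / √x := fun x hx => asum_kf_bd h1 h2 hM hx
  set D2 := B * ∫ y in Set.Ioi 0, √y * ‖QQ' (hf l₁ l₂) (hf' l₁ l₂) y‖ with hD2
  have hdb : ∀ x, 0 < x → ‖d x‖ ≤ D2 / √x := fun x hx => HD.dsum_bd2 hM hx
  set D1 := MF l₁ l₂ * ∑' m : ℕ, (m : ℝ) ^ (-(3/2) : ℝ) with hD1
  have hdb1 : ∀ x, 0 < x → ‖d x‖ ≤ D1 * √x := fun x hx => HD.dsum_bd hx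
  set g : ℝ → ℂ := fun v => (Real.exp (-v / 2) : ℂ) * (a (Real.exp (-v)) - d (Real.exp (-v))) with hgdef
  have hsq : ∀ v : ℝ, √(Real.exp (-v)) = Real.exp (-v / 2) := by
    intro v
    rw [show Real.exp (-v) = Real.exp (-v / 2) ^ 2 by rw [← Real.exp_nat_mul]; congr 1; push_cast; ring]
    exact Real.sqrt_sq (Real.exp_pos _).le
  have hgc : Continuous g := by
    apply Continuous.mul (by fun_prop)
    apply Continuous.sub
    · exact KD.continuousOn.comp_continuous (by fun_prop) (fun v => Real.exp_pos _)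
    · exact HD.dsum_cont.comp_continuous (by fun_prop) (fun v => Real.exp_pos _)
  have hgn : ∀ v, ‖g v‖ = √(Real.exp (-v)) * ‖a (Real.exp (-v)) - d (Real.exp (-v))‖ := by
    intro v
    rw [hgdef]
    simp only
    rw [norm_mul, Complex.norm_real, Real.norm_of_nonneg (Real.exp_pos _).le, hsq]
  have hgb : ∀ v, ‖g v‖ ≤ CF l₁ l₂ B + D2 := by
    intro v
    rw [hgn]
    have e0 := Real.exp_pos (-v)
    have hs : 0 < √(Real.exp (-v)) := Real.sqrt_pos.2 e0
    calc √(Real.exp (-v)) * ‖a (Real.exp (-v)) - d (Real.exp (-v))‖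
        ≤ √(Real.exp (-v)) * (CF l₁ l₂ B / √(Real.exp (-v)) + D2 / √(Real.exp (-v))) := by
          apply mul_le_mul_of_nonneg_left _ hs.le
          exact (norm_sub_le _ _).trans (add_le_add (hab _ e0) (hdb _ e0))
      _ = _ := by field_simp
  -- the meromorphic function
  let J : ℂ → ℂ := fun s => mellin ((Set.Ici (1:ℝ)).indicator a) (s + 1/2) +
    mellin ((Set.Ioo (0:ℝ) 1).indicator d) (s + 1/2)
  let G : ℂ → ℂ := fun s => mellin (kf l₁ l₂) (s + 1/2) / riemannZeta (s + 1/2) - J s
  -- convergence facts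
  have hdconv : ∀ w : ℂ, -(1/2) < w.re → MellinConvergent ((Set.Ioo (0:ℝ) 1).indicator d) w := by
    intro w hw
    by_cases hw' : w.re < 1/2
    · exact conv_ind (HD.dconv hM hw hw') measurableSet_Ioo
    · push Not at hw'
      -- dominate by the value at real part 0
      have h0 := conv_ind (HD.dconv hM (w := 0) (by norm_num) (by norm_num))
        (measurableSet_Ioo (a := (0:ℝ)) (b := 1))
      unfold MellinConvergent at h0 ⊢
      refine Integrable.mono h0 ?_ ?_
      · refine (AEStronglyMeasurable.smul ?_ ?_ : AEStronglyMeasurable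
          ((fun t : ℝ => (t : ℂ) ^ (w - 1)) • ((Set.Ioo (0:ℝ) 1).indicator d)) _)
        · apply ContinuousOn.aestronglyMeasurable _ measurableSet_Ioi
          intro t ht
          apply ContinuousAt.continuousWithinAt
          apply ContinuousAt.comp (f := fun t : ℝ => (t : ℂ)) (g := fun z : ℂ => z ^ (w - 1))
          · apply continuousAt_cpow_const
            left
            simpa using ht
          · exact Complex.continuous_ofReal.continuousAt
        · apply AEStronglyMeasurable.indicator _ measurableSet_Ioo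
          exact HD.dsum_cont.aestronglyMeasurable measurableSet_Ioi
      · rw [ae_restrict_iff' measurableSet_Ioi]
        apply Filter.Eventually.of_forall
        intro t ht
        have ht' : (0:ℝ) < t := ht
        rw [norm_smul, norm_smul, Complex.norm_cpow_eq_rpow_re_of_pos ht',
          Complex.norm_cpow_eq_rpow_re_of_pos ht']
        by_cases ht1 : t < 1
        · apply mul_le_mul_of_nonneg_right _ (norm_nonneg _)
          apply Real.rpow_le_rpow_of_exponent_ge ht' ht1.le
          simp only [Complex.sub_re, Complex.zero_re, Complex.one_re]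
          linarith
        · rw [Set.indicator_of_notMem (fun hh => ht1 hh.2)]
          simp
  have haconv : ∀ w : ℂ, 1/2 < w.re → MellinConvergent a w := fun w hw => KD.conv hab hw
  have haconv' : ∀ w : ℂ, MellinConvergent ((Set.Ici (1:ℝ)).indicator a) w := by
    intro w
    apply mellinConvergent_of_isBigO_rpow_exp (a := min (al l₁ 1).re (al l₂ (-1)).re / 2)
      (b := w.re - 1) KD.hδ
    · have := (KD.continuousOn.locallyIntegrableOn (μ := volume) measurableSet_Ioi)
      intro t ht
      obtain ⟨U, hU, hI⟩ := this t ht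
      exact ⟨U, hU, hI.indicator measurableSet_Ici⟩
    · apply KD.isBigO_top.congr' _ (Filter.EventuallyEq.refl _ _)
      filter_upwards [eventually_ge_atTop (1:ℝ)] with t ht
      rw [Set.indicator_of_mem (show t ∈ Set.Ici (1:ℝ) from ht)]
    · apply Asymptotics.IsBigO.of_bound 1
      filter_upwards [Ioo_mem_nhdsGT (show (0:ℝ) < 1 by norm_num)] with t ht
      rw [Set.indicator_of_notMem (show t ∉ Set.Ici (1:ℝ) from not_le.2 ht.2)]
      simp
    · linarith
  have hp : ∀ s : ℂ, 0 < s.re → s.re < 1/4 →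
      ∫ v in Set.Ioi (0:ℝ), g v * Complex.exp (-(s * v)) = G s := by
    intro s hs hs'
    have hre : (s + 1/2).re = s.re + 1/2 := by simp
    have hw : 1/2 < (s + 1/2).re := by rw [hre]; linarith
    have hw1 : s + 1/2 ≠ 1 := by
      intro h
      have : (s + 1/2).re = 1 := by rw [h]; simp
      rw [hre] at this
      linarith
    have e1 : ∫ v in Set.Ioi (0:ℝ), g v * Complex.exp (-(s * v)) =
        ∫ v in Set.Ioi (0:ℝ), Complex.exp (-((s + 1/2) * v)) * (fun x => a x - d x) (Real.exp (-v)) := by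
      congr 1
      ext v
      rw [hgdef]
      simp only
      rw [show -((s + 1/2) * (v:ℂ)) = -(s * v) + ((-v / 2 : ℝ) : ℂ) by push_cast; ring,
        Complex.exp_add, ← Complex.ofReal_exp]
      ring
    rw [e1, laplace_pos (fun x => a x - d x), ind_sub]
    have c1 := conv_ind (haconv _ hw) (measurableSet_Ioo (a := (0:ℝ)) (b := 1))
    have c2 := hdconv (s + 1/2) (by linarith)
    rw [(hasMellin_sub c1 c2).2]
    have e2 := mellin_split (haconv _ hw)
    have e3 := kf_half h1 h2 hM hw hw1
    have hz := hM.ne_right hw hw1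
    have e4 : mellin a (s + 1/2) = mellin (kf l₁ l₂) (s + 1/2) / riemannZeta (s + 1/2) := by
      rw [eq_div_iff hz, ← e3]
      ring
    simp only [G, J]
    rw [← e4, e2]
    ring
  have hm : ∀ s : ℂ, -(1/4) < s.re → s.re < 0 →
      ∫ v in Set.Iic (0:ℝ), g v * Complex.exp (-(s * v)) = -G s := by
    intro s hs hs'
    have hre : (s + 1/2).re = s.re + 1/2 := by simp
    have hw : (s + 1/2).re < 1/2 := by rw [hre]; linarith
    have hw0 : 0 < (s + 1/2).re := by rw [hre]; linarith
    have e1 : ∫ v in Set.Iic (0:ℝ), g v * Complex.exp (-(s * v)) =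
        ∫ v in Set.Iic (0:ℝ), Complex.exp (-((s + 1/2) * v)) * (fun x => a x - d x) (Real.exp (-v)) := by
      congr 1
      ext v
      rw [hgdef]
      simp only
      rw [show -((s + 1/2) * (v:ℂ)) = -(s * v) + ((-v / 2 : ℝ) : ℂ) by push_cast; ring,
        Complex.exp_add, ← Complex.ofReal_exp]
      ring
    rw [e1, laplace_neg (fun x => a x - d x), ind_sub]
    have c0 := HD.dconv hM (w := s + 1/2) (by linarith) hw
    have c1 := haconv' (s + 1/2)
    have c2 := conv_ind c0 (measurableSet_Ici (a := (1:ℝ)))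
    rw [(hasMellin_sub c1 c2).2]
    have e2 := mellin_split c0
    have e3 := kd_strip h1 h2 hM (w := s + 1/2) (by linarith) hw
    have hz := hM.ne_left hw hw0
    have e4 : mellin d (s + 1/2) = mellin (kf l₁ l₂) (s + 1/2) / riemannZeta (s + 1/2) := by
      rw [eq_div_iff hz, ← e3]
      ring
    simp only [G, J]
    rw [← e4, e2]
    ring
  -- continuity of J on the axis
  have hJ : ∀ t : ℝ, ContinuousAt J (t * Complex.I) := by
    intro t
    have hre : ((t : ℂ) * Complex.I + 1/2).re = 1/2 := by simp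
    apply ContinuousAt.add
    · apply ContinuousAt.comp (g := mellin ((Set.Ici (1:ℝ)).indicator a)) (f := fun s : ℂ => s + 1/2)
      · apply DifferentiableAt.continuousAt (𝕜 := ℂ)
        apply mellin_differentiableAt_of_isBigO_rpow_exp (a := min (al l₁ 1).re (al l₂ (-1)).re / 2)
          (b := 0) KD.hδ
        · have := (KD.continuousOn.locallyIntegrableOn (μ := volume) measurableSet_Ioi)
          intro t ht
          obtain ⟨U, hU, hI⟩ := this t ht
          exact ⟨U, hU, hI.indicator measurableSet_Ici⟩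
        · apply KD.isBigO_top.congr' _ (Filter.EventuallyEq.refl _ _)
          filter_upwards [eventually_ge_atTop (1:ℝ)] with t ht
          rw [Set.indicator_of_mem (show t ∈ Set.Ici (1:ℝ) from ht)]
        · apply Asymptotics.IsBigO.of_bound 1
          filter_upwards [Ioo_mem_nhdsGT (show (0:ℝ) < 1 by norm_num)] with t ht
          rw [Set.indicator_of_notMem (show t ∉ Set.Ici (1:ℝ) from not_le.2 ht.2)]
          simp
        · rw [hre]; norm_num
      · fun_prop
    · apply ContinuousAt.comp (g := mellin ((Set.Ioo (0:ℝ) 1).indicator d)) (f := fun s : ℂ => s + 1/2)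
      · apply DifferentiableAt.continuousAt (𝕜 := ℂ)
        apply mellin_differentiableAt_of_isBigO_rpow (a := 1) (b := -(1/2))
        · have := (HD.dsum_cont.locallyIntegrableOn (μ := volume) measurableSet_Ioi)
          intro t ht
          obtain ⟨U, hU, hI⟩ := this t ht
          exact ⟨U, hU, hI.indicator measurableSet_Ioo⟩
        · apply Asymptotics.IsBigO.of_bound 1
          filter_upwards [eventually_ge_atTop (1:ℝ)] with t ht
          rw [Set.indicator_of_notMem (show t ∉ Set.Ioo (0:ℝ) 1 from fun hh => (not_lt.2 ht) hh.2)]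
          simp
        · rw [hre]; norm_num
        · apply Asymptotics.IsBigO.of_bound D1
          filter_upwards [Ioo_mem_nhdsGT (show (0:ℝ) < 1 by norm_num)] with t ht
          rw [Set.indicator_of_mem (show t ∈ Set.Ioo (0:ℝ) 1 from ht), neg_neg, ← Real.sqrt_eq_rpow,
            Real.norm_of_nonneg (Real.sqrt_nonneg t)]
          exact hdb1 t ht.1
        · rw [hre]; norm_num
      · fun_prop
  -- spectrum
  have hspec : ∀ T : ℝ, 0 < T → ∃ (Γ : Finset ℝ) (c : ℝ → ℂ), ∀ t ∈ Set.Icc (-T) T,
      ∃ ℓ, Tendsto (fun s => G s - ∑ γ ∈ Γ, c γ / (s - γ * Complex.I))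
        (𝓝[{s : ℂ | s.re ≠ 0}] (t * Complex.I)) (𝓝 ℓ) := by
    intro T hT
    have hcomp : IsCompact ((fun t : ℝ => ((t : ℂ) * Complex.I + 1/2)) '' Set.Icc (-T) T) :=
      isCompact_Icc.image (by fun_prop)
    have hfin := hcomp.inter_riemannZetaZeros_finite
    have hfin2 : {t : ℝ | t ∈ Set.Icc (-T) T ∧ riemannZeta ((t : ℂ) * Complex.I + 1/2) = 0}.Finite := by
      apply Set.Finite.of_finite_image (f := fun t : ℝ => ((t : ℂ) * Complex.I + 1/2))
      · apply hfin.subset
        rintro _ ⟨t, ⟨ht, hz⟩, rfl⟩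
        exact ⟨⟨t, ht, rfl⟩, hz⟩
      · intro t _ t' _ h
        have := congrArg Complex.im h
        simpa using this
    refine ⟨hfin2.toFinset, fun γ => mellin (kf l₁ l₂) ((γ : ℂ) * Complex.I + 1/2) /
      deriv riemannZeta ((γ : ℂ) * Complex.I + 1/2), ?_⟩
    intro t ht
    set c : ℝ → ℂ := fun γ => mellin (kf l₁ l₂) ((γ : ℂ) * Complex.I + 1/2) /
      deriv riemannZeta ((γ : ℂ) * Complex.I + 1/2) with hc
    have hre : ((t : ℂ) * Complex.I + 1/2).re = 1/2 := by simp
    have hne1 : (t : ℂ) * Complex.I + 1/2 ≠ 1 := by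
      intro h
      rw [h] at hre
      norm_num at hre
    have hother : ∀ γ : ℝ, γ ≠ t → ContinuousAt (fun s : ℂ => c γ / (s - γ * Complex.I)) (t * Complex.I) := by
      intro γ hγ
      apply ContinuousAt.div continuousAt_const (by fun_prop)
      rw [← sub_mul]
      apply mul_ne_zero _ Complex.I_ne_zero
      rw [sub_ne_zero]
      exact_mod_cast hγ.symm
    by_cases hz : riemannZeta ((t : ℂ) * Complex.I + 1/2) = 0
    · have hmem : t ∈ hfin2.toFinset := by
        rw [Set.Finite.mem_toFinset]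
        exact ⟨ht, hz⟩
      have hsim := hM.simple hre hz
      obtain ⟨ℓ, hℓ⟩ := simple_pole (zeta_ana hne1) (kf_ana h1 h2 (by rw [hre]; norm_num)) hz hsim
      have hshift : Tendsto (fun s : ℂ => s + 1/2) (𝓝[{s : ℂ | s.re ≠ 0}] (t * Complex.I))
          (𝓝[≠] ((t : ℂ) * Complex.I + 1/2)) := by
        rw [tendsto_nhdsWithin_iff]
        constructor
        · have : Tendsto (fun s : ℂ => s + 1/2) (𝓝 (t * Complex.I)) (𝓝 (t * Complex.I + 1/2)) := by
            apply Continuous.tendsto
            fun_prop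
          exact this.mono_left nhdsWithin_le_nhds
        · filter_upwards [self_mem_nhdsWithin] with s hs
          simp only [Set.mem_compl_iff, Set.mem_singleton_iff]
          intro h
          have h' : s = t * Complex.I := add_right_cancel h
          apply hs
          rw [h']
          simp
      have hmain := hℓ.comp hshift
      have hrest : Tendsto (fun s : ℂ => ∑ γ ∈ hfin2.toFinset.erase t, c γ / (s - γ * Complex.I))
          (𝓝[{s : ℂ | s.re ≠ 0}] (t * Complex.I))
          (𝓝 (∑ γ ∈ hfin2.toFinset.erase t, c γ / (t * Complex.I - γ * Complex.I))) := by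
        apply tendsto_finsetSum
        intro γ hγ
        exact (hother γ (Finset.ne_of_mem_erase hγ)).tendsto.mono_left nhdsWithin_le_nhds
      have hJt := (hJ t).tendsto.mono_left (nhdsWithin_le_nhds (s := {s : ℂ | s.re ≠ 0}))
      refine ⟨ℓ - J (t * Complex.I) - ∑ γ ∈ hfin2.toFinset.erase t,
        c γ / (t * Complex.I - γ * Complex.I), ?_⟩
      have htot := (hmain.sub hJt).sub hrest
      apply htot.congr
      intro s
      rw [← Finset.add_sum_erase _ _ hmem]
      simp only [Function.comp_apply, G, hc]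
      rw [show s + 1/2 - ((t : ℂ) * Complex.I + 1/2) = s - t * Complex.I by ring]
      ring
    · have hnot : t ∉ hfin2.toFinset := by
        rw [Set.Finite.mem_toFinset]
        intro h
        exact hz h.2
      have hcont : ContinuousAt (fun s => G s - ∑ γ ∈ hfin2.toFinset, c γ / (s - γ * Complex.I))
          (t * Complex.I) := by
        apply ContinuousAt.sub
        · apply ContinuousAt.sub _ (hJ t)
          apply ContinuousAt.div
          · apply ContinuousAt.comp (g := mellin (kf l₁ l₂)) (f := fun s : ℂ => s + 1/2)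
            · exact (kf_ana h1 h2 (by rw [hre]; norm_num)).continuousAt
            · fun_prop
          · apply ContinuousAt.comp (g := riemannZeta) (f := fun s : ℂ => s + 1/2)
            · exact (zeta_ana hne1).continuousAt
            · fun_prop
          · exact hz
        · apply tendsto_finsetSum
          intro γ hγ
          apply (hother γ ?_).tendsto
          intro h
          rw [h] at hγ
          exact hnot hγ
      exact ⟨_, hcont.tendsto.mono_left nhdsWithin_le_nhds⟩
  -- limsup
  have hls : ∀ ε > 0, ∀ᶠ v in atTop, ‖g v‖ ≤ C₀ + ε := by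
    intro ε hε
    have ht : Tendsto (fun v : ℝ => Real.exp (-v)) atTop (𝓝[>] 0) := by
      rw [tendsto_nhdsWithin_iff]
      exact ⟨Real.tendsto_exp_neg_atTop_nhds_zero, Filter.Eventually.of_forall (fun v => Real.exp_pos _)⟩
    have h3 : ∀ᶠ x in 𝓝[>] (0:ℝ), √x * ‖d x‖ ≤ ε / 2 := by
      have h4 : Tendsto (fun x : ℝ => D1 * x) (𝓝[>] 0) (𝓝 (D1 * 0)) :=
        (tendsto_id.mono_left nhdsWithin_le_nhds).const_mul D1
      rw [mul_zero] at h4
      filter_upwards [h4.eventually (ge_mem_nhds (show (0:ℝ) < ε / 2 by positivity)),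
        self_mem_nhdsWithin] with x hx1 hx2
      have hx' : (0:ℝ) < x := hx2
      calc √x * ‖d x‖ ≤ √x * (D1 * √x) := mul_le_mul_of_nonneg_left (hdb1 x hx') (Real.sqrt_nonneg x)
        _ = D1 * (√x * √x) := by ring
        _ = D1 * x := by rw [Real.mul_self_sqrt hx'.le]
        _ ≤ _ := hx1
    filter_upwards [ht.eventually (hlim (ε/2) (by positivity)), ht.eventually h3] with v hv1 hv2
    rw [hgn]
    calc √(Real.exp (-v)) * ‖a (Real.exp (-v)) - d (Real.exp (-v))‖
        ≤ √(Real.exp (-v)) * (‖a (Real.exp (-v))‖ + ‖d (Real.exp (-v))‖) :=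
          mul_le_mul_of_nonneg_left (norm_sub_le _ _) (Real.sqrt_nonneg _)
      _ = √(Real.exp (-v)) * ‖a (Real.exp (-v))‖ + √(Real.exp (-v)) * ‖d (Real.exp (-v))‖ := by ring
      _ ≤ (C₀ + ε/2) + ε/2 := add_le_add hv1 hv2
      _ = _ := by ring
  have hfinal := sup_bound hgc hgb (show (0:ℝ) < 1/4 by norm_num) hp hm hspec hC₀ hls (-Real.log x)
  rw [hgn, neg_neg, Real.exp_log hx] at hfinal
  exact hfinal

end Pool.Agent.Helper13.Mob
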