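import Pool.Agent.Helper13.MobO

namespace Pool.Agent.Helper13.Mob

open Finset MeasureTheory Set Filter Topology

/-- exponential sums with Möbius coefficients -/
noncomputable def Fexp (R : ℕ) (x : ℝ) : ℂ :=
  ∑ n ∈ Finset.Icc 1 R, mu n * Complex.exp (2 * Real.pi * n * x * Complex.I)

/-- twisted form of the smooth sum -/
theorem asum_twist (α : ℂ) (x : ℝ) : asum (kk α) x =
    ∑' n : ℕ, (mu n * Complex.exp (-(α.im * (n * x) * Complex.I))) * kk (α.re : ℂ) (n * x) := by
  unfold asum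
  congr 1
  ext n
  unfold kk
  have e : Complex.exp (-(α * ((n * x : ℝ) : ℂ))) = Complex.exp (-(α.im * (n * x) * Complex.I)) *
      Complex.exp (-((α.re : ℂ) * ((n * x : ℝ) : ℂ))) := by
    rw [← Complex.exp_add]
    congr 1
    conv_lhs => rw [← Complex.re_add_im α]
    push_cast
    ring
  rw [e]
  ring

theorem asum_twist_bound {α : ℂ} (hα : 0 < α.re) {x : ℝ} (hx : 0 < x) {B : ℝ} (hB0 : 0 ≤ B)
    (hB : ∀ N : ℕ, ‖∑ n ∈ Finset.Icc 1 N, mu n * Complex.exp (-(α.im * (n * x) * Complex.I))‖ ≤ B * √N) :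
    ‖asum (kk α) x‖ ≤ (B * (3 / (2 * α.re))) / √x := by
  rw [asum_twist]
  have hre : (0:ℝ) < ((α.re : ℂ)).re := by simpa using hα
  have hs : Summable fun n : ℕ => (mu n * Complex.exp (-(α.im * (n * x) * Complex.I))) *
      kk (α.re : ℂ) (n * x) := by
    have := (kk_dec' hα).summable hx
    refine this.congr ?_
    intro n
    unfold kk
    have e : Complex.exp (-(α * ((n * x : ℝ) : ℂ))) = Complex.exp (-(α.im * (n * x) * Complex.I)) *
        Complex.exp (-((α.re : ℂ) * ((n * x : ℝ) : ℂ))) := by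
      rw [← Complex.exp_add]
      congr 1
      conv_lhs => rw [← Complex.re_add_im α]
      push_cast
      ring
    rw [e]
    ring
  have key := tsum_kk_bound (fun n : ℕ => mu n * Complex.exp (-(α.im * (n * x) * Complex.I)))
    (by simp) B hB0 hB hre hx hs
  refine key.trans (le_of_eq ?_)
  simp only [Complex.ofReal_re, Complex.norm_real, Real.norm_of_nonneg hα.le]
  field_simp
  ring

/-- the parameters -/
noncomputable def L1 (q : ℝ) : ℂ := Complex.log (1 - q * Complex.I)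
noncomputable def L2 (q : ℝ) : ℂ := Complex.log (1 + q * Complex.I)

theorem ne1 (q : ℝ) : (1 - q * Complex.I : ℂ) ≠ 0 := by
  intro h
  have := congrArg Complex.re h
  simp at this

theorem ne2 (q : ℝ) : (1 + q * Complex.I : ℂ) ≠ 0 := by
  intro h
  have := congrArg Complex.re h
  simp at this

theorem adm1 {q : ℝ} (hq : 0 < q) : Adm (L1 q) 1 where
  sg := Or.inl rfl
  lo := by
    rw [one_mul]
    unfold L1
    rw [Complex.log_im]
    have : |Complex.arg (1 - q * Complex.I)| < Real.pi / 2 := by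
      rw [Complex.abs_arg_lt_pi_div_two_iff]
      left
      simp
    exact (abs_lt.1 this).1
  hi := by
    rw [one_mul]
    unfold L1
    rw [Complex.log_im, Complex.arg_neg_iff]
    simpa using hq

theorem adm2 {q : ℝ} (hq : 0 < q) : Adm (L2 q) (-1) where
  sg := Or.inr rfl
  lo := by
    unfold L2
    rw [Complex.log_im]
    have : |Complex.arg (1 + q * Complex.I)| < Real.pi / 2 := by
      rw [Complex.abs_arg_lt_pi_div_two_iff]
      left
      simp
    have := (abs_lt.1 this).2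
    linarith
  hi := by
    unfold L2
    rw [Complex.log_im]
    have h1 : 0 ≤ Complex.arg (1 + q * Complex.I) := by
      rw [Complex.arg_nonneg_iff]
      simpa using hq.le
    have h2 : Complex.arg (1 + q * Complex.I) ≠ 0 := by
      intro h
      rw [Complex.arg_eq_zero_iff] at h
      have := h.2
      simp at this
      linarith
    have h3 : 0 < Complex.arg (1 + q * Complex.I) := lt_of_le_of_ne h1 (Ne.symm h2)
    linarith

theorem nu_L1 (q : ℝ) : nu (L1 q) = 1 - q * Complex.I := by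
  unfold nu L1
  exact Complex.exp_log (ne1 q)

theorem nu_L2 (q : ℝ) : nu (L2 q) = 1 + q * Complex.I := by
  unfold nu L2
  exact Complex.exp_log (ne2 q)

theorem nu'_L1 (q : ℝ) : nu' (L1 q) 1 = q + Complex.I := by
  unfold nu' L1
  rw [Complex.exp_add, Complex.exp_log (ne1 q)]
  have : ((1 : ℝ) : ℂ) * Real.pi / 2 * Complex.I = Real.pi / 2 * Complex.I := by push_cast; ring
  rw [this, Complex.exp_pi_div_two_mul_I]
  ring_nf
  rw [Complex.I_sq]
  ring

theorem nu'_L2 (q : ℝ) : nu' (L2 q) (-1) = q - Complex.I := by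
  unfold nu' L2
  rw [Complex.exp_add, Complex.exp_log (ne2 q)]
  have : ((-1 : ℝ) : ℂ) * Real.pi / 2 * Complex.I = -(Real.pi / 2 * Complex.I) := by push_cast; ring
  rw [this, Complex.exp_neg, Complex.exp_pi_div_two_mul_I]
  rw [Complex.inv_I]
  ring_nf
  rw [Complex.I_sq]
  ring

theorem exp_two_mul (z : ℂ) : Complex.exp (2 * z) = Complex.exp z ^ 2 := by
  rw [← Complex.exp_nat_mul]
  norm_num

theorem al_L1 (q : ℝ) : al (L1 q) 1 = (1 - q * Complex.I) ^ 2 * Complex.I / (2 * Real.pi) := by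
  unfold al logal
  rw [Complex.exp_sub, Complex.exp_add, exp_two_mul]
  have h1 : Complex.exp (L1 q) = 1 - q * Complex.I := nu_L1 q
  have : ((1 : ℝ) : ℂ) * Real.pi / 2 * Complex.I = Real.pi / 2 * Complex.I := by push_cast; ring
  rw [h1, this, Complex.exp_pi_div_two_mul_I, ← Complex.ofReal_exp, Real.exp_log (by positivity)]
  push_cast
  rfl

theorem al_L2 (q : ℝ) : al (L2 q) (-1) = (1 + q * Complex.I) ^ 2 * (-Complex.I) / (2 * Real.pi) := by
  unfold al logal
  rw [Complex.exp_sub, Complex.exp_add, exp_two_mul]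
  have h1 : Complex.exp (L2 q) = 1 + q * Complex.I := nu_L2 q
  have : ((-1 : ℝ) : ℂ) * Real.pi / 2 * Complex.I = -(Real.pi / 2 * Complex.I) := by push_cast; ring
  rw [h1, this, Complex.exp_neg, Complex.exp_pi_div_two_mul_I, Complex.inv_I, ← Complex.ofReal_exp,
    Real.exp_log (by positivity)]
  push_cast
  rfl

theorem al_L1' (q : ℝ) : al (L1 q) 1 = ((q / Real.pi : ℝ) : ℂ) + ((1 - q ^ 2) / (2 * Real.pi) : ℝ) * Complex.I := by
  rw [al_L1]
  have hpi : (Real.pi : ℂ) ≠ 0 := by exact_mod_cast Real.pi_pos.ne'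
  push_cast
  field_simp
  have : (1 - (q:ℂ) * Complex.I) ^ 2 = 1 - 2 * q * Complex.I - q ^ 2 := by
    ring_nf
    rw [Complex.I_sq]
    ring
  rw [this]
  ring_nf
  rw [Complex.I_sq]
  ring

theorem al_L2' (q : ℝ) : al (L2 q) (-1) = ((q / Real.pi : ℝ) : ℂ) + (-((1 - q ^ 2) / (2 * Real.pi)) : ℝ) * Complex.I := by
  rw [al_L2]
  have hpi : (Real.pi : ℂ) ≠ 0 := by exact_mod_cast Real.pi_pos.ne'
  push_cast
  field_simp
  have : (1 + (q:ℂ) * Complex.I) ^ 2 = 1 + 2 * q * Complex.I - q ^ 2 := by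
    ring_nf
    rw [Complex.I_sq]
    ring
  rw [this]
  ring_nf
  rw [Complex.I_sq]
  ring

theorem al_L1_re (q : ℝ) : (al (L1 q) 1).re = q / Real.pi := by
  rw [al_L1', Complex.add_re, Complex.ofReal_re, Complex.re_ofReal_mul, Complex.I_re, mul_zero,
    add_zero]

theorem al_L1_im (q : ℝ) : (al (L1 q) 1).im = (1 - q ^ 2) / (2 * Real.pi) := by
  rw [al_L1', Complex.add_im, Complex.ofReal_im, zero_add, Complex.im_ofReal_mul, Complex.I_im,
    mul_one]

theorem al_L2_re (q : ℝ) : (al (L2 q) (-1)).re = q / Real.pi := by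
  rw [al_L2', Complex.add_re, Complex.ofReal_re, Complex.re_ofReal_mul, Complex.I_re, mul_zero,
    add_zero]

theorem al_L2_im (q : ℝ) : (al (L2 q) (-1)).im = -((1 - q ^ 2) / (2 * Real.pi)) := by
  rw [al_L2', Complex.add_im, Complex.ofReal_im, zero_add, Complex.im_ofReal_mul, Complex.I_im,
    mul_one]

theorem norm_ss (l : ℂ) (σ : ℝ) : ‖ss l σ‖ ^ 2 = ‖al l σ‖ := by
  unfold ss al
  rw [← norm_pow, ← exp_two_mul]
  congr 2
  ring

theorem norm_al1 (q : ℝ) : ‖al (L1 q) 1‖ = (1 + q ^ 2) / (2 * Real.pi) := by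
  rw [al_L1, norm_div, norm_mul, norm_pow, Complex.norm_I, mul_one]
  have h1 : ‖(1 - q * Complex.I : ℂ)‖ ^ 2 = 1 + q ^ 2 := by
    rw [← Complex.normSq_eq_norm_sq, Complex.normSq_apply]
    simp
    ring
  rw [h1]
  congr 1
  rw [show (2 * Real.pi : ℂ) = ((2 * Real.pi : ℝ) : ℂ) by push_cast; ring, Complex.norm_real,
    Real.norm_of_nonneg (by positivity)]

theorem norm_al2 (q : ℝ) : ‖al (L2 q) (-1)‖ = (1 + q ^ 2) / (2 * Real.pi) := by
  rw [al_L2, norm_div, norm_mul, norm_pow, norm_neg, Complex.norm_I, mul_one]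
  have h1 : ‖(1 + q * Complex.I : ℂ)‖ ^ 2 = 1 + q ^ 2 := by
    rw [← Complex.normSq_eq_norm_sq, Complex.normSq_apply]
    simp
    ring
  rw [h1]
  congr 1
  rw [show (2 * Real.pi : ℂ) = ((2 * Real.pi : ℝ) : ℂ) by push_cast; ring, Complex.norm_real,
    Real.norm_of_nonneg (by positivity)]

theorem norm_ss_le1 {q : ℝ} (hq : 1 ≤ q) : ‖ss (L1 q) 1‖ ≤ q / √Real.pi := by
  have h := norm_ss (L1 q) 1
  rw [norm_al1] at h
  apply le_of_sq_le_sq _ (by positivity)
  rw [h, div_pow, Real.sq_sqrt Real.pi_pos.le, div_le_div_iff₀ (by positivity) Real.pi_pos]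
  have h5 : 0 ≤ Real.pi * (q ^ 2 - 1) := mul_nonneg Real.pi_pos.le (by nlinarith)
  nlinarith

theorem norm_ss_le2 {q : ℝ} (hq : 1 ≤ q) : ‖ss (L2 q) (-1)‖ ≤ q / √Real.pi := by
  have h := norm_ss (L2 q) (-1)
  rw [norm_al2] at h
  apply le_of_sq_le_sq _ (by positivity)
  rw [h, div_pow, Real.sq_sqrt Real.pi_pos.le, div_le_div_iff₀ (by positivity) Real.pi_pos]
  have h5 : 0 ≤ Real.pi * (q ^ 2 - 1) := mul_nonneg Real.pi_pos.le (by nlinarith)
  nlinarith

/-- combined bound: from bounds of the two smooth sums -/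
theorem asum_kf_le {q : ℝ} (hq : 1 ≤ q) {x : ℝ} (hx : 0 < x) {E : ℝ}
    (h1 : ‖asum (kk (al (L1 q) 1)) x‖ ≤ (E / q) / √x)
    (h2 : ‖asum (kk (al (L2 q) (-1))) x‖ ≤ (E / q) / √x) :
    √x * ‖asum (kf (L1 q) (L2 q)) x‖ ≤ 2 * E / √Real.pi := by
  have hq0 : 0 < q := by linarith
  have hsx : 0 < √x := Real.sqrt_pos.2 hx
  have hsp : 0 < √Real.pi := Real.sqrt_pos.2 Real.pi_pos
  have hE : 0 ≤ (E / q) / √x := (norm_nonneg _).trans h1
  rw [asum_kf (adm1 hq0) (adm2 hq0) hx]
  calc √x * ‖ss (L1 q) 1 * asum (kk (al (L1 q) 1)) x - ss (L2 q) (-1) * asum (kk (al (L2 q) (-1))) x‖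
      ≤ √x * (q / √Real.pi * ((E / q) / √x) + q / √Real.pi * ((E / q) / √x)) := by
        apply mul_le_mul_of_nonneg_left _ hsx.le
        refine (norm_sub_le _ _).trans ?_
        rw [norm_mul, norm_mul]
        apply add_le_add
        · exact mul_le_mul (norm_ss_le1 hq) h1 (norm_nonneg _) (by positivity)
        · exact mul_le_mul (norm_ss_le2 hq) h2 (norm_nonneg _) (by positivity)
    _ = _ := by field_simp; ring

/-- the dual series at x = 1 -/
noncomputable def Sq (q : ℝ) : ℝ :=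
  ∑' m : ℕ, ((ArithmeticFunction.moebius m : ℤ) : ℝ) / m * (Real.exp (-2 / √m) * Real.sin (2 * q / √m))

end Pool.Agent.Helper13.Mob
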