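import Pool.Agent.Helper13.MobP

namespace Pool.Agent.Helper13.Mob

open Finset MeasureTheory Set Filter Topology

theorem hf_explicit (q x : ℝ) : hf (L1 q) (L2 q) x =
    2 * Complex.I * (√Real.pi : ℂ) * (((Real.exp (-2 * √x) * Real.sin (2 * q * √x) : ℝ) : ℂ) -
      ((Real.exp (-2 * q * √x) * Real.sin (2 * √x) : ℝ) : ℂ)) := by
  rw [hf_eq, nu_L1, nu_L2, nu'_L1, nu'_L2]
  unfold EE
  set y := √x with hy
  have e1 : Complex.exp (-(2 * (1 - q * Complex.I) * y)) =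
      Complex.exp (-2 * y) * Complex.exp ((2 * q * y) * Complex.I) := by
    rw [← Complex.exp_add]; congr 1; ring
  have e2 : Complex.exp (-(2 * (1 + q * Complex.I) * y)) =
      Complex.exp (-2 * y) * Complex.exp (-(2 * q * y) * Complex.I) := by
    rw [← Complex.exp_add]; congr 1; ring
  have e3 : Complex.exp (-(2 * (q + Complex.I) * y)) =
      Complex.exp (-2 * q * y) * Complex.exp (-(2 * y) * Complex.I) := by
    rw [← Complex.exp_add]; congr 1; ring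
  have e4 : Complex.exp (-(2 * (q - Complex.I) * y)) =
      Complex.exp (-2 * q * y) * Complex.exp ((2 * y) * Complex.I) := by
    rw [← Complex.exp_add]; congr 1; ring
  have s1 := Complex.two_sin (2 * q * y : ℂ)
  have s2 := Complex.two_sin (2 * y : ℂ)
  rw [e1, e2, e3, e4]
  push_cast
  have h1 : Complex.exp ((2 * q * y) * Complex.I) - Complex.exp (-(2 * q * y) * Complex.I) =
      2 * Complex.I * Complex.sin (2 * q * y) := by
    have h2 : 2 * Complex.I * Complex.sin (2 * q * y) = Complex.I * (2 * Complex.sin (2 * q * y)) := by ring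
    rw [h2, s1]
    ring_nf
    rw [Complex.I_sq]
    ring
  have h3 : Complex.exp ((2 * y) * Complex.I) - Complex.exp (-(2 * y) * Complex.I) =
      2 * Complex.I * Complex.sin (2 * y) := by
    have h2 : 2 * Complex.I * Complex.sin (2 * y) = Complex.I * (2 * Complex.sin (2 * y)) := by ring
    rw [h2, s2]
    ring_nf
    rw [Complex.I_sq]
    ring
  calc _ = (√Real.pi : ℂ) * (Complex.exp (-2 * y) * (Complex.exp ((2 * q * y) * Complex.I) -
        Complex.exp (-(2 * q * y) * Complex.I)) - Complex.exp (-2 * q * y) *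
        (Complex.exp ((2 * y) * Complex.I) - Complex.exp (-(2 * y) * Complex.I))) := by ring
    _ = _ := by rw [h1, h3]; ring

noncomputable def Z32 : ℝ := ∑' m : ℕ, (m : ℝ) ^ (-(3/2) : ℝ)

theorem abs_mu_real (m : ℕ) : |((ArithmeticFunction.moebius m : ℤ) : ℝ)| ≤ 1 := by
  exact_mod_cast ArithmeticFunction.abs_moebius_le_one

theorem inv_mul_sqrt (m : ℕ) : 1 / (m : ℝ) * (1 / √m) = (m : ℝ) ^ (-(3/2) : ℝ) := by
  rcases Nat.eq_zero_or_pos m with h0 | h0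
  · subst h0
    simp
  · have hm : (0:ℝ) < m := by exact_mod_cast h0
    rw [Real.sqrt_eq_rpow, one_div, one_div, ← Real.rpow_neg_one, ← Real.rpow_neg hm.le,
      ← Real.rpow_add hm]
    norm_num

theorem S_term_bd (m : ℕ) (c : ℝ) {E : ℝ} (hE : |E| ≤ 1) :
    |((ArithmeticFunction.moebius m : ℤ) : ℝ) / m * (E * Real.sin (c / √m))| ≤ |c| * (m : ℝ) ^ (-(3/2) : ℝ) := by
  rw [← inv_mul_sqrt, abs_mul, abs_div, abs_mul]
  have h1 := abs_mu_real m
  have h2 : |Real.sin (c / √m)| ≤ |c / √m| := Real.abs_sin_le_abs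
  rw [abs_div, abs_of_nonneg (Real.sqrt_nonneg _)] at h2
  have hm : (0:ℝ) ≤ m := Nat.cast_nonneg m
  rw [abs_of_nonneg hm]
  have h3 : |E| * |Real.sin (c / √m)| ≤ 1 * (|c| / √m) := mul_le_mul hE h2 (abs_nonneg _) zero_le_one
  calc |((ArithmeticFunction.moebius m : ℤ) : ℝ)| / m * (|E| * |Real.sin (c / √m)|)
      ≤ 1 / m * (1 * (|c| / √m)) := by
        apply mul_le_mul _ h3 (by positivity) (by positivity)
        exact div_le_div_of_nonneg_right h1 hm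
    _ = _ := by ring

theorem exp_neg_abs_le {t : ℝ} (ht : 0 ≤ t) : |Real.exp (-t)| ≤ 1 := by
  rw [abs_of_pos (Real.exp_pos _)]
  exact Real.exp_le_one_iff.2 (by linarith)

theorem S_exp_le (m : ℕ) : |Real.exp (-2 / √m)| ≤ 1 := by
  have := exp_neg_abs_le (t := 2 / √m) (by positivity)
  rwa [← neg_div] at this

theorem Sq_summable (q : ℝ) : Summable fun m : ℕ => ((ArithmeticFunction.moebius m : ℤ) : ℝ) / m *
    (Real.exp (-2 / √m) * Real.sin (2 * q / √m)) := by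
  apply Summable.of_norm_bounded (summable_32.mul_left |2 * q|)
  intro m
  exact S_term_bd m (2 * q) (S_exp_le m)

noncomputable def Tq (q : ℝ) : ℝ :=
  ∑' m : ℕ, ((ArithmeticFunction.moebius m : ℤ) : ℝ) / m * (Real.exp (-(2 * q) / √m) * Real.sin (2 / √m))

theorem T_exp_le {q : ℝ} (hq : 0 ≤ q) (m : ℕ) : |Real.exp (-(2 * q) / √m)| ≤ 1 := by
  have := exp_neg_abs_le (t := 2 * q / √m) (by positivity)
  rwa [← neg_div] at this

theorem Tq_summable {q : ℝ} (hq : 0 ≤ q) : Summable fun m : ℕ => ((ArithmeticFunction.moebius m : ℤ) : ℝ) / m *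
    (Real.exp (-(2 * q) / √m) * Real.sin (2 / √m)) := by
  apply Summable.of_norm_bounded (summable_32.mul_left |(2:ℝ)|)
  intro m
  exact S_term_bd m 2 (T_exp_le hq m)

theorem Tq_bd {q : ℝ} (hq : 0 ≤ q) : |Tq q| ≤ 2 * Z32 := by
  have h := tsum_of_norm_bounded (f := fun m : ℕ => ((ArithmeticFunction.moebius m : ℤ) : ℝ) / m *
    (Real.exp (-(2 * q) / √m) * Real.sin (2 / √m))) (summable_32.mul_left |(2:ℝ)|).hasSum
    (fun m => S_term_bd m 2 (T_exp_le hq m))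
  rw [tsum_mul_left, abs_of_pos (by norm_num : (0:ℝ) < 2)] at h
  exact h

theorem dsum_one {q : ℝ} (hq : 0 ≤ q) : dsum (hf (L1 q) (L2 q)) 1 =
    2 * Complex.I * (√Real.pi : ℂ) * ((Sq q - Tq q : ℝ) : ℂ) := by
  have h1 : Sq q - Tq q = ∑' m : ℕ, (((ArithmeticFunction.moebius m : ℤ) : ℝ) / m *
    (Real.exp (-2 / √m) * Real.sin (2 * q / √m)) - ((ArithmeticFunction.moebius m : ℤ) : ℝ) / m *
    (Real.exp (-(2 * q) / √m) * Real.sin (2 / √m))) := by
    unfold Sq Tq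
    exact ((Sq_summable q).tsum_sub (Tq_summable hq)).symm
  rw [h1, Complex.ofReal_tsum, ← tsum_mul_left]
  unfold dsum
  congr 1
  ext m
  rw [hf_explicit]
  have e : √((m : ℝ)⁻¹ * 1) = 1 / √m := by
    rw [mul_one, Real.sqrt_inv, one_div]
  rw [e]
  unfold mu
  have a1 : -2 * (1 / √(m:ℝ)) = -2 / √m := by ring
  have a2 : 2 * q * (1 / √(m:ℝ)) = 2 * q / √m := by ring
  have a3 : -2 * q * (1 / √(m:ℝ)) = -(2 * q) / √m := by ring
  have a4 : 2 * (1 / √(m:ℝ)) = 2 / √m := by ring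
  rw [a1, a2, a3, a4]
  push_cast
  ring

theorem Sq_bound {B : ℝ} (hM : MertensBd B) {q : ℝ} (hq : 1 ≤ q) {C₀ : ℝ} (hC₀ : 0 ≤ C₀)
    (hlim : ∀ ε > 0, ∀ᶠ x in 𝓝[>] (0:ℝ), √x * ‖asum (kf (L1 q) (L2 q)) x‖ ≤ C₀ + ε) :
    |Sq q| ≤ (C₀ + ‖asum (kf (L1 q) (L2 q)) 1‖) / (2 * √Real.pi) + 2 * Z32 := by
  have hq0 : 0 < q := by linarith
  have h1 := core (adm1 hq0) (adm2 hq0) hM hC₀ hlim one_pos
  rw [Real.sqrt_one, one_mul] at h1
  have h2 : ‖dsum (hf (L1 q) (L2 q)) 1‖ ≤ C₀ + ‖asum (kf (L1 q) (L2 q)) 1‖ := by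
    calc ‖dsum (hf (L1 q) (L2 q)) 1‖ = ‖asum (kf (L1 q) (L2 q)) 1 -
          (asum (kf (L1 q) (L2 q)) 1 - dsum (hf (L1 q) (L2 q)) 1)‖ := by congr 1; ring
      _ ≤ ‖asum (kf (L1 q) (L2 q)) 1‖ + ‖asum (kf (L1 q) (L2 q)) 1 - dsum (hf (L1 q) (L2 q)) 1‖ :=
        norm_sub_le _ _
      _ ≤ _ := by linarith
  rw [dsum_one hq0.le, norm_mul, norm_mul, norm_mul, Complex.norm_I, norm_sqrt_pi, Complex.norm_real] at h2
  have h3 : ‖(2:ℂ)‖ = 2 := by norm_num
  rw [h3, mul_one] at h2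
  have hsp : 0 < √Real.pi := Real.sqrt_pos.2 Real.pi_pos
  have h4 : |Sq q - Tq q| ≤ (C₀ + ‖asum (kf (L1 q) (L2 q)) 1‖) / (2 * √Real.pi) := by
    rw [le_div_iff₀ (by positivity)]
    rw [Real.norm_eq_abs] at h2
    linarith
  have h5 := Tq_bd hq0.le
  calc |Sq q| = |(Sq q - Tq q) + Tq q| := by congr 1; ring
    _ ≤ |Sq q - Tq q| + |Tq q| := abs_add_le _ _
    _ ≤ _ := add_le_add h4 h5

end Pool.Agent.Helper13.Mob
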