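import Mathlib

namespace Pool.Agent.Helper13.Mob

open Finset

/-- quadratic extension of a subfield of the reals, as a set of elements x + y s -/
noncomputable def quad (K : Subfield ℝ) (s : ℝ) (hs : s * s ∈ K) : Subfield ℝ where
  carrier := {z | ∃ x ∈ K, ∃ y ∈ K, z = x + y * s}
  mul_mem' := by
    rintro _ _ ⟨a, ha, b, hb, rfl⟩ ⟨c, hc, d, hd, rfl⟩
    refine ⟨a * c + b * d * (s * s), K.add_mem (K.mul_mem ha hc) (K.mul_mem (K.mul_mem hb hd) hs),
      a * d + b * c, K.add_mem (K.mul_mem ha hd) (K.mul_mem hb hc), by ring⟩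
  one_mem' := ⟨1, K.one_mem, 0, K.zero_mem, by ring⟩
  add_mem' := by
    rintro _ _ ⟨a, ha, b, hb, rfl⟩ ⟨c, hc, d, hd, rfl⟩
    exact ⟨a + c, K.add_mem ha hc, b + d, K.add_mem hb hd, by ring⟩
  zero_mem' := ⟨0, K.zero_mem, 0, K.zero_mem, by ring⟩
  neg_mem' := by
    rintro _ ⟨a, ha, b, hb, rfl⟩
    exact ⟨-a, K.neg_mem ha, -b, K.neg_mem hb, by ring⟩
  inv_mem' := by
    rintro _ ⟨a, ha, b, hb, rfl⟩
    by_cases h0 : a + b * s = 0
    · rw [h0, inv_zero]
      exact ⟨0, K.zero_mem, 0, K.zero_mem, by ring⟩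
    · by_cases h1 : a - b * s = 0
      · have h2 : a = b * s := by linarith
        refine ⟨(2 * a)⁻¹, K.inv_mem (K.mul_mem (ofNat_mem K 2) ha), 0, K.zero_mem, ?_⟩
        rw [← h2]
        ring
      · refine ⟨a * (a * a - b * b * (s * s))⁻¹, K.mul_mem ha (K.inv_mem (K.sub_mem (K.mul_mem ha ha)
          (K.mul_mem (K.mul_mem hb hb) hs))), -b * (a * a - b * b * (s * s))⁻¹,
          K.mul_mem (K.neg_mem hb) (K.inv_mem (K.sub_mem (K.mul_mem ha ha)
          (K.mul_mem (K.mul_mem hb hb) hs))), ?_⟩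
        have h3 : a * a - b * b * (s * s) = (a + b * s) * (a - b * s) := by ring
        rw [h3]
        field_simp
        ring

theorem mem_quad {K : Subfield ℝ} {s : ℝ} {hs : s * s ∈ K} {z : ℝ} :
    z ∈ quad K s hs ↔ ∃ x ∈ K, ∃ y ∈ K, z = x + y * s := Iff.rfl

theorem natCast_mem' (K : Subfield ℝ) (n : ℕ) : (n : ℝ) ∈ K := natCast_mem K n

/-- the field generated by the square roots of a finite set of primes contains no other square
root of a squarefree number -/
theorem exists_field (P : Finset ℕ) (hP : ∀ p ∈ P, p.Prime) :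
    ∃ K : Subfield ℝ, (∀ p ∈ P, √(p : ℝ) ∈ K) ∧
      ∀ d : ℕ, Squarefree d → (∃ r, r.Prime ∧ r ∣ d ∧ r ∉ P) → √(d : ℝ) ∉ K := by
  induction P using Finset.induction_on with
  | empty =>
    refine ⟨(Rat.castHom ℝ).fieldRange, by simp, ?_⟩
    rintro d hd ⟨r, hr, hrd, -⟩ hmem
    rw [RingHom.mem_fieldRange] at hmem
    obtain ⟨q, hq⟩ := hmem
    have hirr : ¬ Irrational (√(d : ℝ)) := by
      intro h
      exact h ⟨q, hq⟩
    rw [irrational_sqrt_natCast_iff, not_not] at hirr
    obtain ⟨k, hk⟩ := hirr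
    have hu : IsUnit k := hd k (by rw [hk])
    rw [Nat.isUnit_iff] at hu
    rw [hu] at hk
    rw [hk] at hrd
    have := Nat.le_of_dvd (by norm_num) hrd
    have := hr.two_le
    omega
  | insert p P hpP ih =>
    have hpprime : p.Prime := hP p (Finset.mem_insert_self p P)
    obtain ⟨K, hK1, hK2⟩ := ih (fun q hq => hP q (Finset.mem_insert_of_mem hq))
    have hsq : √(p : ℝ) * √(p : ℝ) ∈ K := by
      rw [Real.mul_self_sqrt (Nat.cast_nonneg p)]
      exact natCast_mem' K p
    have hp0 : (0:ℝ) < p := by exact_mod_cast hpprime.pos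
    refine ⟨quad K (√(p : ℝ)) hsq, ?_, ?_⟩
    · intro q hq
      rw [mem_quad]
      rcases Finset.mem_insert.1 hq with h | h
      · subst h
        exact ⟨0, K.zero_mem, 1, K.one_mem, by ring⟩
      · exact ⟨_, hK1 q h, 0, K.zero_mem, by ring⟩
    · rintro d hd ⟨r, hr, hrd, hrP⟩ hmem
      rw [Finset.mem_insert, not_or] at hrP
      obtain ⟨hrp, hrP⟩ := hrP
      rw [mem_quad] at hmem
      obtain ⟨x, hx, y, hy, hxy⟩ := hmem
      have hd0 : (0:ℝ) ≤ d := Nat.cast_nonneg d
      by_cases hy0 : y = 0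
      · rw [hy0, zero_mul, add_zero] at hxy
        exact hK2 d hd ⟨r, hr, hrd, hrP⟩ (hxy ▸ hx)
      by_cases hx0 : x = 0
      · rw [hx0, zero_add] at hxy
        by_cases hpd : p ∣ d
        · obtain ⟨d', rfl⟩ := hpd
          have hd' : Squarefree d' := Squarefree.of_mul_right hd
          have hrd' : r ∣ d' := by
            rcases (Nat.Prime.dvd_mul hr).1 hrd with h | h
            · exact absurd ((Nat.prime_dvd_prime_iff_eq hr hpprime).1 h) hrp
            · exact h
          apply hK2 d' hd' ⟨r, hr, hrd', hrP⟩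
          push_cast at hxy
          rw [Real.sqrt_mul hp0.le, mul_comm] at hxy
          have := mul_right_cancel₀ (Real.sqrt_pos.2 hp0).ne' hxy
          rw [this]
          exact hy
        · have hdp : Squarefree (d * p) := by
            rw [Nat.squarefree_mul ((Nat.Prime.coprime_iff_not_dvd hpprime).2 hpd).symm]
            exact ⟨hd, hpprime.squarefree⟩
          apply hK2 (d * p) hdp ⟨r, hr, dvd_mul_of_dvd_left hrd p, hrP⟩
          push_cast
          rw [Real.sqrt_mul hd0, hxy, mul_assoc, Real.mul_self_sqrt hp0.le]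
          exact K.mul_mem hy (natCast_mem' K p)
      · apply hK2 p hpprime.squarefree ⟨p, hpprime, dvd_rfl, hpP⟩
        have h1 : (d : ℝ) = x * x + y * y * p + 2 * x * y * √(p : ℝ) := by
          calc (d : ℝ) = √(d : ℝ) * √(d : ℝ) := (Real.mul_self_sqrt hd0).symm
            _ = x * x + y * y * (√(p : ℝ) * √(p : ℝ)) + 2 * x * y * √(p : ℝ) := by rw [hxy]; ring
            _ = _ := by rw [Real.mul_self_sqrt hp0.le]
        have h2 : √(p : ℝ) = (d - x * x - y * y * p) * (2 * x * y)⁻¹ := by
          field_simp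
          linarith
        rw [h2]
        exact K.mul_mem (K.sub_mem (K.sub_mem (natCast_mem' K d) (K.mul_mem hx hx))
          (K.mul_mem (K.mul_mem hy hy) (natCast_mem' K p)))
          (K.inv_mem (K.mul_mem (K.mul_mem (ofNat_mem K 2) hx) hy))

/-- linear independence of the square roots of squarefree numbers, in powerset form -/
theorem sqrt_indep (P : Finset ℕ) (hP : ∀ p ∈ P, p.Prime) (c : Finset ℕ → ℚ)
    (h : ∑ T ∈ P.powerset, (c T : ℝ) * √((∏ p ∈ T, p : ℕ) : ℝ) = 0) : ∀ T ∈ P.powerset, c T = 0 := by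
  induction P using Finset.induction_on generalizing c with
  | empty =>
    intro T hT
    rw [Finset.powerset_empty, Finset.mem_singleton] at hT
    subst hT
    simpa using h
  | insert p P hpP ih =>
    have hpprime : p.Prime := hP p (Finset.mem_insert_self p P)
    have hP' : ∀ q ∈ P, q.Prime := fun q hq => hP q (Finset.mem_insert_of_mem hq)
    obtain ⟨K, hK1, hK2⟩ := exists_field P hP'
    have hprod : ∀ T ∈ P.powerset, √((∏ q ∈ T, q : ℕ) : ℝ) ∈ K := by
      intro T hT
      rw [Finset.mem_powerset] at hT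
      have : √((∏ q ∈ T, q : ℕ) : ℝ) = ∏ q ∈ T, √(q : ℝ) := by
        push_cast
        rw [Real.sqrt_prod]
        intro i _
        exact Nat.cast_nonneg i
      rw [this]
      exact prod_mem (fun q hq => hK1 q (hT hq))
    have hratK : ∀ q : ℚ, (q : ℝ) ∈ K := fun q => SubfieldClass.ratCast_mem K q
    rw [Finset.sum_powerset_insert hpP] at h
    have hB : ∑ T ∈ P.powerset, (c (insert p T) : ℝ) * √((∏ q ∈ insert p T, q : ℕ) : ℝ) =
        (∑ T ∈ P.powerset, (c (insert p T) : ℝ) * √((∏ q ∈ T, q : ℕ) : ℝ)) * √(p : ℝ) := by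
      rw [Finset.sum_mul]
      apply Finset.sum_congr rfl
      intro T hT
      rw [Finset.mem_powerset] at hT
      rw [Finset.prod_insert (fun h => hpP (hT h))]
      push_cast
      rw [Real.sqrt_mul (Nat.cast_nonneg p)]
      ring
    rw [hB] at h
    set A := ∑ T ∈ P.powerset, (c T : ℝ) * √((∏ q ∈ T, q : ℕ) : ℝ) with hA
    set B := ∑ T ∈ P.powerset, (c (insert p T) : ℝ) * √((∏ q ∈ T, q : ℕ) : ℝ) with hBdef
    have hAK : A ∈ K := sum_mem (fun T hT => K.mul_mem (hratK _) (hprod T hT))
    have hBK : B ∈ K := sum_mem (fun T hT => K.mul_mem (hratK _) (hprod T hT))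
    have hB0 : B = 0 := by
      by_contra hne
      apply hK2 p hpprime.squarefree ⟨p, hpprime, dvd_rfl, hpP⟩
      have : √(p : ℝ) = -A * B⁻¹ := by
        field_simp
        linarith
      rw [this]
      exact K.mul_mem (K.neg_mem hAK) (K.inv_mem hBK)
    have hA0 : A = 0 := by
      rw [hB0, zero_mul, add_zero] at h
      exact h
    have i1 := ih hP' c hA0
    have i2 := ih hP' (fun T => c (insert p T)) hB0
    intro T hT
    rw [Finset.mem_powerset] at hT
    by_cases hpT : p ∈ T
    · have h3 : T.erase p ∈ P.powerset := by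
        rw [Finset.mem_powerset]
        intro q hq
        rcases Finset.mem_insert.1 (hT (Finset.mem_of_mem_erase hq)) with h4 | h4
        · exact absurd h4 (Finset.ne_of_mem_erase hq)
        · exact h4
      have := i2 _ h3
      simp only [Finset.insert_erase hpT] at this
      exact this
    · apply i1
      rw [Finset.mem_powerset]
      intro q hq
      rcases Finset.mem_insert.1 (hT hq) with h4 | h4
      · rw [h4] at hq
        exact absurd hq hpT
      · exact h4

/-- the form used below -/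
theorem freq_indep (A : Finset ℕ) (hA : ∀ p ∈ A, p.Prime) (e : ℕ → ℤ) (m₀ : ℕ) (hm : Squarefree m₀)
    (c₀ : ℤ) (h : ∑ p ∈ A, (e p : ℝ) / √(p : ℝ) + (c₀ : ℝ) / √(m₀ : ℝ) = 0) :
    (m₀ ∉ A → (∀ p ∈ A, e p = 0) ∧ c₀ = 0) ∧ (∀ p ∈ A, p ≠ m₀ → e p = 0) ∧
      (m₀ ∈ A → e m₀ + c₀ = 0) := by
  classical
  have hm0 : m₀ ≠ 0 := hm.ne_zero
  set P := A ∪ m₀.primeFactors with hPdef
  have hP : ∀ p ∈ P, p.Prime := by
    intro p hp
    rcases Finset.mem_union.1 hp with h1 | h1
    · exact hA p h1
    · exact Nat.prime_of_mem_primeFactors h1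
  set c : Finset ℕ → ℚ := fun T => (∑ p ∈ A, if T = {p} then (e p : ℚ) / p else 0) +
    (if T = m₀.primeFactors then (c₀ : ℚ) / m₀ else 0) with hc
  have hsum : ∑ T ∈ P.powerset, (c T : ℝ) * √((∏ p ∈ T, p : ℕ) : ℝ) = 0 := by
    rw [← h]
    have e1 : ∀ T ∈ P.powerset, (c T : ℝ) * √((∏ p ∈ T, p : ℕ) : ℝ) =
        (∑ p ∈ A, if T = {p} then (e p : ℝ) / √(p : ℝ) else 0) +
        (if T = m₀.primeFactors then (c₀ : ℝ) / √(m₀ : ℝ) else 0) := by
      intro T _
      rw [hc]
      push_cast
      rw [add_mul, Finset.sum_mul]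
      congr 1
      · apply Finset.sum_congr rfl
        intro p hp
        split_ifs with hT
        · rw [hT]
          simp only [Finset.prod_singleton]
          have hp0 : (0:ℝ) < p := by exact_mod_cast (hA p hp).pos
          push_cast
          rw [div_mul_eq_mul_div, div_eq_div_iff hp0.ne' (Real.sqrt_pos.2 hp0).ne', mul_assoc,
            Real.mul_self_sqrt hp0.le]
        · simp
      · split_ifs with hT
        · rw [hT]
          have h5 : ∏ p ∈ m₀.primeFactors, (p : ℝ) = m₀ := by
            have := congrArg (Nat.cast : ℕ → ℝ) (Nat.prod_primeFactors_of_squarefree hm)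
            push_cast at this
            exact this
          rw [h5]
          have hp0 : (0:ℝ) < m₀ := by exact_mod_cast Nat.pos_of_ne_zero hm0
          push_cast
          rw [div_mul_eq_mul_div, div_eq_div_iff hp0.ne' (Real.sqrt_pos.2 hp0).ne', mul_assoc,
            Real.mul_self_sqrt hp0.le]
        · simp
    rw [Finset.sum_congr rfl e1, Finset.sum_add_distrib, Finset.sum_comm]
    congr 1
    · apply Finset.sum_congr rfl
      intro p hp
      rw [Finset.sum_ite_eq' P.powerset {p}]
      rw [if_pos]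
      rw [Finset.mem_powerset, Finset.singleton_subset_iff]
      exact Finset.mem_union_left _ hp
    · rw [Finset.sum_ite_eq' P.powerset m₀.primeFactors]
      rw [if_pos]
      rw [Finset.mem_powerset]
      exact Finset.subset_union_right
  have key := sqrt_indep P hP c hsum
  have hsing : ∀ p ∈ A, ({p} : Finset ℕ) ∈ P.powerset := by
    intro p hp
    rw [Finset.mem_powerset, Finset.singleton_subset_iff]
    exact Finset.mem_union_left _ hp
  have hval : ∀ p ∈ A, c {p} = (e p : ℚ) / p + (if ({p} : Finset ℕ) = m₀.primeFactors then (c₀ : ℚ) / m₀ else 0) := by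
    intro p hp
    rw [hc]
    simp only
    congr 1
    have : ∀ x ∈ A, (if ({p} : Finset ℕ) = {x} then (e x : ℚ) / x else 0) = if x = p then (e x : ℚ) / x else 0 := by
      intro x _
      simp only [Finset.singleton_inj, eq_comm]
    rw [Finset.sum_congr rfl this, Finset.sum_ite_eq' A p, if_pos hp]
  have hpf : ∀ p, p.Prime → (({p} : Finset ℕ) = m₀.primeFactors ↔ p = m₀) := by
    intro p hp
    constructor
    · intro h1
      have := Nat.prod_primeFactors_of_squarefree hm
      rw [← h1, Finset.prod_singleton] at this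
      exact this
    · intro h1
      rw [← h1, hp.primeFactors]
  have hzero : ∀ p ∈ A, p ≠ m₀ → e p = 0 := by
    intro p hp hne
    have h1 := key _ (hsing p hp)
    rw [hval p hp, if_neg (fun h => hne ((hpf p (hA p hp)).1 h)), add_zero] at h1
    have hp0 : (p : ℚ) ≠ 0 := by exact_mod_cast (hA p hp).ne_zero
    rw [div_eq_zero_iff] at h1
    rcases h1 with h1 | h1
    · exact_mod_cast h1
    · exact absurd h1 hp0
  refine ⟨?_, hzero, ?_⟩
  · intro hmA
    have h1 : ∀ p ∈ A, e p = 0 := fun p hp => hzero p hp (fun h => hmA (h ▸ hp))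
    refine ⟨h1, ?_⟩
    have h2 : ∑ p ∈ A, (e p : ℝ) / √(p : ℝ) = 0 := by
      apply Finset.sum_eq_zero
      intro p hp
      rw [h1 p hp]
      simp
    rw [h2, zero_add, div_eq_zero_iff] at h
    rcases h with h | h
    · exact_mod_cast h
    · exfalso
      have hp0 : (0:ℝ) < m₀ := by exact_mod_cast Nat.pos_of_ne_zero hm0
      exact (Real.sqrt_pos.2 hp0).ne' h
  · intro hmA
    have h1 := key _ (hsing m₀ hmA)
    rw [hval m₀ hmA, if_pos ((hpf m₀ (hA m₀ hmA)).2 rfl)] at h1
    have hp0 : (m₀ : ℚ) ≠ 0 := by exact_mod_cast hm0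
    rw [← add_div, div_eq_zero_iff] at h1
    rcases h1 with h1 | h1
    · exact_mod_cast h1
    · exact absurd h1 hp0

end Pool.Agent.Helper13.Mob
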