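import Pool.Agent.Helper13.MobQ
import Pool.Agent.Helper13.MobR

namespace Pool.Agent.Helper13.Mob

open Finset MeasureTheory Set Filter Topology

/-- averaging kernel -/
noncomputable def kL (L q : ℝ) : ℝ := fej (q / L) / (2 * Real.pi * L)

theorem kL_nonneg {L : ℝ} (hL : 0 < L) (q : ℝ) : 0 ≤ kL L q := by
  unfold kL
  have := fej_nonneg (q / L)
  positivity

theorem kL_int {L : ℝ} (hL : 0 < L) : Integrable (kL L) := by
  unfold kL
  exact (fej_int.comp_div hL.ne').div_const _

theorem kL_fourier {L : ℝ} (hL : 0 < L) (μ : ℝ) :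
    ∫ q : ℝ, Complex.exp (μ * q * Complex.I) * (kL L q : ℂ) = (tri (L * μ) : ℂ) := by
  have h := fej_inv (L * μ)
  have hpi : (Real.pi : ℂ) ≠ 0 := by exact_mod_cast Real.pi_pos.ne'
  have hLc : (L : ℂ) ≠ 0 := by exact_mod_cast hL.ne'
  have e : ∫ q : ℝ, Complex.exp (μ * q * Complex.I) * (kL L q : ℂ) =
      ∫ q : ℝ, (fun v : ℝ => ((fej v : ℂ) * Complex.exp (((L * μ : ℝ) : ℂ) * v * Complex.I)) /
        (2 * Real.pi * L)) (q / L) := by
    congr 1
    ext q
    unfold kL
    push_cast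
    have : (L : ℂ) * μ * (q / L) * Complex.I = μ * q * Complex.I := by field_simp
    rw [this]
    ring
  rw [e, Measure.integral_comp_div (fun v : ℝ => ((fej v : ℂ) * Complex.exp (((L * μ : ℝ) : ℂ) * v * Complex.I)) /
        (2 * Real.pi * L)) L, abs_of_pos hL, Complex.real_smul]
  rw [integral_div, h]
  field_simp

theorem sqrt_abs_fej_int : Integrable (fun v : ℝ => √|v| * fej v) := by
  have h1 : Integrable (fun v : ℝ => (1 + ‖v‖ ^ 2) ^ (-(3/2 : ℝ) / 2)) :=
    integrable_rpow_neg_one_add_norm_sq (by simp; norm_num)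
  refine Integrable.mono' (h1.const_mul 8) ?_ ?_
  · apply AEStronglyMeasurable.mul
    · apply Continuous.aestronglyMeasurable
      fun_prop
    · exact fej_meas.aestronglyMeasurable
  · apply Filter.Eventually.of_forall
    intro v
    have hf := fej_nonneg v
    rw [Real.norm_of_nonneg (by positivity)]
    have h2 : √|v| ≤ (1 + v ^ 2) ^ (1/4 : ℝ) := by
      have e : √|v| = (v ^ 2) ^ (1/4 : ℝ) := by
        rw [Real.sqrt_eq_rpow, ← sq_abs v, ← Real.rpow_natCast, ← Real.rpow_mul (abs_nonneg v)]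
        norm_num
      rw [e]
      apply Real.rpow_le_rpow (by positivity) (by linarith) (by norm_num)
    have h3 : (1 + v ^ 2) ^ (1/4 : ℝ) * (1 + v ^ 2)⁻¹ = (1 + ‖v‖ ^ 2) ^ (-(3/2 : ℝ) / 2) := by
      rw [Real.norm_eq_abs, sq_abs, ← Real.rpow_neg_one, ← Real.rpow_add (by positivity)]
      norm_num
    calc √|v| * fej v ≤ (1 + v ^ 2) ^ (1/4 : ℝ) * (8 * (1 + v ^ 2)⁻¹) :=
          mul_le_mul h2 (fej_le v) hf (by positivity)
      _ = 8 * ((1 + v ^ 2) ^ (1/4 : ℝ) * (1 + v ^ 2)⁻¹) := by ring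
      _ = _ := by rw [h3]

theorem sqrt_abs_kL_int {L : ℝ} (hL : 0 < L) : Integrable (fun q : ℝ => √|q| * kL L q) := by
  have h := (sqrt_abs_fej_int.comp_div hL.ne').const_mul (√L / (2 * Real.pi * L))
  refine h.congr (Filter.Eventually.of_forall ?_)
  intro q
  simp only
  unfold kL
  rw [abs_div, abs_of_pos hL, Real.sqrt_div (abs_nonneg q)]
  have : √L ≠ 0 := (Real.sqrt_pos.2 hL).ne'
  field_simp

/-- Riesz product -/
noncomputable def Wf (A : Finset ℕ) (q : ℝ) : ℝ := ∏ p ∈ A, (1 - Real.sin (2 * q / √p))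

theorem Wf_nonneg (A : Finset ℕ) (q : ℝ) : 0 ≤ Wf A q := by
  unfold Wf
  apply Finset.prod_nonneg
  intro p _
  linarith [Real.sin_le_one (2 * q / √p)]

theorem Wf_le (A : Finset ℕ) (q : ℝ) : Wf A q ≤ 2 ^ A.card := by
  unfold Wf
  calc ∏ p ∈ A, (1 - Real.sin (2 * q / √p)) ≤ ∏ _p ∈ A, (2:ℝ) := by
        apply Finset.prod_le_prod
        · intro p _
          linarith [Real.sin_le_one (2 * q / √p)]
        · intro p _
          linarith [Real.neg_one_le_sin (2 * q / √p)]
    _ = _ := by rw [Finset.prod_const]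

theorem Wf_cont (A : Finset ℕ) : Continuous (Wf A) := by
  unfold Wf
  apply continuous_finsetProd
  intro p _
  fun_prop

noncomputable def bco (e : ℤ) : ℂ := if e = 0 then 1 else if e = 1 then Complex.I / 2 else -(Complex.I / 2)

def E3 : Finset ℤ := {-1, 0, 1}

theorem one_sub_sin (y : ℝ) : ((1 - Real.sin y : ℝ) : ℂ) = ∑ e ∈ E3, bco e * Complex.exp (e * y * Complex.I) := by
  unfold E3
  rw [Finset.sum_insert (by decide), Finset.sum_insert (by decide), Finset.sum_singleton]
  unfold bco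
  simp only [show ((-1 : ℤ) = 0) = False by simp, show ((-1 : ℤ) = 1) = False by simp,
    show ((1 : ℤ) = 0) = False by simp, if_true, if_false]
  have h := Complex.two_sin (y : ℂ)
  push_cast
  have h2 : Complex.sin y = (Complex.exp (-y * Complex.I) - Complex.exp (y * Complex.I)) * Complex.I / 2 := by
    rw [← h]; ring
  rw [h2]
  simp only [zero_mul, Complex.exp_zero, one_mul, neg_mul]
  ring

section
variable (A : Finset ℕ)

noncomputable def X3 : Finset (A → ℤ) := Fintype.piFinset (fun _ : A => E3)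
noncomputable def betaX (x : A → ℤ) : ℂ := ∏ i : A, bco (x i)
noncomputable def omX (x : A → ℤ) : ℝ := ∑ i : A, (x i : ℝ) * (2 / √((i : ℕ) : ℝ))

theorem Wf_expand (q : ℝ) : (Wf A q : ℂ) = ∑ x ∈ X3 A, betaX A x * Complex.exp (omX A x * q * Complex.I) := by
  unfold Wf
  rw [← Finset.prod_coe_sort, Complex.ofReal_prod]
  have e1 : ∀ i : A, ((1 - Real.sin (2 * q / √((i : ℕ) : ℝ)) : ℝ) : ℂ) =
      ∑ e ∈ E3, bco e * Complex.exp (e * ((2 * q / √((i : ℕ) : ℝ) : ℝ) : ℂ) * Complex.I) :=
    fun i => one_sub_sin _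
  rw [Finset.prod_congr rfl (fun i _ => e1 i), Finset.prod_univ_sum]
  unfold X3
  apply Finset.sum_congr rfl
  intro x _
  rw [Finset.prod_mul_distrib, ← Complex.exp_sum]
  unfold betaX omX
  congr 2
  push_cast
  rw [Finset.sum_mul, Finset.sum_mul]
  apply Finset.sum_congr rfl
  intro i _
  ring

end

theorem exp_mul_kL_int {L : ℝ} (hL : 0 < L) (μ : ℝ) :
    Integrable (fun q : ℝ => Complex.exp (μ * q * Complex.I) * (kL L q : ℂ)) := by
  apply Integrable.bdd_mul (c := 1) (kL_int hL).ofReal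
  · apply Continuous.aestronglyMeasurable
    fun_prop
  · apply Filter.Eventually.of_forall
    intro q
    rw [Complex.norm_exp]
    simp

theorem W_fourier (A : Finset ℕ) {L : ℝ} (hL : 0 < L) (μ : ℝ) :
    ∫ q : ℝ, Complex.exp (μ * q * Complex.I) * ((Wf A q * kL L q : ℝ) : ℂ) =
      ∑ x ∈ X3 A, betaX A x * (tri (L * (omX A x + μ)) : ℂ) := by
  have e : ∀ q : ℝ, Complex.exp (μ * q * Complex.I) * ((Wf A q * kL L q : ℝ) : ℂ) =
      ∑ x ∈ X3 A, betaX A x * (Complex.exp (((omX A x + μ : ℝ) : ℂ) * q * Complex.I) * (kL L q : ℂ)) := by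
    intro q
    rw [Complex.ofReal_mul, Wf_expand, Finset.sum_mul, Finset.mul_sum]
    apply Finset.sum_congr rfl
    intro x _
    have : Complex.exp (((omX A x + μ : ℝ) : ℂ) * q * Complex.I) =
        Complex.exp (omX A x * q * Complex.I) * Complex.exp (μ * q * Complex.I) := by
      rw [← Complex.exp_add]
      congr 1
      push_cast
      ring
    rw [this]
    ring
  simp only [e]
  rw [integral_finsetSum]
  · apply Finset.sum_congr rfl
    intro x _
    rw [integral_const_mul, kL_fourier hL]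
  · intro x _
    exact (exp_mul_kL_int hL _).const_mul _

theorem tri_even (t : ℝ) : tri (-t) = tri t := by unfold tri; rw [abs_neg]

theorem WkL_int (A : Finset ℕ) {L : ℝ} (hL : 0 < L) : Integrable (fun q => Wf A q * kL L q) := by
  apply Integrable.bdd_mul (c := 2 ^ A.card) (kL_int hL) (Wf_cont A).aestronglyMeasurable
  apply Filter.Eventually.of_forall
  intro q
  rw [Real.norm_of_nonneg (Wf_nonneg A q)]
  exact Wf_le A q

theorem W_int (A : Finset ℕ) {L : ℝ} (hL : 0 < L) :
    ((∫ q : ℝ, Wf A q * kL L q : ℝ) : ℂ) = ∑ x ∈ X3 A, betaX A x * (tri (L * (omX A x)) : ℂ) := by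
  have := W_fourier A hL 0
  simp only [Complex.ofReal_zero, zero_mul, Complex.exp_zero, one_mul, add_zero] at this
  rw [integral_complex_ofReal] at this
  exact this

theorem sin_int (A : Finset ℕ) {L : ℝ} (hL : 0 < L) (μ : ℝ) :
    ((∫ q : ℝ, Real.sin (μ * q) * (Wf A q * kL L q) : ℝ) : ℂ) =
      (1 / (2 * Complex.I)) * ∑ x ∈ X3 A, betaX A x *
        ((tri (L * (omX A x + μ)) : ℂ) - (tri (L * (omX A x - μ)) : ℂ)) := by
  have h1 := W_fourier A hL μ
  have h2 := W_fourier A hL (-μ)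
  rw [← integral_complex_ofReal]
  have hi : ∀ μ : ℝ, Integrable (fun q : ℝ => Complex.exp (μ * q * Complex.I) * ((Wf A q * kL L q : ℝ) : ℂ)) := by
    intro μ
    apply Integrable.bdd_mul (c := 1) (WkL_int A hL).ofReal
    · apply Continuous.aestronglyMeasurable
      fun_prop
    · apply Filter.Eventually.of_forall
      intro q
      rw [Complex.norm_exp]
      simp
  have e : ∀ q : ℝ, ((Real.sin (μ * q) * (Wf A q * kL L q) : ℝ) : ℂ) =
      (1 / (2 * Complex.I)) * (Complex.exp (μ * q * Complex.I) * ((Wf A q * kL L q : ℝ) : ℂ) -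
        Complex.exp (((-μ : ℝ) : ℂ) * q * Complex.I) * ((Wf A q * kL L q : ℝ) : ℂ)) := by
    intro q
    have h := Complex.two_sin ((μ * q : ℝ) : ℂ)
    rw [Complex.ofReal_mul, Complex.ofReal_sin]
    have h3 : Complex.sin ((μ * q : ℝ) : ℂ) = (1 / (2 * Complex.I)) * (Complex.exp (μ * q * Complex.I) -
        Complex.exp (((-μ : ℝ) : ℂ) * q * Complex.I)) := by
      have h4 : Complex.sin ((μ * q : ℝ) : ℂ) = (Complex.exp (-((μ * q : ℝ) : ℂ) * Complex.I) -
          Complex.exp (((μ * q : ℝ) : ℂ) * Complex.I)) * Complex.I / 2 := by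
        rw [← h]; ring
      rw [h4]
      have h5 : (1 / (2 * Complex.I)) = -Complex.I / 2 := by
        field_simp
        rw [Complex.I_sq]
        ring
      rw [h5]
      push_cast
      rw [show -((μ:ℂ) * q) * Complex.I = -μ * q * Complex.I by ring]
      ring
    rw [h3]
    ring
  simp only [e]
  rw [integral_const_mul, integral_sub (hi μ) (hi (-μ)), h1, h2, ← Finset.sum_sub_distrib]
  congr 1
  apply Finset.sum_congr rfl
  intro x _
  rw [← sub_eq_add_neg]
  ring

end Pool.Agent.Helper13.Mob
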