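import Pool.Agent.Helper13.MobS

namespace Pool.Agent.Helper13.Mob

open Finset MeasureTheory Set Filter Topology

section
variable {A : Finset ℕ}

/-- extension by zero of an exponent vector -/
noncomputable def ext0 (A : Finset ℕ) (x : A → ℤ) (p : ℕ) : ℤ := if h : p ∈ A then x ⟨p, h⟩ else 0

theorem omX_eq (x : A → ℤ) : omX A x = 2 * ∑ p ∈ A, (ext0 A x p : ℝ) / √(p : ℝ) := by
  unfold omX
  rw [← Finset.sum_coe_sort A (fun p => (ext0 A x p : ℝ) / √(p : ℝ)), Finset.mul_sum]
  apply Finset.sum_congr rfl
  intro i _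
  have : ext0 A x i = x i := by
    unfold ext0
    rw [dif_pos i.2]
  rw [this]
  ring

theorem ext0_apply (x : A → ℤ) (i : A) : ext0 A x i = x i := by
  unfold ext0
  rw [dif_pos i.2]

/-- basis vector -/
noncomputable def bas (p : A) (e : ℤ) : A → ℤ := fun i => if i = p then e else 0

theorem om_zero (hA : ∀ p ∈ A, p.Prime) (x : A → ℤ) (h : omX A x = 0) : x = 0 := by
  rw [omX_eq] at h
  have h1 : ∑ p ∈ A, (ext0 A x p : ℝ) / √(p : ℝ) + ((0:ℤ) : ℝ) / √((1:ℕ) : ℝ) = 0 := by
    simp only [Int.cast_zero, zero_div, add_zero]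
    linarith
  have h2 := freq_indep A hA (ext0 A x) 1 squarefree_one 0 h1
  have h3 : (1:ℕ) ∉ A := fun h => (hA 1 h).ne_one rfl
  have h4 := (h2.1 h3).1
  funext i
  rw [← ext0_apply x i, h4 i i.2]
  rfl

theorem om_plus (hA : ∀ p ∈ A, p.Prime) {m : ℕ} (hm : Squarefree m) (x : A → ℤ) (c : ℤ) (hc : c ≠ 0)
    (h : omX A x + c * (2 / √(m : ℝ)) = 0) : ∃ hmA : m ∈ A, x = bas ⟨m, hmA⟩ (-c) := by
  rw [omX_eq] at h
  have h1 : ∑ p ∈ A, (ext0 A x p : ℝ) / √(p : ℝ) + (c : ℝ) / √(m : ℝ) = 0 := by
    have : 2 * (∑ p ∈ A, (ext0 A x p : ℝ) / √(p : ℝ) + (c : ℝ) / √(m : ℝ)) = 0 := by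
      rw [← h]; ring
    linarith
  have h2 := freq_indep A hA (ext0 A x) m hm c h1
  by_cases hmA : m ∈ A
  · refine ⟨hmA, ?_⟩
    funext i
    unfold bas
    split_ifs with hi
    · rw [hi]
      have := h2.2.2 hmA
      rw [show x ⟨m, hmA⟩ = ext0 A x m from (ext0_apply x ⟨m, hmA⟩).symm]
      linarith
    · rw [← ext0_apply x i]
      apply h2.2.1 i i.2
      intro h
      apply hi
      exact Subtype.ext h
  · exact absurd (h2.1 hmA).2 hc

theorem beta_zero : betaX A 0 = 1 := by
  unfold betaX bco
  simp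

theorem beta_bas (p : A) (e : ℤ) : betaX A (bas p e) = bco e := by
  unfold betaX
  rw [Finset.prod_eq_single p]
  · unfold bas
    rw [if_pos rfl]
  · intro i _ hi
    unfold bas
    rw [if_neg hi]
    simp [bco]
  · intro h
    exact absurd (Finset.mem_univ p) h

theorem zero_mem_X3 : (0 : A → ℤ) ∈ X3 A := by
  unfold X3
  rw [Fintype.mem_piFinset]
  intro i
  simp [E3]

theorem bas_mem_X3 (p : A) {e : ℤ} (he : e ∈ E3) : bas p e ∈ X3 A := by
  unfold X3
  rw [Fintype.mem_piFinset]
  intro i
  unfold bas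
  split_ifs
  · exact he
  · simp [E3]

theorem om_bas (p : A) (e : ℤ) : omX A (bas p e) = e * (2 / √((p : ℕ) : ℝ)) := by
  unfold omX
  rw [Finset.sum_eq_single p]
  · unfold bas
    rw [if_pos rfl]
  · intro i _ hi
    unfold bas
    rw [if_neg hi]
    simp
  · intro h
    exact absurd (Finset.mem_univ p) h

end

theorem exists_scale (Λ : Finset ℝ) : ∃ L₀ : ℝ, 0 < L₀ ∧ ∀ L, L₀ ≤ L → ∀ μ ∈ Λ, μ ≠ 0 → 1 ≤ L * |μ| := by
  refine ⟨1 + ∑ μ ∈ Λ, 1 / |μ|, by positivity, ?_⟩
  intro L hL μ hμ hne
  have h1 : 1 / |μ| ≤ ∑ μ ∈ Λ, 1 / |μ| :=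
    Finset.single_le_sum (f := fun μ : ℝ => 1 / |μ|) (fun _ _ => by positivity) hμ
  have h2 : 0 < |μ| := abs_pos.2 hne
  have h3 : 1 / |μ| ≤ L := by linarith
  rwa [div_le_iff₀ h2] at h3

/-- coefficients -/
noncomputable def am (m : ℕ) : ℝ := ((ArithmeticFunction.moebius m : ℤ) : ℝ) / m * Real.exp (-2 / √m)

theorem Sq_eq (q : ℝ) : Sq q = ∑' m : ℕ, am m * Real.sin (2 / √m * q) := by
  unfold Sq am
  congr 1
  ext m
  rw [show 2 * q / √(m:ℝ) = 2 / √m * q by ring]
  ring

theorem am_abs (m : ℕ) : |am m| ≤ 1 / m := by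
  unfold am
  rw [abs_mul, abs_div, abs_of_nonneg (Nat.cast_nonneg m : (0:ℝ) ≤ m)]
  calc |((ArithmeticFunction.moebius m : ℤ) : ℝ)| / m * |Real.exp (-2 / √m)| ≤ 1 / m * 1 := by
        apply mul_le_mul _ (S_exp_le m) (abs_nonneg _) (by positivity)
        exact div_le_div_of_nonneg_right (abs_mu_real m) (Nat.cast_nonneg m)
    _ = _ := mul_one _

theorem abs_sin_le_sqrt (y : ℝ) : |Real.sin y| ≤ √|y| := by
  have h1 : |Real.sin y| ≤ 1 := Real.abs_sin_le_one y
  have h2 : |Real.sin y| ≤ |y| := Real.abs_sin_le_abs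
  apply Real.le_sqrt_of_sq_le
  have h3 := abs_nonneg (Real.sin y)
  nlinarith

/-- pairing of S with the Riesz product -/
theorem pair_eq (A : Finset ℕ) {L : ℝ} (hL : 0 < L) :
    HasSum (fun m : ℕ => am m * ∫ q : ℝ, Real.sin (2 / √m * q) * (Wf A q * kL L q))
      (∫ q : ℝ, Sq q * (Wf A q * kL L q)) := by
  have hterm : ∀ m : ℕ, ∀ q : ℝ, ‖am m * (Real.sin (2 / √m * q) * (Wf A q * kL L q))‖ ≤
      (1 / (m:ℝ) * √(2 / √m) * 2 ^ A.card) * (√|q| * kL L q) := by
    intro m q
    have hk := kL_nonneg hL q
    have hW := Wf_nonneg A q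
    have hW2 := Wf_le A q
    rw [norm_mul, norm_mul, norm_mul, Real.norm_of_nonneg hk, Real.norm_of_nonneg hW,
      Real.norm_eq_abs, Real.norm_eq_abs]
    have h1 := abs_sin_le_sqrt (2 / √m * q)
    rw [abs_mul, Real.sqrt_mul (abs_nonneg _), abs_of_nonneg (by positivity : (0:ℝ) ≤ 2 / √m)] at h1
    have h2 := am_abs m
    calc |am m| * (|Real.sin (2 / √m * q)| * (Wf A q * kL L q))
        ≤ (1 / m) * ((√(2 / √m) * √|q|) * (2 ^ A.card * kL L q)) := by
          apply mul_le_mul h2 _ (by positivity) (by positivity)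
          apply mul_le_mul h1 _ (by positivity) (by positivity)
          exact mul_le_mul_of_nonneg_right hW2 hk
      _ = _ := by ring
  have hFi : ∀ m : ℕ, Integrable (fun q : ℝ => am m * (Real.sin (2 / √m * q) * (Wf A q * kL L q))) := by
    intro m
    apply Integrable.const_mul
    apply Integrable.bdd_mul (c := 1) (WkL_int A hL)
    · apply Continuous.aestronglyMeasurable
      fun_prop
    · apply Filter.Eventually.of_forall
      intro q
      exact Real.abs_sin_le_one _
  have hsum : Summable fun m : ℕ => ∫ q : ℝ, ‖am m * (Real.sin (2 / √m * q) * (Wf A q * kL L q))‖ := by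
    have hb : Summable fun m : ℕ => (1 / (m:ℝ) * √(2 / √m) * 2 ^ A.card) * ∫ q : ℝ, √|q| * kL L q := by
      apply Summable.mul_right
      apply Summable.mul_right
      have h54 : Summable fun m : ℕ => √2 * (m : ℝ) ^ (-(5/4) : ℝ) :=
        (Real.summable_nat_rpow.2 (by norm_num)).mul_left _
      refine h54.congr ?_
      intro m
      rcases Nat.eq_zero_or_pos m with h0 | h0
      · subst h0
        simp
      · have hm : (0:ℝ) < m := by exact_mod_cast h0
        rw [Real.sqrt_div (by norm_num), Real.sqrt_eq_rpow (√(m:ℝ)), Real.sqrt_eq_rpow (m:ℝ),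
          ← Real.rpow_mul hm.le]
        rw [show (-(5/4) : ℝ) = -1 - (1/2 * (1/2)) by norm_num, Real.rpow_sub hm, Real.rpow_neg_one]
        ring
    apply Summable.of_nonneg_of_le (fun m => integral_nonneg (fun _ => norm_nonneg _)) _ hb
    intro m
    rw [← integral_const_mul]
    apply integral_mono (hFi m).norm ((sqrt_abs_kL_int hL).const_mul _)
    intro q
    exact hterm m q
  have key := hasSum_integral_of_summable_integral_norm hFi hsum
  have e : (fun q : ℝ => ∑' m : ℕ, am m * (Real.sin (2 / √m * q) * (Wf A q * kL L q))) =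
      fun q => Sq q * (Wf A q * kL L q) := by
    ext q
    rw [Sq_eq, ← tsum_mul_right]
    congr 1
    ext m
    ring
  rw [e] at key
  refine key.congr_fun ?_ |> fun h => h
  intro m
  rw [integral_const_mul]

theorem riesz {C' : ℝ} (hS : ∀ q : ℝ, |Sq q| ≤ C') (A : Finset ℕ) (hA : ∀ p ∈ A, p.Prime) :
    ∑ p ∈ A, Real.exp (-2 / √p) / (2 * p) ≤ C' := by
  classical
  -- first scale
  obtain ⟨L₀, hL₀, hL₀2⟩ := exists_scale ((X3 A).image (omX A))
  set M₁ : ℕ := ⌈16 * L₀ ^ 2⌉₊ + 1 with hM₁
  obtain ⟨L₁, hL₁, hL₁2⟩ := exists_scale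
    (((X3 A) ×ˢ (Finset.range M₁)).image (fun z => omX A z.1 + 2 / √(z.2 : ℝ)) ∪
     ((X3 A) ×ˢ (Finset.range M₁)).image (fun z => omX A z.1 - 2 / √(z.2 : ℝ)))
  set L := max (2 * L₀) L₁ with hLdef
  have hLL0 : 2 * L₀ ≤ L := le_max_left _ _
  have hLL1 : L₁ ≤ L := le_max_right _ _
  have hL : 0 < L := by linarith
  -- frequencies of the Riesz product
  have hfreq : ∀ x ∈ X3 A, x ≠ 0 → tri (L * omX A x) = 0 := by
    intro x hx hne
    apply tri_eq_zero
    rw [abs_mul, abs_of_pos hL]
    apply hL₀2 L (by linarith) _ (Finset.mem_image_of_mem _ hx)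
    intro h
    exact hne (om_zero hA x h)
  have hmean : ∫ q : ℝ, Wf A q * kL L q = 1 := by
    have h1 := W_int A hL
    rw [Finset.sum_eq_single (0 : A → ℤ)] at h1
    · rw [beta_zero] at h1
      have h0 : omX A (0 : A → ℤ) = 0 := by
        unfold omX
        simp
      rw [h0, mul_zero, tri_zero] at h1
      have h2 : ((∫ q : ℝ, Wf A q * kL L q : ℝ) : ℂ) = ((1:ℝ) : ℂ) := by
        rw [h1]; simp
      exact_mod_cast h2
    · intro x hx hne
      rw [hfreq x hx hne]
      simp
    · intro h
      exact absurd zero_mem_X3 h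
  -- the sine coefficients
  have hcoef : ∀ m : ℕ, am m * ∫ q : ℝ, Real.sin (2 / √m * q) * (Wf A q * kL L q) =
      if m ∈ A then Real.exp (-2 / √m) / (2 * m) else 0 := by
    intro m
    by_cases hsf : Squarefree m
    · have hm0 : 0 < m := Nat.pos_of_ne_zero hsf.ne_zero
      have hmR : (0:ℝ) < m := by exact_mod_cast hm0
      have hlam : 0 < 2 / √(m:ℝ) := by
        have := Real.sqrt_pos.2 hmR
        positivity
      have h0 : omX A (0 : A → ℤ) = 0 := by
        unfold omX
        simp
      -- generic vanishing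
      have hvan : ∀ x ∈ X3 A, (∀ hmA : m ∈ A, x ≠ bas ⟨m, hmA⟩ 1 ∧ x ≠ bas ⟨m, hmA⟩ (-1)) →
          ((tri (L * (omX A x + 2 / √m)) : ℝ) - tri (L * (omX A x - 2 / √m))) = 0 := by
        intro x hx hxb
        by_cases hx0 : x = 0
        · rw [hx0, h0, zero_add, zero_sub, mul_neg, tri_even, sub_self]
        · rcases Nat.lt_or_ge m M₁ with hmM | hmM
          · have n1 : omX A x + 2 / √m ≠ 0 := by
              intro h
              obtain ⟨hmA, hx'⟩ := om_plus hA hsf x 1 one_ne_zero (by push_cast; linarith)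
              exact (hxb hmA).2 hx'
            have n2 : omX A x - 2 / √m ≠ 0 := by
              intro h
              obtain ⟨hmA, hx'⟩ := om_plus hA hsf x (-1) (by norm_num) (by push_cast; linarith)
              rw [neg_neg] at hx'
              exact (hxb hmA).1 hx'
            have t1 : tri (L * (omX A x + 2 / √m)) = 0 := by
              apply tri_eq_zero
              rw [abs_mul, abs_of_pos hL]
              apply hL₁2 L hLL1 _ _ n1
              apply Finset.mem_union_left
              rw [Finset.mem_image]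
              exact ⟨(x, m), Finset.mem_product.2 ⟨hx, Finset.mem_range.2 hmM⟩, rfl⟩
            have t2 : tri (L * (omX A x - 2 / √m)) = 0 := by
              apply tri_eq_zero
              rw [abs_mul, abs_of_pos hL]
              apply hL₁2 L hLL1 _ _ n2
              apply Finset.mem_union_right
              rw [Finset.mem_image]
              exact ⟨(x, m), Finset.mem_product.2 ⟨hx, Finset.mem_range.2 hmM⟩, rfl⟩
            rw [t1, t2, sub_zero]
          · -- large m
            have h1 : 1 ≤ L₀ * |omX A x| := by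
              apply hL₀2 L₀ le_rfl _ (Finset.mem_image_of_mem _ hx)
              intro h
              exact hx0 (om_zero hA x h)
            have h2 : 4 * L₀ ≤ √(m:ℝ) := by
              apply Real.le_sqrt_of_sq_le
              have h3 : (16 * L₀ ^ 2 : ℝ) ≤ ⌈16 * L₀ ^ 2⌉₊ := Nat.le_ceil _
              have h4 : ((⌈16 * L₀ ^ 2⌉₊ : ℕ) : ℝ) ≤ m := by
                have : ⌈16 * L₀ ^ 2⌉₊ ≤ m := by omega
                exact_mod_cast this
              nlinarith
            have h3 : 2 / √(m:ℝ) ≤ 1 / (2 * L₀) := by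
              rw [div_le_div_iff₀ (by linarith) (by linarith)]
              linarith
            have h4 : 1 / L₀ ≤ |omX A x| := by
              rw [div_le_iff₀ hL₀]
              linarith
            have h5 : 1 / L₀ = 1 / (2 * L₀) + 1 / (2 * L₀) := by
              field_simp
              norm_num
            have habs1 : 1 / (2 * L₀) ≤ |omX A x + 2 / √m| := by
              have := abs_sub_abs_le_abs_sub (omX A x) (-(2 / √m))
              rw [abs_neg, abs_of_pos hlam, sub_neg_eq_add] at this
              linarith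
            have habs2 : 1 / (2 * L₀) ≤ |omX A x - 2 / √m| := by
              have := abs_sub_abs_le_abs_sub (omX A x) (2 / √m)
              rw [abs_of_pos hlam] at this
              linarith
            have hL1 : 1 ≤ L * (1 / (2 * L₀)) := by
              rw [mul_one_div, le_div_iff₀ (by linarith)]
              linarith
            have t1 : tri (L * (omX A x + 2 / √m)) = 0 := by
              apply tri_eq_zero
              rw [abs_mul, abs_of_pos hL]
              exact hL1.trans (mul_le_mul_of_nonneg_left habs1 hL.le)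
            have t2 : tri (L * (omX A x - 2 / √m)) = 0 := by
              apply tri_eq_zero
              rw [abs_mul, abs_of_pos hL]
              exact hL1.trans (mul_le_mul_of_nonneg_left habs2 hL.le)
            rw [t1, t2, sub_zero]
      have hsi := sin_int A hL (2 / √m)
      by_cases hmA : m ∈ A
      · rw [if_pos hmA]
        set pA : A := ⟨m, hmA⟩ with hpA
        have hb1 : bas pA 1 ∈ X3 A := bas_mem_X3 pA (by simp [E3])
        have hb2 : bas pA (-1) ∈ X3 A := bas_mem_X3 pA (by simp [E3])
        have hbne : bas pA 1 ≠ bas pA (-1) := by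
          intro h
          have := congrFun h pA
          unfold bas at this
          rw [if_pos rfl, if_pos rfl] at this
          norm_num at this
        have hom1 : omX A (bas pA 1) = 2 / √m := by
          rw [om_bas]
          push_cast
          rw [one_mul]
        have hom2 : omX A (bas pA (-1)) = -(2 / √m) := by
          rw [om_bas]
          push_cast
          rw [neg_one_mul]
        -- 2 lambda is a nonzero frequency, killed
        have h2lam : tri (L * (2 / √m + 2 / √m)) = 0 := by
          apply tri_eq_zero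
          rw [abs_mul, abs_of_pos hL]
          have h1 : 1 ≤ L₀ * |omX A (bas pA 1)| := by
            apply hL₀2 L₀ le_rfl _ (Finset.mem_image_of_mem _ hb1)
            rw [hom1]
            exact hlam.ne'
          rw [hom1, abs_of_pos hlam] at h1
          rw [abs_of_pos (by linarith)]
          nlinarith
        have hsumv : ∑ x ∈ X3 A, betaX A x * ((tri (L * (omX A x + 2 / √m)) : ℂ) -
            (tri (L * (omX A x - 2 / √m)) : ℂ)) = -Complex.I := by
          rw [← Finset.add_sum_erase _ _ hb1, ← Finset.add_sum_erase _ _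
            (Finset.mem_erase.2 ⟨hbne.symm, hb2⟩)]
          rw [Finset.sum_eq_zero]
          · rw [beta_bas, beta_bas, hom1, hom2, sub_self, mul_zero, tri_zero, h2lam]
            have e1 : -(2 / √(m:ℝ)) + 2 / √m = 0 := by ring
            have e2 : L * (-(2 / √(m:ℝ)) - 2 / √m) = -(L * (2 / √m + 2 / √m)) := by ring
            rw [e1, mul_zero, tri_zero, e2, tri_even, h2lam]
            unfold bco
            simp only [show ((-1 : ℤ) = 0) = False by simp, show ((-1 : ℤ) = 1) = False by simp,
              show ((1 : ℤ) = 0) = False by simp, if_true, if_false]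
            push_cast
            ring
          · intro x hx
            have hx1 := Finset.ne_of_mem_erase hx
            have hx2 := Finset.mem_of_mem_erase hx
            have hx3 := Finset.ne_of_mem_erase hx2
            have hx4 := Finset.mem_of_mem_erase hx2
            have hv := hvan x hx4 (fun _ => ⟨hx3, hx1⟩)
            have hv' : ((tri (L * (omX A x + 2 / √m)) : ℂ) - (tri (L * (omX A x - 2 / √m)) : ℂ)) = 0 := by
              exact_mod_cast hv
            rw [hv', mul_zero]
        rw [hsumv] at hsi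
        have hI : (1 / (2 * Complex.I)) * -Complex.I = ((-(1/2) : ℝ) : ℂ) := by
          push_cast
          field_simp
        rw [hI] at hsi
        have hsi' : ∫ q : ℝ, Real.sin (2 / √m * q) * (Wf A q * kL L q) = -(1/2) := by
          exact_mod_cast hsi
        rw [hsi']
        unfold am
        rw [ArithmeticFunction.moebius_apply_prime (hA m hmA)]
        push_cast
        field_simp
      · rw [if_neg hmA]
        rw [Finset.sum_eq_zero] at hsi
        · rw [mul_zero] at hsi
          have : ∫ q : ℝ, Real.sin (2 / √m * q) * (Wf A q * kL L q) = 0 := by exact_mod_cast hsi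
          rw [this, mul_zero]
        · intro x hx
          have hv := hvan x hx (fun h => absurd h hmA)
          have hv' : ((tri (L * (omX A x + 2 / √m)) : ℂ) - (tri (L * (omX A x - 2 / √m)) : ℂ)) = 0 := by
            exact_mod_cast hv
          rw [hv', mul_zero]
    · have hmu : ArithmeticFunction.moebius m = 0 := ArithmeticFunction.moebius_eq_zero_of_not_squarefree hsf
      have hmA : m ∉ A := fun h => hsf (hA m h).squarefree
      rw [if_neg hmA]
      unfold am
      rw [hmu]
      simp
  have hpair := pair_eq A hL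
  simp only [hcoef] at hpair
  have hfin : HasSum (fun m : ℕ => if m ∈ A then Real.exp (-2 / √m) / (2 * m) else 0)
      (∑ p ∈ A, Real.exp (-2 / √p) / (2 * p)) := by
    have : HasSum (fun m : ℕ => if m ∈ A then Real.exp (-2 / √(m : ℝ)) / (2 * (m : ℝ)) else 0)
        (∑ m ∈ A, (if m ∈ A then Real.exp (-2 / √(m : ℝ)) / (2 * (m : ℝ)) else 0)) :=
      hasSum_sum_of_ne_finset_zero (fun m hm => if_neg hm)
    have e : ∑ m ∈ A, (if m ∈ A then Real.exp (-2 / √m) / (2 * m) else 0) =
        ∑ p ∈ A, Real.exp (-2 / √p) / (2 * p) := by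
      apply Finset.sum_congr rfl
      intro p hp
      rw [if_pos hp]
    rw [e] at this
    exact this
  have hEq := HasSum.unique hfin hpair
  rw [hEq]
  have hWi := WkL_int A hL
  calc ∫ q : ℝ, Sq q * (Wf A q * kL L q) ≤ ‖∫ q : ℝ, Sq q * (Wf A q * kL L q)‖ := Real.le_norm_self _
    _ ≤ ∫ q : ℝ, C' * (Wf A q * kL L q) := by
        apply norm_integral_le_of_norm_le (hWi.const_mul C')
        apply Filter.Eventually.of_forall
        intro q
        have h1 : 0 ≤ Wf A q * kL L q := mul_nonneg (Wf_nonneg A q) (kL_nonneg hL q)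
        rw [norm_mul, Real.norm_of_nonneg h1]
        exact mul_le_mul_of_nonneg_right (hS q) h1
    _ = C' := by rw [integral_const_mul, hmean, mul_one]

/-- the dual series is unbounded -/
theorem Sq_unbounded : ¬ ∃ C' : ℝ, ∀ q : ℝ, |Sq q| ≤ C' := by
  rintro ⟨C', hC'⟩
  have hc0 : 0 < Real.exp (-2 / √2) / 2 := by positivity
  apply Nat.Primes.not_summable_one_div
  apply summable_of_sum_le (c := C' / (Real.exp (-2 / √2) / 2))
  · intro p
    positivity
  · intro u
    have h := riesz hC' (u.map ⟨fun p : Nat.Primes => (p : ℕ), Subtype.val_injective⟩) (by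
      intro p hp
      rw [Finset.mem_map] at hp
      obtain ⟨a, _, rfl⟩ := hp
      exact a.2)
    rw [Finset.sum_map] at h
    rw [le_div_iff₀ hc0, Finset.sum_mul]
    refine le_trans ?_ h
    apply Finset.sum_le_sum
    intro p _
    have hp2 : (2:ℝ) ≤ ((p : ℕ) : ℝ) := by exact_mod_cast p.2.two_le
    have h1 : Real.exp (-2 / √2) ≤ Real.exp (-2 / √((p : ℕ) : ℝ)) := by
      apply Real.exp_le_exp.2
      rw [neg_div, neg_div, neg_le_neg_iff]
      apply div_le_div_of_nonneg_left (by norm_num) (Real.sqrt_pos.2 (by norm_num))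
      exact Real.sqrt_le_sqrt hp2
    have hp0 : (0:ℝ) < ((p : ℕ) : ℝ) := by linarith
    calc 1 / ((p : ℕ) : ℝ) * (Real.exp (-2 / √2) / 2) = Real.exp (-2 / √2) / (2 * ((p : ℕ) : ℝ)) := by
          field_simp
      _ ≤ _ := by
          apply div_le_div_of_nonneg_right h1 (by positivity)

end Pool.Agent.Helper13.Mob
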