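import Pool.Agent.Helper13.MobT

namespace Pool.Agent.Helper13.Mob

open Finset MeasureTheory Set Filter Topology

noncomputable def Cone : ℝ := ∑' n : ℕ, 2 * Real.pi * (√n * Real.exp (-(1 / (2 * Real.pi)) * n))

theorem cone_summable : Summable fun n : ℕ => 2 * Real.pi * (√n * Real.exp (-(1 / (2 * Real.pi)) * n)) := by
  apply Summable.mul_left
  have h := (kk_dec' (α := ((1 / (2 * Real.pi) : ℝ) : ℂ)) (by simp; positivity))
  have hg := h.geo (x := 1) one_pos
  apply Summable.of_nonneg_of_le (fun n => by positivity) _ hg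
  intro n
  rcases Nat.eq_zero_or_pos n with h0 | h0
  · subst h0
    simp only [Nat.cast_zero, Real.sqrt_zero, zero_mul]
    have := h.hC
    positivity
  · have hn : (0:ℝ) < n := by exact_mod_cast h0
    have h1 := h.bd n hn
    rw [kk_norm _ hn.le] at h1
    rw [Complex.ofReal_re] at h1 ⊢
    refine h1.trans (le_of_eq ?_)
    rw [← Real.exp_nat_mul]
    congr 2
    ring

theorem asum_one_bd {q : ℝ} (hq : 1 ≤ q) {α : ℂ} (hα : α.re = q / Real.pi) :
    q * ‖asum (kk α) 1‖ ≤ Cone := by
  have hpi := Real.pi_pos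
  have hα0 : 0 < α.re := by rw [hα]; positivity
  have hq0 : 0 < q := by linarith
  have h1 : ‖(q : ℂ) * asum (kk α) 1‖ ≤ Cone := by
    unfold asum
    rw [← tsum_mul_left]
    apply tsum_of_norm_bounded cone_summable.hasSum
    intro n
    rw [norm_mul, norm_mul, Complex.norm_real, Real.norm_of_nonneg hq0.le, mul_one,
      kk_norm _ (Nat.cast_nonneg n), hα]
    rcases Nat.eq_zero_or_pos n with h0 | h0
    · subst h0
      simp
    · have hn : (1:ℝ) ≤ n := by exact_mod_cast h0
      have e1 : Real.exp (-(q / Real.pi) * n) ≤ Real.exp (-(q / (2 * Real.pi))) * Real.exp (-(1 / (2 * Real.pi)) * n) := by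
        rw [← Real.exp_add]
        apply Real.exp_le_exp.2
        have h2 : q / Real.pi * n = q / (2 * Real.pi) * n + q / (2 * Real.pi) * n := by
          field_simp
          ring
        have h3 : q / (2 * Real.pi) ≤ q / (2 * Real.pi) * n := by
          have : 0 ≤ q / (2 * Real.pi) := by positivity
          nlinarith
        have h4 : 1 / (2 * Real.pi) * n ≤ q / (2 * Real.pi) * n := by
          apply mul_le_mul_of_nonneg_right _ (by linarith)
          apply div_le_div_of_nonneg_right hq (by positivity)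
        linarith
      have e2 : q * Real.exp (-(q / (2 * Real.pi))) ≤ 2 * Real.pi := by
        have h5 := Real.add_one_le_exp (q / (2 * Real.pi))
        rw [Real.exp_neg, ← div_eq_mul_inv, div_le_iff₀ (Real.exp_pos _)]
        have h6 : q = 2 * Real.pi * (q / (2 * Real.pi)) := by field_simp
        calc q = 2 * Real.pi * (q / (2 * Real.pi)) := h6
          _ ≤ 2 * Real.pi * Real.exp (q / (2 * Real.pi)) := by
              apply mul_le_mul_of_nonneg_left _ (by positivity)
              linarith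
      calc q * (‖mu n‖ * (√n * Real.exp (-(q / Real.pi) * n)))
          ≤ q * (1 * (√n * (Real.exp (-(q / (2 * Real.pi))) * Real.exp (-(1 / (2 * Real.pi)) * n)))) := by
            apply mul_le_mul_of_nonneg_left _ hq0.le
            apply mul_le_mul (norm_mu_le n) _ (by positivity) zero_le_one
            exact mul_le_mul_of_nonneg_left e1 (Real.sqrt_nonneg _)
        _ = (q * Real.exp (-(q / (2 * Real.pi)))) * (√n * Real.exp (-(1 / (2 * Real.pi)) * n)) := by ring
        _ ≤ 2 * Real.pi * (√n * Real.exp (-(1 / (2 * Real.pi)) * n)) :=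
            mul_le_mul_of_nonneg_right e2 (by positivity)
  rwa [norm_mul, Complex.norm_real, Real.norm_of_nonneg hq0.le] at h1

theorem asum_kf_one {q : ℝ} (hq : 1 ≤ q) : ‖asum (kf (L1 q) (L2 q)) 1‖ ≤ 2 * Cone / √Real.pi := by
  have hq0 : 0 < q := by linarith
  have h1 := asum_one_bd hq (al_L1_re q)
  have h2 := asum_one_bd hq (al_L2_re q)
  have h3 := asum_kf_le hq (x := 1) one_pos (E := Cone)
    (by rw [Real.sqrt_one, div_one, le_div_iff₀ hq0]; linarith)
    (by rw [Real.sqrt_one, div_one, le_div_iff₀ hq0]; linarith)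
  rwa [Real.sqrt_one, one_mul] at h3

theorem Sq_neg (q : ℝ) : Sq (-q) = -Sq q := by
  unfold Sq
  rw [← tsum_neg]
  congr 1
  ext m
  rw [show 2 * -q / √(m:ℝ) = -(2 * q / √m) by ring, Real.sin_neg]
  ring

theorem Sq_small {q : ℝ} (hq : |q| ≤ 1) : |Sq q| ≤ 2 * Z32 := by
  have h := tsum_of_norm_bounded (f := fun m : ℕ => ((ArithmeticFunction.moebius m : ℤ) : ℝ) / m *
    (Real.exp (-2 / √m) * Real.sin (2 * q / √m))) (summable_32.mul_left |2 * q|).hasSum
    (fun m => S_term_bd m (2 * q) (S_exp_le m))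
  rw [tsum_mul_left] at h
  refine h.trans ?_
  apply mul_le_mul_of_nonneg_right
  · rw [abs_mul, abs_of_pos (by norm_num : (0:ℝ) < 2)]
    linarith
  · exact tsum_nonneg (fun m => by positivity)

/-- contradiction from uniform bounds of the smooth sums -/
theorem final_contra {B : ℝ} (hM : MertensBd B) {E : ℝ} (hE : 0 ≤ E)
    (h : ∀ q : ℝ, 1 ≤ q → ∀ ε > 0, ∀ᶠ x in 𝓝[>] (0:ℝ),
      √x * ‖asum (kf (L1 q) (L2 q)) x‖ ≤ E + ε) : False := by
  have hZ : 0 ≤ Z32 := tsum_nonneg (fun m => by positivity)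
  have hC : 0 ≤ Cone := tsum_nonneg (fun n => by positivity)
  set C' := (E + 2 * Cone / √Real.pi) / (2 * √Real.pi) + 2 * Z32 with hC'
  have hbig : ∀ q, 1 ≤ q → |Sq q| ≤ C' := by
    intro q hq
    refine (Sq_bound hM hq hE (h q hq)).trans ?_
    have := asum_kf_one hq
    rw [hC']
    gcongr
  have h2Z : 2 * Z32 ≤ C' := by
    rw [hC']
    have : 0 ≤ (E + 2 * Cone / √Real.pi) / (2 * √Real.pi) := by positivity
    linarith
  apply Sq_unbounded
  refine ⟨C', ?_⟩
  intro q
  rcases le_or_gt |q| 1 with h1 | h1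
  · exact (Sq_small h1).trans h2Z
  · rcases le_or_gt 0 q with h2 | h2
    · rw [abs_of_nonneg h2] at h1
      exact hbig q h1.le
    · rw [abs_of_neg h2] at h1
      have h3 := hbig (-q) h1.le
      rwa [Sq_neg, abs_neg] at h3

theorem basic : ¬ ∃ C : ℝ, ∀ R : ℕ, ∀ x : ℝ, ‖Fexp R x‖ ≤ C * √R := by
  rintro ⟨C, hC⟩
  have hM : MertensBd C := by
    intro N
    have := hC N 0
    unfold Fexp at this
    simpa using this
  have hC0 := hM.nonneg
  have hpi := Real.pi_pos
  have hpart : ∀ (τ x : ℝ) (N : ℕ), ‖∑ n ∈ Finset.Icc 1 N, mu n * Complex.exp (-(τ * (n * x) * Complex.I))‖ ≤ C * √N := by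
    intro τ x N
    have h := hC N (-(τ * x) / (2 * Real.pi))
    unfold Fexp at h
    have e : ∀ n : ℕ, Complex.exp (2 * Real.pi * n * ((-(τ * x) / (2 * Real.pi) : ℝ) : ℂ) * Complex.I) =
        Complex.exp (-(τ * (n * x) * Complex.I)) := by
      intro n
      congr 1
      push_cast
      have : (Real.pi : ℂ) ≠ 0 := by exact_mod_cast Real.pi_pos.ne'
      field_simp
    simp only [e] at h
    exact h
  refine final_contra hM (E := 2 * (C * (3 * Real.pi / 2)) / √Real.pi) (by positivity) ?_
  intro q hq ε hε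
  have hq0 : 0 < q := by linarith
  filter_upwards [self_mem_nhdsWithin] with x hx
  have hx' : (0:ℝ) < x := hx
  have h1 := asum_twist_bound (adm1 hq0).al_pos hx' hC0 (fun N => hpart _ x N)
  have h2 := asum_twist_bound (adm2 hq0).al_pos hx' hC0 (fun N => hpart _ x N)
  rw [al_L1_re] at h1
  rw [al_L2_re] at h2
  have e : C * (3 / (2 * (q / Real.pi))) = (C * (3 * Real.pi / 2)) / q := by field_simp
  rw [e] at h1 h2
  have := asum_kf_le hq hx' h1 h2
  linarith

end Pool.Agent.Helper13.Mob
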