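import Pool.Agent.Helper13.MobU

namespace Pool.Agent.Helper13.Mob

open Finset MeasureTheory Set Filter Topology

/-- exact Abel bound -/
theorem abel_floor (c : ℕ → ℂ) (f f' : ℝ → ℂ) {x : ℝ} (hx : 0 < x)
    (hf : ∀ y, 0 < y → HasDerivAt f (f' y) y) (hf'c : ContinuousOn f' (Set.Ioi 0))
    (hint : IntegrableOn (fun y => ‖∑ k ∈ Finset.Icc 1 ⌊y / x⌋₊, c k‖ * ‖f' y‖) (Set.Ioi 0)) (N : ℕ) :
    ‖∑ n ∈ Finset.Icc 1 N, c n * f (n * x)‖ ≤ ‖∑ k ∈ Finset.Icc 1 N, c k‖ * ‖f (N * x)‖
      + ∫ y in Set.Ioi 0, ‖∑ k ∈ Finset.Icc 1 ⌊y / x⌋₊, c k‖ * ‖f' y‖ := by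
  set Φ : ℝ → ℝ := fun y => ‖∑ k ∈ Finset.Icc 1 ⌊y / x⌋₊, c k‖ with hΦ
  have h0 : ∀ y, 0 ≤ Φ y * ‖f' y‖ := fun y => mul_nonneg (norm_nonneg _) (norm_nonneg _)
  have hterm : ∀ n : ℕ, 1 ≤ n → ‖(∑ k ∈ Finset.Icc 1 n, c k) * (f ((n + 1 : ℕ) * x) - f (n * x))‖
      ≤ ∫ y in ((n : ℝ) * x)..(((n + 1 : ℕ) : ℝ) * x), Φ y * ‖f' y‖ := by
    intro n hn
    have hnx : 0 < (n : ℝ) * x := by positivity
    have hle : (n : ℝ) * x ≤ ((n + 1 : ℕ) : ℝ) * x := by
      push_cast; nlinarith
    have hsub : Set.uIcc ((n : ℝ) * x) (((n + 1 : ℕ) : ℝ) * x) ⊆ Set.Ioi 0 := by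
      rw [Set.uIcc_of_le hle]
      intro y hy
      exact lt_of_lt_of_le hnx hy.1
    have hFTC : ∫ y in ((n : ℝ) * x)..(((n + 1 : ℕ) : ℝ) * x), f' y
        = f ((n + 1 : ℕ) * x) - f (n * x) := by
      apply intervalIntegral.integral_eq_sub_of_hasDerivAt
      · intro y hy
        exact hf y (hsub hy)
      · exact (hf'c.mono hsub).intervalIntegrable
    rw [← hFTC, norm_mul]
    calc ‖∑ k ∈ Finset.Icc 1 n, c k‖ * ‖∫ y in ((n : ℝ) * x)..(((n + 1 : ℕ) : ℝ) * x), f' y‖
        ≤ ‖∑ k ∈ Finset.Icc 1 n, c k‖ * ∫ y in ((n : ℝ) * x)..(((n + 1 : ℕ) : ℝ) * x), ‖f' y‖ := by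
          apply mul_le_mul_of_nonneg_left _ (norm_nonneg _)
          exact intervalIntegral.norm_integral_le_integral_norm hle
      _ = ∫ y in ((n : ℝ) * x)..(((n + 1 : ℕ) : ℝ) * x), ‖∑ k ∈ Finset.Icc 1 n, c k‖ * ‖f' y‖ := by
          rw [intervalIntegral.integral_const_mul]
      _ ≤ _ := by
          apply intervalIntegral.integral_mono_on_of_le_Ioo hle
          · exact ((hf'c.mono hsub).norm.intervalIntegrable).const_mul _
          · rw [intervalIntegrable_iff_integrableOn_Ioc_of_le hle]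
            refine hint.mono_set ?_
            intro y hy
            exact lt_trans hnx hy.1
          · intro y hy
            apply mul_le_mul_of_nonneg_right _ (norm_nonneg _)
            have h1 : ⌊y / x⌋₊ = n := by
              rw [Nat.floor_eq_iff (by have := hnx.trans hy.1; positivity)]
              constructor
              · rw [le_div_iff₀ hx]; exact hy.1.le
              · rw [div_lt_iff₀ hx]
                have := hy.2
                push_cast at this
                exact this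
            rw [hΦ]
            simp only [h1]
            exact le_rfl
  have hsum : ∀ N : ℕ, 1 ≤ N → ∑ n ∈ Finset.Ico 1 N,
      ∫ y in ((n : ℝ) * x)..(((n + 1 : ℕ) : ℝ) * x), Φ y * ‖f' y‖
      = ∫ y in ((1 : ℕ) * x)..((N : ℝ) * x), Φ y * ‖f' y‖ := by
    intro N hN
    apply intervalIntegral.sum_integral_adjacent_intervals_Ico hN
      (a := fun n : ℕ => (n : ℝ) * x)
    intro k hk
    have hk1 : 1 ≤ k := hk.1
    have hle : (k : ℝ) * x ≤ ((k + 1 : ℕ) : ℝ) * x := by
      push_cast; nlinarith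
    rw [intervalIntegrable_iff_integrableOn_Ioc_of_le hle]
    refine hint.mono_set ?_
    intro y hy
    have : 0 < (k : ℝ) * x := by positivity
    exact lt_trans this hy.1
  rw [parts c (fun n => f (n * x)) N]
  refine (norm_sub_le _ _).trans ?_
  apply add_le_add
  · rw [norm_mul]
  · rcases Nat.lt_or_ge N 1 with h1 | h1
    · have : N = 0 := by omega
      subst this
      simp only [Finset.Ico_eq_empty_of_le (show (0:ℕ) ≤ 1 by norm_num), Finset.sum_empty, norm_zero]
      exact integral_nonneg (fun y => h0 y)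
    · refine (norm_sum_le _ _).trans ?_
      refine (Finset.sum_le_sum (fun n hn => hterm n (Finset.mem_Ico.1 hn).1)).trans ?_
      rw [hsum N h1]
      have hle : ((1 : ℕ) : ℝ) * x ≤ (N : ℝ) * x := by
        apply mul_le_mul_of_nonneg_right _ hx.le
        exact_mod_cast h1
      rw [intervalIntegral.integral_of_le hle]
      apply setIntegral_mono_set hint
      · exact Filter.Eventually.of_forall (fun y => h0 y)
      · apply Filter.Eventually.of_forall
        intro y hy
        have : 0 < ((1 : ℕ) : ℝ) * x := by simpa using hx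
        exact lt_trans this hy.1

theorem exp_I_sub_le (a b : ℝ) : ‖Complex.exp (a * Complex.I) - Complex.exp (b * Complex.I)‖ ≤ |a - b| := by
  have e : Complex.exp (a * Complex.I) - Complex.exp (b * Complex.I) =
      Complex.exp (b * Complex.I) * (Complex.exp (Complex.I * ((a - b : ℝ) : ℂ)) - 1) := by
    rw [mul_sub, ← Complex.exp_add, mul_one]
    congr 2
    push_cast
    ring
  rw [e, norm_mul, Complex.norm_exp_ofReal_mul_I, one_mul]
  exact Real.norm_exp_I_mul_ofReal_sub_one_le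

/-- Lipschitz bound of the sums at low frequencies -/
theorem Fexp_lip {B : ℝ} (hM : MertensBd B) {R : ℕ} (hR : 1 ≤ R) (a b : ℝ) :
    ‖Fexp R (a / R) - Fexp R (b / R)‖ ≤ B * √R * (2 * Real.pi * |a - b| * (2 + 2 * Real.pi * |a|)) := by
  have hRR : (0:ℝ) < R := by exact_mod_cast hR
  have hpi := Real.pi_pos
  have hB := hM.nonneg
  set A := 2 * Real.pi * a with hA
  set A' := 2 * Real.pi * b with hA'
  set u : ℕ → ℂ := fun n => Complex.exp (((A * (n / R) : ℝ) : ℂ) * Complex.I) -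
    Complex.exp (((A' * (n / R) : ℝ) : ℂ) * Complex.I) with hu
  have e1 : Fexp R (a / R) - Fexp R (b / R) = ∑ n ∈ Finset.Icc 1 R, mu n * u n := by
    unfold Fexp
    rw [← Finset.sum_sub_distrib]
    apply Finset.sum_congr rfl
    intro n _
    rw [← mul_sub, hu, hA, hA']
    congr 2
    · congr 1
      push_cast
      ring
    · congr 1
      push_cast
      ring
  have hAA : |A - A'| = 2 * Real.pi * |a - b| := by
    rw [hA, hA', ← mul_sub, abs_mul, abs_of_pos (by positivity)]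
  have hAa : |A| = 2 * Real.pi * |a| := by
    rw [hA, abs_mul, abs_of_pos (by positivity)]
  have hu1 : ∀ n : ℕ, n ≤ R → ‖u n‖ ≤ |A - A'| := by
    intro n hn
    rw [hu]
    refine (exp_I_sub_le _ _).trans ?_
    rw [← sub_mul, abs_mul]
    have h1 : |(n : ℝ) / R| ≤ 1 := by
      rw [abs_of_nonneg (by positivity), div_le_one hRR]
      exact_mod_cast hn
    calc |A - A'| * |(n : ℝ) / R| ≤ |A - A'| * 1 := mul_le_mul_of_nonneg_left h1 (abs_nonneg _)
      _ = _ := mul_one _
  have hu2 : ∀ n : ℕ, n < R → ‖u (n + 1) - u n‖ ≤ |A - A'| * (1 + |A|) / R := by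
    intro n hn
    have e2 : u (n + 1) - u n = u n * (Complex.exp (((A * (1 / R) : ℝ) : ℂ) * Complex.I) -
          Complex.exp (((0 : ℝ) : ℂ) * Complex.I)) +
        Complex.exp (((A' * (n / R) : ℝ) : ℂ) * Complex.I) *
          (Complex.exp (((A * (1 / R) : ℝ) : ℂ) * Complex.I) - Complex.exp (((A' * (1 / R) : ℝ) : ℂ) * Complex.I)) := by
      rw [hu]
      simp only
      have g1 : Complex.exp (((A * ((n + 1 : ℕ) / R) : ℝ) : ℂ) * Complex.I) =
          Complex.exp (((A * (n / R) : ℝ) : ℂ) * Complex.I) * Complex.exp (((A * (1 / R) : ℝ) : ℂ) * Complex.I) := by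
        rw [← Complex.exp_add]
        congr 1
        push_cast
        ring
      have g2 : Complex.exp (((A' * ((n + 1 : ℕ) / R) : ℝ) : ℂ) * Complex.I) =
          Complex.exp (((A' * (n / R) : ℝ) : ℂ) * Complex.I) * Complex.exp (((A' * (1 / R) : ℝ) : ℂ) * Complex.I) := by
        rw [← Complex.exp_add]
        congr 1
        push_cast
        ring
      rw [g1, g2, Complex.ofReal_zero, zero_mul, Complex.exp_zero]
      ring
    rw [e2]
    refine (norm_add_le _ _).trans ?_
    rw [norm_mul, norm_mul, Complex.norm_exp_ofReal_mul_I, one_mul]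
    have h1 := hu1 n hn.le
    have h2 := exp_I_sub_le (A * (1 / R)) 0
    have h3 := exp_I_sub_le (A * (1 / R)) (A' * (1 / R))
    rw [sub_zero, abs_mul, abs_of_pos (by positivity : (0:ℝ) < 1 / R)] at h2
    rw [← sub_mul, abs_mul, abs_of_pos (by positivity : (0:ℝ) < 1 / R)] at h3
    calc _ ≤ |A - A'| * (|A| * (1 / R)) + |A - A'| * (1 / R) := by
          apply add_le_add _ h3
          exact mul_le_mul h1 h2 (norm_nonneg _) (abs_nonneg _)
      _ = _ := by field_simp; ring
  rw [e1, parts mu u R]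
  refine (norm_sub_le _ _).trans ?_
  rw [norm_mul]
  have hs1 : ‖∑ n ∈ Finset.Icc 1 R, mu n‖ * ‖u R‖ ≤ B * √R * |A - A'| :=
    mul_le_mul (hM R) (hu1 R le_rfl) (norm_nonneg _) (by positivity)
  have hs2 : ‖∑ n ∈ Finset.Ico 1 R, (∑ k ∈ Finset.Icc 1 n, mu k) * (u (n + 1) - u n)‖ ≤
      B * √R * (|A - A'| * (1 + |A|)) := by
    refine (norm_sum_le _ _).trans ?_
    calc _ ≤ ∑ n ∈ Finset.Ico 1 R, B * √R * (|A - A'| * (1 + |A|) / R) := by
          apply Finset.sum_le_sum
          intro n hn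
          have hn' := (Finset.mem_Ico.1 hn)
          rw [norm_mul]
          apply mul_le_mul _ (hu2 n hn'.2) (norm_nonneg _) (by positivity)
          refine (hM n).trans ?_
          apply mul_le_mul_of_nonneg_left _ hB
          apply Real.sqrt_le_sqrt
          exact_mod_cast hn'.2.le
      _ = ((R - 1 : ℕ) : ℝ) * (B * √R * (|A - A'| * (1 + |A|) / R)) := by
          rw [Finset.sum_const, Nat.card_Ico, nsmul_eq_mul]
      _ ≤ (R : ℝ) * (B * √R * (|A - A'| * (1 + |A|) / R)) := by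
          apply mul_le_mul_of_nonneg_right _ (by positivity)
          exact_mod_cast Nat.sub_le _ _
      _ = _ := by field_simp
  calc _ ≤ B * √R * |A - A'| + B * √R * (|A - A'| * (1 + |A|)) := add_le_add hs1 hs2
    _ = _ := by rw [hAA, hAa]; ring

theorem Fexp_zero (R : ℕ) : Fexp R 0 = ∑ n ∈ Finset.Icc 1 R, mu n := by
  unfold Fexp
  simp

theorem Fexp_crude {B : ℝ} (hM : MertensBd B) {R : ℕ} (hR : 1 ≤ R) (a : ℝ) :
    ‖Fexp R (a / R)‖ ≤ B * √R * (1 + 4 * Real.pi * |a|) := by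
  have h := Fexp_lip hM hR 0 a
  have h0 := hM R
  rw [← Fexp_zero] at h0
  rw [zero_div, zero_sub, abs_neg, abs_zero, mul_zero, add_zero] at h
  have h1 : ‖Fexp R (a / R)‖ ≤ ‖Fexp R 0‖ + ‖Fexp R 0 - Fexp R (a / R)‖ := by
    have := norm_sub_le (Fexp R 0) (Fexp R 0 - Fexp R (a / R))
    rwa [sub_sub_cancel] at this
  calc _ ≤ _ := h1
    _ ≤ B * √R + B * √R * (2 * Real.pi * |a| * 2) := add_le_add h0 h
    _ = _ := by ring

end Pool.Agent.Helper13.Mob
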