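import Pool.Agent.Helper13.MobV

namespace Pool.Agent.Helper13.Mob

open Finset MeasureTheory Set Filter Topology

theorem floor_tendsto {y : ℝ} (hy : 0 < y) : Tendsto (fun x : ℝ => ⌊y / x⌋₊) (𝓝[>] 0) atTop := by
  apply tendsto_nat_floor_atTop.comp
  have h1 : Tendsto (fun x : ℝ => x⁻¹) (𝓝[>] 0) atTop := tendsto_inv_nhdsGT_zero
  have h2 := Tendsto.const_mul_atTop hy h1
  refine h2.congr ?_
  intro x
  rw [div_eq_mul_inv]

theorem floor_mul_tendsto {y : ℝ} (hy : 0 < y) :
    Tendsto (fun x : ℝ => (⌊y / x⌋₊ : ℝ) * x) (𝓝[>] 0) (𝓝 y) := by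
  have hid : Tendsto (fun x : ℝ => x) (𝓝[>] 0) (𝓝 0) := nhdsWithin_le_nhds
  have hlo : Tendsto (fun x : ℝ => y - x) (𝓝[>] 0) (𝓝 y) := by
    have := (tendsto_const_nhds (x := y)).sub hid
    rwa [sub_zero] at this
  apply tendsto_of_tendsto_of_tendsto_of_le_of_le' hlo tendsto_const_nhds
  · filter_upwards [self_mem_nhdsWithin] with x hx
    have hx' : (0:ℝ) < x := hx
    have h1 := Nat.lt_floor_add_one (y / x)
    rw [div_lt_iff₀ hx'] at h1
    nlinarith
  · filter_upwards [self_mem_nhdsWithin] with x hx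
    have hx' : (0:ℝ) < x := hx
    have h1 := Nat.floor_le (a := y / x) (by positivity)
    rw [le_div_iff₀ hx'] at h1
    exact h1

/-- partial sums at frequency `-ω x / 2π` -/
theorem Sx_eq (ω x : ℝ) (n : ℕ) :
    ∑ k ∈ Finset.Icc 1 n, mu k * Complex.exp (-(ω * (k * x) * Complex.I)) =
      Fexp n (-(ω * x) / (2 * Real.pi)) := by
  unfold Fexp
  apply Finset.sum_congr rfl
  intro k _
  congr 2
  push_cast
  have : (Real.pi : ℂ) ≠ 0 := by exact_mod_cast Real.pi_pos.ne'
  field_simp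

theorem meas_floor (ω x : ℝ) : Measurable fun y : ℝ => ‖Fexp ⌊y / x⌋₊ (-(ω * x) / (2 * Real.pi))‖ := by
  have h1 : Measurable fun y : ℝ => ⌊y / x⌋₊ := Nat.measurable_floor.comp (measurable_id.div_const x)
  have h2 : Measurable fun n : ℕ => ‖Fexp n (-(ω * x) / (2 * Real.pi))‖ := measurable_from_nat
  exact h2.comp h1

theorem crude_x {B : ℝ} (hM : MertensBd B) (ω : ℝ) {x y : ℝ} (hx : 0 < x) (hy : 0 < y) :
    √x * ‖Fexp ⌊y / x⌋₊ (-(ω * x) / (2 * Real.pi))‖ ≤ B * √y * (1 + 2 * |ω| * y) := by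
  have hB := hM.nonneg
  have hpi := Real.pi_pos
  set n := ⌊y / x⌋₊ with hn
  have hnx : (n : ℝ) * x ≤ y := by
    have h1 := Nat.floor_le (a := y / x) (by positivity)
    rw [le_div_iff₀ hx] at h1
    exact h1
  rcases Nat.eq_zero_or_pos n with h0 | h0
  · rw [h0]
    unfold Fexp
    simp only [Finset.Icc_eq_empty_of_lt (show (0:ℕ) < 1 by norm_num), Finset.sum_empty, norm_zero, mul_zero]
    positivity
  · have hnR : (0:ℝ) < n := by exact_mod_cast h0
    have h1 := Fexp_crude hM h0 (n * (-(ω * x) / (2 * Real.pi)))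
    rw [mul_div_cancel_left₀ _ hnR.ne'] at h1
    have h2 : |(n : ℝ) * (-(ω * x) / (2 * Real.pi))| = |ω| * (n * x) / (2 * Real.pi) := by
      rw [show (n : ℝ) * (-(ω * x) / (2 * Real.pi)) = -(ω * (n * x) / (2 * Real.pi)) by ring, abs_neg,
        abs_div, abs_mul, abs_of_pos (by positivity : 0 < (n:ℝ) * x), abs_of_pos (by positivity : 0 < 2 * Real.pi)]
    rw [h2] at h1
    have h3 : √x * √n ≤ √y := by
      rw [← Real.sqrt_mul hx.le]
      apply Real.sqrt_le_sqrt
      linarith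
    calc √x * ‖Fexp n (-(ω * x) / (2 * Real.pi))‖
        ≤ √x * (B * √n * (1 + 4 * Real.pi * (|ω| * (n * x) / (2 * Real.pi)))) :=
          mul_le_mul_of_nonneg_left h1 (Real.sqrt_nonneg _)
      _ = B * (√x * √n) * (1 + 2 * |ω| * (n * x)) := by field_simp; ring
      _ ≤ B * √y * (1 + 2 * |ω| * y) := by
          apply mul_le_mul _ _ (by positivity) (by positivity)
          · exact mul_le_mul_of_nonneg_left h3 hB
          · have := mul_le_mul_of_nonneg_left hnx (by positivity : 0 ≤ 2 * |ω|)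
            linarith

theorem point_lim {B : ℝ} (hM : MertensBd B) {K : ℝ} (hK : 0 ≤ K)
    (h : ∀ b : ℝ, ∀ᶠ R : ℕ in atTop, ‖Fexp R (b / R)‖ ≤ K * √R) (ω : ℝ) {y : ℝ} (hy : 0 < y) :
    Tendsto (fun x : ℝ => max (√x * ‖Fexp ⌊y / x⌋₊ (-(ω * x) / (2 * Real.pi))‖ - K * √y) 0)
      (𝓝[>] 0) (𝓝 0) := by
  have hB := hM.nonneg
  have hpi := Real.pi_pos
  set b := -(ω * y) / (2 * Real.pi) with hb
  -- the moving parameter
  have hbx : Tendsto (fun x : ℝ => (⌊y / x⌋₊ : ℝ) * (-(ω * x) / (2 * Real.pi))) (𝓝[>] 0) (𝓝 b) := by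
    have h1 := (floor_mul_tendsto hy).const_mul (-ω / (2 * Real.pi))
    have e : -ω / (2 * Real.pi) * y = b := by rw [hb]; ring
    rw [e] at h1
    refine h1.congr ?_
    intro x
    ring
  have hup : Tendsto (fun x : ℝ => √y * (B * (2 * Real.pi * |b - (⌊y / x⌋₊ : ℝ) * (-(ω * x) / (2 * Real.pi))| *
      (2 + 2 * Real.pi * |b|)))) (𝓝[>] 0) (𝓝 0) := by
    have h1 := (tendsto_const_nhds (x := b)).sub hbx
    rw [sub_self] at h1
    have h2 := h1.abs
    rw [abs_zero] at h2
    have h3 := (((h2.const_mul (2 * Real.pi)).mul_const (2 + 2 * Real.pi * |b|)).const_mul B).const_mul (√y)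
    simpa using h3
  apply squeeze_zero' (Filter.Eventually.of_forall (fun _ => le_max_right _ _)) _ hup
  filter_upwards [self_mem_nhdsWithin, (floor_tendsto hy).eventually (h b),
    (floor_tendsto hy).eventually (eventually_ge_atTop 1)] with x hx hxb hx1
  have hx' : (0:ℝ) < x := hx
  set n := ⌊y / x⌋₊ with hn
  have hnR : (0:ℝ) < n := by exact_mod_cast hx1
  have hnx : (n : ℝ) * x ≤ y := by
    have h1 := Nat.floor_le (a := y / x) (by positivity)
    rw [le_div_iff₀ hx'] at h1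
    exact h1
  have h3 : √x * √n ≤ √y := by
    rw [← Real.sqrt_mul hx'.le]
    apply Real.sqrt_le_sqrt
    linarith
  apply max_le _ (by positivity)
  have h1 := Fexp_lip hM hx1 b (n * (-(ω * x) / (2 * Real.pi)))
  rw [mul_div_cancel_left₀ _ hnR.ne'] at h1
  have h4 : ‖Fexp n (-(ω * x) / (2 * Real.pi))‖ ≤ ‖Fexp n (b / n)‖ +
      ‖Fexp n (b / n) - Fexp n (-(ω * x) / (2 * Real.pi))‖ := by
    have := norm_sub_le (Fexp n (b / n)) (Fexp n (b / n) - Fexp n (-(ω * x) / (2 * Real.pi)))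
    rwa [sub_sub_cancel] at this
  have h5 : √x * ‖Fexp n (-(ω * x) / (2 * Real.pi))‖ ≤ √x * (K * √n + B * √n * (2 * Real.pi *
      |b - n * (-(ω * x) / (2 * Real.pi))| * (2 + 2 * Real.pi * |b|))) := by
    apply mul_le_mul_of_nonneg_left _ (Real.sqrt_nonneg _)
    linarith
  have h6 : √x * (K * √n + B * √n * (2 * Real.pi *
      |b - n * (-(ω * x) / (2 * Real.pi))| * (2 + 2 * Real.pi * |b|))) =
      (√x * √n) * (K + B * (2 * Real.pi *
      |b - n * (-(ω * x) / (2 * Real.pi))| * (2 + 2 * Real.pi * |b|))) := by ring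
  rw [h6] at h5
  have h7 : (√x * √n) * (K + B * (2 * Real.pi *
      |b - n * (-(ω * x) / (2 * Real.pi))| * (2 + 2 * Real.pi * |b|))) ≤ √y * (K + B * (2 * Real.pi *
      |b - n * (-(ω * x) / (2 * Real.pi))| * (2 + 2 * Real.pi * |b|))) := by
    apply mul_le_mul_of_nonneg_right h3
    positivity
  linarith

theorem int_y2_exp {ε : ℝ} (hε : 0 < ε) :
    IntegrableOn (fun y : ℝ => y ^ 2 * Real.exp (-ε * y)) (Set.Ioi 0) := by
  have := int_rpow_exp (s := 2) (ε := ε) (by norm_num) hε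
  simpa using this

/-- the dominating function is integrable -/
theorem dom_int {α : ℂ} (hα : 0 < α.re) (B ω : ℝ) (hB : 0 ≤ B) :
    IntegrableOn (fun y => (B * √y * (1 + 2 * |ω| * y)) * ‖kk' α y‖) (Set.Ioi 0) := by
  have hmaj : IntegrableOn (fun y : ℝ => B * ((1/2) * Real.exp (-α.re * y) + ‖α‖ * (y * Real.exp (-α.re * y))) +
      2 * B * |ω| * ((1/2) * (y * Real.exp (-α.re * y)) + ‖α‖ * (y ^ 2 * Real.exp (-α.re * y)))) (Set.Ioi 0) :=
    ((((int_exp hα).1.const_mul _).add ((int_y_exp hα).1.const_mul _)).const_mul _).add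
      ((((int_y_exp hα).1.const_mul _).add ((int_y2_exp hα).const_mul _)).const_mul _)
  refine Integrable.mono' hmaj ?_ ?_
  · apply ContinuousOn.aestronglyMeasurable _ measurableSet_Ioi
    apply ContinuousOn.mul _ (kk'_continuousOn α).norm
    fun_prop
  · rw [ae_restrict_iff' measurableSet_Ioi]
    apply Filter.Eventually.of_forall
    intro y hy
    have hy' : (0:ℝ) < y := hy
    rw [Real.norm_of_nonneg (by positivity)]
    have h1 := kk'_bound α hy'
    calc B * √y * (1 + 2 * |ω| * y) * ‖kk' α y‖ = (B + 2 * B * |ω| * y) * (√y * ‖kk' α y‖) := by ring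
      _ ≤ (B + 2 * B * |ω| * y) * ((1/2) * Real.exp (-α.re * y) + ‖α‖ * (y * Real.exp (-α.re * y))) :=
          mul_le_mul_of_nonneg_left h1 (by positivity)
      _ = _ := by ring

theorem asum_floor {α : ℂ} (hα : 0 < α.re) {B : ℝ} (hM : MertensBd B) {x : ℝ} (hx : 0 < x) :
    √x * ‖asum (kk α) x‖ ≤ ∫ y in Set.Ioi 0, (√x * ‖Fexp ⌊y / x⌋₊ (-(α.im * x) / (2 * Real.pi))‖) *
      ‖kk' (α.re : ℂ) y‖ := by
  have hsx : 0 < √x := Real.sqrt_pos.2 hx
  have hre : (0:ℝ) < ((α.re : ℂ)).re := by simpa using hα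
  have hB := hM.nonneg
  set c : ℕ → ℂ := fun n => mu n * Complex.exp (-(α.im * (n * x) * Complex.I)) with hc
  have hs : Summable fun n : ℕ => c n * kk (α.re : ℂ) (n * x) := by
    have := (kk_dec' hα).summable hx
    refine this.congr ?_
    intro n
    rw [hc]
    unfold kk
    have e : Complex.exp (-(α * ((n * x : ℝ) : ℂ))) = Complex.exp (-(α.im * (n * x) * Complex.I)) *
        Complex.exp (-((α.re : ℂ) * ((n * x : ℝ) : ℂ))) := by
      rw [← Complex.exp_add]
      congr 1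
      conv_lhs => rw [← Complex.re_add_im α]
      push_cast
      ring
    rw [e]
    ring
  have hint0 : IntegrableOn (fun y => (√x * ‖Fexp ⌊y / x⌋₊ (-(α.im * x) / (2 * Real.pi))‖) *
      ‖kk' (α.re : ℂ) y‖) (Set.Ioi 0) := by
    refine Integrable.mono' (dom_int hre B α.im hB) ?_ ?_
    · apply AEStronglyMeasurable.mul
      · exact ((meas_floor α.im x).const_mul _).aestronglyMeasurable
      · exact ((kk'_continuousOn _).norm).aestronglyMeasurable measurableSet_Ioi
    · rw [ae_restrict_iff' measurableSet_Ioi]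
      apply Filter.Eventually.of_forall
      intro y hy
      rw [Real.norm_of_nonneg (by positivity)]
      exact mul_le_mul_of_nonneg_right (crude_x hM _ hx hy) (norm_nonneg _)
  have hint1 : IntegrableOn (fun y => ‖∑ k ∈ Finset.Icc 1 ⌊y / x⌋₊, c k‖ * ‖kk' (α.re : ℂ) y‖) (Set.Ioi 0) := by
    have := hint0.const_mul (√x)⁻¹
    refine this.congr ?_
    apply Filter.Eventually.of_forall
    intro y
    simp only [hc]
    rw [Sx_eq]
    field_simp
  have hlim1 : Tendsto (fun N : ℕ => ∑ n ∈ Finset.Icc 1 N, c n * kk (α.re : ℂ) (n * x)) atTop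
      (𝓝 (∑' n : ℕ, c n * kk (α.re : ℂ) (n * x))) := by
    have h2 := hs.hasSum.tendsto_sum_nat
    have h3 := h2.comp (tendsto_add_atTop_nat 1)
    refine h3.congr ?_
    intro N
    simp only [Function.comp_apply]
    rw [Finset.range_eq_Ico, Finset.sum_eq_sum_Ico_succ_bot (by omega)]
    have : c 0 = 0 := by simp [hc]
    rw [this, zero_mul, zero_add]
    rfl
  have hlim2 : Tendsto (fun N : ℕ => ‖∑ k ∈ Finset.Icc 1 N, c k‖ * ‖kk (α.re : ℂ) (N * x)‖) atTop (𝓝 0) := by
    -- the partial sums are at most N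
    have hup : Tendsto (fun N : ℕ => 1 / x * ((N * x) ^ (3/2 : ℝ) * Real.exp (-α.re * (N * x)))) atTop (𝓝 0) := by
      have h1 : Tendsto (fun t : ℝ => t ^ (3/2:ℝ) * Real.exp (-α.re * t)) atTop (𝓝 0) :=
        tendsto_rpow_mul_exp_neg_mul_atTop_nhds_zero (3/2) α.re hα
      have h2 := (h1.comp (Tendsto.atTop_mul_const hx tendsto_natCast_atTop_atTop)).const_mul (1 / x)
      rw [mul_zero] at h2
      exact h2
    apply squeeze_zero (fun _ => by positivity) _ hup
    intro N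
    have h1 : ‖∑ k ∈ Finset.Icc 1 N, c k‖ ≤ N := by
      refine (norm_sum_le _ _).trans ?_
      calc ∑ k ∈ Finset.Icc 1 N, ‖c k‖ ≤ ∑ k ∈ Finset.Icc 1 N, (1:ℝ) := by
            apply Finset.sum_le_sum
            intro k _
            rw [hc]
            simp only
            rw [norm_mul, show -(α.im * (k * x) * Complex.I : ℂ) = ((-(α.im * (k * x)) : ℝ) : ℂ) * Complex.I by push_cast; ring,
              Complex.norm_exp_ofReal_mul_I, mul_one]
            exact norm_mu_le k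
        _ = N := by simp
    have h2 := kk_norm (α.re : ℂ) (t := N * x) (by positivity)
    rw [Complex.ofReal_re] at h2
    rw [h2]
    have h3 : ((N:ℝ) * x) ^ (3/2 : ℝ) = (N * x) * √(N * x) := by
      rcases Nat.eq_zero_or_pos N with h0 | h0
      · subst h0
        simp
      · have hp : 0 < (N:ℝ) * x := by
          have : (0:ℝ) < N := by exact_mod_cast h0
          positivity
        rw [Real.sqrt_eq_rpow, show (3/2 : ℝ) = 1 + 1/2 by norm_num, Real.rpow_add hp, Real.rpow_one]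
    rw [h3]
    calc _ ≤ (N : ℝ) * (√(N * x) * Real.exp (-α.re * (N * x))) :=
          mul_le_mul_of_nonneg_right h1 (by positivity)
      _ = _ := by field_simp
  have h3 := le_of_tendsto_of_tendsto' hlim1.norm (hlim2.add_const _) (fun N => abel_floor c (kk (α.re : ℂ))
    (kk' (α.re : ℂ)) hx (fun y hy => kk_hasDeriv _ hy) (kk'_continuousOn _) hint1 N)
  rw [zero_add] at h3
  rw [asum_twist]
  have h4 : √x * ∫ y in Set.Ioi 0, ‖∑ k ∈ Finset.Icc 1 ⌊y / x⌋₊, c k‖ * ‖kk' (α.re : ℂ) y‖ =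
      ∫ y in Set.Ioi 0, (√x * ‖Fexp ⌊y / x⌋₊ (-(α.im * x) / (2 * Real.pi))‖) *
      ‖kk' (α.re : ℂ) y‖ := by
    rw [← integral_const_mul]
    congr 1
    ext y
    simp only [hc]
    rw [Sx_eq]
    ring
  rw [← h4]
  exact mul_le_mul_of_nonneg_left h3 hsx.le

theorem asum_limsup {α : ℂ} (hα : 0 < α.re) {B : ℝ} (hM : MertensBd B) {K : ℝ} (hK : 0 ≤ K)
    (h : ∀ b : ℝ, ∀ᶠ R : ℕ in atTop, ‖Fexp R (b / R)‖ ≤ K * √R) {ε : ℝ} (hε : 0 < ε) :
    ∀ᶠ x in 𝓝[>] (0:ℝ), √x * ‖asum (kk α) x‖ ≤ K * (3 / (2 * α.re)) + ε := by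
  have hre : (0:ℝ) < ((α.re : ℂ)).re := by simpa using hα
  have hB := hM.nonneg
  set G : ℝ → ℝ → ℝ := fun x y => max (√x * ‖Fexp ⌊y / x⌋₊ (-(α.im * x) / (2 * Real.pi))‖ - K * √y) 0 *
    ‖kk' (α.re : ℂ) y‖ with hG
  have hGm : ∀ x, AEStronglyMeasurable (G x) (volume.restrict (Set.Ioi 0)) := by
    intro x
    apply AEStronglyMeasurable.mul
    · apply Measurable.aestronglyMeasurable
      apply Measurable.max _ measurable_const
      apply Measurable.sub ((meas_floor α.im x).const_mul _)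
      fun_prop
    · exact ((kk'_continuousOn _).norm).aestronglyMeasurable measurableSet_Ioi
  have hGb : ∀ x, 0 < x → ∀ y, 0 < y → ‖G x y‖ ≤ (B * √y * (1 + 2 * |α.im| * y)) * ‖kk' (α.re : ℂ) y‖ := by
    intro x hx y hy
    rw [hG]
    simp only
    rw [Real.norm_of_nonneg (by positivity)]
    apply mul_le_mul_of_nonneg_right _ (norm_nonneg _)
    apply max_le _ (by positivity)
    have := crude_x hM α.im hx hy
    have : 0 ≤ K * √y := by positivity
    linarith
  have hlim : Tendsto (fun x => ∫ y in Set.Ioi 0, G x y) (𝓝[>] 0) (𝓝 (∫ y in Set.Ioi (0:ℝ), (0:ℝ))) := by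
    apply tendsto_integral_filter_of_dominated_convergence
      (fun y => (B * √y * (1 + 2 * |α.im| * y)) * ‖kk' (α.re : ℂ) y‖)
    · exact Filter.Eventually.of_forall hGm
    · filter_upwards [self_mem_nhdsWithin] with x hx
      rw [ae_restrict_iff' measurableSet_Ioi]
      apply Filter.Eventually.of_forall
      intro y hy
      exact hGb x hx y hy
    · exact dom_int hre B α.im hB
    · rw [ae_restrict_iff' measurableSet_Ioi]
      apply Filter.Eventually.of_forall
      intro y hy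
      have := (point_lim hM hK h α.im (y := y) hy).mul_const ‖kk' (α.re : ℂ) y‖
      rw [zero_mul] at this
      exact this
  rw [integral_zero] at hlim
  have hev := hlim.eventually (gt_mem_nhds hε)
  filter_upwards [hev, self_mem_nhdsWithin] with x hx1 hx
  have hx' : (0:ℝ) < x := hx
  refine (asum_floor hα hM hx').trans ?_
  have hGint : IntegrableOn (G x) (Set.Ioi 0) := by
    refine Integrable.mono' (dom_int hre B α.im hB) (hGm x) ?_
    rw [ae_restrict_iff' measurableSet_Ioi]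
    apply Filter.Eventually.of_forall
    intro y hy
    exact hGb x hx' y hy
  have hKint : IntegrableOn (fun y => K * (√y * ‖kk' (α.re : ℂ) y‖)) (Set.Ioi 0) := (kk'_int hre).1.const_mul K
  have hle : ∫ y in Set.Ioi 0, (√x * ‖Fexp ⌊y / x⌋₊ (-(α.im * x) / (2 * Real.pi))‖) * ‖kk' (α.re : ℂ) y‖ ≤
      ∫ y in Set.Ioi 0, (K * (√y * ‖kk' (α.re : ℂ) y‖) + G x y) := by
    apply integral_mono_of_nonneg
    · apply Filter.Eventually.of_forall
      intro y
      positivity
    · exact hKint.add hGint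
    · rw [Filter.EventuallyLE, ae_restrict_iff' measurableSet_Ioi]
      apply Filter.Eventually.of_forall
      intro y hy
      rw [hG]
      simp only
      have h1 := le_max_left (√x * ‖Fexp ⌊y / x⌋₊ (-(α.im * x) / (2 * Real.pi))‖ - K * √y) 0
      have h2 : √x * ‖Fexp ⌊y / x⌋₊ (-(α.im * x) / (2 * Real.pi))‖ ≤ K * √y +
          max (√x * ‖Fexp ⌊y / x⌋₊ (-(α.im * x) / (2 * Real.pi))‖ - K * √y) 0 := by linarith
      calc _ ≤ (K * √y + max (√x * ‖Fexp ⌊y / x⌋₊ (-(α.im * x) / (2 * Real.pi))‖ - K * √y) 0) *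
            ‖kk' (α.re : ℂ) y‖ := mul_le_mul_of_nonneg_right h2 (norm_nonneg _)
        _ = _ := by ring
  refine hle.trans ?_
  rw [integral_add hKint hGint, integral_const_mul]
  have h3 := (kk'_int hre).2
  rw [Complex.ofReal_re, Complex.norm_real, Real.norm_of_nonneg hα.le] at h3
  have h4 : 1 / (2 * α.re) + α.re / α.re ^ 2 = 3 / (2 * α.re) := by field_simp; ring
  rw [h4] at h3
  have := mul_le_mul_of_nonneg_left h3 hK
  linarith

/-- local boundedness at low frequencies is impossible -/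
theorem low_contra {K : ℝ} (hK : 0 ≤ K)
    (h : ∀ b : ℝ, ∀ᶠ R : ℕ in atTop, ‖Fexp R (b / R)‖ ≤ K * √R) : False := by
  have hpi := Real.pi_pos
  -- a Mertens bound
  have hM : ∃ B, MertensBd B := by
    have h0 := h 0
    rw [eventually_atTop] at h0
    obtain ⟨R₀, hR₀⟩ := h0
    refine ⟨max K R₀, ?_⟩
    intro N
    rcases le_or_gt R₀ N with h1 | h1
    · have := hR₀ N h1
      rw [zero_div, Fexp_zero] at this
      refine this.trans ?_
      exact mul_le_mul_of_nonneg_right (le_max_left _ _) (Real.sqrt_nonneg _)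
    · have h2 : ‖∑ n ∈ Finset.Icc 1 N, mu n‖ ≤ N := by
        refine (norm_sum_le _ _).trans ?_
        calc ∑ n ∈ Finset.Icc 1 N, ‖mu n‖ ≤ ∑ n ∈ Finset.Icc 1 N, (1:ℝ) :=
              Finset.sum_le_sum (fun n _ => norm_mu_le n)
          _ = N := by simp
      rcases Nat.eq_zero_or_pos N with h0 | h0
      · subst h0
        simp
      · have h3 : (1:ℝ) ≤ √N := by
          rw [Real.one_le_sqrt]
          exact_mod_cast h0
        calc ‖∑ n ∈ Finset.Icc 1 N, mu n‖ ≤ (N:ℝ) := h2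
          _ ≤ R₀ * √N := by
              have : (N:ℝ) ≤ R₀ := by exact_mod_cast h1.le
              have hR0 : (0:ℝ) ≤ R₀ := Nat.cast_nonneg _
              nlinarith
          _ ≤ _ := mul_le_mul_of_nonneg_right (le_max_right _ _) (Real.sqrt_nonneg _)
  obtain ⟨B, hM⟩ := hM
  refine final_contra hM (E := 2 * (K * (3 * Real.pi / 2)) / √Real.pi) (by positivity) ?_
  intro q hq ε hε
  have hq0 : 0 < q := by linarith
  have hsp : 0 < √Real.pi := Real.sqrt_pos.2 hpi
  set δ := ε * √Real.pi / (2 * q) with hδ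
  have hδ0 : 0 < δ := by positivity
  have h1 := asum_limsup (adm1 hq0).al_pos hM hK h hδ0
  have h2 := asum_limsup (adm2 hq0).al_pos hM hK h hδ0
  filter_upwards [h1, h2, self_mem_nhdsWithin] with x hx1 hx2 hx
  have hx' : (0:ℝ) < x := hx
  have hsx : 0 < √x := Real.sqrt_pos.2 hx'
  rw [al_L1_re] at hx1
  rw [al_L2_re] at hx2
  have e : K * (3 / (2 * (q / Real.pi))) + δ = (K * (3 * Real.pi / 2) + δ * q) / q := by
    field_simp
  rw [e] at hx1 hx2
  have k1 : ‖asum (kk (al (L1 q) 1)) x‖ ≤ ((K * (3 * Real.pi / 2) + δ * q) / q) / √x := by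
    rw [le_div_iff₀ hsx, mul_comm]
    exact hx1
  have k2 : ‖asum (kk (al (L2 q) (-1))) x‖ ≤ ((K * (3 * Real.pi / 2) + δ * q) / q) / √x := by
    rw [le_div_iff₀ hsx, mul_comm]
    exact hx2
  have := asum_kf_le hq hx' k1 k2
  refine this.trans (le_of_eq ?_)
  rw [hδ]
  field_simp

theorem Fexp_neg (R : ℕ) (x : ℝ) : ‖Fexp R (-x)‖ = ‖Fexp R x‖ := by
  have : Fexp R (-x) = (starRingEnd ℂ) (Fexp R x) := by
    unfold Fexp
    rw [map_sum]
    apply Finset.sum_congr rfl
    intro n _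
    rw [map_mul, ← Complex.exp_conj]
    congr 1
    · unfold mu
      exact (map_intCast (starRingEnd ℂ) _).symm
    · congr 1
      simp only [map_mul, Complex.conj_ofReal, Complex.conj_natCast, Complex.conj_I]
      push_cast
      simp only [map_ofNat]
      ring
  rw [this, Complex.norm_conj]

/-- low frequency localisation -/
theorem low_freq (K : ℝ) : ∃ b : ℝ, 0 ≤ b ∧ {R : ℕ | K * √R < ‖Fexp R (b / R)‖}.Infinite := by
  by_contra hcon
  push Not at hcon
  apply low_contra (K := max K 0) (le_max_right _ _)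
  intro b
  have h1 := hcon |b| (abs_nonneg b)
  have h2 : ∀ᶠ R : ℕ in atTop, R ∉ {R : ℕ | K * √R < ‖Fexp R (|b| / R)‖} := by
    rw [← Nat.cofinite_eq_atTop]
    exact h1.compl_mem_cofinite
  filter_upwards [h2] with R hR
  have hR' : ¬ (K * √R < ‖Fexp R (|b| / R)‖) := hR
  rw [not_lt] at hR'
  have h3 : ‖Fexp R (b / R)‖ = ‖Fexp R (|b| / R)‖ := by
    rcases abs_cases b with ⟨h, _⟩ | ⟨h, _⟩
    · rw [h]
    · rw [h, neg_div, Fexp_neg]
  rw [h3]
  refine hR'.trans ?_
  exact mul_le_mul_of_nonneg_right (le_max_left _ _) (Real.sqrt_nonneg _)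

end Pool.Agent.Helper13.Mob
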