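import Pool.Agent.Helper13.MobW

namespace Pool.Agent.Helper13.Mob

open Finset MeasureTheory Set Filter Topology

/-- derivative bound from a bound of the real part -/
theorem deriv_re_bound {f : ℂ → ℂ} {c : ℂ} {r D : ℝ} (hr : 0 < r) (hD : 0 < D)
    (hf : DifferentiableOn ℂ f (Metric.ball c r)) (hb : ∀ z ∈ Metric.ball c r, |(f z).re| ≤ D) :
    ‖deriv f c‖ ≤ 8 * D / r := by
  set g : ℂ → ℂ := fun z => f (c + z) - f c with hg
  have hmap : ∀ z ∈ Metric.ball (0:ℂ) r, c + z ∈ Metric.ball c r := by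
    intro z hz
    rw [Metric.mem_ball, dist_eq_norm] at *
    simpa using hz
  have hgd : DifferentiableOn ℂ g (Metric.ball 0 r) := by
    apply DifferentiableOn.sub_const
    exact hf.comp (by fun_prop) hmap
  have hg1 : Set.MapsTo g (Metric.ball 0 r) {z | z.re ≤ 2 * D} := by
    intro z hz
    have h1 := hb _ (hmap z hz)
    have h2 := hb c (Metric.mem_ball_self hr)
    have h3 := (abs_le.1 h1).2
    have h4 := (abs_le.1 h2).1
    change (f (c + z) - f c).re ≤ 2 * D
    rw [Complex.sub_re]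
    linarith
  have hg0 : g 0 = 0 := by simp [hg]
  have hgb : ∀ z : ℂ, ‖z‖ = r / 2 → ‖g z‖ ≤ 4 * D := by
    intro z hz
    have hzb : z ∈ Metric.ball (0:ℂ) r := by
      rw [mem_ball_zero_iff, hz]; linarith
    have := Complex.borelCaratheodory_zero (by linarith : 0 < 2 * D) hgd hg1 hr hzb hg0
    rw [hz] at this
    refine this.trans (le_of_eq ?_)
    field_simp
    ring
  have hd : ‖deriv g 0‖ ≤ 4 * D / (r / 2) := by
    apply Complex.norm_deriv_le_of_forall_mem_sphere_norm_le (by positivity)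
    · apply DifferentiableOn.diffContOnCl
      apply hgd.mono
      intro z hz
      have := Metric.closure_ball_subset_closedBall hz
      rw [Metric.mem_closedBall, dist_zero_right] at this
      rw [mem_ball_zero_iff]
      linarith
    · intro z hz
      apply hgb
      simpa using hz
  have he : deriv g 0 = deriv f c := by
    rw [hg]
    have hfc : DifferentiableAt ℂ f c := hf.differentiableAt (Metric.isOpen_ball.mem_nhds (Metric.mem_ball_self hr))
    have h1 : HasDerivAt (fun z : ℂ => c + z) 1 0 := by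
      simpa using (hasDerivAt_id (0:ℂ)).const_add c
    have h2 : HasDerivAt f (deriv f c) (c + 0) := by
      rw [add_zero]; exact hfc.hasDerivAt
    have h3 := (h2.comp (0:ℂ) h1).sub_const (f c)
    rw [mul_one] at h3
    exact h3.deriv
  rw [← he]
  refine hd.trans (le_of_eq ?_)
  field_simp
  ring

/-- the exponential sums `∑ μ(n) e^{-n x z}` -/
noncomputable def HH (x : ℝ) (z : ℂ) : ℂ := ∑' n : ℕ, mu n * Complex.exp (-((n * x : ℝ) * z))

/-- minus the derivative -/
noncomputable def DD (x : ℝ) (z : ℂ) : ℂ := ∑' n : ℕ, mu n * (((n * x : ℝ) : ℂ) * Complex.exp (-((n * x : ℝ) * z)))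

theorem exp_term_norm (x : ℝ) (n : ℕ) (z : ℂ) :
    ‖mu n * Complex.exp (-((n * x : ℝ) * z))‖ ≤ Real.exp (-(n * x) * z.re) := by
  rw [norm_mul, Complex.norm_exp]
  have : (-(((n * x : ℝ) : ℂ) * z)).re = -(n * x) * z.re := by
    rw [Complex.neg_re, Complex.re_ofReal_mul]; ring
  rw [this]
  calc ‖mu n‖ * Real.exp (-(n * x) * z.re) ≤ 1 * Real.exp (-(n * x) * z.re) :=
        mul_le_mul_of_nonneg_right (norm_mu_le n) (Real.exp_pos _).le
    _ = _ := one_mul _

theorem exp_geo {x a : ℝ} (hx : 0 < x) (ha : 0 < a) : Summable fun n : ℕ => Real.exp (-(n * x) * a) := by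
  have h : Summable fun n : ℕ => (Real.exp (-(x * a))) ^ n := by
    apply summable_geometric_of_lt_one (Real.exp_pos _).le
    rw [Real.exp_lt_one_iff]
    have : 0 < x * a := by positivity
    linarith
  refine h.congr ?_
  intro n
  rw [← Real.exp_nat_mul]
  congr 1
  ring

theorem HH_summable {x : ℝ} (hx : 0 < x) {z : ℂ} (hz : 0 < z.re) :
    Summable fun n : ℕ => mu n * Complex.exp (-((n * x : ℝ) * z)) :=
  Summable.of_norm_bounded (exp_geo hx hz) (fun n => exp_term_norm x n z)

theorem HH_deriv {x : ℝ} (hx : 0 < x) {z : ℂ} (hz : 0 < z.re) :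
    deriv (HH x) z = -DD x z ∧ DifferentiableAt ℂ (HH x) z := by
  set U : Set ℂ := {w | z.re / 2 < w.re} with hU
  have hUo : IsOpen U := isOpen_lt continuous_const Complex.continuous_re
  have hzU : z ∈ U := by
    change z.re / 2 < z.re
    linarith
  have hd : ∀ n : ℕ, ∀ w : ℂ, HasDerivAt (fun w => mu n * Complex.exp (-((n * x : ℝ) * w)))
      (-(mu n * (((n * x : ℝ) : ℂ) * Complex.exp (-((n * x : ℝ) * w))))) w := by
    intro n w
    have h1 : HasDerivAt (fun w : ℂ => -(((n * x : ℝ) : ℂ) * w)) (-(((n * x : ℝ) : ℂ) * 1)) w :=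
      ((hasDerivAt_id w).const_mul _).neg
    have h2 := h1.cexp.const_mul (mu n)
    have e : -(mu n * (((n * x : ℝ) : ℂ) * Complex.exp (-((n * x : ℝ) * w)))) =
        mu n * (Complex.exp (-(((n * x : ℝ) : ℂ) * w)) * (-(((n * x : ℝ) : ℂ) * 1))) := by ring
    rw [e]
    exact h2
  have hle : ∀ (n : ℕ) (w : ℂ), w ∈ U → ‖mu n * Complex.exp (-((n * x : ℝ) * w))‖ ≤
      Real.exp (-(n * x) * (z.re / 2)) := by
    intro n w hw
    refine (exp_term_norm x n w).trans ?_
    apply Real.exp_le_exp.2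
    have hw' : z.re / 2 < w.re := hw
    have : (0:ℝ) ≤ n * x := by positivity
    nlinarith
  constructor
  · have key := Complex.hasSum_deriv_of_summable_norm (F := fun (n : ℕ) (w : ℂ) => mu n * Complex.exp (-((n * x : ℝ) * w)))
      (exp_geo hx (by linarith : 0 < z.re / 2)) (fun n => fun w _ => ((hd n w).differentiableAt).differentiableWithinAt)
      hUo hle hzU
    have key2 := key.tsum_eq
    unfold HH
    rw [← key2]
    unfold DD
    rw [← tsum_neg]
    congr 1
    ext n
    exact (hd n z).deriv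
  · have := Complex.differentiableOn_tsum_of_summable_norm (F := fun (n : ℕ) (w : ℂ) => mu n * Complex.exp (-((n * x : ℝ) * w)))
      (exp_geo hx (by linarith : 0 < z.re / 2)) (fun n => fun w _ => ((hd n w).differentiableAt).differentiableWithinAt)
      hUo hle
    exact this.differentiableAt (hUo.mem_nhds hzU)

theorem DD_bound {x : ℝ} (hx : 0 < x) {D : ℝ} (hD : 0 < D) {u : ℂ} (hu : ‖u‖ = 1)
    (h : ∀ w : ℂ, 0 < w.re → |(u * HH x w).re| ≤ D / √(x * w.re)) {z : ℂ} (hz : 0 < z.re) :
    ‖DD x z‖ ≤ 32 * D / √x * (1 / (z.re * √z.re)) := by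
  have hsx : 0 < √x := Real.sqrt_pos.2 hx
  have hsz : 0 < √z.re := Real.sqrt_pos.2 hz
  have hball : ∀ w ∈ Metric.ball z (z.re / 2), z.re / 2 < w.re := by
    intro w hw
    rw [Metric.mem_ball, dist_eq_norm] at hw
    have h1 := Complex.abs_re_le_norm (w - z)
    rw [Complex.sub_re] at h1
    have h2 := (abs_le.1 h1).1
    linarith
  have hdiff : DifferentiableOn ℂ (fun w => u * HH x w) (Metric.ball z (z.re / 2)) := by
    intro w hw
    have h1 : 0 < w.re := by have := hball w hw; linarith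
    exact ((HH_deriv hx h1).2.const_mul u).differentiableWithinAt
  have key := deriv_re_bound (f := fun w => u * HH x w) (c := z) (r := z.re / 2) (D := D / √(x * (z.re / 2)))
    (by linarith) (by positivity) hdiff (by
      intro w hw
      have h1 := hball w hw
      have h2 : 0 < w.re := by linarith
      refine (h w h2).trans ?_
      apply div_le_div_of_nonneg_left hD.le (by positivity)
      apply Real.sqrt_le_sqrt
      exact mul_le_mul_of_nonneg_left h1.le hx.le)
  have hd1 : deriv (fun w => u * HH x w) z = u * (-DD x z) := by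
    have h1 := (HH_deriv hx hz).2.hasDerivAt.const_mul u
    rw [(HH_deriv hx hz).1] at h1
    exact h1.deriv
  rw [hd1, norm_mul, hu, one_mul, norm_neg] at key
  refine key.trans ?_
  have h2 : √(x * (z.re / 2)) = √x * √z.re / √2 := by
    rw [Real.sqrt_mul hx.le, Real.sqrt_div hz.le]
    ring
  rw [h2]
  have h3 : √2 ≤ 2 := by
    rw [Real.sqrt_le_left (by norm_num)]
    norm_num
  have h4 : 8 * (D / (√x * √z.re / √2)) / (z.re / 2) = 16 * D / √x * (1 / (z.re * √z.re)) * √2 := by
    field_simp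
    ring
  rw [h4]
  calc 16 * D / √x * (1 / (z.re * √z.re)) * √2 ≤ 16 * D / √x * (1 / (z.re * √z.re)) * 2 := by
        apply mul_le_mul_of_nonneg_left h3 (by positivity)
    _ = _ := by ring

/-- the Beta integral -/
theorem beta_int {a : ℝ} (ha : 0 < a) :
    IntegrableOn (fun r : ℝ => 1 / √r * (1 / ((a + r) * √(a + r)))) (Set.Ioi 0) ∧
    ∫ r in Set.Ioi (0:ℝ), 1 / √r * (1 / ((a + r) * √(a + r))) = 2 / a := by
  set g : ℝ → ℝ := fun r => 2 / a * √(r / (a + r)) with hg
  have hcont : ContinuousWithinAt g (Set.Ici 0) 0 := by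
    apply ContinuousAt.continuousWithinAt
    apply ContinuousAt.const_mul
    apply ContinuousAt.sqrt
    apply ContinuousAt.div continuousAt_id (by fun_prop)
    simpa using ha.ne'
  have hderiv : ∀ r ∈ Set.Ioi (0:ℝ), HasDerivAt g (1 / √r * (1 / ((a + r) * √(a + r)))) r := by
    intro r hr
    have hr' : (0:ℝ) < r := hr
    have har : 0 < a + r := by linarith
    have h1 : HasDerivAt (fun r : ℝ => r / (a + r)) ((1 * (a + r) - r * 1) / (a + r) ^ 2) r :=
      (hasDerivAt_id r).div ((hasDerivAt_id r).const_add a) har.ne'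
    have h2 := (h1.sqrt (by positivity)).const_mul (2 / a)
    have hs1 : 0 < √r := Real.sqrt_pos.2 hr'
    have hs2 : 0 < √(a + r) := Real.sqrt_pos.2 har
    have e0 : (a + r) ^ 2 = (a + r) * (√(a + r) * √(a + r)) := by
      rw [Real.mul_self_sqrt har.le]; ring
    have e : 1 / √r * (1 / ((a + r) * √(a + r))) =
        2 / a * (((1 * (a + r) - r * 1) / (a + r) ^ 2) / (2 * √(r / (a + r)))) := by
      rw [Real.sqrt_div hr'.le, e0]
      field_simp
      ring
    rw [e]
    exact h2
  have hpos : ∀ r ∈ Set.Ioi (0:ℝ), 0 ≤ 1 / √r * (1 / ((a + r) * √(a + r))) := by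
    intro r hr
    have hr' : (0:ℝ) < r := hr
    positivity
  have hlim : Tendsto g atTop (𝓝 (2 / a)) := by
    have h1 : Tendsto (fun r : ℝ => r / (a + r)) atTop (𝓝 1) := by
      have h2 : Tendsto (fun r : ℝ => 1 - a / (a + r)) atTop (𝓝 (1 - 0)) := by
        apply Tendsto.const_sub
        apply Tendsto.const_div_atTop
        exact tendsto_atTop_add_const_left _ _ tendsto_id
      rw [sub_zero] at h2
      apply h2.congr'
      filter_upwards [eventually_gt_atTop (0:ℝ)] with r hr
      have : a + r ≠ 0 := by positivity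
      field_simp
      ring
    have h3 := (h1.sqrt).const_mul (2 / a)
    rw [Real.sqrt_one, mul_one] at h3
    exact h3
  constructor
  · exact integrableOn_Ioi_deriv_of_nonneg hcont hderiv hpos hlim
  · rw [integral_Ioi_of_hasDerivAt_of_nonneg hcont hderiv hpos hlim]
    simp [hg]

theorem half_int {t : ℝ} (ht : 0 < t) :
    IntegrableOn (fun r : ℝ => 1 / √r * Real.exp (-(r * t))) (Set.Ioi 0) ∧
    ∫ r in Set.Ioi (0:ℝ), 1 / √r * Real.exp (-(r * t)) = √Real.pi / √t := by
  have h1 := Real.integral_rpow_mul_exp_neg_mul_Ioi (a := 1/2) (r := t) (by norm_num) ht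
  have h2 := int_rpow_exp (s := -(1/2)) (ε := t) (by norm_num) ht
  have e : ∀ r ∈ Set.Ioi (0:ℝ), r ^ ((1/2 : ℝ) - 1) * Real.exp (-(t * r)) = 1 / √r * Real.exp (-(r * t)) := by
    intro r hr
    have hr' : (0:ℝ) < r := hr
    rw [show (1/2 : ℝ) - 1 = -(1/2) by norm_num, Real.rpow_neg hr'.le, ← Real.sqrt_eq_rpow, one_div, mul_comm t r]
  constructor
  · refine h2.congr_fun ?_ measurableSet_Ioi
    intro r hr
    have := e r hr
    rw [show (1/2 : ℝ) - 1 = -(1/2) by norm_num] at this
    simp only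
    rw [← this]
    congr 2
    ring
  · rw [← setIntegral_congr_fun measurableSet_Ioi e, h1, Real.Gamma_one_half_eq, ← Real.sqrt_eq_rpow,
      Real.sqrt_div (by norm_num), Real.sqrt_one]
    ring

theorem asum_DD {α : ℂ} (hα : 0 < α.re) {x : ℝ} (hx : 0 < x) :
    asum (kk α) x = ((1 / √Real.pi : ℝ) : ℂ) * ∫ r in Set.Ioi (0:ℝ), ((1 / √r : ℝ) : ℂ) * DD x (α + r) := by
  have hsp : 0 < √Real.pi := Real.sqrt_pos.2 Real.pi_pos
  set F : ℕ → ℝ → ℂ := fun n r => ((1 / √r : ℝ) : ℂ) *
    (mu n * (((n * x : ℝ) : ℂ) * Complex.exp (-((n * x : ℝ) * (α + r))))) with hF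
  have hFe : ∀ n : ℕ, ∀ r : ℝ, F n r = (mu n * (((n * x : ℝ) : ℂ) * Complex.exp (-((n * x : ℝ) * α)))) *
      ((1 / √r * Real.exp (-(r * (n * x))) : ℝ) : ℂ) := by
    intro n r
    rw [hF]
    simp only
    rw [show (-(((n * x : ℝ) : ℂ) * (α + r))) = -(((n * x : ℝ) : ℂ) * α) + ((-(r * (n * x)) : ℝ) : ℂ) by
      push_cast; ring, Complex.exp_add, ← Complex.ofReal_exp]
    push_cast
    ring
  have hFi : ∀ n : ℕ, IntegrableOn (F n) (Set.Ioi 0) ∧
      ∫ r in Set.Ioi (0:ℝ), F n r = (√Real.pi : ℂ) * (mu n * kk α (n * x)) ∧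
      ∫ r in Set.Ioi (0:ℝ), ‖F n r‖ = √Real.pi * ‖mu n * kk α (n * x)‖ := by
    intro n
    rcases Nat.eq_zero_or_pos n with h0 | h0
    · subst h0
      have : F 0 = fun _ => 0 := by
        ext r
        simp [hF]
      rw [this]
      simp
    · have hn : (0:ℝ) < n * x := by
        have : (0:ℝ) < n := by exact_mod_cast h0
        positivity
      have hs : 0 < √((n:ℝ) * x) := Real.sqrt_pos.2 hn
      obtain ⟨i1, i2⟩ := half_int hn
      have hfun : F n = fun r => (mu n * (((n * x : ℝ) : ℂ) * Complex.exp (-((n * x : ℝ) * α)))) *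
        ((1 / √r * Real.exp (-(r * (n * x))) : ℝ) : ℂ) := by
        ext r
        exact hFe n r
      have hkk : (√Real.pi : ℂ) * (mu n * kk α (n * x)) = (mu n * (((n * x : ℝ) : ℂ) * Complex.exp (-((n * x : ℝ) * α)))) *
        ((√Real.pi / √((n:ℝ) * x) : ℝ) : ℂ) := by
        unfold kk
        have e1 : (((n * x : ℝ) : ℂ)) = (√((n:ℝ) * x) : ℂ) * (√((n:ℝ) * x) : ℂ) := by
          rw [← Complex.ofReal_mul, Real.mul_self_sqrt hn.le]
        have e2 : (√((n:ℝ) * x) : ℂ) ≠ 0 := by exact_mod_cast hs.ne'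
        have e3 : Complex.exp (-(α * ((n * x : ℝ) : ℂ))) = Complex.exp (-((n * x : ℝ) * α)) := by
          rw [mul_comm]
        rw [e3, Complex.ofReal_div]
        calc _ = (√Real.pi : ℂ) * (mu n * ((√((n:ℝ) * x) : ℂ) * Complex.exp (-(((n * x : ℝ) : ℂ) * α)))) := rfl
          _ = mu n * (((√((n:ℝ) * x) : ℂ) * (√((n:ℝ) * x) : ℂ)) * Complex.exp (-(((n * x : ℝ) : ℂ) * α))) *
              ((√Real.pi : ℂ) / (√((n:ℝ) * x) : ℂ)) := by field_simp
          _ = _ := by rw [← e1]
      refine ⟨?_, ?_, ?_⟩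
      · rw [hfun]
        exact (i1.ofReal).const_mul _
      · rw [hkk]
        rw [hfun, integral_const_mul]
        congr 1
        rw [← i2]
        exact integral_ofReal
      · rw [show √Real.pi * ‖mu n * kk α (n * x)‖ = ‖(√Real.pi : ℂ) * (mu n * kk α (n * x))‖ by
          rw [norm_mul (√Real.pi : ℂ), norm_sqrt_pi], hkk, norm_mul, Complex.norm_real,
          Real.norm_of_nonneg (by positivity), ← i2, ← integral_const_mul]
        apply setIntegral_congr_fun measurableSet_Ioi
        intro r hr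
        have hr' : (0:ℝ) < r := hr
        simp only
        rw [hFe n r, norm_mul, Complex.norm_real, Real.norm_of_nonneg (by positivity)]
  have hsum : Summable fun n => ∫ r in Set.Ioi (0:ℝ), ‖F n r‖ := by
    have : (fun n => ∫ r in Set.Ioi (0:ℝ), ‖F n r‖) = fun n : ℕ => √Real.pi * ‖mu n * kk α (n * x)‖ := by
      ext n
      exact (hFi n).2.2
    rw [this]
    exact ((kk_dec' hα).summable hx).norm.mul_left _
  have key := hasSum_integral_of_summable_integral_norm (μ := volume.restrict (Set.Ioi (0:ℝ))) (F := F)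
    (fun n => (hFi n).1) hsum
  have e1 : ∫ r in Set.Ioi (0:ℝ), ((1 / √r : ℝ) : ℂ) * DD x (α + r) = ∫ r in Set.Ioi (0:ℝ), ∑' n, F n r := by
    congr 1
    ext r
    unfold DD
    rw [← tsum_mul_left]
  rw [e1, ← key.tsum_eq]
  have e2 : ∑' n, ∫ r in Set.Ioi (0:ℝ), F n r = (√Real.pi : ℂ) * asum (kk α) x := by
    unfold asum
    rw [← tsum_mul_left]
    congr 1
    ext n
    exact (hFi n).2.1
  rw [e2, ← mul_assoc]
  have : ((1 / √Real.pi : ℝ) : ℂ) * (√Real.pi : ℂ) = 1 := by
    rw [← Complex.ofReal_mul]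
    rw [one_div, inv_mul_cancel₀ hsp.ne']
    simp
  rw [this, one_mul]

theorem asum_dir {α : ℂ} (hα : 0 < α.re) {x : ℝ} (hx : 0 < x) {D : ℝ} (hD : 0 < D) {u : ℂ} (hu : ‖u‖ = 1)
    (h : ∀ w : ℂ, 0 < w.re → |(u * HH x w).re| ≤ D / √(x * w.re)) :
    ‖asum (kk α) x‖ ≤ (64 * D / α.re) / √x := by
  have hsp : 0 < √Real.pi := Real.sqrt_pos.2 Real.pi_pos
  have hsx : 0 < √x := Real.sqrt_pos.2 hx
  have hsp1 : 1 ≤ √Real.pi := by
    rw [Real.one_le_sqrt]
    linarith [Real.pi_gt_three]
  rw [asum_DD hα hx, norm_mul, Complex.norm_real, Real.norm_of_nonneg (by positivity)]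
  have h1 : ‖∫ r in Set.Ioi (0:ℝ), ((1 / √r : ℝ) : ℂ) * DD x (α + r)‖ ≤
      ∫ r in Set.Ioi (0:ℝ), 32 * D / √x * (1 / √r * (1 / ((α.re + r) * √(α.re + r)))) := by
    apply norm_integral_le_of_norm_le ((beta_int hα).1.const_mul _)
    rw [ae_restrict_iff' measurableSet_Ioi]
    apply Filter.Eventually.of_forall
    intro r hr
    have hr' : (0:ℝ) < r := hr
    have hz : 0 < (α + r).re := by
      simp only [Complex.add_re, Complex.ofReal_re]
      linarith
    have h2 := DD_bound hx hD hu h hz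
    simp only [Complex.add_re, Complex.ofReal_re] at h2
    rw [norm_mul, Complex.norm_real, Real.norm_of_nonneg (by positivity)]
    calc 1 / √r * ‖DD x (α + r)‖ ≤ 1 / √r * (32 * D / √x * (1 / ((α.re + r) * √(α.re + r)))) :=
          mul_le_mul_of_nonneg_left h2 (by positivity)
      _ = _ := by ring
  rw [integral_const_mul, (beta_int hα).2] at h1
  calc 1 / √Real.pi * ‖∫ r in Set.Ioi (0:ℝ), ((1 / √r : ℝ) : ℂ) * DD x (α + r)‖
      ≤ 1 * (32 * D / √x * (2 / α.re)) := by
        apply mul_le_mul _ h1 (norm_nonneg _) zero_le_one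
        rw [div_le_one hsp]
        exact hsp1
    _ = _ := by field_simp; ring

end Pool.Agent.Helper13.Mob
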