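import Pool.Agent.Helper13.MobX

namespace Pool.Agent.Helper13.Mob

open Finset MeasureTheory Set Filter Topology

noncomputable def mr (n : ℕ) : ℝ := ((ArithmeticFunction.moebius n : ℤ) : ℝ)

theorem mu_eq (n : ℕ) : mu n = ((mr n : ℝ) : ℂ) := by
  unfold mu mr
  push_cast
  rfl

noncomputable def cR (R : ℕ) (x : ℝ) : ℝ := ∑ n ∈ Finset.Icc 1 R, mr n * Real.cos (2 * Real.pi * n * x)
noncomputable def sR (R : ℕ) (x : ℝ) : ℝ := ∑ n ∈ Finset.Icc 1 R, mr n * Real.sin (2 * Real.pi * n * x)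

theorem Fexp_parts (R : ℕ) (x : ℝ) : Fexp R x = (cR R x : ℂ) + (sR R x : ℂ) * Complex.I := by
  unfold Fexp cR sR
  push_cast
  rw [Finset.sum_mul, ← Finset.sum_add_distrib]
  apply Finset.sum_congr rfl
  intro n _
  rw [mu_eq, show (2 * Real.pi * n * x * Complex.I : ℂ) = ((2 * Real.pi * n * x : ℝ) : ℂ) * Complex.I by
    push_cast; ring, Complex.exp_mul_I]
  push_cast
  ring

theorem Fexp_re (R : ℕ) (x : ℝ) : (Fexp R x).re = cR R x := by
  rw [Fexp_parts]
  simp

theorem Fexp_im (R : ℕ) (x : ℝ) : (Fexp R x).im = sR R x := by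
  rw [Fexp_parts]
  simp

theorem sqrt_le_lin {a y : ℝ} (ha : 0 < a) (hy : 0 ≤ y) : √y ≤ (1 + a * y) / (2 * √a) := by
  have hs : 0 < √a := Real.sqrt_pos.2 ha
  rw [le_div_iff₀ (by positivity)]
  have h1 : √y * √a = √(a * y) := by
    rw [Real.sqrt_mul ha.le]; ring
  have h2 := Real.sq_sqrt (by positivity : 0 ≤ a * y)
  have h3 : √y * (2 * √a) = 2 * √(a * y) := by rw [← h1]; ring
  rw [h3]
  nlinarith [sq_nonneg (√(a * y) - 1)]

theorem exp_kernel_int {a : ℝ} (ha : 0 < a) :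
    IntegrableOn (fun y => √y * ‖(-(a:ℂ) * Complex.exp (-(a * y)))‖) (Set.Ioi 0) ∧
    ∫ y in Set.Ioi (0:ℝ), √y * ‖(-(a:ℂ) * Complex.exp (-(a * y)))‖ ≤ 1 / √a := by
  have hs : 0 < √a := Real.sqrt_pos.2 ha
  have hnorm : ∀ y : ℝ, ‖(-(a:ℂ) * Complex.exp (-(a * y)))‖ = a * Real.exp (-a * y) := by
    intro y
    rw [norm_mul, norm_neg, Complex.norm_real, Real.norm_of_nonneg ha.le, Complex.norm_exp]
    congr 2
    rw [Complex.neg_re, Complex.re_ofReal_mul, Complex.ofReal_re]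
    ring
  have hmaj : IntegrableOn (fun y : ℝ => (√a / 2) * Real.exp (-a * y) + (a * √a / 2) * (y * Real.exp (-a * y)))
      (Set.Ioi 0) := ((int_exp ha).1.const_mul _).add ((int_y_exp ha).1.const_mul _)
  have hle : ∀ y ∈ Set.Ioi (0:ℝ), √y * ‖(-(a:ℂ) * Complex.exp (-(a * y)))‖ ≤
      (√a / 2) * Real.exp (-a * y) + (a * √a / 2) * (y * Real.exp (-a * y)) := by
    intro y hy
    have hy' : (0:ℝ) < y := hy
    rw [hnorm]
    have h1 := sqrt_le_lin ha hy'.le
    calc √y * (a * Real.exp (-a * y)) ≤ ((1 + a * y) / (2 * √a)) * (a * Real.exp (-a * y)) :=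
          mul_le_mul_of_nonneg_right h1 (by positivity)
      _ = ((√a * √a) / (2 * √a)) * Real.exp (-a * y) + ((√a * √a) * a / (2 * √a)) * (y * Real.exp (-a * y)) := by
          rw [Real.mul_self_sqrt ha.le]
          field_simp
      _ = _ := by
          have e1 : (√a * √a) / (2 * √a) = √a / 2 := by field_simp
          have e2 : (√a * √a) * a / (2 * √a) = a * √a / 2 := by field_simp
          rw [e1, e2]
  have hint : IntegrableOn (fun y => √y * ‖(-(a:ℂ) * Complex.exp (-(a * y)))‖) (Set.Ioi 0) := by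
    refine Integrable.mono' hmaj ?_ ?_
    · apply ContinuousOn.aestronglyMeasurable _ measurableSet_Ioi
      fun_prop
    · rw [ae_restrict_iff' measurableSet_Ioi]
      apply Filter.Eventually.of_forall
      intro y hy
      rw [Real.norm_of_nonneg (by positivity)]
      exact hle y hy
  refine ⟨hint, ?_⟩
  calc _ ≤ ∫ y in Set.Ioi (0:ℝ), ((√a / 2) * Real.exp (-a * y) + (a * √a / 2) * (y * Real.exp (-a * y))) :=
        setIntegral_mono_on hint hmaj measurableSet_Ioi hle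
    _ = 1 / √a := by
        rw [integral_add ((int_exp ha).1.const_mul _) ((int_y_exp ha).1.const_mul _),
          integral_const_mul, integral_const_mul, (int_exp ha).2, (int_y_exp ha).2]
        have : (√a / 2) * (1 / a) + (a * √a / 2) * (1 / a ^ 2) = √a / a := by field_simp; norm_num
        rw [this]
        rw [div_eq_div_iff ha.ne' hs.ne', one_mul, Real.mul_self_sqrt ha.le]

/-- Abel bound for exponentially weighted sums -/
theorem tsum_exp_bound (c : ℕ → ℂ) (hc0 : c 0 = 0) (hc1 : ∀ n, ‖c n‖ ≤ 1) (B : ℝ) (hB0 : 0 ≤ B)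
    (hB : ∀ N : ℕ, ‖∑ n ∈ Finset.Icc 1 N, c n‖ ≤ B * √N) {a : ℝ} (ha : 0 < a)
    {x : ℝ} (hx : 0 < x) :
    ‖∑' n : ℕ, c n * Complex.exp (-(a * ((n * x : ℝ) : ℂ)))‖ ≤ B / √x * (1 / √a) := by
  have hs : Summable fun n : ℕ => c n * Complex.exp (-(a * ((n * x : ℝ) : ℂ))) := by
    apply Summable.of_norm_bounded (exp_geo hx ha)
    intro n
    rw [norm_mul, Complex.norm_exp]
    have : (-((a:ℂ) * ((n * x : ℝ) : ℂ))).re = -(n * x) * a := by
      rw [Complex.neg_re, Complex.re_ofReal_mul, Complex.ofReal_re]; ring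
    rw [this]
    calc ‖c n‖ * Real.exp (-(n * x) * a) ≤ 1 * Real.exp (-(n * x) * a) :=
          mul_le_mul_of_nonneg_right (hc1 n) (Real.exp_pos _).le
      _ = _ := one_mul _
  have h1 : Tendsto (fun N : ℕ => ∑ n ∈ Finset.Icc 1 N, c n * Complex.exp (-(a * ((n * x : ℝ) : ℂ)))) atTop
      (𝓝 (∑' n : ℕ, c n * Complex.exp (-(a * ((n * x : ℝ) : ℂ))))) := by
    have h2 := hs.hasSum.tendsto_sum_nat
    have h3 := h2.comp (tendsto_add_atTop_nat 1)
    refine h3.congr ?_
    intro N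
    simp only [Function.comp_apply]
    rw [Finset.range_eq_Ico, Finset.sum_eq_sum_Ico_succ_bot (by omega)]
    rw [hc0, zero_mul, zero_add]
    rfl
  have hnorm : ∀ y : ℝ, ‖Complex.exp (-((a:ℂ) * y))‖ = Real.exp (-a * y) := by
    intro y
    rw [Complex.norm_exp]
    congr 1
    rw [Complex.neg_re, Complex.re_ofReal_mul, Complex.ofReal_re]
    ring
  have h0 : Tendsto (fun t : ℝ => √t * ‖Complex.exp (-((a:ℂ) * t))‖) atTop (𝓝 0) := by
    have h1 : Tendsto (fun t : ℝ => t ^ (1/2:ℝ) * Real.exp (-a * t)) atTop (𝓝 0) :=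
      tendsto_rpow_mul_exp_neg_mul_atTop_nhds_zero (1/2) a ha
    refine h1.congr ?_
    intro t
    rw [hnorm, Real.sqrt_eq_rpow]
  have h2 : Tendsto (fun N : ℕ => B / √x * (√(N * x) * ‖Complex.exp (-((a:ℂ) * ((N * x : ℝ) : ℂ)))‖ +
      ∫ y in Set.Ioi (0:ℝ), √y * ‖(-(a:ℂ) * Complex.exp (-(a * y)))‖)) atTop
      (𝓝 (B / √x * (0 + ∫ y in Set.Ioi (0:ℝ), √y * ‖(-(a:ℂ) * Complex.exp (-(a * y)))‖))) := by
    apply Tendsto.const_mul
    apply Tendsto.add_const
    exact h0.comp (Tendsto.atTop_mul_const hx tendsto_natCast_atTop_atTop)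
  have hder : ∀ y : ℝ, 0 < y → HasDerivAt (fun y : ℝ => Complex.exp (-((a:ℂ) * y)))
      (-(a:ℂ) * Complex.exp (-(a * y))) y := by
    intro y _
    have g1 : HasDerivAt (fun y : ℝ => -((a:ℂ) * (y:ℂ))) (-((a:ℂ) * 1)) y :=
      ((Complex.ofRealCLM.hasDerivAt (x := y)).const_mul (a:ℂ)).neg
    have g2 := g1.cexp
    have e : -(a:ℂ) * Complex.exp (-(a * y)) = Complex.exp (-((a:ℂ) * y)) * (-((a:ℂ) * 1)) := by ring
    rw [e]
    exact g2
  have h3 := le_of_tendsto_of_tendsto' h1.norm h2 (fun N => abel_sqrt c B hB0 hB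
    (fun y : ℝ => Complex.exp (-((a:ℂ) * y))) (fun y : ℝ => -(a:ℂ) * Complex.exp (-(a * y))) hx
    hder (by fun_prop) (exp_kernel_int ha).1 N)
  rw [zero_add] at h3
  refine h3.trans ?_
  apply mul_le_mul_of_nonneg_left (exp_kernel_int ha).2 (by positivity)

theorem HH_term (x : ℝ) (w : ℂ) (n : ℕ) : mu n * Complex.exp (-((n * x : ℝ) * w)) =
    ((mr n * Real.cos (n * x * w.im) : ℝ) : ℂ) * Complex.exp (-(w.re * ((n * x : ℝ) : ℂ))) -
    (((mr n * Real.sin (n * x * w.im) : ℝ) : ℂ) * Complex.exp (-(w.re * ((n * x : ℝ) : ℂ)))) * Complex.I := by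
  rw [mu_eq]
  have e : Complex.exp (-((n * x : ℝ) * w)) = Complex.exp (-(w.re * ((n * x : ℝ) : ℂ))) *
      Complex.exp (((-(n * x * w.im) : ℝ) : ℂ) * Complex.I) := by
    rw [← Complex.exp_add]
    congr 1
    conv_lhs => rw [← Complex.re_add_im w]
    push_cast
    ring
  rw [e, Complex.exp_mul_I, ← Complex.ofReal_cos, ← Complex.ofReal_sin, Real.cos_neg, Real.sin_neg]
  push_cast
  ring

theorem real_tsum_part (c : ℕ → ℝ) (a x : ℝ) :
    (∑' n : ℕ, ((c n : ℝ) : ℂ) * Complex.exp (-(a * ((n * x : ℝ) : ℂ)))) =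
      ((∑' n : ℕ, c n * Real.exp (-(a * (n * x))) : ℝ) : ℂ) := by
  rw [Complex.ofReal_tsum]
  congr 1
  ext n
  push_cast
  rfl

theorem abs_mr_le (n : ℕ) : |mr n| ≤ 1 := abs_mu_real n

theorem weighted_summable (c : ℕ → ℝ) (hc : ∀ n, |c n| ≤ 1) {a x : ℝ} (ha : 0 < a) (hx : 0 < x) :
    Summable fun n : ℕ => ((c n : ℝ) : ℂ) * Complex.exp (-(a * ((n * x : ℝ) : ℂ))) := by
  apply Summable.of_norm_bounded (exp_geo hx ha)
  intro n
  rw [norm_mul, Complex.norm_exp]
  have : (-((a:ℂ) * ((n * x : ℝ) : ℂ))).re = -(n * x) * a := by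
    rw [Complex.neg_re, Complex.re_ofReal_mul, Complex.ofReal_re]; ring
  rw [this, Complex.norm_real]
  calc ‖c n‖ * Real.exp (-(n * x) * a) ≤ 1 * Real.exp (-(n * x) * a) :=
        mul_le_mul_of_nonneg_right (hc n) (Real.exp_pos _).le
    _ = _ := one_mul _

theorem cos_bd (n : ℕ) (t : ℝ) : |mr n * Real.cos t| ≤ 1 := by
  rw [abs_mul]
  exact mul_le_one₀ (abs_mr_le n) (abs_nonneg _) (Real.abs_cos_le_one _)

theorem sin_bd (n : ℕ) (t : ℝ) : |mr n * Real.sin t| ≤ 1 := by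
  rw [abs_mul]
  exact mul_le_one₀ (abs_mr_le n) (abs_nonneg _) (Real.abs_sin_le_one _)

theorem HH_parts {x : ℝ} (hx : 0 < x) {w : ℂ} (hw : 0 < w.re) : HH x w =
    ((∑' n : ℕ, (mr n * Real.cos (n * x * w.im)) * Real.exp (-(w.re * (n * x))) : ℝ) : ℂ) -
    ((∑' n : ℕ, (mr n * Real.sin (n * x * w.im)) * Real.exp (-(w.re * (n * x))) : ℝ) : ℂ) * Complex.I := by
  rw [← real_tsum_part (fun n => mr n * Real.cos (n * x * w.im)),
    ← real_tsum_part (fun n => mr n * Real.sin (n * x * w.im)), ← tsum_mul_right]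
  have h1 := weighted_summable (fun n => mr n * Real.cos (n * x * w.im)) (fun n => cos_bd n _) hw hx
  have h2 := (weighted_summable (fun n => mr n * Real.sin (n * x * w.im)) (fun n => sin_bd n _) hw hx).mul_right
    Complex.I
  rw [← h1.tsum_sub h2]
  unfold HH
  congr 1
  ext n
  exact HH_term x w n

theorem mr_zero : mr 0 = 0 := by simp [mr]

/-- two-sided bounds of the cosine sums control the real part of `HH` -/
theorem HH_re_bound {C : ℝ} (hC : 0 ≤ C) (h : ∀ R x, |cR R x| ≤ C * √R) {x : ℝ} (hx : 0 < x) {w : ℂ}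
    (hw : 0 < w.re) : |(HH x w).re| ≤ C / √(x * w.re) := by
  have hpi := Real.pi_pos
  have e : (HH x w).re = ∑' n : ℕ, (mr n * Real.cos (n * x * w.im)) * Real.exp (-(w.re * (n * x))) := by
    rw [HH_parts hx hw]
    simp
  rw [e]
  have key := tsum_exp_bound (fun n : ℕ => ((mr n * Real.cos (n * x * w.im) : ℝ) : ℂ)) (by simp [mr_zero])
    (fun n => by rw [Complex.norm_real]; exact cos_bd n _) C hC (by
      intro N
      rw [← Complex.ofReal_sum, Complex.norm_real]
      have h1 := h N (x * w.im / (2 * Real.pi))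
      unfold cR at h1
      have e2 : ∀ n : ℕ, 2 * Real.pi * n * (x * w.im / (2 * Real.pi)) = n * x * w.im := by
        intro n
        field_simp
      simp only [e2] at h1
      exact h1) hw hx
  rw [real_tsum_part, Complex.norm_real, Real.norm_eq_abs] at key
  refine key.trans (le_of_eq ?_)
  rw [Real.sqrt_mul hx.le]
  field_simp

theorem HH_im_bound {C : ℝ} (hC : 0 ≤ C) (h : ∀ R x, |sR R x| ≤ C * √R) {x : ℝ} (hx : 0 < x) {w : ℂ}
    (hw : 0 < w.re) : |(Complex.I * HH x w).re| ≤ C / √(x * w.re) := by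
  have hpi := Real.pi_pos
  have e : (Complex.I * HH x w).re = ∑' n : ℕ, (mr n * Real.sin (n * x * w.im)) * Real.exp (-(w.re * (n * x))) := by
    rw [HH_parts hx hw]
    simp
  rw [e]
  have key := tsum_exp_bound (fun n : ℕ => ((mr n * Real.sin (n * x * w.im) : ℝ) : ℂ)) (by simp [mr_zero])
    (fun n => by rw [Complex.norm_real]; exact sin_bd n _) C hC (by
      intro N
      rw [← Complex.ofReal_sum, Complex.norm_real]
      have h1 := h N (x * w.im / (2 * Real.pi))
      unfold sR at h1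
      have e2 : ∀ n : ℕ, 2 * Real.pi * n * (x * w.im / (2 * Real.pi)) = n * x * w.im := by
        intro n
        field_simp
      simp only [e2] at h1
      exact h1) hw hx
  rw [real_tsum_part, Complex.norm_real, Real.norm_eq_abs] at key
  refine key.trans (le_of_eq ?_)
  rw [Real.sqrt_mul hx.le]
  field_simp

/-- contradiction from a Mertens bound and a directional bound -/
theorem dir_contra {B : ℝ} (hM : MertensBd B) {D : ℝ} (hD : 0 < D) {u : ℂ} (hu : ‖u‖ = 1)
    (h : ∀ x : ℝ, 0 < x → ∀ w : ℂ, 0 < w.re → |(u * HH x w).re| ≤ D / √(x * w.re)) : False := by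
  have hpi := Real.pi_pos
  refine final_contra hM (E := 2 * (64 * D * Real.pi) / √Real.pi) (by positivity) ?_
  intro q hq ε hε
  have hq0 : 0 < q := by linarith
  filter_upwards [self_mem_nhdsWithin] with x hx
  have hx' : (0:ℝ) < x := hx
  have h1 := asum_dir (adm1 hq0).al_pos hx' hD hu (h x hx')
  have h2 := asum_dir (adm2 hq0).al_pos hx' hD hu (h x hx')
  rw [al_L1_re] at h1
  rw [al_L2_re] at h2
  have e : 64 * D / (q / Real.pi) = (64 * D * Real.pi) / q := by field_simp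
  rw [e] at h1 h2
  have := asum_kf_le hq hx' h1 h2
  linarith

theorem cos_two_sided_contra {C : ℝ} (h : ∀ R x, |cR R x| ≤ C * √R) : False := by
  have hC : 0 ≤ C := by
    have := h 1 0
    simp only [Nat.cast_one, Real.sqrt_one, mul_one] at this
    exact (abs_nonneg _).trans this
  have hM : MertensBd C := by
    intro N
    have h1 := h N 0
    rw [← Fexp_zero, Fexp_parts]
    have : sR N 0 = 0 := by unfold sR; simp
    rw [this]
    simpa using h1
  apply dir_contra hM (D := C + 1) (by linarith) (u := 1) (by simp)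
  intro x hx w hw
  rw [one_mul]
  refine (HH_re_bound hC h hx hw).trans ?_
  apply div_le_div_of_nonneg_right (by linarith) (Real.sqrt_nonneg _)

end Pool.Agent.Helper13.Mob
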