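import Pool.Agent.Helper13.MobY

namespace Pool.Agent.Helper13.Mob

open Finset MeasureTheory Set Filter Topology

/-! ### sine sums control the Mertens function -/

noncomputable def gs (R n : ℕ) : ℝ := 1 - Real.sin (Real.pi * n / (2 * R))

theorem gs_anti {R : ℕ} (hR : 1 ≤ R) {n : ℕ} (hn : n < R) : gs R (n + 1) ≤ gs R n := by
  have hRR : (0:ℝ) < R := by exact_mod_cast hR
  have hpi := Real.pi_pos
  unfold gs
  have hn' : ((n + 1 : ℕ) : ℝ) ≤ R := by exact_mod_cast hn
  have : Real.sin (Real.pi * n / (2 * R)) ≤ Real.sin (Real.pi * (n + 1 : ℕ) / (2 * R)) := by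
    apply Real.sin_le_sin_of_le_of_le_pi_div_two
    · have : 0 ≤ Real.pi * n / (2 * R) := by positivity
      linarith
    · rw [div_le_div_iff₀ (by positivity) (by norm_num)]
      nlinarith
    · apply div_le_div_of_nonneg_right _ (by positivity)
      push_cast
      nlinarith
  linarith

theorem gs_top {R : ℕ} (hR : 1 ≤ R) : gs R R = 0 := by
  have hRR : (0:ℝ) < R := by exact_mod_cast hR
  unfold gs
  have : Real.pi * R / (2 * R) = Real.pi / 2 := by field_simp
  rw [this, Real.sin_pi_div_two]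
  ring

theorem gs_le {R : ℕ} (hR : 1 ≤ R) {n : ℕ} (hn : n ≤ R) : gs R n ≤ 1 - n / R := by
  have hRR : (0:ℝ) < R := by exact_mod_cast hR
  have hpi := Real.pi_pos
  have hn' : (n : ℝ) ≤ R := by exact_mod_cast hn
  unfold gs
  have h1 := Real.mul_le_sin (x := Real.pi * n / (2 * R)) (by positivity) (by
    rw [div_le_div_iff₀ (by positivity) (by norm_num)]
    nlinarith)
  have h2 : 2 / Real.pi * (Real.pi * n / (2 * R)) = n / R := by field_simp
  rw [h2] at h1
  linarith

theorem sum_id_tel (g : ℕ → ℝ) (R : ℕ) :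
    ∑ n ∈ Finset.Ico 1 R, (n : ℝ) * (g n - g (n + 1)) = ∑ n ∈ Finset.Ico 1 R, g n - ((R : ℝ) - 1) * g R ∨ R = 0 := by
  induction R with
  | zero => right; rfl
  | succ R ih =>
    left
    rcases Nat.eq_zero_or_pos R with h0 | h0
    · subst h0
      simp
    · rcases ih with ih | ih
      · rw [Finset.sum_Ico_succ_top (by omega), Finset.sum_Ico_succ_top (by omega), ih]
        push_cast
        ring
      · omega

theorem sum_tel (g : ℕ → ℝ) {R : ℕ} (hR : 1 ≤ R) :
    ∑ n ∈ Finset.Ico 1 R, (g n - g (n + 1)) = g 1 - g R := by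
  induction R with
  | zero => omega
  | succ R ih =>
    rcases Nat.eq_zero_or_pos R with h0 | h0
    · subst h0
      simp
    · rw [Finset.sum_Ico_succ_top (by omega), ih h0]
      ring

theorem sum_lin {R : ℕ} (hR : 1 ≤ R) : ∑ n ∈ Finset.Ico 1 R, (1 - (n : ℝ) / R) ≤ R / 2 := by
  have hRR : (0:ℝ) < R := by exact_mod_cast hR
  have h1 : ∀ S : ℕ, ∑ n ∈ Finset.Ico 1 (S + 1), (1 - (n : ℝ) / R) = S - S * (S + 1) / (2 * R) := by
    intro S
    induction S with
    | zero => simp
    | succ S ih =>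
      rw [Finset.sum_Ico_succ_top (by omega), ih]
      push_cast
      field_simp
      ring
  obtain ⟨S, rfl⟩ : ∃ S, R = S + 1 := ⟨R - 1, by omega⟩
  rw [h1 S]
  push_cast at *
  have : (S : ℝ) * (S + 1) / (2 * (S + 1)) = S / 2 := by field_simp
  rw [this]
  linarith

theorem gs_weight {R : ℕ} (hR : 1 ≤ R) :
    ∑ n ∈ Finset.Ico 1 R, √n * (gs R n - gs R (n + 1)) ≤ (3 / 4) * √R := by
  have hRR : (0:ℝ) < R := by exact_mod_cast hR
  have hs : 0 < √(R : ℝ) := Real.sqrt_pos.2 hRR
  have h1 : ∀ n ∈ Finset.Ico 1 R, √n * (gs R n - gs R (n + 1)) ≤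
      √R * ((1 / 2) * (gs R n - gs R (n + 1)) + (1 / (2 * R)) * ((n : ℝ) * (gs R n - gs R (n + 1)))) := by
    intro n hn
    have hD : 0 ≤ gs R n - gs R (n + 1) := sub_nonneg.2 (gs_anti hR (Finset.mem_Ico.1 hn).2)
    have h2 : √(n : ℝ) ≤ √R * (1 / 2 + n / (2 * R)) := by
      have h3 := sqrt_le_lin (a := 1 / R) (y := n) (by positivity) (Nat.cast_nonneg n)
      refine h3.trans (le_of_eq ?_)
      rw [Real.sqrt_div (by norm_num), Real.sqrt_one]
      field_simp
    calc √n * (gs R n - gs R (n + 1)) ≤ (√R * (1 / 2 + n / (2 * R))) * (gs R n - gs R (n + 1)) :=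
          mul_le_mul_of_nonneg_right h2 hD
      _ = _ := by field_simp
  refine (Finset.sum_le_sum h1).trans ?_
  rw [← Finset.mul_sum, Finset.sum_add_distrib, ← Finset.mul_sum, ← Finset.mul_sum, sum_tel _ hR, gs_top hR, sub_zero]
  have h2 : ∑ n ∈ Finset.Ico 1 R, (n : ℝ) * (gs R n - gs R (n + 1)) ≤ R / 2 := by
    rcases sum_id_tel (gs R) R with h | h
    · rw [h, gs_top hR, mul_zero, sub_zero]
      refine (Finset.sum_le_sum (fun n hn => gs_le hR (Finset.mem_Ico.1 hn).2.le)).trans ?_
      exact sum_lin hR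
    · omega
  have h3 : gs R 1 ≤ 1 := by
    refine (gs_le hR hR).trans ?_
    have : (0:ℝ) ≤ (1 : ℕ) / R := by positivity
    linarith
  calc √R * ((1 / 2) * gs R 1 + (1 / (2 * R)) * ∑ n ∈ Finset.Ico 1 R, (n : ℝ) * (gs R n - gs R (n + 1)))
      ≤ √R * ((1 / 2) * 1 + (1 / (2 * R)) * (R / 2)) := by
        apply mul_le_mul_of_nonneg_left _ hs.le
        apply add_le_add
        · exact mul_le_mul_of_nonneg_left h3 (by norm_num)
        · exact mul_le_mul_of_nonneg_left h2 (by positivity)
    _ = _ := by field_simp; ring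

theorem Mert_real (N : ℕ) : ‖∑ n ∈ Finset.Icc 1 N, mu n‖ = |∑ n ∈ Finset.Icc 1 N, mr n| := by
  have : ∑ n ∈ Finset.Icc 1 N, mu n = ((∑ n ∈ Finset.Icc 1 N, mr n : ℝ) : ℂ) := by
    push_cast
    apply Finset.sum_congr rfl
    intro n _
    exact mu_eq n
  rw [this, Complex.norm_real, Real.norm_eq_abs]

theorem parts_real (c : ℕ → ℝ) (f : ℕ → ℝ) (N : ℕ) :
    ∑ n ∈ Finset.Icc 1 N, c n * f n = (∑ n ∈ Finset.Icc 1 N, c n) * f N
      - ∑ n ∈ Finset.Ico 1 N, (∑ k ∈ Finset.Icc 1 n, c k) * (f (n + 1) - f n) := by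
  induction N with
  | zero => simp
  | succ N ih =>
    rcases Nat.eq_zero_or_pos N with h0 | h0
    · subst h0
      simp
    · rw [Finset.sum_Icc_succ_top (by omega), Finset.sum_Icc_succ_top (by omega),
        Finset.sum_Ico_succ_top (by omega), ih]
      ring

theorem sin_mertens {C : ℝ} (h : ∀ R x, |sR R x| ≤ C * √R) : MertensBd (4 * C) := by
  have hC : 0 ≤ C := by
    have := h 1 0
    simp only [Nat.cast_one, Real.sqrt_one, mul_one] at this
    exact (abs_nonneg _).trans this
  have hpi := Real.pi_pos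
  have main : ∀ N : ℕ, |∑ n ∈ Finset.Icc 1 N, mr n| ≤ 4 * C * √N := by
    intro N
    induction N using Nat.strong_induction_on with
    | _ R ih =>
      rcases Nat.eq_zero_or_pos R with h0 | h0
      · subst h0
        simp
      · have hRR : (0:ℝ) < R := by exact_mod_cast h0
        have hs : 0 < √(R : ℝ) := Real.sqrt_pos.2 hRR
        have e1 : ∑ n ∈ Finset.Icc 1 R, mr n = sR R (1 / (4 * R)) + ∑ n ∈ Finset.Icc 1 R, mr n * gs R n := by
          unfold sR
          rw [← Finset.sum_add_distrib]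
          apply Finset.sum_congr rfl
          intro n _
          unfold gs
          have : 2 * Real.pi * n * (1 / (4 * R)) = Real.pi * n / (2 * R) := by field_simp; ring
          rw [this]
          ring
        have e2 : |∑ n ∈ Finset.Icc 1 R, mr n * gs R n| ≤ 3 * C * √R := by
          rw [parts_real, gs_top h0, mul_zero, zero_sub, abs_neg]
          refine (Finset.abs_sum_le_sum_abs _ _).trans ?_
          have h3 : ∀ n ∈ Finset.Ico 1 R, |(∑ k ∈ Finset.Icc 1 n, mr k) * (gs R (n + 1) - gs R n)| ≤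
              4 * C * (√n * (gs R n - gs R (n + 1))) := by
            intro n hn
            have hD : 0 ≤ gs R n - gs R (n + 1) := sub_nonneg.2 (gs_anti h0 (Finset.mem_Ico.1 hn).2)
            rw [abs_mul, abs_sub_comm, abs_of_nonneg hD]
            calc _ ≤ (4 * C * √n) * (gs R n - gs R (n + 1)) :=
                  mul_le_mul_of_nonneg_right (ih n (Finset.mem_Ico.1 hn).2) hD
              _ = _ := by ring
          refine (Finset.sum_le_sum h3).trans ?_
          rw [← Finset.mul_sum]
          calc 4 * C * ∑ n ∈ Finset.Ico 1 R, √n * (gs R n - gs R (n + 1)) ≤ 4 * C * ((3 / 4) * √R) :=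
                mul_le_mul_of_nonneg_left (gs_weight h0) (by positivity)
            _ = _ := by ring
        rw [e1]
        refine (abs_add_le _ _).trans ?_
        have := h R (1 / (4 * R))
        linarith
  intro N
  rw [Mert_real]
  exact main N

theorem sin_two_sided_contra {C : ℝ} (h : ∀ R x, |sR R x| ≤ C * √R) : False := by
  have hC : 0 ≤ C := by
    have := h 1 0
    simp only [Nat.cast_one, Real.sqrt_one, mul_one] at this
    exact (abs_nonneg _).trans this
  apply dir_contra (sin_mertens h) (D := C + 1) (by linarith) (u := Complex.I) (by simp)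
  intro x hx w hw
  refine (HH_im_bound hC h hx hw).trans ?_
  apply div_le_div_of_nonneg_right (by linarith) (Real.sqrt_nonneg _)

/-! ### one-sided bounds for the cosine sums -/

/-- odd part -/
noncomputable def oR (R : ℕ) (x : ℝ) : ℝ :=
  ∑ n ∈ (Finset.Icc 1 R).filter Odd, mr n * Real.cos (2 * Real.pi * n * x)

theorem mr_two_mul (m : ℕ) : mr (2 * m) = if Odd m then -mr m else 0 := by
  unfold mr
  split_ifs with hm
  · have hc : Nat.Coprime 2 m := (Nat.coprime_two_left).2 hm
    rw [ArithmeticFunction.isMultiplicative_moebius.map_mul_of_coprime hc,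
      ArithmeticFunction.moebius_apply_prime Nat.prime_two]
    push_cast
    ring
  · rw [Nat.not_odd_iff_even] at hm
    obtain ⟨k, hk⟩ := hm
    rw [ArithmeticFunction.moebius_eq_zero_of_not_squarefree]
    · simp
    · intro hsq
      have h2 : 2 * 2 ∣ 2 * m := by
        rw [hk]
        exact ⟨k, by ring⟩
      have := hsq 2 h2
      exact absurd this (by decide)

theorem even_sum (R : ℕ) (f : ℕ → ℝ) :
    ∑ n ∈ (Finset.Icc 1 R).filter (fun n => ¬ Odd n), f n = ∑ m ∈ Finset.Icc 1 (R / 2), f (2 * m) := by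
  symm
  apply Finset.sum_nbij (fun m => 2 * m)
  · intro m hm
    rw [Finset.mem_Icc] at hm
    rw [Finset.mem_filter, Finset.mem_Icc]
    refine ⟨⟨by omega, by omega⟩, ?_⟩
    rw [Nat.not_odd_iff_even]
    exact even_two_mul m
  · intro a _ b _ hab
    simpa using hab
  · intro n hn
    rw [Finset.mem_coe, Finset.mem_filter, Finset.mem_Icc, Nat.not_odd_iff_even] at hn
    obtain ⟨k, hk⟩ := hn.2
    refine ⟨k, ?_, by simp only; omega⟩
    rw [Finset.mem_coe, Finset.mem_Icc]
    omega
  · intro m _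
    rfl

theorem cR_odd (R : ℕ) (x : ℝ) : cR R x = oR R x - oR (R / 2) (2 * x) := by
  unfold cR oR
  rw [← Finset.sum_filter_add_sum_filter_not (Finset.Icc 1 R) Odd, even_sum]
  have : ∑ m ∈ Finset.Icc 1 (R / 2), mr (2 * m) * Real.cos (2 * Real.pi * ((2 * m : ℕ) : ℝ) * x) =
      -∑ m ∈ (Finset.Icc 1 (R / 2)).filter Odd, mr m * Real.cos (2 * Real.pi * m * (2 * x)) := by
    rw [← Finset.sum_neg_distrib, Finset.sum_filter]
    apply Finset.sum_congr rfl
    intro m _
    rw [mr_two_mul]
    split_ifs with hm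
    · have : 2 * Real.pi * ((2 * m : ℕ) : ℝ) * x = 2 * Real.pi * m * (2 * x) := by push_cast; ring
      rw [this]
      ring
    · ring
  rw [this]
  ring

theorem oR_half (R : ℕ) (x : ℝ) : oR R (x + 1/2) = -oR R x := by
  unfold oR
  rw [← Finset.sum_neg_distrib]
  apply Finset.sum_congr rfl
  intro n hn
  obtain ⟨k, hk⟩ := (Finset.mem_filter.1 hn).2
  have e : 2 * Real.pi * n * (x + 1/2) = 2 * Real.pi * n * x + Real.pi + k * (2 * Real.pi) := by
    rw [hk]
    push_cast
    ring
  rw [e, Real.cos_add_nat_mul_two_pi, Real.cos_add_pi]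
  ring

theorem sqrt_half_le (R : ℕ) : √((R / 2 : ℕ) : ℝ) ≤ (3 / 4) * √R := by
  have h1 : ((R / 2 : ℕ) : ℝ) ≤ R / 2 := Nat.cast_div_le
  have h2 : (R : ℝ) / 2 ≤ (3/4) ^ 2 * R := by
    have : (0:ℝ) ≤ R := Nat.cast_nonneg R
    linarith
  calc √((R / 2 : ℕ) : ℝ) ≤ √((3/4) ^ 2 * R) := Real.sqrt_le_sqrt (h1.trans h2)
    _ = _ := by rw [Real.sqrt_mul (by positivity), Real.sqrt_sq (by norm_num)]

theorem cos_one_sided {K : ℝ} (hK : 0 ≤ K) {η : ℝ} (hη : η = 1 ∨ η = -1)
    (h : ∀ R x, η * cR R x ≤ K * √R) : ∀ R x, |cR R x| ≤ 7 * K * √R := by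
  have h1 : ∀ R : ℕ, ∀ x : ℝ, η * oR R x ≤ 4 * K * √R := by
    intro R
    induction R using Nat.strong_induction_on with
    | _ R ih =>
      intro x
      rcases Nat.eq_zero_or_pos R with h0 | h0
      · subst h0
        simp [oR]
      · have e := cR_odd R x
        have h2 := ih (R / 2) (by omega) (2 * x)
        have h3 := h R x
        have h4 := mul_le_mul_of_nonneg_left (sqrt_half_le R) (by positivity : 0 ≤ 4 * K)
        rw [e, mul_sub] at h3
        linarith
  have h2 : ∀ R : ℕ, ∀ x : ℝ, |oR R x| ≤ 4 * K * √R := by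
    intro R x
    have a1 := h1 R x
    have a2 := h1 R (x + 1/2)
    rw [oR_half] at a2
    rw [abs_le]
    rcases hη with hh | hh <;> rw [hh] at a1 a2 <;> constructor <;> linarith
  intro R x
  rw [cR_odd]
  have b1 := h2 R x
  have b2 := h2 (R / 2) (2 * x)
  have b3 := mul_le_mul_of_nonneg_left (sqrt_half_le R) (by positivity : 0 ≤ 4 * K)
  refine (abs_sub _ _).trans ?_
  linarith

/-- every direction -/
theorem direction_contra {K : ℝ} (hK : 0 ≤ K) (φ : ℝ)
    (h : ∀ R : ℕ, ∀ x : ℝ, (Complex.exp (φ * Complex.I) * Fexp R x).re ≤ K * √R) : False := by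
  have e : ∀ R : ℕ, ∀ x : ℝ, (Complex.exp (φ * Complex.I) * Fexp R x).re =
      Real.cos φ * cR R x - Real.sin φ * sR R x := by
    intro R x
    rw [Complex.mul_re, Complex.exp_ofReal_mul_I_re, Complex.exp_ofReal_mul_I_im, Fexp_re, Fexp_im]
  have hceven : ∀ R : ℕ, ∀ x : ℝ, cR R (-x) = cR R x := by
    intro R x
    unfold cR
    apply Finset.sum_congr rfl
    intro n _
    rw [mul_neg, Real.cos_neg]
  have hsodd : ∀ R : ℕ, ∀ x : ℝ, sR R (-x) = -sR R x := by
    intro R x
    unfold sR
    rw [← Finset.sum_neg_distrib]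
    apply Finset.sum_congr rfl
    intro n _
    rw [mul_neg, Real.sin_neg]
    ring
  by_cases hc : Real.cos φ = 0
  · -- sine case
    have hs : Real.sin φ = 1 ∨ Real.sin φ = -1 := by
      have := Real.sin_sq_add_cos_sq φ
      rw [hc] at this
      have h1 : (Real.sin φ - 1) * (Real.sin φ + 1) = 0 := by nlinarith
      rcases mul_eq_zero.1 h1 with h2 | h2
      · left; linarith
      · right; linarith
    apply sin_two_sided_contra (C := K)
    intro R x
    have a1 := h R x
    have a2 := h R (-x)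
    rw [e, hc] at a1 a2
    rw [hsodd] at a2
    rw [abs_le]
    rcases hs with hh | hh <;> rw [hh] at a1 a2 <;> constructor <;> linarith
  · have hc' : 0 < |Real.cos φ| := abs_pos.2 hc
    have key : ∀ R : ℕ, ∀ x : ℝ, Real.cos φ * cR R x ≤ K * √R := by
      intro R x
      have a1 := h R x
      have a2 := h R (-x)
      rw [e] at a1 a2
      rw [hsodd, hceven] at a2
      linarith
    rcases lt_or_gt_of_ne hc with h1 | h1
    · apply cos_two_sided_contra (C := 7 * (K / |Real.cos φ|))
      apply cos_one_sided (by positivity) (η := -1) (Or.inr rfl)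
      intro R x
      rw [abs_of_neg h1]
      have a := key R x
      rw [div_mul_eq_mul_div, le_div_iff₀ (by linarith)]
      linarith
    · apply cos_two_sided_contra (C := 7 * (K / |Real.cos φ|))
      apply cos_one_sided (by positivity) (η := 1) (Or.inl rfl)
      intro R x
      rw [abs_of_pos h1]
      have a := key R x
      rw [div_mul_eq_mul_div, le_div_iff₀ h1]
      linarith

theorem Fexp_le (R : ℕ) (x : ℝ) : ‖Fexp R x‖ ≤ R := by
  unfold Fexp
  refine (norm_sum_le _ _).trans ?_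
  calc ∑ n ∈ Finset.Icc 1 R, ‖mu n * Complex.exp (2 * Real.pi * n * x * Complex.I)‖
      ≤ ∑ n ∈ Finset.Icc 1 R, (1:ℝ) := by
        apply Finset.sum_le_sum
        intro n _
        rw [norm_mul, show (2 * Real.pi * n * x * Complex.I : ℂ) = ((2 * Real.pi * n * x : ℝ) : ℂ) * Complex.I by
          push_cast; ring, Complex.norm_exp_ofReal_mul_I, mul_one]
        exact norm_mu_le n
    _ = R := by simp

theorem every_direction (K φ : ℝ) :
    {R : ℕ | ∃ x : ℝ, K * √R < (Complex.exp (φ * Complex.I) * Fexp R x).re}.Infinite := by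
  by_contra hcon
  rw [Set.not_infinite] at hcon
  obtain ⟨R₀, hR₀⟩ := hcon.bddAbove
  apply direction_contra (K := max K (R₀ : ℝ)) ((Nat.cast_nonneg R₀).trans (le_max_right _ _)) φ
  intro R x
  rcases le_or_gt R R₀ with h1 | h1
  · have h2 : (Complex.exp (φ * Complex.I) * Fexp R x).re ≤ R := by
      refine (Complex.re_le_norm _).trans ?_
      rw [norm_mul, Complex.norm_exp_ofReal_mul_I, one_mul]
      exact Fexp_le R x
    rcases Nat.eq_zero_or_pos R with h0 | h0
    · subst h0
      simpa using h2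
    · have h3 : (1:ℝ) ≤ √R := by
        rw [Real.one_le_sqrt]
        exact_mod_cast h0
      have h4 : (R:ℝ) ≤ R₀ := by exact_mod_cast h1
      have h5 : (0:ℝ) ≤ R₀ := Nat.cast_nonneg R₀
      calc _ ≤ (R:ℝ) := h2
        _ ≤ R₀ * √R := by nlinarith
        _ ≤ _ := mul_le_mul_of_nonneg_right (le_max_right _ _) (Real.sqrt_nonneg _)
  · have h2 : R ∉ {R : ℕ | ∃ x : ℝ, K * √R < (Complex.exp (φ * Complex.I) * Fexp R x).re} := by
      intro hm
      exact absurd (hR₀ hm) (by omega)
    have h3 : ∀ x : ℝ, (Complex.exp (φ * Complex.I) * Fexp R x).re ≤ K * √R := by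
      intro x
      by_contra hx
      rw [not_le] at hx
      exact h2 ⟨x, hx⟩
    refine (h3 x).trans ?_
    exact mul_le_mul_of_nonneg_right (le_max_left _ _) (Real.sqrt_nonneg _)

end Pool.Agent.Helper13.Mob
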