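import Mathlib

/-!
# Ramsey-like cardinals: definitions

`H θ`, elementary substructures of `H θ`, `M`-ultrafilters, and the two large cardinal notions
`Ramsey CC` and `Ramsey Normal`.
-/

universe u

namespace Pool.Agent.Helper13.Ram

open Cardinal Ordinal ZFSet FirstOrder FirstOrder.Language

/-- The relation symbols of the language of set theory: one binary symbol. -/
inductive MemRel : ℕ → Type
  | mem : MemRel 2

/-- The first-order language of set theory. -/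
def LSet : Language := ⟨fun _ => Empty, MemRel⟩

/-- `H(θ)`: the sets that are hereditarily of cardinality less than `θ`. -/
def H (θ : Cardinal.{u}) : Set ZFSet.{u} := {x | x.Hereditarily (fun y => y.card < θ)}

/-- `H(θ)` as a structure for the language of set theory, with the true membership relation. -/
instance instStructureH (θ : Cardinal.{u}) : LSet.Structure (H θ) where
  funMap := fun f => f.elim
  RelMap := fun {_} r => match r with
    | .mem => fun v => (v 0).1 ∈ (v 1).1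

/-- The underlying set of sets of an elementary substructure of `H(θ)`. -/
def asSet {θ : Cardinal.{u}} (M : LSet.ElementarySubstructure (H θ)) : Set ZFSet.{u} :=
  {x | ∃ h : x ∈ H θ, (⟨x, h⟩ : H θ) ∈ M}

/-- `U` is an ultrafilter on the Boolean algebra `P(K) ∩ M`. -/
structure IsMUltrafilter (K : ZFSet.{u}) (M U : Set ZFSet.{u}) : Prop where
  sub : ∀ A ∈ U, A ∈ M ∧ A ⊆ K
  univ : K ∈ U
  empty : ∅ ∉ U
  inter : ∀ A ∈ U, ∀ B ∈ U, A ∩ B ∈ U
  up : ∀ A ∈ U, ∀ B ∈ M, B ⊆ K → A ⊆ B → B ∈ U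
  ultra : ∀ A ∈ M, A ⊆ K → A ∈ U ∨ K \ A ∈ U

/-- The diagonal intersection `{β ∈ K : β ∈ s(α) for all α < β}` of the sequence `s`. -/
def diag (K s : ZFSet.{u}) : ZFSet.{u} :=
  K.sep (fun β => ∀ α ∈ β, ∀ A, pair α A ∈ s → β ∈ A)

/-- `U` is `M`-normal. -/
def MNormal (K : ZFSet.{u}) (M U : Set ZFSet.{u}) : Prop :=
  ∀ s ∈ M, IsFunc K (powerset K) s → (∀ α A, pair α A ∈ s → A ∈ U) → diag K s ∈ U

/-- `U` is `κ`-amenable for `M`. -/
def Amenable (K : ZFSet.{u}) (M U : Set ZFSet.{u}) : Prop :=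
  ∀ s ∈ M, IsFunc K (powerset K) s → K.sep (fun α => ∃ A ∈ U, pair α A ∈ s) ∈ M

/-- `C` is closed and unbounded in `κ`. -/
def IsClubIn (κ : Cardinal.{u}) (C : Set Ordinal.{u}) : Prop :=
  C ⊆ Set.Iio κ.ord ∧ (∀ α < κ.ord, ∃ β ∈ C, α < β) ∧
    ∀ δ < κ.ord, δ ≠ 0 → (∀ α < δ, ∃ β ∈ C, α < β ∧ β < δ) → δ ∈ C

/-- `S` is stationary in `κ`. -/
def IsStatIn (κ : Cardinal.{u}) (S : Set Ordinal.{u}) : Prop :=
  ∀ C, IsClubIn κ C → (S ∩ C).Nonempty

/-- `U` is countably complete: every countable subfamily of `U` has nonempty intersection. -/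
def CC (_κ : Cardinal.{u}) (U : Set ZFSet.{u}) : Prop :=
  ∀ A : ℕ → ZFSet.{u}, (∀ n, A n ∈ U) → ∃ β, ∀ n, β ∈ A n

/-- `U` is normal: the diagonal intersection of some enumeration of `U` in order type `κ` is
stationary in `κ`. -/
def Normal (κ : Cardinal.{u}) (U : Set ZFSet.{u}) : Prop :=
  ∃ s : ZFSet.{u}, IsFunc κ.ord.toZFSet (powerset κ.ord.toZFSet) s ∧
    (∀ A, A ∈ U ↔ ∃ α, pair α A ∈ s) ∧ IsStatIn κ {β | β.toZFSet ∈ diag κ.ord.toZFSet s}

/-- `κ` is `Ψ^θ_ω`-Ramsey. -/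
def RamseyAt (Ψ : Cardinal.{u} → Set ZFSet.{u} → Prop) (θ κ : Cardinal.{u}) : Prop :=
  ∀ x ∈ H θ, ∃ (M : LSet.ElementarySubstructure (H θ)) (U : Set ZFSet.{u}),
    x ∈ asSet M ∧ #M = Cardinal.lift.{u + 1} κ ∧ (∀ α ≤ κ.ord, α.toZFSet ∈ asSet M) ∧
    IsMUltrafilter κ.ord.toZFSet (asSet M) U ∧ (∀ A ∈ U, A.card = κ) ∧
    MNormal κ.ord.toZFSet (asSet M) U ∧ Amenable κ.ord.toZFSet (asSet M) U ∧ Ψ κ U

/-- `κ` is an uncountable regular cardinal that is `Ψ^θ_ω`-Ramsey for every regular `θ > κ`. -/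
def Ramsey (Ψ : Cardinal.{u} → Set ZFSet.{u} → Prop) (κ : Cardinal.{u}) : Prop :=
  ℵ₀ < κ ∧ κ.IsRegular ∧ ∀ θ : Cardinal.{u}, θ.IsRegular → κ < θ → RamseyAt Ψ θ κ

end Pool.Agent.Helper13.Ram
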