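import Pool.Agent.Helper13.RamA

/-!
# Basic facts on `H θ` and closure of elementary substructures under application
-/

universe u

namespace Pool.Agent.Helper13.Ram

open Cardinal Ordinal ZFSet FirstOrder FirstOrder.Language

theorem mem_H_iff {θ : Cardinal.{u}} {x : ZFSet.{u}} :
    x ∈ H θ ↔ x.card < θ ∧ ∀ y ∈ x, y ∈ H θ := by
  unfold H
  simp only [Set.mem_ofPred_eq]
  rw [hereditarily_iff]

theorem H_trans {θ : Cardinal.{u}} {x y : ZFSet.{u}} (hx : x ∈ H θ) (hy : y ∈ x) : y ∈ H θ :=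
  (mem_H_iff.1 hx).2 y hy

theorem H_subset {θ : Cardinal.{u}} {x y : ZFSet.{u}} (hx : x ∈ H θ) (hy : y ⊆ x) : y ∈ H θ :=
  mem_H_iff.2 ⟨(card_mono hy).trans_lt (mem_H_iff.1 hx).1, fun z hz => H_trans hx (hy hz)⟩

theorem ord_mem_H {θ : Cardinal.{u}} {α : Ordinal.{u}} (h : α < θ.ord) : α.toZFSet ∈ H θ := by
  induction α using WellFoundedLT.induction with
  | _ α ih =>
    refine mem_H_iff.2 ⟨?_, fun y hy => ?_⟩
    · rw [card_toZFSet]
      exact lt_ord.1 h
    · obtain ⟨β, hβ, rfl⟩ := mem_toZFSet_iff.1 hy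
      exact ih β hβ (hβ.trans h)

theorem exists_H (x : ZFSet.{u}) (κ : Cardinal.{u}) (hκ : ℵ₀ ≤ κ) :
    ∃ θ : Cardinal.{u}, θ.IsRegular ∧ κ < θ ∧ x ∈ H θ := by
  obtain ⟨o, ho⟩ := exists_mem_vonNeumann x
  refine ⟨Order.succ (max κ (card (V_ o))), isRegular_succ (hκ.trans (le_max_left _ _)),
    Order.lt_succ_of_le (le_max_left _ _), ?_⟩
  have key : ∀ y : ZFSet.{u}, y ∈ V_ o → y ∈ H (Order.succ (max κ (card (V_ o)))) := by
    intro y
    induction y using ZFSet.inductionOn with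
    | _ y ih =>
      intro hy
      refine mem_H_iff.2 ⟨?_, fun z hz => ih z hz ?_⟩
      · refine Order.lt_succ_of_le ((card_mono ?_).trans (le_max_right _ _))
        exact isTransitive_vonNeumann o y hy
      · exact (isTransitive_vonNeumann o).mem_trans hz hy
  exact key x ho

theorem empty_mem_H {θ : Cardinal.{u}} (hθ : ℵ₀ ≤ θ) : (∅ : ZFSet.{u}) ∈ H θ :=
  mem_H_iff.2 ⟨by simpa using (aleph0_pos.trans_le hθ), by simp⟩

theorem singleton_mem_H {θ : Cardinal.{u}} (hθ : ℵ₀ ≤ θ) {x : ZFSet.{u}} (hx : x ∈ H θ) :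
    ({x} : ZFSet.{u}) ∈ H θ :=
  mem_H_iff.2 ⟨by simpa using (one_lt_aleph0.trans_le hθ), by simpa using hx⟩

theorem pair_set_mem_H {θ : Cardinal.{u}} (hθ : ℵ₀ ≤ θ) {x y : ZFSet.{u}} (hx : x ∈ H θ)
    (hy : y ∈ H θ) : ({x, y} : ZFSet.{u}) ∈ H θ := by
  refine mem_H_iff.2 ⟨?_, ?_⟩
  · refine (card_insert_le).trans_lt ?_
    rw [card_singleton, one_add_one_eq_two]
    exact (natCast_lt_aleph0 (n := 2)).trans_le hθ
  · intro z hz
    rcases mem_pair.1 hz with rfl | rfl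
    · exact hx
    · exact hy

theorem opair_mem_H {θ : Cardinal.{u}} (hθ : ℵ₀ ≤ θ) {x y : ZFSet.{u}} (hx : x ∈ H θ)
    (hy : y ∈ H θ) : pair x y ∈ H θ :=
  pair_set_mem_H hθ (singleton_mem_H hθ hx) (pair_set_mem_H hθ hx hy)

/-- The membership symbol. -/
def memR : LSet.Relations 2 := MemRel.mem

theorem relMap_memR {θ : Cardinal.{u}} (v : Fin 2 → H θ) :
    Structure.RelMap memR v ↔ (v 0).1 ∈ (v 1).1 := Iff.rfl

/-- Membership as a formula. -/
def memF {α : Type} {n : ℕ} (s t : LSet.Term (α ⊕ Fin n)) : LSet.BoundedFormula α n :=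
  Relations.boundedFormula₂ memR s t

theorem realize_memF {α : Type} {n : ℕ} {θ : Cardinal.{u}} (s t : LSet.Term (α ⊕ Fin n))
    (v : α → H θ) (xs : Fin n → H θ) :
    (memF s t).Realize v xs ↔
      (s.realize (Sum.elim v xs)).1 ∈ (t.realize (Sum.elim v xs)).1 := by
  unfold memF
  rw [BoundedFormula.realize_rel₂, relMap_memR]
  rfl

/-- The formula `∃ p a b, p ∈ f ∧ p = {a, b} ∧ a = {x} ∧ b = {x, y}`, where `f` and `x` are the
free variables `0`, `1`, and `y` is the bound variable `0`. -/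
def appB : LSet.BoundedFormula (Fin 2) 1 :=
  ∃' ∃' ∃' (memF (&1) (Term.var (Sum.inl 0)) ⊓ (memF (&2) (&1) ⊓ (memF (&3) (&1) ⊓
    ((∀' (memF (&4) (&1) ⟹ ((&4 =' &2) ⊔ (&4 =' &3)))) ⊓
    ((∀' (memF (&4) (&2) ⇔ (&4 =' (Term.var (Sum.inl 1))))) ⊓
    (∀' (memF (&4) (&3) ⇔ ((&4 =' (Term.var (Sum.inl 1))) ⊔ (&4 =' &0)))))))))

theorem realize_appB {θ : Cardinal.{u}} (v : Fin 2 → H θ) (w : Fin 1 → H θ) :
    appB.Realize v w ↔ ∃ p a b : H θ, p.1 ∈ (v 0).1 ∧ a.1 ∈ p.1 ∧ b.1 ∈ p.1 ∧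
      (∀ z : H θ, z.1 ∈ p.1 → z = a ∨ z = b) ∧ (∀ z : H θ, z.1 ∈ a.1 ↔ z = v 1) ∧
      (∀ z : H θ, z.1 ∈ b.1 ↔ z = v 1 ∨ z = w 0) := by
  unfold appB
  simp only [BoundedFormula.realize_ex, BoundedFormula.realize_inf, realize_memF,
    BoundedFormula.realize_all, BoundedFormula.realize_imp, BoundedFormula.realize_sup,
    BoundedFormula.realize_iff, BoundedFormula.realize_bdEqual]
  rfl

theorem realize_appB_iff {θ : Cardinal.{u}} (hθ : ℵ₀ ≤ θ) (v : Fin 2 → H θ) (w : Fin 1 → H θ) :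
    appB.Realize v w ↔ pair (v 1).1 (w 0).1 ∈ (v 0).1 := by
  rw [realize_appB]
  constructor
  · rintro ⟨p, a, b, hp, ha, hb, hz, ha', hb'⟩
    have e1 : a.1 = {(v 1).1} := by
      ext z
      rw [mem_singleton]
      constructor
      · intro h
        exact congrArg Subtype.val ((ha' ⟨z, H_trans a.2 h⟩).1 h)
      · rintro rfl
        exact (ha' (v 1)).2 rfl
    have e2 : b.1 = {(v 1).1, (w 0).1} := by
      ext z
      rw [mem_pair]
      constructor
      · intro h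
        rcases (hb' ⟨z, H_trans b.2 h⟩).1 h with h' | h'
        · exact Or.inl (congrArg Subtype.val h')
        · exact Or.inr (congrArg Subtype.val h')
      · rintro (rfl | rfl)
        · exact (hb' (v 1)).2 (Or.inl rfl)
        · exact (hb' (w 0)).2 (Or.inr rfl)
    have e3 : p.1 = pair (v 1).1 (w 0).1 := by
      rw [pair, ← e1, ← e2]
      ext z
      rw [mem_pair]
      constructor
      · intro h
        rcases hz ⟨z, H_trans p.2 h⟩ h with h' | h'
        · exact Or.inl (congrArg Subtype.val h')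
        · exact Or.inr (congrArg Subtype.val h')
      · rintro (rfl | rfl)
        · exact ha
        · exact hb
    rw [← e3]
    exact hp
  · intro h
    refine ⟨⟨pair (v 1).1 (w 0).1, H_trans (v 0).2 h⟩, ⟨{(v 1).1}, singleton_mem_H hθ (v 1).2⟩,
      ⟨{(v 1).1, (w 0).1}, pair_set_mem_H hθ (v 1).2 (w 0).2⟩, h, ?_, ?_, ?_, ?_, ?_⟩
    · simp [pair]
    · simp [pair]
    · intro z hz
      simp only [pair, mem_pair] at hz
      rcases hz with hz | hz
      · exact Or.inl (Subtype.ext hz)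
      · exact Or.inr (Subtype.ext hz)
    · intro z
      simp only [mem_singleton, Subtype.ext_iff]
    · intro z
      simp only [mem_pair, Subtype.ext_iff]

/-- Closure of an elementary substructure of `H θ` under application. -/
theorem app_mem {θ : Cardinal.{u}} (hθ : ℵ₀ ≤ θ) (M : LSet.ElementarySubstructure (H θ))
    {f x y : ZFSet.{u}} (hf : f ∈ asSet M) (hx : x ∈ asSet M) (hp : pair x y ∈ f)
    (hu : ∀ y', pair x y' ∈ f → y' = y) : y ∈ asSet M := by
  obtain ⟨hf1, hf2⟩ := hf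
  obtain ⟨hx1, hx2⟩ := hx
  have hpH : pair x y ∈ H θ := H_trans hf1 hp
  have hyH : y ∈ H θ := by
    refine H_trans (y := y) (x := {x, y}) (H_trans hpH ?_) ?_
    · simp [pair]
    · simp
  let v : Fin 2 → M := ![⟨⟨f, hf1⟩, hf2⟩, ⟨⟨x, hx1⟩, hx2⟩]
  have h1 : (∃' appB).Realize (fun i => ((v i : M) : H θ)) default := by
    rw [BoundedFormula.realize_ex]
    refine ⟨⟨y, hyH⟩, ?_⟩
    rw [realize_appB_iff hθ]
    exact hp
  have h2 : (∃' appB).Realize v default := by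
    rw [← M.subtype.map_boundedFormula (∃' appB) v default]
    rw [Subsingleton.elim (M.subtype ∘ (default : Fin 0 → M)) default]
    exact h1
  rw [BoundedFormula.realize_ex] at h2
  obtain ⟨b, hb⟩ := h2
  rw [← M.subtype.map_boundedFormula] at hb
  rw [realize_appB_iff hθ] at hb
  have h3 : (b : H θ).1 = y := hu _ hb
  subst h3
  exact ⟨(b : H θ).2, b.2⟩

end Pool.Agent.Helper13.Ram
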