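import Pool.Agent.Helper13.RamB

/-!
# Closure points of countably many functions form a club
-/

universe u

namespace Pool.Agent.Helper13.Ram

open Cardinal Ordinal

theorem iSup_nat_lt {κ : Cardinal.{u}} (h0 : ℵ₀ < κ) (hr : κ.IsRegular) (s : ℕ → Ordinal.{u})
    (hs : ∀ k, s k < κ.ord) : ⨆ k, s k < κ.ord := by
  apply Ordinal.lift_iSup_lt_of_lt_cof _ hs
  rw [← Ordinal.lift_cof, hr.cof_ord]
  simpa using h0

theorem step_lt {κ : Cardinal.{u}} (h0 : ℵ₀ < κ) (hr : κ.IsRegular)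
    (g : ℕ → Ordinal.{u} → Ordinal.{u} → Ordinal.{u})
    (hg : ∀ n, ∀ α < κ.ord, ∀ β < κ.ord, g n α β < κ.ord) {δ : Ordinal.{u}} (hδ : δ < κ.ord) :
    ⨆ p : ℕ × Set.Iio δ × Set.Iio δ, (g p.1 p.2.1.1 p.2.2.1 + 1) < κ.ord := by
  apply Ordinal.lift_iSup_add_one_lt_of_lt_cof
  · rw [← Ordinal.lift_cof, hr.cof_ord]
    simp only [mk_prod, Cardinal.lift_id, Cardinal.mk_Iio_ordinal, mk_nat, lift_aleph0,
      Cardinal.lift_mul, Cardinal.lift_lift]
    have h1 : δ.card < κ := Cardinal.lt_ord.1 hδ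
    have h2 : Cardinal.lift.{u + 1} δ.card < Cardinal.lift.{u + 1} κ := Cardinal.lift_lt.2 h1
    have h3 : ℵ₀ < Cardinal.lift.{u + 1} κ := by simpa using h0
    have h4 : ℵ₀ ≤ Cardinal.lift.{u + 1} κ := h3.le
    have := mul_lt_of_lt h4 h3 (mul_lt_of_lt h4 h2 h2)
    simpa using this
  · rintro ⟨n, ⟨α, hα⟩, ⟨β, hβ⟩⟩
    exact hg n α (lt_trans hα hδ) β (lt_trans hβ hδ)

theorem closure_club {κ : Cardinal.{u}} (h0 : ℵ₀ < κ) (hr : κ.IsRegular)
    (g : ℕ → Ordinal.{u} → Ordinal.{u} → Ordinal.{u})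
    (hg : ∀ n, ∀ α < κ.ord, ∀ β < κ.ord, g n α β < κ.ord) :
    IsClubIn κ {δ | δ < κ.ord ∧ 0 < δ ∧ ∀ n, ∀ α < δ, ∀ β < δ, g n α β < δ} := by
  have hsucc : ∀ α < κ.ord, α + 1 < κ.ord := fun α hα =>
    (isSuccLimit_ord h0.le).add_one_lt hα
  refine ⟨fun δ hδ => hδ.1, ?_, ?_⟩
  · intro α hα
    let step : Ordinal.{u} → Ordinal.{u} := fun δ =>
      max (δ + 1) (⨆ p : ℕ × Set.Iio δ × Set.Iio δ, (g p.1 p.2.1.1 p.2.2.1 + 1))
    let s : ℕ → Ordinal.{u} := fun k => step^[k] (α + 1)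
    have hs : ∀ k, s k < κ.ord := by
      intro k
      induction k with
      | zero => exact hsucc α hα
      | succ k ih =>
        show step^[k + 1] (α + 1) < κ.ord
        rw [Function.iterate_succ_apply']
        exact max_lt (hsucc _ ih) (step_lt h0 hr g hg ih)
    have hs1 : ∀ k, s (k + 1) = step (s k) := fun k => Function.iterate_succ_apply' _ _ _
    have hlt : ∀ k, s k < s (k + 1) := by
      intro k
      rw [hs1]
      exact (Order.lt_add_one_iff.2 le_rfl).trans_le (le_max_left _ _)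
    have hmono : StrictMono s := strictMono_nat_of_lt_succ hlt
    have hle : ∀ k, s k ≤ ⨆ k, s k := fun k => Ordinal.le_iSup s k
    have hl : ∀ x, x < ⨆ k, s k → ∃ k, x < s k := fun x hx => Ordinal.lt_iSup_iff.1 hx
    refine ⟨⨆ k, s k, ⟨iSup_nat_lt h0 hr s hs, ?_, ?_⟩, ?_⟩
    · exact (lt_of_lt_of_le (by
        show 0 < α + 1
        exact zero_le.trans_lt (Order.lt_add_one_iff.2 le_rfl)) (hle 0))
    · intro n x hx y hy
      obtain ⟨k, hk⟩ := hl x hx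
      obtain ⟨l, hl'⟩ := hl y hy
      have hx' : x < s (max k l) := hk.trans_le (hmono.monotone (le_max_left _ _))
      have hy' : y < s (max k l) := hl'.trans_le (hmono.monotone (le_max_right _ _))
      refine lt_of_lt_of_le ?_ (hle (max k l + 1))
      rw [hs1]
      refine lt_of_lt_of_le ?_ (le_max_right _ _)
      have h5 : g n x y + 1 ≤ ⨆ p : ℕ × Set.Iio (s (max k l)) × Set.Iio (s (max k l)),
          (g p.1 p.2.1.1 p.2.2.1 + 1) :=
        Ordinal.le_iSup (fun p : ℕ × Set.Iio (s (max k l)) × Set.Iio (s (max k l)) =>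
          (g p.1 p.2.1.1 p.2.2.1 + 1)) (n, ⟨x, hx'⟩, ⟨y, hy'⟩)
      exact lt_of_lt_of_le (Order.lt_add_one_iff.2 le_rfl) h5
    · exact lt_of_lt_of_le (Order.lt_add_one_iff.2 le_rfl) (hle 0)
  · intro δ hδ h0δ hC
    refine ⟨hδ, pos_iff_ne_zero.2 h0δ, ?_⟩
    intro n α hα β hβ
    obtain ⟨γ, hγ, hγ1, hγ2⟩ := hC (max α β) (max_lt hα hβ)
    exact (hγ.2.2 n α ((le_max_left _ _).trans_lt hγ1) β ((le_max_right _ _).trans_lt hγ1)).trans
      hγ2

end Pool.Agent.Helper13.Ram
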