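import Pool.Agent.Helper13.RamC

/-!
# Coding of subsets of `κ` and of sequences of subsets; the reflecting pair `(M, U)`
-/

universe u

namespace Pool.Agent.Helper13.Ram

open Cardinal Ordinal ZFSet FirstOrder FirstOrder.Language

/-- The subset of the von Neumann ordinal `o` with elements the members of `T` below `o`. -/
noncomputable def cut (o : Ordinal.{u}) (T : Set Ordinal.{u}) : ZFSet.{u} :=
  o.toZFSet.sep (fun z => z.rank ∈ T)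

theorem mem_cut {o : Ordinal.{u}} {T : Set Ordinal.{u}} {z : ZFSet.{u}} :
    z ∈ cut o T ↔ ∃ α < o, α ∈ T ∧ α.toZFSet = z := by
  unfold cut
  rw [mem_sep, mem_toZFSet_iff]
  constructor
  · rintro ⟨⟨α, hα, rfl⟩, h⟩
    rw [rank_toZFSet] at h
    exact ⟨α, hα, h, rfl⟩
  · rintro ⟨α, hα, h, rfl⟩
    exact ⟨⟨α, hα, rfl⟩, by rwa [rank_toZFSet]⟩

theorem toZFSet_mem_cut {o α : Ordinal.{u}} {T : Set Ordinal.{u}} :
    α.toZFSet ∈ cut o T ↔ α < o ∧ α ∈ T := by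
  rw [mem_cut]
  constructor
  · rintro ⟨β, hβ, h, e⟩
    rw [toZFSet_injective e] at hβ h
    exact ⟨hβ, h⟩
  · rintro ⟨h1, h2⟩
    exact ⟨α, h1, h2, rfl⟩

theorem cut_subset (o : Ordinal.{u}) (T : Set Ordinal.{u}) : cut o T ⊆ o.toZFSet := sep_subset

/-- The set of ordinals in `A`. -/
def un (A : ZFSet.{u}) : Set Ordinal.{u} := {α | α.toZFSet ∈ A}

theorem mem_un {A : ZFSet.{u}} {α : Ordinal.{u}} : α ∈ un A ↔ α.toZFSet ∈ A := Iff.rfl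

theorem cut_un {o : Ordinal.{u}} {A : ZFSet.{u}} (h : A ⊆ o.toZFSet) : cut o (un A) = A := by
  ext z
  rw [mem_cut]
  constructor
  · rintro ⟨α, _, h2, rfl⟩
    exact h2
  · intro hz
    obtain ⟨α, hα, rfl⟩ := mem_toZFSet_iff.1 (h hz)
    exact ⟨α, hα, hz, rfl⟩

theorem mem_un_cut {o α : Ordinal.{u}} {T : Set Ordinal.{u}} :
    α ∈ un (cut o T) ↔ α < o ∧ α ∈ T := toZFSet_mem_cut

theorem cut_congr {o : Ordinal.{u}} {S T : Set Ordinal.{u}} (h : ∀ α < o, α ∈ S ↔ α ∈ T) :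
    cut o S = cut o T := by
  ext z
  rw [mem_cut, mem_cut]
  constructor
  · rintro ⟨α, h1, h2, h3⟩
    exact ⟨α, h1, (h α h1).1 h2, h3⟩
  · rintro ⟨α, h1, h2, h3⟩
    exact ⟨α, h1, (h α h1).2 h2, h3⟩

/-- The ZFC function `α ↦ cut o (f α)` with domain `o`. -/
noncomputable def sq (o : Ordinal.{u}) (f : Ordinal.{u} → Set Ordinal.{u}) : ZFSet.{u} :=
  ZFSet.range (fun α : Set.Iio o => pair α.1.toZFSet (cut o (f α.1)))

theorem pair_mem_sq {o : Ordinal.{u}} {f : Ordinal.{u} → Set Ordinal.{u}} {x A : ZFSet.{u}} :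
    pair x A ∈ sq o f ↔ ∃ α < o, α.toZFSet = x ∧ A = cut o (f α) := by
  unfold sq
  rw [ZFSet.mem_range]
  constructor
  · rintro ⟨⟨α, hα⟩, h⟩
    rw [pair_inj] at h
    exact ⟨α, hα, h.1, h.2.symm⟩
  · rintro ⟨α, hα, h1, h2⟩
    exact ⟨⟨α, hα⟩, by rw [pair_inj]; exact ⟨h1, h2.symm⟩⟩

theorem pair_toZFSet_mem_sq {o α : Ordinal.{u}} {f : Ordinal.{u} → Set Ordinal.{u}}
    {A : ZFSet.{u}} : pair α.toZFSet A ∈ sq o f ↔ α < o ∧ A = cut o (f α) := by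
  rw [pair_mem_sq]
  constructor
  · rintro ⟨β, hβ, e, h⟩
    rw [toZFSet_injective e] at hβ h
    exact ⟨hβ, h⟩
  · rintro ⟨h1, h2⟩
    exact ⟨α, h1, rfl, h2⟩

theorem sq_isFunc (o : Ordinal.{u}) (f : Ordinal.{u} → Set Ordinal.{u}) :
    IsFunc o.toZFSet (powerset o.toZFSet) (sq o f) := by
  constructor
  · intro z hz
    unfold sq at hz
    rw [ZFSet.mem_range] at hz
    obtain ⟨⟨α, hα⟩, rfl⟩ := hz
    rw [pair_mem_prod, mem_powerset]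
    exact ⟨toZFSet_mem_toZFSet_iff.2 hα, cut_subset _ _⟩
  · intro z hz
    obtain ⟨α, hα, rfl⟩ := mem_toZFSet_iff.1 hz
    refine ⟨cut o (f α), pair_toZFSet_mem_sq.2 ⟨hα, rfl⟩, fun y hy => ?_⟩
    exact (pair_toZFSet_mem_sq.1 hy).2

/-- The reflecting pair `(M, U)` together with the stationary diagonal intersection `D`. -/
structure Good (κ : Cardinal.{u}) (M U : Set ZFSet.{u}) (D : Set Ordinal.{u}) : Prop where
  app : ∀ f ∈ M, ∀ x ∈ M, ∀ y, pair x y ∈ f → (∀ y', pair x y' ∈ f → y' = y) → y ∈ M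
  ord : ∀ α ≤ κ.ord, α.toZFSet ∈ M
  uf : IsMUltrafilter κ.ord.toZFSet M U
  normal : ∀ f, sq κ.ord f ∈ M → (∀ α < κ.ord, cut κ.ord (f α) ∈ U) →
    cut κ.ord {β | ∀ α < β, β ∈ f α} ∈ U
  amen : ∀ f, sq κ.ord f ∈ M → cut κ.ord {ξ | cut κ.ord (f ξ) ∈ U} ∈ M
  stat : IsStatIn κ D
  sub : D ⊆ Set.Iio κ.ord
  index : ∀ A ∈ M, A ⊆ κ.ord.toZFSet → ∃ η < κ.ord, ∀ δ ∈ D, η < δ →
    (δ.toZFSet ∈ A ↔ A ∈ U)

theorem exists_good {κ : Cardinal.{u}} (h : Ramsey Normal κ) (p : ZFSet.{u}) :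
    ∃ (M U : Set ZFSet.{u}) (D : Set Ordinal.{u}), Good κ M U D ∧ p ∈ M := by
  obtain ⟨h0, hr, hR⟩ := h
  obtain ⟨θ, hθr, hκθ, hp⟩ := exists_H p κ h0.le
  obtain ⟨M, U, hpM, -, hord, huf, -, hnorm, hamen, s, hs1, hs2, hs3⟩ := hR θ hθr hκθ p hp
  refine ⟨asSet M, U, {β | β.toZFSet ∈ diag κ.ord.toZFSet s}, ?_, hpM⟩
  have hθ0 : ℵ₀ ≤ θ := hθr.1
  refine ⟨?_, hord, huf, ?_, ?_, hs3, ?_, ?_⟩
  · intro f hf x hx y hy hu
    exact app_mem hθ0 M hf hx hy hu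
  · intro f hf hU
    have h1 := hnorm (sq κ.ord f) hf (sq_isFunc _ _) (by
      intro α A hA
      obtain ⟨a, ha, -, rfl⟩ := pair_mem_sq.1 hA
      exact hU a ha)
    convert h1 using 1
    ext z
    unfold diag
    rw [mem_cut, mem_sep, mem_toZFSet_iff]
    constructor
    · rintro ⟨β, hβ, h2, rfl⟩
      refine ⟨⟨β, hβ, rfl⟩, ?_⟩
      intro a ha A hA
      obtain ⟨α, hα, rfl⟩ := mem_toZFSet_iff.1 ha
      obtain ⟨h3, rfl⟩ := pair_toZFSet_mem_sq.1 hA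
      exact toZFSet_mem_cut.2 ⟨hβ, h2 α hα⟩
    · rintro ⟨⟨β, hβ, rfl⟩, h2⟩
      refine ⟨β, hβ, ?_, rfl⟩
      intro α hα
      have h3 := h2 α.toZFSet (toZFSet_mem_toZFSet_iff.2 hα) (cut κ.ord (f α))
        (pair_toZFSet_mem_sq.2 ⟨hα.trans hβ, rfl⟩)
      exact (toZFSet_mem_cut.1 h3).2
  · intro f hf
    have h1 := hamen (sq κ.ord f) hf (sq_isFunc _ _)
    convert h1 using 1
    ext z
    rw [mem_cut, mem_sep, mem_toZFSet_iff]
    constructor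
    · rintro ⟨β, hβ, h2, rfl⟩
      exact ⟨⟨β, hβ, rfl⟩, _, h2, pair_toZFSet_mem_sq.2 ⟨hβ, rfl⟩⟩
    · rintro ⟨⟨β, hβ, rfl⟩, A, hA, h2⟩
      refine ⟨β, hβ, ?_, rfl⟩
      rw [(pair_toZFSet_mem_sq.1 h2).2] at hA
      exact hA
  · intro β hβ
    have : β.toZFSet ∈ κ.ord.toZFSet := sep_subset (Set.mem_ofPred_eq ▸ hβ)
    exact toZFSet_mem_toZFSet_iff.1 this
  · have key : ∀ A ∈ U, ∃ η < κ.ord, ∀ δ : Ordinal.{u}, δ.toZFSet ∈ diag κ.ord.toZFSet s →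
        η < δ → δ.toZFSet ∈ A := by
      intro A hA
      obtain ⟨a, ha⟩ := (hs2 A).1 hA
      have h1 := hs1.1 ha
      rw [pair_mem_prod] at h1
      obtain ⟨η, hη, rfl⟩ := mem_toZFSet_iff.1 h1.1
      refine ⟨η, hη, fun δ hδ hlt => ?_⟩
      exact (mem_sep.1 hδ).2 η.toZFSet (toZFSet_mem_toZFSet_iff.2 hlt) A ha
    intro A hA hAK
    rcases huf.ultra A hA hAK with h1 | h1
    · obtain ⟨η, hη, h2⟩ := key A h1
      exact ⟨η, hη, fun δ hδ hlt => ⟨fun _ => h1, fun _ => h2 δ hδ hlt⟩⟩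
    · obtain ⟨η, hη, h2⟩ := key _ h1
      refine ⟨η, hη, fun δ hδ hlt => ⟨fun h3 => ?_, fun h3 => ?_⟩⟩
      · exact absurd h3 (mem_sdiff.1 (h2 δ hδ hlt)).2
      · exfalso
        have h4 := huf.inter A h3 _ h1
        have h5 : A ∩ (κ.ord.toZFSet \ A) = ∅ := by
          ext z
          rw [mem_inter, mem_sdiff]
          constructor
          · rintro ⟨h6, h7⟩
            exact absurd h6 h7.2
          · intro h6
            exact absurd h6 (notMem_empty z)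
        rw [h5] at h4
        exact huf.empty h4

end Pool.Agent.Helper13.Ram
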