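import Pool.Agent.Helper13.RamD

/-!
# Parameters in `M`, and cofinal maps
-/

universe u

namespace Pool.Agent.Helper13.Ram

open Cardinal Ordinal ZFSet FirstOrder FirstOrder.Language

theorem exists_cofinal_map (δ : Ordinal.{u}) : ∃ c : Ordinal.{u} → Ordinal.{u},
    (∀ i < δ.cof.ord, c i < δ) ∧ ∀ ξ < δ, ∃ i < δ.cof.ord, ξ ≤ c i := by
  obtain ⟨s, hs, hs'⟩ := Order.exists_cof_eq (Set.Iio δ)
  rw [cof_Iio, ← Ordinal.lift_cof] at hs'
  have h1 : #(Set.Iio δ.cof.ord) = #s := by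
    rw [hs', Cardinal.mk_Iio_ordinal, card_ord]
  obtain ⟨e⟩ := Cardinal.eq.1 h1
  classical
  refine ⟨fun i => if h : i < δ.cof.ord then (e ⟨i, h⟩).1.1 else 0, ?_, ?_⟩
  · intro i hi
    simp only [hi, dif_pos]
    exact (e ⟨i, hi⟩).1.2
  · intro ξ hξ
    obtain ⟨b, hb, hb'⟩ := hs ⟨ξ, hξ⟩
    have h3 : (e.symm ⟨b, hb⟩).1 < δ.cof.ord := (e.symm ⟨b, hb⟩).2
    refine ⟨(e.symm ⟨b, hb⟩).1, h3, ?_⟩
    beta_reduce
    rw [dif_pos h3]
    have h4 : e ⟨(e.symm ⟨b, hb⟩).1, h3⟩ = ⟨b, hb⟩ := e.apply_symm_apply ⟨b, hb⟩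
    rw [h4]
    exact hb'

/-- A code for a finite list of sets. -/
def codeZ : List ZFSet.{u} → ZFSet.{u}
  | [] => ∅
  | A :: l => pair A (codeZ l)

theorem pair_ne_empty (x y : ZFSet.{u}) : pair x y ≠ ∅ := by
  intro h
  have : {x} ∈ pair x y := by simp [pair]
  rw [h] at this
  exact notMem_empty _ this

theorem codeZ_injective : Function.Injective codeZ.{u} := by
  intro l
  induction l with
  | nil =>
    intro l' h
    cases l' with
    | nil => rfl
    | cons A l' => exact absurd h.symm (pair_ne_empty _ _)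
  | cons A l ih =>
    intro l' h
    cases l' with
    | nil => exact absurd h (pair_ne_empty _ _)
    | cons B l' =>
      simp only [codeZ, pair_inj] at h
      rw [h.1, ih h.2]

/-- If the graph of `c i ↦ d i` is in `M` and `c i` is in `M`, then `d i` is in `M`. -/
theorem graph_mem {κ : Cardinal.{u}} {M U : Set ZFSet.{u}} {D : Set Ordinal.{u}}
    (hG : Good κ M U D) {ι : Type*} [Small.{u} ι] (c d : ι → ZFSet.{u})
    (hM : ZFSet.range (fun i => pair (c i) (d i)) ∈ M) (i : ι) (hc : c i ∈ M)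
    (hcd : ∀ j, c j = c i → d j = d i) : d i ∈ M := by
  refine hG.app _ hM _ hc (d i) (ZFSet.mem_range_self i) ?_
  intro y' hy'
  rw [ZFSet.mem_range] at hy'
  obtain ⟨j, hj⟩ := hy'
  rw [pair_inj] at hj
  rw [← hj.2]
  exact hcd j hj.1

theorem sq_val {κ : Cardinal.{u}} {M U : Set ZFSet.{u}} {D : Set Ordinal.{u}}
    (hG : Good κ M U D) {f : Ordinal.{u} → Set Ordinal.{u}} (hf : sq κ.ord f ∈ M)
    {α : Ordinal.{u}} (hα : α < κ.ord) : cut κ.ord (f α) ∈ M := by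
  refine hG.app _ hf _ (hG.ord α hα.le) _ (pair_toZFSet_mem_sq.2 ⟨hα, rfl⟩) ?_
  intro y' hy'
  exact (pair_toZFSet_mem_sq.1 hy').2

/-- Several parameters can be put in `M` at once. -/
theorem exists_good_fin {κ : Cardinal.{u}} (h : Ramsey Normal κ) (p : ℕ → ZFSet.{u}) :
    ∃ (M U : Set ZFSet.{u}) (D : Set Ordinal.{u}), Good κ M U D ∧ ∀ n, p n ∈ M := by
  obtain ⟨M, U, D, hG, hp⟩ := exists_good h
    (ZFSet.range (fun n : ℕ => pair (n : Ordinal.{u}).toZFSet (p n)))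
  refine ⟨M, U, D, hG, fun n => ?_⟩
  have h1 : (n : Ordinal.{u}) ≤ κ.ord := by
    refine le_of_lt (lt_of_lt_of_le (natCast_lt_omega0 n) ?_)
    rw [← ord_aleph0]
    exact ord_le_ord.2 h.1.le
  refine graph_mem hG (fun n : ℕ => (n : Ordinal.{u}).toZFSet) p hp n (hG.ord _ h1) ?_
  intro j hj
  have h2 : (j : Ordinal.{u}) = (n : Ordinal.{u}) := toZFSet_injective hj
  rw [Nat.cast_inj.1 h2]

end Pool.Agent.Helper13.Ram
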