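import Pool.Agent.Helper13.RamE

/-!
# The global moves
-/

universe u

namespace Pool.Agent.Helper13.Ram

open Cardinal Ordinal ZFSet FirstOrder FirstOrder.Language

/-- The traces on `γ` of a list of sets. -/
def trace (γ : Ordinal.{u}) (l : List ZFSet.{u}) : List (Set Ordinal.{u}) :=
  l.map (fun A => un A ∩ Set.Iio γ)

/-- The sets of ordinals `γ` with `β ∈ a γ (trace γ l) α`, for `ξ = pr α β`. -/
def Qf (a : Ordinal.{u} → List (Set Ordinal.{u}) → Ordinal.{u} → Set Ordinal.{u})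
    (pr : Ordinal.{u} → Ordinal.{u} → Ordinal.{u}) (l : List ZFSet.{u}) :
    Ordinal.{u} → Set Ordinal.{u} :=
  fun ξ => {γ | ∃ α β, ξ = pr α β ∧ α < γ ∧ β < γ ∧ β ∈ a γ (trace γ l) α}

/-- The sections of the coded set `T`. -/
def Gm (pr : Ordinal.{u} → Ordinal.{u} → Ordinal.{u}) (T : Set Ordinal.{u}) :
    Ordinal.{u} → Set Ordinal.{u} :=
  fun α => {β | pr α β ∈ T}

/-- The sequence `ξ ↦ {γ : ξ ∈ w γ}`. -/
def Wq (w : Ordinal.{u} → Set Ordinal.{u}) : Ordinal.{u} → Set Ordinal.{u} :=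
  fun ξ => {γ | ξ ∈ w γ}

/-- The closure properties of `M` that are used. -/
structure Closed (κ : Cardinal.{u}) (M : Set ZFSet.{u})
    (a : Ordinal.{u} → List (Set Ordinal.{u}) → Ordinal.{u} → Set Ordinal.{u})
    (pr : Ordinal.{u} → Ordinal.{u} → Ordinal.{u}) (w : ℕ → Ordinal.{u} → Set Ordinal.{u}) :
    Prop where
  hQ : ∀ l : List ZFSet.{u}, (∀ A ∈ l, A ⊆ κ.ord.toZFSet) → codeZ l ∈ M →
    sq κ.ord (Qf a pr l) ∈ M
  hGm : ∀ T : ZFSet.{u}, T ⊆ κ.ord.toZFSet → T ∈ M → sq κ.ord (Gm pr (un T)) ∈ M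
  hC : ∀ (l : List ZFSet.{u}) (A : ZFSet.{u}), (∀ B ∈ l, B ⊆ κ.ord.toZFSet) →
    A ⊆ κ.ord.toZFSet → codeZ l ∈ M → A ∈ M → codeZ (A :: l) ∈ M
  hW : ∀ n, sq κ.ord (Wq (w n)) ∈ M

theorem exists_closed {κ : Cardinal.{u}} (h : Ramsey Normal κ)
    (a : Ordinal.{u} → List (Set Ordinal.{u}) → Ordinal.{u} → Set Ordinal.{u})
    (pr : Ordinal.{u} → Ordinal.{u} → Ordinal.{u}) (w : ℕ → Ordinal.{u} → Set Ordinal.{u}) :
    ∃ (M U : Set ZFSet.{u}) (D : Set Ordinal.{u}), Good κ M U D ∧ Closed κ M a pr w := by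
  let P : ZFSet.{u} := powerset κ.ord.toZFSet
  let FQ : ZFSet.{u} := ZFSet.range (fun l : List P =>
    pair (codeZ (l.map Subtype.val)) (sq κ.ord (Qf a pr (l.map Subtype.val))))
  let FG : ZFSet.{u} := ZFSet.range (fun T : P => pair T.1 (sq κ.ord (Gm pr (un T.1))))
  let FC : ZFSet.{u} := ZFSet.range (fun l : List P =>
    pair (codeZ (l.map Subtype.val))
      (ZFSet.range (fun A : P => pair A.1 (codeZ (A.1 :: l.map Subtype.val)))))
  let p : ℕ → ZFSet.{u} := fun n => match n with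
    | 0 => FQ
    | 1 => FG
    | 2 => FC
    | n + 3 => sq κ.ord (Wq (w n))
  obtain ⟨M, U, D, hG, hp⟩ := exists_good_fin h p
  have lift : ∀ l : List ZFSet.{u}, (∀ A ∈ l, A ⊆ κ.ord.toZFSet) →
      ∃ l' : List P, l'.map Subtype.val = l := by
    intro l
    induction l with
    | nil => exact fun _ => ⟨[], rfl⟩
    | cons A l ih =>
      intro hl
      obtain ⟨l', hl'⟩ := ih (fun B hB => hl B (List.mem_cons_of_mem _ hB))
      refine ⟨⟨A, mem_powerset.2 (hl A List.mem_cons_self)⟩ :: l', ?_⟩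
      rw [List.map_cons, hl']
  refine ⟨M, U, D, hG, ?_, ?_, ?_, fun n => hp (n + 3)⟩
  · intro l hl hM
    obtain ⟨l', rfl⟩ := lift l hl
    refine graph_mem hG (fun l : List P => codeZ (l.map Subtype.val))
      (fun l : List P => sq κ.ord (Qf a pr (l.map Subtype.val))) (hp 0) l' hM ?_
    intro j hj
    have := codeZ_injective hj
    simp only [this]
  · intro T hT hM
    refine graph_mem hG (fun T : P => T.1) (fun T : P => sq κ.ord (Gm pr (un T.1))) (hp 1)
      ⟨T, mem_powerset.2 hT⟩ hM ?_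
    intro j hj
    simp only [hj]
  · intro l A hl hA hM hAM
    obtain ⟨l', rfl⟩ := lift l hl
    have h1 : ZFSet.range (fun A : P => pair A.1 (codeZ (A.1 :: l'.map Subtype.val))) ∈ M := by
      refine graph_mem hG (fun l : List P => codeZ (l.map Subtype.val))
        (fun l : List P => ZFSet.range
          (fun A : P => pair A.1 (codeZ (A.1 :: l.map Subtype.val)))) (hp 2) l' hM ?_
      intro j hj
      have := codeZ_injective hj
      simp only [this]
    refine graph_mem hG (fun A : P => A.1) (fun A : P => codeZ (A.1 :: l'.map Subtype.val)) h1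
      ⟨A, mem_powerset.2 hA⟩ hAM ?_
    intro j hj
    simp only [hj]

section moves

variable (κ : Cardinal.{u}) (U : Set ZFSet.{u})
  (a : Ordinal.{u} → List (Set Ordinal.{u}) → Ordinal.{u} → Set Ordinal.{u})
  (pr : Ordinal.{u} → Ordinal.{u} → Ordinal.{u})

/-- The coded limit of the challenger's moves. -/
noncomputable def At (l : List ZFSet.{u}) : ZFSet.{u} :=
  cut κ.ord {ξ | cut κ.ord (Qf a pr l ξ) ∈ U}

/-- The limit of the challenger's moves. -/
noncomputable def an (l : List ZFSet.{u}) : Ordinal.{u} → Set Ordinal.{u} :=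
  Gm pr (un (At κ U a pr l))

/-- The judge's answer, given by `U`. -/
noncomputable def Sn (l : List ZFSet.{u}) : ZFSet.{u} :=
  cut κ.ord {α | cut κ.ord (an κ U a pr l α) ∈ U}

/-- The lists of the judge's answers. -/
noncomputable def ls : ℕ → List ZFSet.{u}
  | 0 => []
  | n + 1 => Sn κ U a pr (ls n) :: ls n

end moves

section facts

variable {κ : Cardinal.{u}} {M U : Set ZFSet.{u}} {D : Set Ordinal.{u}}
  {a : Ordinal.{u} → List (Set Ordinal.{u}) → Ordinal.{u} → Set Ordinal.{u}}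
  {pr : Ordinal.{u} → Ordinal.{u} → Ordinal.{u}} {w : ℕ → Ordinal.{u} → Set Ordinal.{u}}

theorem At_mem (hG : Good κ M U D) (hC : Closed κ M a pr w) (l : List ZFSet.{u})
    (hl : ∀ A ∈ l, A ⊆ κ.ord.toZFSet) (hM : codeZ l ∈ M) : At κ U a pr l ∈ M :=
  hG.amen _ (hC.hQ l hl hM)

theorem an_mem (hG : Good κ M U D) (hC : Closed κ M a pr w) (l : List ZFSet.{u})
    (hl : ∀ A ∈ l, A ⊆ κ.ord.toZFSet) (hM : codeZ l ∈ M) :
    sq κ.ord (an κ U a pr l) ∈ M :=
  hC.hGm _ (cut_subset _ _) (At_mem hG hC l hl hM)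

theorem Sn_mem (hG : Good κ M U D) (hC : Closed κ M a pr w) (l : List ZFSet.{u})
    (hl : ∀ A ∈ l, A ⊆ κ.ord.toZFSet) (hM : codeZ l ∈ M) : Sn κ U a pr l ∈ M :=
  hG.amen _ (an_mem hG hC l hl hM)

theorem ls_facts (hG : Good κ M U D) (hC : Closed κ M a pr w) (n : ℕ) :
    (∀ A ∈ ls κ U a pr n, A ⊆ κ.ord.toZFSet) ∧ codeZ (ls κ U a pr n) ∈ M := by
  induction n with
  | zero =>
    refine ⟨by simp [ls], ?_⟩
    have := hG.ord 0 (zero_le)
    rwa [toZFSet_zero] at this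
  | succ n ih =>
    refine ⟨?_, ?_⟩
    · intro A hA
      rcases List.mem_cons.1 hA with rfl | hA
      · exact cut_subset _ _
      · exact ih.1 A hA
    · exact hC.hC _ _ ih.1 (cut_subset _ _) ih.2 (Sn_mem hG hC _ ih.1 ih.2)

end facts

end Pool.Agent.Helper13.Ram
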