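import Pool.Agent.Helper13.RamF

/-!
# The reflection lemma
-/

universe u

namespace Pool.Agent.Helper13.Ram

open Cardinal Ordinal ZFSet FirstOrder FirstOrder.Language

/-- The list `[B (n-1), …, B 0]`. -/
def pos (B : ℕ → Set Ordinal.{u}) : ℕ → List (Set Ordinal.{u})
  | 0 => []
  | n + 1 => B n :: pos B n

theorem trace_ls (κ : Cardinal.{u}) (U : Set ZFSet.{u})
    (a : Ordinal.{u} → List (Set Ordinal.{u}) → Ordinal.{u} → Set Ordinal.{u})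
    (pr : Ordinal.{u} → Ordinal.{u} → Ordinal.{u}) (γ : Ordinal.{u}) (n : ℕ) :
    trace γ (ls κ U a pr n) =
      pos (fun i => un (Sn κ U a pr (ls κ U a pr i)) ∩ Set.Iio γ) n := by
  induction n with
  | zero => rfl
  | succ n ih =>
    simp only [ls, pos, trace, List.map_cons]
    simp only [trace] at ih
    rw [ih]

section

variable {κ : Cardinal.{u}} {M U : Set ZFSet.{u}} {D : Set Ordinal.{u}}
  {a : Ordinal.{u} → List (Set Ordinal.{u}) → Ordinal.{u} → Set Ordinal.{u}}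
  {pr : Ordinal.{u} → Ordinal.{u} → Ordinal.{u}} {w : ℕ → Ordinal.{u} → Set Ordinal.{u}}

/-- The index function for a sequence in `M`. -/
theorem exists_index (hG : Good κ M U D) {f : Ordinal.{u} → Set Ordinal.{u}}
    (hf : sq κ.ord f ∈ M) (ξ : Ordinal.{u}) : ∃ η, ξ < κ.ord → (η < κ.ord ∧ ∀ δ ∈ D, η < δ →
      (δ ∈ f ξ ↔ cut κ.ord (f ξ) ∈ U)) := by
  by_cases hξ : ξ < κ.ord
  · obtain ⟨η, hη, h⟩ := hG.index _ (sq_val hG hf hξ) (cut_subset _ _)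
    refine ⟨η, fun _ => ⟨hη, fun δ hδ hlt => ?_⟩⟩
    rw [← h δ hδ hlt, toZFSet_mem_cut]
    exact ⟨fun h => ⟨hG.sub hδ, h⟩, fun h => h.2⟩
  · exact ⟨0, fun h => absurd h hξ⟩

theorem exists_index3 (hG : Good κ M U D) (hC : Closed κ M a pr w)
    (hpr : ∀ α < κ.ord, ∀ β < κ.ord, pr α β < κ.ord) {f : Ordinal.{u} → Set Ordinal.{u}}
    (hf : sq κ.ord f ∈ M) (ζ : Ordinal.{u}) : ∃ η, ζ < κ.ord → (η < κ.ord ∧
      ((∀ δ ∈ D, η < δ → ∀ α < δ, pr α δ ∈ f ζ) ∨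
        (∃ α ≤ η, ∀ δ ∈ D, η < δ → pr α δ ∉ f ζ))) := by
  by_cases hζ : ζ < κ.ord
  · have hT := sq_val hG hf hζ
    have hs := hC.hGm _ (cut_subset _ _) hT
    by_cases hall : ∀ α < κ.ord, cut κ.ord (Gm pr (un (cut κ.ord (f ζ))) α) ∈ U
    · have h1 := hG.normal _ hs hall
      obtain ⟨η, hη, h2⟩ := hG.index _ (hG.uf.sub _ h1).1 (cut_subset _ _)
      refine ⟨η, fun _ => ⟨hη, Or.inl fun δ hδ hlt α hα => ?_⟩⟩
      have h3 := (toZFSet_mem_cut.1 ((h2 δ hδ hlt).2 h1)).2 α hα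
      exact (toZFSet_mem_cut.1 h3).2
    · push Not at hall
      obtain ⟨α, hα, h1⟩ := hall
      obtain ⟨η, hη, h2⟩ := hG.index _ (sq_val hG hs hα) (cut_subset _ _)
      refine ⟨max α η, fun _ => ⟨max_lt hα hη, Or.inr ⟨α, le_max_left _ _,
        fun δ hδ hlt h3 => h1 ?_⟩⟩⟩
      have hδκ : δ < κ.ord := hG.sub hδ
      rw [← h2 δ hδ ((le_max_right _ _).trans_lt hlt), toZFSet_mem_cut]
      refine ⟨hδκ, ?_⟩
      show pr α δ ∈ un (cut κ.ord (f ζ))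
      rw [mem_un_cut]
      exact ⟨hpr α hα δ hδκ, h3⟩
  · exact ⟨0, fun h => absurd h hζ⟩

end

theorem lemmaB {κ : Cardinal.{u}} (h : Ramsey Normal κ)
    (a : Ordinal.{u} → List (Set Ordinal.{u}) → Ordinal.{u} → Set Ordinal.{u})
    (pr : Ordinal.{u} → Ordinal.{u} → Ordinal.{u})
    (hpr : ∀ α < κ.ord, ∀ β < κ.ord, pr α β < κ.ord)
    (hinj : ∀ α < κ.ord, ∀ β < κ.ord, ∀ α' < κ.ord, ∀ β' < κ.ord, pr α β = pr α' β' →
      α = α' ∧ β = β')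
    (C : Set Ordinal.{u}) (hC : IsClubIn κ C) :
    ∃ (c : Cardinal.{u}) (B : ℕ → Set Ordinal.{u}) (E : Set Ordinal.{u}), ℵ₀ < c ∧
      c.IsRegular ∧ c.ord < κ.ord ∧ c.ord ∈ C ∧ (∀ α < c.ord, ∀ β < c.ord, pr α β < c.ord) ∧
      (∀ δ ∈ E, δ < c.ord) ∧ (∀ α < c.ord, ∃ δ ∈ E, α < δ) ∧
      (∀ n, ∀ α < c.ord, ∀ δ ∈ E, α < δ → (δ ∈ a c.ord (pos B n) α ↔ α ∈ B n)) ∧
      (∀ n, ∀ ζ < c.ord,
        (∃ η < c.ord, ∀ δ ∈ E, η < δ → ∀ α < δ, pr α δ ∈ a c.ord (pos B n) ζ) ∨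
        (∃ α < c.ord, ∃ η < c.ord, ∀ δ ∈ E, η < δ → pr α δ ∉ a c.ord (pos B n) ζ)) := by
  have h0 := h.1
  have hr := h.2.1
  choose cf hcf1 hcf2 using exists_cofinal_map.{u}
  let w : ℕ → Ordinal.{u} → Set Ordinal.{u} := fun n δ => match n with
    | 0 => {δ.cof.ord}
    | _ + 1 => {ξ | ∃ i < δ.cof.ord, ξ = pr i (cf δ i)}
  obtain ⟨M, U, D, hG, hCl⟩ := exists_closed h a pr w
  have hls := fun n => ls_facts (κ := κ) (U := U) hG hCl n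
  choose η1 hη1 using fun n ξ => exists_index hG (hCl.hQ _ (hls n).1 (hls n).2) ξ
  choose η2 hη2 using fun n ξ => exists_index hG (an_mem hG hCl _ (hls n).1 (hls n).2) ξ
  choose η3 hη3 using fun n ζ => exists_index3 hG hCl hpr
    (an_mem hG hCl _ (hls n).1 (hls n).2) ζ
  choose η4 hη4 using fun n ξ => exists_index hG (hCl.hW n) ξ
  let G1 : ℕ → Ordinal.{u} → Ordinal.{u} → Ordinal.{u} := fun n α β =>
    max (pr α β) (max (η1 n α) (max (η2 n α) (max (η3 n α) (η4 n α))))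
  have hG1 : ∀ n, ∀ α < κ.ord, ∀ β < κ.ord, G1 n α β < κ.ord := fun n α hα β hβ =>
    max_lt (hpr α hα β hβ) (max_lt (hη1 n α hα).1 (max_lt (hη2 n α hα).1
      (max_lt (hη3 n α hα).1 (hη4 n α hα).1)))
  have meet : ∀ e : Ordinal.{u} → Ordinal.{u}, (∀ α < κ.ord, e α < κ.ord) →
      ∃ δ ∈ D, δ < κ.ord ∧ 0 < δ ∧ (∀ n, ∀ α < δ, ∀ β < δ, G1 n α β < δ) ∧
        (∀ α < δ, e α < δ) := by
    intro e he
    obtain ⟨δ, hδ, h1, h2, h3⟩ := hG.stat _ (closure_club h0 hr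
      (fun n α β => max (G1 n α β) (e α)) (fun n α hα β hβ =>
        max_lt (hG1 n α hα β hβ) (he α hα)))
    exact ⟨δ, hδ, h1, h2, fun n α hα β hβ => (le_max_left _ _).trans_lt (h3 n α hα β hβ),
      fun α hα => (le_max_right _ _).trans_lt (h3 0 α hα α hα)⟩
  let D' : Set Ordinal.{u} := {δ | δ ∈ D ∧ δ < κ.ord ∧ 0 < δ ∧
    ∀ n, ∀ α < δ, ∀ β < δ, G1 n α β < δ}
  have hD'unb : ∀ α, ∃ δ, α < κ.ord → (δ ∈ D' ∧ α < δ) := by
    intro α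
    by_cases hα : α < κ.ord
    · obtain ⟨δ, h1, h2, h3, h4, h5⟩ := meet (fun _ => α) (fun _ _ => hα)
      exact ⟨δ, fun _ => ⟨⟨h1, h2, h3, h4⟩, h5 0 h3⟩⟩
    · exact ⟨0, fun h => absurd h hα⟩
  have hpos0 : 0 < κ.ord := (hr.ord_pos)
  -- facts at points of `D'`
  have m1 : ∀ δ ∈ D', ∀ n, ∀ α < δ, ∀ β < δ,
      (β ∈ a δ (trace δ (ls κ U a pr n)) α ↔ β ∈ an κ U a pr (ls κ U a pr n) α) := by
    intro δ hδ n α hα β hβ
    obtain ⟨hδD, hδκ, hδ0, hδc⟩ := hδ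
    have hp : pr α β < δ := (le_max_left _ _).trans_lt (hδc 0 α hα β hβ)
    have hpκ : pr α β < κ.ord := hp.trans hδκ
    have hi : η1 n (pr α β) < δ :=
      ((le_max_left _ _).trans (le_max_right _ _)).trans_lt (hδc n (pr α β) hp (pr α β) hp)
    have h1 := (hη1 n (pr α β) hpκ).2 δ hδD hi
    have h2 : β ∈ an κ U a pr (ls κ U a pr n) α ↔
        cut κ.ord (Qf a pr (ls κ U a pr n) (pr α β)) ∈ U := by
      show pr α β ∈ un (At κ U a pr (ls κ U a pr n)) ↔ _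
      unfold At
      rw [mem_un_cut]
      exact ⟨fun h => h.2, fun h => ⟨hpκ, h⟩⟩
    rw [h2, ← h1]
    constructor
    · intro h3
      exact ⟨α, β, rfl, hα, hβ, h3⟩
    · rintro ⟨α', β', e, hα', hβ', h3⟩
      obtain ⟨rfl, rfl⟩ := hinj α (hα.trans hδκ) β (hβ.trans hδκ) α' (hα'.trans hδκ) β'
        (hβ'.trans hδκ) e
      exact h3
  have m3 : ∀ δ ∈ D', ∀ n, ∀ α < δ, (δ ∈ an κ U a pr (ls κ U a pr n) α ↔
      α ∈ un (Sn κ U a pr (ls κ U a pr n))) := by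
    intro δ hδ n α hα
    obtain ⟨hδD, hδκ, hδ0, hδc⟩ := hδ
    have hi : η2 n α < δ :=
      ((le_max_left _ _).trans ((le_max_right _ _).trans (le_max_right _ _))).trans_lt
        (hδc n α hα α hα)
    have h1 := (hη2 n α (hα.trans hδκ)).2 δ hδD hi
    rw [h1]
    unfold Sn
    rw [mem_un_cut]
    exact ⟨fun h => ⟨hα.trans hδκ, h⟩, fun h => h.2⟩
  have m4 : ∀ δ ∈ D', ∀ n, ∀ ξ < δ, (ξ ∈ w n δ ↔ cut κ.ord (Wq (w n) ξ) ∈ U) := by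
    intro δ hδ n ξ hξ
    obtain ⟨hδD, hδκ, hδ0, hδc⟩ := hδ
    have hi : η4 n ξ < δ :=
      ((le_max_right _ _).trans ((le_max_right _ _).trans ((le_max_right _ _).trans
        (le_max_right _ _)))).trans_lt (hδc n ξ hξ ξ hξ)
    exact (hη4 n ξ (hξ.trans hδκ)).2 δ hδD hi
  -- two singular elements of `D'`
  have sing : ∀ δ ∈ D', ∀ δ' ∈ D', δ.cof.ord < δ → δ'.cof.ord < δ' → ¬ δ < δ' := by
    intro δ hδ δ' hδ' hs hs' hlt
    have e0 : δ.cof.ord = δ'.cof.ord := by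
      have h1 : δ.cof.ord ∈ w 0 δ := rfl
      have h2 := (m4 δ hδ 0 _ hs).1 h1
      have h3 := (m4 δ' hδ' 0 _ (hs.trans hlt)).2 h2
      exact h3
    obtain ⟨i, hi, hi2⟩ := hcf2 δ' δ hlt
    rw [← e0] at hi
    have hiδ : i < δ := hi.trans hs
    have h1 : pr i (cf δ i) ∈ w 1 δ := ⟨i, hi, rfl⟩
    have hc1 : cf δ i < δ := hcf1 δ i hi
    have hp : pr i (cf δ i) < δ := (le_max_left _ _).trans_lt (hδ.2.2.2 0 i hiδ _ hc1)
    have h2 := (m4 δ hδ 1 _ hp).1 h1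
    obtain ⟨j, hj, hj2⟩ := (m4 δ' hδ' 1 _ (hp.trans hlt)).2 h2
    have hj' : j < δ' := hj.trans hs'
    obtain ⟨rfl, h4⟩ := hinj i (hiδ.trans hδ.2.1) _ (hc1.trans hδ.2.1) j (hj'.trans hδ'.2.1) _
      ((hcf1 δ' j hj).trans hδ'.2.1) hj2
    rw [← h4] at hi2
    exact absurd hc1 (not_lt.2 hi2)
  obtain ⟨δ1, hδ1, hδ1'⟩ : ∃ δ1 < κ.ord, ∀ δ ∈ D', δ.cof.ord < δ → δ ≤ δ1 := by
    by_cases hex : ∃ δ ∈ D', δ.cof.ord < δ
    · obtain ⟨δ1, h1, h2⟩ := hex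
      exact ⟨δ1, h1.2.1, fun δ hδ hs => not_lt.1 (sing δ1 h1 δ hδ h2 hs)⟩
    · push Not at hex
      exact ⟨0, hpos0, fun δ hδ hs => absurd hs (not_lt.2 (hex δ hδ))⟩
  choose nD hnD using hD'unb
  have hCunb : ∀ α, ∃ β, α < κ.ord → (β ∈ C ∧ α < β) := by
    intro α
    by_cases hα : α < κ.ord
    · obtain ⟨β, h1, h2⟩ := hC.2.1 α hα
      exact ⟨β, fun _ => ⟨h1, h2⟩⟩
    · exact ⟨0, fun h => absurd h hα⟩
  choose nC hnC using hCunb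
  have hω : (ω : Ordinal.{u}) < κ.ord := by
    rw [← ord_aleph0]
    exact ord_lt_ord.2 h0
  obtain ⟨γ, hγD, hγκ, hγ0, hγc, hγe⟩ := meet
    (fun α => max (nD α) (max (nC α) (max δ1 ω))) (fun α hα =>
      max_lt (hnD α hα).1.2.1 (max_lt (hC.1 (hnC α hα).1) (max_lt hδ1 hω)))
  have hγD' : γ ∈ D' := ⟨hγD, hγκ, hγ0, hγc⟩
  have hγ1 : δ1 < γ := ((le_max_left _ _).trans ((le_max_right _ _).trans
    (le_max_right _ _))).trans_lt (hγe 0 hγ0)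
  have hγω : ω < γ := ((le_max_right _ _).trans ((le_max_right _ _).trans
    (le_max_right _ _))).trans_lt (hγe 0 hγ0)
  have hcof : γ.cof.ord = γ := by
    refine le_antisymm (ord_cof_le γ) (not_lt.1 fun hlt => ?_)
    exact absurd (hδ1' γ hγD' hlt) (not_le.2 hγ1)
  have hcω : ℵ₀ < γ.cof := by
    have : ω < γ.cof.ord := by rw [hcof]; exact hγω
    rw [Cardinal.lt_ord, card_omega0] at this
    exact this
  have hlim : Order.IsSuccLimit γ := one_lt_cof_iff.1 (one_lt_aleph0.trans hcω)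
  refine ⟨γ.cof, fun i => un (Sn κ U a pr (ls κ U a pr i)) ∩ Set.Iio γ,
    {δ | δ ∈ D' ∧ δ < γ}, hcω, isRegular_cof hlim, ?_⟩
  rw [hcof]
  refine ⟨hγκ, ?_, ?_, fun δ hδ => hδ.2, ?_, ?_, ?_⟩
  · refine hC.2.2 γ hγκ hγ0.ne' (fun α hα => ?_)
    have h1 := hnC α (hα.trans hγκ)
    exact ⟨nC α, h1.1, h1.2, ((le_max_left _ _).trans (le_max_right _ _)).trans_lt (hγe α hα)⟩
  · intro α hα β hβ
    exact (le_max_left _ _).trans_lt (hγc 0 α hα β hβ)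
  · intro α hα
    have h1 := hnD α (hα.trans hγκ)
    exact ⟨nD α, ⟨h1.1, (le_max_left _ _).trans_lt (hγe α hα)⟩, h1.2⟩
  · intro n α hα δ hδ hlt
    rw [← trace_ls, m1 γ hγD' n α hα δ hδ.2, m3 δ hδ.1 n α hlt]
    exact ⟨fun h => ⟨h, hα⟩, fun h => h.1⟩
  · intro n ζ hζ
    have hη : η3 n ζ < γ :=
      ((le_max_left _ _).trans ((le_max_right _ _).trans ((le_max_right _ _).trans
        (le_max_right _ _)))).trans_lt (hγc n ζ hζ ζ hζ)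
    have hprγ : ∀ α < γ, ∀ β < γ, pr α β < γ := fun α hα β hβ =>
      (le_max_left _ _).trans_lt (hγc 0 α hα β hβ)
    rcases (hη3 n ζ (hζ.trans hγκ)).2 with h1 | ⟨α, hα, h1⟩
    · left
      refine ⟨η3 n ζ, hη, fun δ hδ hlt α hα => ?_⟩
      rw [← trace_ls, m1 γ hγD' n ζ hζ _ (hprγ α (hα.trans hδ.2) δ hδ.2)]
      exact h1 δ hδ.1.1 hlt α hα
    · right
      refine ⟨α, hα.trans_lt hη, η3 n ζ, hη, fun δ hδ hlt => ?_⟩
      rw [← trace_ls, m1 γ hγD' n ζ hζ _ (hprγ α (hα.trans_lt hη) δ hδ.2)]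
      exact h1 δ hδ.1.1 hlt

end Pool.Agent.Helper13.Ram
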