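import Pool.Agent.Helper13.RamG

/-!
# Downward Löwenheim–Skolem steps in `H θ`
-/

universe u

namespace Pool.Agent.Helper13.Ram

open Cardinal Ordinal ZFSet FirstOrder FirstOrder.Language

instance instCountableMemRel (n : ℕ) : Countable (LSet.Relations n) := by
  have : Subsingleton (LSet.Relations n) := by
    constructor
    intro a b
    cases a
    cases b
    rfl
  infer_instance

instance instEmptyFun (n : ℕ) : IsEmpty (LSet.Functions n) := inferInstanceAs (IsEmpty Empty)

theorem card_LSet : LSet.card ≤ ℵ₀ := by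
  have : Countable LSet.Symbols := by
    unfold Language.Symbols
    infer_instance
  exact Cardinal.mk_le_aleph0

theorem exists_LS {c θ : Cardinal.{u}} (h0 : ℵ₀ < c) (hcθ : c < θ) (X : Set (H θ))
    (hX : #X ≤ Cardinal.lift.{u + 1} c) :
    ∃ S : LSet.ElementarySubstructure (H θ), X ⊆ S ∧ #S = Cardinal.lift.{u + 1} c := by
  have hne : Nonempty (H θ) := ⟨⟨∅, empty_mem_H (h0.le.trans hcθ.le)⟩⟩
  have h1 : ℵ₀ ≤ Cardinal.lift.{u + 1} c := by simpa using h0.le
  obtain ⟨S, hS1, hS2⟩ := exists_elementarySubstructure_card_eq (L := LSet) X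
    (Cardinal.lift.{u + 1} c) h1 (by simpa using hX)
    (by
      have := card_LSet
      simp only [Cardinal.lift_id, Cardinal.lift_uzero]
      refine le_trans (Cardinal.lift_le.2 this) ?_
      simpa using h0.le)
    (by
      simp only [Cardinal.lift_id]
      have h2 : #(Set.Iio c.ord) = Cardinal.lift.{u + 1} c := by
        rw [Cardinal.mk_Iio_ordinal, card_ord]
      rw [← h2]
      refine Cardinal.mk_le_of_injective (f := fun α : Set.Iio c.ord =>
        (⟨α.1.toZFSet, ord_mem_H (lt_trans α.2 (ord_lt_ord.2 hcθ))⟩ : H θ)) ?_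
      intro α β h
      exact Subtype.ext (toZFSet_injective (congrArg Subtype.val h)))
  exact ⟨S, hS1, by simpa using hS2⟩

end Pool.Agent.Helper13.Ram
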