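import Pool.Agent.Helper13.RamH

/-!
# Steps of the local construction
-/

universe u

namespace Pool.Agent.Helper13.Ram

open Cardinal Ordinal ZFSet FirstOrder FirstOrder.Language

/-- The operations under which the models are closed. -/
noncomputable def ops (γ : Ordinal.{u}) (pr : Ordinal.{u} → Ordinal.{u} → Ordinal.{u})
    (V : Set ZFSet.{u}) (i : Fin 5) (s t : ZFSet.{u}) : ZFSet.{u} :=
  match i with
  | 0 => γ.toZFSet.sep (fun α => ∃ A ∈ V, pair α A ∈ s)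
  | 1 => diag γ.toZFSet s
  | 2 => cut γ {ξ | ∃ α β, α < γ ∧ β < γ ∧ ξ = pr α β ∧
      ∃ A, pair α.toZFSet A ∈ s ∧ β.toZFSet ∈ A}
  | 3 => γ.toZFSet.sep (fun z => z ∈ s ∧ z ∈ t)
  | 4 => γ.toZFSet \ s

theorem ops_subset (γ : Ordinal.{u}) (pr : Ordinal.{u} → Ordinal.{u} → Ordinal.{u})
    (V : Set ZFSet.{u}) (i : Fin 5) (s t : ZFSet.{u}) : ops γ pr V i s t ⊆ γ.toZFSet := by
  intro z hz
  match i with
  | 0 => unfold ops at hz; exact (mem_sep.1 hz).1
  | 1 => unfold ops diag at hz; exact (mem_sep.1 hz).1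
  | 2 => exact cut_subset _ _ hz
  | 3 => unfold ops at hz; exact (mem_sep.1 hz).1
  | 4 => exact (mem_sdiff.1 hz).1

theorem mem_asSet {θ : Cardinal.{u}} {M : LSet.ElementarySubstructure (H θ)} {x : H θ} :
    x.1 ∈ asSet M ↔ x ∈ M := by
  constructor
  · rintro ⟨h, hx⟩
    exact hx
  · intro h
    exact ⟨x.2, h⟩

theorem exists_next {c θ : Cardinal.{u}} (h0 : ℵ₀ < c) (hcθ : c < θ)
    (pr : Ordinal.{u} → Ordinal.{u} → Ordinal.{u})
    (S : LSet.ElementarySubstructure (H θ)) (V : Set ZFSet.{u}) :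
    ∃ S' : LSet.ElementarySubstructure (H θ), #S ≤ Cardinal.lift.{u + 1} c →
      ((S : Set (H θ)) ⊆ S' ∧ #S' = Cardinal.lift.{u + 1} c ∧
        ∀ s ∈ asSet S, ∀ t ∈ asSet S, ∀ i, ops c.ord pr V i s t ∈ asSet S') := by
  by_cases hS : #S ≤ Cardinal.lift.{u + 1} c
  · have hγ : c.ord.toZFSet ∈ H θ := ord_mem_H (ord_lt_ord.2 hcθ)
    let F : Fin 5 × S × S → H θ := fun p =>
      ⟨ops c.ord pr V p.1 p.2.1.1.1 p.2.2.1.1, H_subset hγ (ops_subset _ _ _ _ _ _)⟩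
    have h1 : ℵ₀ ≤ Cardinal.lift.{u + 1} c := by simpa using h0.le
    have hX : #(((S : Set (H θ)) ∪ Set.range F : Set (H θ))) ≤ Cardinal.lift.{u + 1} c := by
      refine (Cardinal.mk_union_le _ _).trans ?_
      refine Cardinal.add_le_of_le h1 hS ?_
      refine Cardinal.mk_range_le.trans ?_
      rw [Cardinal.mk_prod, Cardinal.mk_prod]
      simp only [Cardinal.lift_id, Cardinal.mk_fin, Cardinal.lift_natCast]
      refine Cardinal.mul_le_of_le h1 ((natCast_lt_aleph0 (n := 5)).le.trans h1) ?_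
      simpa using Cardinal.mul_le_of_le h1 hS hS
    obtain ⟨S', h2, h3⟩ := exists_LS h0 hcθ _ hX
    refine ⟨S', fun _ => ⟨Set.subset_union_left.trans h2, h3, ?_⟩⟩
    rintro s ⟨hs, hs'⟩ t ⟨ht, ht'⟩ i
    have h4 : F (i, ⟨⟨s, hs⟩, hs'⟩, ⟨⟨t, ht⟩, ht'⟩) ∈ S' :=
      h2 (Or.inr ⟨_, rfl⟩)
    exact ⟨(F (i, ⟨⟨s, hs⟩, hs'⟩, ⟨⟨t, ht⟩, ht'⟩)).2, h4⟩
  · exact ⟨S, fun h => absurd h hS⟩

theorem exists_en {c θ : Cardinal.{u}} (S : LSet.ElementarySubstructure (H θ)) :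
    ∃ e : Ordinal.{u} → Set Ordinal.{u}, #S ≤ Cardinal.lift.{u + 1} c →
      c.ord.toZFSet ∈ asSet S → ((∀ α < c.ord, cut c.ord (e α) ∈ asSet S) ∧
        ∀ A ∈ asSet S, A ⊆ c.ord.toZFSet → ∃ α < c.ord, cut c.ord (e α) = A) := by
  by_cases hS : #S ≤ Cardinal.lift.{u + 1} c ∧ c.ord.toZFSet ∈ asSet S
  · obtain ⟨h1, hγ1, hγ2⟩ := hS
    let T : Type (u + 1) := {s : S // s.1.1 ⊆ c.ord.toZFSet}
    have hne : Nonempty T := ⟨⟨⟨⟨c.ord.toZFSet, hγ1⟩, hγ2⟩, fun _ h => h⟩⟩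
    have h2 : #T ≤ #(Set.Iio c.ord) := by
      rw [Cardinal.mk_Iio_ordinal, card_ord]
      exact (Cardinal.mk_subtype_le _).trans h1
    obtain ⟨f⟩ := (Cardinal.le_def _ _).1 h2
    let g : Set.Iio c.ord → T := Function.invFun f
    have hg : Function.Surjective g := Function.invFun_surjective f.injective
    classical
    refine ⟨fun α => if h : α < c.ord then un (g ⟨α, h⟩).1.1.1 else ∅, fun _ _ => ⟨?_, ?_⟩⟩
    · intro α hα
      simp only [hα, dif_pos]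
      rw [cut_un (g ⟨α, hα⟩).2]
      exact ⟨(g ⟨α, hα⟩).1.1.2, (g ⟨α, hα⟩).1.2⟩
    · rintro A ⟨hA1, hA2⟩ hA3
      obtain ⟨⟨α, hα⟩, h3⟩ := hg ⟨⟨⟨A, hA1⟩, hA2⟩, hA3⟩
      have hα' : α < c.ord := hα
      refine ⟨α, hα', ?_⟩
      beta_reduce
      rw [dif_pos hα', h3]
      exact cut_un hA3
  · exact ⟨fun _ => ∅, fun h h' => absurd ⟨h, h'⟩ hS⟩

theorem exists_union {θ : Cardinal.{u}} (S : ℕ → LSet.ElementarySubstructure (H θ))
    (hmono : ∀ n, (S n : Set (H θ)) ⊆ S (n + 1)) :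
    ∃ M : LSet.ElementarySubstructure (H θ), (M : Set (H θ)) = ⋃ n, (S n : Set (H θ)) := by
  have hm : Monotone (fun n => (S n : Set (H θ))) := monotone_nat_of_le_succ hmono
  let T : LSet.Substructure (H θ) :=
    { carrier := ⋃ n, (S n : Set (H θ))
      fun_mem := fun {n} f => (instEmptyFun n).elim f }
  have hT : T.IsElementary := by
    apply Substructure.isElementary_of_exists
    intro n φ x a ha
    have h1 : ∀ i, ∃ N, (x i : H θ) ∈ S N := fun i => Set.mem_iUnion.1 (x i).2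
    choose N hN using h1
    obtain ⟨K, hK⟩ : ∃ K, ∀ i, N i ≤ K := by
      refine ⟨Finset.univ.sup N, fun i => Finset.le_sup (Finset.mem_univ i)⟩
    have hx : ∀ i, (x i : H θ) ∈ S K := fun i => hm (hK i) (hN i)
    let y : Fin n → S K := fun i => ⟨x i, hx i⟩
    have h2 : (∃' φ).Realize (default : Empty → H θ) (fun i => (x i : H θ)) := by
      rw [BoundedFormula.realize_ex]
      exact ⟨a, ha⟩
    have h3 : (∃' φ).Realize (default : Empty → S K) y := by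
      rw [← (S K).subtype.map_boundedFormula (∃' φ) default y]
      rw [Subsingleton.elim ((S K).subtype ∘ (default : Empty → S K)) default]
      exact h2
    rw [BoundedFormula.realize_ex] at h3
    obtain ⟨b, hb⟩ := h3
    rw [← (S K).subtype.map_boundedFormula,
      Subsingleton.elim ((S K).subtype ∘ (default : Empty → S K)) default] at hb
    refine ⟨⟨b.1, Set.mem_iUnion.2 ⟨K, b.2⟩⟩, ?_⟩
    convert hb using 1
    rw [Fin.comp_snoc]
    rfl
  exact ⟨⟨T, hT⟩, rfl⟩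

end Pool.Agent.Helper13.Ram
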