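import Pool.Agent.Helper13.RamI

/-!
# The local lemma: a winning play gives a witness
-/

universe u

namespace Pool.Agent.Helper13.Ram

open Cardinal Ordinal ZFSet FirstOrder FirstOrder.Language

/-- `(M, U)` witnesses `Ψ^θ_ω`-Ramseyness of `κ` for the parameter `x`. -/
def Wit (Ψ : Cardinal.{u} → Set ZFSet.{u} → Prop) (θ κ : Cardinal.{u}) (x : ZFSet.{u}) : Prop :=
  ∃ (M : LSet.ElementarySubstructure (H θ)) (U : Set ZFSet.{u}),
    x ∈ asSet M ∧ #M = Cardinal.lift.{u + 1} κ ∧ (∀ α ≤ κ.ord, α.toZFSet ∈ asSet M) ∧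
    IsMUltrafilter κ.ord.toZFSet (asSet M) U ∧ (∀ A ∈ U, A.card = κ) ∧
    MNormal κ.ord.toZFSet (asSet M) U ∧ Amenable κ.ord.toZFSet (asSet M) U ∧ Ψ κ U

/-- The states of the local construction. -/
noncomputable def st {θ : Cardinal.{u}} (γ : Ordinal.{u})
    (S0 : LSet.ElementarySubstructure (H θ))
    (next : LSet.ElementarySubstructure (H θ) → Set ZFSet.{u} →
      LSet.ElementarySubstructure (H θ))
    (en : LSet.ElementarySubstructure (H θ) → Ordinal.{u} → Set Ordinal.{u}) :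
    List (Set Ordinal.{u}) → LSet.ElementarySubstructure (H θ) × Set ZFSet.{u}
  | [] => (S0, ∅)
  | B :: l =>
    (next (st γ S0 next en l).1
      ((st γ S0 next en l).2 ∪ {A | ∃ β < γ, β ∈ B ∧ A = cut γ (en (st γ S0 next en l).1 β)}),
      (st γ S0 next en l).2 ∪ {A | ∃ β < γ, β ∈ B ∧ A = cut γ (en (st γ S0 next en l).1 β)})

theorem exists_S0 {c θ : Cardinal.{u}} (h0 : ℵ₀ < c) (hcθ : c < θ) {x : ZFSet.{u}}
    (hx : x ∈ H θ) : ∃ S0 : LSet.ElementarySubstructure (H θ),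
      x ∈ asSet S0 ∧ (∀ α ≤ c.ord, α.toZFSet ∈ asSet S0) ∧ #S0 = Cardinal.lift.{u + 1} c := by
  have hord : ∀ α ≤ c.ord, α.toZFSet ∈ H θ := fun α hα =>
    ord_mem_H (hα.trans_lt (ord_lt_ord.2 hcθ))
  let F : Set.Iio (c.ord + 1) → H θ := fun α =>
    ⟨α.1.toZFSet, hord α.1 (Order.lt_add_one_iff.1 α.2)⟩
  have h1 : ℵ₀ ≤ Cardinal.lift.{u + 1} c := by simpa using h0.le
  have hX : #(({⟨x, hx⟩} ∪ Set.range F : Set (H θ))) ≤ Cardinal.lift.{u + 1} c := by
    refine (Cardinal.mk_union_le _ _).trans ?_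
    refine Cardinal.add_le_of_le h1 ?_ ?_
    · rw [Cardinal.mk_singleton]
      exact (one_lt_aleph0).le.trans h1
    · refine Cardinal.mk_range_le.trans ?_
      rw [Cardinal.mk_Iio_ordinal, Cardinal.lift_le, Ordinal.card_add, card_ord]
      simp only [Ordinal.card_one]
      exact (Cardinal.add_one_eq h0.le).le
  obtain ⟨S, h2, h3⟩ := exists_LS h0 hcθ _ hX
  refine ⟨S, ⟨hx, h2 (Or.inl rfl)⟩, fun α hα => ⟨hord α hα, ?_⟩, h3⟩
  exact h2 (Or.inr ⟨⟨α, Order.lt_add_one_iff.2 hα⟩, rfl⟩)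

theorem card_eq_of_tail {c : Cardinal.{u}} (hr : c.IsRegular) {E : Set Ordinal.{u}}
    (hE : ∀ α < c.ord, ∃ δ ∈ E, α < δ) {A : ZFSet.{u}} (hA : A ⊆ c.ord.toZFSet)
    (ht : ∃ η < c.ord, ∀ δ ∈ E, η < δ → δ.toZFSet ∈ A) : A.card = c := by
  refine le_antisymm ?_ (not_lt.1 fun hlt => ?_)
  · have := card_mono hA
    rwa [card_toZFSet, card_ord] at this
  · obtain ⟨η, hη, h1⟩ := ht
    let f : Shrink.{u} A → Ordinal.{u} := fun a => ((equivShrink A).symm a).1.rank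
    have hf : ∀ a, f a < c.ord := by
      intro a
      have h2 := hA ((equivShrink A).symm a).2
      obtain ⟨α, hα, h3⟩ := mem_toZFSet_iff.1 h2
      show (((equivShrink A).symm a).1).rank < c.ord
      rw [← h3, rank_toZFSet]
      exact hα
    have hsup : ⨆ a, f a < c.ord := by
      apply Ordinal.iSup_lt_of_lt_cof _ hf
      rw [hr.cof_ord]
      exact hlt
    obtain ⟨δ, hδ, h4⟩ := hE (max η (⨆ a, f a)) (max_lt hη hsup)
    have h5 : δ.toZFSet ∈ A := h1 δ hδ ((le_max_left _ _).trans_lt h4)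
    have h6 : f (equivShrink A ⟨δ.toZFSet, h5⟩) = δ := by
      show (((equivShrink A).symm (equivShrink A ⟨δ.toZFSet, h5⟩)).1).rank = δ
      rw [Equiv.symm_apply_apply, rank_toZFSet]
    have h7 := Ordinal.le_iSup f (equivShrink A ⟨δ.toZFSet, h5⟩)
    rw [h6] at h7
    exact absurd ((le_max_right _ _).trans_lt h4) (not_lt.2 h7)

end Pool.Agent.Helper13.Ram
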