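import Pool.Agent.Helper13.RamJ

/-!
# The local lemma
-/

universe u

namespace Pool.Agent.Helper13.Ram

open Cardinal Ordinal ZFSet FirstOrder FirstOrder.Language

theorem lemmaA {c θ : Cardinal.{u}} (h0 : ℵ₀ < c) (hr : c.IsRegular) (hcθ : c < θ)
    {x : ZFSet.{u}} (hx : x ∈ H θ) (pr : Ordinal.{u} → Ordinal.{u} → Ordinal.{u}) :
    ∃ a : List (Set Ordinal.{u}) → Ordinal.{u} → Set Ordinal.{u},
      (∀ α < c.ord, ∀ β < c.ord, pr α β < c.ord) →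
      (∀ α < c.ord, ∀ β < c.ord, ∀ α' < c.ord, ∀ β' < c.ord, pr α β = pr α' β' →
        α = α' ∧ β = β') →
      ∀ (B : ℕ → Set Ordinal.{u}) (E : Set Ordinal.{u}),
      (∀ δ ∈ E, δ < c.ord) → (∀ α < c.ord, ∃ δ ∈ E, α < δ) →
      (∀ n, ∀ α < c.ord, ∀ δ ∈ E, α < δ → (δ ∈ a (pos B n) α ↔ α ∈ B n)) →
      (∀ n, ∀ ζ < c.ord,
        (∃ η < c.ord, ∀ δ ∈ E, η < δ → ∀ α < δ, pr α δ ∈ a (pos B n) ζ) ∨
        (∃ α < c.ord, ∃ η < c.ord, ∀ δ ∈ E, η < δ → pr α δ ∉ a (pos B n) ζ)) →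
      Wit CC θ c x := by
  obtain ⟨S0, hxS0, hordS0, hcardS0⟩ := exists_S0 h0 hcθ hx
  choose next hnext using exists_next (θ := θ) h0 hcθ pr
  choose en hen using exists_en (c := c) (θ := θ)
  refine ⟨fun l => en (st c.ord S0 next en l).1, ?_⟩
  intro hpr hinj B E hE1 hE2 hT hN
  have hθ0 : ℵ₀ ≤ θ := h0.le.trans hcθ.le
  have hlift0 : ℵ₀ ≤ Cardinal.lift.{u + 1} c := by simpa using h0.le
  -- notation
  obtain ⟨S, hSdef⟩ : ∃ S : ℕ → LSet.ElementarySubstructure (H θ),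
      ∀ n, S n = (st c.ord S0 next en (pos B n)).1 := ⟨_, fun _ => rfl⟩
  obtain ⟨V, hVdef⟩ : ∃ V : ℕ → Set ZFSet.{u},
      ∀ n, V n = (st c.ord S0 next en (pos B n)).2 := ⟨_, fun _ => rfl⟩
  have hS00 : S 0 = S0 := by rw [hSdef]; rfl
  have hV0 : V 0 = ∅ := by rw [hVdef]; rfl
  have hV1 : ∀ n, V (n + 1) =
      V n ∪ {A | ∃ β < c.ord, β ∈ B n ∧ A = cut c.ord (en (S n) β)} := by
    intro n
    rw [hVdef, hVdef, hSdef]
    rfl
  have hS1 : ∀ n, S (n + 1) = next (S n) (V (n + 1)) := by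
    intro n
    rw [hV1, hSdef, hSdef, hVdef]
    rfl
  simp only [← hSdef] at hT hN
  have hcard : ∀ n, #(S n) = Cardinal.lift.{u + 1} c := by
    intro n
    induction n with
    | zero => rw [hS00]; exact hcardS0
    | succ n ih =>
      rw [hS1]
      exact (hnext (S n) (V (n + 1)) ih.le).2.1
  have hmono : ∀ n, (S n : Set (H θ)) ⊆ S (n + 1) := by
    intro n
    rw [hS1]
    exact (hnext (S n) (V (n + 1)) (hcard n).le).1
  have hops : ∀ n, ∀ s ∈ asSet (S n), ∀ t ∈ asSet (S n), ∀ i,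
      ops c.ord pr (V (n + 1)) i s t ∈ asSet (S (n + 1)) := by
    intro n
    rw [hS1]
    exact (hnext (S n) (V (n + 1)) (hcard n).le).2.2
  have hm : Monotone (fun n => (S n : Set (H θ))) := monotone_nat_of_le_succ hmono
  have hasm : ∀ {m n : ℕ}, m ≤ n → asSet (S m) ⊆ asSet (S n) := by
    rintro m n hmn y ⟨hy1, hy2⟩
    exact ⟨hy1, hm hmn hy2⟩
  have hord : ∀ n, ∀ α ≤ c.ord, α.toZFSet ∈ asSet (S n) := by
    intro n α hα
    refine hasm (Nat.zero_le n) ?_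
    rw [hS00]
    exact hordS0 α hα
  have en1 : ∀ n, ∀ α < c.ord, cut c.ord (en (S n) α) ∈ asSet (S n) := fun n =>
    (hen (S n) (hcard n).le (hord n _ le_rfl)).1
  have en2 : ∀ n, ∀ A ∈ asSet (S n), A ⊆ c.ord.toZFSet → ∃ α < c.ord,
      cut c.ord (en (S n) α) = A := fun n =>
    (hen (S n) (hcard n).le (hord n _ le_rfl)).2
  obtain ⟨M, hM⟩ := exists_union S hmono
  have hMmem : ∀ y : H θ, y ∈ M ↔ ∃ n, y ∈ S n := by
    intro y
    have : y ∈ (M : Set (H θ)) ↔ y ∈ ⋃ n, (S n : Set (H θ)) := by rw [hM]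
    rw [Set.mem_iUnion] at this
    exact this
  have hasM : ∀ y, y ∈ asSet M ↔ ∃ n, y ∈ asSet (S n) := by
    intro y
    constructor
    · rintro ⟨h1, h2⟩
      obtain ⟨n, hn⟩ := (hMmem _).1 h2
      exact ⟨n, h1, hn⟩
    · rintro ⟨n, h1, h2⟩
      exact ⟨h1, (hMmem _).2 ⟨n, h2⟩⟩
  have hSM : ∀ n, asSet (S n) ⊆ asSet M := fun n y hy => (hasM y).2 ⟨n, hy⟩
  -- the ultrafilter
  have hVmono : Monotone V := by
    apply monotone_nat_of_le_succ
    intro n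
    rw [hV1]
    exact Set.subset_union_left
  have hVform : ∀ n A, A ∈ V n → ∃ m, ∃ β < c.ord, β ∈ B m ∧ A = cut c.ord (en (S m) β) := by
    intro n
    induction n with
    | zero =>
      intro A hA
      rw [hV0] at hA
      exact absurd hA (Set.notMem_empty A)
    | succ n ih =>
      intro A hA
      rw [hV1] at hA
      rcases hA with hA | ⟨β, h1, h2, h3⟩
      · exact ih A hA
      · exact ⟨n, β, h1, h2, h3⟩
  have hcutE : ∀ n, ∀ α < c.ord, ∀ δ ∈ E, α < δ →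
      (δ.toZFSet ∈ cut c.ord (en (S n) α) ↔ α ∈ B n) := by
    intro n α hα δ hδ hlt
    rw [toZFSet_mem_cut, ← hT n α hα δ hδ hlt]
    exact ⟨fun h => h.2, fun h => ⟨hE1 δ hδ, h⟩⟩
  have hVof : ∀ n A, A ∈ asSet (S n) → A ⊆ c.ord.toZFSet →
      (∃ η < c.ord, ∀ δ ∈ E, η < δ → δ.toZFSet ∈ A) → A ∈ V (n + 1) := by
    intro n A hA hAG ⟨η, hη, h1⟩
    obtain ⟨α, hα, rfl⟩ := en2 n A hA hAG
    obtain ⟨δ, hδ, h2⟩ := hE2 (max α η) (max_lt hα hη)
    have h3 := (hcutE n α hα δ hδ ((le_max_left _ _).trans_lt h2)).1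
      (h1 δ hδ ((le_max_right _ _).trans_lt h2))
    rw [hV1]
    exact Or.inr ⟨α, hα, h3, rfl⟩
  let U : Set ZFSet.{u} := {A | ∃ n, A ∈ V n}
  have hU : ∀ A, A ∈ U ↔ A ∈ asSet M ∧ A ⊆ c.ord.toZFSet ∧
      ∃ η < c.ord, ∀ δ ∈ E, η < δ → δ.toZFSet ∈ A := by
    intro A
    constructor
    · rintro ⟨n, hn⟩
      obtain ⟨m, β, h1, h2, rfl⟩ := hVform n A hn
      exact ⟨hSM m (en1 m β h1), cut_subset _ _, β, h1,
        fun δ hδ hlt => (hcutE m β h1 δ hδ hlt).2 h2⟩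
    · rintro ⟨h1, h2, h3⟩
      obtain ⟨n, hn⟩ := (hasM A).1 h1
      exact ⟨n + 1, hVof n A hn h2 h3⟩
  have hc0 : (0 : Ordinal.{u}) < c.ord := hr.ord_pos
  have hUV : ∀ n A, A ∈ asSet (S n) → A ∈ U → A ∈ V (n + 1) := fun n A hA hAU =>
    hVof n A hA ((hU A).1 hAU).2.1 ((hU A).1 hAU).2.2
  refine ⟨M, U, hSM 0 (by rw [hS00]; exact hxS0), ?_, fun α hα => hSM 0 (hord 0 α hα), ?_, ?_,
    ?_, ?_, ?_⟩
  · -- cardinality
    have h1 : #M = #(⋃ n, (S n : Set (H θ)) : Set (H θ)) := by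
      rw [← hM]
      rfl
    rw [h1]
    apply le_antisymm
    · have h2 := mk_iUnion_le_lift (fun n : ℕ => (S n : Set (H θ)))
      simp only [Cardinal.lift_uzero, Cardinal.mk_nat, Cardinal.lift_aleph0] at h2
      refine h2.trans ?_
      refine Cardinal.mul_le_of_le hlift0 hlift0 ?_
      refine ciSup_le' (fun n => ?_)
      exact (hcard n).le
    · rw [← hcard 0]
      exact Cardinal.mk_le_mk_of_subset (Set.subset_iUnion (fun n => (S n : Set (H θ))) 0)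
  · -- ultrafilter
    refine ⟨fun A hA => ⟨((hU A).1 hA).1, ((hU A).1 hA).2.1⟩, ?_, ?_, ?_, ?_, ?_⟩
    · refine (hU _).2 ⟨hSM 0 (hord 0 _ le_rfl), fun _ h => h, 0, hc0, fun δ hδ _ => ?_⟩
      exact toZFSet_mem_toZFSet_iff.2 (hE1 δ hδ)
    · intro h
      obtain ⟨-, -, η, hη, h1⟩ := (hU _).1 h
      obtain ⟨δ, hδ, h2⟩ := hE2 η hη
      exact notMem_empty _ (h1 δ hδ h2)
    · intro A hA A' hA'
      obtain ⟨h1, h2, η, hη, h3⟩ := (hU _).1 hA
      obtain ⟨h1', h2', η', hη', h3'⟩ := (hU _).1 hA'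
      obtain ⟨n, hn⟩ := (hasM _).1 h1
      obtain ⟨n', hn'⟩ := (hasM _).1 h1'
      have h4 := hops (max n n') A (hasm (le_max_left _ _) hn) A' (hasm (le_max_right _ _) hn') 3
      have h5 : ops c.ord pr (V (max n n' + 1)) 3 A A' = A ∩ A' := by
        unfold ops
        ext z
        rw [mem_sep, mem_inter]
        exact ⟨fun h => h.2, fun h => ⟨h2 h.1, h⟩⟩
      rw [h5] at h4
      refine (hU _).2 ⟨hSM _ h4, fun z hz => h2 (mem_inter.1 hz).1, max η η', max_lt hη hη',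
        fun δ hδ hlt => mem_inter.2 ⟨h3 δ hδ ((le_max_left _ _).trans_lt hlt),
          h3' δ hδ ((le_max_right _ _).trans_lt hlt)⟩⟩
    · intro A hA A' hA' hA'G hsub
      obtain ⟨h1, h2, η, hη, h3⟩ := (hU _).1 hA
      exact (hU _).2 ⟨hA', hA'G, η, hη, fun δ hδ hlt => hsub (h3 δ hδ hlt)⟩
    · intro A hA hAG
      obtain ⟨n, hn⟩ := (hasM _).1 hA
      obtain ⟨α, hα, rfl⟩ := en2 n A hn hAG
      by_cases hαB : α ∈ B n
      · left
        exact (hU _).2 ⟨hA, hAG, α, hα, fun δ hδ hlt => (hcutE n α hα δ hδ hlt).2 hαB⟩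
      · right
        have h4 := hops n _ hn _ hn 4
        refine (hU _).2 ⟨hSM _ h4, fun z hz => (mem_sdiff.1 hz).1, α, hα, fun δ hδ hlt => ?_⟩
        rw [mem_sdiff]
        refine ⟨toZFSet_mem_toZFSet_iff.2 (hE1 δ hδ), fun h => hαB ?_⟩
        exact (hcutE n α hα δ hδ hlt).1 h
  · -- uniform
    intro A hA
    obtain ⟨h1, h2, h3⟩ := (hU _).1 hA
    exact card_eq_of_tail hr hE2 h2 h3
  · -- normal
    intro s hs hsf hsU
    obtain ⟨n, hn⟩ := (hasM _).1 hs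
    have hdiag : diag c.ord.toZFSet s ∈ asSet (S (n + 1)) := hops n s hn s hn 1
    have hcode := hops n s hn s hn 2
    obtain ⟨ζ, hζ, hζ2⟩ := en2 (n + 1) _ hcode (ops_subset _ _ _ _ _ _)
    have huniq : ∀ z A A', pair z A ∈ s → pair z A' ∈ s → A = A' := by
      intro z A A' hA hA'
      have hz : z ∈ c.ord.toZFSet := (pair_mem_prod.1 (hsf.1 hA)).1
      exact (hsf.2 z hz).unique hA hA'
    rcases hN (n + 1) ζ hζ with ⟨η, hη, h1⟩ | ⟨α, hα, η, hη, h1⟩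
    · refine (hU _).2 ⟨hSM _ hdiag, sep_subset, η, hη, fun δ hδ hlt => ?_⟩
      unfold diag
      rw [mem_sep]
      refine ⟨toZFSet_mem_toZFSet_iff.2 (hE1 δ hδ), ?_⟩
      intro a ha A hA
      obtain ⟨α, hα, rfl⟩ := mem_toZFSet_iff.1 ha
      have h2 := h1 δ hδ hlt α hα
      have hαc : α < c.ord := hα.trans (hE1 δ hδ)
      have h3 : (pr α δ).toZFSet ∈ cut c.ord (en (S (n + 1)) ζ) :=
        toZFSet_mem_cut.2 ⟨hpr α hαc δ (hE1 δ hδ), h2⟩
      rw [hζ2] at h3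
      unfold ops at h3
      rw [toZFSet_mem_cut] at h3
      obtain ⟨-, α', β', hα', hβ', he, A', hA', hβA'⟩ := h3
      obtain ⟨rfl, rfl⟩ := hinj α hαc δ (hE1 δ hδ) α' hα' β' hβ' he
      rw [huniq _ _ _ hA hA']
      exact hβA'
    · exfalso
      obtain ⟨A, hA, -⟩ := hsf.2 α.toZFSet (toZFSet_mem_toZFSet_iff.2 hα)
      obtain ⟨-, -, η', hη', h2⟩ := (hU _).1 (hsU _ _ hA)
      obtain ⟨δ, hδ, h3⟩ := hE2 (max η η') (max_lt hη hη')
      apply h1 δ hδ ((le_max_left _ _).trans_lt h3)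
      have h4 := h2 δ hδ ((le_max_right _ _).trans_lt h3)
      have h5 : (pr α δ).toZFSet ∈ cut c.ord (en (S (n + 1)) ζ) := by
        rw [hζ2]
        unfold ops
        rw [toZFSet_mem_cut]
        exact ⟨hpr α hα δ (hE1 δ hδ), α, δ, hα, hE1 δ hδ, rfl, A, hA, h4⟩
      exact (toZFSet_mem_cut.1 h5).2
  · -- amenable
    intro s hs hsf
    obtain ⟨n, hn⟩ := (hasM _).1 hs
    have h1 := hops n s hn s hn 0
    have h2 : ops c.ord pr (V (n + 1)) 0 s s =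
        c.ord.toZFSet.sep (fun α => ∃ A ∈ U, pair α A ∈ s) := by
      unfold ops
      ext z
      rw [mem_sep, mem_sep]
      constructor
      · rintro ⟨hz, A, hA, hA2⟩
        exact ⟨hz, A, ⟨_, hA⟩, hA2⟩
      · rintro ⟨hz, A, hA, hA2⟩
        refine ⟨hz, A, hUV n A ?_ hA, hA2⟩
        obtain ⟨α, hα, rfl⟩ := mem_toZFSet_iff.1 hz
        refine app_mem hθ0 (S n) hn (hord n α hα.le) hA2 ?_
        intro y' hy'
        exact (hsf.2 _ hz).unique hy' hA2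
    rw [h2] at h1
    exact hSM _ h1
  · -- countably complete
    intro A hA
    have h1 : ∀ n, ∃ η, η < c.ord ∧ ∀ δ ∈ E, η < δ → δ.toZFSet ∈ A n := by
      intro n
      obtain ⟨-, -, η, hη, h⟩ := (hU _).1 (hA n)
      exact ⟨η, hη, h⟩
    choose η hη1 hη2 using h1
    obtain ⟨δ, hδ, h2⟩ := hE2 (⨆ n, η n) (iSup_nat_lt h0 hr η hη1)
    exact ⟨δ.toZFSet, fun n => hη2 n δ hδ ((Ordinal.le_iSup η n).trans_lt h2)⟩

end Pool.Agent.Helper13.Ram
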