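import Pool.Agent.Helper13.RamK

/-!
# The main theorems
-/

universe u

namespace Pool.Agent.Helper13.Ram

open Cardinal Ordinal ZFSet FirstOrder FirstOrder.Language

theorem exists_pairing {κ : Cardinal.{u}} (h0 : ℵ₀ ≤ κ) :
    ∃ pr : Ordinal.{u} → Ordinal.{u} → Ordinal.{u},
      (∀ α < κ.ord, ∀ β < κ.ord, pr α β < κ.ord) ∧
      (∀ α < κ.ord, ∀ β < κ.ord, ∀ α' < κ.ord, ∀ β' < κ.ord, pr α β = pr α' β' →
        α = α' ∧ β = β') := by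
  have h1 : #(Set.Iio κ.ord × Set.Iio κ.ord) ≤ #(Set.Iio κ.ord) := by
    rw [Cardinal.mk_prod, Cardinal.mk_Iio_ordinal, card_ord]
    simp only [Cardinal.lift_id]
    have h2 : ℵ₀ ≤ Cardinal.lift.{u + 1} κ := by simpa using h0
    exact (Cardinal.mul_eq_self h2).le
  obtain ⟨e⟩ := (Cardinal.le_def _ _).1 h1
  classical
  refine ⟨fun α β => if h : α < κ.ord ∧ β < κ.ord then (e (⟨α, h.1⟩, ⟨β, h.2⟩)).1 else 0, ?_, ?_⟩
  · intro α hα β hβ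
    have h : α < κ.ord ∧ β < κ.ord := ⟨hα, hβ⟩
    beta_reduce
    rw [dif_pos h]
    exact (e (⟨α, h.1⟩, ⟨β, h.2⟩)).2
  · intro α hα β hβ α' hα' β' hβ' he
    have h : α < κ.ord ∧ β < κ.ord := ⟨hα, hβ⟩
    have h' : α' < κ.ord ∧ β' < κ.ord := ⟨hα', hβ'⟩
    beta_reduce at he
    rw [dif_pos h, dif_pos h'] at he
    have h3 := e.injective (Subtype.ext he)
    simp only [Prod.mk.injEq] at h3
    exact ⟨congrArg Subtype.val h3.1, congrArg Subtype.val h3.2⟩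

/-- Below a `Δ`-Ramsey cardinal there are stationarily many `cc`-Ramsey cardinals. -/
theorem stationary_CC {κ : Cardinal.{u}} (h : Ramsey Normal κ) :
    IsStatIn κ {γ | ∃ c : Cardinal.{u}, γ = c.ord ∧ c < κ ∧ Ramsey CC c} := by
  intro C hC
  by_contra hne
  obtain ⟨pr, hpr, hinj⟩ := exists_pairing h.1.le
  have h1 : ∀ c : Cardinal.{u}, ∃ a : List (Set Ordinal.{u}) → Ordinal.{u} → Set Ordinal.{u},
      ℵ₀ < c → c.IsRegular → c.ord < κ.ord → c.ord ∈ C →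
      (∀ α < c.ord, ∀ β < c.ord, pr α β < c.ord) →
      ∀ (B : ℕ → Set Ordinal.{u}) (E : Set Ordinal.{u}),
      (∀ δ ∈ E, δ < c.ord) → (∀ α < c.ord, ∃ δ ∈ E, α < δ) →
      (∀ n, ∀ α < c.ord, ∀ δ ∈ E, α < δ → (δ ∈ a (pos B n) α ↔ α ∈ B n)) →
      (∀ n, ∀ ζ < c.ord,
        (∃ η < c.ord, ∀ δ ∈ E, η < δ → ∀ α < δ, pr α δ ∈ a (pos B n) ζ) ∨
        (∃ α < c.ord, ∃ η < c.ord, ∀ δ ∈ E, η < δ → pr α δ ∉ a (pos B n) ζ)) →
      False := by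
    intro c
    by_cases hc : ℵ₀ < c ∧ c.IsRegular ∧ c.ord < κ.ord ∧ c.ord ∈ C
    · obtain ⟨hc0, hcr, hcκ, hcC⟩ := hc
      have h2 : ¬ Ramsey CC c := by
        intro h3
        exact hne ⟨c.ord, ⟨c, rfl, ord_lt_ord.1 hcκ, h3⟩, hcC⟩
      have h3 : ∃ θ : Cardinal.{u}, c < θ ∧ ∃ x ∈ H θ, ¬ Wit CC θ c x := by
        by_contra hcon
        push Not at hcon
        exact h2 ⟨hc0, hcr, fun θ _ hcθ x hx => hcon θ hcθ x hx⟩
      obtain ⟨θ, hcθ, x, hx, hW⟩ := h3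
      obtain ⟨a, ha⟩ := lemmaA hc0 hcr hcθ hx pr
      refine ⟨a, fun _ _ _ _ hp B E h4 h5 h6 h7 => hW (ha hp ?_ B E h4 h5 h6 h7)⟩
      intro α hα β hβ α' hα' β' hβ'
      exact hinj α (hα.trans hcκ) β (hβ.trans hcκ) α' (hα'.trans hcκ) β' (hβ'.trans hcκ)
    · exact ⟨fun _ _ => ∅, fun h4 h5 h6 h7 => absurd ⟨h4, h5, h6, h7⟩ hc⟩
  choose a ha using h1
  obtain ⟨c, B, E, hc0, hcr, hcκ, hcC, h2, h3, h4, h5, h6⟩ :=
    lemmaB h (fun γ => a γ.card) pr hpr hinj C hC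
  simp only [card_ord] at h5 h6
  exact ha c hc0 hcr hcκ hcC h2 B E h3 h4 h5 h6

/-- `Δ`-Ramsey cardinals are inaccessible. -/
theorem inaccessible_of_normal {κ : Cardinal.{u}} (h : Ramsey Normal κ) : κ.IsInaccessible := by
  refine ⟨h.1, h.2.1.2, ?_⟩
  intro μ hμ
  by_contra hcon
  rw [not_lt] at hcon
  have h1 : #(Set.Iio κ.ord) ≤ #(Set (Set.Iio μ.ord)) := by
    rw [Cardinal.mk_set, Cardinal.mk_Iio_ordinal, Cardinal.mk_Iio_ordinal, card_ord, card_ord,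
      ← Cardinal.lift_two_power]
    exact Cardinal.lift_le.2 hcon
  obtain ⟨g⟩ := (Cardinal.le_def _ _).1 h1
  let w : ℕ → Ordinal.{u} → Set Ordinal.{u} := fun _ γ =>
    {i | ∃ (h : γ < κ.ord) (hi : i < μ.ord), (⟨i, hi⟩ : Set.Iio μ.ord) ∈ g ⟨γ, h⟩}
  obtain ⟨M, U, D, hG, hCl⟩ := exists_closed h (fun _ _ _ => ∅) (fun _ _ => 0) w
  choose η hη using fun ξ => exists_index hG (hCl.hW 0) ξ
  have meet : ∀ ρ < κ.ord, ∃ δ ∈ D, δ < κ.ord ∧ (∀ α < δ, η α < δ) ∧ ρ < δ := by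
    intro ρ hρ
    obtain ⟨δ, hδ, h1, h2, h3⟩ := hG.stat _ (closure_club h.1 h.2.1
      (fun n α β => max (η α) ρ) (fun n α hα β hβ => max_lt (hη α hα).1 hρ))
    exact ⟨δ, hδ, h1, fun α hα => (le_max_left _ _).trans_lt (h3 0 α hα α hα),
      (le_max_right _ _).trans_lt (h3 0 0 h2 0 h2)⟩
  obtain ⟨δ, hδ, hδκ, hδ1, hδ2⟩ := meet μ.ord (ord_lt_ord.2 hμ)
  obtain ⟨δ', hδ', hδκ', hδ1', hδ2'⟩ := meet δ hδκ
  have h2 : ∀ i < μ.ord, (i ∈ w 0 δ ↔ i ∈ w 0 δ') := by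
    intro i hi
    have h3 := (hη i (hi.trans (ord_lt_ord.2 hμ))).2 δ hδ (hδ1 i (hi.trans hδ2))
    have h4 := (hη i (hi.trans (ord_lt_ord.2 hμ))).2 δ' hδ' (hδ1' i (hi.trans (hδ2.trans hδ2')))
    exact h3.trans h4.symm
  have h3 : g ⟨δ, hδκ⟩ = g ⟨δ', hδκ'⟩ := by
    ext ⟨i, hi⟩
    have h4 := h2 i hi
    constructor
    · intro h5
      obtain ⟨_, _, h6⟩ := h4.1 ⟨hδκ, hi, h5⟩
      exact h6
    · intro h5
      obtain ⟨_, _, h6⟩ := h4.2 ⟨hδκ', hi, h5⟩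
      exact h6
  have h4 := congrArg Subtype.val (g.injective h3)
  exact absurd h4 hδ2'.ne

/-- If there is a `cc`-Ramsey cardinal then there is one that is not `Δ`-Ramsey. -/
theorem exists_CC_not_normal (h : ∃ κ : Cardinal.{u}, Ramsey CC κ) :
    ∃ κ : Cardinal.{u}, Ramsey CC κ ∧ (∀ c < κ, ¬ Ramsey CC c) ∧ ¬ Ramsey Normal κ := by
  obtain ⟨κ, hκ, hmin⟩ := WellFounded.has_min (wellFounded_lt (α := Cardinal.{u}))
    {κ | Ramsey CC κ} h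
  refine ⟨κ, hκ, fun c hc hcc => hmin c hcc hc, fun hN => ?_⟩
  obtain ⟨γ, ⟨c, -, hcκ, hc⟩, -⟩ := stationary_CC hN _ (closure_club hN.1 hN.2.1
    (fun _ _ _ => 0) (fun _ α hα _ _ => (zero_le).trans_lt hα))
  exact hmin c hc hcκ

end Pool.Agent.Helper13.Ram
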